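import Mathlib

open Set MeasureTheory Manifold Bundle Filter
open scoped Manifold ENNReal ContDiff Topology NNReal Bundle

namespace Pool.Agent.HS

variable
  {E : Type*} [NormedAddCommGroup E] [NormedSpace ℝ E]
  {H : Type*} [TopologicalSpace H] (I : ModelWithCorners ℝ E H)
  {M : Type*} [TopologicalSpace M] [ChartedSpace H M]

/-- The differential of a real function, with values in the reals. -/
noncomputable def dReal (f : M → ℝ) (x : M) (v : TangentSpace I x) : ℝ :=
  mfderiv I 𝓘(ℝ, ℝ) f x v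

variable {I} in
theorem dReal_comp {f : M → ℝ} {x : M} (hf : MDifferentiableAt I 𝓘(ℝ, ℝ) f x) {φ : ℝ → ℝ} {c : ℝ}
    (hφ : HasDerivAt φ c (f x)) (v : TangentSpace I x) :
    dReal I (fun z => φ (f z)) x v = c * dReal I f x v := by
  have h1 : mfderiv I 𝓘(ℝ, ℝ) (φ ∘ f) x
      = (mfderiv 𝓘(ℝ, ℝ) 𝓘(ℝ, ℝ) φ (f x)).comp (mfderiv I 𝓘(ℝ, ℝ) f x) :=
    mfderiv_comp x hφ.differentiableAt.mdifferentiableAt hf
  have h2 : dReal I (fun z => φ (f z)) x v = fderiv ℝ φ (f x) (dReal I f x v) := by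
    have := congrArg (fun L => L v) h1
    rw [mfderiv_eq_fderiv] at this
    exact this
  rw [h2]
  have h3 : fderiv ℝ φ (f x) (dReal I f x v) = (dReal I f x v) * fderiv ℝ φ (f x) 1 := by
    have := (fderiv ℝ φ (f x)).map_smul (dReal I f x v) (1:ℝ)
    rw [smul_eq_mul, mul_one, smul_eq_mul] at this
    exact this
  rw [h3, fderiv_apply_one_eq_deriv, hφ.deriv, mul_comm]

variable [RiemannianBundle (fun (x : M) ↦ TangentSpace I x)]

variable {I} in
/-- A function of class C^1 with derivative of norm at most 1 is 1-Lipschitz for the Riemannian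
distance. -/
theorem enorm_sub_le_riemannianEDist {f : M → ℝ} (hf : ContMDiff I 𝓘(ℝ, ℝ) 1 f)
    (h : ∀ (x : M) (v : TangentSpace I x), |dReal I f x v| ≤ ‖v‖) (x y : M) :
    ‖f y - f x‖ₑ ≤ riemannianEDist I x y := by
  apply le_of_forall_gt (fun r hr ↦ ?_)
  rcases exists_lt_locally_constant_of_riemannianEDist_lt hr zero_lt_one
    with ⟨γ, γ0, γ1, γ_smooth, hγ, -⟩
  refine lt_of_le_of_lt ?_ hγ
  have hg : ContDiff ℝ 1 (f ∘ γ) := by
    rw [← contMDiff_iff_contDiff]
    exact hf.comp γ_smooth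
  have h1 := enorm_sub_le_lintegral_derivWithin_Icc_of_contDiffOn_Icc
    (hg.contDiffOn (s := Icc (0:ℝ) 1)) zero_le_one
  simp only [Function.comp_apply, γ0, γ1] at h1
  refine h1.trans ?_
  rw [pathELength_eq_lintegral_mfderivWithin_Icc]
  apply setLIntegral_mono' measurableSet_Icc (fun t ht ↦ ?_)
  have hd : mfderivWithin 𝓘(ℝ, ℝ) 𝓘(ℝ, ℝ) (f ∘ γ) (Icc 0 1) t
      = (mfderiv I 𝓘(ℝ, ℝ) f (γ t)) ∘L (mfderivWithin 𝓘(ℝ, ℝ) I γ (Icc 0 1) t) := by
    apply mfderiv_comp_mfderivWithin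
    · exact (hf.mdifferentiable one_ne_zero) _
    · exact ((γ_smooth.mdifferentiable one_ne_zero).mdifferentiableOn) _ ht
    · rw [uniqueMDiffWithinAt_iff_uniqueDiffWithinAt]
      exact uniqueDiffOn_Icc zero_lt_one _ ht
  have hd1 : derivWithin (f ∘ γ) (Icc 0 1) t
      = dReal I f (γ t) (mfderivWithin 𝓘(ℝ, ℝ) I γ (Icc 0 1) t 1) := by
    rw [← fderivWithin_derivWithin, ← mfderivWithin_eq_fderivWithin, hd]
    rfl
  have h2 := h (γ t) (mfderivWithin 𝓘(ℝ, ℝ) I γ (Icc 0 1) t 1)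
  rw [← hd1] at h2
  rw [← ofReal_norm, ← ofReal_norm]
  exact ENNReal.ofReal_le_ofReal h2

variable {I} in
/-- The same for the square root of a nonnegative function F of class C^1 with
|dF(v)|^2 <= 4 F |v|^2. -/
theorem enorm_sqrt_sub_le_riemannianEDist {F : M → ℝ} (hF : ContMDiff I 𝓘(ℝ, ℝ) 1 F)
    (h0 : ∀ x, 0 ≤ F x)
    (h : ∀ (x : M) (v : TangentSpace I x), (dReal I F x v) ^ 2 ≤ 4 * F x * ‖v‖ ^ 2) (x y : M) :
    ‖√(F y) - √(F x)‖ₑ ≤ riemannianEDist I x y := by
  have key : ∀ e : ℝ, 0 < e → ‖√(F y + e) - √(F x + e)‖ₑ ≤ riemannianEDist I x y := by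
    intro e he
    apply enorm_sub_le_riemannianEDist (f := fun z => √(F z + e)) _ _ x y
    · intro z
      have hz : F z + e ≠ 0 := by have := h0 z; positivity
      have h1 : ContMDiffAt I 𝓘(ℝ, ℝ) 1 (fun z => F z + e) z := (hF z).add contMDiffAt_const
      have h2 : ContMDiffAt 𝓘(ℝ, ℝ) 𝓘(ℝ, ℝ) 1 Real.sqrt (F z + e) :=
        (Real.contDiffAt_sqrt hz).contMDiffAt
      exact h2.comp z h1
    · intro z v
      have hz : 0 < F z + e := by have := h0 z; positivity
      have hd : HasDerivAt (fun s : ℝ => √(s + e)) (1 / (2 * √(F z + e))) (F z) := by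
        have h3 : HasDerivAt (fun s : ℝ => s + e) 1 (F z) := (hasDerivAt_id _).add_const e
        exact h3.sqrt hz.ne'
      rw [dReal_comp ((hF.mdifferentiable one_ne_zero) z) hd v]
      have hs : 0 < √(F z + e) := Real.sqrt_pos.mpr hz
      have h4 : (1 / (2 * √(F z + e)) * dReal I F z v) ^ 2 ≤ ‖v‖ ^ 2 := by
        rw [mul_pow, div_pow, mul_pow, Real.sq_sqrt hz.le, one_pow]
        rw [div_mul_eq_mul_div, div_le_iff₀ (by positivity)]
        have h5 := h z v
        nlinarith [sq_nonneg ‖v‖]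
      exact abs_le_of_sq_le_sq h4 (norm_nonneg v)
  have hlim : Tendsto (fun e : ℝ => ‖√(F y + e) - √(F x + e)‖ₑ) (𝓝[>] 0)
      (𝓝 ‖√(F y) - √(F x)‖ₑ) := by
    have hc : Continuous (fun e : ℝ => ‖√(F y + e) - √(F x + e)‖ₑ) := by fun_prop
    have := hc.tendsto 0
    simp only [add_zero] at this
    exact this.mono_left nhdsWithin_le_nhds
  exact le_of_tendsto hlim (by filter_upwards [self_mem_nhdsWithin] with e he using key e he)

/-- Completeness of an extended metric space with a 1-Lipschitz function which has compact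
sublevel sets. -/
theorem completeSpace_of_compact_sublevel {α : Type*} [PseudoEMetricSpace α] (f : α → ℝ)
    (hf : ∀ x y, ‖f y - f x‖ₑ ≤ edist x y) (hc : ∀ c : ℝ, IsCompact {x | f x ≤ c}) :
    CompleteSpace α := by
  refine UniformSpace.complete_of_cauchySeq_tendsto fun u hu => ?_
  obtain ⟨N, hN⟩ := EMetric.cauchySeq_iff.mp hu 1 zero_lt_one
  have hb : ∀ n ≥ N, f (u n) ≤ f (u N) + 1 := by
    intro n hn
    have h1 := (hf (u N) (u n)).trans (hN N le_rfl n hn).le
    rw [← ofReal_norm, Real.norm_eq_abs] at h1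
    have h2 : |f (u n) - f (u N)| ≤ 1 := by
      by_contra h3
      push Not at h3
      have h4 : (1 : ℝ≥0∞) < ENNReal.ofReal |f (u n) - f (u N)| := by
        rw [← ENNReal.ofReal_one]
        exact (ENNReal.ofReal_lt_ofReal_iff (by linarith)).mpr h3
      exact absurd h1 (not_le.mpr h4)
    have := (abs_le.mp h2).2
    linarith
  have hu' : CauchySeq (fun n => u (n + N)) := hu.comp_tendsto (tendsto_add_atTop_nat N)
  have hmem : ∀ n, u (n + N) ∈ {x | f x ≤ f (u N) + 1} := fun n => hb _ (by omega)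
  obtain ⟨a, -, ha⟩ := cauchySeq_tendsto_of_isComplete (hc _).isComplete hmem hu'
  exact ⟨a, (tendsto_add_atTop_iff_nat N).mp ha⟩

variable {I} in
/-- A Riemannian manifold with a nonnegative function F of class C^1 with compact sublevel sets
and |dF(v)|^2 <= 4 F |v|^2 is complete. -/
theorem completeSpace_ofRiemannianMetric [IsManifold I 1 M]
    [IsContinuousRiemannianBundle E (fun (x : M) ↦ TangentSpace I x)] [T3Space M]
    {F : M → ℝ} (hF : ContMDiff I 𝓘(ℝ, ℝ) 1 F) (h0 : ∀ x, 0 ≤ F x)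
    (h : ∀ (x : M) (v : TangentSpace I x), (dReal I F x v) ^ 2 ≤ 4 * F x * ‖v‖ ^ 2)
    (hc : ∀ c : ℝ, IsCompact {x | F x ≤ c}) :
    @CompleteSpace M (EMetricSpace.ofRiemannianMetric I M).toUniformSpace := by
  let : EMetricSpace M := EMetricSpace.ofRiemannianMetric I M
  apply completeSpace_of_compact_sublevel (fun x => √(F x))
  · intro x y
    exact enorm_sqrt_sub_le_riemannianEDist hF h0 h x y
  · intro c
    rcases lt_or_ge c 0 with hc0 | hc0
    · have : {x | √(F x) ≤ c} = (∅ : Set M) := by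
        ext x
        simp only [mem_ofPred_eq, mem_empty_iff_false, iff_false, not_le]
        exact lt_of_lt_of_le hc0 (Real.sqrt_nonneg _)
      rw [this]
      exact isCompact_empty
    · have : {x | √(F x) ≤ c} = {x | F x ≤ c ^ 2} := by
        ext x
        simp only [mem_ofPred_eq]
        exact Real.sqrt_le_left hc0
      rw [this]
      exact hc _

variable {I} in
/-- Closed balls of finite radius are compact (Hopf-Rinow form of completeness). -/
theorem isCompact_riemannianBall [IsManifold I 1 M]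
    [IsContinuousRiemannianBundle E (fun (x : M) ↦ TangentSpace I x)] [T3Space M]
    {F : M → ℝ} (hF : ContMDiff I 𝓘(ℝ, ℝ) 1 F) (h0 : ∀ x, 0 ≤ F x)
    (h : ∀ (x : M) (v : TangentSpace I x), (dReal I F x v) ^ 2 ≤ 4 * F x * ‖v‖ ^ 2)
    (hc : ∀ c : ℝ, IsCompact {x | F x ≤ c}) (x : M) (r : ℝ≥0) :
    IsCompact {y | riemannianEDist I x y ≤ r} := by
  let : EMetricSpace M := EMetricSpace.ofRiemannianMetric I M
  have hcl : IsClosed {y | edist x y ≤ r} :=
    isClosed_le (continuous_const.edist continuous_id) continuous_const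
  refine IsCompact.of_isClosed_subset (hc ((√(F x) + r) ^ 2)) hcl ?_
  intro y hy
  have hy1 : riemannianEDist I x y ≤ r := hy
  have h1 := (enorm_sqrt_sub_le_riemannianEDist hF h0 h x y).trans hy1
  rw [← ofReal_norm, Real.norm_eq_abs] at h1
  have h2 : |√(F y) - √(F x)| ≤ r := by
    have h3 : ENNReal.ofReal |√(F y) - √(F x)| ≤ ENNReal.ofReal r := by
      simpa using h1
    exact (ENNReal.ofReal_le_ofReal_iff r.coe_nonneg).mp h3
  have h4 : √(F y) ≤ √(F x) + r := by
    have := (abs_le.mp h2).2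
    linarith
  show F y ≤ (√(F x) + r) ^ 2
  calc F y = √(F y) ^ 2 := (Real.sq_sqrt (h0 y)).symm
    _ ≤ _ := by
      have := Real.sqrt_nonneg (F y)
      gcongr

variable {I} in
/-- A curve of speed at most c on the unit interval has length at most c. -/
theorem riemannianEDist_le_of_speed {γ : ℝ → M} (hγ : ContMDiffOn 𝓘(ℝ, ℝ) I 1 γ (Icc 0 1))
    {c : ℝ≥0∞}
    (h : ∀ t ∈ Icc (0:ℝ) 1, ‖mfderivWithin 𝓘(ℝ, ℝ) I γ (Icc 0 1) t 1‖ₑ ≤ c) :
    riemannianEDist I (γ 0) (γ 1) ≤ c := by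
  refine (riemannianEDist_le_pathELength hγ rfl rfl zero_le_one).trans ?_
  rw [pathELength_eq_lintegral_mfderivWithin_Icc]
  calc ∫⁻ t in Icc (0:ℝ) 1, ‖mfderivWithin 𝓘(ℝ, ℝ) I γ (Icc 0 1) t 1‖ₑ
      ≤ ∫⁻ _ in Icc (0:ℝ) 1, c := setLIntegral_mono' measurableSet_Icc h
    _ = c := by simp

variable {I} in
/-- Distance to the zero set of F, when it is realised. -/
theorem iInf_riemannianEDist_zero_eq
    {F : M → ℝ} (hF : ContMDiff I 𝓘(ℝ, ℝ) 1 F) (h0 : ∀ x, 0 ≤ F x)
    (h : ∀ (x : M) (v : TangentSpace I x), (dReal I F x v) ^ 2 ≤ 4 * F x * ‖v‖ ^ 2)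
    (x : M) (hr : ∃ s, F s = 0 ∧ riemannianEDist I x s ≤ ENNReal.ofReal √(F x)) :
    ⨅ s ∈ {s | F s = 0}, riemannianEDist I x s = ENNReal.ofReal √(F x) := by
  apply le_antisymm
  · obtain ⟨s, hs, hd⟩ := hr
    exact (iInf₂_le s hs).trans hd
  · refine le_iInf₂ fun s hs => ?_
    have h1 := enorm_sqrt_sub_le_riemannianEDist hF h0 h x s
    have hs' : F s = 0 := hs
    rw [hs', Real.sqrt_zero, zero_sub, enorm_neg, ← ofReal_norm, Real.norm_eq_abs,
      abs_of_nonneg (Real.sqrt_nonneg _)] at h1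
    exact h1

end Pool.Agent.HS
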