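import Mathlib

/-!
# Block M3, definitions: the curvature form of `P = S² × SO(3)` at a point

`PD` is the pointwise data `(K, ρ, Dρ, κ, Dκ, D²κ)` in an adapted frame; `RP r D S` is the
curvature form (numerator of the sectional curvature) of the metric `h + Q(ξ,ξ)`,
`Q = r² (1 - (r²/3) κ)`, where `S` stands for the inverse of `1 - (r²/3) κ`.
-/

namespace Pool.Agent.HS

open Matrix

abbrev V2 := Fin 2 → ℝ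
abbrev V3 := Fin 3 → ℝ
abbrev M33 := Matrix (Fin 3) (Fin 3) ℝ

/-- Pointwise data: `K, ρ, D_e ρ, κ, D_e κ, D²_{ef} κ` (`e, f` in an orthonormal frame). -/
abbrev PD := ℝ × V3 × (Fin 2 → V3) × M33 × (Fin 2 → M33) × (Fin 2 → Fin 2 → M33)

namespace PD
def K (D : PD) : ℝ := D.1
def ρ (D : PD) : V3 := D.2.1
def Dρ (D : PD) : Fin 2 → V3 := D.2.2.1
def κ (D : PD) : M33 := D.2.2.2.1
def κ1 (D : PD) : Fin 2 → M33 := D.2.2.2.2.1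
def κ2 (D : PD) : Fin 2 → Fin 2 → M33 := D.2.2.2.2.2
end PD

/-- `u · A v`. -/
def bf (A : M33) (u v : V3) : ℝ := u ⬝ᵥ (A *ᵥ v)

/-- area form of the plane -/
def al (x y : V2) : ℝ := x 0 * y 1 - x 1 * y 0

/-- `m_e = x_e η - y_e ξ` -/
def mm (x : V2) (ξ : V3) (y : V2) (η : V3) : Fin 2 → V3 := fun e => x e • η - y e • ξ

/-- `κ_x = Σ x_e κ_e` -/
def kx (D : PD) (x : V2) : M33 := x 0 • D.κ1 0 + x 1 • D.κ1 1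

/-- The visible part of the curvature form as a function of `(α, m, z)`. -/
noncomputable def RV (r : ℝ) (D : PD) (α : ℝ) (m : Fin 2 → V3) (z : V3) : ℝ :=
  D.K * α ^ 2 - r ^ 2 * α * (∑ e, D.Dρ e ⬝ᵥ m e)
  + r ^ 4 / 4 * ((∑ e, (D.ρ ⬝ᵥ m e) ^ 2) + 2 / 3 * ∑ e, ∑ f, bf (D.κ2 e f) (m e) (m f))
  + r ^ 2 / 4 * (z ⬝ᵥ z)
  - 3 / 2 * r ^ 2 * α * (D.ρ ⬝ᵥ z) - 3 / 4 * r ^ 2 * α ^ 2 * (D.ρ ⬝ᵥ D.ρ)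
  + r ^ 4 * (1 / 4 * α ^ 2 * bf D.κ D.ρ D.ρ + 1 / 3 * α * (∑ e, bf D.κ (D.Dρ e) (m e))
      + 1 / 2 * α * (∑ e, bf (D.κ1 e) D.ρ (m e)) + 1 / 2 * α * bf D.κ D.ρ z
      + 1 / 2 * (∑ e, bf (D.κ1 e) (m e) z) + 5 / 12 * bf D.κ z z - 1 / 6 * D.κ.trace * (z ⬝ᵥ z))
  + r ^ 4 / 4 * (∑ e, ((D.ρ ⬝ᵥ m e - r ^ 2 / 3 * bf D.κ D.ρ (m e)) ^ 2 - (D.ρ ⬝ᵥ m e) ^ 2))
  - r ^ 6 / 6 * (bf (D.κ1 0) (-(m 1)) (z ⨯₃ (D.ρ - (r ^ 2 / 3) • (D.κ *ᵥ D.ρ)))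
      + bf (D.κ1 1) (m 0) (z ⨯₃ (D.ρ - (r ^ 2 / 3) • (D.κ *ᵥ D.ρ))))
  - r ^ 8 / 36 * (∑ e, bf (D.κ1 e).adjugate z z)

/-- the symmetric bilinear map `Γ(X,Y) = (κ_x η + κ_y ξ + κη × ξ + κξ × η)/2` -/
noncomputable def gt (D : PD) (x : V2) (ξ : V3) (y : V2) (η : V3) : V3 :=
  (1 / 2 : ℝ) • (kx D x *ᵥ η + kx D y *ᵥ ξ + (D.κ *ᵥ η) ⨯₃ ξ + (D.κ *ᵥ ξ) ⨯₃ η)

/-- The curvature form of the metric `h + r² (1 - (r²/3) κ)` on `P` (`S` = inverse of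
`1 - (r²/3) κ`). -/
noncomputable def RP (r : ℝ) (D : PD) (S : M33) (x : V2) (ξ : V3) (y : V2) (η : V3) : ℝ :=
  RV r D (al x y) (mm x ξ y η) (ξ ⨯₃ η)
  + r ^ 6 / 9 * (bf S (gt D x ξ y η) (gt D x ξ y η) - bf S (gt D x ξ x ξ) (gt D y η y η))

/-- The infinitesimal condition `G > 0` at a point. -/
def GPos (D : PD) : Prop :=
  0 < D.K ∧ ∀ v : V2, ∀ n : V3, v ⬝ᵥ v = 1 → n ⬝ᵥ n = 1 →
    ((∑ e, v e * (D.Dρ e ⬝ᵥ n)) ^ 2 <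
      D.K * ((D.ρ ⬝ᵥ n) ^ 2 + 2 / 3 * ∑ e, ∑ f, v e * v f * bf (D.κ2 e f) n n))

end Pool.Agent.HS
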