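import Pool.Agent.HS.FDefs
import Pool.Agent.HS.M3Def

set_option autoImplicit false
set_option maxSynthPendingDepth 3

/-!
# The inclusion `S² × ℝ³ → V3 × V3` (project HS)
-/

open Bundle Set Filter Manifold ContinuousLinearMap Matrix Metric
open scoped ContDiff Topology ENNReal

namespace Pool.Agent.HS

noncomputable section

/-- `ℝ³` with its Euclidean norm, read as functions on `Fin 3`. -/
def eR : R3 ≃L[ℝ] V3 := EuclideanSpace.equiv (Fin 3) ℝ

theorem eR_apply (x : R3) (i : Fin 3) : eR x i = x i := rfl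

theorem dot_eR (x y : R3) : eR x ⬝ᵥ eR y = inner ℝ x y := by
  rw [EuclideanSpace.inner_eq_star_dotProduct]
  simp only [star_trivial]
  rw [dotProduct_comm]
  rfl

theorem dot_eR_self (x : R3) : eR x ⬝ᵥ eR x = ‖x‖ ^ 2 := by
  rw [dot_eR, real_inner_self_eq_norm_sq]

theorem eR_sphere (y : S2) : eR (y : R3) ⬝ᵥ eR (y : R3) = 1 := by
  rw [dot_eR_self]
  have h : ‖(y : R3)‖ = 1 := by simp
  rw [h]; norm_num

/-- The inclusion `S² → V3`. -/
def iY (y : S2) : V3 := eR (y : R3)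

theorem contMDiff_iY : ContMDiff (𝓡 2) 𝓘(ℝ, V3) ∞ iY :=
  (eR.contDiff.contMDiff (n := ∞)).comp contMDiff_coe_sphere

/-- The inclusion `S² × ℝ³ → V3 × V3`. -/
def iE (x : S2 × R3) : V3 × V3 := (eR (x.1 : R3), eR x.2)

theorem contMDiff_iE : ContMDiff IE 𝓘(ℝ, V3 × V3) ∞ iE :=
  (contMDiff_iY.comp contMDiff_fst).prodMk_space
    ((eR.contDiff.contMDiff (n := ∞)).comp contMDiff_snd)

/-- The differential of the inclusion `S² → V3`. -/
def dY (y : S2) : EuclideanSpace ℝ (Fin 2) →L[ℝ] V3 := mfderiv (𝓡 2) 𝓘(ℝ, V3) iY y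

/-- The differential of `S² → R3`. -/
def dS (y : S2) : EuclideanSpace ℝ (Fin 2) →L[ℝ] R3 :=
  mfderiv (𝓡 2) 𝓘(ℝ, R3) (fun y : S2 => (y : R3)) y

theorem dY_eq (y : S2) (a : EuclideanSpace ℝ (Fin 2)) : dY y a = eR (dS y a) := by
  have h1 : MDifferentiableAt (𝓡 2) 𝓘(ℝ, R3) (fun y : S2 => (y : R3)) y :=
    (contMDiff_coe_sphere (m := 1) y).mdifferentiableAt (by simp)
  have h2 : MDifferentiableAt 𝓘(ℝ, R3) 𝓘(ℝ, V3) (fun x : R3 => eR x) (y : R3) :=
    eR.differentiableAt.mdifferentiableAt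
  have h3 := mfderiv_comp (I := 𝓡 2) (I' := 𝓘(ℝ, R3)) (I'' := 𝓘(ℝ, V3)) y h2 h1
  have h4 : mfderiv 𝓘(ℝ, R3) 𝓘(ℝ, V3) (fun x : R3 => eR x) (y : R3) = (eR : R3 →L[ℝ] V3) := by
    rw [mfderiv_eq_fderiv]
    exact eR.fderiv
  rw [h4] at h3
  exact congrArg (fun L : EuclideanSpace ℝ (Fin 2) →L[ℝ] V3 => L a) h3

theorem dS_injective (y : S2) : Function.Injective (dS y) :=
  injective_mvfderiv_subtypeVal_sphere y

theorem dY_injective (y : S2) : Function.Injective (dY y) := by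
  intro a b hab
  rw [dY_eq, dY_eq] at hab
  exact dS_injective y (eR.injective hab)

theorem range_dS (y : S2) : (dS y).range = (ℝ ∙ (y : R3))ᗮ :=
  range_mvfderiv_subtypeVal y

theorem dot_dY (y : S2) (a : EuclideanSpace ℝ (Fin 2)) : eR (y : R3) ⬝ᵥ dY y a = 0 := by
  rw [dY_eq, dot_eR]
  have h : dS y a ∈ (ℝ ∙ (y : R3))ᗮ := by
    rw [← range_dS]
    exact LinearMap.mem_range_self _ a
  exact Submodule.mem_orthogonal_singleton_iff_inner_right.mp h

theorem exists_dY (y : S2) (v : V3) (h : eR (y : R3) ⬝ᵥ v = 0) : ∃ a, dY y a = v := by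
  have h1 : eR.symm v ∈ (ℝ ∙ (y : R3))ᗮ := by
    rw [Submodule.mem_orthogonal_singleton_iff_inner_right, ← dot_eR,
      ContinuousLinearEquiv.apply_symm_apply]
    exact h
  rw [← range_dS] at h1
  obtain ⟨a, ha⟩ := h1
  refine ⟨a, ?_⟩
  rw [dY_eq]
  have ha' : dS y a = eR.symm v := ha
  rw [ha', ContinuousLinearEquiv.apply_symm_apply]

/-- The differential of the inclusion `iE`. -/
def dE (x : S2 × R3) : EuclideanSpace ℝ (Fin 2) × R3 →L[ℝ] V3 × V3 :=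
  mfderiv IE 𝓘(ℝ, V3 × V3) iE x

theorem dE_apply (x : S2 × R3) (a : EuclideanSpace ℝ (Fin 2)) (b : R3) :
    dE x (a, b) = (dY x.1 a, eR b) := by
  have hE : MDifferentiableAt IE 𝓘(ℝ, V3 × V3) iE x := (contMDiff_iE x).mdifferentiableAt (by simp)
  have h1 : (dE x (a, b)).1 = dY x.1 a := by
    have e1 := mfderiv_comp (I := IE) (I' := 𝓘(ℝ, V3 × V3)) (I'' := 𝓘(ℝ, V3)) x
      (g := fun p : V3 × V3 => (ContinuousLinearMap.fst ℝ V3 V3) p)
      (ContinuousLinearMap.differentiableAt _).mdifferentiableAt hE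
    have e2 := mfderiv_comp (I := IE) (I' := 𝓡 2) (I'' := 𝓘(ℝ, V3)) x (g := iY)
      (f := fun x : S2 × R3 => x.1)
      ((contMDiff_iY x.1).mdifferentiableAt (by simp)) mdifferentiableAt_fst
    rw [mfderiv_fst] at e2
    have e3 : mfderiv 𝓘(ℝ, V3 × V3) 𝓘(ℝ, V3) (fun p : V3 × V3 => (ContinuousLinearMap.fst ℝ V3 V3) p)
        (iE x) = ContinuousLinearMap.fst ℝ V3 V3 := by
      rw [mfderiv_eq_fderiv]
      exact ContinuousLinearMap.fderiv _
    rw [e3] at e1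
    have e4 := e1.symm.trans e2
    exact congrArg (fun L : EuclideanSpace ℝ (Fin 2) × R3 →L[ℝ] V3 => L (a, b)) e4
  have h2 : (dE x (a, b)).2 = eR b := by
    have e1 := mfderiv_comp (I := IE) (I' := 𝓘(ℝ, V3 × V3)) (I'' := 𝓘(ℝ, V3)) x
      (g := fun p : V3 × V3 => (ContinuousLinearMap.snd ℝ V3 V3) p)
      (ContinuousLinearMap.differentiableAt _).mdifferentiableAt hE
    have e2 := mfderiv_comp (I := IE) (I' := 𝓘(ℝ, R3)) (I'' := 𝓘(ℝ, V3)) x
      (g := fun w : R3 => eR w) (f := fun x : S2 × R3 => x.2)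
      eR.differentiableAt.mdifferentiableAt mdifferentiableAt_snd
    rw [mfderiv_snd] at e2
    have e3 : mfderiv 𝓘(ℝ, V3 × V3) 𝓘(ℝ, V3) (fun p : V3 × V3 => (ContinuousLinearMap.snd ℝ V3 V3) p)
        (iE x) = ContinuousLinearMap.snd ℝ V3 V3 := by
      rw [mfderiv_eq_fderiv]
      exact ContinuousLinearMap.fderiv _
    have e5 : mfderiv 𝓘(ℝ, R3) 𝓘(ℝ, V3) (fun w : R3 => eR w) x.2 = (eR : R3 →L[ℝ] V3) := by
      rw [mfderiv_eq_fderiv]
      exact eR.fderiv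
    rw [e3] at e1
    rw [e5] at e2
    have e4 := e1.symm.trans e2
    exact congrArg (fun L : EuclideanSpace ℝ (Fin 2) × R3 →L[ℝ] V3 => L (a, b)) e4
  exact Prod.ext h1 h2

theorem dE_injective (x : S2 × R3) : Function.Injective (dE x) := by
  rintro ⟨a, b⟩ ⟨a', b'⟩ h
  rw [dE_apply, dE_apply, Prod.mk.injEq] at h
  rw [dY_injective x.1 h.1, eR.injective h.2]

end

end Pool.Agent.HS
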