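import Mathlib

/-!
# The Cayley (Rodrigues) chart of `SO(3)` (project HS, MP_55c470_gt)

`cayR a` is the rotation with Rodrigues vector `a` (axis `a`, angle `θ` with `tan (θ/2) = |a|/2`),
`cayE a b` is its angular velocity: `∂_b (cayR a v) = cayE a b × cayR a v`.
All identities are rational.
-/

namespace Pool.Agent.HS

open Matrix

/-- The cross product of `ℝ³` as a continuous bilinear map. -/
noncomputable def crossL : (Fin 3 → ℝ) →L[ℝ] (Fin 3 → ℝ) →L[ℝ] (Fin 3 → ℝ) :=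
  LinearMap.toContinuousLinearMap
    ((LinearMap.toContinuousLinearMap :
      ((Fin 3 → ℝ) →ₗ[ℝ] (Fin 3 → ℝ)) ≃ₗ[ℝ] ((Fin 3 → ℝ) →L[ℝ] (Fin 3 → ℝ))).toLinearMap ∘ₗ
      crossProduct)

theorem crossL_apply (a b : Fin 3 → ℝ) : crossL a b = a ⨯₃ b := rfl

/-- The denominator `1 + |a|²/4`. -/
noncomputable def cayN (a : Fin 3 → ℝ) : ℝ := 1 + (a ⬝ᵥ a) / 4

theorem cayN_pos (a : Fin 3 → ℝ) : 0 < cayN a := by
  have h : 0 ≤ a ⬝ᵥ a := by
    rw [dotProduct]
    exact Finset.sum_nonneg fun i _ => mul_self_nonneg _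
  unfold cayN
  linarith

/-- The rotation with Rodrigues vector `a`. -/
noncomputable def cayR (a : Fin 3 → ℝ) : (Fin 3 → ℝ) →L[ℝ] (Fin 3 → ℝ) :=
  ContinuousLinearMap.id ℝ (Fin 3 → ℝ)
    + (cayN a)⁻¹ • (crossL a + (1 / 2 : ℝ) • (crossL a).comp (crossL a))

/-- The angular velocity (right logarithmic derivative) of `cayR`. -/
noncomputable def cayE (a : Fin 3 → ℝ) : (Fin 3 → ℝ) →L[ℝ] (Fin 3 → ℝ) :=
  (cayN a)⁻¹ • (ContinuousLinearMap.id ℝ (Fin 3 → ℝ) + (1 / 2 : ℝ) • crossL a)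

/-- The inverse of `cayE a`. -/
noncomputable def cayF (a b : Fin 3 → ℝ) : Fin 3 → ℝ :=
  b - (1 / 2 : ℝ) • (a ⨯₃ b) + ((a ⬝ᵥ b) / 4) • a

theorem cayR_apply (a v : Fin 3 → ℝ) :
    cayR a v = v + (cayN a)⁻¹ • (a ⨯₃ v + (1 / 2 : ℝ) • (a ⨯₃ (a ⨯₃ v))) := rfl

theorem cayE_apply (a b : Fin 3 → ℝ) :
    cayE a b = (cayN a)⁻¹ • (b + (1 / 2 : ℝ) • (a ⨯₃ b)) := rfl

@[simp] theorem cayN_zero : cayN 0 = 1 := by simp [cayN]

@[simp] theorem cayR_zero (v : Fin 3 → ℝ) : cayR 0 v = v := by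
  rw [cayR_apply]; simp

@[simp] theorem cayE_zero (b : Fin 3 → ℝ) : cayE 0 b = b := by
  rw [cayE_apply]; simp

theorem cayN_eq (a : Fin 3 → ℝ) : cayN a = 1 + (a 0 * a 0 + a 1 * a 1 + a 2 * a 2) / 4 := by
  rw [cayN, dotProduct, Fin.sum_univ_three]

theorem cayN_ne (a : Fin 3 → ℝ) : cayN a ≠ 0 := (cayN_pos a).ne'

theorem cayN_neg (a : Fin 3 → ℝ) : cayN (-a) = cayN a := by
  rw [cayN_eq, cayN_eq]; simp only [Pi.neg_apply]; ring

/-- components of `cayR` -/
theorem cayR_comp (a v : Fin 3 → ℝ) : cayR a v =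
    ![v 0 + (cayN a)⁻¹ * ((a 1 * v 2 - a 2 * v 1) + 1 / 2 * (a 1 * (a 0 * v 1 - a 1 * v 0)
        - a 2 * (a 2 * v 0 - a 0 * v 2))),
      v 1 + (cayN a)⁻¹ * ((a 2 * v 0 - a 0 * v 2) + 1 / 2 * (a 2 * (a 1 * v 2 - a 2 * v 1)
        - a 0 * (a 0 * v 1 - a 1 * v 0))),
      v 2 + (cayN a)⁻¹ * ((a 0 * v 1 - a 1 * v 0) + 1 / 2 * (a 0 * (a 2 * v 0 - a 0 * v 2)
        - a 1 * (a 1 * v 2 - a 2 * v 1)))] := by
  rw [cayR_apply, cross_apply, cross_apply]
  ext i
  fin_cases i <;> simp [smul_eq_mul]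

/-- components of `cayE` -/
theorem cayE_comp (a b : Fin 3 → ℝ) : cayE a b =
    ![(cayN a)⁻¹ * (b 0 + 1 / 2 * (a 1 * b 2 - a 2 * b 1)),
      (cayN a)⁻¹ * (b 1 + 1 / 2 * (a 2 * b 0 - a 0 * b 2)),
      (cayN a)⁻¹ * (b 2 + 1 / 2 * (a 0 * b 1 - a 1 * b 0))] := by
  rw [cayE_apply, cross_apply]
  ext i
  fin_cases i <;> simp only [Matrix.cons_val_zero, Matrix.cons_val_one, Matrix.cons_val,
    Fin.zero_eta, Fin.mk_one, Fin.reduceFinMk, Pi.add_apply, Pi.smul_apply, smul_eq_mul]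

theorem cayR_dot (a v w : Fin 3 → ℝ) : cayR a v ⬝ᵥ cayR a w = v ⬝ᵥ w := by
  have hN := cayN_ne a
  rw [cayR_comp, cayR_comp, dotProduct, dotProduct, Fin.sum_univ_three, Fin.sum_univ_three]
  simp only [Matrix.cons_val_zero, Matrix.cons_val_one, Matrix.cons_val]
  field_simp
  rw [cayN_eq]
  ring

theorem cayR_cross (a v w : Fin 3 → ℝ) : cayR a (v ⨯₃ w) = cayR a v ⨯₃ cayR a w := by
  have hN := cayN_ne a
  rw [cross_apply (cayR a v), cayR_comp a v, cayR_comp a w, cayR_comp a (v ⨯₃ w), cross_apply]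
  ext i
  fin_cases i <;> simp only [Matrix.cons_val_zero, Matrix.cons_val_one, Matrix.cons_val,
    Fin.zero_eta, Fin.mk_one, Fin.reduceFinMk] <;>
  · field_simp
    rw [cayN_eq]
    ring

theorem cayR_neg (a v : Fin 3 → ℝ) : cayR (-a) (cayR a v) = v := by
  have hN := cayN_ne a
  rw [cayR_comp (-a), cayN_neg, cayR_comp a v]
  ext i
  fin_cases i <;> simp only [Matrix.cons_val_zero, Matrix.cons_val_one, Matrix.cons_val,
    Fin.zero_eta, Fin.mk_one, Fin.reduceFinMk, Pi.neg_apply] <;>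
  · field_simp
    rw [cayN_eq]
    ring

theorem cayF_cayE (a b : Fin 3 → ℝ) : cayF a (cayE a b) = b := by
  have hN := cayN_ne a
  rw [cayF, cayE_comp, cross_apply, dotProduct, Fin.sum_univ_three]
  ext i
  fin_cases i <;> simp only [Matrix.cons_val_zero, Matrix.cons_val_one, Matrix.cons_val,
    Fin.zero_eta, Fin.mk_one, Fin.reduceFinMk, Pi.add_apply, Pi.sub_apply, Pi.smul_apply,
    smul_eq_mul] <;>
  · field_simp
    rw [cayN_eq]
    ring

theorem cayE_cayF (a b : Fin 3 → ℝ) : cayE a (cayF a b) = b := by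
  have hN := cayN_ne a
  rw [cayE_comp, cayF, cross_apply, dotProduct, Fin.sum_univ_three]
  ext i
  fin_cases i <;> simp only [Matrix.cons_val_zero, Matrix.cons_val_one, Matrix.cons_val,
    Fin.zero_eta, Fin.mk_one, Fin.reduceFinMk, Pi.add_apply, Pi.sub_apply, Pi.smul_apply,
    smul_eq_mul] <;>
  · field_simp
    rw [cayN_eq]
    ring

/-! ### Derivatives -/

theorem cayN_contDiff {n : WithTop ℕ∞} : ContDiff ℝ n cayN := by
  have h : cayN = fun a : Fin 3 → ℝ => 1 + (a 0 * a 0 + a 1 * a 1 + a 2 * a 2) / 4 :=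
    funext cayN_eq
  rw [h]
  fun_prop

theorem cayN_inv_contDiff {n : WithTop ℕ∞} : ContDiff ℝ n (fun a => (cayN a)⁻¹) :=
  cayN_contDiff.inv cayN_ne

theorem crossL_contDiff {n : WithTop ℕ∞} : ContDiff ℝ n (fun a => crossL a) := crossL.contDiff

theorem cayR_contDiff {n : WithTop ℕ∞} : ContDiff ℝ n cayR := by
  unfold cayR
  refine contDiff_const.add (cayN_inv_contDiff.smul (crossL_contDiff.add ?_))
  exact (crossL_contDiff.clm_comp crossL_contDiff).const_smul (1 / 2 : ℝ)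

theorem cayE_contDiff {n : WithTop ℕ∞} : ContDiff ℝ n cayE := by
  unfold cayE
  exact cayN_inv_contDiff.smul (contDiff_const.add (crossL_contDiff.const_smul (1 / 2 : ℝ)))

theorem cayN_hasFDerivAt (a : Fin 3 → ℝ) :
    HasFDerivAt cayN ((1 / 2 : ℝ) • (a 0 • ContinuousLinearMap.proj (R := ℝ) (φ := fun _ : Fin 3 => ℝ) 0
      + a 1 • ContinuousLinearMap.proj (R := ℝ) (φ := fun _ : Fin 3 => ℝ) 1
      + a 2 • ContinuousLinearMap.proj (R := ℝ) (φ := fun _ : Fin 3 => ℝ) 2)) a := by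
  have h : cayN = fun a : Fin 3 → ℝ => 1 + (a 0 * a 0 + a 1 * a 1 + a 2 * a 2) / 4 :=
    funext cayN_eq
  rw [h]
  have hp : ∀ i : Fin 3, HasFDerivAt (fun a : Fin 3 → ℝ => a i)
      (ContinuousLinearMap.proj (R := ℝ) (φ := fun _ : Fin 3 => ℝ) i) a := fun i =>
    hasFDerivAt_apply i a
  have h2 := ((((hp 0).mul (hp 0)).add ((hp 1).mul (hp 1))).add
    ((hp 2).mul (hp 2))).mul_const (1 / 4 : ℝ)
  have h3 := h2.const_add (1 : ℝ)
  refine (h3.congr_fderiv ?_).congr_of_eventuallyEq ?_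
  · ext b
    simp [smul_eq_mul]
    ring
  · refine Filter.Eventually.of_forall fun b => ?_
    simp only [Pi.add_apply, Pi.mul_apply]
    ring

theorem cayN_fderiv (a b : Fin 3 → ℝ) : fderiv ℝ cayN a b = (a ⬝ᵥ b) / 2 := by
  rw [(cayN_hasFDerivAt a).fderiv, dotProduct, Fin.sum_univ_three]
  simp [smul_eq_mul]
  ring

theorem cayN_inv_fderiv (a b : Fin 3 → ℝ) :
    fderiv ℝ (fun a => (cayN a)⁻¹) a b = -((cayN a)⁻¹ * (cayN a)⁻¹ * ((a ⬝ᵥ b) / 2)) := by
  have h : HasFDerivAt (fun a => (cayN a)⁻¹) (-((cayN a) ^ 2)⁻¹ • fderiv ℝ cayN a) a := by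
    have h1 := (hasDerivAt_inv (cayN_ne a)).comp_hasFDerivAt a
      ((cayN_contDiff (n := 1)).differentiable (by norm_num) a).hasFDerivAt
    exact h1
  rw [h.fderiv, _root_.smul_apply, cayN_fderiv, smul_eq_mul]
  have hN := cayN_ne a
  field_simp

theorem cayN_inv_hasFDerivAt (a : Fin 3 → ℝ) :
    HasFDerivAt (fun a => (cayN a)⁻¹) (fderiv ℝ (fun a => (cayN a)⁻¹) a) a :=
  ((cayN_inv_contDiff (n := 1)).differentiable (by norm_num) a).hasFDerivAt

/-- The derivative of the rotation is given by the angular velocity. -/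
theorem cayR_hasFDerivAt (a v : Fin 3 → ℝ) :
    HasFDerivAt (fun a => cayR a v) ((crossL.flip (cayR a v)).comp (cayE a)) a := by
  have h2 : HasFDerivAt (fun a => crossL a v + (1 / 2 : ℝ) • crossL a (crossL a v))
      (crossL.flip v + (1 / 2 : ℝ) •
        ((crossL a).comp (crossL.flip v) + crossL.flip (crossL a v))) a := by
    refine HasFDerivAt.add ?_ (HasFDerivAt.const_smul ?_ (1 / 2 : ℝ))
    · exact (crossL.flip v).hasFDerivAt
    · exact (crossL.hasFDerivAt (x := a)).clm_apply ((crossL.flip v).hasFDerivAt (x := a))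
  have h3 := ((cayN_inv_hasFDerivAt a).smul h2).const_add v
  refine (h3.congr_fderiv ?_)
  ext b : 1
  have hN := cayN_ne a
  simp only [_root_.add_apply, _root_.smul_apply, ContinuousLinearMap.smulRight_apply,
    ContinuousLinearMap.comp_apply, ContinuousLinearMap.flip_apply, cayN_inv_fderiv, crossL_apply]
  rw [cayR_comp, cayE_comp, dotProduct, Fin.sum_univ_three]
  simp only [cross_apply]
  ext i
  fin_cases i <;> simp only [Matrix.cons_val_zero, Matrix.cons_val_one, Matrix.cons_val,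
    Fin.zero_eta, Fin.mk_one, Fin.reduceFinMk, Pi.add_apply, Pi.smul_apply, smul_eq_mul] <;>
  · field_simp
    rw [cayN_eq]
    ring

theorem cayR_fderiv (a b v : Fin 3 → ℝ) :
    fderiv ℝ (fun a => cayR a v) a b = cayE a b ⨯₃ cayR a v := by
  rw [(cayR_hasFDerivAt a v).fderiv]; rfl

/-- The derivative of the angular velocity map. -/
theorem cayE_hasFDerivAt (a c : Fin 3 → ℝ) :
    HasFDerivAt (fun a => cayE a c)
      ((cayN a)⁻¹ • ((1 / 2 : ℝ) • crossL.flip c)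
        + (fderiv ℝ (fun a => (cayN a)⁻¹) a).smulRight (c + (1 / 2 : ℝ) • (a ⨯₃ c))) a := by
  have h2 : HasFDerivAt (fun a => c + (1 / 2 : ℝ) • crossL a c) ((1 / 2 : ℝ) • crossL.flip c) a := by
    refine HasFDerivAt.const_add c (HasFDerivAt.const_smul ?_ (1 / 2 : ℝ))
    exact (crossL.flip c).hasFDerivAt
  exact (cayN_inv_hasFDerivAt a).smul h2

/-- The structure equation of `SO(3)`. -/
theorem cayE_structure (a b c : Fin 3 → ℝ) :
    fderiv ℝ (fun a => cayE a c) a b - fderiv ℝ (fun a => cayE a b) a c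
      = cayE a b ⨯₃ cayE a c := by
  rw [(cayE_hasFDerivAt a c).fderiv, (cayE_hasFDerivAt a b).fderiv]
  have hN := cayN_ne a
  simp only [_root_.add_apply, _root_.smul_apply, ContinuousLinearMap.smulRight_apply,
    ContinuousLinearMap.flip_apply, cayN_inv_fderiv, crossL_apply]
  rw [cayE_comp, cayE_comp, dotProduct, Fin.sum_univ_three, dotProduct, Fin.sum_univ_three]
  simp only [cross_apply]
  ext i
  fin_cases i <;> simp only [Matrix.cons_val_zero, Matrix.cons_val_one, Matrix.cons_val,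
    Fin.zero_eta, Fin.mk_one, Fin.reduceFinMk, Pi.add_apply, Pi.sub_apply, Pi.smul_apply,
    smul_eq_mul] <;>
  · field_simp
    rw [cayN_eq]
    ring

/-- The first derivative of `cayE` at `0`. -/
theorem cayE_fderiv_zero (b c : Fin 3 → ℝ) :
    fderiv ℝ (fun a => cayE a c) 0 b = (1 / 2 : ℝ) • (b ⨯₃ c) := by
  rw [(cayE_hasFDerivAt 0 c).fderiv]
  simp only [_root_.add_apply, _root_.smul_apply, ContinuousLinearMap.smulRight_apply,
    ContinuousLinearMap.flip_apply, cayN_inv_fderiv, crossL_apply, cayN_zero]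
  simp

end Pool.Agent.HS
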