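import Pool.Agent.HS.Imm
import Pool.Agent.HS.Inc
import Pool.Agent.HS.Dist
import Pool.Agent.HS.Loc

set_option autoImplicit false
set_option maxSynthPendingDepth 3

/-!
# The metric on `S² × ℝ³` (project HS, block AMB)

A metric `G` on `V3 × V3`, given near `S² × V3`, induces a Riemannian metric `gAmb G` on
`S2 × R3`. `IsAmb G` lists the properties of `G` which are used.
-/

open Bundle Set Filter Manifold ContinuousLinearMap Matrix Metric
open scoped ContDiff Topology ENNReal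

namespace Pool.Agent.HS

noncomputable section

/-- The properties of a metric on `V3 × V3` which are used for the global part. -/
structure IsAmb (G : V3 × V3 → V3 × V3 →L[ℝ] V3 × V3 →L[ℝ] ℝ) : Prop where
  smooth : ∀ y w : V3, y ⬝ᵥ y = 1 → ContDiffAt ℝ ∞ G (y, w)
  isInner : ∀ y w : V3, y ⬝ᵥ y = 1 → IsInner (G (y, w))
  radial : ∀ y w a b : V3, y ⬝ᵥ y = 1 → G (y, w) (a, b) (0, w) = b ⬝ᵥ w
  mono : ∀ (y w a b : V3) (c : ℝ), y ⬝ᵥ y = 1 → 1 ≤ c →
    G (y, w) (a, b) (a, b) ≤ G (y, c • w) (a, c • b) (a, c • b)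
  zero_orth : ∀ y a b : V3, y ⬝ᵥ y = 1 → G (y, 0) (a, 0) (0, b) = 0
  zero_le : ∀ y w a : V3, y ⬝ᵥ y = 1 → G (y, 0) (a, 0) (a, 0) ≤ G (y, w) (a, 0) (a, 0)
  vert_le : ∀ y w b : V3, y ⬝ᵥ y = 1 → G (y, w) (0, b) (0, b) ≤ b ⬝ᵥ b

variable {G : V3 × V3 → V3 × V3 →L[ℝ] V3 × V3 →L[ℝ] ℝ}

/-- The Riemannian metric on `S² × ℝ³` induced by `G`. -/
def gAmb (G : V3 × V3 → V3 × V3 →L[ℝ] V3 × V3 →L[ℝ] ℝ) (hG : IsAmb G) : MetricE :=
  ambMetric iE G contMDiff_iE (fun x => hG.smooth _ _ (eR_sphere x.1))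
    (fun x a b => (hG.isInner _ _ (eR_sphere x.1)).symm a b)
    (fun x v hv => (hG.isInner _ _ (eR_sphere x.1)).pos (dE x v)
      (fun h0 => hv (dE_injective x (h0.trans (map_zero (dE x)).symm))))

theorem gAmb_inner (hG : IsAmb G) (x : S2 × R3) (a a' : EuclideanSpace ℝ (Fin 2)) (b b' : R3) :
    (gAmb G hG).inner x (a, b) (a', b') = G (iE x) (dY x.1 a, eR b) (dY x.1 a', eR b') := by
  rw [← dE_apply, ← dE_apply]
  rfl

theorem gAmb_inner' (hG : IsAmb G) (x : S2 × R3) (v v' : TangentSpace IE x) :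
    (gAmb G hG).inner x v v' = G (iE x) (dE x v) (dE x v') := rfl

/-- Cauchy-Schwarz for an inner product. -/
theorem IsInner.cauchy_schwarz {E : Type*} [NormedAddCommGroup E] [NormedSpace ℝ E]
    {g : E →L[ℝ] E →L[ℝ] ℝ} (h : IsInner g) (u v : E) : (g u v) ^ 2 ≤ g u u * g v v := by
  by_cases hv : v = 0
  · rw [hv]; simp
  have hp := h.pos v hv
  have h1 : 0 ≤ g (g v v • u - g u v • v) (g v v • u - g u v • v) := by
    by_cases h0 : g v v • u - g u v • v = 0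
    · rw [h0]; simp
    · exact (h.pos _ h0).le
  have h2 : g (g v v • u - g u v • v) (g v v • u - g u v • v) =
      g v v * (g v v * g u u - (g u v) ^ 2) := by
    simp only [map_sub, map_smul, _root_.sub_apply, _root_.smul_apply, smul_eq_mul]
    rw [h.symm v u]
    ring
  rw [h2] at h1
  have h3 : 0 ≤ g v v * g u u - (g u v) ^ 2 := nonneg_of_mul_nonneg_right h1 hp
  nlinarith

/-- The square of the distance to the zero section. -/
def sqN (x : S2 × R3) : ℝ := ‖x.2‖ ^ 2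

theorem sqN_nonneg (x : S2 × R3) : 0 ≤ sqN x := sq_nonneg _

theorem contMDiff_sqN : ContMDiff IE 𝓘(ℝ, ℝ) 1 sqN := by
  have h : ContMDiff 𝓘(ℝ, R3) 𝓘(ℝ, ℝ) 1 (fun w : R3 => ‖w‖ ^ 2) :=
    (contDiff_norm_sq ℝ).contMDiff
  exact h.comp contMDiff_snd

theorem hasFDerivAt_dot_snd (p : V3 × V3) :
    HasFDerivAt (fun p : V3 × V3 => dotL p.2 p.2)
      (((dotL p.2) + (dotL.flip p.2)).comp (ContinuousLinearMap.snd ℝ V3 V3)) p := by
  have h2 : HasFDerivAt (fun p : V3 × V3 => p.2) (ContinuousLinearMap.snd ℝ V3 V3) p :=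
    hasFDerivAt_snd
  have h3 := (dotL.hasFDerivAt.comp p h2).clm_apply h2
  exact h3

theorem dReal_sqN (x : S2 × R3) (v : TangentSpace IE x) :
    dReal IE sqN x v = 2 * ((dE x v).2 ⬝ᵥ eR x.2) := by
  have h1 : sqN = (fun p : V3 × V3 => dotL p.2 p.2) ∘ iE := by
    funext x
    exact (dot_eR_self x.2).symm
  have hd := hasFDerivAt_dot_snd (iE x)
  have h2 := mfderiv_comp (I := IE) (I' := 𝓘(ℝ, V3 × V3)) (I'' := 𝓘(ℝ, ℝ)) x
    (g := fun p : V3 × V3 => dotL p.2 p.2) hd.differentiableAt.mdifferentiableAt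
    ((contMDiff_iE x).mdifferentiableAt (by simp))
  rw [mfderiv_eq_fderiv, hd.fderiv, ← h1] at h2
  have h3 : dReal IE sqN x v = ((dotL (iE x).2) + (dotL.flip (iE x).2)) (dE x v).2 :=
    congrArg (fun L : EuclideanSpace ℝ (Fin 2) × R3 →L[ℝ] ℝ => L v) h2
  rw [h3, _root_.add_apply, ContinuousLinearMap.flip_apply, dotL_apply, dotL_apply]
  have h4 : (iE x).2 = eR x.2 := rfl
  rw [h4, dotProduct_comm (eR x.2)]
  ring

theorem dE_radial (x : S2 × R3) : dE x (0, x.2) = (0, eR x.2) := by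
  rw [dE_apply, map_zero]

theorem sq_dReal_sqN_le (hG : IsAmb G) (x : S2 × R3) (v : TangentSpace IE x) :
    (dReal IE sqN x v) ^ 2 ≤ 4 * sqN x * (gAmb G hG).inner x v v := by
  have hy := eR_sphere x.1
  have hi := hG.isInner _ (eR x.2) hy
  have h1 : G (iE x) (dE x v) (0, eR x.2) = (dE x v).2 ⬝ᵥ eR x.2 :=
    hG.radial _ _ (dE x v).1 (dE x v).2 hy
  have h2 : G (iE x) (0, eR x.2) (0, eR x.2) = eR x.2 ⬝ᵥ eR x.2 := hG.radial _ _ _ _ hy
  have h3 := hi.cauchy_schwarz (dE x v) (0, eR x.2)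
  have h4 : (eR (x.1 : R3), eR x.2) = iE x := rfl
  rw [h4, h1, h2, dot_eR_self] at h3
  rw [dReal_sqN, gAmb_inner']
  unfold sqN
  nlinarith

theorem isCompact_sqN_le (c : ℝ) : IsCompact {x : S2 × R3 | sqN x ≤ c} := by
  have h1 : IsCompact ((univ : Set S2) ×ˢ closedBall (0 : R3) (√c)) :=
    isCompact_univ.prod (isCompact_closedBall _ _)
  refine h1.of_isClosed_subset ?_ ?_
  · exact isClosed_le contMDiff_sqN.continuous continuous_const
  · intro x hx
    refine ⟨mem_univ _, ?_⟩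
    rw [mem_closedBall_zero_iff]
    exact Real.le_sqrt_of_sq_le hx

/-- `S² × ℝ³` with the metric `gAmb` is complete. -/
theorem gAmb_complete (hG : IsAmb G) : IsCompleteMetric (gAmb G hG) := by
  let i1 : RiemannianBundle (fun x : S2 × R3 => TangentSpace IE x) :=
    ⟨(gAmb G hG).toRiemannianMetric⟩
  have i2 : IsContinuousRiemannianBundle (EuclideanSpace ℝ (Fin 2) × R3)
      (fun x : S2 × R3 => TangentSpace IE x) :=
    ⟨(gAmb G hG).inner, (gAmb G hG).contMDiff.continuous, fun _ _ _ => rfl⟩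
  refine completeSpace_ofRiemannianMetric contMDiff_sqN sqN_nonneg ?_ isCompact_sqN_le
  intro x v
  have h := sq_dReal_sqN_le hG x v
  have h1 : ‖v‖ ^ 2 = (gAmb G hG).inner x v v := by
    rw [← real_inner_self_eq_norm_sq]
    rfl
  rw [h1]
  exact h

theorem sqN_eq_zero : {x : S2 × R3 | sqN x = 0} = range zeroSec := by
  ext ⟨y, w⟩
  simp only [mem_ofPred_eq, mem_range, zeroSec, sqN]
  constructor
  · intro h
    refine ⟨y, ?_⟩
    have : w = 0 := by simpa using h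
    rw [this]
  · rintro ⟨y', h⟩
    have : w = 0 := (congrArg Prod.snd h).symm
    rw [this]; simp

/-- The ray from `(y, w)` to `(y, 0)`. -/
def ray (x : S2 × R3) (t : ℝ) : S2 × R3 := (x.1, (1 - t) • x.2)

theorem contMDiff_ray (x : S2 × R3) : ContMDiff 𝓘(ℝ, ℝ) IE 1 (ray x) := by
  have h : ContDiff ℝ 1 (fun t : ℝ => (1 - t) • x.2) := by fun_prop
  exact contMDiff_const.prodMk h.contMDiff

theorem mfderiv_ray (x : S2 × R3) (t : ℝ) :
    (mfderiv 𝓘(ℝ, ℝ) IE (ray x) t : ℝ →L[ℝ] EuclideanSpace ℝ (Fin 2) × R3) 1 = (0, -x.2) := by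
  have h1 : MDifferentiableAt 𝓘(ℝ, ℝ) (𝓡 2) (fun _ : ℝ => x.1) t := mdifferentiableAt_const
  have hd : HasDerivAt (fun t : ℝ => (1 - t) • x.2) (-x.2) t := by
    have := ((hasDerivAt_id t).const_sub 1).smul_const x.2
    simpa using this
  have h2 : MDifferentiableAt 𝓘(ℝ, ℝ) 𝓘(ℝ, R3) (fun t : ℝ => (1 - t) • x.2) t :=
    hd.differentiableAt.mdifferentiableAt
  have h3 := h1.mfderiv_prod h2
  rw [mfderiv_const, mfderiv_eq_fderiv] at h3
  have h4 : (mfderiv 𝓘(ℝ, ℝ) IE (ray x) t : ℝ →L[ℝ] EuclideanSpace ℝ (Fin 2) × R3) 1 =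
      (0, fderiv ℝ (fun t : ℝ => (1 - t) • x.2) t 1) :=
    congrArg (fun L : ℝ →L[ℝ] EuclideanSpace ℝ (Fin 2) × R3 => L 1) h3
  rw [h4, fderiv_apply_one_eq_deriv, hd.deriv]

/-- The distance to the zero section in the metric `gAmb`. -/
theorem gAmb_distTo (hG : IsAmb G) (x : S2 × R3) :
    distTo (gAmb G hG) (range zeroSec) x = ENNReal.ofReal ‖x.2‖ := by
  let i1 : RiemannianBundle (fun x : S2 × R3 => TangentSpace IE x) :=
    ⟨(gAmb G hG).toRiemannianMetric⟩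
  have hn : ∀ (x : S2 × R3) (v : TangentSpace IE x), ‖v‖ ^ 2 = (gAmb G hG).inner x v v := by
    intro x v
    rw [← real_inner_self_eq_norm_sq]
    rfl
  have h1 := iInf_riemannianEDist_zero_eq (I := IE) contMDiff_sqN sqN_nonneg
    (fun x v => by rw [hn]; exact sq_dReal_sqN_le hG x v) x ?_
  · have h2 : √(sqN x) = ‖x.2‖ := Real.sqrt_sq (norm_nonneg _)
    rw [h2, sqN_eq_zero] at h1
    exact h1
  · refine ⟨(x.1, 0), by simp [sqN], ?_⟩
    have h3 := riemannianEDist_le_of_speed (I := IE) (γ := ray x) (c := ENNReal.ofReal √(sqN x))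
      (contMDiff_ray x).contMDiffOn ?_
    · have e0 : ray x 0 = x := by simp [ray]
      have e1 : ray x 1 = (x.1, 0) := by simp [ray]
      rw [e0, e1] at h3
      exact h3
    · intro t ht
      have u1 : mfderivWithin 𝓘(ℝ, ℝ) IE (ray x) (Icc 0 1) t = mfderiv 𝓘(ℝ, ℝ) IE (ray x) t := by
        refine mfderivWithin_eq_mfderiv ?_ ((contMDiff_ray x t).mdifferentiableAt (by simp))
        exact (uniqueDiffOn_Icc zero_lt_one t ht).uniqueMDiffWithinAt
      rw [u1]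
      have u2 : ‖(mfderiv 𝓘(ℝ, ℝ) IE (ray x) t 1 : TangentSpace IE (ray x t))‖ ^ 2 ≤ sqN x := by
        rw [hn, gAmb_inner']
        have u3 : dE (ray x t) (mfderiv 𝓘(ℝ, ℝ) IE (ray x) t 1) = (0, -eR x.2) := by
          have := mfderiv_ray x t
          change dE (ray x t) ((mfderiv 𝓘(ℝ, ℝ) IE (ray x) t :
            ℝ →L[ℝ] EuclideanSpace ℝ (Fin 2) × R3) 1) = _
          rw [this, dE_apply, map_zero, map_neg]
        rw [u3]
        have u4 := hG.vert_le (eR (x.1 : R3)) (eR (ray x t).2) (-eR x.2) (eR_sphere x.1)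
        rw [neg_dotProduct_neg, dot_eR_self] at u4
        exact u4
      rw [← ofReal_norm]
      exact ENNReal.ofReal_le_ofReal (Real.le_sqrt_of_sq_le u2)

theorem range_tube {r : ℝ} (hr : 0 < r) : range (tube r) = {x : S2 × R3 | ‖x.2‖ = r} := by
  ext ⟨y, w⟩
  simp only [mem_range, mem_ofPred_eq, tube]
  constructor
  · rintro ⟨⟨y', z⟩, h⟩
    have h2 : r • (z : R3) = w := congrArg Prod.snd h
    rw [← h2, norm_smul, Real.norm_eq_abs, abs_of_pos hr]
    simp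
  · intro h
    have hz : r⁻¹ • w ∈ sphere (0 : R3) 1 := by
      rw [mem_sphere_zero_iff_norm, norm_smul, Real.norm_eq_abs, abs_of_pos (inv_pos.mpr hr), h]
      exact inv_mul_cancel₀ hr.ne'
    refine ⟨(y, ⟨r⁻¹ • w, hz⟩), ?_⟩
    have : r • r⁻¹ • w = w := smul_inv_smul₀ hr.ne' w
    rw [this]

/-- The distance spheres about the zero section. -/
theorem gAmb_sphere_eq (hG : IsAmb G) (r : ℝ) (hr : 0 < r) :
    {x | distTo (gAmb G hG) (range zeroSec) x = ENNReal.ofReal r} = range (tube r) := by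
  rw [range_tube hr]
  ext x
  simp only [mem_ofPred_eq]
  rw [gAmb_distTo]
  exact ENNReal.ofReal_eq_ofReal_iff (norm_nonneg _) hr.le

end

end Pool.Agent.HS
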