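import Pool.Agent.HS.AmbReg

set_option autoImplicit false
set_option maxSynthPendingDepth 3

/-!
# The Euler-top data on the ambient space (project HS, block AMB)
-/

open Matrix Topology Filter Set
open scoped ContDiff

namespace Pool.Agent.HS

noncomputable section

variable {d : ℝ} {y : V3} {n : WithTop ℕ∞}

theorem contDiff_kapM (a b : Fin 3) : ContDiff ℝ n (fun y : V3 => kapM d y a b) := by
  have h : ∀ v : V3, ContDiff ℝ n (fun y : V3 => y ⬝ᵥ v) := by
    intro v
    have h1 : (fun y : V3 => y ⬝ᵥ v) = fun y => dotL y v := rfl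
    rw [h1]
    exact dotL.contDiff.clm_apply contDiff_const
  unfold kapM kap
  have h1 := h (Pi.single a 1)
  have h2 := h (Pi.single b 1)
  fun_prop

theorem isInner_hBL (hd : |d| < 1) (hy : y ⬝ᵥ y = 1) : IsInner (hBL d y) where
  symm u v := by
    rw [hBL_apply, hBL_apply, hB, hB]
    congr 1
    simp [Bv, dotProduct, Fin.sum_univ_three]
    ring
  pos u hu := by
    rw [hBL_apply, hB]
    refine div_pos ?_ (Dl_pos hd hy)
    have h1 := abs_lt.1 hd
    have h2 : Bv d u ⬝ᵥ u = (1 + d) * u 0 ^ 2 + u 1 ^ 2 + (1 - d) * u 2 ^ 2 := by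
      simp [Bv, dotProduct, Fin.sum_univ_three]
      ring
    rw [h2]
    have ha : 0 < 1 - d := by linarith [h1.2]
    have hb : 0 < 1 + d := by linarith [h1.1]
    have h3 : u 0 ≠ 0 ∨ u 1 ≠ 0 ∨ u 2 ≠ 0 := by
      by_contra h
      push Not at h
      apply hu
      ext i
      fin_cases i
      · exact h.1
      · exact h.2.1
      · exact h.2.2
    have e0 := mul_nonneg hb.le (sq_nonneg (u 0))
    have e1 := sq_nonneg (u 1)
    have e2 := mul_nonneg ha.le (sq_nonneg (u 2))
    rcases h3 with h | h | h
    · have := mul_pos hb (sq_pos_of_ne_zero h)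
      linarith
    · have := sq_pos_of_ne_zero h
      linarith
    · have := mul_pos ha (sq_pos_of_ne_zero h)
      linarith

end

end Pool.Agent.HS
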