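import Pool.Agent.HS.Defs

/-!
# The inner product of covectors (project HS)
-/

namespace Pool.Agent.HS

open Module

variable {E : Type*} [NormedAddCommGroup E] [NormedSpace ℝ E]

theorem IsInner.injective {g : E →L[ℝ] E →L[ℝ] ℝ} (h : IsInner g) : Function.Injective g := by
  intro x y hxy
  by_contra hne
  have h1 := h.pos (x - y) (sub_ne_zero.mpr hne)
  have h2 : g (x - y) = 0 := by rw [map_sub, hxy, sub_self]
  rw [h2] at h1
  simp at h1

theorem IsInner.invertible [FiniteDimensional ℝ E] {g : E →L[ℝ] E →L[ℝ] ℝ} (h : IsInner g) :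
    g.IsInvertible := by
  haveI : FiniteDimensional ℝ (E →L[ℝ] ℝ) :=
    LinearEquiv.finiteDimensional (LinearMap.toContinuousLinearMap (𝕜 := ℝ) (E := E) (F' := ℝ))
  have hdim : finrank ℝ E = finrank ℝ (E →L[ℝ] ℝ) := by
    rw [← (LinearMap.toContinuousLinearMap (𝕜 := ℝ) (E := E) (F' := ℝ)).finrank_eq]
    exact (Subspace.dual_finrank_eq (K := ℝ) (V := E)).symm
  let e : E ≃ₗ[ℝ] (E →L[ℝ] ℝ) :=
    (g : E →ₗ[ℝ] (E →L[ℝ] ℝ)).linearEquivOfInjective h.injective hdim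
  refine ⟨e.toContinuousLinearEquiv, ?_⟩
  ext x y
  rfl

theorem sharp_spec [FiniteDimensional ℝ E] {g : E →L[ℝ] E →L[ℝ] ℝ} (h : IsInner g)
    (α : E →L[ℝ] ℝ) : g (sharp g α) = α :=
  h.invertible.self_apply_inverse α

theorem sharp_apply [FiniteDimensional ℝ E] {g : E →L[ℝ] E →L[ℝ] ℝ} (h : IsInner g)
    (α : E →L[ℝ] ℝ) (z : E) : g (sharp g α) z = α z := by
  rw [sharp_spec h]

theorem sharp_eq [FiniteDimensional ℝ E] {g : E →L[ℝ] E →L[ℝ] ℝ} (h : IsInner g)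
    {α : E →L[ℝ] ℝ} {a : E} (ha : g a = α) : sharp g α = a := by
  apply h.injective
  rw [sharp_spec h, ha]

theorem sharp_eq_of [FiniteDimensional ℝ E] {g : E →L[ℝ] E →L[ℝ] ℝ} (h : IsInner g)
    {α : E →L[ℝ] ℝ} {a : E} (ha : ∀ z, g a z = α z) : sharp g α = a :=
  sharp_eq h (by ext z; exact ha z)

theorem sharp_add (g : E →L[ℝ] E →L[ℝ] ℝ) (α β : E →L[ℝ] ℝ) :
    sharp g (α + β) = sharp g α + sharp g β := map_add _ _ _

theorem sharp_sub (g : E →L[ℝ] E →L[ℝ] ℝ) (α β : E →L[ℝ] ℝ) :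
    sharp g (α - β) = sharp g α - sharp g β := map_sub _ _ _

theorem sharp_smul (g : E →L[ℝ] E →L[ℝ] ℝ) (c : ℝ) (α : E →L[ℝ] ℝ) :
    sharp g (c • α) = c • sharp g α := map_smul _ _ _

@[simp] theorem sharp_zero (g : E →L[ℝ] E →L[ℝ] ℝ) : sharp g 0 = 0 := map_zero _

theorem cov_add_left (g : E →L[ℝ] E →L[ℝ] ℝ) (α β γ : E →L[ℝ] ℝ) :
    cov g (α + β) γ = cov g α γ + cov g β γ := rfl

theorem cov_add_right (g : E →L[ℝ] E →L[ℝ] ℝ) (α β γ : E →L[ℝ] ℝ) :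
    cov g α (β + γ) = cov g α β + cov g α γ := by
  unfold cov; rw [sharp_add, map_add]

theorem cov_smul_left (g : E →L[ℝ] E →L[ℝ] ℝ) (c : ℝ) (α β : E →L[ℝ] ℝ) :
    cov g (c • α) β = c * cov g α β := rfl

theorem cov_smul_right (g : E →L[ℝ] E →L[ℝ] ℝ) (c : ℝ) (α β : E →L[ℝ] ℝ) :
    cov g α (c • β) = c * cov g α β := by
  unfold cov; rw [sharp_smul, map_smul, smul_eq_mul]

theorem cov_sub_left (g : E →L[ℝ] E →L[ℝ] ℝ) (α β γ : E →L[ℝ] ℝ) :
    cov g (α - β) γ = cov g α γ - cov g β γ := rfl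

theorem cov_sub_right (g : E →L[ℝ] E →L[ℝ] ℝ) (α β γ : E →L[ℝ] ℝ) :
    cov g α (β - γ) = cov g α β - cov g α γ := by
  unfold cov; rw [sharp_sub, map_sub]

@[simp] theorem cov_zero_left (g : E →L[ℝ] E →L[ℝ] ℝ) (α : E →L[ℝ] ℝ) : cov g 0 α = 0 := rfl

@[simp] theorem cov_zero_right (g : E →L[ℝ] E →L[ℝ] ℝ) (α : E →L[ℝ] ℝ) : cov g α 0 = 0 := by
  unfold cov; rw [sharp_zero, map_zero]

/-- The inner product of `g a` and `g b` is `g a b`. -/
theorem cov_eq [FiniteDimensional ℝ E] {g : E →L[ℝ] E →L[ℝ] ℝ} (h : IsInner g)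
    {α β : E →L[ℝ] ℝ} {a b : E} (ha : g a = α) (hb : g b = β) : cov g α β = g a b := by
  unfold cov; rw [sharp_eq h hb, ← ha]

theorem cov_eq_of [FiniteDimensional ℝ E] {g : E →L[ℝ] E →L[ℝ] ℝ} (h : IsInner g)
    {α β : E →L[ℝ] ℝ} {a b : E} (ha : ∀ z, g a z = α z) (hb : ∀ z, g b z = β z) :
    cov g α β = g a b :=
  cov_eq h (by ext z; exact ha z) (by ext z; exact hb z)

theorem cov_eq_sharp [FiniteDimensional ℝ E] {g : E →L[ℝ] E →L[ℝ] ℝ} (h : IsInner g)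
    (α β : E →L[ℝ] ℝ) : cov g α β = g (sharp g α) (sharp g β) :=
  cov_eq h (sharp_spec h α) (sharp_spec h β)

theorem cov_comm [FiniteDimensional ℝ E] {g : E →L[ℝ] E →L[ℝ] ℝ} (h : IsInner g)
    (α β : E →L[ℝ] ℝ) : cov g α β = cov g β α := by
  rw [cov_eq_sharp h, cov_eq_sharp h, h.symm]

theorem cov_self_nonneg [FiniteDimensional ℝ E] {g : E →L[ℝ] E →L[ℝ] ℝ} (h : IsInner g)
    (α : E →L[ℝ] ℝ) : 0 ≤ cov g α α := by
  rw [cov_eq_sharp h]
  by_cases h0 : sharp g α = 0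
  · rw [h0]; simp
  · exact (h.pos _ h0).le

theorem IsInner.smul {g : E →L[ℝ] E →L[ℝ] ℝ} (h : IsInner g) {c : ℝ} (hc : 0 < c) :
    IsInner (c • g) where
  symm x y := by
    change c * g x y = c * g y x
    rw [h.symm]
  pos x hx := mul_pos hc (h.pos x hx)

theorem IsInner.add {g g' : E →L[ℝ] E →L[ℝ] ℝ} (h : IsInner g) (h' : IsInner g') :
    IsInner (g + g') where
  symm x y := by
    change g x y + g' x y = g y x + g' y x
    rw [h.symm, h'.symm]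
  pos x hx := add_pos (h.pos x hx) (h'.pos x hx)

/-- Scaling of the metric. -/
theorem cov_smul_metric [FiniteDimensional ℝ E] {g : E →L[ℝ] E →L[ℝ] ℝ} (h : IsInner g)
    {c : ℝ} (hc : 0 < c) (α β : E →L[ℝ] ℝ) : cov (c • g) α β = c⁻¹ * cov g α β := by
  have hc' := hc.ne'
  have h1 : ∀ γ : E →L[ℝ] ℝ, sharp (c • g) γ = c⁻¹ • sharp g γ := by
    intro γ
    apply sharp_eq_of (h.smul hc)
    intro z
    change c * g (c⁻¹ • sharp g γ) z = γ z
    rw [map_smul]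
    change c * (c⁻¹ * g (sharp g γ) z) = γ z
    rw [sharp_apply h, ← mul_assoc, mul_inv_cancel₀ hc', one_mul]
  unfold cov
  rw [h1, map_smul, smul_eq_mul]

end Pool.Agent.HS
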