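import Pool.Agent.HS.Calc
import Pool.Agent.HS.Cov

/-!
# Basic properties of the coordinate curvature form `Rm` (project HS)
-/

namespace Pool.Agent.HS

open scoped Topology

variable {E : Type*} [NormedAddCommGroup E] [NormedSpace ℝ E]
variable {G : E → E →L[ℝ] E →L[ℝ] ℝ} {p : E}

/-- Evaluation of bilinear forms at `(u, v)`. -/
noncomputable def ev2 (u v : E) : (E →L[ℝ] E →L[ℝ] ℝ) →L[ℝ] ℝ :=
  (ContinuousLinearMap.apply ℝ ℝ v).comp (ContinuousLinearMap.apply ℝ (E →L[ℝ] ℝ) u)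

theorem ev2_apply (u v : E) (g : E →L[ℝ] E →L[ℝ] ℝ) : ev2 u v g = g u v := rfl

theorem hasFDerivAt_coeff (hG : DifferentiableAt ℝ G p) (u v : E) :
    HasFDerivAt (fun q => G q u v) ((ev2 u v).comp (fderiv ℝ G p)) p := by
  have h := hasFDerivAt_clm (F := E →L[ℝ] E →L[ℝ] ℝ) (F' := ℝ) hG (ev2 u v)
  exact h

theorem contDiffAt_coeff {n : WithTop ℕ∞} (hG : ContDiffAt ℝ n G p) (u v : E) :
    ContDiffAt ℝ n (fun q => G q u v) p := by
  have h := contDiffAt_clm (F := E →L[ℝ] E →L[ℝ] ℝ) (F' := ℝ) hG (ev2 u v)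
  exact h

theorem D1_fderiv (hG : DifferentiableAt ℝ G p) (x u v : E) :
    D1 G p x u v = fderiv ℝ G p x u v := by
  unfold D1
  rw [(hasFDerivAt_coeff hG u v).fderiv]
  rfl

theorem D2_dd (hG : ContDiffAt ℝ 2 G p) (x y u v : E) :
    D2 G p x y u v = dd G p x y u v :=
  dd_clm hG (ev2 u v) x y

/-- `D2` as second derivative of the coefficient. -/
theorem D2_coeff (G : E → E →L[ℝ] E →L[ℝ] ℝ) (p x y u v : E) :
    D2 G p x y u v = dd (fun q => G q u v) p x y := rfl

theorem Gam_apply (hG : DifferentiableAt ℝ G p) (x y z : E) :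
    Gam G p x y z = (D1 G p x y z + D1 G p y x z - D1 G p z x y) / 2 := by
  have h1 : ∀ u : E, HasFDerivAt (fun q => G q u)
      ((ContinuousLinearMap.apply ℝ (E →L[ℝ] ℝ) u).comp (fderiv ℝ G p)) p := by
    intro u
    have h := hasFDerivAt_clm (F := E →L[ℝ] E →L[ℝ] ℝ) (F' := E →L[ℝ] ℝ) hG
      (ContinuousLinearMap.apply ℝ (E →L[ℝ] ℝ) u)
    exact h
  have h2 : Gam G p x y z = (1 / 2 : ℝ) * (fderiv ℝ (fun q => G q y) p x z
      + fderiv ℝ (fun q => G q x) p y z - fderiv ℝ (fun q => G q x y) p z) := rfl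
  rw [h2, (h1 x).fderiv, (h1 y).fderiv, (hasFDerivAt_coeff hG x y).fderiv,
    D1_fderiv hG, D1_fderiv hG, D1_fderiv hG]
  change (1 / 2 : ℝ) * (fderiv ℝ G p x y z + fderiv ℝ G p y x z - fderiv ℝ G p z x y) = _
  ring

theorem Gam_ext (hG : DifferentiableAt ℝ G p) {x y : E} {α : E →L[ℝ] ℝ}
    (h : ∀ z, (D1 G p x y z + D1 G p y x z - D1 G p z x y) / 2 = α z) : Gam G p x y = α := by
  ext z
  rw [Gam_apply hG, h]

theorem D1_congr {G' : E → E →L[ℝ] E →L[ℝ] ℝ} (h : G =ᶠ[𝓝 p] G') (x u v : E) :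
    D1 G p x u v = D1 G' p x u v := by
  unfold D1
  have h' : (fun q => G q u v) =ᶠ[𝓝 p] fun q => G' q u v := by
    filter_upwards [h] with q hq
    rw [hq]
  rw [h'.fderiv_eq]

theorem D2_congr {G' : E → E →L[ℝ] E →L[ℝ] ℝ} (h : G =ᶠ[𝓝 p] G') (x y u v : E) :
    D2 G p x y u v = D2 G' p x y u v := by
  have h' : (fun q => G q u v) =ᶠ[𝓝 p] fun q => G' q u v := by
    filter_upwards [h] with q hq
    rw [hq]
  exact dd_congr h' x y

theorem Gam_congr {G' : E → E →L[ℝ] E →L[ℝ] ℝ} (h : G =ᶠ[𝓝 p] G') (x y : E) :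
    Gam G p x y = Gam G' p x y := by
  have h1 : ∀ u : E, (fun q => G q u) =ᶠ[𝓝 p] fun q => G' q u := by
    intro u
    filter_upwards [h] with q hq
    rw [hq]
  have h' : (fun q => G q x y) =ᶠ[𝓝 p] fun q => G' q x y := by
    filter_upwards [h] with q hq
    rw [hq]
  unfold Gam
  rw [(h1 x).fderiv_eq, (h1 y).fderiv_eq, h'.fderiv_eq]

/-- `Rm` only depends on the germ of the metric. -/
theorem Rm_congr {G' : E → E →L[ℝ] E →L[ℝ] ℝ} (h : G =ᶠ[𝓝 p] G') (x y : E) :
    Rm G p x y = Rm G' p x y := by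
  unfold Rm
  rw [D2_congr h, D2_congr h, D2_congr h, Gam_congr h, Gam_congr h, Gam_congr h, h.eq_of_nhds]

theorem D2_comm (hG : ContDiffAt ℝ 2 G p) (x y u v : E) :
    D2 G p x y u v = D2 G p y x u v := by
  rw [D2_dd hG, D2_dd hG, dd_comm hG]

/-- Symmetry near `p`. -/
def SymmNear (G : E → E →L[ℝ] E →L[ℝ] ℝ) (p : E) : Prop :=
  ∀ᶠ q in 𝓝 p, ∀ u v, G q u v = G q v u

theorem D1_symm (hs : SymmNear G p) (x u v : E) : D1 G p x u v = D1 G p x v u := by
  have h' : (fun q => G q u v) =ᶠ[𝓝 p] fun q => G q v u := by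
    filter_upwards [hs] with q hq
    rw [hq]
  unfold D1
  rw [h'.fderiv_eq]

theorem D2_symm (hs : SymmNear G p) (x y u v : E) : D2 G p x y u v = D2 G p x y v u := by
  have h' : (fun q => G q u v) =ᶠ[𝓝 p] fun q => G q v u := by
    filter_upwards [hs] with q hq
    rw [hq]
  exact dd_congr h' x y

theorem Gam_comm (hs : SymmNear G p) (x y : E) : Gam G p x y = Gam G p y x := by
  have h' : (fun q => G q x y) =ᶠ[𝓝 p] fun q => G q y x := by
    filter_upwards [hs] with q hq
    rw [hq]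
  unfold Gam
  rw [h'.fderiv_eq, add_comm (fderiv ℝ (fun q => G q y) p x)]

theorem D1_lin1 (G : E → E →L[ℝ] E →L[ℝ] ℝ) (p x x' u v : E) (a b : ℝ) :
    D1 G p (a • x + b • x') u v = a * D1 G p x u v + b * D1 G p x' u v := by
  unfold D1; simp

theorem D1_lin2 (hG : DifferentiableAt ℝ G p) (x u u' v : E) (a b : ℝ) :
    D1 G p x (a • u + b • u') v = a * D1 G p x u v + b * D1 G p x u' v := by
  rw [D1_fderiv hG, D1_fderiv hG, D1_fderiv hG, map_add, map_smul, map_smul]
  rfl

theorem D1_lin3 (hG : DifferentiableAt ℝ G p) (x u v v' : E) (a b : ℝ) :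
    D1 G p x u (a • v + b • v') = a * D1 G p x u v + b * D1 G p x u v' := by
  rw [D1_fderiv hG, D1_fderiv hG, D1_fderiv hG, map_add, map_smul, map_smul]
  rfl

theorem D2_lin1 (G : E → E →L[ℝ] E →L[ℝ] ℝ) (p x x' y u v : E) (a b : ℝ) :
    D2 G p (a • x + b • x') y u v = a * D2 G p x y u v + b * D2 G p x' y u v := by
  unfold D2; simp

theorem D2_lin2 (hG : ContDiffAt ℝ 2 G p) (x y y' u v : E) (a b : ℝ) :
    D2 G p x (a • y + b • y') u v = a * D2 G p x y u v + b * D2 G p x y' u v := by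
  rw [D2_comm hG, D2_lin1, D2_comm hG y x, D2_comm hG y' x]

theorem D2_lin3 (hG : ContDiffAt ℝ 2 G p) (x y u u' v : E) (a b : ℝ) :
    D2 G p x y (a • u + b • u') v = a * D2 G p x y u v + b * D2 G p x y u' v := by
  rw [D2_dd hG, D2_dd hG, D2_dd hG, map_add, map_smul, map_smul]
  rfl

theorem D2_lin4 (hG : ContDiffAt ℝ 2 G p) (x y u v v' : E) (a b : ℝ) :
    D2 G p x y u (a • v + b • v') = a * D2 G p x y u v + b * D2 G p x y u v' := by
  rw [D2_dd hG, D2_dd hG, D2_dd hG, map_add, map_smul, map_smul]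
  rfl

theorem Gam_lin1 (hG : DifferentiableAt ℝ G p) (x x' y : E) (a b : ℝ) :
    Gam G p (a • x + b • x') y = a • Gam G p x y + b • Gam G p x' y := by
  ext z
  change Gam G p (a • x + b • x') y z = a * Gam G p x y z + b * Gam G p x' y z
  rw [Gam_apply hG, Gam_apply hG, Gam_apply hG, D1_lin1, D1_lin2 hG, D1_lin2 hG]
  ring

theorem Gam_lin2 (hG : DifferentiableAt ℝ G p) (x y y' : E) (a b : ℝ) :
    Gam G p x (a • y + b • y') = a • Gam G p x y + b • Gam G p x y' := by
  ext z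
  change Gam G p x (a • y + b • y') z = a * Gam G p x y z + b * Gam G p x y' z
  rw [Gam_apply hG, Gam_apply hG, Gam_apply hG, D1_lin1, D1_lin2 hG, D1_lin3 hG]
  ring

/-- The curvature form is symmetric. -/
theorem Rm_comm (hG : ContDiffAt ℝ 2 G p) (hs : SymmNear G p)
    (hc : ∀ α β : E →L[ℝ] ℝ, cov (G p) α β = cov (G p) β α) (x y : E) :
    Rm G p x y = Rm G p y x := by
  unfold Rm
  rw [Gam_comm hs y x, D2_comm hG y x, D2_symm hs x y y x,
    hc (Gam G p y y) (Gam G p x x)]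
  ring

/-- The curvature form is a quadratic form of the bivector `x ∧ y`. -/
theorem Rm_plane' (hG : ContDiffAt ℝ 2 G p) (hs : SymmNear G p)
    (hc : ∀ α β : E →L[ℝ] ℝ, cov (G p) α β = cov (G p) β α) (x y : E) (a b c d : ℝ) :
    Rm G p (a • x + b • y) (c • x + d • y) = (a * d - b * c) ^ 2 * Rm G p x y := by
  have h1 := diff1 hG
  unfold Rm
  simp only [Gam_lin1 h1, Gam_lin2 h1, D2_lin1, D2_lin2 hG, D2_lin3 hG, D2_lin4 hG,
    cov_add_left, cov_add_right, cov_smul_left, cov_smul_right]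
  rw [Gam_comm hs y x, hc (Gam G p x y) (Gam G p x x), hc (Gam G p y y) (Gam G p x x),
    hc (Gam G p y y) (Gam G p x y)]
  simp only [D2_comm hG y x, D2_symm hs _ _ y x]
  ring

theorem Rm_plane [FiniteDimensional ℝ E] (hG : ContDiffAt ℝ 2 G p) (hs : SymmNear G p)
    (hi : IsInner (G p)) (x y : E) (a b c d : ℝ) :
    Rm G p (a • x + b • y) (c • x + d • y) = (a * d - b * c) ^ 2 * Rm G p x y :=
  Rm_plane' hG hs (cov_comm hi) x y a b c d

/-- To prove positivity it is enough to find in every plane one basis with `Rm > 0`. -/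
theorem PosAt.of_basis [FiniteDimensional ℝ E] (hG : ContDiffAt ℝ 2 G p) (hs : SymmNear G p)
    (hi : IsInner (G p))
    (h : ∀ x y : E, LinearIndependent ℝ ![x, y] →
      ∃ a b c d : ℝ, 0 < Rm G p (a • x + b • y) (c • x + d • y)) : PosAt G p := by
  intro x y hxy
  obtain ⟨a, b, c, d, h1⟩ := h x y hxy
  rw [Rm_plane hG hs hi] at h1
  by_contra hneg
  have : (a * d - b * c) ^ 2 * Rm G p x y ≤ 0 :=
    mul_nonpos_of_nonneg_of_nonpos (sq_nonneg _) (not_lt.mp hneg)
  linarith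

theorem NonnegAt.of_basis [FiniteDimensional ℝ E] (hG : ContDiffAt ℝ 2 G p)
    (hs : SymmNear G p) (hi : IsInner (G p))
    (h : ∀ x y : E, LinearIndependent ℝ ![x, y] →
      ∃ a b c d : ℝ, a * d - b * c ≠ 0 ∧ 0 ≤ Rm G p (a • x + b • y) (c • x + d • y)) :
    NonnegAt G p := by
  intro x y
  by_cases hxy : LinearIndependent ℝ ![x, y]
  · obtain ⟨a, b, c, d, h0, h1⟩ := h x y hxy
    rw [Rm_plane hG hs hi] at h1
    by_contra hneg
    have : (a * d - b * c) ^ 2 * Rm G p x y < 0 :=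
      mul_neg_of_pos_of_neg (by positivity) (not_le.mp hneg)
    linarith
  · -- dependent vectors: the form vanishes
    rw [LinearIndependent.pair_iff] at hxy
    push Not at hxy
    obtain ⟨s, t, hst, hne⟩ := hxy
    have key : ∀ (c : ℝ) (z : E), Rm G p z (c • z) = 0 ∧ Rm G p (c • z) z = 0 := by
      intro c z
      have h2 := Rm_plane hG hs hi z z 1 0 c 0
      have h3 := Rm_plane hG hs hi z z c 0 1 0
      simp only [one_smul, zero_smul, add_zero] at h2 h3
      constructor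
      · rw [h2]; ring
      · rw [h3]; ring
    by_cases hs0 : s = 0
    · have ht : t ≠ 0 := hne hs0
      have hy : y = (0 : ℝ) • x := by
        rw [hs0, zero_smul, zero_add] at hst
        rw [zero_smul]
        exact (smul_eq_zero.mp hst).resolve_left ht
      rw [hy, (key 0 x).1]
    · have hx : x = (-(t / s)) • y := by
        have h4 : s • x = -(t • y) := by
          rw [eq_neg_iff_add_eq_zero]; exact hst
        have h5 : x = s⁻¹ • (s • x) := by rw [smul_smul, inv_mul_cancel₀ hs0, one_smul]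
        rw [h5, h4, ← neg_smul, smul_smul]
        congr 1
        field_simp
      rw [hx, (key _ y).2]

theorem D1_smul_metric (hG : DifferentiableAt ℝ G p) (c : ℝ) (x u v : E) :
    D1 (fun q => c • G q) p x u v = c * D1 G p x u v := by
  unfold D1
  have h : HasFDerivAt (fun q => (c • G q) u v) (c • fderiv ℝ (fun q => G q u v) p) p := by
    have h0 := (hasFDerivAt_coeff hG u v)
    have h1 := h0.const_smul c
    rw [h0.fderiv]
    exact h1
  rw [h.fderiv]
  rfl

theorem D2_smul_metric (hG : ContDiffAt ℝ 2 G p) (c : ℝ) (x y u v : E) :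
    D2 (fun q => c • G q) p x y u v = c * D2 G p x y u v := by
  have h2 : ContDiffAt ℝ 2 (fun q => G q u v) p := contDiffAt_coeff hG u v
  have h := dd_const_smul h2 c x y
  exact h

/-- Scaling of the metric: `Rm` is homogeneous of degree one. -/
theorem Rm_smul_metric [FiniteDimensional ℝ E] (hG : ContDiffAt ℝ 2 G p) (hi : IsInner (G p))
    {c : ℝ} (hc : 0 < c) (x y : E) :
    Rm (fun q => c • G q) p x y = c * Rm G p x y := by
  have h1 := diff1 hG
  have h1' : DifferentiableAt ℝ (fun q => c • G q) p := h1.const_smul c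
  have hGam : ∀ u v : E, Gam (fun q => c • G q) p u v = c • Gam G p u v := by
    intro u v
    ext z
    change _ = c * Gam G p u v z
    rw [Gam_apply h1', Gam_apply h1, D1_smul_metric h1, D1_smul_metric h1, D1_smul_metric h1]
    ring
  unfold Rm
  simp only [hGam, D2_smul_metric hG, cov_smul_metric hi hc, cov_smul_left, cov_smul_right]
  field_simp

end Pool.Agent.HS
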