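import Pool.Agent.HS.NormalForm

/-!
# Normal form of a 2-plane of `R^2 × R^3`, coordinate version
-/

namespace Pool.Agent.HS

open scoped RealInnerProductSpace
open Matrix

/-- scalar product of `Fin n → ℝ` as the Euclidean inner product -/
theorem inner_toLp_eq_dot {n : ℕ} (x y : Fin n → ℝ) :
    (inner ℝ (WithLp.toLp 2 x : EuclideanSpace ℝ (Fin n)) (WithLp.toLp 2 y) : ℝ) = x ⬝ᵥ y := by
  rw [EuclideanSpace.inner_toLp_toLp, star_trivial, dotProduct_comm]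

theorem inner_eq_dot_ofLp {n : ℕ} (x y : EuclideanSpace ℝ (Fin n)) :
    (inner ℝ x y : ℝ) = x.ofLp ⬝ᵥ y.ofLp := by
  rw [← inner_toLp_eq_dot]

theorem dot_self_of_norm_one {n : ℕ} (x : EuclideanSpace ℝ (Fin n)) (h : ‖x‖ = 1) :
    x.ofLp ⬝ᵥ x.ofLp = 1 := by
  rw [← inner_eq_dot_ofLp, real_inner_self_eq_norm_sq, h, one_pow]

/-- Normal form of a 2-plane of `R^2 × R^3`: every independent pair `(x, ξ)`, `(y, η)` has a
`GL_2` combination of the form `(s e, p f)`, `(t e', q f')` with `(e, e')` a positively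
oriented orthonormal basis of `R^2` and `f, f'` orthonormal in `R^3`. -/
theorem normal_form_fin (x y : Fin 2 → ℝ) (ξ η : Fin 3 → ℝ)
    (hind : ∀ a b : ℝ, a • x + b • y = 0 → a • ξ + b • η = 0 → a = 0 ∧ b = 0) :
    ∃ a b c d : ℝ, a * d - b * c ≠ 0 ∧
      ∃ e e' : Fin 2 → ℝ, e ⬝ᵥ e = 1 ∧ e' ⬝ᵥ e' = 1 ∧ e ⬝ᵥ e' = 0 ∧
        e 0 * e' 1 - e 1 * e' 0 = 1 ∧
      ∃ f f' : Fin 3 → ℝ, f ⬝ᵥ f = 1 ∧ f' ⬝ᵥ f' = 1 ∧ f ⬝ᵥ f' = 0 ∧
      ∃ s t p q : ℝ, 0 < s ^ 2 + p ^ 2 ∧ 0 < t ^ 2 + q ^ 2 ∧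
        a • x + b • y = s • e ∧ c • x + d • y = t • e' ∧
        a • ξ + b • η = p • f ∧ c • ξ + d • η = q • f' := by
  have hV : 2 ≤ Module.finrank ℝ (EuclideanSpace ℝ (Fin 2)) := by
    rw [finrank_euclideanSpace_fin]
  have hW : 2 ≤ Module.finrank ℝ (EuclideanSpace ℝ (Fin 3)) := by
    rw [finrank_euclideanSpace_fin]; norm_num
  have hind' : ∀ a b : ℝ,
      a • (WithLp.toLp 2 x : EuclideanSpace ℝ (Fin 2)) + b • WithLp.toLp 2 y = 0 →
      a • (WithLp.toLp 2 ξ : EuclideanSpace ℝ (Fin 3)) + b • WithLp.toLp 2 η = 0 →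
      a = 0 ∧ b = 0 := by
    intro a b h1 h2
    refine hind a b ?_ ?_
    · have := congrArg WithLp.ofLp h1
      simpa using this
    · have := congrArg WithLp.ofLp h2
      simpa using this
  obtain ⟨a, b, c, d, hdet, e, e', he, he', hee, f, f', hf, hf', hff, s, t, p, q, hsp, htq,
    hs, ht, hp, hq⟩ := normal_form hV hW (WithLp.toLp 2 x : EuclideanSpace ℝ (Fin 2))
      (WithLp.toLp 2 y) (WithLp.toLp 2 ξ : EuclideanSpace ℝ (Fin 3)) (WithLp.toLp 2 η) hind'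
  have hs' : a • x + b • y = s • e.ofLp := by
    have := congrArg WithLp.ofLp hs; simpa using this
  have ht' : c • x + d • y = t • e'.ofLp := by
    have := congrArg WithLp.ofLp ht; simpa using this
  have hp' : a • ξ + b • η = p • f.ofLp := by
    have := congrArg WithLp.ofLp hp; simpa using this
  have hq' : c • ξ + d • η = q • f'.ofLp := by
    have := congrArg WithLp.ofLp hq; simpa using this
  have E1 : e.ofLp ⬝ᵥ e.ofLp = 1 := dot_self_of_norm_one e he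
  have E2 : e'.ofLp ⬝ᵥ e'.ofLp = 1 := dot_self_of_norm_one e' he'
  have E3 : e.ofLp ⬝ᵥ e'.ofLp = 0 := by rw [← inner_eq_dot_ofLp]; exact hee
  have F1 : f.ofLp ⬝ᵥ f.ofLp = 1 := dot_self_of_norm_one f hf
  have F2 : f'.ofLp ⬝ᵥ f'.ofLp = 1 := dot_self_of_norm_one f' hf'
  have F3 : f.ofLp ⬝ᵥ f'.ofLp = 0 := by rw [← inner_eq_dot_ofLp]; exact hff
  generalize e.ofLp = u at *
  generalize e'.ofLp = v at *
  generalize f.ofLp = g at *
  generalize f'.ofLp = g' at *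
  -- orientation of (u, v)
  have hJ : (u 0 * v 1 - u 1 * v 0) ^ 2 = 1 := by
    simp only [dotProduct, Fin.sum_univ_two] at E1 E2 E3
    have : (u 0 * v 1 - u 1 * v 0) ^ 2
        = (u 0 * u 0 + u 1 * u 1) * (v 0 * v 0 + v 1 * v 1) - (u 0 * v 0 + u 1 * v 1) ^ 2 := by
      ring
    rw [this, E1, E2, E3]; ring
  rcases (sq_eq_one_iff.1 hJ) with h1 | h1
  · exact ⟨a, b, c, d, hdet, u, v, E1, E2, E3, h1, g, g', F1, F2, F3, s, t, p, q, hsp, htq,
      hs', ht', hp', hq'⟩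
  · refine ⟨a, b, c, d, hdet, u, -v, E1, ?_, ?_, ?_, g, g', F1, F2, F3, s, -t, p, q, hsp, ?_,
      hs', ?_, hp', hq'⟩
    · rw [neg_dotProduct, dotProduct_neg, neg_neg]; exact E2
    · rw [dotProduct_neg, E3, neg_zero]
    · simp only [Pi.neg_apply]; linarith
    · rw [neg_sq]; exact htq
    · rw [ht', smul_neg, neg_smul, neg_neg]

end Pool.Agent.HS
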