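import Pool.Agent.HS.M3
import Pool.Agent.HS.Basic
import Pool.Agent.HS.NormalFormFin

/-!
# Block M3, glue: from the normal form to `PosAt`
-/

namespace Pool.Agent.HS

open Matrix Set

/-- If the curvature form of a metric on `R² × R³` at `p` is `RP` and `RP` is positive on all
normal form pairs, then all sectional curvatures at `p` are positive. -/
theorem posAt_of_RP {G : (V2 × V3) → (V2 × V3) →L[ℝ] (V2 × V3) →L[ℝ] ℝ} {p : V2 × V3}
    (hG : ContDiffAt ℝ 2 G p) (hs : SymmNear G p) (hi : IsInner (G p))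
    {r : ℝ} {D : PD} {S : M33}
    (hR : ∀ (x : V2) (ξ : V3) (y : V2) (η : V3), Rm G p (x, ξ) (y, η) = RP r D S x ξ y η)
    (hpos : ∀ (e e' : V2) (f f' : V3), (e, e', f, f') ∈ Frames → ∀ s t p q : ℝ,
      (s * t ≠ 0 ∨ s * q ≠ 0 ∨ t * p ≠ 0 ∨ p * q ≠ 0) →
      0 < RP r D S (s • e) (p • f) (t • e') (q • f')) : PosAt G p := by
  refine PosAt.of_basis hG hs hi ?_
  rintro ⟨x, ξ⟩ ⟨y, η⟩ hind
  rw [LinearIndependent.pair_iff] at hind
  obtain ⟨a, b, c, d, _, e, e', he, he', hee, _, f, f', hf, hf', hff, s, t, p', q, hsp, htq,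
    h1, h2, h3, h4⟩ := normal_form_fin x y ξ η (by
      intro a b h1 h2
      exact hind a b (by
        ext1
        · exact h1
        · exact h2))
  refine ⟨a, b, c, d, ?_⟩
  have e1 : a • ((x, ξ) : V2 × V3) + b • ((y, η) : V2 × V3) = (s • e, p' • f) := by
    ext1
    · exact h1
    · exact h3
  have e2 : c • ((x, ξ) : V2 × V3) + d • ((y, η) : V2 × V3) = (t • e', q • f') := by
    ext1
    · exact h2
    · exact h4
  rw [e1, e2, hR]
  refine hpos e e' f f' ⟨he, he', hee, hf, hf', hff⟩ s t p' q ?_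
  by_contra hcon
  push Not at hcon
  obtain ⟨k1, k2, k3, k4⟩ := hcon
  by_cases hs0 : s = 0
  · have hp0 : p' ≠ 0 := by
      rintro rfl
      rw [hs0] at hsp
      norm_num at hsp
    have ht : t = 0 := (mul_eq_zero.1 k3).resolve_right hp0
    have hq : q = 0 := (mul_eq_zero.1 k4).resolve_left hp0
    rw [ht, hq] at htq
    norm_num at htq
  · have ht : t = 0 := (mul_eq_zero.1 k1).resolve_left hs0
    have hq : q = 0 := (mul_eq_zero.1 k2).resolve_left hs0
    rw [ht, hq] at htq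
    norm_num at htq

/-- **Block M3.**  For a compact set of pointwise data with `G > 0` there is `r₁ > 0` such that
for `0 < r ≤ r₁` every metric on (an open subset of) `R² × R³` whose curvature form at `p` is
`RP r D S` with `D` in the set and `S = (1 - (r²/3) κ)⁻¹` has positive sectional curvatures at
`p`; moreover `1 - (r²/3) κ` is positive definite. -/
theorem posAt_of_GPos {𝒦 : Set PD} (h𝒦 : IsCompact 𝒦) (hGP : ∀ D ∈ 𝒦, GPos D) :
    ∃ r1 : ℝ, 0 < r1 ∧ ∀ r : ℝ, 0 < r → r ≤ r1 → ∀ D ∈ 𝒦,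
      (∀ u : V3, u ≠ 0 → 0 < bf (1 - (r ^ 2 / 3) • D.κ) u u) ∧
      ∀ S : M33, (1 - (r ^ 2 / 3) • D.κ) * S = 1 →
      ∀ (G : (V2 × V3) → (V2 × V3) →L[ℝ] (V2 × V3) →L[ℝ] ℝ) (p : V2 × V3),
        ContDiffAt ℝ 2 G p → SymmNear G p → IsInner (G p) →
        (∀ (x : V2) (ξ : V3) (y : V2) (η : V3), Rm G p (x, ξ) (y, η) = RP r D S x ξ y η) →
        PosAt G p := by
  obtain ⟨r1, hr1, h⟩ := RP_pos h𝒦 hGP
  refine ⟨r1, hr1, fun r hr hrr D hD => ⟨(h r hr hrr D hD).1, ?_⟩⟩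
  intro S hS G p hG hs hi hR
  exact posAt_of_RP hG hs hi hR ((h r hr hrr D hD).2 S hS)

end Pool.Agent.HS
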