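import Pool.Agent.HS.Defs

set_option autoImplicit false
set_option maxSynthPendingDepth 3

/-!
# Transformation law of the coordinate curvature under local diffeomorphisms (project HS)

Main results: `D1_eq`, `D2_eq` (the derivatives of the coefficients of a metric as iterated
`fderiv`), `Rm_pull` (the curvature form is a tensor), `PosAt_pull`, `NonnegAt_pull`.
-/

namespace Pool.Agent.HS

open Set Filter
open scoped ContDiff Topology

noncomputable section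

variable {E : Type*} [NormedAddCommGroup E] [NormedSpace ℝ E]
  {F : Type*} [NormedAddCommGroup F] [NormedSpace ℝ F]

/-- The Christoffel symbols of the first kind (Koszul formula):
`[u v, z] = (∂_u g(v, z) + ∂_v g(u, z) - ∂_z g(u, v)) / 2` at `x`. -/
def kos (g : E → E →L[ℝ] E →L[ℝ] ℝ) (x u v z : E) : ℝ :=
  (fderiv ℝ g x u v z + fderiv ℝ g x v u z - fderiv ℝ g x z u v) / 2

/-- `a` is the Christoffel vector `Γ(u, v)` of `g` at `x`: `g(a, z) = [u v, z]` for all `z`. -/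
def IsChr (g : E → E →L[ℝ] E →L[ℝ] ℝ) (x u v a : E) : Prop :=
  ∀ z, g x a z = kos g x u v z

/-- The part of the curvature `R(u, v, v, u)` with the second derivatives of `g`. -/
def sec2 (g : E → E →L[ℝ] E →L[ℝ] ℝ) (x u v : E) : ℝ :=
  fderiv ℝ (fderiv ℝ g) x u v u v
    - (fderiv ℝ (fderiv ℝ g) x u u v v + fderiv ℝ (fderiv ℝ g) x v v u u) / 2

/-- `k` is the value at `x` of `⟨R(u, v) v, u⟩`, the numerator of the sectional curvature of the
plane of `u`, `v`: `k = ∂²_uv g(u, v) - (∂²_uu g(v, v) + ∂²_vv g(u, u)) / 2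
  + |Γ(u, v)|² - ⟨Γ(u, u), Γ(v, v)⟩`. -/
def IsCurv (g : E → E →L[ℝ] E →L[ℝ] ℝ) (x u v : E) (k : ℝ) : Prop :=
  ∃ a b c : E, IsChr g x u v a ∧ IsChr g x u u b ∧ IsChr g x v v c ∧
    k = sec2 g x u v + g x a a - g x b c

lemma hasFDerivAt_bil {B : F → E →L[ℝ] E →L[ℝ] ℝ} {p q : F → E} {x : F}
    {B' : F →L[ℝ] E →L[ℝ] E →L[ℝ] ℝ} {p' q' : F →L[ℝ] E}
    (hB : HasFDerivAt B B' x) (hp : HasFDerivAt p p' x) (hq : HasFDerivAt q q' x) (c : F) :
    ∃ L : F →L[ℝ] ℝ, HasFDerivAt (fun y => B y (p y) (q y)) L x ∧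
      L c = B' c (p x) (q x) + B x (p' c) (q x) + B x (p x) (q' c) := by
  have h1 := (hB.clm_apply hp).clm_apply hq
  refine ⟨_, h1, ?_⟩
  simp
  ring

lemma fderiv_bil {B : F → E →L[ℝ] E →L[ℝ] ℝ} {p q : F → E} {x : F}
    (hB : DifferentiableAt ℝ B x) (hp : DifferentiableAt ℝ p x) (hq : DifferentiableAt ℝ q x)
    (c : F) :
    fderiv ℝ (fun y => B y (p y) (q y)) x c =
      fderiv ℝ B x c (p x) (q x) + B x (fderiv ℝ p x c) (q x) + B x (p x) (fderiv ℝ q x c) := by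
  obtain ⟨L, hL, hc⟩ := hasFDerivAt_bil hB.hasFDerivAt hp.hasFDerivAt hq.hasFDerivAt c
  rw [hL.fderiv, hc]

/-- The derivative of a bilinear-form valued map, evaluated. -/
lemma fderiv_eval₂ {B : F → E →L[ℝ] E →L[ℝ] ℝ} {x : F} (hB : DifferentiableAt ℝ B x)
    (a b : E) (c : F) : fderiv ℝ B x c a b = fderiv ℝ (fun y => B y a b) x c := by
  rw [fderiv_bil hB (differentiableAt_const a) (differentiableAt_const b)]
  simp

lemma contDiffAt_bilinearComp {B : F → E →L[ℝ] E →L[ℝ] ℝ} {p q : F → F →L[ℝ] E} {x : F}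
    {n : ℕ∞ω} (hB : ContDiffAt ℝ n B x) (hp : ContDiffAt ℝ n p x) (hq : ContDiffAt ℝ n q x) :
    ContDiffAt ℝ n (fun y => (B y).bilinearComp (p y) (q y)) x := by
  have h1 : ContDiffAt ℝ n (fun y => (B y).comp (p y)) x := hB.clm_comp hp
  have h2 : ContDiffAt ℝ n (fun y => ((B y).comp (p y)).flip) x :=
    (ContinuousLinearMap.flipₗᵢ ℝ F E ℝ).contDiff.contDiffAt.comp x h1
  have h3 : ContDiffAt ℝ n (fun y => (((B y).comp (p y)).flip).comp (q y)) x := h2.clm_comp hq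
  exact (ContinuousLinearMap.flipₗᵢ ℝ F F ℝ).contDiff.contDiffAt.comp x h3

lemma contDiffAt_pull {τ : F → E} {g : E → E →L[ℝ] E →L[ℝ] ℝ} {x : F} {m n : ℕ∞ω}
    (hg : ContDiffAt ℝ m g (τ x)) (hτ : ContDiffAt ℝ n τ x) (hmn : m + 1 ≤ n) :
    ContDiffAt ℝ m (pull g τ) x := by
  have h1 : ContDiffAt ℝ m τ x := hτ.of_le (le_trans le_self_add hmn)
  have h2 : ContDiffAt ℝ m (fderiv ℝ τ) x := hτ.fderiv_right hmn
  exact contDiffAt_bilinearComp (hg.comp x h1) h2 h2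

lemma fderiv_pull {τ : F → E} {g : E → E →L[ℝ] E →L[ℝ] ℝ} {x : F}
    (hg : ContDiffAt ℝ 1 g (τ x)) (hτ : ContDiffAt ℝ 2 τ x) (c a b : F) :
    fderiv ℝ (pull g τ) x c a b =
      fderiv ℝ g (τ x) (fderiv ℝ τ x c) (fderiv ℝ τ x a) (fderiv ℝ τ x b) +
      g (τ x) (fderiv ℝ (fderiv ℝ τ) x c a) (fderiv ℝ τ x b) +
      g (τ x) (fderiv ℝ τ x a) (fderiv ℝ (fderiv ℝ τ) x c b) := by
  have hτ1 : DifferentiableAt ℝ τ x := hτ.differentiableAt (by norm_num)
  have hg1 : DifferentiableAt ℝ g (τ x) := hg.differentiableAt (by norm_num)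
  have hf : ContDiffAt ℝ 1 (fderiv ℝ τ) x := hτ.fderiv_right (by norm_num)
  have hf1 : DifferentiableAt ℝ (fderiv ℝ τ) x := hf.differentiableAt (by norm_num)
  have hpb : DifferentiableAt ℝ (pull g τ) x :=
    (contDiffAt_pull hg hτ (by norm_num)).differentiableAt (by norm_num)
  rw [fderiv_eval₂ hpb]
  have h := fderiv_bil (B := fun y => g (τ y)) (p := fun y => fderiv ℝ τ y a)
    (q := fun y => fderiv ℝ τ y b) (x := x) (hg1.comp x hτ1)
    (hf1.clm_apply (differentiableAt_const a)) (hf1.clm_apply (differentiableAt_const b)) c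
  have e1 : fderiv ℝ (fun y => g (τ y)) x = (fderiv ℝ g (τ x)).comp (fderiv ℝ τ x) :=
    fderiv_comp x hg1 hτ1
  have e2 : ∀ d : F, fderiv ℝ (fun y => fderiv ℝ τ y d) x c = fderiv ℝ (fderiv ℝ τ) x c d := by
    intro d
    rw [fderiv_clm_apply hf1 (differentiableAt_const d)]
    simp
  rw [e1, e2, e2] at h
  exact h


lemma fderiv_add3 {f1 f2 f3 : F → ℝ} {x : F} (h1 : DifferentiableAt ℝ f1 x)
    (h2 : DifferentiableAt ℝ f2 x) (h3 : DifferentiableAt ℝ f3 x) (d : F) :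
    fderiv ℝ (fun y => f1 y + f2 y + f3 y) x d =
      fderiv ℝ f1 x d + fderiv ℝ f2 x d + fderiv ℝ f3 x d := by
  have h : HasFDerivAt (fun y => f1 y + f2 y + f3 y) (fderiv ℝ f1 x + fderiv ℝ f2 x + fderiv ℝ f3 x) x :=
    (h1.hasFDerivAt.add h2.hasFDerivAt).add h3.hasFDerivAt
  rw [h.fderiv]
  rfl

lemma fderiv2_pull {τ : F → E} {g : E → E →L[ℝ] E →L[ℝ] ℝ} {x : F}
    (hg : ContDiffAt ℝ 2 g (τ x)) (hτ : ContDiffAt ℝ 3 τ x) (d c a b : F) :
    fderiv ℝ (fderiv ℝ (pull g τ)) x d c a b =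
      (fderiv ℝ (fderiv ℝ g) (τ x) (fderiv ℝ τ x d) (fderiv ℝ τ x c) (fderiv ℝ τ x a)
          (fderiv ℝ τ x b) +
        fderiv ℝ g (τ x) (fderiv ℝ (fderiv ℝ τ) x d c) (fderiv ℝ τ x a) (fderiv ℝ τ x b) +
        fderiv ℝ g (τ x) (fderiv ℝ τ x c) (fderiv ℝ (fderiv ℝ τ) x d a) (fderiv ℝ τ x b) +
        fderiv ℝ g (τ x) (fderiv ℝ τ x c) (fderiv ℝ τ x a) (fderiv ℝ (fderiv ℝ τ) x d b)) +
      (fderiv ℝ g (τ x) (fderiv ℝ τ x d) (fderiv ℝ (fderiv ℝ τ) x c a) (fderiv ℝ τ x b) +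
        g (τ x) (fderiv ℝ (fderiv ℝ (fderiv ℝ τ)) x d c a) (fderiv ℝ τ x b) +
        g (τ x) (fderiv ℝ (fderiv ℝ τ) x c a) (fderiv ℝ (fderiv ℝ τ) x d b)) +
      (fderiv ℝ g (τ x) (fderiv ℝ τ x d) (fderiv ℝ τ x a) (fderiv ℝ (fderiv ℝ τ) x c b) +
        g (τ x) (fderiv ℝ (fderiv ℝ τ) x d a) (fderiv ℝ (fderiv ℝ τ) x c b) +
        g (τ x) (fderiv ℝ τ x a) (fderiv ℝ (fderiv ℝ (fderiv ℝ τ)) x d c b)) := by
  have hτd : DifferentiableAt ℝ τ x := hτ.differentiableAt (by norm_num)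
  have hgd : DifferentiableAt ℝ g (τ x) := hg.differentiableAt (by norm_num)
  have hg' : ContDiffAt ℝ 1 (fderiv ℝ g) (τ x) := hg.fderiv_right (by norm_num)
  have hg'd : DifferentiableAt ℝ (fderiv ℝ g) (τ x) := hg'.differentiableAt (by norm_num)
  have hτ' : ContDiffAt ℝ 2 (fderiv ℝ τ) x := hτ.fderiv_right (by norm_num)
  have hτ'd : DifferentiableAt ℝ (fderiv ℝ τ) x := hτ'.differentiableAt (by norm_num)
  have hτ'' : ContDiffAt ℝ 1 (fderiv ℝ (fderiv ℝ τ)) x := hτ'.fderiv_right (by norm_num)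
  have hτ''d : DifferentiableAt ℝ (fderiv ℝ (fderiv ℝ τ)) x :=
    hτ''.differentiableAt (by norm_num)
  have hpb : ContDiffAt ℝ 2 (pull g τ) x := contDiffAt_pull hg hτ (by norm_num)
  have hpb' : ContDiffAt ℝ 1 (fderiv ℝ (pull g τ)) x := hpb.fderiv_right (by norm_num)
  have hpb'd : DifferentiableAt ℝ (fderiv ℝ (pull g τ)) x := hpb'.differentiableAt (by norm_num)
  -- reduce to a scalar function
  have h0 : fderiv ℝ (fderiv ℝ (pull g τ)) x d c a b =
      fderiv ℝ (fun y => fderiv ℝ (pull g τ) y c a b) x d := by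
    have h1 : fderiv ℝ (fun y => fderiv ℝ (pull g τ) y c) x d =
        fderiv ℝ (fderiv ℝ (pull g τ)) x d c := by
      rw [fderiv_clm_apply hpb'd (differentiableAt_const c)]
      simp
    rw [← h1, fderiv_eval₂ (hpb'd.clm_apply (differentiableAt_const c))]
  have hev : (fun y => fderiv ℝ (pull g τ) y c a b) =ᶠ[𝓝 x] fun y =>
      fderiv ℝ g (τ y) (fderiv ℝ τ y c) (fderiv ℝ τ y a) (fderiv ℝ τ y b) +
      g (τ y) (fderiv ℝ (fderiv ℝ τ) y c a) (fderiv ℝ τ y b) +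
      g (τ y) (fderiv ℝ τ y a) (fderiv ℝ (fderiv ℝ τ) y c b) := by
    have e1 : ∀ᶠ y in 𝓝 x, ContDiffAt ℝ 3 τ y := hτ.eventually (by decide)
    have e2 : ∀ᶠ y in 𝓝 x, ContDiffAt ℝ 2 g (τ y) :=
      hτ.continuousAt.eventually (hg.eventually (by decide))
    filter_upwards [e1, e2] with y hy1 hy2
    exact fderiv_pull (hy2.of_le (by norm_num)) (hy1.of_le (by norm_num)) c a b
  rw [h0, hev.fderiv_eq]
  -- derivatives of the pieces
  have hτv : ∀ e : F, DifferentiableAt ℝ (fun y => fderiv ℝ τ y e) x := fun e =>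
    hτ'd.clm_apply (differentiableAt_const e)
  have dτv : ∀ e : F, fderiv ℝ (fun y => fderiv ℝ τ y e) x d = fderiv ℝ (fderiv ℝ τ) x d e := by
    intro e
    rw [fderiv_clm_apply hτ'd (differentiableAt_const e)]
    simp
  have hτvv : ∀ e f : F, DifferentiableAt ℝ (fun y => fderiv ℝ (fderiv ℝ τ) y e f) x :=
    fun e f => (hτ''d.clm_apply (differentiableAt_const e)).clm_apply (differentiableAt_const f)
  have dτvv : ∀ e f : F, fderiv ℝ (fun y => fderiv ℝ (fderiv ℝ τ) y e f) x d =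
      fderiv ℝ (fderiv ℝ (fderiv ℝ τ)) x d e f := by
    intro e f
    rw [fderiv_clm_apply (hτ''d.clm_apply (differentiableAt_const e)) (differentiableAt_const f),
      fderiv_clm_apply hτ''d (differentiableAt_const e)]
    simp
  have hG : DifferentiableAt ℝ (fun y => g (τ y)) x := hgd.comp x hτd
  have dG : fderiv ℝ (fun y => g (τ y)) x = (fderiv ℝ g (τ x)).comp (fderiv ℝ τ x) :=
    fderiv_comp x hgd hτd
  have hG' : DifferentiableAt ℝ (fun y => fderiv ℝ g (τ y)) x := hg'd.comp x hτd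
  have dG' : fderiv ℝ (fun y => fderiv ℝ g (τ y)) x =
      (fderiv ℝ (fderiv ℝ g) (τ x)).comp (fderiv ℝ τ x) := fderiv_comp x hg'd hτd
  have hGc : DifferentiableAt ℝ (fun y => fderiv ℝ g (τ y) (fderiv ℝ τ y c)) x :=
    hG'.clm_apply (hτv c)
  have dGc : fderiv ℝ (fun y => fderiv ℝ g (τ y) (fderiv ℝ τ y c)) x d =
      fderiv ℝ (fderiv ℝ g) (τ x) (fderiv ℝ τ x d) (fderiv ℝ τ x c) +
      fderiv ℝ g (τ x) (fderiv ℝ (fderiv ℝ τ) x d c) := by
    rw [fderiv_clm_apply hG' (hτv c)]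
    simp only [_root_.add_apply, ContinuousLinearMap.comp_apply,
      ContinuousLinearMap.flip_apply, dG', dτv]
    rw [add_comm]
  have t1 := fderiv_bil hGc (hτv a) (hτv b) d
  have t2 := fderiv_bil hG (hτvv c a) (hτv b) d
  have t3 := fderiv_bil hG (hτv a) (hτvv c b) d
  rw [dGc, dτv, dτv] at t1
  rw [dG, dτvv, dτv] at t2
  rw [dG, dτvv, dτv] at t3
  have D1 : DifferentiableAt ℝ (fun y => fderiv ℝ g (τ y) (fderiv ℝ τ y c) (fderiv ℝ τ y a)
      (fderiv ℝ τ y b)) x := (hGc.clm_apply (hτv a)).clm_apply (hτv b)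
  have D2 : DifferentiableAt ℝ (fun y => g (τ y) (fderiv ℝ (fderiv ℝ τ) y c a)
      (fderiv ℝ τ y b)) x := (hG.clm_apply (hτvv c a)).clm_apply (hτv b)
  have D3 : DifferentiableAt ℝ (fun y => g (τ y) (fderiv ℝ τ y a)
      (fderiv ℝ (fderiv ℝ τ) y c b)) x := (hG.clm_apply (hτv a)).clm_apply (hτvv c b)
  have s := fderiv_add3 D1 D2 D3 d
  rw [s, t1, t2, t3]
  simp only [_root_.add_apply, ContinuousLinearMap.comp_apply]


lemma fderiv_symm_eval {g : E → E →L[ℝ] E →L[ℝ] ℝ} {x : E} (hg : DifferentiableAt ℝ g x)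
    (hsymm : ∀ᶠ y in 𝓝 x, ∀ a b, g y a b = g y b a) (c a b : E) :
    fderiv ℝ g x c a b = fderiv ℝ g x c b a := by
  rw [fderiv_eval₂ hg, fderiv_eval₂ hg]
  have h : (fun y => g y a b) =ᶠ[𝓝 x] fun y => g y b a := by
    filter_upwards [hsymm] with y hy using hy a b
  rw [h.fderiv_eq]

lemma fderiv2_symm {τ : F → E} {x : F} (hτ : ContDiffAt ℝ 2 τ x) (a b : F) :
    fderiv ℝ (fderiv ℝ τ) x a b = fderiv ℝ (fderiv ℝ τ) x b a :=
  (hτ.isSymmSndFDerivAt (by simp)) a b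

lemma fderiv3_symm {τ : F → E} {x : F} (hτ : ContDiffAt ℝ 3 τ x) (d a b : F) :
    fderiv ℝ (fderiv ℝ (fderiv ℝ τ)) x d a b = fderiv ℝ (fderiv ℝ (fderiv ℝ τ)) x d b a := by
  have hτ' : ContDiffAt ℝ 2 (fderiv ℝ τ) x := hτ.fderiv_right (by norm_num)
  have hτ'' : ContDiffAt ℝ 1 (fderiv ℝ (fderiv ℝ τ)) x := hτ'.fderiv_right (by norm_num)
  have hd : DifferentiableAt ℝ (fderiv ℝ (fderiv ℝ τ)) x := hτ''.differentiableAt (by norm_num)
  have key : ∀ e f : F, fderiv ℝ (fun y => fderiv ℝ (fderiv ℝ τ) y e f) x d =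
      fderiv ℝ (fderiv ℝ (fderiv ℝ τ)) x d e f := by
    intro e f
    rw [fderiv_clm_apply (hd.clm_apply (differentiableAt_const e)) (differentiableAt_const f),
      fderiv_clm_apply hd (differentiableAt_const e)]
    simp
  rw [← key, ← key]
  have h : (fun y => fderiv ℝ (fderiv ℝ τ) y a b) =ᶠ[𝓝 x]
      fun y => fderiv ℝ (fderiv ℝ τ) y b a := by
    have e1 : ∀ᶠ y in 𝓝 x, ContDiffAt ℝ 3 τ y := hτ.eventually (by decide)
    filter_upwards [e1] with y hy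
    exact fderiv2_symm (hy.of_le (by norm_num)) a b
  rw [h.fderiv_eq]

lemma kos_pull {τ : F → E} {g : E → E →L[ℝ] E →L[ℝ] ℝ} {x : F}
    (hg : ContDiffAt ℝ 1 g (τ x)) (hτ : ContDiffAt ℝ 2 τ x)
    (hsymm : ∀ a b, g (τ x) a b = g (τ x) b a) (u v z : F) :
    kos (pull g τ) x u v z = kos g (τ x) (fderiv ℝ τ x u) (fderiv ℝ τ x v) (fderiv ℝ τ x z) +
      g (τ x) (fderiv ℝ (fderiv ℝ τ) x u v) (fderiv ℝ τ x z) := by
  unfold kos
  rw [fderiv_pull hg hτ, fderiv_pull hg hτ, fderiv_pull hg hτ, fderiv2_symm hτ v u,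
    fderiv2_symm hτ z u, fderiv2_symm hτ z v,
    hsymm (fderiv ℝ τ x v) (fderiv ℝ (fderiv ℝ τ) x u z)]
  ring

/-- The curvature is a tensor: transformation law under `τ`. -/
theorem isCurv_pull {τ : F → E} {g : E → E →L[ℝ] E →L[ℝ] ℝ} {x : F}
    (hg : ContDiffAt ℝ 2 g (τ x)) (hτ : ContDiffAt ℝ 3 τ x)
    (hsymm : ∀ᶠ y in 𝓝 (τ x), ∀ a b, g y a b = g y b a)
    (hsurj : Function.Surjective (fderiv ℝ τ x)) {u v : F} {k : ℝ}
    (h : IsCurv g (τ x) (fderiv ℝ τ x u) (fderiv ℝ τ x v) k) : IsCurv (pull g τ) x u v k := by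
  have hg1 : ContDiffAt ℝ 1 g (τ x) := hg.of_le (by norm_num)
  have hgd : DifferentiableAt ℝ g (τ x) := hg.differentiableAt (by norm_num)
  have hτ2 : ContDiffAt ℝ 2 τ x := hτ.of_le (by norm_num)
  have hτ' : ContDiffAt ℝ 2 (fderiv ℝ τ) x := hτ.fderiv_right (by norm_num)
  have hs : ∀ a b, g (τ x) a b = g (τ x) b a := hsymm.self_of_nhds
  have hds : ∀ c a b, fderiv ℝ g (τ x) c a b = fderiv ℝ g (τ x) c b a := fun c a b =>
    fderiv_symm_eval hgd hsymm c a b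
  obtain ⟨a, b, c, ha, hb, hc, hk⟩ := h
  obtain ⟨a', ha'⟩ := hsurj (a + fderiv ℝ (fderiv ℝ τ) x u v)
  obtain ⟨b', hb'⟩ := hsurj (b + fderiv ℝ (fderiv ℝ τ) x u u)
  obtain ⟨c', hc'⟩ := hsurj (c + fderiv ℝ (fderiv ℝ τ) x v v)
  refine ⟨a', b', c', ?_, ?_, ?_, ?_⟩
  · intro z
    rw [kos_pull hg1 hτ2 hs, pull_apply, ha', map_add, _root_.add_apply, ha]
  · intro z
    rw [kos_pull hg1 hτ2 hs, pull_apply, hb', map_add, _root_.add_apply, hb]
  · intro z
    rw [kos_pull hg1 hτ2 hs, pull_apply, hc', map_add, _root_.add_apply, hc]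
  · have A1 := ha (fderiv ℝ (fderiv ℝ τ) x u v)
    have B1 := hb (fderiv ℝ (fderiv ℝ τ) x v v)
    have C1 := hc (fderiv ℝ (fderiv ℝ τ) x u u)
    have C2 := hs c (fderiv ℝ (fderiv ℝ τ) x u u)
    have A2 := hs a (fderiv ℝ (fderiv ℝ τ) x u v)
    unfold kos at A1 B1 C1
    rw [hk, pull_apply, pull_apply, ha', hb', hc']
    unfold sec2
    rw [fderiv2_pull hg hτ, fderiv2_pull hg hτ, fderiv2_pull hg hτ]
    simp only [map_add, _root_.add_apply]
    rw [fderiv2_symm hτ2 v u, fderiv3_symm hτ u v u, fderiv3_symm hτ v v u,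
      fderiv2_symm hτ' u v]
    have S1 := hs (fderiv ℝ τ x v) (fderiv ℝ (fderiv ℝ (fderiv ℝ τ)) x u u v)
    have S2 := hs (fderiv ℝ τ x u) (fderiv ℝ (fderiv ℝ (fderiv ℝ τ)) x v u v)
    have S3 := hds (fderiv ℝ τ x u) (fderiv ℝ τ x v) (fderiv ℝ (fderiv ℝ τ) x u v)
    have S4 := hds (fderiv ℝ τ x v) (fderiv ℝ τ x u) (fderiv ℝ (fderiv ℝ τ) x u v)
    have S5 := hds (fderiv ℝ τ x v) (fderiv ℝ τ x v) (fderiv ℝ (fderiv ℝ τ) x u u)
    linarith


/-! ### Comparison with the definitions of `Pool.Agent.HS.Defs` -/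

theorem D1_eq {G : E → E →L[ℝ] E →L[ℝ] ℝ} {p : E} (hG : DifferentiableAt ℝ G p) (x u v : E) :
    D1 G p x u v = fderiv ℝ G p x u v :=
  (fderiv_eval₂ hG u v x).symm

theorem D2_eq {G : E → E →L[ℝ] E →L[ℝ] ℝ} {p : E} (hG : ContDiffAt ℝ 2 G p) (x y u v : E) :
    D2 G p x y u v = fderiv ℝ (fderiv ℝ G) p x y u v := by
  have hG' : ContDiffAt ℝ 1 (fderiv ℝ G) p := hG.fderiv_right (by norm_num)
  have hd : DifferentiableAt ℝ (fderiv ℝ G) p := hG'.differentiableAt (by norm_num)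
  have h : (fun q => fderiv ℝ (fun r => G r u v) q y) =ᶠ[𝓝 p] fun q => fderiv ℝ G q y u v := by
    have e1 : ∀ᶠ q in 𝓝 p, ContDiffAt ℝ 2 G q := hG.eventually (by decide)
    filter_upwards [e1] with q hq
    exact (fderiv_eval₂ (hq.differentiableAt (by norm_num)) u v y).symm
  unfold D2
  rw [h.fderiv_eq, ← fderiv_eval₂ (hd.clm_apply (differentiableAt_const y)),
    fderiv_clm_apply hd (differentiableAt_const y)]
  simp

theorem Gam_eq {G : E → E →L[ℝ] E →L[ℝ] ℝ} {p : E} (hG : DifferentiableAt ℝ G p) (x y z : E) :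
    Gam G p x y z = kos G p x y z := by
  have h : ∀ a b : E, fderiv ℝ (fun q => G q a) p b = fderiv ℝ G p b a := by
    intro a b
    rw [fderiv_clm_apply hG (differentiableAt_const a)]
    simp
  have h2 : fderiv ℝ (fun q => G q x y) p z = fderiv ℝ G p z x y := (fderiv_eval₂ hG x y z).symm
  unfold Gam kos
  rw [h, h]
  simp only [_root_.smul_apply, _root_.add_apply, _root_.sub_apply, smul_eq_mul, h2]
  ring

lemma sharp_of_isInvertible {g : E →L[ℝ] E →L[ℝ] ℝ} (h : g.IsInvertible) (α : E →L[ℝ] ℝ) :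
    g (sharp g α) = α :=
  h.self_apply_inverse α

theorem isCurv_Rm {G : E → E →L[ℝ] E →L[ℝ] ℝ} {p : E} (hG : ContDiffAt ℝ 2 G p)
    (hinv : (G p).IsInvertible) (x y : E) : IsCurv G p x y (Rm G p x y) := by
  have hd : DifferentiableAt ℝ G p := hG.differentiableAt (by norm_num)
  have hs : ∀ u v z : E, G p (sharp (G p) (Gam G p u v)) z = Gam G p u v z := by
    intro u v z
    rw [sharp_of_isInvertible hinv]
  refine ⟨sharp (G p) (Gam G p x y), sharp (G p) (Gam G p x x), sharp (G p) (Gam G p y y),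
    fun z => ?_, fun z => ?_, fun z => ?_, ?_⟩
  · rw [hs, Gam_eq hd]
  · rw [hs, Gam_eq hd]
  · rw [hs, Gam_eq hd]
  · rw [hs, hs]
    unfold Rm sec2 cov
    rw [D2_eq hG, D2_eq hG, D2_eq hG]
    ring

lemma IsCurv.unique {G : E → E →L[ℝ] E →L[ℝ] ℝ} {p x y : E} {k k' : ℝ}
    (hinj : Function.Injective (G p)) (h : IsCurv G p x y k) (h' : IsCurv G p x y k') :
    k = k' := by
  obtain ⟨a, b, c, ha, hb, hc, hk⟩ := h
  obtain ⟨a', b', c', ha', hb', hc', hk'⟩ := h'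
  have e1 : a = a' := hinj (ContinuousLinearMap.ext fun z => by rw [ha, ha'])
  have e2 : b = b' := hinj (ContinuousLinearMap.ext fun z => by rw [hb, hb'])
  have e3 : c = c' := hinj (ContinuousLinearMap.ext fun z => by rw [hc, hc'])
  subst e1 e2 e3
  rw [hk, hk']

/-- The value of the coordinate curvature form can be computed from any solution of the
equations for the Christoffel vectors. -/
theorem Rm_eq_of_isCurv {G : E → E →L[ℝ] E →L[ℝ] ℝ} {p x y : E} {k : ℝ}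
    (hG : ContDiffAt ℝ 2 G p) (hinv : (G p).IsInvertible) (h : IsCurv G p x y k) :
    Rm G p x y = k :=
  IsCurv.unique hinv.injective (isCurv_Rm hG hinv x y) h

/-- The pull-back of a nondegenerate form by an invertible map is nondegenerate. -/
lemma isInvertible_bilinearComp {g : F →L[ℝ] F →L[ℝ] ℝ} (hg : g.IsInvertible) (e : E ≃L[ℝ] F) :
    (g.bilinearComp (e : E →L[ℝ] F) (e : E →L[ℝ] F)).IsInvertible := by
  obtain ⟨M, hM⟩ := hg
  refine ⟨(e.trans M).trans (e.symm.arrowCongr (ContinuousLinearEquiv.refl ℝ ℝ)), ?_⟩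
  ext x y
  rw [← hM]
  simp [ContinuousLinearMap.bilinearComp_apply]

/-- The curvature form of a metric in coordinates is a tensor: transformation law under a local
diffeomorphism. -/
theorem Rm_pull {G : F → F →L[ℝ] F →L[ℝ] ℝ} {f : E → F} {p : E} (hG : ContDiffAt ℝ 2 G (f p))
    (hf : ContDiffAt ℝ 3 f p) (hsymm : ∀ᶠ q in 𝓝 (f p), ∀ a b, G q a b = G q b a)
    (hinv : (G (f p)).IsInvertible) (hf' : (fderiv ℝ f p).IsInvertible) (x y : E) :
    Rm (pull G f) p x y = Rm G (f p) (fderiv ℝ f p x) (fderiv ℝ f p y) := by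
  have h1 := isCurv_Rm hG hinv (fderiv ℝ f p x) (fderiv ℝ f p y)
  have h2 := isCurv_pull hG hf hsymm hf'.surjective h1
  have h3 : ContDiffAt ℝ 2 (pull G f) p := contDiffAt_pull hG hf (by norm_num)
  obtain ⟨e, he⟩ := hf'
  have h4 : (pull G f p).IsInvertible := by
    have := isInvertible_bilinearComp hinv e
    rw [he] at this
    exact this
  exact Rm_eq_of_isCurv h3 h4 h2


lemma linearIndependent_pair_map {L : E →L[ℝ] F} (hL : Function.Injective L) {x y : E}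
    (h : LinearIndependent ℝ ![x, y]) : LinearIndependent ℝ ![L x, L y] := by
  have h1 := h.map' (L : E →ₗ[ℝ] F) (LinearMap.ker_eq_bot.2 hL)
  have h2 : (L : E →ₗ[ℝ] F) ∘ ![x, y] = ![L x, L y] := by
    funext i
    fin_cases i <;> rfl
  rwa [h2] at h1

/-- Positivity of the sectional curvatures passes to the pull-back. -/
theorem PosAt_pull {G : F → F →L[ℝ] F →L[ℝ] ℝ} {f : E → F} {p : E} (hG : ContDiffAt ℝ 2 G (f p))
    (hf : ContDiffAt ℝ 3 f p) (hsymm : ∀ᶠ q in 𝓝 (f p), ∀ a b, G q a b = G q b a)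
    (hinv : (G (f p)).IsInvertible) (hf' : (fderiv ℝ f p).IsInvertible) (h : PosAt G (f p)) :
    PosAt (pull G f) p := by
  intro x y hxy
  rw [Rm_pull hG hf hsymm hinv hf']
  exact h _ _ (linearIndependent_pair_map hf'.injective hxy)

/-- Nonnegativity of the sectional curvatures passes to the pull-back. -/
theorem NonnegAt_pull {G : F → F →L[ℝ] F →L[ℝ] ℝ} {f : E → F} {p : E}
    (hG : ContDiffAt ℝ 2 G (f p)) (hf : ContDiffAt ℝ 3 f p)
    (hsymm : ∀ᶠ q in 𝓝 (f p), ∀ a b, G q a b = G q b a)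
    (hinv : (G (f p)).IsInvertible) (hf' : (fderiv ℝ f p).IsInvertible) (h : NonnegAt G (f p)) :
    NonnegAt (pull G f) p := by
  intro x y
  rw [Rm_pull hG hf hsymm hinv hf']
  exact h _ _

/-- On a finite-dimensional space an inner product is nondegenerate. -/
theorem IsInner.isInvertible [FiniteDimensional ℝ E] {g : E →L[ℝ] E →L[ℝ] ℝ} (h : IsInner g) :
    g.IsInvertible := by
  have hinj : Function.Injective (g : E →ₗ[ℝ] E →L[ℝ] ℝ) := by
    rw [← LinearMap.ker_eq_bot, LinearMap.ker_eq_bot']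
    intro x hx
    by_contra hne
    have h1 := h.pos x hne
    have h2 : g x x = 0 := by
      have : g x = 0 := hx
      rw [this]
      rfl
    linarith
  have hfr : Module.finrank ℝ E = Module.finrank ℝ (E →L[ℝ] ℝ) := by
    have e : (E →L[ℝ] ℝ) ≃ₗ[ℝ] (E →ₗ[ℝ] ℝ) := LinearMap.toContinuousLinearMap.symm
    rw [e.finrank_eq]
    exact (Subspace.dual_finrank_eq (K := ℝ) (V := E)).symm
  let e : E ≃ₗ[ℝ] (E →L[ℝ] ℝ) := LinearEquiv.ofInjectiveOfFinrankEq _ hinj hfr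
  refine ⟨e.toContinuousLinearEquiv, ?_⟩
  ext x y
  rfl


end

end Pool.Agent.HS
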