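import Pool.Agent.HS.Loc
import Pool.Agent.HS.Pull
import Pool.Agent.HS.M3Glue

/-!
# Block COORD, skeleton: combination of the local blocks

The blocks M2, REG, LOCE, PULLE, POLAR, LINK enter as hypotheses (`...Stmt`).
-/

set_option maxSynthPendingDepth 3

namespace Pool.Agent.HS

open Matrix Topology Filter Set

/-! ### statements of the blocks -/

/-- block M2 -/
def M2Stmt : Prop :=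
  ∀ (h : V2 → V2 →L[ℝ] V2 →L[ℝ] ℝ) (A : V2 → V2 →L[ℝ] V3) (κ : V2 → M33) (D : PD) (r : ℝ)
    (S : M33), Adapted h A κ D → 0 < r →
    (∀ u : V3, u ≠ 0 → 0 < bf (1 - (r ^ 2 / 3) • D.κ) u u) →
    (1 - (r ^ 2 / 3) • D.κ) * S = 1 →
    ∀ (x : V2) (ξ : V3) (y : V2) (η : V3),
      Rm (GP h A (qk r κ)) (0, 0) (x, ξ) (y, η) = RP r D S x ξ y η

/-- symmetric positive operators -/
structure IsPosOp (q : V3 →L[ℝ] V3) : Prop where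
  symm : ∀ u v, u ⬝ᵥ q v = v ⬝ᵥ q u
  pos : ∀ u, u ≠ 0 → 0 < u ⬝ᵥ q u

/-- smooth data near `0` -/
structure GoodData (h : V2 → V2 →L[ℝ] V2 →L[ℝ] ℝ) (A : V2 → V2 →L[ℝ] V3)
    (q : V2 → V3 →L[ℝ] V3) : Prop where
  h_smooth : ∀ᶠ u in 𝓝 (0 : V2), ContDiffAt ℝ (⊤ : ℕ∞) h u
  A_smooth : ∀ᶠ u in 𝓝 (0 : V2), ContDiffAt ℝ (⊤ : ℕ∞) A u
  q_smooth : ∀ᶠ u in 𝓝 (0 : V2), ContDiffAt ℝ (⊤ : ℕ∞) q u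
  h_inner : ∀ᶠ u in 𝓝 (0 : V2), IsInner (h u)
  q_pos : ∀ᶠ u in 𝓝 (0 : V2), IsPosOp (q u)

/-- block REG for `GP` -/
def RegGPStmt : Prop :=
  ∀ (h : V2 → V2 →L[ℝ] V2 →L[ℝ] ℝ) (A : V2 → V2 →L[ℝ] V3) (q : V2 → V3 →L[ℝ] V3),
    GoodData h A q → ContDiffAt ℝ 2 (GP h A q) (0, 0) ∧ SymmNear (GP h A q) (0, 0) ∧
      IsInner (GP h A q (0, 0))

/-- block LOCE (first part) -/
def LoceStmt : Prop :=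
  ∀ (h : V2 → V2 →L[ℝ] V2 →L[ℝ] ℝ) (A : V2 → V2 →L[ℝ] V3) (q : V2 → V3 →L[ℝ] V3),
    GoodData h A q → PosAt (GP h A q) (0, 0) → ∀ w : V3, NonnegAt (GE h A q) (0, w)

/-- block POLAR -/
def PolarStmt : Prop :=
  ∀ (h : V2 → V2 →L[ℝ] V2 →L[ℝ] ℝ) (A : V2 → V2 →L[ℝ] V3) (q : V2 → V3 →L[ℝ] V3),
    GoodData h A q → PosAt (GP h A q) (0, 0) →
    ∀ ζ : V2 → V3, (∀ᶠ v in 𝓝 (0 : V2), ContDiffAt ℝ (⊤ : ℕ∞) ζ v) →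
      (∀ᶠ v in 𝓝 (0 : V2), ζ v ⬝ᵥ ζ v = 1) → Function.Injective (fderiv ℝ ζ 0) →
      ∀ t : ℝ, 0 < t → PosAt (pull (GE h A q) (fun p : V2 × V2 => (p.1, t • ζ p.2))) (0, 0)

/-- block PULLE, near a point -/
def PulleStmt : Prop :=
  ∀ (h : V3 → V3 →L[ℝ] V3 →L[ℝ] ℝ) (A : V3 → V3 →L[ℝ] V3) (q : V3 → V3 →L[ℝ] V3)
    (Y : V2 → V3) (b : V2 → V3) (p : V2 × V3),
    DifferentiableAt ℝ Y p.1 → DifferentiableAt ℝ b p.1 → IsPosOp (q (Y p.1)) →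
    pull (GE h A q) (fun p => (Y p.1, cayR (b p.1) p.2)) p = GE (pull h Y) (gA A Y b) (gq q Y b) p

/-- what LINK provides at one point of the sphere -/
structure LinkAt (hB' : V3 → V3 →L[ℝ] V3 →L[ℝ] ℝ) (cA' : V3 → V3 →L[ℝ] V3) (kM : V3 → M33)
    (𝒦 : Set PD) (y0 : V3) (Y b : V2 → V3) (κ : V2 → M33) (D : PD) : Prop where
  Y_smooth : ∀ᶠ u in 𝓝 (0 : V2), ContDiffAt ℝ (⊤ : ℕ∞) Y u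
  b_smooth : ∀ᶠ u in 𝓝 (0 : V2), ContDiffAt ℝ (⊤ : ℕ∞) b u
  Y_zero : Y 0 = y0
  Y_unit : ∀ᶠ u in 𝓝 (0 : V2), Y u ⬝ᵥ Y u = 1
  Y_inj : Function.Injective (fderiv ℝ Y 0)
  b_zero : b 0 = 0
  mem : D ∈ 𝒦
  adapted : Adapted (pull hB' Y) (gA cA' Y b) κ D
  kappa : ∀ r : ℝ, ∀ᶠ u in 𝓝 (0 : V2), qk r κ u = gq (qk r kM) Y b u

/-- block LINK (for one value of `d`) -/
def LinkStmt (hB' : V3 → V3 →L[ℝ] V3 →L[ℝ] ℝ) (cA' : V3 → V3 →L[ℝ] V3) (kM : V3 → M33) : Prop :=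
  ∃ 𝒦 : Set PD, IsCompact 𝒦 ∧ (∀ D ∈ 𝒦, GPos D) ∧
    ∀ y0 : V3, y0 ⬝ᵥ y0 = 1 → ∃ (Y b : V2 → V3) (κ : V2 → M33) (D : PD),
      LinkAt hB' cA' kM 𝒦 y0 Y b κ D

/-- The conclusion of COORD for the ambient metric `GE h A (qk r κ)`. -/
structure CoordMain (Gh : V3 × V3 → V3 × V3 →L[ℝ] V3 × V3 →L[ℝ] ℝ) : Prop where
  nonneg : ∀ y0 w0 : V3, y0 ⬝ᵥ y0 = 1 → ∃ φ : V2 × V3 → V3 × V3,
    (∀ᶠ p in 𝓝 ((0 : V2), w0), ContDiffAt ℝ (⊤ : ℕ∞) φ p) ∧ φ (0, w0) = (y0, w0) ∧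
    (∀ᶠ p in 𝓝 ((0 : V2), w0), (φ p).1 ⬝ᵥ (φ p).1 = 1) ∧
    Function.Injective (fderiv ℝ φ (0, w0)) ∧ NonnegAt (pull Gh φ) (0, w0)
  pos : ∀ y0 z0 : V3, y0 ⬝ᵥ y0 = 1 → z0 ⬝ᵥ z0 = 1 → ∀ t : ℝ, 0 < t →
    ∃ ψ : V2 × V2 → V3 × V3,
    (∀ᶠ p in 𝓝 ((0 : V2), (0 : V2)), ContDiffAt ℝ (⊤ : ℕ∞) ψ p) ∧ ψ (0, 0) = (y0, z0) ∧
    (∀ᶠ p in 𝓝 ((0 : V2), (0 : V2)), (ψ p).1 ⬝ᵥ (ψ p).1 = 1 ∧ (ψ p).2 ⬝ᵥ (ψ p).2 = 1) ∧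
    Function.Injective (fderiv ℝ ψ (0, 0)) ∧
    PosAt (pull Gh (fun p => ((ψ p).1, t • (ψ p).2))) (0, 0)

end Pool.Agent.HS
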