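import Pool.Agent.HS.Loc

/-!
# The fibre form `Sw q w` of the metric of `E = S² × R³` (project HS, MP_55c470_gt)

`q : V3 →L[ℝ] V3` is symmetric (`hqs`) and positive (`hqp`), `Sw q w = (1 + C q⁻¹ Cᵀ)⁻¹` with
`C U = U × w` (file `Loc`).  `c · Sw q w c` is the minimum over `U` of `U · q U + |c - U × w|²`,
attained at `U = Ust q w c = q⁻¹ (w × Sw q w c)` (`sq_Sw₂`, `Sw_min`, `Sw_min_le`).
-/

set_option maxSynthPendingDepth 3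

namespace Pool.Agent.HS

open Matrix Topology Filter

theorem dot_self_nonneg_sw (u : V3) : 0 ≤ u ⬝ᵥ u := by
  rw [dotProduct]
  exact Finset.sum_nonneg fun i _ => mul_self_nonneg _

theorem eq_zero_of_dot_self_sw {u : V3} (h : u ⬝ᵥ u = 0) : u = 0 := dotProduct_self_eq_zero.1 h

/-- Cauchy-Schwarz -/
theorem sq_dot_le_sw (u v : V3) : (u ⬝ᵥ v) ^ 2 ≤ (u ⬝ᵥ u) * (v ⬝ᵥ v) := by
  have h := cross_dot_cross u v u v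
  have h1 := dot_self_nonneg_sw (u ⨯₃ v)
  rw [h, dotProduct_comm v u] at h1
  nlinarith

/-- `x · (u × v) = u · (v × x)` -/
theorem triple_sw (x u v : V3) : x ⬝ᵥ (u ⨯₃ v) = u ⬝ᵥ (v ⨯₃ x) := triple_product_permutation x u v

/-- A positive operator is invertible. -/
theorem isInvertible_of_pos {T : V3 →L[ℝ] V3} (hT : ∀ x : V3, x ≠ 0 → 0 < x ⬝ᵥ T x) :
    T.IsInvertible := by
  have hinj : Function.Injective T.toLinearMap := by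
    rw [← LinearMap.ker_eq_bot, LinearMap.ker_eq_bot']
    intro u hu
    by_contra hne
    have h := hT u hne
    have hu' : T u = 0 := hu
    rw [hu', dotProduct_zero] at h
    exact lt_irrefl _ h
  refine ⟨(LinearEquiv.ofInjectiveEndo T.toLinearMap hinj).toContinuousLinearEquiv, ?_⟩
  ext x
  rfl

section

variable {q : V3 →L[ℝ] V3}

theorem q_inv (hqp : ∀ x : V3, x ≠ 0 → 0 < x ⬝ᵥ q x) (x : V3) :
    q (ContinuousLinearMap.inverse q x) = x :=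
  DFunLike.congr_fun (ContinuousLinearMap.IsInvertible.self_comp_inverse (isInvertible_of_pos hqp)) x

theorem inv_q (hqp : ∀ x : V3, x ≠ 0 → 0 < x ⬝ᵥ q x) (x : V3) :
    ContinuousLinearMap.inverse q (q x) = x :=
  DFunLike.congr_fun (ContinuousLinearMap.IsInvertible.inverse_comp_self (isInvertible_of_pos hqp)) x

theorem inv_symm (hqs : ∀ x y : V3, x ⬝ᵥ q y = q x ⬝ᵥ y) (hqp : ∀ x : V3, x ≠ 0 → 0 < x ⬝ᵥ q x)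
    (x y : V3) : x ⬝ᵥ ContinuousLinearMap.inverse q y = ContinuousLinearMap.inverse q x ⬝ᵥ y := by
  have h := hqs (ContinuousLinearMap.inverse q x) (ContinuousLinearMap.inverse q y)
  rw [q_inv hqp, q_inv hqp] at h
  exact h.symm

theorem inv_pos_sw (hqs : ∀ x y : V3, x ⬝ᵥ q y = q x ⬝ᵥ y)
    (hqp : ∀ x : V3, x ≠ 0 → 0 < x ⬝ᵥ q x) (x : V3) (hx : x ≠ 0) :
    0 < x ⬝ᵥ ContinuousLinearMap.inverse q x := by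
  have h0 : ContinuousLinearMap.inverse q x ≠ 0 := by
    intro h
    apply hx
    have h1 := q_inv hqp x
    rw [h, map_zero] at h1
    exact h1.symm
  have h := hqp _ h0
  rw [hqs, q_inv hqp] at h
  exact h

theorem q_nonneg_sw (hqp : ∀ x : V3, x ≠ 0 → 0 < x ⬝ᵥ q x) (x : V3) : 0 ≤ x ⬝ᵥ q x := by
  rcases eq_or_ne x 0 with rfl | hx
  · rw [zero_dotProduct]
  · exact (hqp x hx).le

theorem inv_nonneg_sw (hqs : ∀ x y : V3, x ⬝ᵥ q y = q x ⬝ᵥ y)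
    (hqp : ∀ x : V3, x ≠ 0 → 0 < x ⬝ᵥ q x) (x : V3) :
    0 ≤ x ⬝ᵥ ContinuousLinearMap.inverse q x := by
  rcases eq_or_ne x 0 with rfl | hx
  · rw [zero_dotProduct]
  · exact (inv_pos_sw hqs hqp x hx).le

/-- `M = 1 + C q⁻¹ Cᵀ`, the inverse of `Sw q w`. -/
noncomputable def Mw (q : V3 →L[ℝ] V3) (w : V3) : V3 →L[ℝ] V3 :=
  ContinuousLinearMap.id ℝ V3 + (Cw w).comp ((ContinuousLinearMap.inverse q).comp (crossL w))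

theorem Sw_def (q : V3 →L[ℝ] V3) (w : V3) : Sw q w = ContinuousLinearMap.inverse (Mw q w) := rfl

theorem Mw_apply (q : V3 →L[ℝ] V3) (w c : V3) :
    Mw q w c = c + (ContinuousLinearMap.inverse q (w ⨯₃ c)) ⨯₃ w := rfl

theorem dot_Mw (q : V3 →L[ℝ] V3) (w c d : V3) :
    d ⬝ᵥ Mw q w c = d ⬝ᵥ c + (w ⨯₃ d) ⬝ᵥ ContinuousLinearMap.inverse q (w ⨯₃ c) := by
  rw [Mw_apply, dotProduct_add, triple_sw, dotProduct_comm (w ⨯₃ d)]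

theorem Mw_pos (hqs : ∀ x y : V3, x ⬝ᵥ q y = q x ⬝ᵥ y) (hqp : ∀ x : V3, x ≠ 0 → 0 < x ⬝ᵥ q x)
    (w c : V3) (hc : c ≠ 0) : 0 < c ⬝ᵥ Mw q w c := by
  rw [dot_Mw]
  have h1 := inv_nonneg_sw hqs hqp (w ⨯₃ c)
  have h2 : 0 < c ⬝ᵥ c :=
    lt_of_le_of_ne (dot_self_nonneg_sw c) fun h => hc (eq_zero_of_dot_self_sw h.symm)
  linarith

theorem Mw_symm (hqs : ∀ x y : V3, x ⬝ᵥ q y = q x ⬝ᵥ y) (hqp : ∀ x : V3, x ≠ 0 → 0 < x ⬝ᵥ q x)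
    (w c d : V3) : d ⬝ᵥ Mw q w c = Mw q w d ⬝ᵥ c := by
  rw [dotProduct_comm (Mw q w d), dot_Mw, dot_Mw, inv_symm hqs hqp, dotProduct_comm c d,
    dotProduct_comm (ContinuousLinearMap.inverse q (w ⨯₃ d))]

theorem Mw_Sw (hqs : ∀ x y : V3, x ⬝ᵥ q y = q x ⬝ᵥ y) (hqp : ∀ x : V3, x ≠ 0 → 0 < x ⬝ᵥ q x)
    (w c : V3) : Mw q w (Sw q w c) = c := q_inv (Mw_pos hqs hqp w) c

theorem Sw_Mw (hqs : ∀ x y : V3, x ⬝ᵥ q y = q x ⬝ᵥ y) (hqp : ∀ x : V3, x ≠ 0 → 0 < x ⬝ᵥ q x)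
    (w c : V3) : Sw q w (Mw q w c) = c := inv_q (Mw_pos hqs hqp w) c

/-- `S c + q⁻¹ (w × S c) × w = c`. -/
theorem Sw_eqn (hqs : ∀ x y : V3, x ⬝ᵥ q y = q x ⬝ᵥ y) (hqp : ∀ x : V3, x ≠ 0 → 0 < x ⬝ᵥ q x)
    (w c : V3) :
    Sw q w c + (ContinuousLinearMap.inverse q (w ⨯₃ Sw q w c)) ⨯₃ w = c :=
  Mw_Sw hqs hqp w c

/-- If `S' + q⁻¹ (w × S') × w = c` then `S' = Sw q w c`. -/
theorem Sw_unique (hqs : ∀ x y : V3, x ⬝ᵥ q y = q x ⬝ᵥ y) (hqp : ∀ x : V3, x ≠ 0 → 0 < x ⬝ᵥ q x)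
    {w c s : V3} (h : s + (ContinuousLinearMap.inverse q (w ⨯₃ s)) ⨯₃ w = c) : Sw q w c = s := by
  rw [← h]
  exact Sw_Mw hqs hqp w s

theorem Sw_symm (hqs : ∀ x y : V3, x ⬝ᵥ q y = q x ⬝ᵥ y) (hqp : ∀ x : V3, x ≠ 0 → 0 < x ⬝ᵥ q x)
    (w x y : V3) : x ⬝ᵥ Sw q w y = Sw q w x ⬝ᵥ y := by
  have h := Mw_symm hqs hqp w (Sw q w y) (Sw q w x)
  rw [Mw_Sw hqs hqp, Mw_Sw hqs hqp] at h
  exact h.symm

theorem Sw_ne_zero (hqs : ∀ x y : V3, x ⬝ᵥ q y = q x ⬝ᵥ y)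
    (hqp : ∀ x : V3, x ≠ 0 → 0 < x ⬝ᵥ q x) (w : V3) {c : V3} (hc : c ≠ 0) : Sw q w c ≠ 0 := by
  intro h
  apply hc
  rw [← Mw_Sw hqs hqp w c, h, map_zero]

/-- `S > 0`. -/
theorem Sw_pos (hqs : ∀ x y : V3, x ⬝ᵥ q y = q x ⬝ᵥ y) (hqp : ∀ x : V3, x ≠ 0 → 0 < x ⬝ᵥ q x)
    (w c : V3) (hc : c ≠ 0) : 0 < c ⬝ᵥ Sw q w c := by
  have h := Mw_pos hqs hqp w _ (Sw_ne_zero hqs hqp w hc)
  rw [Mw_Sw hqs hqp, dotProduct_comm] at h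
  exact h

theorem Sw_nonneg (hqs : ∀ x y : V3, x ⬝ᵥ q y = q x ⬝ᵥ y)
    (hqp : ∀ x : V3, x ≠ 0 → 0 < x ⬝ᵥ q x) (w c : V3) : 0 ≤ c ⬝ᵥ Sw q w c :=
  q_nonneg_sw (Sw_pos hqs hqp w) c

/-- `S_w w = w`. -/
theorem Sw_self (hqs : ∀ x y : V3, x ⬝ᵥ q y = q x ⬝ᵥ y) (hqp : ∀ x : V3, x ≠ 0 → 0 < x ⬝ᵥ q x)
    (w : V3) : Sw q w w = w := by
  refine Sw_unique hqs hqp ?_
  rw [cross_self, map_zero, map_zero, LinearMap.zero_apply, add_zero]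

theorem Sw_smul_self (hqs : ∀ x y : V3, x ⬝ᵥ q y = q x ⬝ᵥ y)
    (hqp : ∀ x : V3, x ≠ 0 → 0 < x ⬝ᵥ q x) (t : ℝ) (z : V3) : Sw q (t • z) z = z := by
  refine Sw_unique hqs hqp ?_
  have h : z ⨯₃ z = 0 := cross_self z
  have h1 : (t • z) ⨯₃ z = 0 := by rw [map_smul, LinearMap.smul_apply, h, smul_zero]
  simp only [h1, map_zero, LinearMap.zero_apply, add_zero]

theorem dot_Sw_self (hqs : ∀ x y : V3, x ⬝ᵥ q y = q x ⬝ᵥ y)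
    (hqp : ∀ x : V3, x ≠ 0 → 0 < x ⬝ᵥ q x) (w c : V3) : c ⬝ᵥ Sw q w w = c ⬝ᵥ w := by
  rw [Sw_self hqs hqp]

theorem self_dot_Sw (hqs : ∀ x y : V3, x ⬝ᵥ q y = q x ⬝ᵥ y)
    (hqp : ∀ x : V3, x ≠ 0 → 0 < x ⬝ᵥ q x) (w c : V3) : w ⬝ᵥ Sw q w c = w ⬝ᵥ c := by
  rw [Sw_symm hqs hqp, Sw_self hqs hqp]

theorem smul_self_dot_Sw (hqs : ∀ x y : V3, x ⬝ᵥ q y = q x ⬝ᵥ y)
    (hqp : ∀ x : V3, x ≠ 0 → 0 < x ⬝ᵥ q x) (t : ℝ) (z c : V3) :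
    z ⬝ᵥ Sw q (t • z) c = z ⬝ᵥ c := by
  rw [Sw_symm hqs hqp, Sw_smul_self hqs hqp]

/-- The minimiser of `U ↦ U · q U + |c - U × w|²`. -/
noncomputable def Ust (q : V3 →L[ℝ] V3) (w c : V3) : V3 :=
  ContinuousLinearMap.inverse q (w ⨯₃ Sw q w c)

theorem q_Ust (hqp : ∀ x : V3, x ≠ 0 → 0 < x ⬝ᵥ q x) (w c : V3) :
    q (Ust q w c) = w ⨯₃ Sw q w c := q_inv hqp _

/-- `S c = c - U* × w`. -/
theorem Sw_eq_sub (hqs : ∀ x y : V3, x ⬝ᵥ q y = q x ⬝ᵥ y)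
    (hqp : ∀ x : V3, x ≠ 0 → 0 < x ⬝ᵥ q x) (w c : V3) :
    Sw q w c = c - Ust q w c ⨯₃ w := eq_sub_of_add_eq (Sw_eqn hqs hqp w c)

/-- **Completing the square**, bilinear form. -/
theorem sq_Sw₂ (hqs : ∀ x y : V3, x ⬝ᵥ q y = q x ⬝ᵥ y) (hqp : ∀ x : V3, x ≠ 0 → 0 < x ⬝ᵥ q x)
    (w c d U V : V3) :
    U ⬝ᵥ q V + (c - U ⨯₃ w) ⬝ᵥ (d - V ⨯₃ w)
      = c ⬝ᵥ Sw q w d + (U - Ust q w c) ⬝ᵥ q (V - Ust q w d)
        + ((U - Ust q w c) ⨯₃ w) ⬝ᵥ ((V - Ust q w d) ⨯₃ w) := by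
  obtain ⟨a, ha⟩ : ∃ a, a = U - Ust q w c := ⟨_, rfl⟩
  obtain ⟨b, hb⟩ : ∃ b, b = V - Ust q w d := ⟨_, rfl⟩
  obtain ⟨s, hs⟩ : ∃ s, s = Sw q w c := ⟨_, rfl⟩
  obtain ⟨t, ht⟩ : ∃ t, t = Sw q w d := ⟨_, rfl⟩
  have hU : U = Ust q w c + a := by rw [ha]; abel
  have hV : V = Ust q w d + b := by rw [hb]; abel
  have h1 : c - U ⨯₃ w = s - a ⨯₃ w := by
    rw [hU, map_add, LinearMap.add_apply, hs, Sw_eq_sub hqs hqp w c]; abel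
  have h2 : d - V ⨯₃ w = t - b ⨯₃ w := by
    rw [hV, map_add, LinearMap.add_apply, ht, Sw_eq_sub hqs hqp w d]; abel
  have hc : c = s + Ust q w c ⨯₃ w := by rw [hs, Sw_eq_sub hqs hqp w c]; abel
  have hqc : q (Ust q w c) = w ⨯₃ s := by rw [q_Ust hqp, hs]
  have hqd : q (Ust q w d) = w ⨯₃ t := by rw [q_Ust hqp, ht]
  have e1 : U ⬝ᵥ q V = Ust q w c ⬝ᵥ (w ⨯₃ t) + (w ⨯₃ s) ⬝ᵥ b + a ⬝ᵥ (w ⨯₃ t) + a ⬝ᵥ q b := by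
    rw [hU, hV, map_add, add_dotProduct, dotProduct_add, dotProduct_add, hqd,
      hqs (Ust q w c) b, hqc]
    ring
  have e2 : (s - a ⨯₃ w) ⬝ᵥ (t - b ⨯₃ w)
      = s ⬝ᵥ t - (w ⨯₃ s) ⬝ᵥ b - a ⬝ᵥ (w ⨯₃ t) + (a ⨯₃ w) ⬝ᵥ (b ⨯₃ w) := by
    rw [sub_dotProduct, dotProduct_sub, dotProduct_sub, triple_sw s b w, dotProduct_comm b,
      dotProduct_comm (a ⨯₃ w) t, triple_sw t a w]
    ring
  have e3 : c ⬝ᵥ Sw q w d = s ⬝ᵥ t + Ust q w c ⬝ᵥ (w ⨯₃ t) := by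
    rw [← ht]
    nth_rewrite 1 [hc]
    rw [add_dotProduct, dotProduct_comm (Ust q w c ⨯₃ w) t, triple_sw t (Ust q w c) w]
  rw [h1, h2, e1, e2, e3, ← ha, ← hb]
  ring

/-- The value at the minimiser. -/
theorem Sw_min (hqs : ∀ x y : V3, x ⬝ᵥ q y = q x ⬝ᵥ y) (hqp : ∀ x : V3, x ≠ 0 → 0 < x ⬝ᵥ q x)
    (w c : V3) :
    c ⬝ᵥ Sw q w c = Ust q w c ⬝ᵥ q (Ust q w c)
      + (c - Ust q w c ⨯₃ w) ⬝ᵥ (c - Ust q w c ⨯₃ w) := by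
  rw [sq_Sw₂ hqs hqp, sub_self, zero_dotProduct, map_zero, LinearMap.zero_apply, zero_dotProduct,
    add_zero, add_zero]

/-- `c · S c` is the minimum. -/
theorem Sw_min_le (hqs : ∀ x y : V3, x ⬝ᵥ q y = q x ⬝ᵥ y)
    (hqp : ∀ x : V3, x ≠ 0 → 0 < x ⬝ᵥ q x) (w c U : V3) :
    c ⬝ᵥ Sw q w c ≤ U ⬝ᵥ q U + (c - U ⨯₃ w) ⬝ᵥ (c - U ⨯₃ w) := by
  rw [sq_Sw₂ hqs hqp]
  have h1 := q_nonneg_sw hqp (U - Ust q w c)
  have h2 := dot_self_nonneg_sw ((U - Ust q w c) ⨯₃ w)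
  linarith

/-- `S ≤ 1`. -/
theorem Sw_le (hqs : ∀ x y : V3, x ⬝ᵥ q y = q x ⬝ᵥ y) (hqp : ∀ x : V3, x ≠ 0 → 0 < x ⬝ᵥ q x)
    (w c : V3) : c ⬝ᵥ Sw q w c ≤ c ⬝ᵥ c := by
  have h := Sw_min_le hqs hqp w c 0
  rw [zero_dotProduct, zero_add, map_zero, LinearMap.zero_apply, sub_zero] at h
  exact h

/-- `|S c|² ≤ c · S c`. -/
theorem Sw_sq_le (hqs : ∀ x y : V3, x ⬝ᵥ q y = q x ⬝ᵥ y) (hqp : ∀ x : V3, x ≠ 0 → 0 < x ⬝ᵥ q x)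
    (w c : V3) : Sw q w c ⬝ᵥ Sw q w c ≤ c ⬝ᵥ Sw q w c := by
  rw [Sw_min hqs hqp, ← Sw_eq_sub hqs hqp]
  have := q_nonneg_sw hqp (Ust q w c)
  linarith

/-- `⟨w, c⟩² ≤ |w|² ⟨S_w c, c⟩`. -/
theorem sq_dot_le_Sw (hqs : ∀ x y : V3, x ⬝ᵥ q y = q x ⬝ᵥ y)
    (hqp : ∀ x : V3, x ≠ 0 → 0 < x ⬝ᵥ q x) (w c : V3) :
    (w ⬝ᵥ c) ^ 2 ≤ (w ⬝ᵥ w) * (c ⬝ᵥ Sw q w c) := by
  have h1 := sq_dot_le_sw w (Sw q w c)
  rw [self_dot_Sw hqs hqp] at h1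
  exact h1.trans (mul_le_mul_of_nonneg_left (Sw_sq_le hqs hqp w c) (dot_self_nonneg_sw w))

/-- Monotonicity along the radial flow. -/
theorem Sw_mono (hqs : ∀ x y : V3, x ⬝ᵥ q y = q x ⬝ᵥ y) (hqp : ∀ x : V3, x ≠ 0 → 0 < x ⬝ᵥ q x)
    (w c : V3) {l : ℝ} (hl : 1 ≤ l) :
    c ⬝ᵥ Sw q w c ≤ (l • c) ⬝ᵥ Sw q (l • w) (l • c) := by
  obtain ⟨U, hU⟩ : ∃ U, U = Ust q (l • w) (l • c) := ⟨_, rfl⟩
  have h1 := Sw_min hqs hqp (l • w) (l • c)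
  rw [← hU] at h1
  have h2 : l • c - U ⨯₃ (l • w) = l • (c - U ⨯₃ w) := by
    rw [smul_sub, map_smul]
  have h2' : (l • (c - U ⨯₃ w)) ⬝ᵥ (l • (c - U ⨯₃ w)) =
      l * (l * ((c - U ⨯₃ w) ⬝ᵥ (c - U ⨯₃ w))) := by
    rw [smul_dotProduct, dotProduct_smul, smul_eq_mul, smul_eq_mul]
  rw [h2, h2'] at h1
  have h3 := Sw_min_le hqs hqp w c U
  have h4 := dot_self_nonneg_sw (c - U ⨯₃ w)
  have h5 : (c - U ⨯₃ w) ⬝ᵥ (c - U ⨯₃ w) ≤ l * (l * ((c - U ⨯₃ w) ⬝ᵥ (c - U ⨯₃ w))) := by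
    have h6 : 1 ≤ l * l := one_le_mul_of_one_le_of_one_le hl hl
    have h7 := mul_le_mul_of_nonneg_right h6 h4
    rw [one_mul, mul_assoc] at h7
    exact h7
  rw [h1]
  linarith

/-- Monotonicity of `t² c · S_(t z) c` in `t > 0`. -/
theorem Sw_mono_t (hqs : ∀ x y : V3, x ⬝ᵥ q y = q x ⬝ᵥ y)
    (hqp : ∀ x : V3, x ≠ 0 → 0 < x ⬝ᵥ q x) (z c : V3) {t t' : ℝ} (ht : 0 < t) (htt : t ≤ t') :
    (t • c) ⬝ᵥ Sw q (t • z) (t • c) ≤ (t' • c) ⬝ᵥ Sw q (t' • z) (t' • c) := by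
  have h := Sw_mono hqs hqp (t • z) (t • c) (l := t' / t) ((one_le_div ht).2 htt)
  rw [smul_smul, smul_smul, div_mul_cancel₀ t' ht.ne'] at h
  exact h

theorem Sw_zero (hqs : ∀ x y : V3, x ⬝ᵥ q y = q x ⬝ᵥ y) (hqp : ∀ x : V3, x ≠ 0 → 0 < x ⬝ᵥ q x)
    (c : V3) : Sw q 0 c = c := by
  refine Sw_unique hqs hqp ?_
  rw [map_zero, add_zero]

/-! ### Rotations -/

/-- `Sw` in a rotated frame. -/
theorem Sw_rot (hqs : ∀ x y : V3, x ⬝ᵥ q y = q x ⬝ᵥ y) (hqp : ∀ x : V3, x ≠ 0 → 0 < x ⬝ᵥ q x)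
    (b w c : V3) :
    Sw ((cayR (-b)).comp (q.comp (cayR b))) w c = cayR (-b) (Sw q (cayR b w) (cayR b c)) := by
  have hR : ∀ v, cayR b (cayR (-b) v) = v := fun v => by
    have h := cayR_neg (-b) v
    rwa [neg_neg] at h
  have hR' : ∀ v, cayR (-b) (cayR b v) = v := cayR_neg b
  have hdot : ∀ x y : V3, x ⬝ᵥ cayR (-b) y = cayR b x ⬝ᵥ y := fun x y => by
    have h := cayR_dot b x (cayR (-b) y)
    rw [hR] at h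
    exact h.symm
  have hdot' : ∀ x y : V3, cayR (-b) x ⬝ᵥ y = x ⬝ᵥ cayR b y := fun x y => by
    rw [dotProduct_comm, hdot, dotProduct_comm]
  have hqs' : ∀ x y : V3, x ⬝ᵥ ((cayR (-b)).comp (q.comp (cayR b))) y
      = ((cayR (-b)).comp (q.comp (cayR b))) x ⬝ᵥ y := fun x y => by
    change x ⬝ᵥ cayR (-b) (q (cayR b y)) = cayR (-b) (q (cayR b x)) ⬝ᵥ y
    rw [hdot, hdot', hqs]
  have hqp' : ∀ x : V3, x ≠ 0 → 0 < x ⬝ᵥ ((cayR (-b)).comp (q.comp (cayR b))) x := fun x hx => by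
    change 0 < x ⬝ᵥ cayR (-b) (q (cayR b x))
    rw [hdot]
    refine hqp _ fun h => hx ?_
    rw [← hR' x, h, map_zero]
  have hinv : ∀ x, ContinuousLinearMap.inverse ((cayR (-b)).comp (q.comp (cayR b))) x
      = cayR (-b) (ContinuousLinearMap.inverse q (cayR b x)) := fun x => by
    have h := inv_q hqp' (cayR (-b) (ContinuousLinearMap.inverse q (cayR b x)))
    change ContinuousLinearMap.inverse ((cayR (-b)).comp (q.comp (cayR b)))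
      (cayR (-b) (q (cayR b (cayR (-b) (ContinuousLinearMap.inverse q (cayR b x)))))) = _ at h
    rw [hR, q_inv hqp, hR'] at h
    exact h
  refine Sw_unique hqs' hqp' ?_
  rw [hinv, cayR_cross, hR]
  have h := congrArg (cayR (-b)) (Sw_eqn hqs hqp (cayR b w) (cayR b c))
  rw [map_add, cayR_cross, hR', hR'] at h
  exact h

end

/-! ### Smoothness -/

section smooth

variable {X : Type*} [NormedAddCommGroup X] [NormedSpace ℝ X] {n : WithTop ℕ∞} {x₀ : X}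

theorem contDiffAt_inverse_of_pos {T : X → V3 →L[ℝ] V3} (hT : ContDiffAt ℝ n T x₀)
    (hp : ∀ x : V3, x ≠ 0 → 0 < x ⬝ᵥ T x₀ x) :
    ContDiffAt ℝ n (fun x => ContinuousLinearMap.inverse (T x)) x₀ := by
  obtain ⟨e, he⟩ := isInvertible_of_pos hp
  have h := contDiffAt_map_inverse (𝕜 := ℝ) (n := n) e
  rw [he] at h
  exact h.comp x₀ hT

theorem contDiffAt_crossL {w : X → V3} (hw : ContDiffAt ℝ n w x₀) :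
    ContDiffAt ℝ n (fun x => crossL (w x)) x₀ := crossL.contDiff.contDiffAt.comp x₀ hw

theorem contDiffAt_Cw {w : X → V3} (hw : ContDiffAt ℝ n w x₀) :
    ContDiffAt ℝ n (fun x => Cw (w x)) x₀ := crossL.flip.contDiff.contDiffAt.comp x₀ hw

theorem contDiffAt_Mw {q : X → V3 →L[ℝ] V3} {w : X → V3} (hq : ContDiffAt ℝ n q x₀)
    (hw : ContDiffAt ℝ n w x₀) (hqp : ∀ x : V3, x ≠ 0 → 0 < x ⬝ᵥ q x₀ x) :
    ContDiffAt ℝ n (fun x => Mw (q x) (w x)) x₀ :=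
  contDiffAt_const.add ((contDiffAt_Cw hw).clm_comp
    ((contDiffAt_inverse_of_pos hq hqp).clm_comp (contDiffAt_crossL hw)))

/-- `Sw` depends smoothly on `(q, w)`. -/
theorem contDiffAt_Sw {q : X → V3 →L[ℝ] V3} {w : X → V3} (hq : ContDiffAt ℝ n q x₀)
    (hw : ContDiffAt ℝ n w x₀) (hqs : ∀ x y : V3, x ⬝ᵥ q x₀ y = q x₀ x ⬝ᵥ y)
    (hqp : ∀ x : V3, x ≠ 0 → 0 < x ⬝ᵥ q x₀ x) :
    ContDiffAt ℝ n (fun x => Sw (q x) (w x)) x₀ :=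
  contDiffAt_inverse_of_pos (contDiffAt_Mw hq hw hqp) (Mw_pos hqs hqp _)

theorem contDiffAt_Ust {q : X → V3 →L[ℝ] V3} {w c : X → V3} (hq : ContDiffAt ℝ n q x₀)
    (hw : ContDiffAt ℝ n w x₀) (hc : ContDiffAt ℝ n c x₀)
    (hqs : ∀ x y : V3, x ⬝ᵥ q x₀ y = q x₀ x ⬝ᵥ y)
    (hqp : ∀ x : V3, x ≠ 0 → 0 < x ⬝ᵥ q x₀ x) :
    ContDiffAt ℝ n (fun x => Ust (q x) (w x) (c x)) x₀ :=
  (contDiffAt_inverse_of_pos hq hqp).clm_apply ((contDiffAt_crossL hw).clm_apply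
    ((contDiffAt_Sw hq hw hqs hqp).clm_apply hc))

end smooth

end Pool.Agent.HS
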