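import Pool.Agent.HS.Amb
import Pool.Agent.HS.AmbData
import Pool.Agent.HS.Sw
import Pool.Agent.HS.CoordSk

set_option autoImplicit false
set_option maxSynthPendingDepth 3

/-!
# `GE h A q` as ambient metric (project HS, block AMB)
-/

open Matrix Topology Filter Set
open scoped ContDiff

namespace Pool.Agent.HS

noncomputable section

/-- The metric `GE h A q` on `V3 × V3` has the properties used for the global part. -/
theorem isAmb_GE {h : V3 → V3 →L[ℝ] V3 →L[ℝ] ℝ} {A : V3 → V3 →L[ℝ] V3} {q : V3 → V3 →L[ℝ] V3}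
    (hh : ∀ y, y ⬝ᵥ y = 1 → ContDiffAt ℝ ∞ h y) (hA : ∀ y, y ⬝ᵥ y = 1 → ContDiffAt ℝ ∞ A y)
    (hq : ∀ y, y ⬝ᵥ y = 1 → ContDiffAt ℝ ∞ q y) (hi : ∀ y, y ⬝ᵥ y = 1 → IsInner (h y))
    (hp : ∀ y, y ⬝ᵥ y = 1 → IsPosOp (q y)) : IsAmb (GE h A q) := by
  have hs : ∀ y, y ⬝ᵥ y = 1 → ∀ u v, u ⬝ᵥ q y v = q y u ⬝ᵥ v := by
    intro y hy u v
    rw [(hp y hy).symm, dotProduct_comm]
  have hp' : ∀ y, y ⬝ᵥ y = 1 → ∀ u : V3, u ≠ 0 → 0 < u ⬝ᵥ q y u := fun y hy => (hp y hy).pos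
  have hself : ∀ w U : V3, w ⬝ᵥ (U ⨯₃ w) = 0 := fun w U => dot_cross_self U w
  refine ⟨fun y w hy => ?_, fun y w hy => ?_, fun y w a b hy => ?_, fun y w a b c hy hc => ?_,
    fun y a b hy => ?_, fun y w a hy => ?_, fun y w b hy => ?_⟩
  · exact contDiffAt_GE (p := (y, w)) (hh y hy) (hA y hy) (hq y hy) (hs y hy) (hp' y hy)
  · exact isInner_GE (p := (y, w)) (hi y hy) (hs y hy) (hp' y hy)
  · rw [GE_apply]
    simp only [map_zero, LinearMap.zero_apply, zero_add]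
    rw [Sw_self (hs y hy) (hp' y hy), add_dotProduct, dotProduct_comm _ w, hself, zero_add]
  · rw [GE_apply, GE_apply]
    have h1 : A y a ⨯₃ (c • w) + c • b = c • (A y a ⨯₃ w + b) := by
      rw [smul_add, map_smul]
    simp only
    rw [h1]
    have h2 := Sw_mono (hs y hy) (hp' y hy) w (A y a ⨯₃ w + b) hc
    linarith
  · rw [GE_apply]
    simp
  · rw [GE_apply, GE_apply]
    simp only [map_zero, add_zero, zero_dotProduct]
    have h2 := Sw_nonneg (hs y hy) (hp' y hy) w (A y a ⨯₃ w)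
    linarith
  · rw [GE_apply]
    simp only [map_zero, LinearMap.zero_apply, zero_add]
    exact Sw_le (hs y hy) (hp' y hy) w b

/-- The ambient metric of the Euler-top data. -/
theorem isAmb_data {d r : ℝ} (hd : |d| < 1)
    (hp : ∀ y : V3, y ⬝ᵥ y = 1 → IsPosOp (qk r (kapM d) y)) :
    IsAmb (GE (hBL d) (cAL d) (qk r (kapM d))) :=
  isAmb_GE (fun _ hy => contDiffAt_hBL (Dl_pos hd hy).ne')
    (fun _ hy => contDiffAt_cAL (Dl_pos hd hy).ne')
    (fun _ _ => reg_contDiffAt_qk fun a b => (contDiff_kapM a b).contDiffAt)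
    (fun _ hy => isInner_hBL hd hy) hp

theorem amb_isPosOp_qk {d r : ℝ} (hr : 0 < r) (hr1 : r ≤ 1 / 20) (hd : 0 < d) (hd1 : d < 1)
    {y : V3} (hy : y ⬝ᵥ y = 1) : IsPosOp (qk r (kapM d) y) where
  symm u v := by
    rw [qk_kapM_symm, dotProduct_comm]
  pos u hu := qk_kapM_pos hr hr1 hd hd1 hy u hu

/-- The ambient metric of the Euler-top data, for `0 < d < 1` and `0 < r ≤ 1/20`. -/
theorem isAmb_data_small {d r : ℝ} (hd : 0 < d) (hd1 : d < 1) (hr : 0 < r) (hr1 : r ≤ 1 / 20) :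
    IsAmb (GE (hBL d) (cAL d) (qk r (kapM d))) :=
  isAmb_data (abs_lt.2 ⟨by linarith, hd1⟩) fun _ hy => amb_isPosOp_qk hr hr1 hd hd1 hy

end

end Pool.Agent.HS
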