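import Pool.Agent.HS.LkDefs

/-!
# LINK: vector algebra of the Euler-top data
-/

namespace Pool.Agent.HS

open Matrix

noncomputable section

variable {d : ℝ} {y L : V3}

/-- `B (B L × y) = L × b y`. -/
theorem Bv_y1 (d : ℝ) (y L : V3) : Bv d (y1 d y L) = L ⨯₃ bv d y := by
  ext i
  fin_cases i <;> simp [Bv, bv, y1, cross_apply] <;> ring

/-- `y × B (B L × y) = Δ L - ⟨L, y⟩ b y`. -/
theorem cross_Bv_y1 (d : ℝ) (y L : V3) :
    y ⨯₃ Bv d (y1 d y L) = Dl d y • L - (L ⬝ᵥ y) • bv d y := by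
  rw [Bv_y1]
  ext i
  fin_cases i <;> simp [bv, Dl, cross_apply, dotProduct, Fin.sum_univ_three] <;> ring

/-- The derivative of `cross_Bv_y1` along the flow. -/
theorem cross_Bv_y2 (d : ℝ) (y L : V3) :
    y1 d y L ⨯₃ Bv d (y1 d y L) + y ⨯₃ Bv d (y2 d y L)
      = Dl1 d y L • L + Dl d y • L1 d L - (L ⬝ᵥ y) • bv d (y1 d y L) := by
  ext i
  fin_cases i <;>
    simp only [Fin.zero_eta, Fin.mk_one, Fin.reduceFinMk, Pi.add_apply, Pi.sub_apply,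
      Pi.smul_apply, smul_eq_mul, Bv, bv, y1, y2, L1, Dl, Dl1, cross_apply, dotProduct,
      Fin.sum_univ_three, Matrix.cons_val_zero, Matrix.cons_val_one, Matrix.cons_val] <;> ring

theorem Dl_pos (hd : |d| < 1) (hy : y ⬝ᵥ y = 1) : 0 < Dl d y := by
  have h1 := abs_lt.1 hd
  have h2 : Dl d y = (1 - d) * y 0 ^ 2 + (1 - d) * (1 + d) * y 1 ^ 2 + (1 + d) * y 2 ^ 2 := by
    simp [Dl, bv, dotProduct, Fin.sum_univ_three]; ring
  have h3 : y 0 ^ 2 + y 1 ^ 2 + y 2 ^ 2 = 1 := by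
    rw [← hy]; simp [dotProduct, Fin.sum_univ_three]; ring
  have ha : 0 < 1 - d := by linarith [h1.2]
  have hb : 0 < 1 + d := by linarith [h1.1]
  have hab : 0 < (1 - d) * (1 + d) := mul_pos ha hb
  rw [h2]
  rcases lt_or_ge 0 (y 0 ^ 2) with h | h
  · have := mul_pos ha h
    have := mul_nonneg hab.le (sq_nonneg (y 1))
    have := mul_nonneg hb.le (sq_nonneg (y 2))
    linarith
  · rcases lt_or_ge 0 (y 1 ^ 2) with h' | h'
    · have := mul_nonneg ha.le (sq_nonneg (y 0))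
      have := mul_pos hab h'
      have := mul_nonneg hb.le (sq_nonneg (y 2))
      linarith
    · have h4 : 0 < y 2 ^ 2 := by linarith
      have := mul_nonneg ha.le (sq_nonneg (y 0))
      have := mul_nonneg hab.le (sq_nonneg (y 1))
      have := mul_pos hb h4
      linarith

/-- `L_y(B L × y) = L` for `L ⟂ y`. -/
theorem Lm_y1 (hD : Dl d y ≠ 0) (hL : L ⬝ᵥ y = 0) : Lm d y (y1 d y L) = L := by
  unfold Lm
  rw [cross_Bv_y1, hL, zero_smul, sub_zero, smul_smul, inv_mul_cancel₀ hD, one_smul]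

/-- `A_y(y') = aa`. -/
theorem cA_y1 (hD : Dl d y ≠ 0) (hL : L ⬝ᵥ y = 0) : cA d y (y1 d y L) = aa d y L := by
  unfold cA aa
  rw [Lm_y1 hD hL]

/-- `⟨B v, v'⟩ = Δ ⟨B L, L'⟩`. -/
theorem Bv_y1_dot (d : ℝ) (y L L' : V3) (hL : L ⬝ᵥ y = 0) :
    Bv d (y1 d y L) ⬝ᵥ y1 d y L' = Dl d y * (Bv d L ⬝ᵥ L') := by
  have h : Bv d (y1 d y L) ⬝ᵥ y1 d y L' - Dl d y * (Bv d L ⬝ᵥ L')
      = -((L ⬝ᵥ y) * (Bv d L' ⬝ᵥ bv d y)) := by
    rw [Bv_y1]
    simp [Bv, bv, y1, Dl, cross_apply, dotProduct, Fin.sum_univ_three]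
    ring
  rw [hL] at h
  linarith

theorem hB_y1 (hD : Dl d y ≠ 0) (L' : V3) (hL : L ⬝ᵥ y = 0) :
    hB d y (y1 d y L) (y1 d y L') = Bv d L ⬝ᵥ L' := by
  unfold hB
  rw [Bv_y1_dot d y L L' hL]
  field_simp

end

end Pool.Agent.HS
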