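import Pool.Agent.HS.LkDefs
import Pool.Agent.HS.LkAlg
import Pool.Agent.HS.Reg

/-!
# The concrete ambient metric is smooth and positive definite near the sphere (project HS)

For `0 < d < 1`, `0 < r ≤ 1/20` and `y ⬝ᵥ y = 1` the metric
`GE (hBL d) (cAL d) (qk r (kapM d))` is smooth and positive definite at `(y, w)`, all `w`.
-/

set_option maxSynthPendingDepth 3

namespace Pool.Agent.HS

open Matrix Topology Filter

variable {d : ℝ} {y : V3}

/-! ### Smoothness -/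

theorem contDiff_Dl {n : WithTop ℕ∞} (d : ℝ) : ContDiff ℝ n (Dl d) := by
  have h : Dl d = fun y : V3 => (1 - d) * y 0 * y 0 + (1 - d ^ 2) * y 1 * y 1
      + (1 + d) * y 2 * y 2 := by
    funext y
    rw [Dl, bv, dotProduct, Fin.sum_univ_three]
    simp only [Matrix.cons_val_zero, Matrix.cons_val_one, Matrix.cons_val]
  rw [h]
  fun_prop

theorem contDiffAt_Dl_inv {n : WithTop ℕ∞} (h : Dl d y ≠ 0) :
    ContDiffAt ℝ n (fun y => (Dl d y)⁻¹) y :=
  (contDiff_Dl d).contDiffAt.inv h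

theorem contDiffAt_hBL {n : WithTop ℕ∞} (h : Dl d y ≠ 0) : ContDiffAt ℝ n (hBL d) y := by
  unfold hBL
  exact (contDiffAt_Dl_inv h).smul contDiffAt_const

theorem contDiffAt_LmL {n : WithTop ℕ∞} (h : Dl d y ≠ 0) : ContDiffAt ℝ n (LmL d) y := by
  unfold LmL
  exact (contDiffAt_Dl_inv h).smul (crossL.contDiff.contDiffAt.clm_comp contDiffAt_const)

theorem contDiffAt_cAL {n : WithTop ℕ∞} (h : Dl d y ≠ 0) : ContDiffAt ℝ n (cAL d) y := by
  unfold cAL
  have h1 : ContDiffAt ℝ n (fun y => (d ^ 2) • (dotL wv).comp (LmL d y)) y :=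
    ContDiffAt.const_smul (d ^ 2) (contDiffAt_const.clm_comp (contDiffAt_LmL h))
  refine ContDiffAt.add (ContDiffAt.sub ?_ ?_) ?_
  · exact (contDiffAt_const.mul (contDiff_Dl d).contDiffAt).smul (contDiffAt_LmL h)
  · exact contDiffAt_const.clm_comp (contDiffAt_LmL h)
  · exact h1.smulRight contDiffAt_id

theorem kapM_apply (d : ℝ) (y : V3) (a b : Fin 3) :
    kapM d y a b = 15 / 16 * (y a * y b) + 33 / 8 * d ^ 2 * (y a * wv b + y b * wv a)
      + d ^ 2 / 2 * (qv a * qv b) := by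
  have e : ∀ (v : V3) (i : Fin 3), v ⬝ᵥ (Pi.single i (1 : ℝ) : V3) = v i := by
    intro v i
    rw [dotProduct_single, mul_one]
  rw [kapM, kap, e, e, e, e, e, e]

theorem contDiffAt_kapM {n : WithTop ℕ∞} (a b : Fin 3) :
    ContDiffAt ℝ n (fun y => kapM d y a b) y := by
  have h : (fun y => kapM d y a b) = fun y : V3 =>
      15 / 16 * (y a * y b) + 33 / 8 * d ^ 2 * (y a * wv b + y b * wv a)
      + d ^ 2 / 2 * (qv a * qv b) := funext fun y => kapM_apply d y a b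
  rw [h]
  fun_prop

theorem kapM_isSymm (d : ℝ) (y : V3) : (kapM d y).IsSymm := by
  refine Matrix.IsSymm.ext fun a b => ?_
  rw [kapM_apply, kapM_apply]
  ring

/-! ### Positivity -/

theorem hBL_isInner (hd : 0 < d) (hd1 : d < 1) (hy : y ⬝ᵥ y = 1) : IsInner (hBL d y) := by
  have hD : 0 < Dl d y := Dl_pos (abs_lt.2 ⟨by linarith, hd1⟩) hy
  refine ⟨fun u v => ?_, fun u hu => ?_⟩
  · rw [hBL_apply, hBL_apply, hB, hB]
    congr 1
    rw [Bv, Bv, dotProduct, dotProduct, Fin.sum_univ_three, Fin.sum_univ_three]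
    simp only [Matrix.cons_val_zero, Matrix.cons_val_one, Matrix.cons_val]
    ring
  · rw [hBL_apply, hB]
    refine div_pos ?_ hD
    rw [Bv, dotProduct, Fin.sum_univ_three]
    simp only [Matrix.cons_val_zero, Matrix.cons_val_one, Matrix.cons_val]
    have h1 : 0 < u 0 ^ 2 + u 1 ^ 2 + u 2 ^ 2 := by
      have h2 : 0 < u ⬝ᵥ u := by
        have h0 : 0 ≤ u ⬝ᵥ u := by
          rw [dotProduct]
          exact Finset.sum_nonneg fun i _ => mul_self_nonneg _
        rcases h0.lt_or_eq with h | h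
        · exact h
        · exact absurd (dotProduct_self_eq_zero.1 h.symm) hu
      rw [dotProduct, Fin.sum_univ_three] at h2
      nlinarith
    nlinarith [sq_nonneg (u 0), sq_nonneg (u 1), sq_nonneg (u 2), mul_pos hd h1,
      mul_nonneg hd.le (sq_nonneg (u 0)), mul_nonneg hd.le (sq_nonneg (u 1)),
      mul_pos (sub_pos.2 hd1) h1, mul_nonneg (sub_pos.2 hd1).le (sq_nonneg (u 2)),
      mul_nonneg (sub_pos.2 hd1).le (sq_nonneg (u 0)), mul_nonneg (sub_pos.2 hd1).le (sq_nonneg (u 1))]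

theorem abs_coord_le_one (hy : y ⬝ᵥ y = 1) (a : Fin 3) : |y a| ≤ 1 := by
  rw [dotProduct] at hy
  have h1 : y a * y a ≤ 1 := by
    rw [← hy]
    exact Finset.single_le_sum (f := fun i => y i * y i) (fun i _ => mul_self_nonneg _)
      (Finset.mem_univ a)
  rw [abs_le]
  constructor <;> nlinarith

theorem abs_kapM_le (hd : 0 < d) (hd1 : d < 1) (hy : y ⬝ᵥ y = 1) (a b : Fin 3) :
    |kapM d y a b| ≤ 20 := by
  rw [kapM_apply]
  have ha := abs_le.1 (abs_coord_le_one hy a)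
  have hb := abs_le.1 (abs_coord_le_one hy b)
  have hw : ∀ i : Fin 3, 0 ≤ wv i ∧ wv i ≤ 2 := by
    intro i
    fin_cases i <;> simp [wv]
  have hq : ∀ i : Fin 3, qv i = 1 := by
    intro i
    fin_cases i <;> simp [qv]
  have h1 := hw a
  have h2 := hw b
  rw [hq a, hq b]
  have hdd : d ^ 2 ≤ 1 := by nlinarith
  have hdd0 : 0 ≤ d ^ 2 := sq_nonneg d
  have e1 : |y a * y b| ≤ 1 := by
    rw [abs_mul]
    exact mul_le_one₀ (abs_coord_le_one hy a) (abs_nonneg _) (abs_coord_le_one hy b)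
  have e2 : |y a * wv b| ≤ 2 := by
    rw [abs_mul, abs_of_nonneg h2.1]
    have := abs_coord_le_one hy a
    nlinarith [abs_nonneg (y a)]
  have e3 : |y b * wv a| ≤ 2 := by
    rw [abs_mul, abs_of_nonneg h1.1]
    have := abs_coord_le_one hy b
    nlinarith [abs_nonneg (y b)]
  have e4 : |33 / 8 * d ^ 2 * (y a * wv b + y b * wv a)| ≤ 33 / 8 * 1 * 4 := by
    rw [abs_mul, abs_of_nonneg (by positivity : (0 : ℝ) ≤ 33 / 8 * d ^ 2)]
    have h3 : |y a * wv b + y b * wv a| ≤ 4 := (abs_add_le _ _).trans (by linarith)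
    have h4 : 33 / 8 * d ^ 2 ≤ 33 / 8 * 1 := by linarith
    exact mul_le_mul h4 h3 (abs_nonneg _) (by norm_num)
  have e5 : |15 / 16 * (y a * y b)| ≤ 15 / 16 := by
    rw [abs_mul, abs_of_nonneg (by norm_num : (0 : ℝ) ≤ 15 / 16)]
    linarith
  have e6 : |d ^ 2 / 2 * (1 * 1)| ≤ 1 / 2 := by
    rw [abs_of_nonneg (by positivity)]
    linarith
  calc |15 / 16 * (y a * y b) + 33 / 8 * d ^ 2 * (y a * wv b + y b * wv a) + d ^ 2 / 2 * (1 * 1)|
      ≤ |15 / 16 * (y a * y b)| + |33 / 8 * d ^ 2 * (y a * wv b + y b * wv a)|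
        + |d ^ 2 / 2 * (1 * 1)| := (abs_add_le _ _).trans (by
          have := abs_add_le (15 / 16 * (y a * y b)) (33 / 8 * d ^ 2 * (y a * wv b + y b * wv a))
          linarith)
    _ ≤ 20 := by linarith

theorem qk_kapM_symm (r : ℝ) (d : ℝ) (y x z : V3) :
    x ⬝ᵥ qk r (kapM d) y z = qk r (kapM d) y x ⬝ᵥ z :=
  reg_qk_symm (kapM_isSymm d y) x z

theorem qk_kapM_pos {r : ℝ} (hr : 0 < r) (hr1 : r ≤ 1 / 20) (hd : 0 < d) (hd1 : d < 1)
    (hy : y ⬝ᵥ y = 1) (x : V3) (hx : x ≠ 0) : 0 < x ⬝ᵥ qk r (kapM d) y x := by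
  refine reg_qk_pos hr.ne' (fun v hv => ?_) x hx
  refine bf_one_sub_pos (C := 20) (abs_kapM_le hd hd1 hy) ?_ v hv
  nlinarith

/-- The ambient metric is smooth at the points over the sphere. -/
theorem contDiffAt_GE_amb {n : WithTop ℕ∞} {r : ℝ} (hr : 0 < r) (hr1 : r ≤ 1 / 20) (hd : 0 < d)
    (hd1 : d < 1) (hy : y ⬝ᵥ y = 1) (w : V3) :
    ContDiffAt ℝ n (GE (hBL d) (cAL d) (qk r (kapM d))) (y, w) := by
  have hD : Dl d y ≠ 0 := (Dl_pos (abs_lt.2 ⟨by linarith, hd1⟩) hy).ne'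
  exact contDiffAt_GE (p := (y, w)) (contDiffAt_hBL hD) (contDiffAt_cAL hD)
    (reg_contDiffAt_qk fun a b => contDiffAt_kapM a b) (qk_kapM_symm r d y)
    (qk_kapM_pos hr hr1 hd hd1 hy)

/-- The ambient metric is positive definite at the points over the sphere. -/
theorem isInner_GE_amb {r : ℝ} (hr : 0 < r) (hr1 : r ≤ 1 / 20) (hd : 0 < d)
    (hd1 : d < 1) (hy : y ⬝ᵥ y = 1) (w : V3) :
    IsInner (GE (hBL d) (cAL d) (qk r (kapM d)) (y, w)) :=
  isInner_GE (p := (y, w)) (hBL_isInner hd hd1 hy) (qk_kapM_symm r d y)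
    (qk_kapM_pos hr hr1 hd hd1 hy)

end Pool.Agent.HS
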