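import Pool.Agent.HS.Defs

/-!
# Second derivatives (project HS)

`dd f p x y = ∂_x ∂_y f` at `p`, with values in a general normed space `F`, for `C²` functions:
bilinear, symmetric, compatible with continuous linear maps, product rule, chain rule.
-/

namespace Pool.Agent.HS

open scoped Topology

variable {E : Type*} [NormedAddCommGroup E] [NormedSpace ℝ E]
variable {F : Type*} [NormedAddCommGroup F] [NormedSpace ℝ F]
variable {F' : Type*} [NormedAddCommGroup F'] [NormedSpace ℝ F']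
variable {F'' : Type*} [NormedAddCommGroup F''] [NormedSpace ℝ F'']

/-- `∂_x ∂_y f` at `p`. -/
noncomputable def dd (f : E → F) (p x y : E) : F :=
  fderiv ℝ (fun q => fderiv ℝ f q y) p x

theorem ContDiffAt.diff_fderiv {f : E → F} {p : E} (hf : ContDiffAt ℝ 2 f p) :
    DifferentiableAt ℝ (fderiv ℝ f) p := by
  have h : ContDiffAt ℝ 1 (fderiv ℝ f) p := hf.fderiv_right (m := 1) (by norm_num)
  exact h.differentiableAt (by norm_num)

theorem diff1 {f : E → F} {p : E} (hf : ContDiffAt ℝ 2 f p) : DifferentiableAt ℝ f p :=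
  hf.differentiableAt (by norm_num)

theorem diff_ev {f : E → F} {p : E} (hf : ContDiffAt ℝ 2 f p) :
    ∀ᶠ q in 𝓝 p, DifferentiableAt ℝ f q := by
  have h : ContDiffAt ℝ 1 f p := hf.of_le (by norm_num)
  filter_upwards [h.eventually (by simp)] with q hq
  exact hq.differentiableAt (by norm_num)

theorem diff_fderiv_apply {f : E → F} {p : E} (hf : ContDiffAt ℝ 2 f p) (y : E) :
    DifferentiableAt ℝ (fun q => fderiv ℝ f q y) p :=
  (ContDiffAt.diff_fderiv hf).clm_apply (differentiableAt_const y)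

theorem dd_eq {f : E → F} {p : E} (hf : ContDiffAt ℝ 2 f p) (x y : E) :
    dd f p x y = fderiv ℝ (fderiv ℝ f) p x y := by
  unfold dd
  have h : HasFDerivAt (fun q => fderiv ℝ f q y)
      ((ContinuousLinearMap.apply ℝ F y).comp (fderiv ℝ (fderiv ℝ f) p)) p :=
    (ContinuousLinearMap.apply ℝ F y).hasFDerivAt.comp p (ContDiffAt.diff_fderiv hf).hasFDerivAt
  rw [h.fderiv]
  rfl

theorem dd_comm {f : E → F} {p : E} (hf : ContDiffAt ℝ 2 f p) (x y : E) :
    dd f p x y = dd f p y x := by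
  rw [dd_eq hf, dd_eq hf]
  exact (hf.isSymmSndFDerivAt (by simp)).eq x y

theorem dd_add_left (f : E → F) (p x x' y : E) :
    dd f p (x + x') y = dd f p x y + dd f p x' y := map_add _ _ _

theorem dd_smul_left (f : E → F) (p x y : E) (c : ℝ) :
    dd f p (c • x) y = c • dd f p x y := map_smul _ _ _

theorem dd_add_right {f : E → F} {p : E} (hf : ContDiffAt ℝ 2 f p) (x y y' : E) :
    dd f p x (y + y') = dd f p x y + dd f p x y' := by
  rw [dd_eq hf, dd_eq hf, dd_eq hf, map_add]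

theorem dd_smul_right {f : E → F} {p : E} (hf : ContDiffAt ℝ 2 f p) (x y : E) (c : ℝ) :
    dd f p x (c • y) = c • dd f p x y := by
  rw [dd_eq hf, dd_eq hf, map_smul]

/-- If `f` has derivative `f' q` near `p` and `q ↦ f' q y` has derivative `f'' y` at `p`, then
`dd f p x y = f'' y x`. -/
theorem dd_of_hasFDerivAt {f : E → F} {p : E} {f' : E → E →L[ℝ] F} {y : E} {f'' : E →L[ℝ] F}
    (h1 : ∀ᶠ q in 𝓝 p, HasFDerivAt f (f' q) q)
    (h2 : HasFDerivAt (fun q => f' q y) f'' p) (x : E) : dd f p x y = f'' x := by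
  unfold dd
  have h3 : (fun q => fderiv ℝ f q y) =ᶠ[𝓝 p] fun q => f' q y := by
    filter_upwards [h1] with q hq
    rw [hq.fderiv]
  rw [h3.fderiv_eq, h2.fderiv]

theorem dd_congr {f g : E → F} {p : E} (h : f =ᶠ[𝓝 p] g) (x y : E) :
    dd f p x y = dd g p x y := by
  unfold dd
  have h3 : (fun q => fderiv ℝ f q y) =ᶠ[𝓝 p] fun q => fderiv ℝ g q y := by
    filter_upwards [h.fderiv (𝕜 := ℝ)] with q hq
    rw [hq]
  rw [h3.fderiv_eq]

theorem hasFDerivAt_clm {f : E → F} {p : E} (hf : DifferentiableAt ℝ f p) (L : F →L[ℝ] F') :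
    HasFDerivAt (fun q => L (f q)) (L.comp (fderiv ℝ f p)) p :=
  L.hasFDerivAt.comp p hf.hasFDerivAt

theorem contDiffAt_clm {n : WithTop ℕ∞} {f : E → F} {p : E} (hf : ContDiffAt ℝ n f p)
    (L : F →L[ℝ] F') : ContDiffAt ℝ n (fun q => L (f q)) p :=
  L.contDiff.contDiffAt.comp p hf

theorem dd_clm {f : E → F} {p : E} (hf : ContDiffAt ℝ 2 f p) (L : F →L[ℝ] F') (x y : E) :
    dd (fun q => L (f q)) p x y = L (dd f p x y) := by
  refine dd_of_hasFDerivAt (f' := fun q => L.comp (fderiv ℝ f q))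
    (f'' := L.comp (fderiv ℝ (fun q => fderiv ℝ f q y) p)) ?_ ?_ x
  · filter_upwards [diff_ev hf] with q hq
    exact L.hasFDerivAt.comp q hq.hasFDerivAt
  · exact L.hasFDerivAt.comp p (diff_fderiv_apply hf y).hasFDerivAt

theorem dd_add {f g : E → F} {p : E} (hf : ContDiffAt ℝ 2 f p) (hg : ContDiffAt ℝ 2 g p)
    (x y : E) : dd (fun q => f q + g q) p x y = dd f p x y + dd g p x y := by
  refine dd_of_hasFDerivAt (f' := fun q => fderiv ℝ f q + fderiv ℝ g q)
    (f'' := fderiv ℝ (fun q => fderiv ℝ f q y) p + fderiv ℝ (fun q => fderiv ℝ g q y) p) ?_ ?_ x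
  · filter_upwards [diff_ev hf, diff_ev hg] with q hq hq'
    exact hq.hasFDerivAt.add hq'.hasFDerivAt
  · exact (diff_fderiv_apply hf y).hasFDerivAt.add (diff_fderiv_apply hg y).hasFDerivAt

theorem dd_const_smul {f : E → F} {p : E} (hf : ContDiffAt ℝ 2 f p) (c : ℝ)
    (x y : E) : dd (fun q => c • f q) p x y = c • dd f p x y :=
  dd_clm hf (c • ContinuousLinearMap.id ℝ F) x y

theorem dd_const (c : F) (p x y : E) : dd (fun _ : E => c) p x y = 0 := by
  unfold dd
  simp

theorem dd_clm_self (L : E →L[ℝ] F) (p x y : E) : dd (fun q => L q) p x y = 0 := by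
  unfold dd
  have : (fun q => fderiv ℝ (fun q => L q) q y) = fun _ => L y := by
    funext q
    rw [L.fderiv]
  rw [this]
  simp

/-- Leibniz rule for second derivatives. -/
theorem dd_bilin {f : E → F} {g : E → F'} {p : E} (B : F →L[ℝ] F' →L[ℝ] F'')
    (hf : ContDiffAt ℝ 2 f p) (hg : ContDiffAt ℝ 2 g p) (x y : E) :
    dd (fun q => B (f q) (g q)) p x y
      = B (dd f p x y) (g p) + B (fderiv ℝ f p x) (fderiv ℝ g p y)
        + B (fderiv ℝ f p y) (fderiv ℝ g p x) + B (f p) (dd g p x y) := by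
  have key : ∀ {f₁ : E → F} {g₁ : E → F'} {q : E}, DifferentiableAt ℝ f₁ q →
      DifferentiableAt ℝ g₁ q → HasFDerivAt (fun q => B (f₁ q) (g₁ q))
        ((B (f₁ q)).comp (fderiv ℝ g₁ q) + (B.flip (g₁ q)).comp (fderiv ℝ f₁ q)) q := by
    intro f₁ g₁ q h1 h2
    have h := B.hasFDerivAt_of_bilinear h1.hasFDerivAt h2.hasFDerivAt
    convert h using 1
    ext z
    simp [ContinuousLinearMap.precompR_apply, ContinuousLinearMap.precompL_apply]
  rw [dd_of_hasFDerivAt (f' := fun q => (B (f q)).comp (fderiv ℝ g q)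
      + (B.flip (g q)).comp (fderiv ℝ f q))
    (f'' := ((B (f p)).comp (fderiv ℝ (fun q => fderiv ℝ g q y) p)
        + (B.flip (fderiv ℝ g p y)).comp (fderiv ℝ f p))
      + ((B (fderiv ℝ f p y)).comp (fderiv ℝ g p)
        + (B.flip (g p)).comp (fderiv ℝ (fun q => fderiv ℝ f q y) p))) ?_ ?_ x]
  · change B (f p) (dd g p x y) + B (fderiv ℝ f p x) (fderiv ℝ g p y)
      + (B (fderiv ℝ f p y) (fderiv ℝ g p x) + B (dd f p x y) (g p)) = _
    abel
  · filter_upwards [diff_ev hf, diff_ev hg] with q hq hq'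
    exact key hq hq'
  · exact (key (diff1 hf) (diff_fderiv_apply hg y)).add
      (key (diff_fderiv_apply hf y) (diff1 hg))

/-- Second derivative of a composition. -/
theorem dd_comp {g : F → F'} {f : E → F} {p : E} (hg : ContDiffAt ℝ 2 g (f p))
    (hf : ContDiffAt ℝ 2 f p) (x y : E) :
    dd (fun q => g (f q)) p x y
      = dd g (f p) (fderiv ℝ f p x) (fderiv ℝ f p y) + fderiv ℝ g (f p) (dd f p x y) := by
  have hfc : Filter.Tendsto f (𝓝 p) (𝓝 (f p)) := (diff1 hf).continuousAt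
  have h2 : HasFDerivAt (fun q => fderiv ℝ g (f q) (fderiv ℝ f q y))
      ((fderiv ℝ g (f p)).comp (fderiv ℝ (fun q => fderiv ℝ f q y) p)
        + (ContinuousLinearMap.apply ℝ F' (fderiv ℝ f p y)).comp
          ((fderiv ℝ (fderiv ℝ g) (f p)).comp (fderiv ℝ f p))) p := by
    have h := ((ContDiffAt.diff_fderiv hg).hasFDerivAt.comp p (diff1 hf).hasFDerivAt).clm_apply
      (diff_fderiv_apply hf y).hasFDerivAt
    exact h
  rw [dd_of_hasFDerivAt (f' := fun q => (fderiv ℝ g (f q)).comp (fderiv ℝ f q)) ?_ h2 x]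
  · change fderiv ℝ g (f p) (dd f p x y)
      + fderiv ℝ (fderiv ℝ g) (f p) (fderiv ℝ f p x) (fderiv ℝ f p y) = _
    rw [dd_eq hg]
    abel
  · filter_upwards [diff_ev hf, hfc.eventually (diff_ev hg)] with q hq hq'
    exact hq'.hasFDerivAt.comp q hq.hasFDerivAt

end Pool.Agent.HS
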