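import Mathlib
import Pool.Agent.HS.Cay

/-!
# Composition in the Cayley chart of `SO(3)` (project HS, MP_55c470_gt)

`cayC c a` is the Rodrigues vector of the product `cayR c ∘ cayR a` (defined if `c · a ≠ 4`).
-/

namespace Pool.Agent.HS

open Matrix

/-- The denominator of the composition law. -/
noncomputable def cayD (c a : Fin 3 → ℝ) : ℝ := 1 - (c ⬝ᵥ a) / 4

/-- The Rodrigues vector of `cayR c ∘ cayR a`. -/
noncomputable def cayC (c a : Fin 3 → ℝ) : Fin 3 → ℝ :=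
  (cayD c a)⁻¹ • (c + a + (1 / 2 : ℝ) • (c ⨯₃ a))

theorem cayD_eq (c a : Fin 3 → ℝ) : cayD c a = 1 - (c 0 * a 0 + c 1 * a 1 + c 2 * a 2) / 4 := by
  rw [cayD, dotProduct, Fin.sum_univ_three]

theorem cayC_comp (c a : Fin 3 → ℝ) : cayC c a =
    ![(cayD c a)⁻¹ * (c 0 + a 0 + 1 / 2 * (c 1 * a 2 - c 2 * a 1)),
      (cayD c a)⁻¹ * (c 1 + a 1 + 1 / 2 * (c 2 * a 0 - c 0 * a 2)),
      (cayD c a)⁻¹ * (c 2 + a 2 + 1 / 2 * (c 0 * a 1 - c 1 * a 0))] := by
  rw [cayC, cross_apply]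
  ext i
  fin_cases i <;> simp only [Matrix.cons_val_zero, Matrix.cons_val_one, Matrix.cons_val,
    Fin.zero_eta, Fin.mk_one, Fin.reduceFinMk, Pi.add_apply, Pi.smul_apply, smul_eq_mul]

@[simp] theorem cayC_zero_left (a : Fin 3 → ℝ) : cayC 0 a = a := by
  rw [cayC, cayD]; simp

@[simp] theorem cayC_zero_right (c : Fin 3 → ℝ) : cayC c 0 = c := by
  rw [cayC, cayD]; simp

theorem cayN_cayC (c a : Fin 3 → ℝ) (h : cayD c a ≠ 0) :
    cayN (cayC c a) = cayN c * cayN a * ((cayD c a)⁻¹ * (cayD c a)⁻¹) := by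
  rw [cayN_eq (cayC c a), cayC_comp]
  simp only [Matrix.cons_val_zero, Matrix.cons_val_one, Matrix.cons_val]
  field_simp
  rw [cayN_eq, cayN_eq, cayD_eq]
  ring

theorem cayR_cayC (c a v : Fin 3 → ℝ) (h : cayD c a ≠ 0) :
    cayR (cayC c a) v = cayR c (cayR a v) := by
  have hc := cayN_ne c
  have ha := cayN_ne a
  rw [cayR_comp (cayC c a), cayN_cayC c a h, cayC_comp, cayR_comp c, cayR_comp a]
  ext i
  fin_cases i <;> simp only [Matrix.cons_val_zero, Matrix.cons_val_one, Matrix.cons_val,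
    Fin.zero_eta, Fin.mk_one, Fin.reduceFinMk] <;>
  · field_simp
    rw [cayN_eq, cayN_eq, cayD_eq]
    ring

/-- A vector is determined by its cross products. -/
theorem cross_left_injective {x y : Fin 3 → ℝ} (h : ∀ v : Fin 3 → ℝ, x ⨯₃ v = y ⨯₃ v) : x = y := by
  have h0 := h ![1, 0, 0]
  have h1 := h ![0, 1, 0]
  rw [cross_apply, cross_apply] at h0 h1
  have e1 := congrFun h0 1
  have e2 := congrFun h0 2
  have e3 := congrFun h1 0
  have e4 := congrFun h1 2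
  simp only [Matrix.cons_val_zero, Matrix.cons_val_one, Matrix.cons_val] at e1 e2 e3 e4
  ext i
  fin_cases i
  · simp only [Fin.zero_eta]; linarith
  · simp only [Fin.mk_one]; linarith
  · simp only [Fin.reduceFinMk]; linarith

theorem cayR_surj (a v : Fin 3 → ℝ) : ∃ w, cayR a w = v := by
  refine ⟨cayR (-a) v, ?_⟩
  have := cayR_neg (-a) v
  rwa [neg_neg] at this

theorem cayR_neg' (a v : Fin 3 → ℝ) : cayR a (cayR (-a) v) = v := by
  have := cayR_neg (-a) v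
  rwa [neg_neg] at this

theorem cayD_contDiff {n : WithTop ℕ∞} :
    ContDiff ℝ n (fun p : (Fin 3 → ℝ) × (Fin 3 → ℝ) => cayD p.1 p.2) := by
  have h : (fun p : (Fin 3 → ℝ) × (Fin 3 → ℝ) => cayD p.1 p.2) =
      fun p => 1 - (p.1 0 * p.2 0 + p.1 1 * p.2 1 + p.1 2 * p.2 2) / 4 :=
    funext fun p => cayD_eq p.1 p.2
  rw [h]
  fun_prop

theorem cayC_contDiffAt {n : WithTop ℕ∞} {p : (Fin 3 → ℝ) × (Fin 3 → ℝ)}
    (h : cayD p.1 p.2 ≠ 0) :
    ContDiffAt ℝ n (fun p : (Fin 3 → ℝ) × (Fin 3 → ℝ) => cayC p.1 p.2) p := by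
  have h1 : ContDiffAt ℝ n (fun p : (Fin 3 → ℝ) × (Fin 3 → ℝ) => (cayD p.1 p.2)⁻¹) p :=
    (cayD_contDiff.contDiffAt).inv h
  have h2 : ContDiff ℝ n (fun p : (Fin 3 → ℝ) × (Fin 3 → ℝ) =>
      p.1 + p.2 + (1 / 2 : ℝ) • (crossL p.1 p.2)) := by
    refine (contDiff_fst.add contDiff_snd).add (ContDiff.const_smul (1 / 2 : ℝ) ?_)
    exact (crossL.contDiff.comp contDiff_fst).clm_apply contDiff_snd
  exact h1.smul h2.contDiffAt

/-- Derivative of the composition law (in both variables): if `γ` has derivative `γ'` and `α`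
has derivative `α'` then the angular velocity of the composition is
`cayE (cayC γ α) (cayC γ α)' = cayE γ γ' + cayR γ (cayE α α')`. -/
theorem cayE_cayC_deriv {F : Type*} [NormedAddCommGroup F] [NormedSpace ℝ F]
    {γ α : F → (Fin 3 → ℝ)} {p : F} (hγ : DifferentiableAt ℝ γ p) (hα : DifferentiableAt ℝ α p)
    (h : cayD (γ p) (α p) ≠ 0) (x : F) :
    cayE (cayC (γ p) (α p)) (fderiv ℝ (fun q => cayC (γ q) (α q)) p x)
      = cayE (γ p) (fderiv ℝ γ p x) + cayR (γ p) (cayE (α p) (fderiv ℝ α p x)) := by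
  refine cross_left_injective fun v' => ?_
  obtain ⟨w, hw⟩ := cayR_surj (γ p) v'
  obtain ⟨v, hv⟩ := cayR_surj (α p) w
  have hC : DifferentiableAt ℝ (fun q => cayC (γ q) (α q)) p := by
    have h1 : DifferentiableAt ℝ (fun p : (Fin 3 → ℝ) × (Fin 3 → ℝ) => cayC p.1 p.2)
        (γ p, α p) := (cayC_contDiffAt (n := 1) (p := (γ p, α p)) h).differentiableAt (by norm_num)
    exact h1.comp p (hγ.prodMk hα)
  -- left side
  have hL : HasFDerivAt (fun q => cayR (cayC (γ q) (α q)) v)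
      (((crossL.flip (cayR (cayC (γ p) (α p)) v)).comp (cayE (cayC (γ p) (α p)))).comp
        (fderiv ℝ (fun q => cayC (γ q) (α q)) p)) p :=
    HasFDerivAt.comp (g := fun a => cayR a v) (f := fun q => cayC (γ q) (α q)) p
      (cayR_hasFDerivAt (cayC (γ p) (α p)) v) hC.hasFDerivAt
  -- right side
  have hA : HasFDerivAt (fun q => cayR (α q) v)
      (((crossL.flip (cayR (α p) v)).comp (cayE (α p))).comp (fderiv ℝ α p)) p :=
    (cayR_hasFDerivAt (α p) v).comp p hα.hasFDerivAt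
  have hRd : HasFDerivAt (fun q => cayR (γ q)) ((fderiv ℝ cayR (γ p)).comp (fderiv ℝ γ p)) p :=
    (((cayR_contDiff (n := 1)).differentiable (by norm_num)) (γ p)).hasFDerivAt.comp p
      hγ.hasFDerivAt
  have hR := hRd.clm_apply hA
  have hev : (fun q => cayR (cayC (γ q) (α q)) v) =ᶠ[nhds p]
      fun q => cayR (γ q) (cayR (α q) v) := by
    have hcont : ContinuousAt (fun q => cayD (γ q) (α q)) p := by
      have h1 : ContinuousAt (fun p : (Fin 3 → ℝ) × (Fin 3 → ℝ) => cayD p.1 p.2) (γ p, α p) :=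
        (cayD_contDiff (n := 0)).continuous.continuousAt
      exact ContinuousAt.comp (f := fun q => (γ q, α q)) h1
        (hγ.continuousAt.prodMk hα.continuousAt)
    filter_upwards [hcont.eventually_ne h] with q hq
    exact cayR_cayC _ _ _ hq
  have hR' := hR.congr_of_eventuallyEq hev
  have huniq := hL.unique hR'
  have e := DFunLike.congr_fun huniq x
  simp only [ContinuousLinearMap.comp_apply, ContinuousLinearMap.flip_apply, _root_.add_apply,
    crossL_apply] at e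
  rw [cayR_cayC _ _ _ h, hv, hw] at e
  rw [e]
  have e2 : (fderiv ℝ cayR (γ p)) (fderiv ℝ γ p x) w
      = cayE (γ p) (fderiv ℝ γ p x) ⨯₃ v' := by
    have h3 := cayR_fderiv (γ p) (fderiv ℝ γ p x) w
    rw [hw] at h3
    rw [← h3]
    have h4 : HasFDerivAt (fun a => cayR a w)
        ((fderiv ℝ cayR (γ p)).flip w) (γ p) := by
      have h5 := (((cayR_contDiff (n := 1)).differentiable (by norm_num)) (γ p)).hasFDerivAt.clm_apply
        (hasFDerivAt_const w (γ p))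
      refine h5.congr_fderiv ?_
      ext1 b
      simp
    rw [h4.fderiv]
    rfl
  rw [e2, cayR_cross, hw]
  simp only [map_add, LinearMap.add_apply]
  abel

/-- Angular velocity in the body frame. -/
theorem cayR_neg_cayE (a b : Fin 3 → ℝ) : cayR (-a) (cayE a b) = cayE (-a) b := by
  have hN := cayN_ne a
  rw [cayR_comp (-a), cayN_neg, cayE_comp (-a), cayN_neg, cayE_comp a]
  ext i
  fin_cases i <;> simp only [Matrix.cons_val_zero, Matrix.cons_val_one, Matrix.cons_val,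
    Fin.zero_eta, Fin.mk_one, Fin.reduceFinMk, Pi.neg_apply] <;>
  · field_simp
    rw [cayN_eq]
    ring

theorem cayR_cayE_neg (a b : Fin 3 → ℝ) : cayR a (cayE (-a) b) = cayE a b := by
  have := cayR_neg_cayE (-a) b
  rwa [neg_neg] at this

/-- The map `(a, w) ↦ (cayR a)⁻¹ w` and its derivative
`(b, c) ↦ (cayR a)⁻¹ (c - cayE a b × w)`. -/
theorem cayR_neg_hasFDerivAt (a w : Fin 3 → ℝ) :
    HasFDerivAt (fun p : (Fin 3 → ℝ) × (Fin 3 → ℝ) => cayR (-p.1) p.2)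
      ((cayR (-a)).comp (ContinuousLinearMap.snd ℝ (Fin 3 → ℝ) (Fin 3 → ℝ)
        - (crossL.flip w).comp ((cayE a).comp
          (ContinuousLinearMap.fst ℝ (Fin 3 → ℝ) (Fin 3 → ℝ))))) (a, w) := by
  have h1 : HasFDerivAt (fun p : (Fin 3 → ℝ) × (Fin 3 → ℝ) => cayR (-p.1))
      ((fderiv ℝ cayR (-a)).comp (-(ContinuousLinearMap.fst ℝ (Fin 3 → ℝ) (Fin 3 → ℝ)))) (a, w) := by
    have h2 : HasFDerivAt (fun p : (Fin 3 → ℝ) × (Fin 3 → ℝ) => -p.1)
        (-(ContinuousLinearMap.fst ℝ (Fin 3 → ℝ) (Fin 3 → ℝ))) (a, w) :=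
      (ContinuousLinearMap.fst ℝ (Fin 3 → ℝ) (Fin 3 → ℝ)).hasFDerivAt.neg
    exact HasFDerivAt.comp (g := cayR) (f := fun p : (Fin 3 → ℝ) × (Fin 3 → ℝ) => -p.1) (a, w)
      (((cayR_contDiff (n := 1)).differentiable (by norm_num)) (-a)).hasFDerivAt h2
  have h3 : HasFDerivAt (fun p : (Fin 3 → ℝ) × (Fin 3 → ℝ) => p.2)
      (ContinuousLinearMap.snd ℝ (Fin 3 → ℝ) (Fin 3 → ℝ)) (a, w) :=
    (ContinuousLinearMap.snd ℝ (Fin 3 → ℝ) (Fin 3 → ℝ)).hasFDerivAt
  refine (h1.clm_apply h3).congr_fderiv ?_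
  have hfd : ∀ (c b v : Fin 3 → ℝ), (fderiv ℝ cayR c) b v = cayE c b ⨯₃ cayR c v := by
    intro c b v
    rw [← cayR_fderiv c b v]
    have h4 : HasFDerivAt (fun a => cayR a v) ((fderiv ℝ cayR c).flip v) c := by
      have h5 := (((cayR_contDiff (n := 1)).differentiable (by norm_num)) c).hasFDerivAt.clm_apply
        (hasFDerivAt_const v c)
      refine h5.congr_fderiv ?_
      ext1 b
      simp
    rw [h4.fderiv]
    rfl
  refine ContinuousLinearMap.ext fun q => ?_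
  obtain ⟨b, c⟩ := q
  have e1 : ((fderiv ℝ cayR (-a)).comp
      (-(ContinuousLinearMap.fst ℝ (Fin 3 → ℝ) (Fin 3 → ℝ)))).flip w (b, c)
      = (fderiv ℝ cayR (-a)) (-b) w := rfl
  have e2 : ((cayR (-a)).comp (ContinuousLinearMap.snd ℝ (Fin 3 → ℝ) (Fin 3 → ℝ)
        - (crossL.flip w).comp ((cayE a).comp
          (ContinuousLinearMap.fst ℝ (Fin 3 → ℝ) (Fin 3 → ℝ))))) (b, c)
      = cayR (-a) (c - cayE a b ⨯₃ w) := rfl
  rw [_root_.add_apply, e1, e2, hfd, map_neg, ← cayR_neg_cayE, map_sub, cayR_cross]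
  simp only [ContinuousLinearMap.comp_apply, ContinuousLinearMap.coe_snd', map_neg,
    LinearMap.neg_apply]
  abel

theorem fderiv_cayR_apply (c b v : Fin 3 → ℝ) :
    (fderiv ℝ cayR c) b v = cayE c b ⨯₃ cayR c v := by
  rw [← cayR_fderiv c b v]
  have h4 : HasFDerivAt (fun a => cayR a v) ((fderiv ℝ cayR c).flip v) c := by
    have h5 := (((cayR_contDiff (n := 1)).differentiable (by norm_num)) c).hasFDerivAt.clm_apply
      (hasFDerivAt_const v c)
    refine h5.congr_fderiv ?_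
    ext1 b
    simp
  rw [h4.fderiv]
  rfl

/-- The second derivative of `cayE` at `0`. -/
theorem cayE_fderiv2_zero (b b' c : Fin 3 → ℝ) :
    fderiv ℝ (fun a => fderiv ℝ (fun a => cayE a c) a b) 0 b' = (-((b ⬝ᵥ b') / 2)) • c := by
  have h : (fun a => fderiv ℝ (fun a => cayE a c) a b) = fun a =>
      (cayN a)⁻¹ • ((1 / 2 : ℝ) • (b ⨯₃ c)) +
        (-((cayN a)⁻¹ * (cayN a)⁻¹ * ((a ⬝ᵥ b) / 2))) • (c + (1 / 2 : ℝ) • (a ⨯₃ c)) := by
    funext a
    rw [(cayE_hasFDerivAt a c).fderiv]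
    simp only [_root_.add_apply, _root_.smul_apply, ContinuousLinearMap.smulRight_apply,
      ContinuousLinearMap.flip_apply, cayN_inv_fderiv, crossL_apply]
  rw [h]
  have hI : HasFDerivAt (fun a => (cayN a)⁻¹) (0 : (Fin 3 → ℝ) →L[ℝ] ℝ) 0 := by
    have h0 := cayN_inv_hasFDerivAt 0
    refine h0.congr_fderiv ?_
    ext1 x
    rw [cayN_inv_fderiv]
    simp
  have hdot : HasFDerivAt (fun a : Fin 3 → ℝ => a ⬝ᵥ b)
      (b 0 • ContinuousLinearMap.proj (R := ℝ) (φ := fun _ : Fin 3 => ℝ) 0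
      + b 1 • ContinuousLinearMap.proj (R := ℝ) (φ := fun _ : Fin 3 => ℝ) 1
      + b 2 • ContinuousLinearMap.proj (R := ℝ) (φ := fun _ : Fin 3 => ℝ) 2) 0 := by
    have hf : (fun a : Fin 3 → ℝ => a ⬝ᵥ b) = fun a =>
        (b 0 • ContinuousLinearMap.proj (R := ℝ) (φ := fun _ : Fin 3 => ℝ) 0
        + b 1 • ContinuousLinearMap.proj (R := ℝ) (φ := fun _ : Fin 3 => ℝ) 1
        + b 2 • ContinuousLinearMap.proj (R := ℝ) (φ := fun _ : Fin 3 => ℝ) 2) a := by
      funext a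
      rw [dotProduct, Fin.sum_univ_three]
      simp [smul_eq_mul]
      ring
    rw [hf]
    exact ContinuousLinearMap.hasFDerivAt _
  have h1 := (hI.smul (hasFDerivAt_const ((1 / 2 : ℝ) • (b ⨯₃ c)) (0 : Fin 3 → ℝ)))
  have h2 := ((hI.mul hI).mul (hdot.mul_const (1 / 2 : ℝ))).neg
  have h3 : HasFDerivAt (fun a : Fin 3 → ℝ => c + (1 / 2 : ℝ) • (a ⨯₃ c))
      ((1 / 2 : ℝ) • crossL.flip c) 0 :=
    HasFDerivAt.const_add c (HasFDerivAt.const_smul (crossL.flip c).hasFDerivAt (1 / 2 : ℝ))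
  have h4 := h1.add (h2.smul h3)
  have h5 : HasFDerivAt (fun a => (cayN a)⁻¹ • ((1 / 2 : ℝ) • (b ⨯₃ c)) +
        (-((cayN a)⁻¹ * (cayN a)⁻¹ * ((a ⬝ᵥ b) / 2))) • (c + (1 / 2 : ℝ) • (a ⨯₃ c)))
      (((-(1 / 2 : ℝ)) • (b 0 • ContinuousLinearMap.proj (R := ℝ) (φ := fun _ : Fin 3 => ℝ) 0
      + b 1 • ContinuousLinearMap.proj (R := ℝ) (φ := fun _ : Fin 3 => ℝ) 1
      + b 2 • ContinuousLinearMap.proj (R := ℝ) (φ := fun _ : Fin 3 => ℝ) 2)).smulRight c) 0 := by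
    refine (h4.congr_fderiv ?_).congr_of_eventuallyEq ?_
    · ext1 x
      simp [smul_eq_mul]
      congr 1
      ring
    · refine Filter.Eventually.of_forall fun a => ?_
      simp only [Pi.add_apply, Pi.mul_apply, Pi.neg_apply, Pi.smul_apply']
      ring_nf
  rw [h5.fderiv]
  simp only [ContinuousLinearMap.smulRight_apply]
  congr 1
  rw [dotProduct, Fin.sum_univ_three]
  simp [smul_eq_mul]
  ring

end Pool.Agent.HS
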