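import Pool.Agent.HS.Defs

set_option maxSynthPendingDepth 3

/-!
# The coordinate expression of a Riemannian metric on a manifold (project HS, MP_55c470)

`chartMetric g p` is the metric `g` read in the preferred chart `extChartAt I p`: a function on the
model space with values in the continuous bilinear forms.
-/

open Bundle Manifold Set Filter ContinuousLinearMap
open scoped Manifold ContDiff Topology

noncomputable section

namespace Pool.Agent.HS

variable {E : Type*} [NormedAddCommGroup E] [NormedSpace ℝ E]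
  {H : Type*} [TopologicalSpace H] {I : ModelWithCorners ℝ E H}
  {M : Type*} [TopologicalSpace M] [ChartedSpace H M]

/-- The metric `g` read in the preferred chart at `p`. -/
def chartMetric (g : (x : M) → TangentSpace I x →L[ℝ] TangentSpace I x →L[ℝ] ℝ) (p : M) (u : E) :
    E →L[ℝ] E →L[ℝ] ℝ :=
  (show E →L[ℝ] E →L[ℝ] ℝ from g ((extChartAt I p).symm u)).bilinearComp
    (show E →L[ℝ] E from mfderiv 𝓘(ℝ, E) I (extChartAt I p).symm u)
    (show E →L[ℝ] E from mfderiv 𝓘(ℝ, E) I (extChartAt I p).symm u)

theorem chartMetric_apply (g : (x : M) → TangentSpace I x →L[ℝ] TangentSpace I x →L[ℝ] ℝ)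
    (p : M) (u a b : E) :
    chartMetric g p u a b = g ((extChartAt I p).symm u)
      (mfderiv 𝓘(ℝ, E) I (extChartAt I p).symm u a)
      (mfderiv 𝓘(ℝ, E) I (extChartAt I p).symm u b) := rfl

set_option backward.isDefEq.respectTransparency false in
/-- The coordinate expression of a smooth metric is smooth near the center of the chart. -/
theorem contDiffAt_chartMetric [IsManifold I ∞ M] [I.Boundaryless]
    {g : (x : M) → TangentSpace I x →L[ℝ] TangentSpace I x →L[ℝ] ℝ}
    (hg : ContMDiff I (I.prod 𝓘(ℝ, E →L[ℝ] E →L[ℝ] ℝ)) ∞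
      (fun b ↦ TotalSpace.mk' (E →L[ℝ] E →L[ℝ] ℝ) (E := fun x : M ↦
        TangentSpace I x →L[ℝ] TangentSpace I x →L[ℝ] ℝ) b (g b))) (p : M) :
    ContDiffAt ℝ ∞ (chartMetric g p) (extChartAt I p p) := by
  have h1 := hg p
  rw [contMDiffAt_hom_bundle] at h1
  have h2 := h1.2
  have h3 : ContMDiffAt 𝓘(ℝ, E) I ∞ (extChartAt I p).symm (extChartAt I p p) :=
    (contMDiffOn_extChartAt_symm p).contMDiffAt (extChartAt_target_mem_nhds p)
  have h4 : ContMDiffAt 𝓘(ℝ, E) 𝓘(ℝ, E →L[ℝ] E →L[ℝ] ℝ) ∞
      (fun u : E ↦ inCoordinates E (TangentSpace I) (E →L[ℝ] ℝ)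
        (fun x : M ↦ TangentSpace I x →L[ℝ] ℝ) p ((extChartAt I p).symm u) p
        ((extChartAt I p).symm u) (g ((extChartAt I p).symm u))) (extChartAt I p p) := by
    refine ContMDiffAt.comp (I' := I) (extChartAt I p p)
      (g := fun x : M ↦ inCoordinates E (TangentSpace I) (E →L[ℝ] ℝ)
        (fun x : M ↦ TangentSpace I x →L[ℝ] ℝ) p x p x (g x)) ?_ h3
    rw [extChartAt_to_inv]
    exact h2
  refine h4.contDiffAt.congr_of_eventuallyEq ?_
  filter_upwards [extChartAt_target_mem_nhds (I := I) p] with u hu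
  have hx : (extChartAt I p).symm u ∈ (chartAt H p).source := by
    rw [← extChartAt_source I p]
    exact (extChartAt I p).map_target hu
  ext a b
  have hxb : (extChartAt I p).symm u ∈ (trivializationAt E (TangentSpace I) p).baseSet := by
    simpa using hx
  rw [inCoordinates_apply_eq₂ hxb hxb (Set.mem_univ _)]
  have hsym := TangentBundle.symmL_trivializationAt (I := I) hx
  rw [(extChartAt I p).right_inv hu] at hsym
  have hr : mfderivWithin 𝓘(ℝ, E) I (extChartAt I p).symm (range I) u
      = mfderiv 𝓘(ℝ, E) I (extChartAt I p).symm u := by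
    rw [I.range_eq_univ, mfderivWithin_univ]
  rw [hr] at hsym
  have ha : (trivializationAt E (TangentSpace I) p).symm ((extChartAt I p).symm u) a =
      mfderiv 𝓘(ℝ, E) I (extChartAt I p).symm u a := by
    rw [← hsym]
    exact (Trivialization.symmL_apply (R := ℝ) _ hxb a).symm
  have hb : (trivializationAt E (TangentSpace I) p).symm ((extChartAt I p).symm u) b =
      mfderiv 𝓘(ℝ, E) I (extChartAt I p).symm u b := by
    rw [← hsym]
    exact (Trivialization.symmL_apply (R := ℝ) _ hxb b).symm
  rw [ha, hb, chartMetric_apply]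
  simp only [Trivial.fiberBundle_trivializationAt', Trivial.linearMapAt_trivialization,
    LinearMap.id_coe, id_eq]

end Pool.Agent.HS
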