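import Pool.Agent.HS.CoordSk
import Pool.Agent.HS.Cay2

/-!
# Block COORD: combination of the local blocks
-/

set_option maxSynthPendingDepth 3

namespace Pool.Agent.HS

open Matrix Topology Filter Set

section general

variable {E F F' : Type*} [NormedAddCommGroup E] [NormedSpace ℝ E] [NormedAddCommGroup F]
  [NormedSpace ℝ F] [NormedAddCommGroup F'] [NormedSpace ℝ F']

theorem NonnegAt.congr {G G' : E → E →L[ℝ] E →L[ℝ] ℝ} {p : E} (h : NonnegAt G p)
    (hG : G =ᶠ[𝓝 p] G') : NonnegAt G' p := by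
  intro x y
  rw [← Rm_congr hG]
  exact h x y

theorem PosAt.congr {G G' : E → E →L[ℝ] E →L[ℝ] ℝ} {p : E} (h : PosAt G p)
    (hG : G =ᶠ[𝓝 p] G') : PosAt G' p := by
  intro x y hxy
  rw [← Rm_congr hG]
  exact h x y hxy

theorem pull_comp_eq (G : F' → F' →L[ℝ] F' →L[ℝ] ℝ) {f : F → F'} {g : E → F} {p : E}
    (hf : DifferentiableAt ℝ f (g p)) (hg : DifferentiableAt ℝ g p) :
    pull G (fun q => f (g q)) p = pull (pull G f) g p := by
  ext x y
  rw [pull_apply, pull_apply, pull_apply]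
  have h : fderiv ℝ (fun q => f (g q)) p = (fderiv ℝ f (g p)).comp (fderiv ℝ g p) :=
    (hf.hasFDerivAt.comp p hg.hasFDerivAt).fderiv
  rw [h]
  rfl

/-- A family of continuous linear maps is smooth at a point if all its applications are. -/
theorem contDiffAt_clm_of_apply {n : WithTop ℕ∞} {f : F' → E →L[ℝ] F} {x : F'}
    [FiniteDimensional ℝ E] (h : ∀ y, ContDiffAt ℝ n (fun x => f x y) x) :
    ContDiffAt ℝ n f x := by
  let d := Module.finrank ℝ E
  have hd : d = Module.finrank ℝ (Fin d → ℝ) := (Module.finrank_fin_fun ℝ).symm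
  let e₁ := ContinuousLinearEquiv.ofFinrankEq hd
  let e₂ := (e₁.arrowCongr (1 : F ≃L[ℝ] F)).trans (ContinuousLinearEquiv.piRing (Fin d))
  have h1 : ContDiffAt ℝ n (e₂ ∘ f) x := contDiffAt_pi.mpr fun i => h _
  have h2 : f = e₂.symm ∘ (e₂ ∘ f) := by
    funext y; simp
  rw [h2]
  exact e₂.symm.contDiff.contDiffAt.comp x h1

end general

/-! ### positivity of `qk` -/

theorem qk_apply {B : Type*} (r : ℝ) (κ : B → M33) (u : B) (ξ : V3) :
    qk r κ u ξ = (r ^ 2) • (((1 : M33) - (r ^ 2 / 3) • κ u) *ᵥ ξ) := by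
  change ((r ^ 2) • ((1 : M33) - (r ^ 2 / 3) • κ u)) *ᵥ ξ = _
  rw [smul_mulVec]

theorem qk_dot {B : Type*} (r : ℝ) (κ : B → M33) (u : B) (ξ η : V3) :
    η ⬝ᵥ qk r κ u ξ = r ^ 2 * bf (1 - (r ^ 2 / 3) • κ u) η ξ := by
  rw [qk_apply, dotProduct_smul, smul_eq_mul, bf]

theorem coord_isPosOp_qk {B : Type*} {r : ℝ} (hr : 0 < r) {κ : B → M33} {u : B} (hs : (κ u).IsSymm)
    (hp : ∀ v : V3, v ≠ 0 → 0 < bf (1 - (r ^ 2 / 3) • κ u) v v) : IsPosOp (qk r κ u) := by
  refine ⟨fun a b => ?_, fun a ha => ?_⟩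
  · rw [qk_dot, qk_dot, bf, bf]
    have hsym : ((1 : M33) - (r ^ 2 / 3) • κ u)ᵀ = 1 - (r ^ 2 / 3) • κ u := by
      rw [transpose_sub, transpose_one, transpose_smul, hs.eq]
    rw [dotProduct_mulVec, dotProduct_comm, ← mulVec_transpose, hsym]
  · rw [qk_dot]
    have := hp a ha
    positivity

theorem cayR_adj (a u v : V3) : cayR a u ⬝ᵥ v = u ⬝ᵥ cayR (-a) v := by
  have h := cayR_dot a u (cayR (-a) v)
  rwa [cayR_neg'] at h

theorem IsPosOp.gauge {q : V3 →L[ℝ] V3} (hq : IsPosOp q) (a : V3) :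
    IsPosOp ((cayR (-a)).comp (q.comp (cayR a))) := by
  have key : ∀ u v : V3, u ⬝ᵥ ((cayR (-a)).comp (q.comp (cayR a))) v
      = cayR a u ⬝ᵥ q (cayR a v) := by
    intro u v
    change u ⬝ᵥ cayR (-a) (q (cayR a v)) = _
    rw [cayR_adj]
  refine ⟨fun u v => ?_, fun u hu => ?_⟩
  · rw [key, key, hq.symm]
  · rw [key]
    refine hq.pos _ (fun h0 => hu ?_)
    rw [← cayR_neg a u, h0, map_zero]

theorem contDiffAt_qk {κ : V2 → M33} {u : V2} (r : ℝ) {n : WithTop ℕ∞}
    (h : ∀ a b, ContDiffAt ℝ n (fun u => κ u a b) u) : ContDiffAt ℝ n (qk r κ) u := by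
  have h1 : ∀ ξ : V3, ContDiffAt ℝ n (fun u => qk r κ u ξ) u := by
    intro ξ
    have h2 : (fun u => qk r κ u ξ) = fun u => (r ^ 2) • (ξ - (r ^ 2 / 3) • (κ u *ᵥ ξ)) := by
      funext u
      rw [qk_apply, sub_mulVec, one_mulVec, smul_mulVec]
    rw [h2]
    refine ContDiffAt.const_smul _ (contDiffAt_const.sub (ContDiffAt.const_smul _ ?_))
    refine contDiffAt_pi.2 (fun i => ?_)
    simp only [mulVec, dotProduct]
    exact ContDiffAt.sum (fun j _ => (h i j).mul contDiffAt_const)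
  exact contDiffAt_clm_of_apply h1


/-! ### the rotation part -/

theorem contDiffAt_rot {n : WithTop ℕ∞} {E : Type*} [NormedAddCommGroup E] [NormedSpace ℝ E]
    {b w : E → V3} {p : E} (hb : ContDiffAt ℝ n b p) (hw : ContDiffAt ℝ n w p) :
    ContDiffAt ℝ n (fun p => cayR (b p) (w p)) p :=
  (cayR_contDiff.contDiffAt.comp p hb).clm_apply hw

/-- derivative of a rotation applied to a vector, at a point where the angle vanishes -/
theorem fderiv_rot {E : Type*} [NormedAddCommGroup E] [NormedSpace ℝ E]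
    {b w : E → V3} {p : E} (hb : DifferentiableAt ℝ b p) (hw : DifferentiableAt ℝ w p)
    (h0 : b p = 0) (v : E) :
    fderiv ℝ (fun p => cayR (b p) (w p)) p v = fderiv ℝ b p v ⨯₃ w p + fderiv ℝ w p v := by
  have h1 : HasFDerivAt (fun p => cayR (b p)) ((fderiv ℝ cayR (b p)).comp (fderiv ℝ b p)) p :=
    ((cayR_contDiff (n := 1)).differentiable (by norm_num) (b p)).hasFDerivAt.comp p hb.hasFDerivAt
  have h2 := h1.clm_apply hw.hasFDerivAt
  rw [h2.fderiv]
  change cayR (b p) (fderiv ℝ w p v) + (fderiv ℝ cayR (b p) (fderiv ℝ b p v)) (w p) = _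
  rw [fderiv_cayR_apply, h0, cayR_zero, cayR_zero, cayE_zero, add_comm]

/-- two independent vectors orthogonal to a unit vector -/
theorem exists_perp (z : V3) (hz : z ⬝ᵥ z = 1) :
    ∃ a b : V3, a ⬝ᵥ z = 0 ∧ b ⬝ᵥ z = 0 ∧ ∀ s t : ℝ, s • a + t • b = 0 → s = 0 ∧ t = 0 := by
  have hz' : z 0 * z 0 + z 1 * z 1 + z 2 * z 2 = 1 := by
    simpa [dotProduct, Fin.sum_univ_three] using hz
  have key : ∀ a b : V3, (∀ s t : ℝ, s • a + t • b = 0 →
      s * a 0 + t * b 0 = 0 ∧ s * a 1 + t * b 1 = 0 ∧ s * a 2 + t * b 2 = 0) := by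
    intro a b s t h
    exact ⟨by simpa using congrFun h 0, by simpa using congrFun h 1, by simpa using congrFun h 2⟩
  by_cases h0 : z 0 = 0
  · by_cases h1 : z 1 = 0
    · have h2 : z 2 ≠ 0 := by
        intro h2
        rw [h0, h1, h2] at hz'
        norm_num at hz'
      refine ⟨![z 2, 0, -z 0], ![0, z 2, -z 1], ?_, ?_, ?_⟩
      · simp [dotProduct, Fin.sum_univ_three]; ring
      · simp [dotProduct, Fin.sum_univ_three]; ring
      · intro s t h
        obtain ⟨k0, k1, k2⟩ := key _ _ s t h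
        simp at k0 k1
        exact ⟨k0.resolve_right h2, k1.resolve_right h2⟩
    · refine ⟨![z 1, -z 0, 0], ![0, -z 2, z 1], ?_, ?_, ?_⟩
      · simp [dotProduct, Fin.sum_univ_three]; ring
      · simp [dotProduct, Fin.sum_univ_three]; ring
      · intro s t h
        obtain ⟨k0, k1, k2⟩ := key _ _ s t h
        simp at k0 k2
        exact ⟨k0.resolve_right h1, k2.resolve_right h1⟩
  · refine ⟨![-z 1, z 0, 0], ![-z 2, 0, z 0], ?_, ?_, ?_⟩
    · simp [dotProduct, Fin.sum_univ_three]; ring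
    · simp [dotProduct, Fin.sum_univ_three]; ring
    · intro s t h
      obtain ⟨k0, k1, k2⟩ := key _ _ s t h
      simp at k1 k2
      exact ⟨k1.resolve_right h0, k2.resolve_right h0⟩

/-- a smooth parametrisation of the unit sphere near a point -/
theorem exists_zeta (z0 : V3) (hz : z0 ⬝ᵥ z0 = 1) :
    ∃ ζ : V2 → V3, (∀ n : WithTop ℕ∞, ContDiff ℝ n ζ) ∧ (∀ v, ζ v ⬝ᵥ ζ v = 1) ∧ ζ 0 = z0 ∧
      Function.Injective (fderiv ℝ ζ 0) := by
  obtain ⟨a, b, ha, hb, hab⟩ := exists_perp z0 hz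
  let m : V2 →L[ℝ] V3 := LinearMap.toContinuousLinearMap
    { toFun := fun v => v 0 • a + v 1 • b
      map_add' := by
        intro x y
        simp only [Pi.add_apply, add_smul]
        abel
      map_smul' := by
        intro c x
        simp only [Pi.smul_apply, smul_eq_mul, RingHom.id_apply, smul_add, mul_smul] }
  have hm : ∀ v, m v = v 0 • a + v 1 • b := fun v => rfl
  refine ⟨fun v => cayR (m v) z0, ?_, ?_, ?_, ?_⟩
  · intro n
    exact (cayR_contDiff.comp m.contDiff).clm_apply contDiff_const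
  · intro v
    rw [cayR_dot, hz]
  · change cayR (m 0) z0 = z0
    rw [map_zero, cayR_zero]
  · have hd : ∀ v, fderiv ℝ (fun v => cayR (m v) z0) 0 v = m v ⨯₃ z0 := by
      intro v
      have h := fderiv_rot (b := fun v => m v) (w := fun _ : V2 => z0) (p := 0)
        m.differentiableAt (differentiableAt_const _) (map_zero m) v
      rw [h]
      simp
    intro v v' hvv
    rw [hd, hd] at hvv
    have h1 : m (v - v') ⨯₃ z0 = 0 := by
      rw [map_sub, map_sub, LinearMap.sub_apply, hvv, sub_self]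
    have h2 : m (v - v') ⬝ᵥ z0 = 0 := by
      rw [hm, add_dotProduct, smul_dotProduct, smul_dotProduct, ha, hb]; simp
    have h3 : m (v - v') = 0 := by
      have h4 := cross_dot_cross (m (v - v')) z0 (m (v - v')) z0
      rw [h1, zero_dotProduct, hz, h2, dotProduct_comm z0 (m (v - v')), h2] at h4
      have h5 : m (v - v') ⬝ᵥ m (v - v') = 0 := by linarith
      exact dotProduct_self_eq_zero.1 h5
    obtain ⟨k0, k1⟩ := hab _ _ ((hm _).symm.trans h3)
    ext i
    fin_cases i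
    · simpa [sub_eq_zero] using k0
    · simpa [sub_eq_zero] using k1

/-! ### the combination -/

/-- near `0` the operators `qk r κ` of an adapted datum are symmetric and positive -/
theorem goodData_of_link {hB' : V3 → V3 →L[ℝ] V3 →L[ℝ] ℝ} {cA' : V3 → V3 →L[ℝ] V3}
    {kM : V3 → M33} {𝒦 : Set PD} {y0 : V3} {Y b : V2 → V3} {κ : V2 → M33} {D : PD}
    (hl : LinkAt hB' cA' kM 𝒦 y0 Y b κ D) {r : ℝ}
    (hq : ∀ y : V3, y ⬝ᵥ y = 1 → IsPosOp (qk r kM y)) :
    GoodData (pull hB' Y) (gA cA' Y b) (qk r κ) where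
  h_smooth := hl.adapted.h_smooth
  A_smooth := hl.adapted.A_smooth
  q_smooth := by
    have h : ∀ᶠ u in 𝓝 (0 : V2), ∀ a b, ContDiffAt ℝ (⊤ : ℕ∞) (fun u => κ u a b) u := by
      rw [eventually_all]
      intro a
      rw [eventually_all]
      intro b
      exact hl.adapted.κ_smooth a b
    filter_upwards [h] with u hu
    exact contDiffAt_qk r hu
  h_inner := hl.adapted.h_inner
  q_pos := by
    filter_upwards [hl.kappa r, hl.Y_unit] with u hu hY
    rw [hu]
    exact (hq (Y u) hY).gauge (b u)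


/-- The rotation map `(u, w) ↦ (Y u, R(b u) w)`. -/
theorem phi_facts {Y b : V2 → V3} {y0 : V3} (hY : ∀ᶠ u in 𝓝 (0 : V2), ContDiffAt ℝ (⊤ : ℕ∞) Y u)
    (hb : ∀ᶠ u in 𝓝 (0 : V2), ContDiffAt ℝ (⊤ : ℕ∞) b u) (hY0 : Y 0 = y0) (hb0 : b 0 = 0)
    (hYi : Function.Injective (fderiv ℝ Y 0)) {F : Type*} [NormedAddCommGroup F]
    [NormedSpace ℝ F] {ω : F → V3} {v0 : F} (hω : ∀ᶠ v in 𝓝 v0, ContDiffAt ℝ (⊤ : ℕ∞) ω v)
    (hωi : Function.Injective (fderiv ℝ ω v0)) :
    (∀ᶠ p in 𝓝 ((0 : V2), v0), ContDiffAt ℝ (⊤ : ℕ∞) (fun p : V2 × F =>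
      (Y p.1, cayR (b p.1) (ω p.2))) p) ∧
    (fun p : V2 × F => (Y p.1, cayR (b p.1) (ω p.2))) (0, v0) = (y0, ω v0) ∧
    Function.Injective (fderiv ℝ (fun p : V2 × F => (Y p.1, cayR (b p.1) (ω p.2))) (0, v0)) := by
  have t1 : Tendsto (fun p : V2 × F => p.1) (𝓝 ((0 : V2), v0)) (𝓝 0) := continuous_fst.tendsto _
  have t2 : Tendsto (fun p : V2 × F => p.2) (𝓝 ((0 : V2), v0)) (𝓝 v0) := continuous_snd.tendsto _
  refine ⟨?_, ?_, ?_⟩
  · filter_upwards [t1.eventually hY, t1.eventually hb, t2.eventually hω] with p h1 h2 h3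
    exact (h1.comp p contDiffAt_fst).prodMk
      (contDiffAt_rot (h2.comp p contDiffAt_fst) (h3.comp p contDiffAt_snd))
  · simp only [hY0, hb0, cayR_zero]
  · have d1 : DifferentiableAt ℝ Y 0 := hY.self_of_nhds.differentiableAt (by simp)
    have d2 : DifferentiableAt ℝ b 0 := hb.self_of_nhds.differentiableAt (by simp)
    have d3 : DifferentiableAt ℝ ω v0 := hω.self_of_nhds.differentiableAt (by simp)
    have e1 : HasFDerivAt (fun p : V2 × F => Y p.1)
        ((fderiv ℝ Y 0).comp (ContinuousLinearMap.fst ℝ V2 F)) (0, v0) :=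
      HasFDerivAt.comp ((0 : V2), v0) (f := fun p : V2 × F => p.1) d1.hasFDerivAt hasFDerivAt_fst
    have e2 : HasFDerivAt (fun p : V2 × F => b p.1)
        ((fderiv ℝ b 0).comp (ContinuousLinearMap.fst ℝ V2 F)) (0, v0) :=
      HasFDerivAt.comp ((0 : V2), v0) (f := fun p : V2 × F => p.1) d2.hasFDerivAt hasFDerivAt_fst
    have e3 : HasFDerivAt (fun p : V2 × F => ω p.2)
        ((fderiv ℝ ω v0).comp (ContinuousLinearMap.snd ℝ V2 F)) (0, v0) :=
      HasFDerivAt.comp ((0 : V2), v0) (f := fun p : V2 × F => p.2) d3.hasFDerivAt hasFDerivAt_snd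
    have e4 : DifferentiableAt ℝ (fun p : V2 × F => cayR (b p.1) (ω p.2)) (0, v0) :=
      (contDiffAt_rot (n := 1) (p := ((0 : V2), v0))
        ((hb.self_of_nhds.of_le (by exact_mod_cast le_top)).comp ((0 : V2), v0) contDiffAt_fst)
        ((hω.self_of_nhds.of_le (by exact_mod_cast le_top)).comp ((0 : V2), v0)
          contDiffAt_snd)).differentiableAt (by norm_num)
    have hd : ∀ v, fderiv ℝ (fun p : V2 × F => (Y p.1, cayR (b p.1) (ω p.2))) (0, v0) v
        = (fderiv ℝ Y 0 v.1, fderiv ℝ b 0 v.1 ⨯₃ ω v0 + fderiv ℝ ω v0 v.2) := by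
      intro v
      rw [(e1.prodMk e4.hasFDerivAt).fderiv]
      have h5 := fderiv_rot (b := fun p : V2 × F => b p.1) (w := fun p : V2 × F => ω p.2)
        (p := ((0 : V2), v0)) e2.differentiableAt e3.differentiableAt hb0 v
      change (fderiv ℝ Y 0 v.1, fderiv ℝ (fun p : V2 × F => cayR (b p.1) (ω p.2)) (0, v0) v) = _
      rw [h5, e2.fderiv, e3.fderiv]
      rfl
    intro v v' h
    rw [hd, hd, Prod.mk.injEq] at h
    have h1 : v.1 = v'.1 := hYi h.1
    have h2 : v.2 = v'.2 := by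
      apply hωi
      have := h.2
      rw [h1] at this
      exact add_left_cancel this
    exact Prod.ext h1 h2

/-- **Block COORD.** -/
theorem coord_of_blocks (hM2 : M2Stmt) (hReg : RegGPStmt) (hLoce : LoceStmt)
    (hPolar : PolarStmt) (hPulle : PulleStmt) {hB' : V3 → V3 →L[ℝ] V3 →L[ℝ] ℝ}
    {cA' : V3 → V3 →L[ℝ] V3} {kM : V3 → M33} (hLink : LinkStmt hB' cA' kM) :
    ∃ r1 : ℝ, 0 < r1 ∧ ∀ r : ℝ, 0 < r → r ≤ r1 →
      (∀ y : V3, y ⬝ᵥ y = 1 → IsPosOp (qk r kM y)) ∧ CoordMain (GE hB' cA' (qk r kM)) := by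
  obtain ⟨𝒦, h𝒦, hG, hL⟩ := hLink
  obtain ⟨r1, hr1, h⟩ := posAt_of_GPos h𝒦 hG
  refine ⟨r1, hr1, fun r hr hrr => ?_⟩
  -- positivity of the ambient operator
  have hq : ∀ y : V3, y ⬝ᵥ y = 1 → IsPosOp (qk r kM y) := by
    intro y hy
    obtain ⟨Y, b, κ, D, hl⟩ := hL y hy
    have h1 : qk r κ 0 = qk r kM y := by
      rw [(hl.kappa r).self_of_nhds]
      unfold gq
      rw [hl.b_zero, hl.Y_zero]
      ext1 v
      change cayR (-0) (qk r kM y (cayR 0 v)) = _
      rw [neg_zero, cayR_zero, cayR_zero]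
    rw [← h1]
    refine coord_isPosOp_qk hr hl.adapted.κ_symm.self_of_nhds ?_
    rw [hl.adapted.κ0]
    exact (h r hr hrr D hl.mem).1
  refine ⟨hq, ?_⟩
  -- positivity of the principal bundle metric
  have hpos : ∀ {y0 : V3} {Y b : V2 → V3} {κ : V2 → M33} {D : PD},
      LinkAt hB' cA' kM 𝒦 y0 Y b κ D →
      PosAt (GP (pull hB' Y) (gA cA' Y b) (qk r κ)) (0, 0) := by
    intro y0 Y b κ D hl
    obtain ⟨hp, hS⟩ := h r hr hrr D hl.mem
    have hgood := goodData_of_link hl hq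
    obtain ⟨g1, g2, g3⟩ := hReg _ _ _ hgood
    obtain ⟨S, hS1⟩ : ∃ S : M33, (1 - (r ^ 2 / 3) • D.κ) * S = 1 := by
      have hinj : Function.Injective ((1 : M33) - (r ^ 2 / 3) • D.κ).mulVec := by
        intro u v huv
        by_contra hne
        have h0 : u - v ≠ 0 := sub_ne_zero.2 hne
        have h1 := hp _ h0
        rw [bf, mulVec_sub, huv, sub_self, dotProduct_zero] at h1
        exact lt_irrefl _ h1
      have hu : IsUnit ((1 : M33) - (r ^ 2 / 3) • D.κ) := mulVec_injective_iff_isUnit.1 hinj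
      obtain ⟨S, hS⟩ := hu.exists_right_inv
      exact ⟨S, hS⟩
    exact hS S hS1 _ _ g1 g2 g3 (hM2 _ _ κ D r S hl.adapted hr hp hS1)
  -- the pull-back of the ambient metric
  have hpull : ∀ {y0 : V3} {Y b : V2 → V3} {κ : V2 → M33} {D : PD},
      LinkAt hB' cA' kM 𝒦 y0 Y b κ D → ∀ᶠ u in 𝓝 (0 : V2), ∀ w : V3,
      pull (GE hB' cA' (qk r kM)) (fun p => (Y p.1, cayR (b p.1) p.2)) (u, w)
        = GE (pull hB' Y) (gA cA' Y b) (qk r κ) (u, w) := by
    intro y0 Y b κ D hl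
    filter_upwards [hl.Y_smooth, hl.b_smooth, hl.Y_unit, hl.kappa r] with u h1 h2 h3 h4
    intro w
    rw [hPulle hB' cA' (qk r kM) Y b (u, w) (h1.differentiableAt (by simp))
      (h2.differentiableAt (by simp)) (hq _ h3)]
    unfold GE
    simp only [h4]
  constructor
  · intro y0 w0 hy0
    obtain ⟨Y, b, κ, D, hl⟩ := hL y0 hy0
    have hf := phi_facts hl.Y_smooth hl.b_smooth hl.Y_zero hl.b_zero hl.Y_inj
      (ω := fun w : V3 => w) (v0 := w0) (Eventually.of_forall fun v => contDiffAt_id)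
      (by
        have : fderiv ℝ (fun w : V3 => w) w0 = ContinuousLinearMap.id ℝ V3 := fderiv_id
        rw [this]
        exact Function.injective_id)
    refine ⟨fun p => (Y p.1, cayR (b p.1) p.2), hf.1, hf.2.1, ?_, hf.2.2, ?_⟩
    · have t1 : Tendsto (fun p : V2 × V3 => p.1) (𝓝 ((0 : V2), w0)) (𝓝 0) :=
        continuous_fst.tendsto _
      exact t1.eventually hl.Y_unit
    · have hn := hLoce _ _ _ (goodData_of_link hl hq) (hpos hl) w0
      refine hn.congr ?_
      have t1 : Tendsto (fun p : V2 × V3 => p.1) (𝓝 ((0 : V2), w0)) (𝓝 0) :=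
        continuous_fst.tendsto _
      filter_upwards [t1.eventually (hpull hl)] with p hp
      exact (hp p.2).symm
  · intro y0 z0 hy0 hz0 t ht
    obtain ⟨Y, b, κ, D, hl⟩ := hL y0 hy0
    obtain ⟨ζ, hζ, hζ1, hζ0, hζi⟩ := exists_zeta z0 hz0
    have hf := phi_facts hl.Y_smooth hl.b_smooth hl.Y_zero hl.b_zero hl.Y_inj
      (ω := ζ) (v0 := 0) (Eventually.of_forall fun v => (hζ _).contDiffAt) hζi
    have t1 : Tendsto (fun p : V2 × V2 => p.1) (𝓝 ((0 : V2), (0 : V2))) (𝓝 0) :=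
      continuous_fst.tendsto _
    refine ⟨fun p => (Y p.1, cayR (b p.1) (ζ p.2)), hf.1, ?_, ?_, hf.2.2, ?_⟩
    · rw [hf.2.1, hζ0]
    · filter_upwards [t1.eventually hl.Y_unit] with p hp
      exact ⟨hp, by rw [cayR_dot, hζ1]⟩
    · have hn := hPolar _ _ _ (goodData_of_link hl hq) (hpos hl) ζ
        (Eventually.of_forall fun v => (hζ _).contDiffAt) (Eventually.of_forall hζ1) hζi t ht
      refine hn.congr ?_
      filter_upwards [t1.eventually (hpull hl), t1.eventually hl.Y_smooth,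
        t1.eventually hl.b_smooth, t1.eventually (hpull hl).eventually_nhds] with p hp h1 h2 h3
      have hfun : (fun p : V2 × V2 => (Y p.1, t • cayR (b p.1) (ζ p.2)))
          = fun p : V2 × V2 => (fun p : V2 × V3 => (Y p.1, cayR (b p.1) p.2)) (p.1, t • ζ p.2) := by
        funext p
        simp only [map_smul]
      have hfun2 : (fun p : V2 × V2 => ((Y p.1, cayR (b p.1) (ζ p.2)).1,
          t • (Y p.1, cayR (b p.1) (ζ p.2)).2))
          = fun p : V2 × V2 => (fun p : V2 × V3 => (Y p.1, cayR (b p.1) p.2)) (p.1, t • ζ p.2) :=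
        hfun
      have d1 : DifferentiableAt ℝ (fun p : V2 × V3 => (Y p.1, cayR (b p.1) p.2))
          (p.1, t • ζ p.2) := by
        have c1 : ContDiffAt ℝ 1 Y p.1 := h1.of_le (by exact_mod_cast le_top)
        have c2 : ContDiffAt ℝ 1 b p.1 := h2.of_le (by exact_mod_cast le_top)
        exact ((c1.comp (p.1, t • ζ p.2) contDiffAt_fst).prodMk
          (contDiffAt_rot (c2.comp (p.1, t • ζ p.2) contDiffAt_fst)
            contDiffAt_snd)).differentiableAt (by norm_num)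
      have d2 : DifferentiableAt ℝ (fun p : V2 × V2 => (p.1, t • ζ p.2)) p := by
        have c1 : ContDiff ℝ 1 (fun p : V2 × V2 => (p.1, t • ζ p.2)) :=
          contDiff_fst.prodMk (((hζ 1).comp contDiff_snd).const_smul t)
        exact c1.differentiable (by norm_num) p
      rw [hfun2, pull_comp_eq (GE hB' cA' (qk r kM))
        (f := fun p : V2 × V3 => (Y p.1, cayR (b p.1) p.2))
        (g := fun p : V2 × V2 => (p.1, t • ζ p.2)) d1 d2]
      refine ContinuousLinearMap.ext fun x => ContinuousLinearMap.ext fun y => ?_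
      rw [pull_apply, pull_apply, hp (t • ζ p.2)]

end Pool.Agent.HS
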