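import Pool.Agent.HS.LkDefs

/-!
# LINK: two algebraic identities for the adapted chart of the Euler-top metric

`q2 d y L L'` is the symmetric second order term of the chart `Yc` in the directions of
`B L × y` and `B L' × y`.  `lkT1`: the first derivatives of the base metric vanish in this chart.
`lkT2`: the derivative of the area form.
-/

namespace Pool.Agent.HS

open Matrix

/-- The symmetric bilinear second order term of the chart. -/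
noncomputable def q2 (d : ℝ) (y L L' : V3) : V3 :=
  (1 / 2 : ℝ) • (Bv d L ⨯₃ (Bv d L' ⨯₃ y) + Bv d L' ⨯₃ (Bv d L ⨯₃ y)
    + (Bv d (Bv d L ⨯₃ L') + Bv d (Bv d L' ⨯₃ L)) ⨯₃ y)

/-- A vector `L ⟂ y`, `|y| = 1`, is `y × p`. -/
theorem exists_cross_of_perp {y L : V3} (hy : y ⬝ᵥ y = 1) (h : L ⬝ᵥ y = 0) :
    ∃ p : V3, L = y ⨯₃ p := by
  refine ⟨L ⨯₃ y, ?_⟩
  simp only [dotProduct, Fin.sum_univ_three] at hy h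
  ext i
  fin_cases i
  · simp [cross_apply]
    linear_combination (-(L 0)) * hy + y 0 * h
  · simp [cross_apply]
    linear_combination (-(L 1)) * hy + y 1 * h
  · simp [cross_apply]
    linear_combination (-(L 2)) * hy + y 2 * h

theorem lkT1_aux (d : ℝ) (y p q r : V3) :
    Bv d (q2 d y (y ⨯₃ p) (y ⨯₃ q)) ⬝ᵥ (Bv d (y ⨯₃ r) ⨯₃ y)
      + Bv d (Bv d (y ⨯₃ q) ⨯₃ y) ⬝ᵥ q2 d y (y ⨯₃ p) (y ⨯₃ r)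
      = 2 * (bv d y ⬝ᵥ (Bv d (y ⨯₃ p) ⨯₃ y)) * (Bv d (y ⨯₃ q) ⬝ᵥ (y ⨯₃ r)) := by
  simp [q2, Bv, bv, cross_apply, dotProduct, Fin.sum_univ_three]
  ring

theorem lkT2_aux (d : ℝ) (y p q r : V3) :
    y ⬝ᵥ (q2 d y (y ⨯₃ p) (y ⨯₃ q) ⨯₃ (Bv d (y ⨯₃ r) ⨯₃ y)) * Dl d y
      + y ⬝ᵥ ((Bv d (y ⨯₃ q) ⨯₃ y) ⨯₃ q2 d y (y ⨯₃ p) (y ⨯₃ r)) * Dl d y
      = (bv d y ⬝ᵥ (Bv d (y ⨯₃ p) ⨯₃ y))
        * (y ⬝ᵥ ((Bv d (y ⨯₃ q) ⨯₃ y) ⨯₃ (Bv d (y ⨯₃ r) ⨯₃ y))) := by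
  simp [q2, Bv, bv, Dl, cross_apply, dotProduct, Fin.sum_univ_three]
  ring

/-- The first derivatives of `h` in the chart vanish. -/
theorem lkT1 (d : ℝ) (y Le Lv Lw : V3) (hy : y ⬝ᵥ y = 1) (he : Le ⬝ᵥ y = 0) (hv : Lv ⬝ᵥ y = 0)
    (hw : Lw ⬝ᵥ y = 0) :
    Bv d (q2 d y Le Lv) ⬝ᵥ (Bv d Lw ⨯₃ y) + Bv d (Bv d Lv ⨯₃ y) ⬝ᵥ q2 d y Le Lw
      = 2 * (bv d y ⬝ᵥ (Bv d Le ⨯₃ y)) * (Bv d Lv ⬝ᵥ Lw) := by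
  obtain ⟨p, rfl⟩ := exists_cross_of_perp hy he
  obtain ⟨q, rfl⟩ := exists_cross_of_perp hy hv
  obtain ⟨r, rfl⟩ := exists_cross_of_perp hy hw
  exact lkT1_aux d y p q r

/-- The derivative of the area form. -/
theorem lkT2 (d : ℝ) (y Le Lv Lw : V3) (hy : y ⬝ᵥ y = 1) (he : Le ⬝ᵥ y = 0) (hv : Lv ⬝ᵥ y = 0)
    (hw : Lw ⬝ᵥ y = 0) :
    y ⬝ᵥ (q2 d y Le Lv ⨯₃ (Bv d Lw ⨯₃ y)) * Dl d y
      + y ⬝ᵥ ((Bv d Lv ⨯₃ y) ⨯₃ q2 d y Le Lw) * Dl d y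
      = (bv d y ⬝ᵥ (Bv d Le ⨯₃ y)) * (y ⬝ᵥ ((Bv d Lv ⨯₃ y) ⨯₃ (Bv d Lw ⨯₃ y))) := by
  obtain ⟨p, rfl⟩ := exists_cross_of_perp hy he
  obtain ⟨q, rfl⟩ := exists_cross_of_perp hy hv
  obtain ⟨r, rfl⟩ := exists_cross_of_perp hy hw
  exact lkT2_aux d y p q r

end Pool.Agent.HS
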