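import Pool.Agent.HS.LkJets
import Pool.Agent.HS.LkAlg
import Pool.Agent.HS.LkT
import Pool.Agent.HS.Pull

set_option maxSynthPendingDepth 3

/-!
# LINK: the base metric in the adapted chart, value and first derivative at `0`

`hT d y l 0 x z = x · z` and `fderiv ℝ (hT d y l) 0 = 0` for a frame `l` at `y`.
-/

namespace Pool.Agent.HS

open Matrix Filter
open scoped Topology ContDiff

noncomputable section

variable {d : ℝ} {y : V3} {l : V2 →L[ℝ] V3}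

theorem dh_bv_comm (d : ℝ) (a c : V3) : bv d a ⬝ᵥ c = bv d c ⬝ᵥ a := by
  simp only [dotProduct, Fin.sum_univ_three, bv, Matrix.cons_val_zero, Matrix.cons_val_one,
    Matrix.cons_val]
  ring

theorem dh_Dl_hasFDerivAt (d : ℝ) (p : V3) : HasFDerivAt (Dl d) ((2 : ℝ) • dotL (bv d p)) p := by
  have h := dotL.hasFDerivAt_of_bilinear (bvL d).hasFDerivAt (hasFDerivAt_id p)
  have h2 : HasFDerivAt (Dl d) _ p := h
  refine h2.congr_fderiv ?_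
  ext1 c
  have e : bv d c ⬝ᵥ p = bv d p ⬝ᵥ c := dh_bv_comm d c p
  change bv d p ⬝ᵥ c + bv d c ⬝ᵥ p = 2 * (bv d p ⬝ᵥ c)
  rw [e]
  ring

theorem dh_iDl_hasFDerivAt (d : ℝ) {p : V3} (hp : Dl d p ≠ 0) :
    HasFDerivAt (fun q => (Dl d q)⁻¹) ((-(2 * ((Dl d p)⁻¹) ^ 2)) • dotL (bv d p)) p := by
  have h := (hasDerivAt_inv hp).comp_hasFDerivAt p (dh_Dl_hasFDerivAt d p)
  have h2 : HasFDerivAt (fun q => (Dl d q)⁻¹) _ p := h
  refine h2.congr_fderiv ?_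
  ext1 c
  change -(Dl d p ^ 2)⁻¹ * (2 * (bv d p ⬝ᵥ c)) = -(2 * ((Dl d p)⁻¹) ^ 2) * (bv d p ⬝ᵥ c)
  rw [inv_pow]
  ring

theorem dh_hBL_contDiffAt (d : ℝ) {p : V3} (hp : Dl d p ≠ 0) {n : WithTop ℕ∞} :
    ContDiffAt ℝ n (hBL d) p := by
  have h1 : ContDiff ℝ n (Dl d) := by
    have h : Dl d = fun q => dotL (bvL d q) q := rfl
    rw [h]
    exact (dotL.contDiff.comp (bvL d).contDiff).clm_apply contDiff_id
  exact (h1.contDiffAt.inv hp).smul contDiffAt_const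

theorem dh_hBL_hasFDerivAt (d : ℝ) {p : V3} (hp : Dl d p ≠ 0) :
    HasFDerivAt (hBL d)
      (((-(2 * ((Dl d p)⁻¹) ^ 2)) • dotL (bv d p)).smulRight (dotL.comp (BvL d))) p := by
  have h := (dh_iDl_hasFDerivAt d hp).smul_const (dotL.comp (BvL d))
  exact h

theorem dh_hBL_fderiv (d : ℝ) {p : V3} (hp : Dl d p ≠ 0) (c a b : V3) :
    fderiv ℝ (hBL d) p c a b
      = -(2 * ((Dl d p)⁻¹) ^ 2) * (bv d p ⬝ᵥ c) * (Bv d a ⬝ᵥ b) := by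
  rw [(dh_hBL_hasFDerivAt d hp).fderiv]
  rfl

theorem hT_zero_apply (h : Fr d y l) (hD : Dl d y ≠ 0) (x z : V2) :
    hT d y l 0 x z = x ⬝ᵥ z := by
  rw [hT_apply, Yc_zero, Yc_fderiv_zero, Yc_fderiv_zero, hB_y1 hD _ (h.perp x), h.orth]

theorem Yc_fderiv2 (x z : V2) :
    fderiv ℝ (fderiv ℝ (Yc d y l)) 0 x z = q2 d y (l x) (l z) := by
  rw [← dd_eq (Yc_contDiff.contDiffAt) x z, Yc_dd]
  rfl

/-- The first derivative of the base metric vanishes in the chart. -/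
theorem hT_fderiv_zero (h : Fr d y l) (hD : Dl d y ≠ 0) : fderiv ℝ (hT d y l) 0 = 0 := by
  refine ContinuousLinearMap.ext fun c => ContinuousLinearMap.ext fun a =>
    ContinuousLinearMap.ext fun b => ?_
  have hne' : Dl d (Yc d y l 0) ≠ 0 := by rw [Yc_zero]; exact hD
  have hG1 : ContDiffAt ℝ 1 (hBL d) (Yc d y l 0) := dh_hBL_contDiffAt d hne'
  have hY2 : ContDiffAt ℝ 2 (Yc d y l) 0 := Yc_contDiff.contDiffAt
  have h1 : fderiv ℝ (hT d y l) 0 c a b = _ := fderiv_pull hG1 hY2 c a b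
  rw [h1, Yc_fderiv2, Yc_fderiv2, dh_hBL_fderiv d hne', Yc_zero, Yc_fderiv_zero, Yc_fderiv_zero,
    Yc_fderiv_zero, hBL_apply, hBL_apply, hB, hB, Bv_y1_dot d y _ _ (h.perp a)]
  have h2 : Bv d (q2 d y (l c) (l a)) ⬝ᵥ y1 d y (l b) + Bv d (y1 d y (l a)) ⬝ᵥ q2 d y (l c) (l b)
      = 2 * (bv d y ⬝ᵥ y1 d y (l c)) * (Bv d (l a) ⬝ᵥ l b) :=
    lkT1 d y (l c) (l a) (l b) h.unit (h.perp c) (h.perp a) (h.perp b)
  have h3 : -(2 * ((Dl d y)⁻¹) ^ 2) * (bv d y ⬝ᵥ y1 d y (l c)) * (Dl d y * (Bv d (l a) ⬝ᵥ l b))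
      + Bv d (q2 d y (l c) (l a)) ⬝ᵥ y1 d y (l b) / Dl d y
      + Bv d (y1 d y (l a)) ⬝ᵥ q2 d y (l c) (l b) / Dl d y
      = (Bv d (q2 d y (l c) (l a)) ⬝ᵥ y1 d y (l b) + Bv d (y1 d y (l a)) ⬝ᵥ q2 d y (l c) (l b)
        - 2 * (bv d y ⬝ᵥ y1 d y (l c)) * (Bv d (l a) ⬝ᵥ l b)) / Dl d y := by
    field_simp
    ring
  rw [h3, h2, sub_self, zero_div]
  rfl

end

end Pool.Agent.HS
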