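import Pool.Agent.HS.GMainK
import Pool.Agent.HS.LkAlg

/-!
# LINK: the infinitesimal condition `GPos` from block G
-/

namespace Pool.Agent.HS

open Matrix

noncomputable section

variable {d : ℝ} {y : V3} {l : V2 →L[ℝ] V3}

theorem Fr.perp' (hl : Fr d y l) (x : V2) : y ⬝ᵥ l x = 0 := by
  rw [dotProduct_comm]; exact hl.perp x

theorem Fr.ne_zero (hl : Fr d y l) {x : V2} (hx : x ⬝ᵥ x = 1) : l x ≠ 0 := by
  intro h
  have := hl.orth x x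
  rw [h, hx, dotProduct_zero] at this
  exact zero_ne_one this

/-- `GPos` from the identities for the jets and the positivity of `GGK`. -/
theorem GPos_of_jets {D : PD} {K : ℝ} (hl : Fr d y l) (hD : 0 < Dl d y) (hK : 0 < K)
    (hDK : D.K = K)
    (h1 : ∀ n, (D.ρ ⬝ᵥ n) ^ 2 = Dl d y * ff d y n ^ 2)
    (h2 : ∀ v n, (∑ e, v e * (D.Dρ e ⬝ᵥ n)) ^ 2
      = Dl d y * (ff1 d y (l v) n + Dl1 d y (l v) / 2 * (Dl d y)⁻¹ * ff d y n) ^ 2)
    (h3 : ∀ v n, ∑ e, ∑ f, v e * v f * bf (D.κ2 e f) n n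
      = kapJ d y (y1 d y (l v)) (y2 d y (l v)) n (n1 d y (l v) n) (n2 d y (l v) n))
    (hG : ∀ L n, y ⬝ᵥ L = 0 → L ≠ 0 → n ≠ 0 → 0 < GGK d K y L n) : GPos D := by
  refine ⟨hDK ▸ hK, ?_⟩
  intro v n hv hn
  have hn0 : n ≠ 0 := by
    rintro rfl
    rw [dotProduct_zero] at hn
    exact zero_ne_one hn
  have hG' := hG (l v) n (hl.perp' v) (hl.ne_zero hv) hn0
  rw [h2, h1, h3, hDK]
  unfold GGK at hG'
  rw [hl.orth v v, hv, mul_one] at hG'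
  set a := ff1 d y (l v) n + Dl1 d y (l v) / 2 * (Dl d y)⁻¹ * ff d y n with ha
  set k := kapJ d y (y1 d y (l v)) (y2 d y (l v)) n (n1 d y (l v) n) (n2 d y (l v) n) with hk
  have h := mul_pos hK hG'
  have e : K * (Dl d y * ff d y n ^ 2 + 2 / 3 * k - Dl d y / K * a ^ 2)
      = K * (Dl d y * ff d y n ^ 2 + 2 / 3 * k) - Dl d y * a ^ 2 := by
    field_simp
  rw [e] at h
  linarith

/-- The uniform version: for all small `d > 0` and all `K` close to `1`. -/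
theorem GPos_uniform : ∃ d0 δ : ℝ, 0 < d0 ∧ d0 < 1 ∧ 0 < δ ∧ δ < 1 ∧
    ∀ d : ℝ, 0 < d → d < d0 → ∀ K : ℝ, |K - 1| ≤ δ →
      ∀ (y : V3) (l : V2 →L[ℝ] V3), Fr d y l → ∀ D : PD, D.K = K →
      (∀ n, (D.ρ ⬝ᵥ n) ^ 2 = Dl d y * ff d y n ^ 2) →
      (∀ v n, (∑ e, v e * (D.Dρ e ⬝ᵥ n)) ^ 2
        = Dl d y * (ff1 d y (l v) n + Dl1 d y (l v) / 2 * (Dl d y)⁻¹ * ff d y n) ^ 2) →
      (∀ v n, ∑ e, ∑ f, v e * v f * bf (D.κ2 e f) n n
        = kapJ d y (y1 d y (l v)) (y2 d y (l v)) n (n1 d y (l v) n) (n2 d y (l v) n)) →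
      GPos D := by
  obtain ⟨d0, δ, h0, h0', hδ, hδ', H⟩ := GGK_pos
  refine ⟨d0, δ, h0, h0', hδ, hδ', ?_⟩
  intro d hd hd0 K hK y l hl D hDK h1 h2 h3
  have hKpos : 0 < K := by
    have := (abs_le.1 hK).1
    linarith
  have hDl : 0 < Dl d y := Dl_pos (by rw [abs_of_pos hd]; linarith) hl.unit
  exact GPos_of_jets hl hDl hKpos hDK h1 h2 h3
    (fun L n hL hL0 hn => H d hd hd0 K hK y L hl.unit hL hL0 n hn)

end

end Pool.Agent.HS
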