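import Pool.Agent.HS.LkRho2

/-!
# LINK: the derivative of `ff` along the chart, fields `ρ`, `Dρ` of `Adapted`
-/

set_option maxSynthPendingDepth 3
set_option maxRecDepth 10000

open Matrix
open scoped Topology

namespace Pool.Agent.HS

/-- `φ` is differentiable at `0` with directional derivative `c` in the direction `x`. -/
def HD (φ : V2 → ℝ) (x : V2) (c : ℝ) : Prop := ∃ L : V2 →L[ℝ] ℝ, HasFDerivAt φ L 0 ∧ L x = c

theorem HD.const (c : ℝ) (x : V2) : HD (fun _ => c) x 0 := ⟨0, hasFDerivAt_const c 0, rfl⟩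

theorem HD.add {φ ψ : V2 → ℝ} {x : V2} {a b : ℝ} (h1 : HD φ x a) (h2 : HD ψ x b) :
    HD (fun u => φ u + ψ u) x (a + b) := by
  obtain ⟨L, hL, rfl⟩ := h1
  obtain ⟨M, hM, rfl⟩ := h2
  exact ⟨L + M, hL.add hM, rfl⟩

theorem HD.sub {φ ψ : V2 → ℝ} {x : V2} {a b : ℝ} (h1 : HD φ x a) (h2 : HD ψ x b) :
    HD (fun u => φ u - ψ u) x (a - b) := by
  obtain ⟨L, hL, rfl⟩ := h1
  obtain ⟨M, hM, rfl⟩ := h2
  exact ⟨L - M, hL.sub hM, rfl⟩

theorem HD.mul {φ ψ : V2 → ℝ} {x : V2} {a b : ℝ} (h1 : HD φ x a) (h2 : HD ψ x b) :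
    HD (fun u => φ u * ψ u) x (a * ψ 0 + φ 0 * b) := by
  obtain ⟨L, hL, rfl⟩ := h1
  obtain ⟨M, hM, rfl⟩ := h2
  refine ⟨_, hL.mul hM, ?_⟩
  change φ 0 * M x + ψ 0 * L x = _
  ring

theorem HD.inv {φ : V2 → ℝ} {x : V2} {a : ℝ} (h1 : HD φ x a) (h0 : φ 0 ≠ 0) :
    HD (fun u => (φ u)⁻¹) x (-(a * ((φ 0)⁻¹) ^ 2)) := by
  obtain ⟨L, hL, rfl⟩ := h1
  refine ⟨_, (hasDerivAt_inv h0).comp_hasFDerivAt (0 : V2) hL, ?_⟩
  change -((φ 0) ^ 2)⁻¹ * L x = _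
  rw [inv_pow]; ring

theorem HD.congr {φ : V2 → ℝ} {x : V2} {a b : ℝ} (h : HD φ x a) (e : a = b) : HD φ x b := e ▸ h

theorem HD.fderiv {φ : V2 → ℝ} {x : V2} {a : ℝ} (h : HD φ x a) : fderiv ℝ φ 0 x = a := by
  obtain ⟨L, hL, rfl⟩ := h
  rw [hL.fderiv]

theorem HD.dot {f g : V2 → V3} {x : V2} (hf : DifferentiableAt ℝ f 0)
    (hg : DifferentiableAt ℝ g 0) :
    HD (fun u => f u ⬝ᵥ g u) x (_root_.fderiv ℝ f 0 x ⬝ᵥ g 0 + f 0 ⬝ᵥ _root_.fderiv ℝ g 0 x) := by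
  obtain ⟨L, hL, hx⟩ := dot_hasFDerivAt hf.hasFDerivAt hg.hasFDerivAt
  exact ⟨L, hL, hx x⟩

theorem HD.dotc {g : V2 → V3} {x : V2} (w : V3) (hg : DifferentiableAt ℝ g 0) :
    HD (fun u => w ⬝ᵥ g u) x (w ⬝ᵥ _root_.fderiv ℝ g 0 x) := by
  refine ⟨_, (dotL w).hasFDerivAt.comp (0 : V2) hg.hasFDerivAt, rfl⟩

variable {d : ℝ} {y : V3} {l : V2 →L[ℝ] V3}

theorem HD_Dl (x : V2) : HD (fun u => Dl d (Yc d y l u)) x (Dl1 d y (l x)) := by
  refine ⟨_, (Dl_hasFDerivAt d (Yc d y l 0)).comp (0 : V2)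
    (Yc_differentiableAt (0 : V2)).hasFDerivAt, ?_⟩
  change 2 * (bv d (Yc d y l 0) ⬝ᵥ fderiv ℝ (Yc d y l) 0 x) = _
  rw [Yc_zero, Yc_fderiv_zero]
  rfl

theorem HD_tau (x : V2) : HD (fun u => tau d (Yc d y l u)) x (tau1 d y (l x)) := by
  have hY : HasFDerivAt (Yc d y l) (fderiv ℝ (Yc d y l) 0) 0 :=
    (Yc_differentiableAt (0 : V2)).hasFDerivAt
  have hb : HasFDerivAt (fun u => bvL d (Yc d y l u)) ((bvL d).comp (fderiv ℝ (Yc d y l) 0)) 0 :=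
    (bvL d).hasFDerivAt.comp (0 : V2) hY
  obtain ⟨L, hL, hx⟩ := dot_hasFDerivAt hb hb
  refine ⟨L, hL, ?_⟩
  rw [hx]
  change bv d (fderiv ℝ (Yc d y l) 0 x) ⬝ᵥ bv d (Yc d y l 0)
    + bv d (Yc d y l 0) ⬝ᵥ bv d (fderiv ℝ (Yc d y l) 0 x) = _
  rw [Yc_zero, Yc_fderiv_zero, dotProduct_comm (bv d (y1 d y (l x)))]
  unfold tau1
  ring

theorem HD_Fy (hD : Dl d y ≠ 0) (x : V2) :
    HD (fun u => Fy d (Yc d y l u)) x (Fy1 d y (l x)) := by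
  have hY : DifferentiableAt ℝ (Yc d y l) 0 := Yc_differentiableAt (0 : V2)
  have hD0 : Dl d (Yc d y l 0) ≠ 0 := by rw [Yc_zero]; exact hD
  have h1 := HD_Dl (d := d) (y := y) (l := l) x
  have hi := h1.inv hD0
  have ht := HD_tau (d := d) (y := y) (l := l) x
  have hw := HD.dotc (x := x) (bv d wv) hY
  have hw2 := HD.dotc (x := x) (bv d (bv d wv)) hY
  have hi2 := hi.mul hi
  have c2 := HD.const (2 : ℝ) x
  have c3 := HD.const (3 - d ^ 2 : ℝ) x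
  have c4 := HD.const (1 / 4 : ℝ) x
  have cd := HD.const (d ^ 2 : ℝ) x
  have ci := HD.const ((1 - d ^ 2)⁻¹ : ℝ) x
  have H := ((((c2.mul ht).mul hi2).sub (c3.mul hi)).add (c4.mul h1)).add
    (((cd.mul ((((c3.mul h1).sub (c2.mul ht)).mul hw).add (h1.mul hw2))).mul hi2).mul ci)
  have e : (fun u => Fy d (Yc d y l u)) = fun u =>
      2 * tau d (Yc d y l u) * ((Dl d (Yc d y l u))⁻¹ * (Dl d (Yc d y l u))⁻¹)
        - (3 - d ^ 2) * (Dl d (Yc d y l u))⁻¹ + 1 / 4 * Dl d (Yc d y l u)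
        + d ^ 2 * (((3 - d ^ 2) * Dl d (Yc d y l u) - 2 * tau d (Yc d y l u))
          * (bv d wv ⬝ᵥ Yc d y l u) + Dl d (Yc d y l u) * (bv d (bv d wv) ⬝ᵥ Yc d y l u))
          * ((Dl d (Yc d y l u))⁻¹ * (Dl d (Yc d y l u))⁻¹) * (1 - d ^ 2)⁻¹ := by
    funext u
    unfold Fy
    ring
  rw [e]
  refine H.congr ?_
  simp only [Yc_zero, Yc_fderiv_zero]
  unfold Fy1
  ring

theorem HD_ff (hD : Dl d y ≠ 0) (n : V3) (x : V2) :
    HD (fun u => ff d (Yc d y l u) (nT d y l n u)) x (ff1 d y (l x) n) := by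
  have hY : DifferentiableAt ℝ (Yc d y l) 0 := Yc_differentiableAt (0 : V2)
  have hN : DifferentiableAt ℝ (nT d y l n) 0 :=
    (nT_contDiff (n := 1) n).differentiable (by norm_num) 0
  have hF := HD_Fy (d := d) (y := y) (l := l) hD x
  have hyn := HD.dot (x := x) hY hN
  have hwn := HD.dotc (x := x) wv hN
  have hwy := HD.dotc (x := x) wv hY
  have H := (hF.mul hyn).sub ((HD.const (d ^ 2 / 2 : ℝ) x).mul (hwn.sub (hwy.mul hyn)))
  have e : (fun u => ff d (Yc d y l u) (nT d y l n u)) = fun u =>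
      Fy d (Yc d y l u) * (Yc d y l u ⬝ᵥ nT d y l n u)
        - d ^ 2 / 2 * (wv ⬝ᵥ nT d y l n u - (wv ⬝ᵥ Yc d y l u) * (Yc d y l u ⬝ᵥ nT d y l n u)) :=
    rfl
  rw [e]
  refine H.congr ?_
  simp only [Yc_zero, Yc_fderiv_zero, nT_zero, nT_fderiv_zero]
  unfold ff1
  ring

theorem ev_Dl_Yc_ne (hD : Dl d y ≠ 0) : ∀ᶠ u in 𝓝 (0 : V2), Dl d (Yc d y l u) ≠ 0 := by
  have h1 : ContinuousAt (fun u => Dl d (Yc d y l u)) 0 :=
    ((Dl_contDiff d (n := 1)).continuous.comp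
      (Yc_contDiff (d := d) (y := y) (l := l) (n := 1)).continuous).continuousAt
  apply h1.eventually_ne
  rw [Yc_zero]
  exact hD

/-- The jet of the curvature paired with a fixed vector. -/
theorem HD_FA (h : Fr d y l) (hD : Dl d y ≠ 0) (hd : 1 - d ^ 2 ≠ 0) (n : V3) (x : V2) :
    HD (fun u => FA (AT d y l) u e0 e1 ⬝ᵥ n) x
      (arT d y l e0 e1 0 * (ff1 d y (l x) n + Dl1 d y (l x) / 2 * (Dl d y)⁻¹ * ff d y n)) := by
  obtain ⟨ha, hax⟩ := arT_hasFDerivAt h.unit h.perp hD e0 e1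
  have h1 : HD (arT d y l e0 e1) x (Dl1 d y (l x) / 2 * (Dl d y)⁻¹ * arT d y l e0 e1 0) :=
    ⟨_, ha.hasFDerivAt, hax x⟩
  have H := h1.mul (HD_ff (d := d) (y := y) (l := l) hD n x)
  obtain ⟨L, hL, hLx⟩ := H
  refine ⟨L, hL.congr_of_eventuallyEq ?_, ?_⟩
  · filter_upwards [ev_Dl_Yc_ne (d := d) (y := y) (l := l) hD] with u hu
    exact FA_AT_dot h.unit hd hu e0 e1 n
  · rw [hLx, Yc_zero, nT_zero]
    ring

/-- Value of the curvature at the centre. -/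
theorem FA_AT_zero_sq (h : Fr d y l) (hD : Dl d y ≠ 0) (hd : 1 - d ^ 2 ≠ 0) (n : V3) :
    (FA (AT d y l) 0 e0 e1 ⬝ᵥ n) ^ 2 = Dl d y * ff d y n ^ 2 := by
  have hD0 : Dl d (Yc d y l 0) ≠ 0 := by rw [Yc_zero]; exact hD
  rw [FA_AT_dot h.unit hd hD0, mul_pow, arT_zero_sq h hD, Yc_zero, nT_zero]

theorem AT_contDiffAt (hD : Dl d y ≠ 0) {n : WithTop ℕ∞} :
    ContDiffAt ℝ n (AT d y l) 0 := by
  have h0 : Dl d (Yc d y l 0) ≠ 0 := by rw [Yc_zero]; exact hD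
  have h1 : ContDiffAt ℝ n (fun u => cAL d (Yc d y l u)) 0 :=
    (cAL_contDiffAt d h0).comp (0 : V2) Yc_contDiff.contDiffAt
  have hY : ContDiff ℝ n (fderiv ℝ (Yc d y l)) :=
    (Yc_contDiff (n := n + 1)).fderiv_right le_rfl
  have hb : ContDiff ℝ n (fderiv ℝ (nb d y l)) :=
    (nb_contDiff (n := n + 1)).fderiv_right le_rfl
  have hR : ContDiff ℝ n (fun u => cayR (-(nb d y l u))) :=
    cayR_contDiff.comp nb_contDiff.neg
  have hE : ContDiff ℝ n (fun u => cayE (nb d y l u)) := cayE_contDiff.comp nb_contDiff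
  exact hR.contDiffAt.clm_comp ((h1.clm_comp hY.contDiffAt).add
    (hE.contDiffAt.clm_comp hb.contDiffAt))

theorem FA_AT_differentiableAt (hD : Dl d y ≠ 0) (x z : V2) :
    DifferentiableAt ℝ (fun u => FA (AT d y l) u x z) 0 := by
  have h1 : ContDiffAt ℝ 2 (AT d y l) 0 := AT_contDiffAt hD
  have h2 : DifferentiableAt ℝ (fderiv ℝ (AT d y l)) 0 := ContDiffAt.diff_fderiv h1
  have h3 : ∀ x z : V2, DifferentiableAt ℝ (fun u => fderiv ℝ (AT d y l) u x z) 0 := fun x z =>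
    (h2.clm_apply (differentiableAt_const x)).clm_apply (differentiableAt_const z)
  have h4 : ∀ x : V2, DifferentiableAt ℝ (fun u => AT d y l u x) 0 := fun x =>
    (diff1 h1).clm_apply (differentiableAt_const x)
  have h5 : DifferentiableAt ℝ (fun u => crossL (AT d y l u x) (AT d y l u z)) 0 :=
    (crossL.differentiableAt.comp (0 : V2) (h4 x)).clm_apply (h4 z)
  exact ((h3 x z).sub (h3 z x)).add h5

/-- Derivative of the curvature at the centre. -/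
theorem fderiv_FA_AT_sq (h : Fr d y l) (hD : Dl d y ≠ 0) (hd : 1 - d ^ 2 ≠ 0) (n : V3)
    (x : V2) :
    (fderiv ℝ (fun u => FA (AT d y l) u e0 e1) 0 x ⬝ᵥ n) ^ 2
      = Dl d y * (ff1 d y (l x) n + Dl1 d y (l x) / 2 * (Dl d y)⁻¹ * ff d y n) ^ 2 := by
  have h1 : HasFDerivAt (fun u => FA (AT d y l) u e0 e1 ⬝ᵥ n)
      (((dotL).flip n).comp (fderiv ℝ (fun u => FA (AT d y l) u e0 e1) 0)) 0 :=
    (dotL.flip n).hasFDerivAt.comp (0 : V2) (FA_AT_differentiableAt hD e0 e1).hasFDerivAt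
  have h2 := (HD_FA h hD hd n x).fderiv
  rw [h1.fderiv] at h2
  have h3 : fderiv ℝ (fun u => FA (AT d y l) u e0 e1) 0 x ⬝ᵥ n
      = arT d y l e0 e1 0 * (ff1 d y (l x) n + Dl1 d y (l x) / 2 * (Dl d y)⁻¹ * ff d y n) := h2
  rw [h3, mul_pow, arT_zero_sq h hD]

/-- The sum form of the derivative used in `GPos`. -/
theorem sum_fderiv_FA_AT_sq (h : Fr d y l) (hD : Dl d y ≠ 0) (hd : 1 - d ^ 2 ≠ 0) (n : V3)
    (v : V2) :
    (∑ e, v e * (fderiv ℝ (fun u => FA (AT d y l) u e0 e1) 0 (ev e) ⬝ᵥ n)) ^ 2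
      = Dl d y * (ff1 d y (l v) n + Dl1 d y (l v) / 2 * (Dl d y)⁻¹ * ff d y n) ^ 2 := by
  rw [← fderiv_FA_AT_sq h hD hd n v]
  congr 1
  have hv : v = v 0 • ev 0 + v 1 • ev 1 := by
    ext i
    fin_cases i <;> simp [ev]
  conv_rhs => rw [hv, map_add, map_smul, map_smul]
  rw [Fin.sum_univ_two, add_dotProduct, smul_dotProduct, smul_dotProduct]
  rfl

end Pool.Agent.HS
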