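import Pool.Agent.HS.M3

/-!
# Block M2, algebra: from the jets of the metric to `RP`

`DD` is the value of `D2 G (0,0)` for `G = GP h A (qk r κ)` in an adapted chart, `gE` and `gF` are the
components of the Christoffel covector.
-/

namespace Pool.Agent.HS.M2b

open Matrix Pool.Agent.HS

/-- `Σ_e x_e M_e` -/
def m1 (M : Fin 2 → M33) (x : V2) : M33 := x 0 • M 0 + x 1 • M 1

/-- `Σ_{e,f} x_e y_f M_ef` -/
def m2 (M : Fin 2 → Fin 2 → M33) (x y : V2) : M33 :=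
  (x 0 * y 0) • M 0 0 + (x 0 * y 1) • M 0 1 + (x 1 * y 0) • M 1 0 + (x 1 * y 1) • M 1 1

/-- the derivative of `U` at `0` -/
noncomputable def U1 (ρ : V3) (x : V2) (ξ : V3) (y : V2) (η : V3) : V3 :=
  (1 / 2 : ℝ) • (ξ ⨯₃ η + al x y • ρ)

/-- the second derivative of `U` at `0` -/
noncomputable def U2 (B : V2 → V2 → V2 → V3) (x : V2) (ξ : V3) (x' : V2) (ξ' : V3) (y : V2) (η : V3) :
    V3 := -(1 / 2 * (ξ ⬝ᵥ ξ')) • η + B x x' y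

/-- the value of `D2 G (0,0) (x,ξ) (x',ξ') (y,η) (y',η')` -/
noncomputable def DD (h2 : V2 → V2 → V2 → V2 → ℝ) (ρ : V3) (B : V2 → V2 → V2 → V3) (Q : M33)
    (Q1 : Fin 2 → M33) (Q2 : Fin 2 → Fin 2 → M33) (x : V2) (ξ : V3) (x' : V2) (ξ' : V3) (y : V2)
    (η : V3) (y' : V2) (η' : V3) : ℝ :=
  h2 x x' y y' + bf (m2 Q2 x x') η η'
    + bf (m1 Q1 x) (U1 ρ x' ξ' y η) η' + bf (m1 Q1 x) η (U1 ρ x' ξ' y' η')
    + bf (m1 Q1 x') (U1 ρ x ξ y η) η' + bf (m1 Q1 x') η (U1 ρ x ξ y' η')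
    + bf Q (U1 ρ x ξ y η) (U1 ρ x' ξ' y' η') + bf Q (U1 ρ x' ξ' y η) (U1 ρ x ξ y' η')
    + bf Q (U2 B x ξ x' ξ' y η) η' + bf Q η (U2 B x ξ x' ξ' y' η')

/-- the horizontal components of the Christoffel covector -/
noncomputable def gE (ρ : V3) (Q : M33) (Q1 : Fin 2 → M33) (x : V2) (ξ : V3) (y : V2) (η : V3)
    (e : Fin 2) : ℝ :=
  1 / 2 * (bf Q (al x (Pi.single e 1) • ρ) η + bf Q (al y (Pi.single e 1) • ρ) ξ - bf (Q1 e) ξ η)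

/-- the vertical component of the Christoffel covector -/
noncomputable def gF (Q : M33) (Q1 : Fin 2 → M33) (x : V2) (ξ : V3) (y : V2) (η : V3) : V3 :=
  (1 / 2 : ℝ) • (m1 Q1 x *ᵥ η + m1 Q1 y *ᵥ ξ + (Q *ᵥ η) ⨯₃ ξ + (Q *ᵥ ξ) ⨯₃ η)

/-- the curvature form in terms of the jets -/
noncomputable def RJ (h2 : V2 → V2 → V2 → V2 → ℝ) (ρ : V3) (B : V2 → V2 → V2 → V3) (Q : M33)
    (Q1 : Fin 2 → M33) (Q2 : Fin 2 → Fin 2 → M33) (Qi : M33) (x : V2) (ξ : V3) (y : V2) (η : V3) : ℝ :=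
  -(1 / 2) * (DD h2 ρ B Q Q1 Q2 x ξ x ξ y η y η + DD h2 ρ B Q Q1 Q2 y η y η x ξ x ξ
      - 2 * DD h2 ρ B Q Q1 Q2 x ξ y η x ξ y η)
    + ((gE ρ Q Q1 x ξ y η 0 * gE ρ Q Q1 x ξ y η 0 + gE ρ Q Q1 x ξ y η 1 * gE ρ Q Q1 x ξ y η 1)
      + bf Qi (gF Q Q1 x ξ y η) (gF Q Q1 x ξ y η))
    - ((gE ρ Q Q1 x ξ x ξ 0 * gE ρ Q Q1 y η y η 0 + gE ρ Q Q1 x ξ x ξ 1 * gE ρ Q Q1 y η y η 1)
      + bf Qi (gF Q Q1 x ξ x ξ) (gF Q Q1 y η y η))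

/-! ### bilinear algebra -/

theorem bf_add_mat (A A' : M33) (u v : V3) : bf (A + A') u v = bf A u v + bf A' u v := by
  rw [bf, add_mulVec, dotProduct_add]; rfl

theorem bf_smul_mat (c : ℝ) (A : M33) (u v : V3) : bf (c • A) u v = c * bf A u v := by
  rw [bf, smul_mulVec, dotProduct_smul]; rfl

theorem bf_neg_right (A : M33) (u v : V3) : bf A u (-v) = - bf A u v := by
  rw [bf, mulVec_neg, dotProduct_neg]; rfl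

theorem bf_zero_left (A : M33) (v : V3) : bf A 0 v = 0 := by
  rw [bf, zero_dotProduct]

theorem bf_zero_right (A : M33) (v : V3) : bf A v 0 = 0 := by
  rw [bf, mulVec_zero, dotProduct_zero]

theorem bf_comm_of_symm {A : M33} (h : A.IsSymm) (u v : V3) : bf A u v = bf A v u := by
  unfold bf
  rw [dotProduct_mulVec, ← mulVec_transpose, h, dotProduct_comm]

theorem m1_symm {M : Fin 2 → M33} (h : ∀ e, (M e).IsSymm) (x : V2) : (m1 M x).IsSymm := by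
  unfold m1
  exact ((h 0).smul _).add ((h 1).smul _)

theorem m2_symm {M : Fin 2 → Fin 2 → M33} (h : ∀ e f, (M e f).IsSymm) (x y : V2) :
    (m2 M x y).IsSymm := by
  unfold m2
  exact ((((h 0 0).smul _).add ((h 0 1).smul _)).add ((h 1 0).smul _)).add ((h 1 1).smul _)

theorem U1_self (ρ : V3) (x : V2) (ξ : V3) : U1 ρ x ξ x ξ = 0 := by
  have h1 : ξ ⨯₃ ξ = 0 := cross_self ξ
  have h2 : al x x = 0 := by unfold al; ring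
  rw [U1, h1, h2, zero_smul, add_zero, smul_zero]

theorem U1_swap (ρ : V3) (x : V2) (ξ : V3) (y : V2) (η : V3) : U1 ρ y η x ξ = - U1 ρ x ξ y η := by
  have h1 : η ⨯₃ ξ = - (ξ ⨯₃ η) := (cross_anticomm ξ η).symm
  have h2 : al y x = - al x y := by unfold al; ring
  rw [U1, U1, h1, h2, neg_smul, ← neg_add, smul_neg]

/-- the second derivative part -/
theorem DD_part {h2 : V2 → V2 → V2 → V2 → ℝ} {D : PD} {B : V2 → V2 → V2 → V3} {Q : M33}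
    {Q1 : Fin 2 → M33} {Q2 : Fin 2 → Fin 2 → M33} (hQ : Q.IsSymm) (hQ1 : ∀ e, (Q1 e).IsSymm)
    (hK : ∀ x y, -(1 / 2) * (h2 x x y y + h2 y y x x - 2 * h2 x y x y) = D.K * al x y ^ 2)
    (hB : ∀ x y, B x y = B y x)
    (hBD : ∀ w x y, B w x y - B w y x = al x y • (w 0 • D.Dρ 0 + w 1 • D.Dρ 1))
    (x : V2) (ξ : V3) (y : V2) (η : V3) :
    -(1 / 2) * (DD h2 D.ρ B Q Q1 Q2 x ξ x ξ y η y η + DD h2 D.ρ B Q Q1 Q2 y η y η x ξ x ξ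
      - 2 * DD h2 D.ρ B Q Q1 Q2 x ξ y η x ξ y η) =
    D.K * al x y ^ 2 - 1 / 2 * (bf (m2 Q2 x x) η η + bf (m2 Q2 y y) ξ ξ - 2 * bf (m2 Q2 x y) ξ η)
      - 3 * bf (m1 Q1 x) (U1 D.ρ x ξ y η) η + 3 * bf (m1 Q1 y) (U1 D.ρ x ξ y η) ξ
      - 3 * bf Q (U1 D.ρ x ξ y η) (U1 D.ρ x ξ y η)
      + 1 / 2 * ((ξ ⬝ᵥ ξ) * bf Q η η + (η ⬝ᵥ η) * bf Q ξ ξ - 2 * (ξ ⬝ᵥ η) * bf Q ξ η)
      - al x y * (x 0 * bf Q (D.Dρ 0) η + x 1 * bf Q (D.Dρ 1) η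
        - y 0 * bf Q (D.Dρ 0) ξ - y 1 * bf Q (D.Dρ 1) ξ) := by
  have e1 : B x x y = B x y x + al x y • (x 0 • D.Dρ 0 + x 1 • D.Dρ 1) := by
    rw [← hBD x x y]; abel
  have e2 : B y y x = B x y y - al x y • (y 0 • D.Dρ 0 + y 1 • D.Dρ 1) := by
    rw [← hBD y x y, hB x y]; abel
  have s := bf_comm_of_symm hQ
  have s1 := bf_comm_of_symm (m1_symm hQ1 x)
  have s2 := bf_comm_of_symm (m1_symm hQ1 y)
  obtain ⟨W, hW⟩ : ∃ W, W = U1 D.ρ x ξ y η := ⟨_, rfl⟩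
  have hW' : U1 D.ρ y η x ξ = -W := by rw [U1_swap, hW]
  have hk := hK x y
  unfold DD U2
  rw [U1_self, U1_self, hW', ← hW, e1, e2]
  simp only [bf_zero_left, bf_zero_right, bf_neg_left, bf_neg_right, bf_add_left, bf_add_right,
    bf_smul_left, bf_smul_right, sub_eq_add_neg]
  rw [s1 η W, s2 ξ W, s η (B x y x), s ξ (B x y y), s η (D.Dρ 0), s η (D.Dρ 1),
    s ξ (D.Dρ 0), s ξ (D.Dρ 1)]
  linear_combination hk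

/-- `ρ' × (ξ × η) = (ρ' · η) ξ - (ρ' · ξ) η` -/
theorem bac_cab (a ξ η : V3) : a ⨯₃ (ξ ⨯₃ η) = (a ⬝ᵥ η) • ξ - (a ⬝ᵥ ξ) • η := by
  simp_rw [cross_apply, vec3_dotProduct]
  ext i
  fin_cases i <;> simp <;> ring

/-- the determinant of `M` on the plane of `ξ, η` -/
theorem bf_adj {M : M33} (hM : M.IsSymm) (ξ η : V3) :
    bf M ξ ξ * bf M η η - bf M ξ η * bf M ξ η = bf M.adjugate (ξ ⨯₃ η) (ξ ⨯₃ η) := by
  have h1 : M 1 0 = M 0 1 := hM.apply 0 1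
  have h2 : M 2 0 = M 0 2 := hM.apply 0 2
  have h3 : M 2 1 = M 1 2 := hM.apply 1 2
  rw [adjugate_fin_three]
  simp only [bf, dotProduct, mulVec, Fin.sum_univ_three, cross_apply, Matrix.of_apply,
    Matrix.cons_val', Matrix.cons_val_zero, Matrix.cons_val_one, Matrix.cons_val, h1, h2, h3]
  ring

/-- the trace identity -/
theorem bf_trace {M : M33} (hM : M.IsSymm) (ξ η : V3) :
    (ξ ⬝ᵥ ξ) * bf M η η + (η ⬝ᵥ η) * bf M ξ ξ - 2 * (ξ ⬝ᵥ η) * bf M ξ η =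
      M.trace * ((ξ ⨯₃ η) ⬝ᵥ (ξ ⨯₃ η)) - bf M (ξ ⨯₃ η) (ξ ⨯₃ η) := by
  have h1 : M 1 0 = M 0 1 := hM.apply 0 1
  have h2 : M 2 0 = M 0 2 := hM.apply 0 2
  have h3 : M 2 1 = M 1 2 := hM.apply 1 2
  simp only [bf, dotProduct, mulVec, Fin.sum_univ_three, cross_apply, Matrix.trace, Matrix.diag,
    Matrix.cons_val_zero, Matrix.cons_val_one, Matrix.cons_val, h1, h2, h3]
  ring

theorem bf_one_dot (u v : V3) : bf 1 u v = u ⬝ᵥ v := by rw [bf, one_mulVec]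

theorem al_single_zero (x : V2) : al x (Pi.single 0 1) = - x 1 := by
  simp [al]

theorem al_single_one (x : V2) : al x (Pi.single 1 1) = x 0 := by
  simp [al]

/-- the cross terms of the Christoffel part: `Q_e(ρ' × z, η) = P q - R s` -/
theorem bf_cross_right (M : M33) (a ξ η v : V3) :
    bf M (a ⨯₃ (ξ ⨯₃ η)) v = (a ⬝ᵥ η) * bf M ξ v - (a ⬝ᵥ ξ) * bf M η v := by
  rw [bac_cab, sub_eq_add_neg, bf_add_left, bf_neg_left, bf_smul_left, bf_smul_left]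
  ring

/-- the horizontal Christoffel part -/
theorem gE_part {Q : M33} (hQ : Q.IsSymm) {Q1 : Fin 2 → M33} (hQ1 : ∀ e, (Q1 e).IsSymm) (ρ : V3)
    (x : V2) (ξ : V3) (y : V2) (η : V3) :
    (gE ρ Q Q1 x ξ y η 0 * gE ρ Q Q1 x ξ y η 0 + gE ρ Q Q1 x ξ y η 1 * gE ρ Q Q1 x ξ y η 1)
      - (gE ρ Q Q1 x ξ x ξ 0 * gE ρ Q Q1 y η y η 0 + gE ρ Q Q1 x ξ x ξ 1 * gE ρ Q Q1 y η y η 1) =
    1 / 4 * ((bf Q ρ (mm x ξ y η 0)) ^ 2 + (bf Q ρ (mm x ξ y η 1)) ^ 2)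
      + 1 / 2 * (bf (Q1 0) (-(mm x ξ y η 1)) ((ξ ⨯₃ η) ⨯₃ (Q *ᵥ ρ))
        + bf (Q1 1) (mm x ξ y η 0) ((ξ ⨯₃ η) ⨯₃ (Q *ᵥ ρ)))
      - 1 / 4 * (bf (Q1 0).adjugate (ξ ⨯₃ η) (ξ ⨯₃ η) + bf (Q1 1).adjugate (ξ ⨯₃ η) (ξ ⨯₃ η)) := by
  have hc : ∀ (e : Fin 2) (v : V3), bf (Q1 e) v ((ξ ⨯₃ η) ⨯₃ (Q *ᵥ ρ)) =
      (bf Q ρ ξ) * bf (Q1 e) η v - (bf Q ρ η) * bf (Q1 e) ξ v := by
    intro e v
    rw [← cross_anticomm, bf_neg_right, bf_comm_of_symm (hQ1 e), bf_cross_right]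
    have h1 : ∀ w, (Q *ᵥ ρ) ⬝ᵥ w = bf Q ρ w := fun w => by
      rw [bf_comm_of_symm hQ, bf, dotProduct_comm]
    rw [h1, h1]
    ring
  rw [← bf_adj (hQ1 0), ← bf_adj (hQ1 1), hc, hc]
  unfold gE mm
  rw [al_single_zero, al_single_zero, al_single_one, al_single_one]
  simp only [bf_neg_right, bf_add_right, bf_smul_left, bf_smul_right, sub_eq_add_neg]
  rw [bf_comm_of_symm (hQ1 0) η ξ, bf_comm_of_symm (hQ1 1) η ξ]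
  ring

/-- `Q = r² (1 - (r²/3) κ)` -/
noncomputable def Qr (r : ℝ) (D : PD) : M33 := (r ^ 2) • ((1 : M33) - (r ^ 2 / 3) • D.κ)

/-- `Q_e` -/
noncomputable def Qr1 (r : ℝ) (D : PD) (e : Fin 2) : M33 := (-(r ^ 4 / 3)) • D.κ1 e

/-- `Q_ef` -/
noncomputable def Qr2 (r : ℝ) (D : PD) (e f : Fin 2) : M33 := (-(r ^ 4 / 3)) • D.κ2 e f

theorem Qr_mulVec (r : ℝ) (D : PD) (v : V3) :
    Qr r D *ᵥ v = (r ^ 2) • (v - (r ^ 2 / 3) • (D.κ *ᵥ v)) := by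
  rw [Qr, smul_mulVec, sub_mulVec, one_mulVec, smul_mulVec]

theorem bf_Qr (r : ℝ) (D : PD) (u v : V3) :
    bf (Qr r D) u v = r ^ 2 * (u ⬝ᵥ v) - r ^ 4 / 3 * bf D.κ u v := by
  rw [bf, Qr_mulVec, dotProduct_smul, dotProduct_sub, dotProduct_smul, smul_eq_mul, smul_eq_mul]
  unfold bf
  ring

theorem m1_Qr1 (r : ℝ) (D : PD) (x : V2) : m1 (Qr1 r D) x = (-(r ^ 4 / 3)) • kx D x := by
  unfold m1 Qr1 kx
  rw [smul_add, smul_comm (x 0), smul_comm (x 1)]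

theorem gF_eq (r : ℝ) (D : PD) (x : V2) (ξ : V3) (y : V2) (η : V3) :
    gF (Qr r D) (Qr1 r D) x ξ y η = (-(r ^ 4 / 3)) • gt D x ξ y η := by
  have h1 : η ⨯₃ ξ = - (ξ ⨯₃ η) := (cross_anticomm ξ η).symm
  unfold gF gt
  rw [m1_Qr1, m1_Qr1, Qr_mulVec, Qr_mulVec, smul_mulVec, smul_mulVec]
  simp only [map_smul, map_sub, LinearMap.smul_apply, LinearMap.sub_apply, h1]
  module

theorem Qr_symm (r : ℝ) {D : PD} (h : D.κ.IsSymm) : (Qr r D).IsSymm := by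
  unfold Qr
  exact (isSymm_one.sub (h.smul _)).smul _

/-- **The algebra of block M2.** -/
theorem RJ_eq_RP {h2 : V2 → V2 → V2 → V2 → ℝ} {D : PD} {B : V2 → V2 → V2 → V3} {r : ℝ} (hr : r ≠ 0)
    (S : M33) (hκ : D.κ.IsSymm) (hκ1 : ∀ e, (D.κ1 e).IsSymm) (hκ2 : ∀ e f, (D.κ2 e f).IsSymm)
    (hκ2' : D.κ2 1 0 = D.κ2 0 1)
    (hK : ∀ x y, -(1 / 2) * (h2 x x y y + h2 y y x x - 2 * h2 x y x y) = D.K * al x y ^ 2)
    (hB : ∀ x y, B x y = B y x)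
    (hBD : ∀ w x y, B w x y - B w y x = al x y • (w 0 • D.Dρ 0 + w 1 • D.Dρ 1))
    (x : V2) (ξ : V3) (y : V2) (η : V3) :
    RJ h2 D.ρ B (Qr r D) (Qr1 r D) (Qr2 r D) ((r ^ 2)⁻¹ • S) x ξ y η = RP r D S x ξ y η := by
  have hQ := Qr_symm r hκ
  have hQ1 : ∀ e, (Qr1 r D e).IsSymm := fun e => (hκ1 e).smul _
  have p1 := DD_part (D := D) (Q2 := Qr2 r D) hQ hQ1 hK hB hBD x ξ y η
  have p2 := gE_part hQ hQ1 D.ρ x ξ y η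
  -- the `Q⁻¹` terms
  have p3 : ∀ u v : V3, bf ((r ^ 2)⁻¹ • S) ((-(r ^ 4 / 3)) • u) ((-(r ^ 4 / 3)) • v) =
      r ^ 6 / 9 * bf S u v := by
    intro u v
    rw [bf_smul_mat, bf_smul_left, bf_smul_right]
    field_simp
    ring
  have p4 : RJ h2 D.ρ B (Qr r D) (Qr1 r D) (Qr2 r D) ((r ^ 2)⁻¹ • S) x ξ y η =
      -(1 / 2) * (DD h2 D.ρ B (Qr r D) (Qr1 r D) (Qr2 r D) x ξ x ξ y η y η
        + DD h2 D.ρ B (Qr r D) (Qr1 r D) (Qr2 r D) y η y η x ξ x ξ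
        - 2 * DD h2 D.ρ B (Qr r D) (Qr1 r D) (Qr2 r D) x ξ y η x ξ y η)
      + ((gE D.ρ (Qr r D) (Qr1 r D) x ξ y η 0 * gE D.ρ (Qr r D) (Qr1 r D) x ξ y η 0
        + gE D.ρ (Qr r D) (Qr1 r D) x ξ y η 1 * gE D.ρ (Qr r D) (Qr1 r D) x ξ y η 1)
      - (gE D.ρ (Qr r D) (Qr1 r D) x ξ x ξ 0 * gE D.ρ (Qr r D) (Qr1 r D) y η y η 0
        + gE D.ρ (Qr r D) (Qr1 r D) x ξ x ξ 1 * gE D.ρ (Qr r D) (Qr1 r D) y η y η 1))
      + r ^ 6 / 9 * (bf S (gt D x ξ y η) (gt D x ξ y η) - bf S (gt D x ξ x ξ) (gt D y η y η)) := by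
    unfold RJ
    rw [gF_eq, gF_eq, gF_eq, p3, p3]
    ring
  rw [p4, p1, p2]
  unfold RP RV
  obtain ⟨z, hz⟩ : ∃ z, z = ξ ⨯₃ η := ⟨_, rfl⟩
  have p5 := bf_trace hκ ξ η
  have p6 : (ξ ⬝ᵥ ξ) * (η ⬝ᵥ η) - (ξ ⬝ᵥ η) * (ξ ⬝ᵥ η) = z ⬝ᵥ z := by
    rw [hz, cross_dot_cross, dotProduct_comm η ξ]
  rw [← hz] at p5
  have hU : U1 D.ρ x ξ y η = (1 / 2 : ℝ) • (z + al x y • D.ρ) := by rw [U1, hz]
  have a1 : ∀ e, (Qr1 r D e).adjugate = (r ^ 8 / 9) • (D.κ1 e).adjugate := by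
    intro e
    unfold Qr1
    rw [adjugate_smul, Fintype.card_fin]
    congr 1
    ring
  have a2 : Qr r D *ᵥ D.ρ = (r ^ 2) • (D.ρ - (r ^ 2 / 3) • (D.κ *ᵥ D.ρ)) := Qr_mulVec r D _
  have k1 := bf_comm_of_symm (hκ1 0)
  have k2 := bf_comm_of_symm (hκ1 1)
  rw [hU, ← hz, a1, a1, a2]
  obtain ⟨P, hP⟩ : ∃ P, P = D.ρ - (r ^ 2 / 3) • (D.κ *ᵥ D.ρ) := ⟨_, rfl⟩
  rw [← hP]
  have k3 : ∀ e f, bf (D.κ2 e f) η ξ = bf (D.κ2 e f) ξ η := fun e f => bf_comm_of_symm (hκ2 e f) η ξ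
  unfold mm m1 m2 Qr2 Qr1
  simp only [hκ2', bf_Qr, bf_add_mat, bf_smul_mat, bf_add_left, bf_add_right, bf_smul_left, bf_smul_right,
    bf_neg_left, bf_neg_right, sub_eq_add_neg, dotProduct_add, dotProduct_smul, dotProduct_neg,
    Fin.sum_univ_two, smul_eq_mul, map_smul]
  rw [k1 z η, k1 z ξ, k2 z η, k2 z ξ, k3 0 0, k3 0 1, k3 1 1, bf_comm_of_symm hκ z D.ρ, dotProduct_comm z D.ρ]
  linear_combination (r ^ 2) * p6 + (-(r ^ 4 / 6)) * p5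

end Pool.Agent.HS.M2b
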