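import Pool.Agent.HS.CoordSk
import Pool.Agent.HS.M2b
import Pool.Agent.HS.Reg
import Pool.Agent.HS.Cay2

/-!
# Block M2: the curvature form of `P` at the centre of an adapted chart
-/

set_option maxSynthPendingDepth 3

namespace Pool.Agent.HS.M2X

open Matrix Topology Filter

variable {F : Type*} [NormedAddCommGroup F] [NormedSpace ℝ F]

theorem hasFDerivAt_fst_comp {f : V2 → F} (hf : DifferentiableAt ℝ f 0) :
    HasFDerivAt (fun p : V2 × V3 => f p.1)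
      ((fderiv ℝ f 0).comp (ContinuousLinearMap.fst ℝ V2 V3)) (0, 0) := by
  have h1 : HasFDerivAt f (fderiv ℝ f 0) ((0 : V2), (0 : V3)).1 := hf.hasFDerivAt
  exact h1.comp ((0 : V2), (0 : V3)) (hasFDerivAt_fst (𝕜 := ℝ) (p := ((0 : V2), (0 : V3))))

theorem hasFDerivAt_snd_comp {f : V3 → F} (hf : DifferentiableAt ℝ f 0) :
    HasFDerivAt (fun p : V2 × V3 => f p.2)
      ((fderiv ℝ f 0).comp (ContinuousLinearMap.snd ℝ V2 V3)) (0, 0) := by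
  have h1 : HasFDerivAt f (fderiv ℝ f 0) ((0 : V2), (0 : V3)).2 := hf.hasFDerivAt
  exact h1.comp ((0 : V2), (0 : V3)) (hasFDerivAt_snd (𝕜 := ℝ) (p := ((0 : V2), (0 : V3))))

theorem cd_fst {n : WithTop ℕ∞} {f : V2 → F} (hf : ContDiffAt ℝ n f 0) :
    ContDiffAt ℝ n (fun p : V2 × V3 => f p.1) (0, 0) := by
  have h1 : ContDiffAt ℝ n f ((0 : V2), (0 : V3)).1 := hf
  exact h1.comp ((0 : V2), (0 : V3)) contDiffAt_fst

theorem cd_snd {n : WithTop ℕ∞} {f : V3 → F} (hf : ContDiffAt ℝ n f 0) :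
    ContDiffAt ℝ n (fun p : V2 × V3 => f p.2) (0, 0) := by
  have h1 : ContDiffAt ℝ n f ((0 : V2), (0 : V3)).2 := hf
  exact h1.comp ((0 : V2), (0 : V3)) contDiffAt_snd

theorem dd_fst {f : V2 → F} (hf : ContDiffAt ℝ 2 f 0) (Z W : V2 × V3) :
    dd (fun p : V2 × V3 => f p.1) (0, 0) Z W = dd f 0 Z.1 W.1 := by
  have h1 : ContDiffAt ℝ 2 f ((fun p : V2 × V3 => p.1) ((0 : V2), (0 : V3))) := hf
  have h := dd_comp (f := fun p : V2 × V3 => p.1) h1 contDiffAt_fst Z W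
  have h2 : fderiv ℝ (fun p : V2 × V3 => p.1) ((0 : V2), (0 : V3)) = ContinuousLinearMap.fst ℝ V2 V3 :=
    (hasFDerivAt_fst (𝕜 := ℝ) (p := ((0 : V2), (0 : V3)))).fderiv
  have h3 : dd (fun p : V2 × V3 => p.1) ((0 : V2), (0 : V3)) Z W = 0 :=
    dd_clm_self (ContinuousLinearMap.fst ℝ V2 V3) _ _ _
  rw [h, h2, h3, map_zero, add_zero]
  rfl

theorem dd_snd {f : V3 → F} (hf : ContDiffAt ℝ 2 f 0) (Z W : V2 × V3) :
    dd (fun p : V2 × V3 => f p.2) (0, 0) Z W = dd f 0 Z.2 W.2 := by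
  have h1 : ContDiffAt ℝ 2 f ((fun p : V2 × V3 => p.2) ((0 : V2), (0 : V3))) := hf
  have h := dd_comp (f := fun p : V2 × V3 => p.2) h1 contDiffAt_snd Z W
  have h2 : fderiv ℝ (fun p : V2 × V3 => p.2) ((0 : V2), (0 : V3)) = ContinuousLinearMap.snd ℝ V2 V3 :=
    (hasFDerivAt_snd (𝕜 := ℝ) (p := ((0 : V2), (0 : V3)))).fderiv
  have h3 : dd (fun p : V2 × V3 => p.2) ((0 : V2), (0 : V3)) Z W = 0 :=
    dd_clm_self (ContinuousLinearMap.snd ℝ V2 V3) _ _ _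
  rw [h, h2, h3, map_zero, add_zero]
  rfl

/-- `U_X = A x + E ξ` as a function of the point -/
noncomputable def uu (A : V2 → V2 →L[ℝ] V3) (X : V2 × V3) (p : V2 × V3) : V3 :=
  A p.1 X.1 + cayE p.2 X.2

/-- derivative of `U_X` at `(0,0)` -/
noncomputable def u1 (A : V2 → V2 →L[ℝ] V3) (X Z : V2 × V3) : V3 :=
  fderiv ℝ A 0 Z.1 X.1 + (1 / 2 : ℝ) • (Z.2 ⨯₃ X.2)

/-- second derivative of `U_X` at `(0,0)` -/
noncomputable def u2 (A : V2 → V2 →L[ℝ] V3) (X Z W : V2 × V3) : V3 :=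
  dd A 0 Z.1 W.1 X.1 + (-((W.2 ⬝ᵥ Z.2) / 2)) • X.2

section
variable {A : V2 → V2 →L[ℝ] V3} {q : V2 → V3 →L[ℝ] V3}

theorem cd_E (X : V2 × V3) : ContDiffAt ℝ 2 (fun a : V3 => cayE a X.2) 0 :=
  (cayE_contDiff.contDiffAt).clm_apply contDiffAt_const

theorem cd_A (hA : ContDiffAt ℝ 2 A 0) (x : V2) : ContDiffAt ℝ 2 (fun u => A u x) 0 :=
  hA.clm_apply contDiffAt_const

theorem fd_A (hA : ContDiffAt ℝ 2 A 0) (x z : V2) :
    fderiv ℝ (fun u => A u x) 0 z = fderiv ℝ A 0 z x := by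
  have h := hasFDerivAt_clm (F := V2 →L[ℝ] V3) (F' := V3) (diff1 hA) (ContinuousLinearMap.apply ℝ V3 x)
  have h2 := h.fderiv
  change fderiv ℝ (fun u => A u x) 0 = _ at h2
  rw [h2]; rfl

theorem dd_A (hA : ContDiffAt ℝ 2 A 0) (x z w : V2) :
    dd (fun u => A u x) 0 z w = dd A 0 z w x :=
  dd_clm hA (ContinuousLinearMap.apply ℝ V3 x) z w

theorem cd_uu (hA : ContDiffAt ℝ 2 A 0) (X : V2 × V3) : ContDiffAt ℝ 2 (uu A X) (0, 0) :=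
  (cd_fst (cd_A hA X.1)).add (cd_snd (cd_E X))

theorem fd_uu (hA : ContDiffAt ℝ 2 A 0) (X Z : V2 × V3) :
    fderiv ℝ (uu A X) (0, 0) Z = u1 A X Z := by
  have h := (hasFDerivAt_fst_comp (diff1 (cd_A hA X.1))).add (hasFDerivAt_snd_comp (diff1 (cd_E X)))
  have h2 := h.fderiv
  change fderiv ℝ (uu A X) (0, 0) = _ at h2
  rw [h2]
  change fderiv ℝ (fun u => A u X.1) 0 Z.1 + fderiv ℝ (fun a => cayE a X.2) 0 Z.2 = _
  rw [fd_A hA, cayE_fderiv_zero]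
  rfl

theorem dd_uu (hA : ContDiffAt ℝ 2 A 0) (X Z W : V2 × V3) :
    dd (uu A X) (0, 0) Z W = u2 A X Z W := by
  have h := dd_add (cd_fst (cd_A hA X.1)) (cd_snd (cd_E X)) Z W
  change dd (uu A X) (0, 0) Z W = _ at h
  rw [h, dd_fst (cd_A hA X.1), dd_snd (cd_E X), dd_A hA]
  have h2 : dd (fun a => cayE a X.2) 0 Z.2 W.2 = (-((W.2 ⬝ᵥ Z.2) / 2)) • X.2 :=
    cayE_fderiv2_zero W.2 Z.2 X.2
  rw [h2]
  rfl

theorem uu_zero (hA0 : A 0 = 0) (X : V2 × V3) : uu A X (0, 0) = X.2 := by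
  unfold uu
  rw [hA0, cayE_zero]
  simp

/-- `q U_Y` as a function of the point -/
noncomputable def vv (A : V2 → V2 →L[ℝ] V3) (q : V2 → V3 →L[ℝ] V3) (Y : V2 × V3) (p : V2 × V3) : V3 :=
  q p.1 (uu A Y p)

noncomputable def v1 (A : V2 → V2 →L[ℝ] V3) (q : V2 → V3 →L[ℝ] V3) (Y Z : V2 × V3) : V3 :=
  fderiv ℝ q 0 Z.1 Y.2 + q 0 (u1 A Y Z)

noncomputable def v2 (A : V2 → V2 →L[ℝ] V3) (q : V2 → V3 →L[ℝ] V3) (Y Z W : V2 × V3) : V3 :=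
  dd q 0 Z.1 W.1 Y.2 + fderiv ℝ q 0 Z.1 (u1 A Y W) + fderiv ℝ q 0 W.1 (u1 A Y Z) + q 0 (u2 A Y Z W)

theorem cd_vv (hA : ContDiffAt ℝ 2 A 0) (hq : ContDiffAt ℝ 2 q 0) (Y : V2 × V3) :
    ContDiffAt ℝ 2 (vv A q Y) (0, 0) :=
  (cd_fst hq).clm_apply (cd_uu hA Y)

theorem fd_vv (hA : ContDiffAt ℝ 2 A 0) (hA0 : A 0 = 0) (hq : ContDiffAt ℝ 2 q 0) (Y Z : V2 × V3) :
    fderiv ℝ (vv A q Y) (0, 0) Z = v1 A q Y Z := by
  have h := (hasFDerivAt_fst_comp (diff1 hq)).clm_apply (diff1 (cd_uu hA Y)).hasFDerivAt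
  have h2 := h.fderiv
  change fderiv ℝ (vv A q Y) (0, 0) = _ at h2
  rw [h2]
  change q 0 (fderiv ℝ (uu A Y) (0, 0) Z) + fderiv ℝ q 0 Z.1 (uu A Y (0, 0)) = _
  rw [fd_uu hA, uu_zero hA0, add_comm]
  rfl

theorem dd_vv (hA : ContDiffAt ℝ 2 A 0) (hA0 : A 0 = 0) (hq : ContDiffAt ℝ 2 q 0) (Y Z W : V2 × V3) :
    dd (vv A q Y) (0, 0) Z W = v2 A q Y Z W := by
  have h := dd_bilin (ContinuousLinearMap.id ℝ (V3 →L[ℝ] V3)) (cd_fst hq) (cd_uu hA Y) Z W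
  change dd (vv A q Y) (0, 0) Z W = dd (fun p : V2 × V3 => q p.1) (0, 0) Z W (uu A Y (0, 0))
    + fderiv ℝ (fun p : V2 × V3 => q p.1) (0, 0) Z (fderiv ℝ (uu A Y) (0, 0) W)
    + fderiv ℝ (fun p : V2 × V3 => q p.1) (0, 0) W (fderiv ℝ (uu A Y) (0, 0) Z)
    + q 0 (dd (uu A Y) (0, 0) Z W) at h
  rw [h, dd_fst hq, (hasFDerivAt_fst_comp (diff1 hq)).fderiv, uu_zero hA0, fd_uu hA, fd_uu hA,
    dd_uu hA]
  rfl

variable {h : V2 → V2 →L[ℝ] V2 →L[ℝ] ℝ}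

theorem GP_coeff (X Y p : V2 × V3) :
    GP h A q p X Y = h p.1 X.1 Y.1 + dotL (uu A X p) (vv A q Y p) := rfl

theorem D2_GP (hh : ContDiffAt ℝ 2 h 0) (hA : ContDiffAt ℝ 2 A 0) (hA0 : A 0 = 0)
    (hq : ContDiffAt ℝ 2 q 0) (Z W X Y : V2 × V3) :
    D2 (GP h A q) (0, 0) Z W X Y = D2 h 0 Z.1 W.1 X.1 Y.1 + (u2 A X Z W ⬝ᵥ q 0 Y.2
      + u1 A X Z ⬝ᵥ v1 A q Y W + u1 A X W ⬝ᵥ v1 A q Y Z + X.2 ⬝ᵥ v2 A q Y Z W) := by
  have hhc : ContDiffAt ℝ 2 (fun u => h u X.1 Y.1) 0 := contDiffAt_coeff hh X.1 Y.1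
  have hb : ContDiffAt ℝ 2 (fun p => dotL (uu A X p) (vv A q Y p)) ((0 : V2), (0 : V3)) := by
    have h1 : ContDiffAt ℝ 2 (fun p => dotL (uu A X p)) ((0 : V2), (0 : V3)) :=
      contDiffAt_clm (cd_uu hA X) dotL
    exact h1.clm_apply (cd_vv hA hq Y)
  have h1 := dd_add (cd_fst hhc) hb Z W
  change D2 (GP h A q) (0, 0) Z W X Y = _ at h1
  rw [h1, dd_fst hhc, dd_bilin dotL (cd_uu hA X) (cd_vv hA hq Y) Z W, dd_uu hA, fd_uu hA, fd_uu hA,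
    fd_vv hA hA0 hq, fd_vv hA hA0 hq, dd_vv hA hA0 hq, uu_zero hA0]
  have h2 : vv A q Y (0, 0) = q 0 Y.2 := by
    unfold vv; rw [uu_zero hA0]
  rw [h2]
  rfl

theorem D1_GP (hh : ContDiffAt ℝ 2 h 0) (hA : ContDiffAt ℝ 2 A 0) (hA0 : A 0 = 0)
    (hq : ContDiffAt ℝ 2 q 0) (Z X Y : V2 × V3) :
    D1 (GP h A q) (0, 0) Z X Y = D1 h 0 Z.1 X.1 Y.1 + (u1 A X Z ⬝ᵥ q 0 Y.2 + X.2 ⬝ᵥ v1 A q Y Z) := by
  have hhc : ContDiffAt ℝ 2 (fun u => h u X.1 Y.1) 0 := contDiffAt_coeff hh X.1 Y.1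
  have h3 := dotL.hasFDerivAt_of_bilinear (diff1 (cd_uu hA X)).hasFDerivAt
      (diff1 (cd_vv hA hq Y)).hasFDerivAt
  have h4 := ((hasFDerivAt_fst_comp (diff1 hhc)).add h3).fderiv
  change fderiv ℝ (fun p => GP h A q p X Y) ((0 : V2), (0 : V3)) = _ at h4
  unfold D1
  rw [h4]
  change fderiv ℝ (fun u => h u X.1 Y.1) 0 Z.1
    + (uu A X (0, 0) ⬝ᵥ fderiv ℝ (vv A q Y) (0, 0) Z
      + fderiv ℝ (uu A X) (0, 0) Z ⬝ᵥ vv A q Y (0, 0)) = _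
  have h2 : vv A q Y (0, 0) = q 0 Y.2 := by
    unfold vv; rw [uu_zero hA0]
  rw [fd_uu hA, fd_vv hA hA0 hq, uu_zero hA0, h2]
  ring

end

/-! ### jets of `qk` -/

theorem kcomp {r : ℝ} {κ : V2 → M33} (v : V3) (c : Fin 3) :
    (fun u => qk r κ u v c) = fun u => (r ^ 2 * v c) + ((-(r ^ 4 / 3) * v 0) • κ u c 0
      + ((-(r ^ 4 / 3) * v 1) • κ u c 1 + (-(r ^ 4 / 3) * v 2) • κ u c 2)) := by
  funext u
  rw [reg_qk_apply]
  simp only [Pi.smul_apply, Pi.sub_apply, smul_eq_mul, Matrix.mulVec, dotProduct, Fin.sum_univ_three]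
  ring

theorem fd_qk {r : ℝ} {κ : V2 → M33} (hk : ∀ a b, ContDiffAt ℝ 2 (fun u => κ u a b) 0)
    (z : V2) (v : V3) (c : Fin 3) :
    fderiv ℝ (qk r κ) 0 z v c = -(r ^ 4 / 3) * (fderiv ℝ (fun u => κ u c 0) 0 z * v 0
      + fderiv ℝ (fun u => κ u c 1) 0 z * v 1 + fderiv ℝ (fun u => κ u c 2) 0 z * v 2) := by
  have hq : ContDiffAt ℝ 2 (qk r κ) 0 := reg_contDiffAt_qk hk
  have h1 := (hasFDerivAt_clm (F := V3 →L[ℝ] V3) (F' := ℝ) (diff1 hq)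
    ((ContinuousLinearMap.proj (R := ℝ) (φ := fun _ : Fin 3 => ℝ) c).comp
      (ContinuousLinearMap.apply ℝ V3 v))).fderiv
  change fderiv ℝ (fun u => qk r κ u v c) 0 = _ at h1
  have h2 : fderiv ℝ (fun u => qk r κ u v c) 0 z = fderiv ℝ (qk r κ) 0 z v c := by
    rw [h1]; rfl
  rw [← h2, kcomp]
  have h3 := ((((diff1 (hk c 0)).hasFDerivAt.const_smul (-(r ^ 4 / 3) * v 0)).add
    (((diff1 (hk c 1)).hasFDerivAt.const_smul (-(r ^ 4 / 3) * v 1)).add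
      ((diff1 (hk c 2)).hasFDerivAt.const_smul (-(r ^ 4 / 3) * v 2)))).const_add (r ^ 2 * v c)).fderiv
  have h4 := congrArg (fun L : V2 →L[ℝ] ℝ => L z) h3
  refine h4.trans ?_
  change (-(r ^ 4 / 3) * v 0) * fderiv ℝ (fun u => κ u c 0) 0 z
    + ((-(r ^ 4 / 3) * v 1) * fderiv ℝ (fun u => κ u c 1) 0 z
      + (-(r ^ 4 / 3) * v 2) * fderiv ℝ (fun u => κ u c 2) 0 z) = _
  ring

theorem dd_qk {r : ℝ} {κ : V2 → M33} (hk : ∀ a b, ContDiffAt ℝ 2 (fun u => κ u a b) 0)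
    (z w : V2) (v : V3) (c : Fin 3) :
    dd (qk r κ) 0 z w v c = -(r ^ 4 / 3) * (dd (fun u => κ u c 0) 0 z w * v 0
      + dd (fun u => κ u c 1) 0 z w * v 1 + dd (fun u => κ u c 2) 0 z w * v 2) := by
  have hq : ContDiffAt ℝ 2 (qk r κ) 0 := reg_contDiffAt_qk hk
  have h1 := dd_clm (F := V3 →L[ℝ] V3) (F' := ℝ) hq
    ((ContinuousLinearMap.proj (R := ℝ) (φ := fun _ : Fin 3 => ℝ) c).comp
      (ContinuousLinearMap.apply ℝ V3 v)) z w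
  change dd (fun u => qk r κ u v c) 0 z w = dd (qk r κ) 0 z w v c at h1
  rw [← h1, kcomp]
  have c0 : ContDiffAt ℝ 2 (fun u => (-(r ^ 4 / 3) * v 0) • κ u c 0) 0 := (hk c 0).const_smul _
  have c1 : ContDiffAt ℝ 2 (fun u => (-(r ^ 4 / 3) * v 1) • κ u c 1) 0 := (hk c 1).const_smul _
  have c2 : ContDiffAt ℝ 2 (fun u => (-(r ^ 4 / 3) * v 2) • κ u c 2) 0 := (hk c 2).const_smul _
  rw [dd_add contDiffAt_const (c0.add (c1.add c2)), dd_const, dd_add c0 (c1.add c2), dd_add c1 c2,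
    dd_const_smul (hk c 0), dd_const_smul (hk c 1), dd_const_smul (hk c 2)]
  simp only [smul_eq_mul]
  ring

/-! ### adapted data -/

section
variable {h : V2 → V2 →L[ℝ] V2 →L[ℝ] ℝ} {A : V2 → V2 →L[ℝ] V3} {κ : V2 → M33} {D : PD}

theorem two_le : (2 : WithTop ℕ∞) ≤ ((⊤ : ℕ∞) : WithTop ℕ∞) := by
  have h : ((2 : ℕ∞) : WithTop ℕ∞) ≤ ((⊤ : ℕ∞) : WithTop ℕ∞) := WithTop.coe_le_coe.2 le_top
  exact h

theorem vec2 (z : V2) : z = z 0 • ev 0 + z 1 • ev 1 := by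
  funext i
  fin_cases i <;> simp [ev]

theorem vec2' (z : V2) : z = z 0 • e0 + z 1 • e1 := by
  funext i
  fin_cases i <;> simp [e0, e1]

theorem ad_h (hd : Adapted h A κ D) : ContDiffAt ℝ 2 h 0 :=
  (hd.h_smooth.self_of_nhds).of_le two_le

theorem ad_A (hd : Adapted h A κ D) : ContDiffAt ℝ 2 A 0 :=
  (hd.A_smooth.self_of_nhds).of_le two_le

theorem ad_κ (hd : Adapted h A κ D) (a b : Fin 3) : ContDiffAt ℝ 2 (fun u => κ u a b) 0 :=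
  ((hd.κ_smooth a b).self_of_nhds).of_le two_le

theorem ad_k1 (hd : Adapted h A κ D) (z : V2) (a b : Fin 3) :
    fderiv ℝ (fun u => κ u a b) 0 z = z 0 * D.κ1 0 a b + z 1 * D.κ1 1 a b := by
  conv_lhs => rw [vec2 z]
  rw [map_add, map_smul, map_smul, hd.κ1, hd.κ1]
  rfl

theorem ad_k2 (hd : Adapted h A κ D) (z w : V2) (a b : Fin 3) :
    dd (fun u => κ u a b) 0 z w = z 0 * (w 0 * D.κ2 0 0 a b + w 1 * D.κ2 0 1 a b)
      + z 1 * (w 0 * D.κ2 1 0 a b + w 1 * D.κ2 1 1 a b) := by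
  have hk := ad_κ hd a b
  have h2 : ∀ i j, dd (fun u => κ u a b) 0 (ev i) (ev j) = D.κ2 i j a b := fun i j => hd.κ2 i j a b
  conv_lhs => rw [vec2 z, vec2 w]
  rw [dd_add_left, dd_smul_left, dd_smul_left, dd_add_right hk, dd_add_right hk, dd_smul_right hk,
    dd_smul_right hk, dd_smul_right hk, dd_smul_right hk, h2, h2, h2, h2]
  rfl

theorem ad_k2_comm (hd : Adapted h A κ D) (a b : Fin 3) : D.κ2 1 0 a b = D.κ2 0 1 a b := by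
  rw [← hd.κ2, ← hd.κ2]
  exact dd_comm (ad_κ hd a b) _ _

theorem ad_κ_ev (hd : Adapted h A κ D) (a b : Fin 3) :
    (fun u => κ u a b) =ᶠ[𝓝 0] fun u => κ u b a := by
  filter_upwards [hd.κ_symm] with u hu
  exact hu.apply b a

theorem ad_κ0_symm (hd : Adapted h A κ D) (a b : Fin 3) : D.κ a b = D.κ b a := by
  rw [← hd.κ0]
  exact (ad_κ_ev hd a b).eq_of_nhds

theorem ad_κ1_symm (hd : Adapted h A κ D) (i : Fin 2) (a b : Fin 3) : D.κ1 i a b = D.κ1 i b a := by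
  rw [← hd.κ1, ← hd.κ1, (ad_κ_ev hd a b).fderiv_eq]

theorem ad_κ2_symm (hd : Adapted h A κ D) (i j : Fin 2) (a b : Fin 3) :
    D.κ2 i j a b = D.κ2 i j b a := by
  rw [← hd.κ2, ← hd.κ2]
  exact dd_congr (ad_κ_ev hd a b) _ _

theorem ad_dA (hd : Adapted h A κ D) (x y : V2) : fderiv ℝ A 0 x y = (al x y / 2) • D.ρ := by
  have h0 := hd.dA e0
  have h1 := hd.dA e1
  have h2 := hd.dA (e0 + e1)
  have h3 : FA A 0 e0 e1 = fderiv ℝ A 0 e0 e1 - fderiv ℝ A 0 e1 e0 := by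
    unfold FA
    rw [hd.A0]
    simp
  have h4 : fderiv ℝ A 0 e0 e1 + fderiv ℝ A 0 e1 e0 = 0 := by
    rw [map_add] at h2
    simp only [_root_.add_apply, map_add, h0, h1] at h2
    rw [add_comm]
    simpa using h2
  have h5 : fderiv ℝ A 0 e1 e0 = -fderiv ℝ A 0 e0 e1 := eq_neg_of_add_eq_zero_right h4
  have h6 : D.ρ = (2 : ℝ) • fderiv ℝ A 0 e0 e1 := by
    rw [← hd.ρ, h3, h5, two_smul]; abel
  conv_lhs => rw [vec2' x, vec2' y]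
  simp only [map_add, map_smul, _root_.add_apply, _root_.smul_apply, h0, h1, h5, h6, al]
  ext i
  simp only [Pi.add_apply, Pi.smul_apply, Pi.neg_apply, Pi.zero_apply, smul_eq_mul]
  ring

theorem ad_ddA (hd : Adapted h A κ D) (z x y : V2) :
    dd A 0 z x y - dd A 0 z y x = (al x y) • (z 0 • D.Dρ 0 + z 1 • D.Dρ 1) := by
  have hA := ad_A hd
  have key : ∀ i, dd A 0 (ev i) e0 e1 - dd A 0 (ev i) e1 e0 = D.Dρ i := by
    intro i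
    rw [← hd.Dρ i]
    have g1 : ∀ x y : V2, HasFDerivAt (fun u => fderiv ℝ A u x y)
        ((ContinuousLinearMap.apply ℝ V3 y).comp (fderiv ℝ (fun u => fderiv ℝ A u x) 0)) 0 := by
      intro x y
      exact hasFDerivAt_clm (F := V2 →L[ℝ] V3) (F' := V3) (diff_fderiv_apply hA x)
        (ContinuousLinearMap.apply ℝ V3 y)
    have g2 := crossL.hasFDerivAt_of_bilinear (diff1 (cd_A hA e0)).hasFDerivAt
      (diff1 (cd_A hA e1)).hasFDerivAt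
    have g3 := (((g1 e0 e1).sub (g1 e1 e0)).add g2).fderiv
    have g4 : (fun u => FA A u e0 e1) = fun u => (fderiv ℝ A u e0 e1 - fderiv ℝ A u e1 e0)
        + crossL (A u e0) (A u e1) := rfl
    rw [g4]
    have g5 := congrArg (fun L : V2 →L[ℝ] V3 => L (ev i)) g3
    refine Eq.symm (g5.trans ?_)
    change (dd A 0 (ev i) e0 e1 - dd A 0 (ev i) e1 e0)
      + (A 0 e0 ⨯₃ fderiv ℝ (fun u => A u e1) 0 (ev i)
        + fderiv ℝ (fun u => A u e0) 0 (ev i) ⨯₃ A 0 e1) = _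
    rw [hd.A0]
    simp
  have e2 : ∀ z x y : V2, dd A 0 z x y = fderiv ℝ (fderiv ℝ A) 0 z x y := by
    intro z x y; rw [dd_eq hA]
  simp only [e2] at key ⊢
  rw [← key 0, ← key 1]
  conv_lhs => rw [vec2 z, vec2' x, vec2' y]
  simp only [map_add, map_smul, _root_.add_apply, _root_.smul_apply, al]
  ext i
  simp only [Pi.add_apply, Pi.sub_apply, Pi.smul_apply, smul_eq_mul]
  ring

theorem ad_D1h (hd : Adapted h A κ D) (x u v : V2) : D1 h 0 x u v = 0 := by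
  rw [D1_fderiv (diff1 (ad_h hd)), hd.dh]; rfl

theorem ad_Gamh (hd : Adapted h A κ D) (x y : V2) : Gam h 0 x y = 0 := by
  ext z
  rw [Gam_apply (diff1 (ad_h hd)), ad_D1h hd, ad_D1h hd, ad_D1h hd]
  simp

theorem ad_Rmh (hd : Adapted h A κ D) (x y : V2) :
    -(1 / 2) * (D2 h 0 x x y y + D2 h 0 y y x x - 2 * D2 h 0 x y x y) = (al x y) ^ 2 * D.K := by
  have h1 : Rm h 0 x y = -(1 / 2) * (D2 h 0 x x y y + D2 h 0 y y x x - 2 * D2 h 0 x y x y) := by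
    unfold Rm
    rw [ad_Gamh hd, ad_Gamh hd, ad_Gamh hd]
    simp
  have hs : SymmNear h 0 := by
    filter_upwards [hd.h_inner] with u hu
    exact hu.symm
  have h2 := Rm_plane (ad_h hd) hs hd.h_inner.self_of_nhds e0 e1 (x 0) (x 1) (y 0) (y 1)
  rw [← vec2' x, ← vec2' y, hd.K] at h2
  rw [← h1, h2]
  rfl

/-- the base part of the Christoffel covector -/
noncomputable def gb (r : ℝ) (D : PD) (x : V2) (ξ : V3) (y : V2) (η : V3) : V2 :=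
  let qr : V3 := (r ^ 2) • (D.ρ - (r ^ 2 / 3) • (D.κ *ᵥ D.ρ))
  ![(-(qr ⬝ᵥ η) * x 1 - (qr ⬝ᵥ ξ) * y 1 + (r ^ 4 / 3) * bf (D.κ1 0) ξ η) / 2,
    ((qr ⬝ᵥ η) * x 0 + (qr ⬝ᵥ ξ) * y 0 + (r ^ 4 / 3) * bf (D.κ1 1) ξ η) / 2]

/-- the Christoffel covector at `(0,0)` -/
theorem ad_Gam (hd : Adapted h A κ D) (r : ℝ) (x : V2) (ξ : V3) (y : V2) (η : V3)
    (Z : V2 × V3) :
    Gam (GP h A (qk r κ)) (0, 0) (x, ξ) (y, η) Z
      = gb r D x ξ y η ⬝ᵥ Z.1 - (r ^ 4 / 3) * (gt D x ξ y η ⬝ᵥ Z.2) := by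
  obtain ⟨z, ζ⟩ := Z
  have hh := ad_h hd
  have hA := ad_A hd
  have hk := ad_κ hd
  have hq : ContDiffAt ℝ 2 (qk r κ) 0 := reg_contDiffAt_qk hk
  have hG : ContDiffAt ℝ 2 (GP h A (qk r κ)) ((0 : V2), (0 : V3)) :=
    contDiffAt_GP (p := ((0 : V2), (0 : V3))) hh hA hq
  rw [Gam_apply (diff1 hG), D1_GP hh hA hd.A0 hq, D1_GP hh hA hd.A0 hq, D1_GP hh hA hd.A0 hq,
    ad_D1h hd, ad_D1h hd, ad_D1h hd]
  simp only [u1, v1, ad_dA hd]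
  simp only [dotProduct, Fin.sum_univ_three, Fin.sum_univ_two, Pi.add_apply, fd_qk hk, ad_k1 hd,
    reg_qk_apply, hd.κ0, Pi.smul_apply, Pi.sub_apply, smul_eq_mul, gb, gt, kx, bf, mulVec, al,
    cross_apply, Matrix.cons_val_zero, Matrix.cons_val_one, Matrix.cons_val, Matrix.add_apply,
    Matrix.smul_apply, ad_κ0_symm hd 1 0, ad_κ0_symm hd 2 0, ad_κ0_symm hd 2 1,
    ad_κ1_symm hd _ 1 0, ad_κ1_symm hd _ 2 0, ad_κ1_symm hd _ 2 1]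
  ring

/-- the inner product of the Christoffel covectors -/
theorem ad_cov (hd : Adapted h A κ D) {r : ℝ} (hr : 0 < r) {S : M33}
    (hp : ∀ u : V3, u ≠ 0 → 0 < bf (1 - (r ^ 2 / 3) • D.κ) u u)
    (hS : (1 - (r ^ 2 / 3) • D.κ) * S = 1) (x : V2) (ξ : V3) (y : V2) (η : V3)
    (x' : V2) (ξ' : V3) (y' : V2) (η' : V3) :
    cov (GP h A (qk r κ) (0, 0)) (Gam (GP h A (qk r κ)) (0, 0) (x, ξ) (y, η))
      (Gam (GP h A (qk r κ)) (0, 0) (x', ξ') (y', η'))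
      = gb r D x ξ y η ⬝ᵥ gb r D x' ξ' y' η'
        + r ^ 6 / 9 * bf S (gt D x ξ y η) (gt D x' ξ' y' η') := by
  have hks : (κ 0).IsSymm := hd.κ_symm.self_of_nhds
  have hks' : D.κ.IsSymm := by rw [← hd.κ0]; exact hks
  have hi : IsInner (GP h A (qk r κ) (0, 0)) := by
    refine isInner_GP (p := ((0 : V2), (0 : V3))) hd.h_inner.self_of_nhds ?_ ?_
    · intro u v
      exact reg_qk_symm hks u v
    · intro u hu
      refine reg_qk_pos hr.ne' ?_ u hu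
      intro v hv
      have h1 := hp v hv
      rw [← hd.κ0] at h1
      exact h1
  have hGP : ∀ (b z : V2) (c ζ : V3), GP h A (qk r κ) (0, 0) (b, c) (z, ζ)
      = b ⬝ᵥ z + c ⬝ᵥ qk r κ 0 ζ := by
    intro b z c ζ
    have h1 : GP h A (qk r κ) (0, 0) (b, c) (z, ζ) = h 0 b z
      + (A 0 b + cayE 0 c) ⬝ᵥ qk r κ 0 (A 0 z + cayE 0 ζ) := rfl
    rw [h1, hd.A0, cayE_zero, hd.h0]
    simp
  -- `q (S v) = r² v`
  have hqS : ∀ v : V3, qk r κ 0 (S *ᵥ v) = (r ^ 2) • v := by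
    intro v
    rw [reg_qk_apply_mulVec, hd.κ0, smul_mulVec, mulVec_mulVec, hS, one_mulVec]
  have hsymm : ∀ u v : V3, u ⬝ᵥ qk r κ 0 v = qk r κ 0 u ⬝ᵥ v := fun u v => reg_qk_symm hks u v
  have key : ∀ (x : V2) (ξ : V3) (y : V2) (η : V3) (Z : V2 × V3),
      GP h A (qk r κ) (0, 0) (gb r D x ξ y η, (-(r ^ 2 / 3)) • (S *ᵥ gt D x ξ y η)) Z
        = Gam (GP h A (qk r κ)) (0, 0) (x, ξ) (y, η) Z := by
    intro x ξ y η Z
    obtain ⟨z, ζ⟩ := Z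
    rw [ad_Gam hd, hGP, hsymm, map_smul, hqS, smul_smul, smul_dotProduct, smul_eq_mul]
    ring
  rw [cov_eq_of hi (key x ξ y η) (key x' ξ' y' η'), hGP, hsymm, map_smul, hqS, smul_smul,
    smul_dotProduct, dotProduct_smul, smul_eq_mul, smul_eq_mul, bf]
  ring

/-- the second derivatives of the coefficients -/
theorem ad_D2 (hd : Adapted h A κ D) (r : ℝ) (x : V2) (ξ : V3) (x' : V2) (ξ' : V3) (y : V2)
    (η : V3) (y' : V2) (η' : V3) :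
    D2 (GP h A (qk r κ)) (0, 0) (x, ξ) (x', ξ') (y, η) (y', η')
      = M2b.DD (fun a b c d => D2 h 0 a b c d) D.ρ (fun z w x => dd A 0 z w x) (M2b.Qr r D)
        (M2b.Qr1 r D) (M2b.Qr2 r D) x ξ x' ξ' y η y' η' := by
  have hh := ad_h hd
  have hA := ad_A hd
  have hk := ad_κ hd
  have hq : ContDiffAt ℝ 2 (qk r κ) 0 := reg_contDiffAt_qk hk
  have q0 : ∀ v, qk r κ 0 v = M2b.Qr r D *ᵥ v := by
    intro v
    rw [reg_qk_apply_mulVec, hd.κ0]; rfl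
  have q1 : ∀ z v, fderiv ℝ (qk r κ) 0 z v = M2b.m1 (M2b.Qr1 r D) z *ᵥ v := by
    intro z v
    funext c
    rw [fd_qk hk, ad_k1 hd, ad_k1 hd, ad_k1 hd]
    simp only [M2b.m1, M2b.Qr1, mulVec, dotProduct, Fin.sum_univ_three, Matrix.add_apply,
      Matrix.smul_apply, smul_eq_mul]
    ring
  have q2 : ∀ z w v, dd (qk r κ) 0 z w v = M2b.m2 (M2b.Qr2 r D) z w *ᵥ v := by
    intro z w v
    funext c
    rw [dd_qk hk, ad_k2 hd, ad_k2 hd, ad_k2 hd]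
    simp only [M2b.m2, M2b.Qr2, mulVec, dotProduct, Fin.sum_univ_three, Matrix.add_apply,
      Matrix.smul_apply, smul_eq_mul]
    ring
  have a1 : ∀ (x y : V2) (ξ η : V3), u1 A (x, ξ) (y, η) = M2b.U1 D.ρ y η x ξ := by
    intro x y ξ η
    unfold u1 M2b.U1
    rw [ad_dA hd, smul_add, smul_smul, add_comm]
    congr 2
    ring
  have a2 : ∀ (x z w : V2) (ξ ζ ω : V3), u2 A (x, ξ) (z, ζ) (w, ω)
      = M2b.U2 (fun z w x => dd A 0 z w x) z ζ w ω x ξ := by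
    intro x z w ξ ζ ω
    unfold u2 M2b.U2
    rw [add_comm]
    congr 2
    change -((ω ⬝ᵥ ζ) / 2) = -(1 / 2 * (ζ ⬝ᵥ ω))
    rw [dotProduct_comm ω ζ]
    ring
  rw [D2_GP hh hA hd.A0 hq]
  unfold v1 v2
  simp only [a1, a2, q0, q1, q2]
  unfold M2b.DD bf
  simp only [dotProduct_add]
  ring

theorem gb_gE (r : ℝ) (D : PD) (hκ : D.κ.IsSymm) (x : V2) (ξ : V3) (y : V2) (η : V3) :
    gb r D x ξ y η 0 = M2b.gE D.ρ (M2b.Qr r D) (M2b.Qr1 r D) x ξ y η 0 ∧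
    gb r D x ξ y η 1 = M2b.gE D.ρ (M2b.Qr r D) (M2b.Qr1 r D) x ξ y η 1 := by
  have h1 : D.κ 1 0 = D.κ 0 1 := hκ.apply 0 1
  have h2 : D.κ 2 0 = D.κ 0 2 := hκ.apply 0 2
  have h3 : D.κ 2 1 = D.κ 1 2 := hκ.apply 1 2
  constructor
  · rw [M2b.gE, M2b.al_single_zero, M2b.al_single_zero, M2b.bf_Qr, M2b.bf_Qr]
    simp only [gb, M2b.Qr1, bf, dotProduct, mulVec, Fin.sum_univ_three, Pi.smul_apply,
      Pi.sub_apply, smul_eq_mul, Matrix.smul_apply, Matrix.cons_val_zero, h1, h2, h3]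
    ring
  · rw [M2b.gE, M2b.al_single_one, M2b.al_single_one, M2b.bf_Qr, M2b.bf_Qr]
    simp only [gb, M2b.Qr1, bf, dotProduct, mulVec, Fin.sum_univ_three, Pi.smul_apply,
      Pi.sub_apply, smul_eq_mul, Matrix.smul_apply, Matrix.cons_val_one, Matrix.cons_val_zero,
      h1, h2, h3]
    ring

end

/-- **Block M2.** (algebra: `M2b.RJ_eq_RP` of helper65) -/
theorem m2Stmt : M2Stmt := by
  intro h A κ D r S hd hr hp hS x ξ y η
  have hκ : D.κ.IsSymm := by rw [← hd.κ0]; exact hd.κ_symm.self_of_nhds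
  have hκ1 : ∀ e, (D.κ1 e).IsSymm := fun e => by
    ext a b; exact ad_κ1_symm hd e b a
  have hκ2 : ∀ e f, (D.κ2 e f).IsSymm := fun e f => by
    ext a b; exact ad_κ2_symm hd e f b a
  have hκ2' : D.κ2 1 0 = D.κ2 0 1 := by
    ext a b; exact ad_k2_comm hd a b
  have rj := M2b.RJ_eq_RP (h2 := fun a b c d => D2 h 0 a b c d) (D := D)
    (B := fun z w x => dd A 0 z w x) hr.ne' S hκ hκ1 hκ2 hκ2'
    (fun x y => by rw [mul_comm D.K]; exact ad_Rmh hd x y)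
    (fun x y => by funext z; rw [dd_comm (ad_A hd)])
    (fun w x y => ad_ddA hd w x y) x ξ y η
  rw [← rj]
  have c1 : ∀ (x : V2) (ξ : V3) (y : V2) (η : V3) (x' : V2) (ξ' : V3) (y' : V2) (η' : V3),
      cov (GP h A (qk r κ) (0, 0)) (Gam (GP h A (qk r κ)) (0, 0) (x, ξ) (y, η))
        (Gam (GP h A (qk r κ)) (0, 0) (x', ξ') (y', η'))
      = (M2b.gE D.ρ (M2b.Qr r D) (M2b.Qr1 r D) x ξ y η 0
          * M2b.gE D.ρ (M2b.Qr r D) (M2b.Qr1 r D) x' ξ' y' η' 0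
        + M2b.gE D.ρ (M2b.Qr r D) (M2b.Qr1 r D) x ξ y η 1
          * M2b.gE D.ρ (M2b.Qr r D) (M2b.Qr1 r D) x' ξ' y' η' 1)
        + bf ((r ^ 2)⁻¹ • S) (M2b.gF (M2b.Qr r D) (M2b.Qr1 r D) x ξ y η)
          (M2b.gF (M2b.Qr r D) (M2b.Qr1 r D) x' ξ' y' η') := by
    intro x ξ y η x' ξ' y' η'
    rw [ad_cov hd hr hp hS, M2b.gF_eq, M2b.gF_eq, M2b.bf_smul_mat, bf_smul_left,
      bf_smul_right, ← (gb_gE r D hκ x ξ y η).1, ← (gb_gE r D hκ x ξ y η).2,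
      ← (gb_gE r D hκ x' ξ' y' η').1, ← (gb_gE r D hκ x' ξ' y' η').2, dotProduct,
      Fin.sum_univ_two]
    have hr' := hr.ne'
    field_simp
    ring
  unfold Rm M2b.RJ
  rw [c1, c1, ad_D2 hd, ad_D2 hd, ad_D2 hd]

end Pool.Agent.HS.M2X

namespace Pool.Agent.HS

/-- **Block M2**: the curvature form of `P` in an adapted chart. -/
theorem m2Stmt : M2Stmt := M2X.m2Stmt

end Pool.Agent.HS
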