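import Pool.Agent.HS.CoordFin
import Pool.Agent.HS.LkMain
import Pool.Agent.HS.M2X

/-!
# Block COORD, end: the coordinate statement without hypotheses
-/

namespace Pool.Agent.HS

/-- For some `0 < d < 1` and `0 < r ≤ 1 / 20` the ambient metric `GE (hBL d) (cAL d) (qk r (kapM d))`
has the curvature properties `CoordMain`. -/
theorem hs_coord : ∃ d r : ℝ, 0 < d ∧ d < 1 ∧ 0 < r ∧ r ≤ 1 / 20 ∧
    CoordMain (GE (hBL d) (cAL d) (qk r (kapM d))) := by
  obtain ⟨d1, h0, h1, h⟩ := link_main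
  obtain ⟨r, hr, hr1, hC⟩ := exists_coordMain m2Stmt (h (d1 / 2) (by linarith) (by linarith))
  exact ⟨d1 / 2, r, by linarith, by linarith, hr, hr1, hC⟩

end Pool.Agent.HS
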