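import Pool.Agent.HS.GDefs
import Pool.Agent.HS.Loc

/-!
# LINK, definitions: adapted chart and gauge for the Euler-top data

For a point `y` of the sphere and a linear map `l : ℝ² → y^⊥` with `⟨B l x, l z⟩ = x · z`:

* `om u = B l(u) + (1/2) B (B l(u) × l(u))` and `Yc u = cayR (om u) y`: the rays `t ↦ Yc (t x)`
  have the 2-jets of the geodesics of `h`;
* `be u = a(u) + (1/2) a'(u)` (`aa`, `aa1` of `GDefs`), the gauge is `cayR (- be u)`, with
  inverse `cayR (be u)`: along rays it has the 2-jet of the parallel transport of `d + A ×`;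
* `hT`, `AT`, `kT`: base metric, connection form and matrix of `κ` in this chart and gauge
  (`nb = - be` is the angle vector of the gauge in the convention of `Loc.lean`).
-/

namespace Pool.Agent.HS

open Matrix

noncomputable section

/-- `Bv d` as a continuous linear map. -/
def BvL (d : ℝ) : V3 →L[ℝ] V3 :=
  LinearMap.toContinuousLinearMap
    { toFun := Bv d
      map_add' := by
        intro x y
        ext i
        fin_cases i <;> simp [Bv] <;> ring
      map_smul' := by
        intro c x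
        ext i
        fin_cases i <;> simp [Bv] <;> ring }

theorem BvL_apply (d : ℝ) (x : V3) : BvL d x = Bv d x := rfl

/-- `bv d` as a continuous linear map. -/
def bvL (d : ℝ) : V3 →L[ℝ] V3 :=
  LinearMap.toContinuousLinearMap
    { toFun := bv d
      map_add' := by
        intro x y
        ext i
        fin_cases i <;> simp [bv] <;> ring
      map_smul' := by
        intro c x
        ext i
        fin_cases i <;> simp [bv] <;> ring }

theorem bvL_apply (d : ℝ) (x : V3) : bvL d x = bv d x := rfl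

/-- The base metric `hB d y` as a continuous bilinear form. -/
def hBL (d : ℝ) (y : V3) : V3 →L[ℝ] V3 →L[ℝ] ℝ := (Dl d y)⁻¹ • dotL.comp (BvL d)

theorem hBL_apply (d : ℝ) (y u v : V3) : hBL d y u v = hB d y u v := by
  unfold hBL hB
  rw [_root_.smul_apply, _root_.smul_apply, smul_eq_mul, ContinuousLinearMap.comp_apply,
    dotL_apply, BvL_apply, div_eq_mul_inv, mul_comm]

/-- `Lm d y` as a continuous linear map. -/
def LmL (d : ℝ) (y : V3) : V3 →L[ℝ] V3 := (Dl d y)⁻¹ • (crossL y).comp (BvL d)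

theorem LmL_apply (d : ℝ) (y v : V3) : LmL d y v = Lm d y v := rfl

/-- The connection form `cA d y` as a continuous linear map. -/
def cAL (d : ℝ) (y : V3) : V3 →L[ℝ] V3 :=
  (1 / 2 * Dl d y) • LmL d y - (BvL d).comp (LmL d y)
    + ((d ^ 2) • (dotL wv).comp (LmL d y)).smulRight y

theorem cAL_apply (d : ℝ) (y v : V3) : cAL d y v = cA d y v := rfl

/-- The form `kap d y` as a continuous bilinear form. -/
def kapL (d : ℝ) (y : V3) : V3 →L[ℝ] V3 →L[ℝ] ℝ :=
  (15 / 16 : ℝ) • (dotL y).smulRight (dotL y)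
    + (33 / 8 * d ^ 2) • ((dotL y).smulRight (dotL wv) + (dotL wv).smulRight (dotL y))
    + (d ^ 2 / 2) • (dotL qv).smulRight (dotL qv)

theorem kapL_apply (d : ℝ) (y n m : V3) : kapL d y n m = kap d y n m := by
  unfold kapL kap
  simp only [_root_.add_apply, _root_.smul_apply, ContinuousLinearMap.smulRight_apply, smul_eq_mul,
    dotL_apply]
  ring

/-- A frame at `y`: a linear map `l` onto the plane `y^⊥` with `⟨B l x, l z⟩ = x · z`. -/
structure Fr (d : ℝ) (y : V3) (l : V2 →L[ℝ] V3) : Prop where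
  unit : y ⬝ᵥ y = 1
  perp : ∀ x, l x ⬝ᵥ y = 0
  orth : ∀ x z, Bv d (l x) ⬝ᵥ l z = x ⬝ᵥ z

/-- The angle vector of the chart. -/
def om (d : ℝ) (l : V2 →L[ℝ] V3) (u : V2) : V3 :=
  Bv d (l u) + (1 / 2 : ℝ) • Bv d (L1 d (l u))

/-- The chart of the sphere. -/
def Yc (d : ℝ) (y : V3) (l : V2 →L[ℝ] V3) (u : V2) : V3 := cayR (om d l u) y

/-- The angle vector of the gauge. -/
def be (d : ℝ) (y : V3) (l : V2 →L[ℝ] V3) (u : V2) : V3 :=
  aa d y (l u) + (1 / 2 : ℝ) • aa1 d y (l u)

/-- The angle vector of the gauge in the convention of `Loc.lean`. -/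
def nb (d : ℝ) (y : V3) (l : V2 →L[ℝ] V3) (u : V2) : V3 := -(be d y l u)

/-- The base metric in the chart. -/
def hT (d : ℝ) (y : V3) (l : V2 →L[ℝ] V3) : V2 → V2 →L[ℝ] V2 →L[ℝ] ℝ :=
  pull (hBL d) (Yc d y l)

/-- The connection form in the chart, before the gauge transformation. -/
def aT (d : ℝ) (y : V3) (l : V2 →L[ℝ] V3) (u : V2) : V2 →L[ℝ] V3 :=
  (cAL d (Yc d y l u)).comp (fderiv ℝ (Yc d y l) u)

/-- The connection form in the chart and gauge. -/
def AT (d : ℝ) (y : V3) (l : V2 →L[ℝ] V3) : V2 → V2 →L[ℝ] V3 :=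
  gA (cAL d) (Yc d y l) (nb d y l)

/-- The matrix of the form `kap d y`. -/
def kapM (d : ℝ) (y : V3) : M33 := fun i j => kap d y (Pi.single i 1) (Pi.single j 1)

/-- The matrix of `κ` in the chart and gauge. -/
def kT (d : ℝ) (y : V3) (l : V2 →L[ℝ] V3) (u : V2) : M33 := fun i j =>
  kap d (Yc d y l u) (cayR (nb d y l u) (Pi.single i 1)) (cayR (nb d y l u) (Pi.single j 1))

theorem hT_apply (d : ℝ) (y : V3) (l : V2 →L[ℝ] V3) (u x z : V2) :
    hT d y l u x z = hB d (Yc d y l u) (fderiv ℝ (Yc d y l) u x) (fderiv ℝ (Yc d y l) u z) := by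
  rw [← hBL_apply]; rfl

theorem aT_apply (d : ℝ) (y : V3) (l : V2 →L[ℝ] V3) (u x : V2) :
    aT d y l u x = cA d (Yc d y l u) (fderiv ℝ (Yc d y l) u x) := rfl

theorem kT_apply (d : ℝ) (y : V3) (l : V2 →L[ℝ] V3) (u : V2) (i j : Fin 3) :
    kT d y l u i j
      = kap d (Yc d y l u) (cayR (nb d y l u) (Pi.single i 1))
        (cayR (nb d y l u) (Pi.single j 1)) := rfl

end

end Pool.Agent.HS
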