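import Pool.Agent.HS.LocE
import Pool.Agent.HS.PolB

/-!
# Block POLAR of project HS: the sphere bundles have positive curvature
-/

set_option maxSynthPendingDepth 3

namespace Pool.Agent.HS

open Matrix Topology Filter

theorem pol_two {E F : Type*} [NormedAddCommGroup E] [NormedSpace ℝ E] [NormedAddCommGroup F] [NormedSpace ℝ F]
    {f : E → F} {p : E} (h : ContDiffAt ℝ (⊤ : ℕ∞) f p) : ContDiffAt ℝ 2 f p := by
  have h2 : ∀ n : ℕ, ContDiffAt ℝ n f p := fun n => h.of_le (by exact_mod_cast le_top)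
  exact_mod_cast h2 2

/-- Block POLAR, with the conclusion of block LOCE as hypothesis. -/
theorem polar_of_locE {h : V2 → V2 →L[ℝ] V2 →L[ℝ] ℝ} {A : V2 → V2 →L[ℝ] V3} {q : V2 → V3 →L[ℝ] V3}
    (hd : GoodData h A q)
    (hE : ∀ w : V3, w ≠ 0 → ∀ X Y : V2 × V3,
      (∀ a b c : ℝ, a • X + b • Y = c • ((0 : V2), w) → a = 0 ∧ b = 0) → 0 < Rm (GE h A q) (0, w) X Y)
    {ζ : V2 → V3} (hζ : ∀ᶠ v in 𝓝 (0 : V2), ContDiffAt ℝ (⊤ : ℕ∞) ζ v)
    (h1 : ∀ᶠ v in 𝓝 (0 : V2), ζ v ⬝ᵥ ζ v = 1) (hi : Function.Injective (fderiv ℝ ζ 0)) {t : ℝ} (ht : 0 < t) :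
    PosAt (pull (GE h A q) (fun p : V2 × V2 => (p.1, t • ζ p.2))) (0, 0) := by
  have hsq : ∀ u, IsPosOp (q u) → ∀ x y : V3, x ⬝ᵥ q u y = q u x ⬝ᵥ y := by
    intro u hu x y
    rw [hu.symm, dotProduct_comm]
  have hq0 := hd.q_pos.self_of_nhds
  have hc1 : Tendsto (fun p : V2 × V3 => p.1) (𝓝 ((0 : V2), t • ζ 0)) (𝓝 0) := continuous_fst.continuousAt
  have hc2 : Tendsto (fun p : (V2 × V2) × ℝ => p.1.1) (𝓝 (((0 : V2), (0 : V2)), t)) (𝓝 0) :=
    (continuous_fst.comp continuous_fst).continuousAt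
  have hc3 : Tendsto (fun p : (V2 × V2) × ℝ => p.1.2) (𝓝 (((0 : V2), (0 : V2)), t)) (𝓝 0) :=
    (continuous_snd.comp continuous_fst).continuousAt
  have hζd : ∀ v, ContDiffAt ℝ (⊤ : ℕ∞) ζ v → DifferentiableAt ℝ ζ v := fun v hv => hv.differentiableAt (by simp)
  have hw : t • ζ 0 ≠ 0 := by
    intro h0
    rcases smul_eq_zero.1 h0 with h2 | h2
    · exact ht.ne' h2
    · have h3 := h1.self_of_nhds
      rw [h2, dotProduct_zero] at h3
      exact zero_ne_one h3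
  refine posAt_PsiS_core (G := GE h A q) (x := ((0 : V2), (0 : V2))) ht hζ.self_of_nhds h1 hi ?_ ?_ ?_ ?_ ?_ ?_
  · exact contDiffAt_GE (p := ((0 : V2), t • ζ 0)) hd.h_smooth.self_of_nhds hd.A_smooth.self_of_nhds
      hd.q_smooth.self_of_nhds (hsq 0 hq0) hq0.pos
  · filter_upwards [hc1.eventually hd.h_inner, hc1.eventually hd.q_pos] with p hp1 hp2
    exact (isInner_GE hp1 (hsq _ hp2) hp2.pos).symm
  · exact isInner_GE (p := ((0 : V2), t • ζ 0)) hd.h_inner.self_of_nhds (hsq 0 hq0) hq0.pos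
  · filter_upwards [hc2.eventually hd.q_pos, hc3.eventually hζ, hc3.eventually h1.eventually_nhds] with p hp1 hp2 hp3 a b s s'
    exact pull_PiS (x := p.1) (hζd _ hp2) hp3 hp1 p.2 a b s s'
  · intro a
    filter_upwards [self_mem_nhdsWithin] with t' ht'
    exact mono_PsiS (x := ((0 : V2), (0 : V2))) (hζd _ hζ.self_of_nhds) hq0 ht (le_of_lt ht') a
  · exact hE (t • ζ 0) hw

/-- Block POLAR. -/
theorem polar : PolarStmt := by
  intro h A q hd hP ζ hζ h1 hi t ht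
  refine polar_of_locE hd ?_ hζ h1 hi ht
  intro w hw X Y hXY
  refine GE_pos (pol_two hd.h_smooth.self_of_nhds)
    (pol_two hd.A_smooth.self_of_nhds)
    (pol_two hd.q_smooth.self_of_nhds) hd.h_inner ?_ ?_ hP hw hXY
  · filter_upwards [hd.q_pos] with u hu x y
    rw [hu.symm, dotProduct_comm]
  · filter_upwards [hd.q_pos] with u hu
    exact hu.pos

/-- Block LOCE in the form of `CoordSk`. -/
theorem loce : LoceStmt := by
  intro h A q hd hP w
  refine GE_nonneg (pol_two hd.h_smooth.self_of_nhds)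
    (pol_two hd.A_smooth.self_of_nhds)
    (pol_two hd.q_smooth.self_of_nhds) hd.h_inner ?_ ?_ hP w
  · filter_upwards [hd.q_pos] with u hu x y
    rw [hu.symm, dotProduct_comm]
  · filter_upwards [hd.q_pos] with u hu
    exact hu.pos

end Pool.Agent.HS
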