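import Pool.Agent.HS.Loc
import Pool.Agent.HS.Cay2

/-!
# The metric of the vector bundle in a gauge (project HS)

`pull (GE h A q) (fun p => (Y p.1, cayR (b p.1) p.2)) = GE (pull h Y) (gA A Y b) (gq q Y b)`.
-/

set_option maxSynthPendingDepth 3

namespace Pool.Agent.HS

open Matrix Topology Filter

variable {B B' : Type*} [NormedAddCommGroup B] [NormedSpace ℝ B] [NormedAddCommGroup B'] [NormedSpace ℝ B']

/-- `cayR a` as a continuous linear equivalence. -/
noncomputable def cayEquiv (a : V3) : V3 ≃L[ℝ] V3 :=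
  ContinuousLinearEquiv.equivOfInverse (cayR a) (cayR (-a)) (cayR_neg a) (cayR_neg' a)

theorem cayEquiv_coe (a : V3) : (cayEquiv a : V3 →L[ℝ] V3) = cayR a := rfl

theorem cayEquiv_symm_coe (a : V3) : ((cayEquiv a).symm : V3 →L[ℝ] V3) = cayR (-a) := rfl

theorem cayEquiv_apply (a v : V3) : cayEquiv a v = cayR a v := rfl

theorem cayEquiv_symm_apply (a v : V3) : (cayEquiv a).symm v = cayR (-a) v := rfl

theorem Cw_cayR (a w : V3) : Cw (cayR a w) = (cayR a).comp ((Cw w).comp (cayR (-a))) := by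
  ext1 v
  simp only [Cw_apply, ContinuousLinearMap.comp_apply]
  rw [cayR_cross, cayR_neg']

theorem crossL_cayR (a w : V3) : crossL (cayR a w) = (cayR a).comp ((crossL w).comp (cayR (-a))) := by
  ext1 v
  simp only [crossL_apply, ContinuousLinearMap.comp_apply]
  rw [cayR_cross, cayR_neg']

/-- conjugation of `q` by a rotation -/
noncomputable def cjq (a : V3) (q : V3 →L[ℝ] V3) : V3 →L[ℝ] V3 := (cayR (-a)).comp (q.comp (cayR a))

theorem inverse_cjq (a : V3) (q : V3 →L[ℝ] V3) :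
    ContinuousLinearMap.inverse (cjq a q) = cjq a (ContinuousLinearMap.inverse q) := by
  have h1 : cjq a q = ((cayEquiv a).symm : V3 →L[ℝ] V3) ∘L (q ∘L (cayEquiv a : V3 →L[ℝ] V3)) := rfl
  rw [h1, ContinuousLinearMap.inverse_equiv_comp, ContinuousLinearMap.inverse_comp_equiv]
  rfl

theorem Sw_cayR (a w : V3) (q : V3 →L[ℝ] V3) : Sw (cjq a q) w = cjq a (Sw q (cayR a w)) := by
  unfold Sw
  rw [inverse_cjq, ← inverse_cjq a (ContinuousLinearMap.id ℝ V3 +
    (Cw (cayR a w)).comp ((ContinuousLinearMap.inverse q).comp (crossL (cayR a w))))]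
  congr 1
  ext1 v
  simp only [cjq, _root_.add_apply, ContinuousLinearMap.comp_apply, ContinuousLinearMap.id_apply,
    Cw_cayR, crossL_cayR, map_add, cayR_neg]

theorem Sw_cayR_apply (a w v : V3) (q : V3 →L[ℝ] V3) :
    Sw q (cayR a w) (cayR a v) = cayR a (Sw (cjq a q) w v) := by
  rw [Sw_cayR]
  simp only [cjq, ContinuousLinearMap.comp_apply, cayR_neg']

/-- the change of coordinates `(u, w) ↦ (Y u, R_{b(u)} w)` of the vector bundle -/
noncomputable def phiE (Y : B' → B) (b : B' → V3) (p : B' × V3) : B × V3 := (Y p.1, cayR (b p.1) p.2)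

theorem phiE_hasFDerivAt {Y : B' → B} {b : B' → V3} {p : B' × V3} (hY : DifferentiableAt ℝ Y p.1)
    (hb : DifferentiableAt ℝ b p.1) :
    HasFDerivAt (phiE Y b)
      (((fderiv ℝ Y p.1).comp (ContinuousLinearMap.fst ℝ B' V3)).prod
        ((Cw (cayR (b p.1) p.2)).comp (((cayE (b p.1)).comp (fderiv ℝ b p.1)).comp
          (ContinuousLinearMap.fst ℝ B' V3)) + (cayR (b p.1)).comp (ContinuousLinearMap.snd ℝ B' V3))) p := by
  have hf : HasFDerivAt (fun p : B' × V3 => p.1) (ContinuousLinearMap.fst ℝ B' V3) p := hasFDerivAt_fst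
  have hs : HasFDerivAt (fun p : B' × V3 => p.2) (ContinuousLinearMap.snd ℝ B' V3) p := hasFDerivAt_snd
  have h1 : HasFDerivAt (fun p : B' × V3 => Y p.1)
      ((fderiv ℝ Y p.1).comp (ContinuousLinearMap.fst ℝ B' V3)) p := hY.hasFDerivAt.comp p hf
  have h2 : HasFDerivAt (fun p : B' × V3 => b p.1)
      ((fderiv ℝ b p.1).comp (ContinuousLinearMap.fst ℝ B' V3)) p := hb.hasFDerivAt.comp p hf
  have h3 : HasFDerivAt cayR (fderiv ℝ cayR (b p.1)) (b p.1) :=
    ((cayR_contDiff (n := 1)).differentiable (by norm_num) _).hasFDerivAt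
  have h4 : HasFDerivAt (fun p : B' × V3 => cayR (b p.1))
      ((fderiv ℝ cayR (b p.1)).comp ((fderiv ℝ b p.1).comp (ContinuousLinearMap.fst ℝ B' V3))) p := by
    have h := HasFDerivAt.comp p h3 h2
    exact h
  have h5 := h4.clm_apply hs
  refine (h1.prodMk h5).congr_fderiv (ContinuousLinearMap.ext fun v => ?_)
  refine Prod.ext rfl ?_
  simp only [ContinuousLinearMap.prod_apply, _root_.add_apply, ContinuousLinearMap.comp_apply,
    ContinuousLinearMap.flip_apply, Cw_apply, ContinuousLinearMap.coe_fst', ContinuousLinearMap.coe_snd']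
  rw [fderiv_cayR_apply]
  abel

theorem phiE_fderiv_apply {Y : B' → B} {b : B' → V3} {p : B' × V3} (hY : DifferentiableAt ℝ Y p.1)
    (hb : DifferentiableAt ℝ b p.1) (x : B' × V3) :
    fderiv ℝ (phiE Y b) p x = (fderiv ℝ Y p.1 x.1,
      cayE (b p.1) (fderiv ℝ b p.1 x.1) ⨯₃ cayR (b p.1) p.2 + cayR (b p.1) x.2) := by
  rw [(phiE_hasFDerivAt hY hb).fderiv]
  rfl

/-- the covariant derivative in the gauge `R_b` -/
theorem DW_phiE (A : B → B →L[ℝ] V3) {Y : B' → B} {b : B' → V3} {p : B' × V3}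
    (hY : DifferentiableAt ℝ Y p.1) (hb : DifferentiableAt ℝ b p.1) (x : B' × V3) :
    DW A (phiE Y b p) (fderiv ℝ (phiE Y b) p x) = cayR (b p.1) (DW (gA A Y b) p x) := by
  rw [phiE_fderiv_apply hY hb]
  simp only [DW, phiE, gA, _root_.add_apply, ContinuousLinearMap.comp_apply, Cw_apply,
    ContinuousLinearMap.coe_fst', ContinuousLinearMap.coe_snd', map_add, cayR_cross, cayR_neg']
  abel

/-- **The metric of the vector bundle in a gauge.** -/
theorem pull_phiE (h : B → B →L[ℝ] B →L[ℝ] ℝ) (A : B → B →L[ℝ] V3) (q : B → V3 →L[ℝ] V3)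
    {Y : B' → B} {b : B' → V3} {p : B' × V3} (hY : DifferentiableAt ℝ Y p.1)
    (hb : DifferentiableAt ℝ b p.1) :
    pull (GE h A q) (phiE Y b) p = GE (pull h Y) (gA A Y b) (gq q Y b) p := by
  refine ContinuousLinearMap.ext fun x => ContinuousLinearMap.ext fun y => ?_
  rw [pull_apply]
  have hq : gq q Y b p.1 = cjq (b p.1) (q (Y p.1)) := rfl
  have h1 : ∀ (h : B → B →L[ℝ] B →L[ℝ] ℝ) (A : B → B →L[ℝ] V3) (q : B → V3 →L[ℝ] V3)
      (p x y : B × V3), GE h A q p x y = h p.1 x.1 y.1 + DW A p x ⬝ᵥ Sw (q p.1) p.2 (DW A p y) :=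
    fun _ _ _ _ _ _ => rfl
  have h2 : GE (pull h Y) (gA A Y b) (gq q Y b) p x y = pull h Y p.1 x.1 y.1 +
      DW (gA A Y b) p x ⬝ᵥ Sw (gq q Y b p.1) p.2 (DW (gA A Y b) p y) := rfl
  rw [h1, h2, DW_phiE A hY hb, DW_phiE A hY hb, hq, phiE_fderiv_apply hY hb, phiE_fderiv_apply hY hb,
    pull_apply]
  simp only [phiE]
  rw [Sw_cayR_apply, cayR_dot]

/-- the same with the map written out -/
theorem pullE (h : B → B →L[ℝ] B →L[ℝ] ℝ) (A : B → B →L[ℝ] V3) (q : B → V3 →L[ℝ] V3)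
    {Y : B' → B} {b : B' → V3} {p : B' × V3} (hY : DifferentiableAt ℝ Y p.1)
    (hb : DifferentiableAt ℝ b p.1) :
    pull (GE h A q) (fun p => (Y p.1, cayR (b p.1) p.2)) p = GE (pull h Y) (gA A Y b) (gq q Y b) p :=
  pull_phiE h A q hY hb

omit [NormedSpace ℝ B'] in
theorem eventually_fst {P : B' → Prop} {p : B' × V3} (h : ∀ᶠ u in 𝓝 p.1, P u) :
    ∀ᶠ q : B' × V3 in 𝓝 p, P q.1 :=
  (continuous_fst.tendsto p).eventually h

theorem pull_phiE_eventuallyEq (h : B → B →L[ℝ] B →L[ℝ] ℝ) (A : B → B →L[ℝ] V3) (q : B → V3 →L[ℝ] V3)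
    {Y : B' → B} {b : B' → V3} {p : B' × V3} (hY : ∀ᶠ u in 𝓝 p.1, DifferentiableAt ℝ Y u)
    (hb : ∀ᶠ u in 𝓝 p.1, DifferentiableAt ℝ b u) :
    pull (GE h A q) (phiE Y b) =ᶠ[𝓝 p] GE (pull h Y) (gA A Y b) (gq q Y b) := by
  filter_upwards [eventually_fst hY, eventually_fst hb] with s h1 h2
  exact pull_phiE h A q h1 h2

/-- the curvature form in the coordinates `phiE` -/
theorem Rm_pull_phiE (h : B → B →L[ℝ] B →L[ℝ] ℝ) (A : B → B →L[ℝ] V3) (q : B → V3 →L[ℝ] V3)
    {Y : B' → B} {b : B' → V3} {p : B' × V3} (hY : ∀ᶠ u in 𝓝 p.1, DifferentiableAt ℝ Y u)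
    (hb : ∀ᶠ u in 𝓝 p.1, DifferentiableAt ℝ b u) (x y : B' × V3) :
    Rm (pull (GE h A q) (phiE Y b)) p x y = Rm (GE (pull h Y) (gA A Y b) (gq q Y b)) p x y :=
  Rm_congr (pull_phiE_eventuallyEq h A q hY hb) x y

/-- smoothness of the change of coordinates -/
theorem phiE_contDiffAt {n : WithTop ℕ∞} {Y : B' → B} {b : B' → V3} {p : B' × V3}
    (hY : ContDiffAt ℝ n Y p.1) (hb : ContDiffAt ℝ n b p.1) : ContDiffAt ℝ n (phiE Y b) p := by
  have h1 : ContDiffAt ℝ n (fun p : B' × V3 => Y p.1) p := hY.comp p contDiffAt_fst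
  have h2 : ContDiffAt ℝ n (fun p : B' × V3 => b p.1) p := hb.comp p contDiffAt_fst
  have h3 : ContDiffAt ℝ n (fun p : B' × V3 => cayR (b p.1)) p := (cayR_contDiff.contDiffAt).comp p h2
  exact h1.prodMk (h3.clm_apply contDiffAt_snd)

/-- the change of coordinates is an immersion if `Y` is -/
theorem phiE_fderiv_injective {Y : B' → B} {b : B' → V3} {p : B' × V3} (hY : DifferentiableAt ℝ Y p.1)
    (hb : DifferentiableAt ℝ b p.1) (hi : Function.Injective (fderiv ℝ Y p.1)) :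
    Function.Injective (fderiv ℝ (phiE Y b) p) := by
  rw [injective_iff_map_eq_zero]
  intro x hx
  rw [phiE_fderiv_apply hY hb] at hx
  have h1 : x.1 = 0 := hi (by rw [map_zero]; exact congrArg Prod.fst hx)
  have h2 := congrArg Prod.snd hx
  simp only [h1, map_zero, LinearMap.zero_apply, zero_add, Prod.snd_zero] at h2
  have h3 : x.2 = 0 := by
    have h4 := cayR_neg (b p.1) x.2
    rw [h2, map_zero] at h4
    exact h4.symm
  exact Prod.ext h1 h3

omit [NormedAddCommGroup B] [NormedSpace ℝ B] [NormedAddCommGroup B'] [NormedSpace ℝ B'] in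
theorem phiE_zero {Y : B' → B} {b : B' → V3} {u : B'} (hb : b u = 0) (w : V3) :
    phiE Y b (u, w) = (Y u, w) := by
  simp [phiE, hb]

end Pool.Agent.HS
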