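import Pool.Agent.HS.Coord
import Pool.Agent.HS.PullE
import Pool.Agent.HS.Reg
import Pool.Agent.HS.Polar
import Pool.Agent.HS.LkDefs

/-!
# Block COORD, instantiation of the block statements
-/

set_option maxSynthPendingDepth 3

namespace Pool.Agent.HS

open Matrix Topology Filter Set

theorem pulleStmt : PulleStmt := by
  intro h A q Y b p hY hb _
  exact pullE h A q hY hb

namespace CoordFin

theorem two_le_top : (2 : WithTop ℕ∞) ≤ ((⊤ : ℕ∞) : WithTop ℕ∞) := by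
  have h : ((2 : ℕ∞) : WithTop ℕ∞) ≤ ((⊤ : ℕ∞) : WithTop ℕ∞) := WithTop.coe_le_coe.2 le_top
  exact h

theorem symm' {q : V3 →L[ℝ] V3} (hq : IsPosOp q) (x y : V3) :
    x ⬝ᵥ q y = q x ⬝ᵥ y := by
  rw [hq.symm x y, dotProduct_comm]

end CoordFin

theorem regGPStmt : RegGPStmt := by
  intro h A q hg
  have t1 : Tendsto (fun p : V2 × V3 => p.1) (𝓝 ((0 : V2), (0 : V3))) (𝓝 0) :=
    continuous_fst.tendsto _
  refine ⟨?_, ?_, ?_⟩
  · exact contDiffAt_GP (p := ((0 : V2), (0 : V3)))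
      (hg.h_smooth.self_of_nhds.of_le CoordFin.two_le_top)
      (hg.A_smooth.self_of_nhds.of_le CoordFin.two_le_top)
      (hg.q_smooth.self_of_nhds.of_le CoordFin.two_le_top)
  · filter_upwards [t1.eventually hg.h_inner, t1.eventually hg.q_pos] with p h1 h2
    exact (isInner_GP h1 (CoordFin.symm' h2) h2.pos).symm
  · exact isInner_GP (p := ((0 : V2), (0 : V3))) hg.h_inner.self_of_nhds
      (CoordFin.symm' hg.q_pos.self_of_nhds) hg.q_pos.self_of_nhds.pos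

/-- **COORD**, everything but M2 and LINK, both conclusions. -/
theorem coordMain_of_M2_link (hM2 : M2Stmt) {d : ℝ} (hL : LinkStmt (hBL d) (cAL d) (kapM d)) :
    ∃ r1 : ℝ, 0 < r1 ∧ ∀ r : ℝ, 0 < r → r ≤ r1 →
      (∀ y : V3, y ⬝ᵥ y = 1 → IsPosOp (qk r (kapM d) y)) ∧
        CoordMain (GE (hBL d) (cAL d) (qk r (kapM d))) :=
  coord_of_blocks hM2 regGPStmt loce polar pulleStmt hL

/-- **COORD**, everything but M2 and LINK. -/
theorem coord_of_M2_LINK (hM2 : M2Stmt) {d : ℝ} (hL : LinkStmt (hBL d) (cAL d) (kapM d)) :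
    ∃ r1 : ℝ, 0 < r1 ∧ ∀ r : ℝ, 0 < r → r ≤ r1 →
      CoordMain (GE (hBL d) (cAL d) (qk r (kapM d))) := by
  obtain ⟨r1, hr1, h⟩ := coordMain_of_M2_link hM2 hL
  exact ⟨r1, hr1, fun r hr hrr => (h r hr hrr).2⟩

/-- One value of `r`, at most `1 / 20`. -/
theorem exists_coordMain (hM2 : M2Stmt) {d : ℝ} (hL : LinkStmt (hBL d) (cAL d) (kapM d)) :
    ∃ r : ℝ, 0 < r ∧ r ≤ 1 / 20 ∧ CoordMain (GE (hBL d) (cAL d) (qk r (kapM d))) := by
  obtain ⟨r1, hr1, h⟩ := coord_of_M2_LINK hM2 hL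
  exact ⟨min r1 (1 / 20), lt_min hr1 (by norm_num), min_le_right _ _,
    h _ (lt_min hr1 (by norm_num)) (min_le_left _ _)⟩

end Pool.Agent.HS
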