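import Mathlib

/-!
# Coordinate curvature of a Riemannian metric (project HS, MP_55c470)

A metric in coordinates is a function `G : E → E →L[ℝ] E →L[ℝ] ℝ` on a real normed space.

* `D1 G p x u v = ∂_x (G(u,v))` and `D2 G p x y u v = ∂_x ∂_y (G(u,v))` at `p`;
* `Gam G p x y` is the Christoffel covector `z ↦ (∂_x G(y,z) + ∂_y G(x,z) - ∂_z G(x,y)) / 2`;
* `sharp g α` is the vector dual to the covector `α` (`g (sharp g α) = α` if `g` is nondegenerate),
  `cov g α β = α (sharp g β)` the inner product of covectors;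
* `Rm G p x y = -(D2 x x y y + D2 y y x x - 2 D2 x y x y) / 2 + |Γ(x,y)|² - ⟨Γ(x,x), Γ(y,y)⟩`
  is the numerator `g(R(x,y)y,x)` of the sectional curvature of the plane spanned by `x, y`.
-/

namespace Pool.Agent.HS

variable {E : Type*} [NormedAddCommGroup E] [NormedSpace ℝ E]

/-- First derivatives of the coefficients of a metric in coordinates:
`D1 G p x u v = ∂_x (G(u,v))` at `p`. -/
noncomputable def D1 (G : E → E →L[ℝ] E →L[ℝ] ℝ) (p x u v : E) : ℝ :=
  fderiv ℝ (fun q => G q u v) p x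

/-- Second derivatives of the coefficients of a metric in coordinates:
`D2 G p x y u v = ∂_x ∂_y (G(u,v))` at `p`. -/
noncomputable def D2 (G : E → E →L[ℝ] E →L[ℝ] ℝ) (p x y u v : E) : ℝ :=
  fderiv ℝ (fun q => fderiv ℝ (fun r => G r u v) q y) p x

/-- The Christoffel covector (of the first kind) of the metric `G` at `p`:
`z ↦ (∂_x G(y,z) + ∂_y G(x,z) - ∂_z G(x,y)) / 2`. -/
noncomputable def Gam (G : E → E →L[ℝ] E →L[ℝ] ℝ) (p x y : E) : E →L[ℝ] ℝ :=
  (1 / 2 : ℝ) • (fderiv ℝ (fun q => G q y) p x + fderiv ℝ (fun q => G q x) p y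
    - fderiv ℝ (fun q => G q x y) p)

/-- The vector dual to a covector `α` with respect to the bilinear form `g`
(`0` if `g` is degenerate). -/
noncomputable def sharp (g : E →L[ℝ] E →L[ℝ] ℝ) (α : E →L[ℝ] ℝ) : E :=
  ContinuousLinearMap.inverse g α

/-- The inner product of two covectors. -/
noncomputable def cov (g : E →L[ℝ] E →L[ℝ] ℝ) (α β : E →L[ℝ] ℝ) : ℝ :=
  α (sharp g β)

/-- The curvature form `g(R(x,y)y,x)` of the metric `G` at `p`: the numerator of the
sectional curvature of the plane spanned by `x` and `y`. -/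
noncomputable def Rm (G : E → E →L[ℝ] E →L[ℝ] ℝ) (p x y : E) : ℝ :=
  -(1 / 2) * (D2 G p x x y y + D2 G p y y x x - 2 * D2 G p x y x y)
    + cov (G p) (Gam G p x y) (Gam G p x y) - cov (G p) (Gam G p x x) (Gam G p y y)

/-- Sectional curvatures at `p` are positive. -/
def PosAt (G : E → E →L[ℝ] E →L[ℝ] ℝ) (p : E) : Prop :=
  ∀ x y : E, LinearIndependent ℝ ![x, y] → 0 < Rm G p x y

/-- Sectional curvatures at `p` are nonnegative. -/
def NonnegAt (G : E → E →L[ℝ] E →L[ℝ] ℝ) (p : E) : Prop :=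
  ∀ x y : E, 0 ≤ Rm G p x y

/-- The pull-back of a metric `G` in coordinates by a map `f`. -/
noncomputable def pull {F : Type*} [NormedAddCommGroup F] [NormedSpace ℝ F]
    (G : F → F →L[ℝ] F →L[ℝ] ℝ) (f : E → F) (p : E) : E →L[ℝ] E →L[ℝ] ℝ :=
  (G (f p)).bilinearComp (fderiv ℝ f p) (fderiv ℝ f p)

theorem pull_apply {F : Type*} [NormedAddCommGroup F] [NormedSpace ℝ F]
    (G : F → F →L[ℝ] F →L[ℝ] ℝ) (f : E → F) (p x y : E) :
    pull G f p x y = G (f p) (fderiv ℝ f p x) (fderiv ℝ f p y) := rfl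

/-- Symmetric and positive definite. -/
structure IsInner (g : E →L[ℝ] E →L[ℝ] ℝ) : Prop where
  symm : ∀ x y, g x y = g y x
  pos : ∀ x, x ≠ 0 → 0 < g x x

end Pool.Agent.HS
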