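import Pool.Agent.HS.Defs

set_option maxSynthPendingDepth 3

/-!
# Geodesics and total convexity of the zero section (project HS, MP_55c470)

* `IsGeodAt G u t`: the curve `u` satisfies at time `t` the geodesic equation of the metric `G` in
  coordinates, in Euler-Lagrange form `d/ds G(u)(u', z) = (1/2) ∂_z G (u', u')` for all constant
  vectors `z`.
* `hasDerivAt_radial`: derivative of `G(u)(u', R u)` for a linear vector field `R`.
-/

open Bundle Manifold Set Filter
open scoped Manifold ContDiff Topology

noncomputable section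

namespace Pool.Agent.HS

section Coord

variable {E : Type*} [NormedAddCommGroup E] [NormedSpace ℝ E]

/-- The geodesic equation at time `t` for the curve `u` and the metric `G` in coordinates, in
Euler-Lagrange form: `d/ds G(u)(u', z) = (1/2) ∂_z G (u', u')` for all constant `z`. -/
def IsGeodAt (G : E → E →L[ℝ] E →L[ℝ] ℝ) (u : ℝ → E) (t : ℝ) : Prop :=
  ∀ z : E, HasDerivAt (fun s => G (u s) (deriv u s) z)
    (1 / 2 * D1 G (u t) z (deriv u t) (deriv u t)) t

/-- Derivative of the pairing of the velocity of a geodesic with a linear vector field `R`. -/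
theorem hasDerivAt_radial {G : E → E →L[ℝ] E →L[ℝ] ℝ} {u : ℝ → E} {t : ℝ} (R : E →L[ℝ] E)
    (hG : DifferentiableAt ℝ G (u t)) (hu : ContDiffAt ℝ 2 u t) (h : IsGeodAt G u t) :
    HasDerivAt (fun s => G (u s) (deriv u s) (R (u s)))
      (1 / 2 * D1 G (u t) (R (u t)) (deriv u t) (deriv u t)
        + G (u t) (deriv u t) (R (deriv u t))) t := by
  have hu1 : HasDerivAt u (deriv u t) t := (hu.differentiableAt two_ne_zero).hasDerivAt
  have hu2 : DifferentiableAt ℝ (deriv u) t := by
    have h1 : ContDiffAt ℝ 1 (fderiv ℝ u) t := hu.fderiv_right (m := 1) (by norm_num)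
    have h2 : deriv u = fun s => fderiv ℝ u s 1 := by
      funext s
      rw [fderiv_apply_one_eq_deriv]
    rw [h2]
    exact (h1.differentiableAt one_ne_zero).clm_apply (differentiableAt_const _)
  have hGu : DifferentiableAt ℝ (fun s => G (u s)) t :=
    (hG.hasFDerivAt.comp_hasDerivAt t hu1).differentiableAt
  have hL : DifferentiableAt ℝ (fun s => G (u s) (deriv u s)) t := hGu.clm_apply hu2
  have hLz : ∀ z : E, deriv (fun s => G (u s) (deriv u s)) t z =
      1 / 2 * D1 G (u t) z (deriv u t) (deriv u t) := by
    intro z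
    have h1 : HasDerivAt (fun s => G (u s) (deriv u s) z)
        (deriv (fun s => G (u s) (deriv u s)) t z) t := by
      have := hL.hasDerivAt.clm_apply (hasDerivAt_const t z)
      simpa using this
    exact h1.unique (h z)
  have hR : HasDerivAt (fun s => R (u s)) (R (deriv u t)) t := R.hasFDerivAt.comp_hasDerivAt t hu1
  have h3 := hL.hasDerivAt.clm_apply hR
  rw [hLz] at h3
  exact h3

end Coord

end Pool.Agent.HS
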