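import Pool.Agent.HS.Chart
import Pool.Agent.HS.Soul

/-!
# Curvature, geodesics, souls and distance spheres of Riemannian manifolds (project HS, MP_55c470_gt)

A Riemannian metric on a manifold `M` (without boundary) with model space `E` is a smooth field `g` of inner products on the tangent spaces of `M`
(Mathlib's `ContMDiffRiemannianMetric`); `TangentSpace I p` is `E`, read in the preferred chart `extChartAt I p` of `M` at `p`.

* `chartMetric g p` is the metric in the preferred chart at `p`, a function of the coordinates `u : E`;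
* `curv g p x y` is the number `g(R(x,y)y,x)`, the numerator of the sectional curvature of the plane spanned by the tangent vectors `x`, `y` at `p`;
* `induced J g f` is the metric `f^* g` induced by a map `f : N → M`;
* `IsGeodesic g c T`: the curve `c` satisfies the geodesic equation on the open set `T`.
-/

set_option autoImplicit false

open Set Manifold Bundle Metric
open scoped Manifold ContDiff ENNReal Topology

noncomputable section

namespace Pool.Agent.HS

section general

variable {E : Type*} [NormedAddCommGroup E] [NormedSpace ℝ E] {H : Type*} [TopologicalSpace H] {I : ModelWithCorners ℝ E H}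
  {M : Type*} [TopologicalSpace M] [ChartedSpace H M]

/-- The curvature `g(R(x,y)y,x)`: the numerator of the sectional curvature of the plane spanned by the tangent vectors `x`, `y` at `p`. -/
def curv (g : (x : M) → TangentSpace I x →L[ℝ] TangentSpace I x →L[ℝ] ℝ) (p : M) (x y : TangentSpace I p) : ℝ :=
  Rm (chartMetric g p) (extChartAt I p p) x y

/-- All sectional curvatures are nonnegative. -/
def NonnegCurved (g : (x : M) → TangentSpace I x →L[ℝ] TangentSpace I x →L[ℝ] ℝ) : Prop :=
  ∀ (p : M) (x y : TangentSpace I p), 0 ≤ curv g p x y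

/-- All sectional curvatures are positive. -/
def PosCurved (g : (x : M) → TangentSpace I x →L[ℝ] TangentSpace I x →L[ℝ] ℝ) : Prop :=
  ∀ (p : M) (x y : TangentSpace I p), LinearIndependent ℝ ![x, y] → 0 < curv g p x y

/-- The curve `c` is a geodesic of `g` on the open set `T` of times. -/
structure IsGeodesic (g : (x : M) → TangentSpace I x →L[ℝ] TangentSpace I x →L[ℝ] ℝ) (c : ℝ → M) (T : Set ℝ) : Prop where
  isOpen : IsOpen T
  smooth : ContMDiffOn 𝓘(ℝ, ℝ) I 2 c T
  eqn : ∀ t ∈ T, IsGeodAt (chartMetric g (c t)) (fun s => extChartAt I (c t) (c s)) t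

/-- The set `S` is totally convex: every geodesic `c : [a,b] → M` with both end points in `S` stays in `S`. -/
def TotallyConvex (g : (x : M) → TangentSpace I x →L[ℝ] TangentSpace I x →L[ℝ] ℝ) (S : Set M) : Prop :=
  ∀ (c : ℝ → M) (T : Set ℝ) (a b : ℝ), IsGeodesic g c T → Icc a b ⊆ T → c a ∈ S → c b ∈ S → ∀ t ∈ Icc a b, c t ∈ S

section induced

variable {E' : Type*} [NormedAddCommGroup E'] [NormedSpace ℝ E'] {H' : Type*} [TopologicalSpace H'] (J : ModelWithCorners ℝ E' H')
  {N : Type*} [TopologicalSpace N] [ChartedSpace H' N]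

/-- The metric `f^* g` on `N` induced by a map `f : N → M`. -/
def induced (g : (x : M) → TangentSpace I x →L[ℝ] TangentSpace I x →L[ℝ] ℝ) (f : N → M) (q : N) :
    TangentSpace J q →L[ℝ] TangentSpace J q →L[ℝ] ℝ :=
  show E' →L[ℝ] E' →L[ℝ] ℝ from (show E →L[ℝ] E →L[ℝ] ℝ from g (f q)).bilinearComp
    (show E' →L[ℝ] E from mfderiv J I f q) (show E' →L[ℝ] E from mfderiv J I f q)

theorem induced_apply (g : (x : M) → TangentSpace I x →L[ℝ] TangentSpace I x →L[ℝ] ℝ) (f : N → M) (q : N) (a b : TangentSpace J q) :
    induced J g f q a b = g (f q) (mfderiv J I f q a) (mfderiv J I f q b) := rfl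

variable (I) in
/-- `f` is an injective smooth immersion. -/
structure InjImmersion (f : N → M) : Prop where
  smooth : ContMDiff J I ∞ f
  injective : Function.Injective f
  immersion : ∀ q : N, Function.Injective (mfderiv J I f q)

/-- The immersed submanifold `f : N → M` is totally geodesic: the geodesics of the induced metric are geodesics of `M`. -/
def TotallyGeodesic (g : (x : M) → TangentSpace I x →L[ℝ] TangentSpace I x →L[ℝ] ℝ) (f : N → M) : Prop :=
  ∀ (c : ℝ → N) (T : Set ℝ), IsGeodesic (induced J g f) c T → IsGeodesic g (fun t => f (c t)) T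

end induced

variable [IsManifold I ∞ M]

/-- The Riemannian distance of `x` to the set `S`: the infimum of the lengths of the curves of class `C^1` from `x` to points of `S`. -/
def distTo (g : ContMDiffRiemannianMetric I ∞ E (fun x : M => TangentSpace I x)) (S : Set M) (x : M) : ℝ≥0∞ :=
  letI : RiemannianBundle (fun x : M => TangentSpace I x) := ⟨g.toRiemannianMetric⟩
  ⨅ s ∈ S, riemannianEDist I x s

/-- The manifold `M` with the Riemannian distance is a complete metric space. -/
def IsCompleteMetric [T3Space M] (g : ContMDiffRiemannianMetric I ∞ E (fun x : M => TangentSpace I x)) : Prop :=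
  letI : RiemannianBundle (fun x : M => TangentSpace I x) := ⟨g.toRiemannianMetric⟩
  haveI : IsContinuousRiemannianBundle E (fun x : M => TangentSpace I x) := ⟨g.inner, g.contMDiff.continuous, fun _ _ _ => rfl⟩
  @CompleteSpace M (EMetricSpace.ofRiemannianMetric I M).toUniformSpace

end general

/-- The space `ℝ^3`. -/
abbrev R3 : Type := EuclideanSpace ℝ (Fin 3)

instance : Fact (Module.finrank ℝ R3 = 2 + 1) := ⟨by simp⟩

/-- The unit sphere `S^2` of `ℝ^3`. -/
abbrev S2 : Type := sphere (0 : R3) 1

/-- The model of the manifold `S^2 × ℝ^3`. -/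
abbrev IE : ModelWithCorners ℝ (EuclideanSpace ℝ (Fin 2) × R3) (ModelProd (EuclideanSpace ℝ (Fin 2)) R3) := (𝓡 2).prod 𝓘(ℝ, R3)

/-- The model of the manifold `S^2 × S^2`. -/
abbrev IS : ModelWithCorners ℝ (EuclideanSpace ℝ (Fin 2) × EuclideanSpace ℝ (Fin 2)) (ModelProd (EuclideanSpace ℝ (Fin 2)) (EuclideanSpace ℝ (Fin 2))) :=
  (𝓡 2).prod (𝓡 2)

/-- The zero section `S^2 → S^2 × ℝ^3`. -/
def zeroSec (y : S2) : S2 × R3 := (y, 0)

/-- The map `S^2 × S^2 → S^2 × ℝ^3`, `(y, z) ↦ (y, r z)`. -/
def tube (r : ℝ) (q : S2 × S2) : S2 × R3 := (q.1, r • (q.2 : R3))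

/-- The Riemannian metrics on `S^2 × ℝ^3`. -/
abbrev MetricE : Type := ContMDiffRiemannianMetric IE ∞ (EuclideanSpace ℝ (Fin 2) × R3) (fun x : S2 × R3 => TangentSpace IE x)

/-- The Riemannian metric `g` on `S^2 × ℝ^3` is complete and has nonnegative sectional curvature; `S^2 × {0}` is its soul (a compact, totally geodesic and
totally convex submanifold); and for all `r > 0` the distance sphere `Σ_r` of radius `r` about the soul is `{(y, w) : |w| = r}`, the image of the injective
immersion `tube r` of `S^2 × S^2`, and the metric induced on it has positive sectional curvature. -/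
structure HasPositiveTubes (g : MetricE) : Prop where
  complete : IsCompleteMetric g
  nonneg : NonnegCurved g.inner
  soul_immersion : InjImmersion IE (𝓡 2) zeroSec
  soul_convex : TotallyConvex g.inner (range zeroSec)
  soul_geodesic : TotallyGeodesic (𝓡 2) g.inner zeroSec
  sphere_immersion : ∀ r : ℝ, 0 < r → InjImmersion IE IS (tube r)
  sphere_eq : ∀ r : ℝ, 0 < r → {x | distTo g (range zeroSec) x = ENNReal.ofReal r} = range (tube r)
  sphere_pos : ∀ r : ℝ, 0 < r → PosCurved (induced IS g.inner (tube r))

end Pool.Agent.HS
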