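import Pool.Agent.HS.FDefs

/-!
# The statement of the main theorem (project HS, MP_55c470_gt)

The properties of the main theorem for a metric on a manifold `M`, and the statement for `M = N × V` with a manifold `N` and a Euclidean space `V` of
dimension `n + 1`.  `curv`, `NonnegCurved`, `PosCurved`, `induced`, `TotallyConvex`, `TotallyGeodesic`, `InjImmersion`, `distTo`, `IsCompleteMetric` are from
`FDefs`.
-/

set_option autoImplicit false

open Set Manifold Bundle Metric
open scoped Manifold ContDiff ENNReal Topology

noncomputable section

namespace Pool.Agent.HS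

section general

variable {E : Type*} [NormedAddCommGroup E] [NormedSpace ℝ E] {H : Type*} [TopologicalSpace H]
  (I : ModelWithCorners ℝ E H) (M : Type*) [TopologicalSpace M] [ChartedSpace H M] [IsManifold I ∞ M]

/-- The smooth Riemannian metrics on the manifold `M`. -/
abbrev RMetric : Type _ := ContMDiffRiemannianMetric I ∞ E (fun x : M => TangentSpace I x)

variable {I M}
variable {E₁ : Type*} [NormedAddCommGroup E₁] [NormedSpace ℝ E₁] {H₁ : Type*} [TopologicalSpace H₁]
  (J : ModelWithCorners ℝ E₁ H₁) {N : Type*} [TopologicalSpace N] [ChartedSpace H₁ N]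
  {E₂ : Type*} [NormedAddCommGroup E₂] [NormedSpace ℝ E₂] {H₂ : Type*} [TopologicalSpace H₂]
  (K : ModelWithCorners ℝ E₂ H₂) {Q : Type*} [TopologicalSpace Q] [ChartedSpace H₂ Q]

/-- The Riemannian metric `g` on `M` is complete and has nonnegative sectional curvature; the image of `s : N → M` is a soul (a compact, totally geodesic and
totally convex submanifold); and for all `r > 0` the distance sphere of radius `r` about the soul is the image of the injective immersion `τ r : Q → M`, and
the metric induced on it has positive sectional curvature. -/
structure PositiveTubes [T3Space M] (g : RMetric I M) (s : N → M) (τ : ℝ → Q → M) : Prop where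
  complete : IsCompleteMetric g
  nonneg : NonnegCurved g.inner
  soul_immersion : InjImmersion I J s
  soul_compact : IsCompact (range s)
  soul_geodesic : TotallyGeodesic J g.inner s
  soul_convex : TotallyConvex g.inner (range s)
  sphere_immersion : ∀ r : ℝ, 0 < r → InjImmersion I K (τ r)
  sphere_eq : ∀ r : ℝ, 0 < r → {x | distTo g (range s) x = ENNReal.ofReal r} = range (τ r)
  sphere_pos : ∀ r : ℝ, 0 < r → PosCurved (induced K g.inner (τ r))

end general

section product

variable {E₁ : Type*} [NormedAddCommGroup E₁] [NormedSpace ℝ E₁] {H₁ : Type*} [TopologicalSpace H₁]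
  (J : ModelWithCorners ℝ E₁ H₁) (N : Type*) [TopologicalSpace N] [ChartedSpace H₁ N] [IsManifold J ∞ N] [T3Space N]
  (V : Type*) [NormedAddCommGroup V] [InnerProductSpace ℝ V] (n : ℕ) [Fact (Module.finrank ℝ V = n + 1)]

/-- There is a complete Riemannian metric of nonnegative sectional curvature on `N × V` with soul `N × {0}` such that for every `r > 0` the distance sphere of
radius `r` about `N × {0}` is `{(y, w) : |w| = r}`, the image of the injective immersion `(y, z) ↦ (y, r z)` of `N × S(V)`, and the metric induced on it has
positive sectional curvature. -/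
def HasMetricWithPositiveTubes : Prop :=
  ∃ g : RMetric (J.prod 𝓘(ℝ, V)) (N × V), PositiveTubes J (J.prod (𝓡 n)) g (fun y : N => (y, (0 : V)))
    (fun (r : ℝ) (q : N × sphere (0 : V) 1) => (q.1, r • (q.2 : V)))

end product

end Pool.Agent.HS
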