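import Pool.Agent.HS.GZero

/-!
# Block G: continuity of the scaled form at `d = 0`
-/

open Matrix Topology

namespace Pool.Agent.HS

noncomputable section

variable {X : Type*} [TopologicalSpace X] {a : X} {d x z t : X → ℝ}
  {y L f g : X → Fin 3 → ℝ}

theorem ca_coord (hf : ContinuousAt f a) (i : Fin 3) : ContinuousAt (fun p => f p i) a :=
  continuousAt_pi.1 hf i

theorem ca_cross (hf : ContinuousAt f a) (hg : ContinuousAt g a) :
    ContinuousAt (fun p => f p ⨯₃ g p) a := by
  have f0 := ca_coord hf 0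
  have f1 := ca_coord hf 1
  have f2 := ca_coord hf 2
  have g0 := ca_coord hg 0
  have g1 := ca_coord hg 1
  have g2 := ca_coord hg 2
  refine continuousAt_pi.2 fun i => ?_
  fin_cases i
  · have h : ContinuousAt (fun p => f p 1 * g p 2 - f p 2 * g p 1) a :=
      (f1.mul g2).sub (f2.mul g1)
    simpa [cross_apply] using h
  · have h : ContinuousAt (fun p => f p 2 * g p 0 - f p 0 * g p 2) a :=
      (f2.mul g0).sub (f0.mul g2)
    simpa [cross_apply] using h
  · have h : ContinuousAt (fun p => f p 0 * g p 1 - f p 1 * g p 0) a :=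
      (f0.mul g1).sub (f1.mul g0)
    simpa [cross_apply] using h

theorem ca_dot (hf : ContinuousAt f a) (hg : ContinuousAt g a) :
    ContinuousAt (fun p => f p ⬝ᵥ g p) a := by
  have h : ContinuousAt (fun p => f p 0 * g p 0 + f p 1 * g p 1 + f p 2 * g p 2) a :=
    (((ca_coord hf 0).mul (ca_coord hg 0)).add ((ca_coord hf 1).mul (ca_coord hg 1))).add
      ((ca_coord hf 2).mul (ca_coord hg 2))
  simpa [dotProduct, Fin.sum_univ_three] using h

theorem ca_dotc (c : Fin 3 → ℝ) (hg : ContinuousAt g a) :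
    ContinuousAt (fun p => c ⬝ᵥ g p) a := ca_dot continuousAt_const hg

theorem ca_Bv (hd : ContinuousAt d a) (hf : ContinuousAt f a) :
    ContinuousAt (fun p => Bv (d p) (f p)) a := by
  refine continuousAt_pi.2 fun i => ?_
  fin_cases i
  · have h : ContinuousAt (fun p => (1 + d p) * f p 0) a :=
      (continuousAt_const.add hd).mul (ca_coord hf 0)
    simpa [Bv] using h
  · simpa [Bv] using ca_coord hf 1
  · have h : ContinuousAt (fun p => (1 - d p) * f p 2) a :=
      (continuousAt_const.sub hd).mul (ca_coord hf 2)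
    simpa [Bv] using h

theorem ca_bv (hd : ContinuousAt d a) (hf : ContinuousAt f a) :
    ContinuousAt (fun p => bv (d p) (f p)) a := by
  refine continuousAt_pi.2 fun i => ?_
  fin_cases i
  · have h : ContinuousAt (fun p => (1 - d p) * f p 0) a :=
      (continuousAt_const.sub hd).mul (ca_coord hf 0)
    simpa [bv] using h
  · have h : ContinuousAt (fun p => (1 - d p ^ 2) * f p 1) a :=
      (continuousAt_const.sub (hd.pow 2)).mul (ca_coord hf 1)
    simpa [bv] using h
  · have h : ContinuousAt (fun p => (1 + d p) * f p 2) a :=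
      (continuousAt_const.add hd).mul (ca_coord hf 2)
    simpa [bv] using h

theorem ca_Ph (hf : ContinuousAt f a) : ContinuousAt (fun p => Ph (f p)) a := by
  refine continuousAt_pi.2 fun i => ?_
  fin_cases i
  · simpa [Ph] using ca_coord hf 0
  · simpa [Ph] using (continuousAt_const : ContinuousAt (fun _ : X => (0 : ℝ)) a)
  · have h : ContinuousAt (fun p => -(f p 2)) a := (ca_coord hf 2).neg
    simpa [Ph] using h

variable (hd : ContinuousAt d a) (hy : ContinuousAt y a) (hL : ContinuousAt L a)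
  (hx : ContinuousAt x a) (hz : ContinuousAt z a) (ht : ContinuousAt t a)

include hd hy in
theorem ca_Dl : ContinuousAt (fun p => Dl (d p) (y p)) a := ca_dot (ca_bv hd hy) hy

include hd hy in
theorem ca_tau : ContinuousAt (fun p => tau (d p) (y p)) a :=
  ca_dot (ca_bv hd hy) (ca_bv hd hy)

include hd hy hL in
theorem ca_y1 : ContinuousAt (fun p => y1 (d p) (y p) (L p)) a := ca_cross (ca_Bv hd hL) hy

include hd hL in
theorem ca_L1 : ContinuousAt (fun p => L1 (d p) (L p)) a := ca_cross (ca_Bv hd hL) hL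

include hd hy hL in
theorem ca_y2 : ContinuousAt (fun p => y2 (d p) (y p) (L p)) a :=
  (ca_cross (ca_Bv hd (ca_L1 hd hL)) hy).add (ca_cross (ca_Bv hd hL) (ca_y1 hd hy hL))

include hd hy hL in
theorem ca_Dl1 : ContinuousAt (fun p => Dl1 (d p) (y p) (L p)) a :=
  continuousAt_const.mul (ca_dot (ca_bv hd hy) (ca_y1 hd hy hL))

include hd hy hL in
theorem ca_tau1 : ContinuousAt (fun p => tau1 (d p) (y p) (L p)) a :=
  continuousAt_const.mul (ca_dot (ca_bv hd hy) (ca_bv hd (ca_y1 hd hy hL)))

include hL in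
theorem ca_l1 : ContinuousAt (fun p => l1 (L p)) a := ca_cross (ca_Ph hL) hL

include hL in
theorem ca_l2 : ContinuousAt (fun p => l2 (L p)) a :=
  (ca_cross (ca_Ph (ca_l1 hL)) hL).add (ca_cross (ca_Ph hL) (ca_l1 hL))

include hy hL in
theorem ca_TT : ContinuousAt (fun p => TT (y p) (L p)) a := ca_cross hL hy

include hd hy hL in
theorem ca_T1 : ContinuousAt (fun p => T1 (d p) (y p) (L p)) a :=
  ca_cross (ca_Bv hd hL) (ca_TT hy hL)

include hd hy hL in
theorem ca_T2 : ContinuousAt (fun p => T2 (d p) (y p) (L p)) a :=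
  (ca_cross (ca_Bv hd (ca_L1 hd hL)) (ca_TT hy hL)).add
    (ca_cross (ca_Bv hd hL) (ca_T1 hd hy hL))

include hd hy in
theorem ca_Fy (h1 : Dl (d a) (y a) ≠ 0) (h2 : 1 - d a ^ 2 ≠ 0) :
    ContinuousAt (fun p => Fy (d p) (y p)) a := by
  have k1 := ca_Dl hd hy
  have k2 := ca_tau hd hy
  have k3 : ContinuousAt (fun p => (Dl (d p) (y p))⁻¹) a := k1.inv₀ h1
  have k4 : ContinuousAt (fun p => (1 - d p ^ 2)⁻¹) a :=
    (continuousAt_const.sub (hd.pow 2)).inv₀ h2
  have k5 : ContinuousAt (fun p => bv (d p) wv ⬝ᵥ y p) a :=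
    ca_dot (ca_bv hd continuousAt_const) hy
  have k6 : ContinuousAt (fun p => bv (d p) (bv (d p) wv) ⬝ᵥ y p) a :=
    ca_dot (ca_bv hd (ca_bv hd continuousAt_const)) hy
  unfold Fy
  (repeat' (first
    | assumption | exact continuousAt_const | apply ContinuousAt.add | apply ContinuousAt.sub
    | apply ContinuousAt.mul | apply ContinuousAt.neg | apply ContinuousAt.pow))

include hd hy hL in
theorem ca_Fy1 (h1 : Dl (d a) (y a) ≠ 0) (h2 : 1 - d a ^ 2 ≠ 0) :
    ContinuousAt (fun p => Fy1 (d p) (y p) (L p)) a := by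
  have k1 := ca_Dl hd hy
  have k2 := ca_tau hd hy
  have k3 : ContinuousAt (fun p => (Dl (d p) (y p))⁻¹) a := k1.inv₀ h1
  have k4 : ContinuousAt (fun p => (1 - d p ^ 2)⁻¹) a :=
    (continuousAt_const.sub (hd.pow 2)).inv₀ h2
  have k5 : ContinuousAt (fun p => bv (d p) wv ⬝ᵥ y p) a :=
    ca_dot (ca_bv hd continuousAt_const) hy
  have k6 : ContinuousAt (fun p => bv (d p) (bv (d p) wv) ⬝ᵥ y p) a :=
    ca_dot (ca_bv hd (ca_bv hd continuousAt_const)) hy
  have k7 := ca_Dl1 hd hy hL
  have k8 := ca_tau1 hd hy hL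
  have k9 : ContinuousAt (fun p => bv (d p) wv ⬝ᵥ y1 (d p) (y p) (L p)) a :=
    ca_dot (ca_bv hd continuousAt_const) (ca_y1 hd hy hL)
  have k10 : ContinuousAt (fun p => bv (d p) (bv (d p) wv) ⬝ᵥ y1 (d p) (y p) (L p)) a :=
    ca_dot (ca_bv hd (ca_bv hd continuousAt_const)) (ca_y1 hd hy hL)
  unfold Fy1
  (repeat' (first
    | assumption | exact continuousAt_const | apply ContinuousAt.add | apply ContinuousAt.sub
    | apply ContinuousAt.mul | apply ContinuousAt.neg | apply ContinuousAt.pow))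

include hd hy in
theorem ca_KG (h1 : Dl (d a) (y a) ≠ 0) (h2 : 1 - d a ^ 2 ≠ 0) :
    ContinuousAt (fun p => KG (d p) (y p)) a := by
  have k1 := ca_Dl hd hy
  have k2 := ca_tau hd hy
  have k3 : ContinuousAt (fun p => (Dl (d p) (y p))⁻¹) a := k1.inv₀ h1
  have k4 : ContinuousAt (fun p => (1 - d p ^ 2)⁻¹) a :=
    (continuousAt_const.sub (hd.pow 2)).inv₀ h2
  unfold KG
  (repeat' (first
    | assumption | exact continuousAt_const | apply ContinuousAt.add | apply ContinuousAt.sub
    | apply ContinuousAt.mul | apply ContinuousAt.neg | apply ContinuousAt.pow))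

include hd hy hz in
theorem ca_sx1 : ContinuousAt (fun p => sx1 (d p) (y p) (z p)) a := by
  have k1 := ca_Dl hd hy
  unfold sx1; (repeat' (first
    | assumption | exact continuousAt_const | apply ContinuousAt.add | apply ContinuousAt.sub
    | apply ContinuousAt.mul | apply ContinuousAt.neg | apply ContinuousAt.pow))

include hd hy hL hx ht in
theorem ca_sz1 : ContinuousAt (fun p => sz1 (d p) (y p) (L p) (x p) (t p)) a := by
  have k1 := ca_Dl hd hy
  have k2 := ca_dotc wv hL
  unfold sz1; (repeat' (first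
    | assumption | exact continuousAt_const | apply ContinuousAt.add | apply ContinuousAt.sub
    | apply ContinuousAt.mul | apply ContinuousAt.neg | apply ContinuousAt.pow))

include hd hy hL hx hz ht in
theorem ca_sx2 : ContinuousAt (fun p => sx2 (d p) (y p) (L p) (x p) (z p) (t p)) a := by
  have k1 := ca_Dl hd hy
  have k2 := ca_Dl1 hd hy hL
  have k3 := ca_sz1 hd hy hL hx ht
  unfold sx2; (repeat' (first
    | assumption | exact continuousAt_const | apply ContinuousAt.add | apply ContinuousAt.sub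
    | apply ContinuousAt.mul | apply ContinuousAt.neg | apply ContinuousAt.pow))

include hd hy hL hx hz ht in
theorem ca_sz2 : ContinuousAt (fun p => sz2 (d p) (y p) (L p) (x p) (z p) (t p)) a := by
  have k1 := ca_Dl hd hy
  have k2 := ca_Dl1 hd hy hL
  have k3 := ca_sx1 hd hy hz
  have k4 := ca_dotc wv (ca_l1 hL)
  have k5 := ca_dotc wv hL
  unfold sz2; (repeat' (first
    | assumption | exact continuousAt_const | apply ContinuousAt.add | apply ContinuousAt.sub
    | apply ContinuousAt.mul | apply ContinuousAt.neg | apply ContinuousAt.pow))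

include hd hy hL hx hz ht in
theorem ca_c0 (c : Fin 3 → ℝ) :
    ContinuousAt (fun p => c0 (d p) (y p) (L p) c (x p) (z p) (t p)) a := by
  have k1 := ca_dotc c hy
  have k2 := ca_dotc c hL
  have k3 := ca_dotc c (ca_TT hy hL)
  unfold c0; (repeat' (first
    | assumption | exact continuousAt_const | apply ContinuousAt.add | apply ContinuousAt.sub
    | apply ContinuousAt.mul | apply ContinuousAt.neg | apply ContinuousAt.pow))

include hd hy hL hx hz ht in
theorem ca_c1 (c : Fin 3 → ℝ) :
    ContinuousAt (fun p => c1 (d p) (y p) (L p) c (x p) (z p) (t p)) a := by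
  have k1 := ca_dotc c hy
  have k2 := ca_dotc c hL
  have k3 := ca_dotc c (ca_TT hy hL)
  have k4 := ca_dotc c (ca_y1 hd hy hL)
  have k5 := ca_dotc c (ca_T1 hd hy hL)
  have k6 := ca_dotc c (ca_l1 hL)
  have k7 := ca_dotc wv hL
  have k8 := ca_sx1 hd hy hz
  have k9 := ca_sz1 hd hy hL hx ht
  unfold c1; (repeat' (first
    | assumption | exact continuousAt_const | apply ContinuousAt.add | apply ContinuousAt.sub
    | apply ContinuousAt.mul | apply ContinuousAt.neg | apply ContinuousAt.pow))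

include hd hy hL hx hz ht in
theorem ca_c2 (c : Fin 3 → ℝ) :
    ContinuousAt (fun p => c2 (d p) (y p) (L p) c (x p) (z p) (t p)) a := by
  have k1 := ca_dotc c hy
  have k2 := ca_dotc c hL
  have k3 := ca_dotc c (ca_TT hy hL)
  have k4 := ca_dotc c (ca_y1 hd hy hL)
  have k5 := ca_dotc c (ca_T1 hd hy hL)
  have k6 := ca_dotc c (ca_l1 hL)
  have k7 := ca_dotc wv hL
  have k8 := ca_sx1 hd hy hz
  have k9 := ca_sz1 hd hy hL hx ht
  have k10 := ca_sx2 hd hy hL hx hz ht
  have k11 := ca_sz2 hd hy hL hx hz ht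
  have k12 := ca_dotc c (ca_y2 hd hy hL)
  have k13 := ca_dotc c (ca_T2 hd hy hL)
  have k14 := ca_dotc wv (ca_l1 hL)
  have k15 := ca_dotc c (ca_l2 hL)
  unfold c2; (repeat' (first
    | assumption | exact continuousAt_const | apply ContinuousAt.add | apply ContinuousAt.sub
    | apply ContinuousAt.mul | apply ContinuousAt.neg | apply ContinuousAt.pow))

include hd hy hL hx hz ht in
theorem ca_fh (h1 : Dl (d a) (y a) ≠ 0) (h2 : 1 - d a ^ 2 ≠ 0) :
    ContinuousAt (fun p => fh (d p) (y p) (L p) (x p) (z p) (t p)) a := by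
  have k1 := ca_Fy hd hy h1 h2
  have k2 := ca_c0 hd hy hL hx hz ht wv
  have k3 := ca_dotc wv hy
  unfold fh; (repeat' (first
    | assumption | exact continuousAt_const | apply ContinuousAt.add | apply ContinuousAt.sub
    | apply ContinuousAt.mul | apply ContinuousAt.neg | apply ContinuousAt.pow))

include hd hy hL hx hz ht in
theorem ca_f1h (h1 : Dl (d a) (y a) ≠ 0) (h2 : 1 - d a ^ 2 ≠ 0) :
    ContinuousAt (fun p => f1h (d p) (y p) (L p) (x p) (z p) (t p)) a := by
  have k1 := ca_Fy hd hy h1 h2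
  have k2 := ca_Fy1 hd hy hL h1 h2
  have k3 := ca_dotc wv hy
  have k4 := ca_dotc wv (ca_y1 hd hy hL)
  have k5 := ca_c1 hd hy hL hx hz ht wv
  have k6 := ca_sx1 hd hy hz
  unfold f1h; (repeat' (first
    | assumption | exact continuousAt_const | apply ContinuousAt.add | apply ContinuousAt.sub
    | apply ContinuousAt.mul | apply ContinuousAt.neg | apply ContinuousAt.pow))

include hd hy hL hx hz ht in
theorem ca_HH (h1 : Dl (d a) (y a) ≠ 0) (h2 : 1 - d a ^ 2 ≠ 0) (h3 : KG (d a) (y a) ≠ 0) :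
    ContinuousAt (fun p => HH (d p) (y p) (L p) (x p) (z p) (t p)) a := by
  have k1 := ca_Dl hd hy
  have k2 : ContinuousAt (fun p => Bv (d p) (L p) ⬝ᵥ L p) a := ca_dot (ca_Bv hd hL) hL
  have k3 := ca_fh hd hy hL hx hz ht h1 h2
  have k4 := ca_f1h hd hy hL hx hz ht h1 h2
  have k5 := ca_sx1 hd hy hz
  have k6 := ca_sx2 hd hy hL hx hz ht
  have k7 := ca_c0 hd hy hL hx hz ht wv
  have k8 := ca_c1 hd hy hL hx hz ht wv
  have k9 := ca_c2 hd hy hL hx hz ht wv
  have k10 := ca_c0 hd hy hL hx hz ht qv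
  have k11 := ca_c1 hd hy hL hx hz ht qv
  have k12 := ca_c2 hd hy hL hx hz ht qv
  have k13 : ContinuousAt (fun p => Dl (d p) (y p) / KG (d p) (y p)) a :=
    k1.div (ca_KG hd hy h1 h2) h3
  have k14 : ContinuousAt (fun p => (Dl (d p) (y p))⁻¹) a := k1.inv₀ h1
  have k15 : ContinuousAt (fun p => Dl1 (d p) (y p) (L p) / 2) a :=
    (ca_Dl1 hd hy hL).div_const 2
  unfold HH; (repeat' (first
    | assumption | exact continuousAt_const | apply ContinuousAt.add | apply ContinuousAt.sub
    | apply ContinuousAt.mul | apply ContinuousAt.neg | apply ContinuousAt.pow))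

end

end Pool.Agent.HS
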