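import Mathlib

/-!
# Block G (project HS): explicit data and the infinitesimal form

Data (`d` small): `B = 1 + d Φ` with `Φ = diag(1,0,-1)`, `b = adj B`, `Δ = ⟨b y, y⟩`,
`λ = 1/2`, `ε = d²`, `s = 15/16`, `β = 33/8`, `w = (1,2,1)`, `q = (1,1,1)`:

* base metric `h_y(v,v) = ⟨B v, v⟩ / Δ` on the sphere,
* connection `A_y(v) = λ Δ L - B L + ε ⟨w,L⟩ y` with `L = y × B v / Δ` (then `v = B L × y`),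
* `κ_y(n,n) = s ⟨y,n⟩² + 2 ε β ⟨y,n⟩⟨w,n⟩ + (d²/2) ⟨q,n⟩²`,
* curvature of `A`: `F(v₁,v₂) = F0(y) ⟨y, v₁ × v₂⟩`.

For a point `y` of the sphere and `L ⟂ y` the curve through `y` with `y' = B L × y`,
`L' = B L × L` is a geodesic of `h`; a section `n` along it is parallel for `D = d + A ×` if
`n' = - a × n`, `a = A_y(y')`.  The jets of `y, L, a, n` along this curve are given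
explicitly below.
-/

open Matrix

namespace Pool.Agent.HS

noncomputable section

/-- `B = 1 + d Φ`, `Φ = diag (1, 0, -1)`. -/
def Bv (d : ℝ) (x : Fin 3 → ℝ) : Fin 3 → ℝ := ![(1 + d) * x 0, x 1, (1 - d) * x 2]

/-- `b = adj B`. -/
def bv (d : ℝ) (x : Fin 3 → ℝ) : Fin 3 → ℝ :=
  ![(1 - d) * x 0, (1 - d ^ 2) * x 1, (1 + d) * x 2]

/-- the vector `w`. -/
def wv : Fin 3 → ℝ := ![1, 2, 1]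

/-- the vector `q` (`M = q qᵀ`). -/
def qv : Fin 3 → ℝ := ![1, 1, 1]

/-- `Δ = ⟨b y, y⟩`. -/
def Dl (d : ℝ) (y : Fin 3 → ℝ) : ℝ := bv d y ⬝ᵥ y

/-- The base metric `h_y(u,v) = ⟨B u, v⟩ / Δ`. -/
def hB (d : ℝ) (y u v : Fin 3 → ℝ) : ℝ := (Bv d u ⬝ᵥ v) / Dl d y

/-- `L_y(v) = y × B v / Δ`. -/
def Lm (d : ℝ) (y v : Fin 3 → ℝ) : Fin 3 → ℝ := (Dl d y)⁻¹ • (y ⨯₃ Bv d v)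

/-- The connection form `A_y(v) = λ Δ L - B L + ε ⟨w,L⟩ y`, `L = L_y(v)`. -/
def cA (d : ℝ) (y v : Fin 3 → ℝ) : Fin 3 → ℝ :=
  (1 / 2 * Dl d y) • Lm d y v - Bv d (Lm d y v) + (d ^ 2 * (wv ⬝ᵥ Lm d y v)) • y

/-- The form `κ_y(n,m)`. -/
def kap (d : ℝ) (y n m : Fin 3 → ℝ) : ℝ :=
  15 / 16 * ((y ⬝ᵥ n) * (y ⬝ᵥ m))
    + 33 / 8 * d ^ 2 * ((y ⬝ᵥ n) * (wv ⬝ᵥ m) + (y ⬝ᵥ m) * (wv ⬝ᵥ n))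
    + d ^ 2 / 2 * ((qv ⬝ᵥ n) * (qv ⬝ᵥ m))

/-- `τ = |b y|²`. -/
def tau (d : ℝ) (y : Fin 3 → ℝ) : ℝ := bv d y ⬝ᵥ bv d y

/-- The coefficient of `y` in `F0 - (tangential part)`:
`f0 + ε a1`, `f0 = 2 τ/Δ² - tr b/Δ + λ² Δ`,
`a1 = [(Δ tr b - 2 τ) ⟨b w,y⟩ + Δ ⟨b² w, y⟩] / (det B Δ²)`. -/
def Fy (d : ℝ) (y : Fin 3 → ℝ) : ℝ :=
  2 * tau d y * ((Dl d y)⁻¹) ^ 2 - (3 - d ^ 2) * (Dl d y)⁻¹ + 1 / 4 * Dl d y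
    + d ^ 2 * (((3 - d ^ 2) * Dl d y - 2 * tau d y) * (bv d wv ⬝ᵥ y)
        + Dl d y * (bv d (bv d wv) ⬝ᵥ y)) * ((Dl d y)⁻¹) ^ 2 * (1 - d ^ 2)⁻¹

/-- The curvature of `A` is `F(v₁,v₂) = F0(y) ⟨y, v₁ × v₂⟩`. -/
def F0 (d : ℝ) (y : Fin 3 → ℝ) : Fin 3 → ℝ :=
  Fy d y • y - (d ^ 2 / 2) • (wv - (wv ⬝ᵥ y) • y)

/-- Gauss curvature of `h`. -/
def KG (d : ℝ) (y : Fin 3 → ℝ) : ℝ :=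
  (1 - d ^ 2)⁻¹ * ((3 - d ^ 2) - tau d y * (Dl d y)⁻¹) * ((3 - d ^ 2) - 3 * tau d y * (Dl d y)⁻¹)
    + 3 - 2 * (1 - d ^ 2) * (Dl d y)⁻¹

/-! ### jets along the flow `y' = B L × y`, `L' = B L × L` -/

/-- `y'`. -/
def y1 (d : ℝ) (y L : Fin 3 → ℝ) : Fin 3 → ℝ := Bv d L ⨯₃ y
/-- `L'`. -/
def L1 (d : ℝ) (L : Fin 3 → ℝ) : Fin 3 → ℝ := Bv d L ⨯₃ L
/-- `y''`. -/
def y2 (d : ℝ) (y L : Fin 3 → ℝ) : Fin 3 → ℝ := Bv d (L1 d L) ⨯₃ y + Bv d L ⨯₃ y1 d y L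
/-- `Δ'`. -/
def Dl1 (d : ℝ) (y L : Fin 3 → ℝ) : ℝ := 2 * (bv d y ⬝ᵥ y1 d y L)
/-- `τ'`. -/
def tau1 (d : ℝ) (y L : Fin 3 → ℝ) : ℝ := 2 * (bv d y ⬝ᵥ bv d (y1 d y L))

/-- the derivative of `Fy` along the flow. -/
def Fy1 (d : ℝ) (y L : Fin 3 → ℝ) : ℝ :=
  2 * tau1 d y L * ((Dl d y)⁻¹) ^ 2 - 4 * tau d y * Dl1 d y L * ((Dl d y)⁻¹) ^ 3
    + (3 - d ^ 2) * Dl1 d y L * ((Dl d y)⁻¹) ^ 2 + 1 / 4 * Dl1 d y L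
    + d ^ 2 * (((3 - d ^ 2) * Dl1 d y L - 2 * tau1 d y L) * (bv d wv ⬝ᵥ y)
        + ((3 - d ^ 2) * Dl d y - 2 * tau d y) * (bv d wv ⬝ᵥ y1 d y L)
        + Dl1 d y L * (bv d (bv d wv) ⬝ᵥ y) + Dl d y * (bv d (bv d wv) ⬝ᵥ y1 d y L))
        * ((Dl d y)⁻¹) ^ 2 * (1 - d ^ 2)⁻¹
    - 2 * d ^ 2 * (((3 - d ^ 2) * Dl d y - 2 * tau d y) * (bv d wv ⬝ᵥ y)
        + Dl d y * (bv d (bv d wv) ⬝ᵥ y)) * Dl1 d y L * ((Dl d y)⁻¹) ^ 3 * (1 - d ^ 2)⁻¹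

/-- `a = A_y(y')`, in terms of `L`. -/
def aa (d : ℝ) (y L : Fin 3 → ℝ) : Fin 3 → ℝ :=
  (1 / 2 * Dl d y) • L - Bv d L + (d ^ 2 * (wv ⬝ᵥ L)) • y

/-- `a'`. -/
def aa1 (d : ℝ) (y L : Fin 3 → ℝ) : Fin 3 → ℝ :=
  (1 / 2 * Dl1 d y L) • L + (1 / 2 * Dl d y) • L1 d L - Bv d (L1 d L)
    + (d ^ 2 * (wv ⬝ᵥ L1 d L)) • y + (d ^ 2 * (wv ⬝ᵥ L)) • y1 d y L

/-- `n' = - a × n`. -/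
def n1 (d : ℝ) (y L n : Fin 3 → ℝ) : Fin 3 → ℝ := -(aa d y L ⨯₃ n)

/-- `n'' = - a' × n - a × n'`. -/
def n2 (d : ℝ) (y L n : Fin 3 → ℝ) : Fin 3 → ℝ :=
  -(aa1 d y L ⨯₃ n) - aa d y L ⨯₃ n1 d y L n

/-- `(κ_y(n,n))''` for jets `(y,y',y'')`, `(n,n',n'')`. -/
def kapJ (d : ℝ) (y y' y'' n n' n'' : Fin 3 → ℝ) : ℝ :=
  15 / 8 * ((y' ⬝ᵥ n + y ⬝ᵥ n') ^ 2
      + (y ⬝ᵥ n) * (y'' ⬝ᵥ n + 2 * (y' ⬝ᵥ n') + y ⬝ᵥ n''))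
    + 33 / 4 * d ^ 2 * ((y'' ⬝ᵥ n + 2 * (y' ⬝ᵥ n') + y ⬝ᵥ n'') * (wv ⬝ᵥ n)
      + 2 * (y' ⬝ᵥ n + y ⬝ᵥ n') * (wv ⬝ᵥ n') + (y ⬝ᵥ n) * (wv ⬝ᵥ n''))
    + d ^ 2 * ((qv ⬝ᵥ n') ^ 2 + (qv ⬝ᵥ n) * (qv ⬝ᵥ n''))

/-- `f = ⟨F0, n⟩`. -/
def ff (d : ℝ) (y n : Fin 3 → ℝ) : ℝ :=
  Fy d y * (y ⬝ᵥ n) - d ^ 2 / 2 * (wv ⬝ᵥ n - (wv ⬝ᵥ y) * (y ⬝ᵥ n))

/-- `f'` along the flow, `n` parallel. -/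
def ff1 (d : ℝ) (y L n : Fin 3 → ℝ) : ℝ :=
  Fy1 d y L * (y ⬝ᵥ n) + Fy d y * (y1 d y L ⬝ᵥ n + y ⬝ᵥ n1 d y L n)
    - d ^ 2 / 2 * (wv ⬝ᵥ n1 d y L n - (wv ⬝ᵥ y1 d y L) * (y ⬝ᵥ n)
      - (wv ⬝ᵥ y) * (y1 d y L ⬝ᵥ n + y ⬝ᵥ n1 d y L n))

/-- The infinitesimal form
`G = Δ h(v,v) ⟨F0,n⟩² + (2/3) (D²κ)(v,v)(n,n) - (Δ/K) ⟨D_v F0 + (Δ'/(2Δ)) F0, n⟩²`,
i.e. `⟨ρ,n⟩² |v|² + (2/3) D²κ - ⟨D_v ρ, n⟩²/K` with `ρ = √Δ F0`, for `v = B L × y`. -/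
def GG (d : ℝ) (y L n : Fin 3 → ℝ) : ℝ :=
  Dl d y * (Bv d L ⬝ᵥ L) * ff d y n ^ 2
    + 2 / 3 * kapJ d y (y1 d y L) (y2 d y L) n (n1 d y L n) (n2 d y L n)
    - Dl d y / KG d y * (ff1 d y L n + Dl1 d y L / 2 * (Dl d y)⁻¹ * ff d y n) ^ 2

end

end Pool.Agent.HS
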