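import Pool.Agent.HS.GScale

/-!
# Block G: parallel sections in the frame `(y, T, L)`
-/

open Matrix

namespace Pool.Agent.HS

noncomputable section

/-! the derivatives of the frame coefficients of a parallel section
`n = α y + β T + γ L`: `α' = ψ β`, `β' = - ψ α + η γ`, `γ' = - η β`, with
`ψ = Δ/2`, `η = d² ⟨w,L⟩`. -/

theorem n1_frame (d : ℝ) {y L : Fin 3 → ℝ} (hy : y ⬝ᵥ y = 1) (hL : L ⬝ᵥ L = 1)
    (hyL : y ⬝ᵥ L = 0) (α β γ : ℝ) :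
    n1 d y L (α • y + β • TT y L + γ • L) =
      (1 / 2 * Dl d y * β) • y + α • y1 d y L
      + (-(1 / 2 * Dl d y * α) + d ^ 2 * (wv ⬝ᵥ L) * γ) • TT y L + β • T1 d y L
      + (-(d ^ 2 * (wv ⬝ᵥ L) * β)) • L + γ • L1 d L := by
  have e1 : L ⨯₃ y = TT y L := rfl
  have e2 := L_cross_T hL hyL
  have e3 := y_cross_T hy hyL
  have e4 := y_cross_L y L
  simp only [n1, aa, y1, T1, L1, map_add, map_sub, map_smul, LinearMap.add_apply,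
    LinearMap.sub_apply, LinearMap.smul_apply, cross_self, e1, e2, e3, e4, smul_zero]
  module

theorem n2_frame (d : ℝ) {y L : Fin 3 → ℝ} (hy : y ⬝ᵥ y = 1) (hL : L ⬝ᵥ L = 1)
    (hyL : y ⬝ᵥ L = 0) (α β γ : ℝ) :
    n2 d y L (α • y + β • TT y L + γ • L) =
      (1 / 2 * Dl1 d y L * β + 1 / 2 * Dl d y * (-(1 / 2 * Dl d y * α) + d ^ 2 * (wv ⬝ᵥ L) * γ)) • y
      + (2 * (1 / 2 * Dl d y * β)) • y1 d y L + α • y2 d y L
      + (-(1 / 2 * Dl1 d y L * α) - 1 / 2 * Dl d y * (1 / 2 * Dl d y * β)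
          + d ^ 2 * (wv ⬝ᵥ L1 d L) * γ
          + d ^ 2 * (wv ⬝ᵥ L) * (-(d ^ 2 * (wv ⬝ᵥ L) * β))) • TT y L
      + (2 * (-(1 / 2 * Dl d y * α) + d ^ 2 * (wv ⬝ᵥ L) * γ)) • T1 d y L + β • T2 d y L
      + (-(d ^ 2 * (wv ⬝ᵥ L1 d L) * β)
          - d ^ 2 * (wv ⬝ᵥ L) * (-(1 / 2 * Dl d y * α) + d ^ 2 * (wv ⬝ᵥ L) * γ)) • L
      + (2 * (-(d ^ 2 * (wv ⬝ᵥ L) * β))) • L1 d L + γ • L2 d L := by
  have e1 : L ⨯₃ y = TT y L := rfl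
  have e2 := L_cross_T hL hyL
  have e3 := y_cross_T hy hyL
  have e4 := y_cross_L y L
  -- derivatives of the frame relations
  have f1 : ∀ a b : Fin 3 → ℝ, Bv d L ⨯₃ (a ⨯₃ b)
      = (Bv d L ⨯₃ a) ⨯₃ b + a ⨯₃ (Bv d L ⨯₃ b) := fun a b => leibniz_cross _ _ _
  have g1 : L1 d L ⨯₃ y + L ⨯₃ y1 d y L = T1 d y L := by
    rw [L1, y1, T1, TT, f1]
  have g2 : L1 d L ⨯₃ TT y L + L ⨯₃ T1 d y L = -y1 d y L := by
    rw [L1, T1, y1, ← f1, e2, map_neg]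
  have g3 : y1 d y L ⨯₃ TT y L + y ⨯₃ T1 d y L = L1 d L := by
    rw [y1, T1, L1, ← f1, e3]
  have g4 : y1 d y L ⨯₃ L + y ⨯₃ L1 d L = -T1 d y L := by
    rw [y1, L1, T1, ← f1, e4, map_neg]
  have g5 : L1 d L ⨯₃ L + L ⨯₃ L1 d L = 0 := cross_anticomm' _ _
  have g6 : y1 d y L ⨯₃ y + y ⨯₃ y1 d y L = 0 := cross_anticomm' _ _
  have k1 : L ⨯₃ y1 d y L = T1 d y L - L1 d L ⨯₃ y := by rw [← g1]; abel
  have k2 : L ⨯₃ T1 d y L = -y1 d y L - L1 d L ⨯₃ TT y L := by rw [← g2]; abel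
  have k3 : y ⨯₃ T1 d y L = L1 d L - y1 d y L ⨯₃ TT y L := by rw [← g3]; abel
  have k4 : y ⨯₃ L1 d L = -T1 d y L - y1 d y L ⨯₃ L := by rw [← g4]; abel
  have k5 : L ⨯₃ L1 d L = -(L1 d L ⨯₃ L) := by rw [cross_anticomm]
  have k6 : y ⨯₃ y1 d y L = -(y1 d y L ⨯₃ y) := by rw [cross_anticomm]
  have r1 : Bv d L ⨯₃ y = y1 d y L := rfl
  have r2 : Bv d L ⨯₃ L = L1 d L := rfl
  have r3 : Bv d L ⨯₃ TT y L = T1 d y L := rfl
  rw [n2, n1_frame d hy hL hyL]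
  simp only [aa, aa1, y2, T2, L2, map_add, map_sub, map_smul, LinearMap.add_apply,
    LinearMap.sub_apply, LinearMap.smul_apply, cross_self, e1, e2, e3, e4,
    smul_zero, k1, k2, k3, k4, k5, k6, r1, r2, r3]
  module

end

end Pool.Agent.HS
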