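import Pool.Agent.HS.GCont

/-!
# Block G: the infinitesimal form is positive definite for small `d > 0`
-/

open Matrix Topology Filter

namespace Pool.Agent.HS

noncomputable section

/-- homogeneity in `n` of the scaled form. -/
theorem HH_smul (d : ℝ) (y L : Fin 3 → ℝ) (x z t c : ℝ) :
    HH d y L (c * x) (c * z) (c * t) = c ^ 2 * HH d y L x z t := by
  simp only [HH, fh, f1h, c0, c1, c2, sx1, sz1, sx2, sz2]
  ring

/-- the compact set of frames and unit coefficients. -/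
def KK : Set ((Fin 3 → ℝ) × (Fin 3 → ℝ) × ℝ × ℝ × ℝ) :=
  {q | q.1 ⬝ᵥ q.1 = 1 ∧ q.2.1 ⬝ᵥ q.2.1 = 1 ∧ q.1 ⬝ᵥ q.2.1 = 0 ∧
    q.2.2.1 ^ 2 + q.2.2.2.1 ^ 2 + q.2.2.2.2 ^ 2 = 1}

theorem dot_cont {X : Type*} [TopologicalSpace X] {f g : X → Fin 3 → ℝ} (hf : Continuous f)
    (hg : Continuous g) : Continuous fun p => f p ⬝ᵥ g p :=
  continuous_iff_continuousAt.2 fun _ => ca_dot hf.continuousAt hg.continuousAt

theorem norm_le_of_dot {v : Fin 3 → ℝ} (h : v ⬝ᵥ v = 1) : ‖v‖ ≤ 1 := by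
  rw [pi_norm_le_iff_of_nonneg (by norm_num)]
  intro i
  have h1 : v 0 ^ 2 + v 1 ^ 2 + v 2 ^ 2 = 1 := by
    rw [← h]; simp [dotProduct, Fin.sum_univ_three]; ring
  rw [Real.norm_eq_abs, abs_le_one_iff_mul_self_le_one]
  fin_cases i
  · show v 0 * v 0 ≤ 1
    nlinarith [sq_nonneg (v 1), sq_nonneg (v 2)]
  · show v 1 * v 1 ≤ 1
    nlinarith [sq_nonneg (v 0), sq_nonneg (v 2)]
  · show v 2 * v 2 ≤ 1
    nlinarith [sq_nonneg (v 1), sq_nonneg (v 0)]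

theorem KK_compact : IsCompact KK := by
  have hc : IsClosed KK := by
    have c1 : Continuous fun q : (Fin 3 → ℝ) × (Fin 3 → ℝ) × ℝ × ℝ × ℝ => q.1 ⬝ᵥ q.1 :=
      dot_cont continuous_fst continuous_fst
    have c2 : Continuous fun q : (Fin 3 → ℝ) × (Fin 3 → ℝ) × ℝ × ℝ × ℝ => q.2.1 ⬝ᵥ q.2.1 :=
      dot_cont (continuous_fst.comp continuous_snd) (continuous_fst.comp continuous_snd)
    have c3 : Continuous fun q : (Fin 3 → ℝ) × (Fin 3 → ℝ) × ℝ × ℝ × ℝ => q.1 ⬝ᵥ q.2.1 :=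
      dot_cont continuous_fst (continuous_fst.comp continuous_snd)
    have c4 : Continuous fun q : (Fin 3 → ℝ) × (Fin 3 → ℝ) × ℝ × ℝ × ℝ =>
        q.2.2.1 ^ 2 + q.2.2.2.1 ^ 2 + q.2.2.2.2 ^ 2 := by fun_prop
    exact (isClosed_eq c1 continuous_const).inter ((isClosed_eq c2 continuous_const).inter
      ((isClosed_eq c3 continuous_const).inter (isClosed_eq c4 continuous_const)))
  refine IsCompact.of_isClosed_subset
    (isCompact_closedBall (0 : (Fin 3 → ℝ) × (Fin 3 → ℝ) × ℝ × ℝ × ℝ) 1) hc ?_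
  rintro ⟨y, L, x, z, t⟩ ⟨h1, h2, _, h4⟩
  rw [mem_closedBall_zero_iff]
  simp only at h1 h2 h4
  have hx : ‖x‖ ≤ 1 := by
    rw [Real.norm_eq_abs, abs_le_one_iff_mul_self_le_one]
    nlinarith [sq_nonneg z, sq_nonneg t]
  have hz : ‖z‖ ≤ 1 := by
    rw [Real.norm_eq_abs, abs_le_one_iff_mul_self_le_one]
    nlinarith [sq_nonneg x, sq_nonneg t]
  have ht : ‖t‖ ≤ 1 := by
    rw [Real.norm_eq_abs, abs_le_one_iff_mul_self_le_one]
    nlinarith [sq_nonneg x, sq_nonneg z]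
  exact norm_prod_le_iff.2 ⟨norm_le_of_dot h1, norm_prod_le_iff.2 ⟨norm_le_of_dot h2,
    norm_prod_le_iff.2 ⟨hx, norm_prod_le_iff.2 ⟨hz, ht⟩⟩⟩⟩

/-- For small `d` everything is positive on `KK`. -/
theorem eventually_pos : ∀ᶠ d : ℝ in 𝓝 0, ∀ q ∈ KK,
    0 < HH d q.1 q.2.1 q.2.2.1 q.2.2.2.1 q.2.2.2.2 ∧ 0 < Dl d q.1 ∧ 0 < KG d q.1 := by
  refine KK_compact.eventually_forall_of_forall_eventually ?_
  rintro ⟨y, L, x, z, t⟩ ⟨h1, h2, h3, h4⟩
  simp only at h1 h2 h3 h4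
  have e1 : Dl 0 y = 1 := Dl_zero h1
  have e2 : KG 0 y = 1 := KG_zero h1
  have cd : ContinuousAt (fun p : ℝ × (Fin 3 → ℝ) × (Fin 3 → ℝ) × ℝ × ℝ × ℝ => p.1)
      (0, y, L, x, z, t) := continuousAt_fst
  have cy : ContinuousAt (fun p : ℝ × (Fin 3 → ℝ) × (Fin 3 → ℝ) × ℝ × ℝ × ℝ => p.2.1)
      (0, y, L, x, z, t) := (continuous_fst.comp continuous_snd).continuousAt
  have cL : ContinuousAt (fun p : ℝ × (Fin 3 → ℝ) × (Fin 3 → ℝ) × ℝ × ℝ × ℝ => p.2.2.1)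
      (0, y, L, x, z, t) :=
    (continuous_fst.comp (continuous_snd.comp continuous_snd)).continuousAt
  have cx : ContinuousAt (fun p : ℝ × (Fin 3 → ℝ) × (Fin 3 → ℝ) × ℝ × ℝ × ℝ => p.2.2.2.1)
      (0, y, L, x, z, t) := by fun_prop
  have cz : ContinuousAt (fun p : ℝ × (Fin 3 → ℝ) × (Fin 3 → ℝ) × ℝ × ℝ × ℝ => p.2.2.2.2.1)
      (0, y, L, x, z, t) := by fun_prop
  have ct : ContinuousAt (fun p : ℝ × (Fin 3 → ℝ) × (Fin 3 → ℝ) × ℝ × ℝ × ℝ => p.2.2.2.2.2)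
      (0, y, L, x, z, t) := by fun_prop
  have n1 : Dl ((fun p : ℝ × (Fin 3 → ℝ) × (Fin 3 → ℝ) × ℝ × ℝ × ℝ => p.1)
      (0, y, L, x, z, t)) ((fun p : ℝ × (Fin 3 → ℝ) × (Fin 3 → ℝ) × ℝ × ℝ × ℝ => p.2.1)
      (0, y, L, x, z, t)) ≠ 0 := by simp only [e1]; norm_num
  have n2 : 1 - ((fun p : ℝ × (Fin 3 → ℝ) × (Fin 3 → ℝ) × ℝ × ℝ × ℝ => p.1)
      (0, y, L, x, z, t)) ^ 2 ≠ 0 := by norm_num
  have n3 : KG ((fun p : ℝ × (Fin 3 → ℝ) × (Fin 3 → ℝ) × ℝ × ℝ × ℝ => p.1)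
      (0, y, L, x, z, t)) ((fun p : ℝ × (Fin 3 → ℝ) × (Fin 3 → ℝ) × ℝ × ℝ × ℝ => p.2.1)
      (0, y, L, x, z, t)) ≠ 0 := by simp only [e2]; norm_num
  have H1 := ca_HH cd cy cL cx cz ct n1 n2 n3
  have H2 := ca_Dl cd cy
  have H3 := ca_KG cd cy n1 n2
  have p1 : 0 < HH 0 y L x z t := HH_zero_pos h1 h2 h3 (by rw [h4]; norm_num)
  have q1 := H1.eventually (lt_mem_nhds (a := (0 : ℝ)) p1)
  have q2 := H2.eventually (lt_mem_nhds (a := (0 : ℝ)) (by simp only [e1]; norm_num))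
  have q3 := H3.eventually (lt_mem_nhds (a := (0 : ℝ)) (by simp only [e2]; norm_num))
  filter_upwards [q1, q2, q3] with p r1 r2 r3
  exact ⟨r1, r2, r3⟩

/-- decomposition in the frame. -/
theorem frame_decomp {y L : Fin 3 → ℝ} (hy : y ⬝ᵥ y = 1) (hL : L ⬝ᵥ L = 1)
    (hyL : y ⬝ᵥ L = 0) (n : Fin 3 → ℝ) :
    n = (y ⬝ᵥ n) • y + (TT y L ⬝ᵥ n) • TT y L + (L ⬝ᵥ n) • L := by
  have hTT : TT y L ⬝ᵥ TT y L = 1 := by
    have h := frame_sq hy hL hyL (TT y L)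
    rw [dotProduct_comm (TT y L) y, y_dot_T] at h
    have h2 : TT y L ⬝ᵥ L = 0 := by rw [TT, dotProduct_comm]; exact dot_self_cross _ _
    rw [h2] at h
    have h3 : (TT y L ⬝ᵥ TT y L) ^ 2 = TT y L ⬝ᵥ TT y L := by linarith
    have h4 : TT y L ⬝ᵥ TT y L ≠ 0 := by
      intro h5
      have h6 : TT y L = 0 := dotProduct_self_eq_zero.1 h5
      have h7 := T_cross_L hL hyL
      rw [h6] at h7
      have h8 : y = 0 := by rw [← h7]; simp
      rw [h8] at hy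
      simp at hy
    have h9 : (TT y L ⬝ᵥ TT y L) * (TT y L ⬝ᵥ TT y L - 1) = 0 := by linarith
    rcases mul_eq_zero.1 h9 with h10 | h10
    · exact absurd h10 h4
    · linarith
  have hTL : L ⬝ᵥ TT y L = 0 := by rw [TT]; exact dot_self_cross _ _
  have hyT := y_dot_T y L
  have hLy : L ⬝ᵥ y = 0 := by rw [dotProduct_comm]; exact hyL
  have hTy : TT y L ⬝ᵥ y = 0 := by rw [dotProduct_comm]; exact hyT
  have hTL' : TT y L ⬝ᵥ L = 0 := by rw [dotProduct_comm]; exact hTL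
  set r := n - ((y ⬝ᵥ n) • y + (TT y L ⬝ᵥ n) • TT y L + (L ⬝ᵥ n) • L) with hr
  have a1 : r ⬝ᵥ y = 0 := by
    rw [dotProduct_comm, hr]
    simp only [dotProduct_sub, dotProduct_add, dotProduct_smul, smul_eq_mul, hy, hyT, hyL]
    ring
  have a2 : r ⬝ᵥ TT y L = 0 := by
    rw [dotProduct_comm, hr]
    simp only [dotProduct_sub, dotProduct_add, dotProduct_smul, smul_eq_mul, hTy, hTT, hTL']
    ring
  have a3 : r ⬝ᵥ L = 0 := by
    rw [dotProduct_comm, hr]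
    simp only [dotProduct_sub, dotProduct_add, dotProduct_smul, smul_eq_mul, hLy, hTL, hL]
    ring
  have h := frame_sq hy hL hyL r
  rw [a1, a2, a3] at h
  have h0 : r = 0 := dotProduct_self_eq_zero.1 (by linarith)
  have := sub_eq_zero.1 (hr ▸ h0)
  exact this

/-- homogeneity in `L`. -/
theorem GG_smul_L (d c : ℝ) (y L n : Fin 3 → ℝ) :
    GG d y (c • L) n = c ^ 2 * GG d y L n := by
  have hB : ∀ x : Fin 3 → ℝ, Bv d (c • x) = c • Bv d x := fun x => by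
    ext i; fin_cases i <;> simp [Bv] <;> ring
  have hB2 : ∀ (e : ℝ) (x : Fin 3 → ℝ), Bv d (e • x) = e • Bv d x := fun e x => by
    ext i; fin_cases i <;> simp [Bv] <;> ring
  have hb : ∀ (e : ℝ) (x : Fin 3 → ℝ), bv d (e • x) = e • bv d x := fun e x => by
    ext i; fin_cases i <;> simp [bv] <;> ring
  have e1 : y1 d y (c • L) = c • y1 d y L := by
    simp only [y1, hB, map_smul, LinearMap.smul_apply]
  have e2 : L1 d (c • L) = c ^ 2 • L1 d L := by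
    simp only [L1, hB, map_smul, LinearMap.smul_apply, smul_smul, sq]
  have e3 : y2 d y (c • L) = c ^ 2 • y2 d y L := by
    simp only [y2, hB2, e1, e2, map_smul, LinearMap.smul_apply, smul_smul, sq, smul_add]
  have e4 : Dl1 d y (c • L) = c * Dl1 d y L := by
    simp only [Dl1, e1, dotProduct_smul, smul_eq_mul]; ring
  have e5 : tau1 d y (c • L) = c * tau1 d y L := by
    simp only [tau1, e1, hb, dotProduct_smul, smul_eq_mul]; ring
  have e6 : Fy1 d y (c • L) = c * Fy1 d y L := by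
    simp only [Fy1, e1, e4, e5, dotProduct_smul, smul_eq_mul]; ring
  have e7 : aa d y (c • L) = c • aa d y L := by
    simp only [aa, hB, dotProduct_smul, smul_eq_mul]; module
  have e8 : aa1 d y (c • L) = c ^ 2 • aa1 d y L := by
    simp only [aa1, e1, e2, e4, hB2, dotProduct_smul, smul_eq_mul]; module
  have e9 : n1 d y (c • L) n = c • n1 d y L n := by
    simp only [n1, e7, map_smul, LinearMap.smul_apply, smul_neg]
  have e10 : n2 d y (c • L) n = c ^ 2 • n2 d y L n := by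
    simp only [n2, e7, e8, e9, map_smul, LinearMap.smul_apply]; module
  have e11 : ff1 d y (c • L) n = c * ff1 d y L n := by
    simp only [ff1, e1, e6, e9, dotProduct_smul, smul_dotProduct, smul_eq_mul]; ring
  simp only [GG, kapJ, hB, e1, e3, e4, e9, e10, e11, dotProduct_smul, smul_dotProduct,
    smul_eq_mul]
  ring

/-- **Block G.**  For all small `d > 0` the infinitesimal form of the explicit data is
positive definite at every point of the sphere in every direction. -/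
theorem GG_pos : ∃ d0 : ℝ, 0 < d0 ∧ d0 < 1 ∧ ∀ d : ℝ, 0 < d → d < d0 →
    ∀ y L : Fin 3 → ℝ, y ⬝ᵥ y = 1 → y ⬝ᵥ L = 0 → L ≠ 0 →
      0 < Dl d y ∧ 0 < KG d y ∧ ∀ n : Fin 3 → ℝ, n ≠ 0 → 0 < GG d y L n := by
  obtain ⟨δ, hδ, H⟩ := Metric.eventually_nhds_iff.1 eventually_pos
  refine ⟨min δ (1 / 2), lt_min hδ (by norm_num), lt_of_le_of_lt (min_le_right _ _)
    (by norm_num), ?_⟩
  intro d hd hd0 y L hy hyL hL
  have hdδ : dist d 0 < δ := by
    rw [Real.dist_eq, sub_zero, abs_of_pos hd]; exact lt_of_lt_of_le hd0 (min_le_left _ _)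
  have HK := H hdδ
  -- normalise L
  have hLL : 0 < L ⬝ᵥ L := by
    have h0 : 0 ≤ L ⬝ᵥ L := by
      simp [dotProduct, Fin.sum_univ_three]
      nlinarith [mul_self_nonneg (L 0), mul_self_nonneg (L 1), mul_self_nonneg (L 2)]
    rcases h0.lt_or_eq with h | h
    · exact h
    · exact absurd (dotProduct_self_eq_zero.1 h.symm) hL
  set l := Real.sqrt (L ⬝ᵥ L) with hl
  have hlpos : 0 < l := Real.sqrt_pos.2 hLL
  have hl2 : l ^ 2 = L ⬝ᵥ L := Real.sq_sqrt hLL.le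
  set M := l⁻¹ • L with hM
  have hLM : L = l • M := by rw [hM, smul_smul, mul_inv_cancel₀ hlpos.ne', one_smul]
  have hMM : M ⬝ᵥ M = 1 := by
    rw [hM]
    simp only [dotProduct_smul, smul_dotProduct, smul_eq_mul]
    rw [← hl2]; field_simp
  have hyM : y ⬝ᵥ M = 0 := by rw [hM, dotProduct_smul, hyL]; simp
  have hq := HK (y, M, 1, 0, 0) ⟨hy, hMM, hyM, by norm_num⟩
  refine ⟨hq.2.1, hq.2.2, ?_⟩
  intro n hn
  rw [hLM, GG_smul_L]
  have hl2pos : 0 < l ^ 2 := by positivity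
  refine mul_pos hl2pos ?_
  have hd2 : (d ^ 2) ≠ 0 := by positivity
  have hdec := frame_decomp hy hMM hyM n
  set α := y ⬝ᵥ n with hα
  set β := TT y M ⬝ᵥ n with hβ
  set γ := M ⬝ᵥ n with hγ
  have hn2 : n = nn d y M (α / d ^ 2) (β / d ^ 2) γ := by
    rw [nn, mul_div_cancel₀ _ hd2, mul_div_cancel₀ _ hd2]; exact hdec
  rw [hn2, GG_eq d hy hMM hyM]
  have hd4 : 0 < d ^ 4 := by positivity
  refine mul_pos hd4 ?_
  -- normalise the coefficients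
  set x := α / d ^ 2 with hx
  set z := β / d ^ 2 with hz
  have hS : 0 < x ^ 2 + z ^ 2 + γ ^ 2 := by
    have h0 : 0 ≤ x ^ 2 + z ^ 2 + γ ^ 2 := by positivity
    rcases h0.lt_or_eq with h | h
    · exact h
    · exfalso
      have hx0 : x = 0 := by nlinarith [sq_nonneg x, sq_nonneg z, sq_nonneg γ]
      have hz0 : z = 0 := by nlinarith [sq_nonneg x, sq_nonneg z, sq_nonneg γ]
      have hg0 : γ = 0 := by nlinarith [sq_nonneg x, sq_nonneg z, sq_nonneg γ]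
      apply hn
      rw [hn2, nn, hx0, hz0, hg0]; simp
  set ρ := Real.sqrt (x ^ 2 + z ^ 2 + γ ^ 2) with hρ
  have hρpos : 0 < ρ := Real.sqrt_pos.2 hS
  have hρ2 : ρ ^ 2 = x ^ 2 + z ^ 2 + γ ^ 2 := Real.sq_sqrt hS.le
  have hk := (HK (y, M, ρ⁻¹ * x, ρ⁻¹ * z, ρ⁻¹ * γ) ⟨hy, hMM, hyM, by
    simp only
    have : (ρ⁻¹ * x) ^ 2 + (ρ⁻¹ * z) ^ 2 + (ρ⁻¹ * γ) ^ 2
        = (ρ⁻¹) ^ 2 * (x ^ 2 + z ^ 2 + γ ^ 2) := by ring
    rw [this, ← hρ2]; field_simp⟩).1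
  simp only at hk
  rw [HH_smul] at hk
  have : 0 < (ρ⁻¹) ^ 2 := by positivity
  exact (mul_pos_iff_of_pos_left this).1 hk
end

end Pool.Agent.HS
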