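import Pool.Agent.HS.GMain

/-!
# Block G with the Gauss curvature as a parameter

`GGK d K y L n` is the infinitesimal form with a number `K` in place of the Gauss curvature
`KG d y`; it is positive definite for small `d > 0` and `K` close to `1`.
-/

open Matrix Topology Filter

namespace Pool.Agent.HS

noncomputable section

/-- The infinitesimal form with the Gauss curvature replaced by a parameter `K`. -/
def GGK (d K : ℝ) (y L n : Fin 3 → ℝ) : ℝ :=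
  Dl d y * (Bv d L ⬝ᵥ L) * ff d y n ^ 2
    + 2 / 3 * kapJ d y (y1 d y L) (y2 d y L) n (n1 d y L n) (n2 d y L n)
    - Dl d y / K * (ff1 d y L n + Dl1 d y L / 2 * (Dl d y)⁻¹ * ff d y n) ^ 2

theorem GGK_KG (d : ℝ) (y L n : Fin 3 → ℝ) : GGK d (KG d y) y L n = GG d y L n := rfl

/-- the scaled form with parameter `K`. -/
def HHK (d K : ℝ) (y L : Fin 3 → ℝ) (x z t : ℝ) : ℝ :=
  Dl d y * (Bv d L ⬝ᵥ L) * fh d y L x z t ^ 2
    + 2 / 3 * (15 / 8 * (sx1 d y z ^ 2 + x * sx2 d y L x z t)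
      + 33 / 4 * (sx2 d y L x z t * c0 d y L wv x z t + 2 * sx1 d y z * (d * c1 d y L wv x z t)
        + x * (d ^ 2 * c2 d y L wv x z t))
      + (c1 d y L qv x z t ^ 2 + c0 d y L qv x z t * c2 d y L qv x z t))
    - Dl d y / K * (f1h d y L x z t + Dl1 d y L / 2 * (Dl d y)⁻¹ * fh d y L x z t) ^ 2

theorem HHK_KG (d : ℝ) (y L : Fin 3 → ℝ) (x z t : ℝ) :
    HHK d (KG d y) y L x z t = HH d y L x z t := rfl

theorem GGK_eq (d K : ℝ) {y L : Fin 3 → ℝ} (hy : y ⬝ᵥ y = 1) (hL : L ⬝ᵥ L = 1)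
    (hyL : y ⬝ᵥ L = 0) (x z t : ℝ) :
    GGK d K y L (nn d y L x z t) = d ^ 4 * HHK d K y L x z t := by
  have e0 : y ⬝ᵥ nn d y L x z t = d ^ 2 * x := by
    simp only [nn, dotProduct_add, dotProduct_smul, smul_eq_mul, hy, hyL, y_dot_T]; ring
  have e1 : y1 d y L ⬝ᵥ nn d y L x z t + y ⬝ᵥ n1 d y L (nn d y L x z t)
      = d ^ 2 * sx1 d y z := by
    rw [nn, p1_frame d hy hL hyL, sx1]; ring
  have e2 : y2 d y L ⬝ᵥ nn d y L x z t + 2 * (y1 d y L ⬝ᵥ n1 d y L (nn d y L x z t))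
      + y ⬝ᵥ n2 d y L (nn d y L x z t) = d ^ 2 * sx2 d y L x z t := by
    rw [nn, p2_frame d hy hL hyL, sx2, sz1]; ring
  have ef : ff d y (nn d y L x z t) = d ^ 2 * fh d y L x z t := by
    rw [ff, e0, c0_eq, fh]; ring
  have ef1 : ff1 d y L (nn d y L x z t) = d ^ 2 * f1h d y L x z t := by
    rw [ff1, e0, e1, c1_eq d hy hL hyL, f1h]; ring
  rw [GGK, HHK, ef, ef1, kapJ, e0, e1, e2, c0_eq, c0_eq, c1_eq d hy hL hyL,
    c1_eq d hy hL hyL, c2_eq d hy hL hyL, c2_eq d hy hL hyL]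
  ring

theorem HHK_smul (d K : ℝ) (y L : Fin 3 → ℝ) (x z t c : ℝ) :
    HHK d K y L (c * x) (c * z) (c * t) = c ^ 2 * HHK d K y L x z t := by
  simp only [HHK, fh, f1h, c0, c1, c2, sx1, sz1, sx2, sz2]
  ring

/-- For small `d` and `K` close to `1` everything is positive on `KK`. -/
theorem eventually_posK : ∀ᶠ e : ℝ × ℝ in 𝓝 (0, 1), ∀ q ∈ KK,
    0 < HHK e.1 e.2 q.1 q.2.1 q.2.2.1 q.2.2.2.1 q.2.2.2.2 := by
  refine KK_compact.eventually_forall_of_forall_eventually ?_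
  rintro ⟨y, L, x, z, t⟩ ⟨h1, h2, h3, h4⟩
  simp only at h1 h2 h3 h4
  have e1 : Dl 0 y = 1 := Dl_zero h1
  have e2 : KG 0 y = 1 := KG_zero h1
  have cd : ContinuousAt (fun p : (ℝ × ℝ) × (Fin 3 → ℝ) × (Fin 3 → ℝ) × ℝ × ℝ × ℝ => p.1.1)
      ((0, 1), y, L, x, z, t) := by fun_prop
  have cK : ContinuousAt (fun p : (ℝ × ℝ) × (Fin 3 → ℝ) × (Fin 3 → ℝ) × ℝ × ℝ × ℝ => p.1.2)
      ((0, 1), y, L, x, z, t) := by fun_prop
  have cy : ContinuousAt (fun p : (ℝ × ℝ) × (Fin 3 → ℝ) × (Fin 3 → ℝ) × ℝ × ℝ × ℝ => p.2.1)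
      ((0, 1), y, L, x, z, t) := (continuous_fst.comp continuous_snd).continuousAt
  have cL : ContinuousAt (fun p : (ℝ × ℝ) × (Fin 3 → ℝ) × (Fin 3 → ℝ) × ℝ × ℝ × ℝ => p.2.2.1)
      ((0, 1), y, L, x, z, t) :=
    (continuous_fst.comp (continuous_snd.comp continuous_snd)).continuousAt
  have cx : ContinuousAt (fun p : (ℝ × ℝ) × (Fin 3 → ℝ) × (Fin 3 → ℝ) × ℝ × ℝ × ℝ =>
      p.2.2.2.1) ((0, 1), y, L, x, z, t) := by fun_prop
  have cz : ContinuousAt (fun p : (ℝ × ℝ) × (Fin 3 → ℝ) × (Fin 3 → ℝ) × ℝ × ℝ × ℝ =>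
      p.2.2.2.2.1) ((0, 1), y, L, x, z, t) := by fun_prop
  have ct : ContinuousAt (fun p : (ℝ × ℝ) × (Fin 3 → ℝ) × (Fin 3 → ℝ) × ℝ × ℝ × ℝ =>
      p.2.2.2.2.2) ((0, 1), y, L, x, z, t) := by fun_prop
  have m1 : Dl ((fun p : (ℝ × ℝ) × (Fin 3 → ℝ) × (Fin 3 → ℝ) × ℝ × ℝ × ℝ => p.1.1)
      ((0, 1), y, L, x, z, t))
      ((fun p : (ℝ × ℝ) × (Fin 3 → ℝ) × (Fin 3 → ℝ) × ℝ × ℝ × ℝ => p.2.1)
      ((0, 1), y, L, x, z, t)) ≠ 0 := by simp only [e1]; norm_num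
  have m2 : 1 - ((fun p : (ℝ × ℝ) × (Fin 3 → ℝ) × (Fin 3 → ℝ) × ℝ × ℝ × ℝ => p.1.1)
      ((0, 1), y, L, x, z, t)) ^ 2 ≠ 0 := by norm_num
  have H1 : ContinuousAt (fun p : (ℝ × ℝ) × (Fin 3 → ℝ) × (Fin 3 → ℝ) × ℝ × ℝ × ℝ =>
      HHK p.1.1 p.1.2 p.2.1 p.2.2.1 p.2.2.2.1 p.2.2.2.2.1 p.2.2.2.2.2)
      ((0, 1), y, L, x, z, t) := by
    have k1 := ca_Dl cd cy
    have k2 := ca_dot (ca_Bv cd cL) cL
    have k3 := ca_fh cd cy cL cx cz ct m1 m2
    have k4 := ca_f1h cd cy cL cx cz ct m1 m2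
    have k5 := ca_sx1 cd cy cz
    have k6 := ca_sx2 cd cy cL cx cz ct
    have k7 := ca_c0 cd cy cL cx cz ct wv
    have k8 := ca_c1 cd cy cL cx cz ct wv
    have k9 := ca_c2 cd cy cL cx cz ct wv
    have k10 := ca_c0 cd cy cL cx cz ct qv
    have k11 := ca_c1 cd cy cL cx cz ct qv
    have k12 := ca_c2 cd cy cL cx cz ct qv
    have k13 : ContinuousAt (fun p : (ℝ × ℝ) × (Fin 3 → ℝ) × (Fin 3 → ℝ) × ℝ × ℝ × ℝ =>
        Dl p.1.1 p.2.1 / p.1.2) ((0, 1), y, L, x, z, t) := k1.div cK (by norm_num)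
    have k14 := k1.inv₀ m1
    have k15 := (ca_Dl1 cd cy cL).div_const 2
    unfold HHK
    refine ContinuousAt.sub (ContinuousAt.add ((k1.mul k2).mul (k3.pow 2)) ?_)
      (k13.mul ((k4.add ((k15.mul k14).mul k3)).pow 2))
    refine continuousAt_const.mul (ContinuousAt.add (ContinuousAt.add ?_ ?_) ?_)
    · exact continuousAt_const.mul ((k5.pow 2).add (cx.mul k6))
    · exact continuousAt_const.mul (((k6.mul k7).add
        ((continuousAt_const.mul k5).mul (cd.mul k8))).add (cx.mul ((cd.pow 2).mul k9)))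
    · exact (k11.pow 2).add (k10.mul k12)
  have p1 : 0 < HHK 0 1 y L x z t := by
    have := HH_zero_pos h1 h2 h3 (x := x) (z := z) (t := t) (by rw [h4]; norm_num)
    rw [← HHK_KG, e2] at this
    exact this
  exact H1.eventually (lt_mem_nhds (a := (0 : ℝ)) p1)

theorem GGK_smul_L (d K c : ℝ) (y L n : Fin 3 → ℝ) :
    GGK d K y (c • L) n = c ^ 2 * GGK d K y L n := by
  have hB2 : ∀ (e : ℝ) (x : Fin 3 → ℝ), Bv d (e • x) = e • Bv d x := fun e x => by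
    ext i; fin_cases i <;> simp [Bv] <;> ring
  have hb : ∀ (e : ℝ) (x : Fin 3 → ℝ), bv d (e • x) = e • bv d x := fun e x => by
    ext i; fin_cases i <;> simp [bv] <;> ring
  have e1 : y1 d y (c • L) = c • y1 d y L := by
    simp only [y1, hB2, map_smul, LinearMap.smul_apply]
  have e2 : L1 d (c • L) = c ^ 2 • L1 d L := by
    simp only [L1, hB2, map_smul, LinearMap.smul_apply, smul_smul, sq]
  have e3 : y2 d y (c • L) = c ^ 2 • y2 d y L := by
    simp only [y2, hB2, e1, e2, map_smul, LinearMap.smul_apply, smul_smul, sq, smul_add]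
  have e4 : Dl1 d y (c • L) = c * Dl1 d y L := by
    simp only [Dl1, e1, dotProduct_smul, smul_eq_mul]; ring
  have e5 : tau1 d y (c • L) = c * tau1 d y L := by
    simp only [tau1, e1, hb, dotProduct_smul, smul_eq_mul]; ring
  have e6 : Fy1 d y (c • L) = c * Fy1 d y L := by
    simp only [Fy1, e1, e4, e5, dotProduct_smul, smul_eq_mul]; ring
  have e7 : aa d y (c • L) = c • aa d y L := by
    simp only [aa, hB2, dotProduct_smul, smul_eq_mul]; module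
  have e8 : aa1 d y (c • L) = c ^ 2 • aa1 d y L := by
    simp only [aa1, e1, e2, e4, hB2, dotProduct_smul, smul_eq_mul]; module
  have e9 : n1 d y (c • L) n = c • n1 d y L n := by
    simp only [n1, e7, map_smul, LinearMap.smul_apply, smul_neg]
  have e10 : n2 d y (c • L) n = c ^ 2 • n2 d y L n := by
    simp only [n2, e7, e8, e9, map_smul, LinearMap.smul_apply]; module
  have e11 : ff1 d y (c • L) n = c * ff1 d y L n := by
    simp only [ff1, e1, e6, e9, dotProduct_smul, smul_dotProduct, smul_eq_mul]; ring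
  simp only [GGK, kapJ, hB2, e1, e3, e4, e9, e10, e11, dotProduct_smul, smul_dotProduct,
    smul_eq_mul]
  ring

/-- homogeneity in `n`. -/
theorem GGK_smul_n (d K c : ℝ) (y L n : Fin 3 → ℝ) :
    GGK d K y L (c • n) = c ^ 2 * GGK d K y L n := by
  have e1 : n1 d y L (c • n) = c • n1 d y L n := by
    simp only [n1, map_smul, smul_neg]
  have e2 : n2 d y L (c • n) = c • n2 d y L n := by
    simp only [n2, e1, map_smul, smul_sub, smul_neg]
  have e3 : ff d y (c • n) = c * ff d y n := by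
    simp only [ff, dotProduct_smul, smul_eq_mul]; ring
  have e4 : ff1 d y L (c • n) = c * ff1 d y L n := by
    simp only [ff1, e1, dotProduct_smul, smul_eq_mul]; ring
  simp only [GGK, kapJ, e1, e2, e3, e4, dotProduct_smul, smul_eq_mul]
  ring

/-- **Block G, Gauss curvature as a parameter.** -/
theorem GGK_pos : ∃ d0 δ : ℝ, 0 < d0 ∧ d0 < 1 ∧ 0 < δ ∧ δ < 1 ∧ ∀ d : ℝ, 0 < d → d < d0 →
    ∀ K : ℝ, |K - 1| ≤ δ → ∀ y L : Fin 3 → ℝ, y ⬝ᵥ y = 1 → y ⬝ᵥ L = 0 → L ≠ 0 →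
      ∀ n : Fin 3 → ℝ, n ≠ 0 → 0 < GGK d K y L n := by
  obtain ⟨δ, hδ, H⟩ := Metric.eventually_nhds_iff.1 eventually_posK
  refine ⟨min δ (1 / 2), min (δ / 2) (1 / 2), lt_min hδ (by norm_num),
    lt_of_le_of_lt (min_le_right _ _) (by norm_num), lt_min (by positivity) (by norm_num),
    lt_of_le_of_lt (min_le_right _ _) (by norm_num), ?_⟩
  intro d hd hd0 K hK y L hy hyL hL
  have hdδ : dist (d, K) ((0 : ℝ), (1 : ℝ)) < δ := by
    rw [Prod.dist_eq, max_lt_iff]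
    refine ⟨?_, ?_⟩
    · rw [Real.dist_eq, sub_zero, abs_of_pos hd]; exact lt_of_lt_of_le hd0 (min_le_left _ _)
    · rw [Real.dist_eq]
      exact lt_of_le_of_lt (hK.trans (min_le_left _ _)) (by linarith)
  have HK := H hdδ
  simp only at HK
  -- normalise L
  have hLL : 0 < L ⬝ᵥ L := by
    have h0 : 0 ≤ L ⬝ᵥ L := by
      simp [dotProduct, Fin.sum_univ_three]
      nlinarith [mul_self_nonneg (L 0), mul_self_nonneg (L 1), mul_self_nonneg (L 2)]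
    rcases h0.lt_or_eq with h | h
    · exact h
    · exact absurd (dotProduct_self_eq_zero.1 h.symm) hL
  set l := Real.sqrt (L ⬝ᵥ L) with hl
  have hlpos : 0 < l := Real.sqrt_pos.2 hLL
  have hl2 : l ^ 2 = L ⬝ᵥ L := Real.sq_sqrt hLL.le
  set M := l⁻¹ • L with hM
  have hLM : L = l • M := by rw [hM, smul_smul, mul_inv_cancel₀ hlpos.ne', one_smul]
  have hMM : M ⬝ᵥ M = 1 := by
    rw [hM]
    simp only [dotProduct_smul, smul_dotProduct, smul_eq_mul]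
    rw [← hl2]; field_simp
  have hyM : y ⬝ᵥ M = 0 := by rw [hM, dotProduct_smul, hyL]; simp
  intro n hn
  rw [hLM, GGK_smul_L]
  have hl2pos : 0 < l ^ 2 := by positivity
  refine mul_pos hl2pos ?_
  have hd2 : (d ^ 2) ≠ 0 := by positivity
  have hdec := frame_decomp hy hMM hyM n
  set α := y ⬝ᵥ n with hα
  set β := TT y M ⬝ᵥ n with hβ
  set γ := M ⬝ᵥ n with hγ
  have hn2 : n = nn d y M (α / d ^ 2) (β / d ^ 2) γ := by
    rw [nn, mul_div_cancel₀ _ hd2, mul_div_cancel₀ _ hd2]; exact hdec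
  rw [hn2, GGK_eq d K hy hMM hyM]
  have hd4 : 0 < d ^ 4 := by positivity
  refine mul_pos hd4 ?_
  -- normalise the coefficients
  set x := α / d ^ 2 with hx
  set z := β / d ^ 2 with hz
  have hS : 0 < x ^ 2 + z ^ 2 + γ ^ 2 := by
    have h0 : 0 ≤ x ^ 2 + z ^ 2 + γ ^ 2 := by positivity
    rcases h0.lt_or_eq with h | h
    · exact h
    · exfalso
      have hx0 : x = 0 := by nlinarith [sq_nonneg x, sq_nonneg z, sq_nonneg γ]
      have hz0 : z = 0 := by nlinarith [sq_nonneg x, sq_nonneg z, sq_nonneg γ]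
      have hg0 : γ = 0 := by nlinarith [sq_nonneg x, sq_nonneg z, sq_nonneg γ]
      apply hn
      rw [hn2, nn, hx0, hz0, hg0]; simp
  set ρ := Real.sqrt (x ^ 2 + z ^ 2 + γ ^ 2) with hρ
  have hρpos : 0 < ρ := Real.sqrt_pos.2 hS
  have hρ2 : ρ ^ 2 = x ^ 2 + z ^ 2 + γ ^ 2 := Real.sq_sqrt hS.le
  have hk := HK (y, M, ρ⁻¹ * x, ρ⁻¹ * z, ρ⁻¹ * γ) ⟨hy, hMM, hyM, by
    simp only
    have : (ρ⁻¹ * x) ^ 2 + (ρ⁻¹ * z) ^ 2 + (ρ⁻¹ * γ) ^ 2
        = (ρ⁻¹) ^ 2 * (x ^ 2 + z ^ 2 + γ ^ 2) := by ring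
    rw [this, ← hρ2]; field_simp⟩
  simp only at hk
  rw [HHK_smul] at hk
  have : 0 < (ρ⁻¹) ^ 2 := by positivity
  exact (mul_pos_iff_of_pos_left this).1 hk

end

end Pool.Agent.HS
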