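import Pool.Agent.HS.GFrame

/-!
# Block G: the scalar jets of a parallel section and the scaled form
-/

open Matrix

namespace Pool.Agent.HS

noncomputable section

theorem rot1 (Om a b : Fin 3 → ℝ) : (Om ⨯₃ a) ⬝ᵥ b + a ⬝ᵥ (Om ⨯₃ b) = 0 := by
  simp [cross_apply, dotProduct, Fin.sum_univ_three]; ring

theorem rot2 (Om Om1 a b : Fin 3 → ℝ) :
    (Om1 ⨯₃ a + Om ⨯₃ (Om ⨯₃ a)) ⬝ᵥ b + 2 * ((Om ⨯₃ a) ⬝ᵥ (Om ⨯₃ b))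
      + a ⬝ᵥ (Om1 ⨯₃ b + Om ⨯₃ (Om ⨯₃ b)) = 0 := by
  simp [cross_apply, dotProduct, Fin.sum_univ_three]; ring

theorem y_dot_T (y L : Fin 3 → ℝ) : y ⬝ᵥ TT y L = 0 := by
  rw [TT]; exact dot_cross_self _ _

/-- first derivative of `⟨y,n⟩`. -/
theorem p1_frame (d : ℝ) {y L : Fin 3 → ℝ} (hy : y ⬝ᵥ y = 1) (hL : L ⬝ᵥ L = 1)
    (hyL : y ⬝ᵥ L = 0) (α β γ : ℝ) :
    y1 d y L ⬝ᵥ (α • y + β • TT y L + γ • L)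
      + y ⬝ᵥ n1 d y L (α • y + β • TT y L + γ • L) = 1 / 2 * Dl d y * β := by
  rw [n1_frame d hy hL hyL]
  have h1 : y1 d y L ⬝ᵥ y + y ⬝ᵥ y1 d y L = 0 := rot1 _ _ _
  have h2 : y1 d y L ⬝ᵥ TT y L + y ⬝ᵥ T1 d y L = 0 := rot1 _ _ _
  have h3 : y1 d y L ⬝ᵥ L + y ⬝ᵥ L1 d L = 0 := rot1 _ _ _
  have h4 := y_dot_T y L
  simp only [dotProduct_add, dotProduct_smul, smul_eq_mul, hy, hyL, h4]
  linear_combination α * h1 + β * h2 + γ * h3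

/-- second derivative of `⟨y,n⟩`. -/
theorem p2_frame (d : ℝ) {y L : Fin 3 → ℝ} (hy : y ⬝ᵥ y = 1) (hL : L ⬝ᵥ L = 1)
    (hyL : y ⬝ᵥ L = 0) (α β γ : ℝ) :
    y2 d y L ⬝ᵥ (α • y + β • TT y L + γ • L)
      + 2 * (y1 d y L ⬝ᵥ n1 d y L (α • y + β • TT y L + γ • L))
      + y ⬝ᵥ n2 d y L (α • y + β • TT y L + γ • L)
      = 1 / 2 * Dl1 d y L * β
        + 1 / 2 * Dl d y * (-(1 / 2 * Dl d y * α) + d ^ 2 * (wv ⬝ᵥ L) * γ) := by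
  rw [n1_frame d hy hL hyL, n2_frame d hy hL hyL]
  have h1 : y1 d y L ⬝ᵥ y + y ⬝ᵥ y1 d y L = 0 := rot1 _ _ _
  have h2 : y1 d y L ⬝ᵥ TT y L + y ⬝ᵥ T1 d y L = 0 := rot1 _ _ _
  have h3 : y1 d y L ⬝ᵥ L + y ⬝ᵥ L1 d L = 0 := rot1 _ _ _
  have h4 := y_dot_T y L
  have k1 : y2 d y L ⬝ᵥ y + 2 * (y1 d y L ⬝ᵥ y1 d y L) + y ⬝ᵥ y2 d y L = 0 := rot2 _ _ _ _
  have k2 : y2 d y L ⬝ᵥ TT y L + 2 * (y1 d y L ⬝ᵥ T1 d y L) + y ⬝ᵥ T2 d y L = 0 :=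
    rot2 _ _ _ _
  have k3 : y2 d y L ⬝ᵥ L + 2 * (y1 d y L ⬝ᵥ L1 d L) + y ⬝ᵥ L2 d L = 0 := rot2 _ _ _ _
  simp only [dotProduct_add, dotProduct_smul, smul_eq_mul, hy, hyL, h4]
  linear_combination α * k1 + β * k2 + γ * k3
    + (2 * (1 / 2 * Dl d y * β)) * h1
    + (2 * (-(1 / 2 * Dl d y * α) + d ^ 2 * (wv ⬝ᵥ L) * γ)) * h2
    + (2 * (-(d ^ 2 * (wv ⬝ᵥ L) * β))) * h3

/-! ### scaled coefficients: `α = d² x`, `β = d² z`, `γ = t`. -/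

/-- `x'`. -/
def sx1 (d : ℝ) (y : Fin 3 → ℝ) (z : ℝ) : ℝ := 1 / 2 * Dl d y * z
/-- `z'`. -/
def sz1 (d : ℝ) (y L : Fin 3 → ℝ) (x t : ℝ) : ℝ := -(1 / 2 * Dl d y * x) + (wv ⬝ᵥ L) * t
/-- `x''`. -/
def sx2 (d : ℝ) (y L : Fin 3 → ℝ) (x z t : ℝ) : ℝ :=
  1 / 2 * Dl1 d y L * z + 1 / 2 * Dl d y * sz1 d y L x t
/-- `z''`. -/
def sz2 (d : ℝ) (y L : Fin 3 → ℝ) (x z t : ℝ) : ℝ :=
  -(1 / 2 * Dl1 d y L * x) - 1 / 2 * Dl d y * sx1 d y z + d * (wv ⬝ᵥ l1 L) * t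
    - d ^ 4 * (wv ⬝ᵥ L) ^ 2 * z

/-- `⟨c,n⟩`. -/
def c0 (d : ℝ) (y L c : Fin 3 → ℝ) (x z t : ℝ) : ℝ :=
  d ^ 2 * (x * (c ⬝ᵥ y) + z * (c ⬝ᵥ TT y L)) + t * (c ⬝ᵥ L)

/-- `⟨c,n⟩'`, divided by `d`. -/
def c1 (d : ℝ) (y L c : Fin 3 → ℝ) (x z t : ℝ) : ℝ :=
  d * (sx1 d y z * (c ⬝ᵥ y) + x * (c ⬝ᵥ y1 d y L) + sz1 d y L x t * (c ⬝ᵥ TT y L)
      + z * (c ⬝ᵥ T1 d y L))
    - d ^ 3 * (wv ⬝ᵥ L) * z * (c ⬝ᵥ L) + t * (c ⬝ᵥ l1 L)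

/-- `⟨c,n⟩''`, divided by `d²`. -/
def c2 (d : ℝ) (y L c : Fin 3 → ℝ) (x z t : ℝ) : ℝ :=
  (sx2 d y L x z t * (c ⬝ᵥ y) + 2 * sx1 d y z * (c ⬝ᵥ y1 d y L) + x * (c ⬝ᵥ y2 d y L)
      + sz2 d y L x z t * (c ⬝ᵥ TT y L) + 2 * sz1 d y L x t * (c ⬝ᵥ T1 d y L)
      + z * (c ⬝ᵥ T2 d y L))
    - d ^ 2 * (d * (wv ⬝ᵥ l1 L) * z + (wv ⬝ᵥ L) * sz1 d y L x t) * (c ⬝ᵥ L)
    - 2 * d ^ 3 * (wv ⬝ᵥ L) * z * (c ⬝ᵥ l1 L) + t * (c ⬝ᵥ l2 L)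

/-- the section `n = d² (x y + z T) + t L`. -/
def nn (d : ℝ) (y L : Fin 3 → ℝ) (x z t : ℝ) : Fin 3 → ℝ :=
  (d ^ 2 * x) • y + (d ^ 2 * z) • TT y L + t • L

theorem c0_eq (d : ℝ) (y L c : Fin 3 → ℝ) (x z t : ℝ) :
    c ⬝ᵥ nn d y L x z t = c0 d y L c x z t := by
  simp only [nn, c0, dotProduct_add, dotProduct_smul, smul_eq_mul]; ring

theorem c1_eq (d : ℝ) {y L : Fin 3 → ℝ} (hy : y ⬝ᵥ y = 1) (hL : L ⬝ᵥ L = 1)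
    (hyL : y ⬝ᵥ L = 0) (c : Fin 3 → ℝ) (x z t : ℝ) :
    c ⬝ᵥ n1 d y L (nn d y L x z t) = d * c1 d y L c x z t := by
  rw [nn, n1_frame d hy hL hyL]
  simp only [c1, sx1, sz1, L1_eq, dotProduct_add, dotProduct_smul, smul_eq_mul]; ring

theorem c2_eq (d : ℝ) {y L : Fin 3 → ℝ} (hy : y ⬝ᵥ y = 1) (hL : L ⬝ᵥ L = 1)
    (hyL : y ⬝ᵥ L = 0) (c : Fin 3 → ℝ) (x z t : ℝ) :
    c ⬝ᵥ n2 d y L (nn d y L x z t) = d ^ 2 * c2 d y L c x z t := by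
  rw [nn, n2_frame d hy hL hyL]
  simp only [c2, sx1, sz1, sx2, sz2, L1_eq, L2_eq, dotProduct_add, dotProduct_smul,
    smul_eq_mul]; ring

/-- `f / d²`. -/
def fh (d : ℝ) (y L : Fin 3 → ℝ) (x z t : ℝ) : ℝ :=
  Fy d y * x - 1 / 2 * (c0 d y L wv x z t - (wv ⬝ᵥ y) * (d ^ 2 * x))

/-- `f' / d²`. -/
def f1h (d : ℝ) (y L : Fin 3 → ℝ) (x z t : ℝ) : ℝ :=
  Fy1 d y L * x + Fy d y * sx1 d y z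
    - 1 / 2 * (d * c1 d y L wv x z t - (wv ⬝ᵥ y1 d y L) * (d ^ 2 * x)
      - (wv ⬝ᵥ y) * (d ^ 2 * sx1 d y z))

/-- the scaled form. -/
def HH (d : ℝ) (y L : Fin 3 → ℝ) (x z t : ℝ) : ℝ :=
  Dl d y * (Bv d L ⬝ᵥ L) * fh d y L x z t ^ 2
    + 2 / 3 * (15 / 8 * (sx1 d y z ^ 2 + x * sx2 d y L x z t)
      + 33 / 4 * (sx2 d y L x z t * c0 d y L wv x z t + 2 * sx1 d y z * (d * c1 d y L wv x z t)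
        + x * (d ^ 2 * c2 d y L wv x z t))
      + (c1 d y L qv x z t ^ 2 + c0 d y L qv x z t * c2 d y L qv x z t))
    - Dl d y / KG d y * (f1h d y L x z t + Dl1 d y L / 2 * (Dl d y)⁻¹ * fh d y L x z t) ^ 2

theorem GG_eq (d : ℝ) {y L : Fin 3 → ℝ} (hy : y ⬝ᵥ y = 1) (hL : L ⬝ᵥ L = 1)
    (hyL : y ⬝ᵥ L = 0) (x z t : ℝ) :
    GG d y L (nn d y L x z t) = d ^ 4 * HH d y L x z t := by
  have e0 : y ⬝ᵥ nn d y L x z t = d ^ 2 * x := by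
    simp only [nn, dotProduct_add, dotProduct_smul, smul_eq_mul, hy, hyL, y_dot_T]; ring
  have e1 : y1 d y L ⬝ᵥ nn d y L x z t + y ⬝ᵥ n1 d y L (nn d y L x z t)
      = d ^ 2 * sx1 d y z := by
    rw [nn, p1_frame d hy hL hyL, sx1]; ring
  have e2 : y2 d y L ⬝ᵥ nn d y L x z t + 2 * (y1 d y L ⬝ᵥ n1 d y L (nn d y L x z t))
      + y ⬝ᵥ n2 d y L (nn d y L x z t) = d ^ 2 * sx2 d y L x z t := by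
    rw [nn, p2_frame d hy hL hyL, sx2, sz1]; ring
  have ef : ff d y (nn d y L x z t) = d ^ 2 * fh d y L x z t := by
    rw [ff, e0, c0_eq, fh]; ring
  have ef1 : ff1 d y L (nn d y L x z t) = d ^ 2 * f1h d y L x z t := by
    rw [ff1, e0, e1, c1_eq d hy hL hyL, f1h]; ring
  rw [GG, HH, ef, ef1, kapJ, e0, e1, e2, c0_eq, c0_eq, c1_eq d hy hL hyL, c1_eq d hy hL hyL,
    c2_eq d hy hL hyL, c2_eq d hy hL hyL]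
  ring

end

end Pool.Agent.HS
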