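import Pool.Agent.HS.GDefs

/-!
# Block G: the scaled form

For an orthonormal pair `y, L` and `T = L × y`, `n = d² (x y + z T) + t L`, the infinitesimal
form is `GG d y L n = d⁴ HH d y L x z t` with an explicit `HH` which is continuous at `d = 0`.
-/

open Matrix

namespace Pool.Agent.HS

noncomputable section

/-- `Φ L`. -/
def Ph (x : Fin 3 → ℝ) : Fin 3 → ℝ := ![x 0, 0, -x 2]

/-- `L' = d l1`. -/
def l1 (L : Fin 3 → ℝ) : Fin 3 → ℝ := Ph L ⨯₃ L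

/-- `L'' = d² l2`. -/
def l2 (L : Fin 3 → ℝ) : Fin 3 → ℝ := Ph (l1 L) ⨯₃ L + Ph L ⨯₃ l1 L

/-- `T = L × y`. -/
def TT (y L : Fin 3 → ℝ) : Fin 3 → ℝ := L ⨯₃ y

/-- `T'`. -/
def T1 (d : ℝ) (y L : Fin 3 → ℝ) : Fin 3 → ℝ := Bv d L ⨯₃ TT y L

/-- `T''`. -/
def T2 (d : ℝ) (y L : Fin 3 → ℝ) : Fin 3 → ℝ :=
  Bv d (L1 d L) ⨯₃ TT y L + Bv d L ⨯₃ T1 d y L

/-- `L''`. -/
def L2 (d : ℝ) (L : Fin 3 → ℝ) : Fin 3 → ℝ := Bv d (L1 d L) ⨯₃ L + Bv d L ⨯₃ L1 d L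

theorem Bv_eq (d : ℝ) (x : Fin 3 → ℝ) : Bv d x = x + d • Ph x := by
  ext i; fin_cases i <;> simp [Bv, Ph] <;> ring

theorem Ph_smul (c : ℝ) (x : Fin 3 → ℝ) : Ph (c • x) = c • Ph x := by
  ext i; fin_cases i <;> simp [Ph]

theorem L1_eq (d : ℝ) (L : Fin 3 → ℝ) : L1 d L = d • l1 L := by
  simp only [L1, l1, Bv_eq, map_add, map_smul, LinearMap.add_apply, LinearMap.smul_apply,
    cross_self, zero_add]

theorem L2_eq (d : ℝ) (L : Fin 3 → ℝ) : L2 d L = d ^ 2 • l2 L := by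
  simp only [L2, L1_eq, l2, Bv_eq, map_add, map_smul, LinearMap.add_apply,
    LinearMap.smul_apply, Ph_smul]
  have h : (l1 L) ⨯₃ L + L ⨯₃ (l1 L) = 0 := cross_anticomm' _ _
  have h2 : L ⨯₃ (l1 L) = -((l1 L) ⨯₃ L) := by rw [cross_anticomm]
  rw [h2]
  module

/-! cross products of the frame -/

theorem T_cross_L {y L : Fin 3 → ℝ} (hL : L ⬝ᵥ L = 1) (hyL : y ⬝ᵥ L = 0) :
    TT y L ⨯₃ L = y := by
  rw [TT, cross_cross_eq_smul_sub_smul, hL, hyL]; simp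

theorem y_cross_T {y L : Fin 3 → ℝ} (hy : y ⬝ᵥ y = 1) (hyL : y ⬝ᵥ L = 0) :
    y ⨯₃ TT y L = L := by
  rw [TT, cross_cross_eq_smul_sub_smul', hy]
  rw [dotProduct_comm] at hyL
  simp [hyL]

theorem L_cross_T {y L : Fin 3 → ℝ} (hL : L ⬝ᵥ L = 1) (hyL : y ⬝ᵥ L = 0) :
    L ⨯₃ TT y L = -y := by
  rw [← cross_anticomm, T_cross_L hL hyL]

theorem y_cross_L (y L : Fin 3 → ℝ) : y ⨯₃ L = -TT y L := by
  rw [TT, cross_anticomm]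

end

end Pool.Agent.HS
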