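import Pool.Agent.HS.GScal

/-!
# Block G: the limit form at `d = 0` is positive definite
-/

open Matrix

namespace Pool.Agent.HS

noncomputable section

theorem Bv_zero (x : Fin 3 → ℝ) : Bv 0 x = x := by
  ext i; fin_cases i <;> simp [Bv]

theorem bv_zero (x : Fin 3 → ℝ) : bv 0 x = x := by
  ext i; fin_cases i <;> simp [bv]

theorem Dl_zero {y : Fin 3 → ℝ} (hy : y ⬝ᵥ y = 1) : Dl 0 y = 1 := by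
  rw [Dl, bv_zero, hy]

theorem tau_zero {y : Fin 3 → ℝ} (hy : y ⬝ᵥ y = 1) : tau 0 y = 1 := by
  rw [tau, bv_zero, hy]

theorem KG_zero {y : Fin 3 → ℝ} (hy : y ⬝ᵥ y = 1) : KG 0 y = 1 := by
  rw [KG, Dl_zero hy, tau_zero hy]; norm_num

theorem L1_zero (L : Fin 3 → ℝ) : L1 0 L = 0 := by rw [L1_eq, zero_smul]

theorem y1_zero (y L : Fin 3 → ℝ) : y1 0 y L = TT y L := by rw [y1, Bv_zero, TT]

theorem T1_zero {y L : Fin 3 → ℝ} (hL : L ⬝ᵥ L = 1) (hyL : y ⬝ᵥ L = 0) :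
    T1 0 y L = -y := by rw [T1, Bv_zero, L_cross_T hL hyL]

theorem y2_zero {y L : Fin 3 → ℝ} (hL : L ⬝ᵥ L = 1) (hyL : y ⬝ᵥ L = 0) :
    y2 0 y L = -y := by
  rw [y2, L1_zero, Bv_zero, Bv_zero, y1_zero, L_cross_T hL hyL]; simp

theorem T2_zero {y L : Fin 3 → ℝ} (hL : L ⬝ᵥ L = 1) (hyL : y ⬝ᵥ L = 0) :
    T2 0 y L = -TT y L := by
  rw [T2, L1_zero, Bv_zero, Bv_zero, T1_zero hL hyL, map_neg, TT]; simp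

theorem Dl1_zero (y L : Fin 3 → ℝ) : Dl1 0 y L = 0 := by
  rw [Dl1, bv_zero, y1_zero, y_dot_T]; ring

theorem tau1_zero (y L : Fin 3 → ℝ) : tau1 0 y L = 0 := by
  rw [tau1, bv_zero, bv_zero, y1_zero, y_dot_T]; ring

theorem Fy_zero {y : Fin 3 → ℝ} (hy : y ⬝ᵥ y = 1) : Fy 0 y = -3 / 4 := by
  rw [Fy, Dl_zero hy, tau_zero hy]; norm_num

theorem Fy1_zero {y : Fin 3 → ℝ} (hy : y ⬝ᵥ y = 1) (L : Fin 3 → ℝ) : Fy1 0 y L = 0 := by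
  rw [Fy1, Dl_zero hy, tau_zero hy, Dl1_zero, tau1_zero]; norm_num

/-- The scaled form at `d = 0`. -/
theorem HH_zero {y L : Fin 3 → ℝ} (hy : y ⬝ᵥ y = 1) (hL : L ⬝ᵥ L = 1) (hyL : y ⬝ᵥ L = 0)
    (x z t : ℝ) :
    HH 0 y L x z t = 1 / 4 * x ^ 2 + 11 / 64 * z ^ 2 + 3 * (wv ⬝ᵥ L) ^ 2 * t ^ 2
      + 2 / 3 * (t ^ 2 * ((qv ⬝ᵥ l1 L) ^ 2 + (qv ⬝ᵥ L) * (qv ⬝ᵥ l2 L))
        - 1 / 4 * t * (qv ⬝ᵥ L) * (x * (qv ⬝ᵥ y) + z * (qv ⬝ᵥ TT y L))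
        - 3 / 2 * (wv ⬝ᵥ L) * t ^ 2 * (qv ⬝ᵥ y) * (qv ⬝ᵥ L)) := by
  simp only [HH, fh, f1h, c0, c1, c2, sx1, sz1, sx2, sz2, Dl_zero hy, KG_zero hy, Fy_zero hy,
    Fy1_zero hy, Dl1_zero, y1_zero, T1_zero hL hyL, y2_zero hL hyL, T2_zero hL hyL, Bv_zero, hL,
    dotProduct_neg]
  ring

/-- Pythagoras in the frame. -/
theorem frame_sq {y L : Fin 3 → ℝ} (hy : y ⬝ᵥ y = 1) (hL : L ⬝ᵥ L = 1) (hyL : y ⬝ᵥ L = 0)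
    (c : Fin 3 → ℝ) :
    (c ⬝ᵥ y) ^ 2 + (c ⬝ᵥ TT y L) ^ 2 + (c ⬝ᵥ L) ^ 2 = c ⬝ᵥ c := by
  have h : (c ⬝ᵥ TT y L) ^ 2 = (c ⬝ᵥ c) * (L ⬝ᵥ L) * (y ⬝ᵥ y)
      + 2 * (c ⬝ᵥ L) * (y ⬝ᵥ L) * (c ⬝ᵥ y) - (c ⬝ᵥ c) * (y ⬝ᵥ L) ^ 2
      - (L ⬝ᵥ L) * (c ⬝ᵥ y) ^ 2 - (y ⬝ᵥ y) * (c ⬝ᵥ L) ^ 2 := by
    simp [TT, cross_apply, dotProduct, Fin.sum_univ_three]; ring
  rw [h, hy, hL, hyL]; ring

/-- The quartic form of the certificate. -/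
def R4 (L : Fin 3 → ℝ) : ℝ :=
  (wv ⬝ᵥ L) ^ 2 + 2 / 3 * ((qv ⬝ᵥ l1 L) ^ 2 + (qv ⬝ᵥ L) * (qv ⬝ᵥ l2 L))
    - 11 / 72 * (qv ⬝ᵥ L) ^ 2 * (3 - (qv ⬝ᵥ L) ^ 2)

theorem R4_pos {L : Fin 3 → ℝ} (hL : L ⬝ᵥ L = 1) : 0 < R4 L := by
  have hn : L 0 * L 0 + L 1 * L 1 + L 2 * L 2 = 1 := by
    rw [← hL]; simp [dotProduct, Fin.sum_univ_three]
  have key : R4 L = 1 / 144 * (24 * ((L 0 - L 2) ^ 2 - 1 / 2 * (L 0 + L 2) ^ 2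
        + L 1 * (L 0 + L 2) - L 1 ^ 2) ^ 2
      + (L 0 - L 2) ^ 2 * (63 * (L 0 + L 2) ^ 2 + 222 * (L 1 * (L 0 + L 2)) + 207 * L 1 ^ 2)
      + (31 * (L 0 + L 2) ^ 4 + 94 * (L 1 * (L 0 + L 2) ^ 3) + 513 * (L 1 ^ 2 * (L 0 + L 2) ^ 2)
        + 676 * (L 1 ^ 3 * (L 0 + L 2)) + 508 * L 1 ^ 4)) := by
    have e1 : wv ⬝ᵥ L = L 0 + 2 * L 1 + L 2 := by
      simp [wv, dotProduct, Fin.sum_univ_three]
    have e2 : qv ⬝ᵥ L = L 0 + L 1 + L 2 := by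
      simp [qv, dotProduct, Fin.sum_univ_three]
    have e3 : qv ⬝ᵥ l1 L = L 1 * L 2 - 2 * (L 0 * L 2) + L 0 * L 1 := by
      simp [qv, l1, Ph, cross_apply, dotProduct, Fin.sum_univ_three]; ring
    have e4 : qv ⬝ᵥ l2 L = L 0 * (L 1 ^ 2 - 2 * L 2 ^ 2) - 2 * L 1 * (L 0 ^ 2 + L 2 ^ 2)
        + L 2 * (L 1 ^ 2 - 2 * L 0 ^ 2) := by
      simp [qv, l2, l1, Ph, cross_apply, dotProduct, Fin.sum_univ_three]; ring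
    have e5 : R4 L = (wv ⬝ᵥ L) ^ 2 * (L 0 * L 0 + L 1 * L 1 + L 2 * L 2)
        + 2 / 3 * ((qv ⬝ᵥ l1 L) ^ 2 + (qv ⬝ᵥ L) * (qv ⬝ᵥ l2 L))
        - 11 / 72 * (qv ⬝ᵥ L) ^ 2 * (3 * (L 0 * L 0 + L 1 * L 1 + L 2 * L 2)
          - (qv ⬝ᵥ L) ^ 2) := by
      rw [hn, R4]; ring
    rw [e5, e1, e2, e3, e4]; ring
  have q1 : 0 ≤ 63 * (L 0 + L 2) ^ 2 + 222 * (L 1 * (L 0 + L 2)) + 207 * L 1 ^ 2 := by
    nlinarith [sq_nonneg (63 * (L 0 + L 2) + 111 * L 1), sq_nonneg (L 1)]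
  have q2 : (L 0 + L 2 ≠ 0 ∨ L 1 ≠ 0) → 0 < 31 * (L 0 + L 2) ^ 4
      + 94 * (L 1 * (L 0 + L 2) ^ 3) + 513 * (L 1 ^ 2 * (L 0 + L 2) ^ 2)
        + 676 * (L 1 ^ 3 * (L 0 + L 2)) + 508 * L 1 ^ 4 := by
    intro h
    have i1 : 31 * (L 0 + L 2) ^ 4 + 94 * (L 1 * (L 0 + L 2) ^ 3)
        + 513 * (L 1 ^ 2 * (L 0 + L 2) ^ 2) + 676 * (L 1 ^ 3 * (L 0 + L 2)) + 508 * L 1 ^ 4
        = 1 / 30 * (30 * (L 0 + L 2) ^ 2 + 47 * (L 1 * (L 0 + L 2))) ^ 2 + (L 0 + L 2) ^ 4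
          + (513 - 2209 / 30) * (L 1 ^ 2 * (L 0 + L 2) ^ 2) + 676 * (L 1 ^ 3 * (L 0 + L 2))
          + 508 * L 1 ^ 4 := by ring
    have i2 : (513 - 2209 / 30) * (L 1 ^ 2 * (L 0 + L 2) ^ 2) + 676 * (L 1 ^ 3 * (L 0 + L 2))
          + 508 * L 1 ^ 4 = 400 * (L 1 * (L 0 + L 2) + 169 / 200 * L 1 ^ 2) ^ 2
          + (513 - 2209 / 30 - 400) * (L 1 * (L 0 + L 2)) ^ 2
          + (508 - 400 * (169 / 200) ^ 2) * (L 1 ^ 2) ^ 2 := by ring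
    have i3 : 0 < (L 0 + L 2) ^ 4 + (508 - 400 * (169 / 200) ^ 2) * (L 1 ^ 2) ^ 2 := by
      rcases h with h | h
      · have : 0 < (L 0 + L 2) ^ 4 := by positivity
        have : 0 ≤ (508 - 400 * (169 / 200) ^ 2) * (L 1 ^ 2) ^ 2 :=
          mul_nonneg (by norm_num) (by positivity)
        linarith
      · have : 0 ≤ (L 0 + L 2) ^ 4 := by positivity
        have : 0 < (508 - 400 * (169 / 200) ^ 2) * (L 1 ^ 2) ^ 2 :=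
          mul_pos (by norm_num) (by positivity)
        linarith
    have i4 : 0 ≤ 1 / 30 * (30 * (L 0 + L 2) ^ 2 + 47 * (L 1 * (L 0 + L 2))) ^ 2 := by
      positivity
    have i5 : 0 ≤ 400 * (L 1 * (L 0 + L 2) + 169 / 200 * L 1 ^ 2) ^ 2 := by positivity
    have i6 : 0 ≤ (513 - 2209 / 30 - 400) * (L 1 * (L 0 + L 2)) ^ 2 :=
      mul_nonneg (by norm_num) (by positivity)
    linarith
  rw [key]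
  by_cases h : L 0 + L 2 ≠ 0 ∨ L 1 ≠ 0
  · have h1 := q2 h
    have h2 := mul_nonneg (sq_nonneg (L 0 - L 2)) q1
    have h3 : 0 ≤ 24 * ((L 0 - L 2) ^ 2 - 1 / 2 * (L 0 + L 2) ^ 2
        + L 1 * (L 0 + L 2) - L 1 ^ 2) ^ 2 := by positivity
    linarith
  · push Not at h
    obtain ⟨h0, h1⟩ := h
    have h2 : L 2 = -L 0 := by linarith
    have h3 : L 0 ≠ 0 := by
      intro h4
      rw [h2, h1, h4] at hn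
      norm_num at hn
    rw [h2, h1]
    have h5 : 0 < (L 0) ^ 4 := by positivity
    nlinarith [h5]

/-- The limit form is positive definite. -/
theorem HH_zero_pos {y L : Fin 3 → ℝ} (hy : y ⬝ᵥ y = 1) (hL : L ⬝ᵥ L = 1)
    (hyL : y ⬝ᵥ L = 0) {x z t : ℝ} (h : x ^ 2 + z ^ 2 + t ^ 2 ≠ 0) :
    0 < HH 0 y L x z t := by
  have hs := frame_sq hy hL hyL qv
  have hq : qv ⬝ᵥ qv = 3 := by simp [qv, dotProduct, Fin.sum_univ_three]; norm_num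
  rw [hq] at hs
  have key : HH 0 y L x z t
      = (x / 2 - t * (qv ⬝ᵥ L) * (qv ⬝ᵥ y) / 6) ^ 2
        + 11 / 64 * (z - 16 / 33 * (t * (qv ⬝ᵥ L) * (qv ⬝ᵥ TT y L))) ^ 2
        + t ^ 2 * (2 * ((wv ⬝ᵥ L) - (qv ⬝ᵥ y) * (qv ⬝ᵥ L) / 4) ^ 2
          + 89 / 792 * ((qv ⬝ᵥ L) * (qv ⬝ᵥ TT y L)) ^ 2 + R4 L) := by
    rw [HH_zero hy hL hyL, R4]
    linear_combination (-(11 / 72) * t ^ 2 * (qv ⬝ᵥ L) ^ 2) * hs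
  rw [key]
  have hR := R4_pos hL
  by_cases ht : t = 0
  · subst ht
    have h1 : x ≠ 0 ∨ z ≠ 0 := by
      by_contra h2
      push Not at h2
      apply h
      rw [h2.1, h2.2]; norm_num
    rcases h1 with h1 | h1
    · have : 0 < x ^ 2 := by positivity
      nlinarith [sq_nonneg z]
    · have : 0 < z ^ 2 := by positivity
      nlinarith [sq_nonneg x]
  · have h1 : 0 < t ^ 2 := by positivity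
    have h2 : 0 < t ^ 2 * (2 * ((wv ⬝ᵥ L) - (qv ⬝ᵥ y) * (qv ⬝ᵥ L) / 4) ^ 2
          + 89 / 792 * ((qv ⬝ᵥ L) * (qv ⬝ᵥ TT y L)) ^ 2 + R4 L) := by positivity
    have h3 : 0 ≤ (x / 2 - t * (qv ⬝ᵥ L) * (qv ⬝ᵥ y) / 6) ^ 2 := by positivity
    have h4 : 0 ≤ 11 / 64 * (z - 16 / 33 * (t * (qv ⬝ᵥ L) * (qv ⬝ᵥ TT y L))) ^ 2 := by
      positivity
    linarith

end

end Pool.Agent.HS
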