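import Pool.Agent.HS.Basic

/-!
# Gauss equation for the slices `t = const` of a metric `gam + dt²` (project HS)

`G` is a metric on `V × ℝ` with `G p (a, s) (b, s') = gam p a b + s s'` near `(v, t)`.
The curvature form of the slice metric `gam (·, t)` at `v` is the curvature form of `G` plus
the determinant of the second fundamental form `dt gam / 2`.
-/

namespace Pool.Agent.HS

open scoped Topology

variable {V : Type*} [NormedAddCommGroup V] [NormedSpace ℝ V]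

/-- The derivative of the slice metrics in the direction `t`. -/
noncomputable def dtg (gam : V × ℝ → V →L[ℝ] V →L[ℝ] ℝ) (p : V × ℝ) (a b : V) : ℝ :=
  fderiv ℝ (fun q => gam q a b) p (0, 1)

/-- Restriction of a bilinear form on `V × ℝ` to `V`. -/
noncomputable def resL : (V × ℝ →L[ℝ] V × ℝ →L[ℝ] ℝ) →L[ℝ] (V →L[ℝ] V →L[ℝ] ℝ) :=
  (ContinuousLinearMap.compL ℝ V (V × ℝ →L[ℝ] ℝ) (V →L[ℝ] ℝ)
      ((ContinuousLinearMap.compL ℝ V (V × ℝ) ℝ).flip (ContinuousLinearMap.inl ℝ V ℝ))).comp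
    ((ContinuousLinearMap.compL ℝ V (V × ℝ) (V × ℝ →L[ℝ] ℝ)).flip
      (ContinuousLinearMap.inl ℝ V ℝ))

theorem resL_apply (g : V × ℝ →L[ℝ] V × ℝ →L[ℝ] ℝ) (a b : V) :
    resL g a b = g (a, 0) (b, 0) := rfl

section

variable {G : V × ℝ → V × ℝ →L[ℝ] V × ℝ →L[ℝ] ℝ} {gam : V × ℝ → V →L[ℝ] V →L[ℝ] ℝ}
  {v : V} {t : ℝ}

theorem gam_eq (h : ∀ᶠ p in 𝓝 (v, t), ∀ (a b : V) (s s' : ℝ),
    G p (a, s) (b, s') = gam p a b + s * s') :
    (fun p => resL (G p)) =ᶠ[𝓝 (v, t)] gam := by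
  filter_upwards [h] with p hp
  ext a b
  rw [resL_apply, hp]
  ring

theorem contDiffAt_gam {n : WithTop ℕ∞} (hG : ContDiffAt ℝ n G (v, t))
    (h : ∀ᶠ p in 𝓝 (v, t), ∀ (a b : V) (s s' : ℝ), G p (a, s) (b, s') = gam p a b + s * s') :
    ContDiffAt ℝ n gam (v, t) :=
  (contDiffAt_clm hG resL).congr_of_eventuallyEq (gam_eq h).symm

theorem hasFDerivAt_slice (v : V) (t : ℝ) :
    HasFDerivAt (fun v' : V => (v', t)) (ContinuousLinearMap.inl ℝ V ℝ) v :=
  hasFDerivAt_prodMk_left v t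

theorem contDiff_slice {n : WithTop ℕ∞} (t : ℝ) : ContDiff ℝ n (fun v' : V => (v', t)) :=
  contDiff_prodMk_left t

theorem contDiffAt_gamt {n : WithTop ℕ∞} (hg : ContDiffAt ℝ n gam (v, t)) :
    ContDiffAt ℝ n (fun v' => gam (v', t)) v :=
  ContDiffAt.comp v (g := gam) hg (contDiff_slice t).contDiffAt

/-- First derivatives of the slice metric. -/
theorem D1_slice (hg : DifferentiableAt ℝ gam (v, t)) (x u w : V) :
    D1 (fun v' => gam (v', t)) v x u w = fderiv ℝ (fun q => gam q u w) (v, t) (x, 0) := by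
  have h1 : DifferentiableAt ℝ (fun q => gam q u w) (v, t) := by
    have := hasFDerivAt_clm (F := V →L[ℝ] V →L[ℝ] ℝ) (F' := ℝ) hg (ev2 u w)
    exact this.differentiableAt
  have h2 : HasFDerivAt (fun v' => gam (v', t) u w)
      ((fderiv ℝ (fun q => gam q u w) (v, t)).comp (ContinuousLinearMap.inl ℝ V ℝ)) v :=
    HasFDerivAt.comp (g := fun q => gam q u w) v h1.hasFDerivAt (hasFDerivAt_slice v t)
  unfold D1
  rw [h2.fderiv]
  rfl

theorem coeffG (h : ∀ᶠ p in 𝓝 (v, t), ∀ (a b : V) (s s' : ℝ),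
    G p (a, s) (b, s') = gam p a b + s * s') (u w : V) (s : ℝ) :
    (fun q => G q (u, 0) (w, s)) =ᶠ[𝓝 (v, t)] fun q => gam q u w := by
  filter_upwards [h] with p hp
  rw [hp]
  ring

/-- First derivatives of `G` in terms of `gam`. -/
theorem D1_G (h : ∀ᶠ p in 𝓝 (v, t), ∀ (a b : V) (s s' : ℝ),
    G p (a, s) (b, s') = gam p a b + s * s') (x : V × ℝ) (u w : V) (s : ℝ) :
    D1 G (v, t) x (u, 0) (w, s) = fderiv ℝ (fun q => gam q u w) (v, t) x := by
  unfold D1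
  rw [(coeffG h u w s).fderiv_eq]

theorem dd_slice {f : V × ℝ → ℝ} (hf : ContDiffAt ℝ 2 f (v, t)) (x y : V) :
    dd (fun v' => f (v', t)) v x y = dd f (v, t) (x, 0) (y, 0) := by
  rw [dd_comp (g := f) (f := fun v' : V => (v', t)) hf (contDiff_slice t).contDiffAt x y]
  have h1 : fderiv ℝ (fun v' : V => (v', t)) v = ContinuousLinearMap.inl ℝ V ℝ :=
    (hasFDerivAt_slice v t).fderiv
  have h2 : dd (fun v' : V => (v', t)) v x y = 0 := by
    have h3 : HasFDerivAt (fun _ : V => (ContinuousLinearMap.inl ℝ V ℝ) y)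
        (0 : V →L[ℝ] V × ℝ) v := hasFDerivAt_const _ _
    rw [dd_of_hasFDerivAt (f' := fun _ => ContinuousLinearMap.inl ℝ V ℝ)
      (Filter.Eventually.of_forall fun q => hasFDerivAt_slice q t) h3 x]
    rfl
  rw [h2, h1, map_zero, add_zero]
  rfl

/-- Second derivatives of the slice metric. -/
theorem D2_slice (hg : ContDiffAt ℝ 2 gam (v, t))
    (h : ∀ᶠ p in 𝓝 (v, t), ∀ (a b : V) (s s' : ℝ), G p (a, s) (b, s') = gam p a b + s * s')
    (x y u w : V) :
    D2 (fun v' => gam (v', t)) v x y u w = D2 G (v, t) (x, 0) (y, 0) (u, 0) (w, 0) := by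
  have h1 : ContDiffAt ℝ 2 (fun q => gam q u w) (v, t) :=
    contDiffAt_clm (F := V →L[ℝ] V →L[ℝ] ℝ) (F' := ℝ) hg (ev2 u w)
  have h2 := dd_slice h1 x y
  have h3 := dd_congr (coeffG h u w 0) (x, 0) (y, 0)
  exact h2.trans h3.symm

/-- `G (v, t)` is an inner product. -/
theorem isInner_G (hi : IsInner (gam (v, t)))
    (h : ∀ᶠ p in 𝓝 (v, t), ∀ (a b : V) (s s' : ℝ), G p (a, s) (b, s') = gam p a b + s * s') :
    IsInner (G (v, t)) := by
  have h0 := h.self_of_nhds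
  refine ⟨?_, ?_⟩
  · rintro ⟨a, s⟩ ⟨b, s'⟩
    rw [h0, h0, hi.symm]
    ring
  · rintro ⟨a, s⟩ hne
    rw [h0]
    by_cases ha : a = 0
    · have hs : s ≠ 0 := by
        intro hs
        exact hne (by rw [ha, hs]; rfl)
      rw [ha, map_zero]
      have := mul_self_pos.mpr hs
      simpa using this
    · have := hi.pos a ha
      nlinarith [mul_self_nonneg s]

variable [FiniteDimensional ℝ V]

theorem cov_G (hi : IsInner (gam (v, t)))
    (h : ∀ᶠ p in 𝓝 (v, t), ∀ (a b : V) (s s' : ℝ), G p (a, s) (b, s') = gam p a b + s * s')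
    {α α' : V × ℝ →L[ℝ] ℝ} {β β' : V →L[ℝ] ℝ} {c c' : ℝ}
    (hα : ∀ z s, α (z, s) = β z + c * s) (hα' : ∀ z s, α' (z, s) = β' z + c' * s) :
    cov (G (v, t)) α α' = cov (gam (v, t)) β β' + c * c' := by
  have h0 := h.self_of_nhds
  have hG := isInner_G hi h
  have key : ∀ (γ : V × ℝ →L[ℝ] ℝ) (δ : V →L[ℝ] ℝ) (e : ℝ), (∀ z s, γ (z, s) = δ z + e * s) →
      G (v, t) (sharp (gam (v, t)) δ, e) = γ := by
    intro γ δ e hγ
    ext z
    · change G (v, t) (sharp (gam (v, t)) δ, e) (z, 0) = γ (z, 0)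
      rw [h0, sharp_apply hi, hγ]
    · change G (v, t) (sharp (gam (v, t)) δ, e) (0, 1) = γ (0, 1)
      rw [h0, hγ, map_zero, map_zero]
  rw [cov_eq hG (key α β c hα) (key α' β' c' hα'), h0, cov_eq_sharp hi]

/-- **Gauss equation** for the slices of `gam + dt²`. -/
theorem gauss (hG : ContDiffAt ℝ 2 G (v, t)) (hi : IsInner (gam (v, t)))
    (h : ∀ᶠ p in 𝓝 (v, t), ∀ (a b : V) (s s' : ℝ), G p (a, s) (b, s') = gam p a b + s * s')
    (a b : V) :
    Rm (fun v' => gam (v', t)) v a b = Rm G (v, t) (a, 0) (b, 0)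
      + 1 / 4 * (dtg gam (v, t) a a * dtg gam (v, t) b b - dtg gam (v, t) a b ^ 2) := by
  have hg : ContDiffAt ℝ 2 gam (v, t) := contDiffAt_gam hG h
  have hg1 := diff1 hg
  have hG1 := diff1 hG
  have hgt1 : DifferentiableAt ℝ (fun v' => gam (v', t)) v := diff1 (contDiffAt_gamt hg)
  have hΓ : ∀ x y z : V, ∀ s : ℝ, Gam G (v, t) (x, 0) (y, 0) (z, s)
      = Gam (fun v' => gam (v', t)) v x y z + (-(1 / 2) * dtg gam (v, t) x y) * s := by
    intro x y z s
    rw [Gam_apply hG1, Gam_apply hgt1, D1_G h, D1_G h, D1_slice hg1, D1_slice hg1,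
      D1_slice hg1]
    have e1 : D1 G (v, t) (z, s) (x, 0) (y, 0)
        = fderiv ℝ (fun q => gam q x y) (v, t) (z, 0) + s * dtg gam (v, t) x y := by
      rw [D1_G h]
      have e2 : ((z, s) : V × ℝ) = (z, 0) + s • (0, 1) := by
        ext <;> simp
      rw [e2, map_add, map_smul]
      rfl
    rw [e1]
    ring
  unfold Rm
  rw [cov_G hi h (hΓ a b) (hΓ a b), cov_G hi h (hΓ a a) (hΓ b b), D2_slice hg h, D2_slice hg h,
    D2_slice hg h]
  change -(1 / 2) * _ + cov (gam (v, t)) _ _ - cov (gam (v, t)) _ _ = _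
  ring

end

/-- Cauchy-Schwarz for a nonnegative symmetric form. -/
theorem cs_nonneg {B : V →L[ℝ] V →L[ℝ] ℝ} (hs : ∀ x y, B x y = B y x) (hn : ∀ x, 0 ≤ B x x)
    (a b : V) : B a b ^ 2 ≤ B a a * B b b := by
  have h : ∀ s : ℝ, 0 ≤ B a a + 2 * s * B a b + s ^ 2 * B b b := by
    intro s
    have h1 := hn (a + s • b)
    have h2 : B (a + s • b) (a + s • b) = B a a + 2 * s * B a b + s ^ 2 * B b b := by
      simp only [map_add, map_smul, add_apply, smul_apply, smul_eq_mul]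
      rw [hs b a]
      ring
    rwa [h2] at h1
  have h3 := discrim_le_zero (a := B b b) (b := 2 * B a b) (c := B a a) (fun s => by
    have := h s; nlinarith)
  unfold discrim at h3
  nlinarith

section

variable {G : V × ℝ → V × ℝ →L[ℝ] V × ℝ →L[ℝ] ℝ} {gam : V × ℝ → V →L[ℝ] V →L[ℝ] ℝ}
  {v : V} {t : ℝ}

theorem dtg_eq (hg : DifferentiableAt ℝ gam (v, t)) (a b : V) :
    dtg gam (v, t) a b = fderiv ℝ gam (v, t) (0, 1) a b := by
  have h := hasFDerivAt_clm (F := V →L[ℝ] V →L[ℝ] ℝ) (F' := ℝ) hg (ev2 a b)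
  unfold dtg
  change fderiv ℝ (fun q => ev2 a b (gam q)) (v, t) (0, 1) = _
  rw [h.fderiv]
  rfl

theorem dtg_symm (hs : ∀ᶠ p in 𝓝 (v, t), ∀ a b, gam p a b = gam p b a) (a b : V) :
    dtg gam (v, t) a b = dtg gam (v, t) b a := by
  have h' : (fun q => gam q a b) =ᶠ[𝓝 (v, t)] fun q => gam q b a := by
    filter_upwards [hs] with q hq
    exact hq a b
  unfold dtg
  rw [h'.fderiv_eq]

theorem hasDerivAt_dtg (hg : DifferentiableAt ℝ gam (v, t)) (a b : V) :
    HasDerivAt (fun s : ℝ => gam (v, s) a b) (dtg gam (v, t) a b) t := by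
  have h1 : DifferentiableAt ℝ (fun q => gam q a b) (v, t) := by
    have := hasFDerivAt_clm (F := V →L[ℝ] V →L[ℝ] ℝ) (F' := ℝ) hg (ev2 a b)
    exact this.differentiableAt
  have h2 : HasDerivAt (fun s : ℝ => ((v, s) : V × ℝ)) (0, 1) t :=
    (hasDerivAt_const t v).prodMk (hasDerivAt_id t)
  exact HasFDerivAt.comp_hasDerivAt (l := fun q => gam q a b) t h1.hasFDerivAt h2

/-- If `gam (v, s) a a` is nondecreasing in `s` at `t`, then `dtg ≥ 0`. -/
theorem dtg_nonneg (hg : DifferentiableAt ℝ gam (v, t)) (a : V)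
    (hm : ∀ᶠ s in 𝓝[>] t, gam (v, t) a a ≤ gam (v, s) a a) : 0 ≤ dtg gam (v, t) a a := by
  have h1 := (hasDerivAt_dtg hg a a).hasDerivWithinAt (s := Set.Ioi t)
  have h2 := (hasDerivWithinAt_iff_tendsto_slope' (by simp)).mp h1
  refine ge_of_tendsto h2 ?_
  filter_upwards [hm, self_mem_nhdsWithin] with s hs hst
  have hst' : 0 < s - t := sub_pos.mpr hst
  rw [slope_def_field]
  exact div_nonneg (by linarith) hst'.le

/-- The curvature form of the slice is at least that of `G` if `dtg ≥ 0`. -/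
theorem Rm_slice_ge [FiniteDimensional ℝ V] (hG : ContDiffAt ℝ 2 G (v, t))
    (hi : IsInner (gam (v, t)))
    (h : ∀ᶠ p in 𝓝 (v, t), ∀ (a b : V) (s s' : ℝ), G p (a, s) (b, s') = gam p a b + s * s')
    (hs : ∀ᶠ p in 𝓝 (v, t), ∀ a b, gam p a b = gam p b a)
    (hn : ∀ a, 0 ≤ dtg gam (v, t) a a) (a b : V) :
    Rm G (v, t) (a, 0) (b, 0) ≤ Rm (fun v' => gam (v', t)) v a b := by
  have hg1 : DifferentiableAt ℝ gam (v, t) := diff1 (contDiffAt_gam hG h)
  have h1 := gauss hG hi h a b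
  have h2 := cs_nonneg (B := fderiv ℝ gam (v, t) (0, 1))
    (fun x y => by rw [← dtg_eq hg1, ← dtg_eq hg1, dtg_symm hs])
    (fun x => by rw [← dtg_eq hg1]; exact hn x) a b
  rw [← dtg_eq hg1, ← dtg_eq hg1, ← dtg_eq hg1] at h2
  linarith

/-- Positive curvature of the slices. -/
theorem posAt_slice [FiniteDimensional ℝ V] (hG : ContDiffAt ℝ 2 G (v, t))
    (hi : IsInner (gam (v, t)))
    (h : ∀ᶠ p in 𝓝 (v, t), ∀ (a b : V) (s s' : ℝ), G p (a, s) (b, s') = gam p a b + s * s')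
    (hs : ∀ᶠ p in 𝓝 (v, t), ∀ a b, gam p a b = gam p b a)
    (hn : ∀ a, 0 ≤ dtg gam (v, t) a a)
    (hpos : ∀ a b : V, LinearIndependent ℝ ![a, b] → 0 < Rm G (v, t) (a, 0) (b, 0)) :
    PosAt (fun v' => gam (v', t)) v := by
  intro a b hab
  exact lt_of_lt_of_le (hpos a b hab) (Rm_slice_ge hG hi h hs hn a b)

end

end Pool.Agent.HS
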