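import Pool.Agent.HS.SoulM
import Pool.Agent.HS.Amb

set_option maxSynthPendingDepth 3

/-!
# The soul of the metric `gAmb G` on `S^2 × ℝ^3` (project HS, MP_55c470)
-/

open Bundle Manifold Set Filter Matrix
open scoped Manifold ContDiff Topology

noncomputable section

namespace Pool.Agent.HS

variable {G : V3 × V3 → V3 × V3 →L[ℝ] V3 × V3 →L[ℝ] ℝ}

/-- The metric `gAmb G` is radial. -/
theorem isRadial_gAmb (hG : IsAmb G) : IsRadial (I' := 𝓡 2) (gAmb G hG).inner where
  symm p v v' := (gAmb G hG).symm p v v'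
  radial p a b := by
    have h1 := gAmb_inner hG p a 0 b p.2
    rw [map_zero] at h1
    have h2 := hG.radial (iE p).1 (iE p).2 (dY p.1 a) (eR b) (eR_sphere p.1)
    have h3 : eR b ⬝ᵥ (iE p).2 = inner ℝ b p.2 := dot_eR b p.2
    rw [h3] at h2
    exact h1.trans h2
  mono y w a b l hl := by
    have h1 := gAmb_inner hG (y, w) a a b b
    have h2 := gAmb_inner hG (y, l • w) a a (l • b) (l • b)
    have h3 := hG.mono (iY y) (eR w) (dY y a) (eR b) l (eR_sphere y) hl
    have h4 : iE (y, l • w) = (iY y, l • eR w) := by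
      show (eR (y : R3), eR (l • w)) = _
      rw [map_smul]
      rfl
    rw [h4, map_smul] at h2
    exact (h1.le.trans h3).trans h2.ge
  cross y a b := by
    have h1 := gAmb_inner hG (y, 0) a 0 0 b
    have h3 := hG.zero_orth (iY y) (dY y a) (eR b) (eR_sphere y)
    have h4 : iE (y, 0) = (iY y, 0) := by
      show (eR (y : R3), eR 0) = _
      rw [map_zero]
      rfl
    rw [h4, map_zero, map_zero] at h1
    exact h1.trans h3
  low y w a := by
    have h1 := gAmb_inner hG (y, 0) a a 0 0
    have h2 := gAmb_inner hG (y, w) a a 0 0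
    have h3 := hG.zero_le (iY y) (eR w) (dY y a) (eR_sphere y)
    have h4 : iE (y, 0) = (iY y, 0) := by
      show (eR (y : R3), eR 0) = _
      rw [map_zero]
      rfl
    rw [h4, map_zero] at h1
    rw [map_zero] at h2
    exact (h1.le.trans h3).trans h2.ge

theorem range_zeroSec_eq : range zeroSec = {p : S2 × R3 | p.2 = 0} := by
  ext p
  constructor
  · rintro ⟨y, rfl⟩
    rfl
  · intro hp
    exact ⟨p.1, Prod.ext rfl hp.symm⟩

/-- The zero section is totally convex. -/
theorem gAmb_soul_convex (hG : IsAmb G) :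
    TotallyConvex (gAmb G hG).inner (range zeroSec) := by
  rw [range_zeroSec_eq]
  exact (isRadial_gAmb hG).totallyConvex (gAmb G hG).contMDiff

/-- The zero section is totally geodesic. -/
theorem gAmb_soul_geodesic (hG : IsAmb G) :
    TotallyGeodesic (𝓡 2) (gAmb G hG).inner zeroSec :=
  (isRadial_gAmb hG).totallyGeodesic (gAmb G hG).contMDiff

end Pool.Agent.HS
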