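import Pool.Agent.HS.MfdE
import Pool.Agent.HS.SoulA

set_option autoImplicit false
set_option maxSynthPendingDepth 3

/-!
# The properties of the metric `gAmb G` (project HS, MP_55c470_gt)
-/

open Bundle Manifold Set Filter Metric Matrix
open scoped ContDiff Manifold Topology

noncomputable section

namespace Pool.Agent.HS

variable {G : V3 × V3 → V3 × V3 →L[ℝ] V3 × V3 →L[ℝ] ℝ}

/-- The metric `gAmb G` has all the properties of the main theorem. -/
theorem hasPositiveTubes_gAmb (hG : IsAmb G) (hC : CoordMain G) : HasPositiveTubes (gAmb G hG) where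
  complete := gAmb_complete hG
  nonneg := gAmb_nonneg hG hC
  soul_immersion := injImmersion_zeroSec
  soul_convex := gAmb_soul_convex hG
  soul_geodesic := gAmb_soul_geodesic hG
  sphere_immersion := fun _ hr => injImmersion_tube hr
  sphere_eq := gAmb_sphere_eq hG
  sphere_pos := gAmb_sphere_pos hG hC

end Pool.Agent.HS
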