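import Pool.Agent.HS.Mfd

set_option autoImplicit false
set_option maxSynthPendingDepth 3

/-!
# Riemannian metrics induced by an immersion (project HS)

`ι : M → V` is a smooth immersion of a manifold into a normed space, `B : M → V →L[ℝ] V →L[ℝ] ℝ`
a smooth family of bilinear forms which is symmetric and positive on the image of `dι`.
-/

namespace Pool.Agent.HS

open Bundle Manifold Set Filter
open scoped ContDiff Manifold Topology

noncomputable section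

variable {E : Type*} [NormedAddCommGroup E] [NormedSpace ℝ E]
  {H : Type*} [TopologicalSpace H] {I : ModelWithCorners ℝ E H}
  {M : Type*} [TopologicalSpace M] [ChartedSpace H M]
  {V : Type*} [NormedAddCommGroup V] [NormedSpace ℝ V]

/-- The bilinear form `(u, v) ↦ B (A u) (A v)`. -/
def bilPull (B : V →L[ℝ] V →L[ℝ] ℝ) (A : E →L[ℝ] V) : E →L[ℝ] E →L[ℝ] ℝ :=
  (ContinuousLinearMap.precomp ℝ A) ∘L B ∘L A

lemma bilPull_apply (B : V →L[ℝ] V →L[ℝ] ℝ) (A : E →L[ℝ] V) (u v : E) :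
    bilPull B A u v = B (A u) (A v) := rfl

/-- The differential of `ι`, in the trivialization at `x₀`. -/
def dTriv [IsManifold I ∞ M] (ι : M → V) (x₀ x : M) : E →L[ℝ] V :=
  (mfderiv I 𝓘(ℝ, V) ι x : E →L[ℝ] V) ∘L
    (trivializationAt E (fun x : M => TangentSpace I x) x₀).symmL ℝ x

set_option backward.isDefEq.respectTransparency false in
lemma contMDiffAt_dTriv [IsManifold I ∞ M] {ι : M → V} {x₀ : M}
    (hι : ContMDiffAt I 𝓘(ℝ, V) ∞ ι x₀) :
    ContMDiffAt I 𝓘(ℝ, E →L[ℝ] V) ∞ (dTriv (I := I) ι x₀) x₀ := by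
  have h := ContMDiffAt.mfderiv_const (m := ∞) (n := ∞) hι (by simp)
  refine h.congr_of_eventuallyEq (Filter.Eventually.of_forall fun x => ?_)
  simp only [inTangentCoordinates, ContinuousLinearMap.inCoordinates,
    TangentBundle.continuousLinearMapAt_model_space]
  rfl

lemma contMDiffAt_bilPull {B : M → V →L[ℝ] V →L[ℝ] ℝ} {A : M → E →L[ℝ] V} {x₀ : M}
    (hB : ContMDiffAt I 𝓘(ℝ, V →L[ℝ] V →L[ℝ] ℝ) ∞ B x₀)
    (hA : ContMDiffAt I 𝓘(ℝ, E →L[ℝ] V) ∞ A x₀) :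
    ContMDiffAt I 𝓘(ℝ, E →L[ℝ] E →L[ℝ] ℝ) ∞ (fun x => bilPull (B x) (A x)) x₀ :=
  ContMDiffAt.clm_comp (hA.clm_precomp (F₃ := ℝ)) (ContMDiffAt.clm_comp hB hA)

/-- The form induced by `ι` on the tangent space. -/
def indForm (ι : M → V) (B : M → V →L[ℝ] V →L[ℝ] ℝ) (x : M) :
    TangentSpace I x →L[ℝ] TangentSpace I x →L[ℝ] ℝ :=
  bilPull (E := E) (B x) (mfderiv I 𝓘(ℝ, V) ι x)

lemma indForm_apply (ι : M → V) (B : M → V →L[ℝ] V →L[ℝ] ℝ) (x : M)
    (u v : TangentSpace I x) : indForm (I := I) ι B x u v =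
      B x (mfderiv I 𝓘(ℝ, V) ι x u : V) (mfderiv I 𝓘(ℝ, V) ι x v : V) := rfl

set_option backward.isDefEq.respectTransparency false in
lemma contMDiff_indForm [IsManifold I ∞ M] {ι : M → V} {B : M → V →L[ℝ] V →L[ℝ] ℝ}
    (hι : ContMDiff I 𝓘(ℝ, V) ∞ ι) (hB : ContMDiff I 𝓘(ℝ, V →L[ℝ] V →L[ℝ] ℝ) ∞ B) :
    ContMDiff I (I.prod 𝓘(ℝ, E →L[ℝ] E →L[ℝ] ℝ)) ∞
      (fun b : M => TotalSpace.mk' (E →L[ℝ] E →L[ℝ] ℝ)
        (E := fun b : M => TangentSpace I b →L[ℝ] TangentSpace I b →L[ℝ] ℝ) b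
          (indForm ι B b)) := by
  intro x₀
  rw [contMDiffAt_section]
  have h1 : ContMDiffAt I 𝓘(ℝ, E →L[ℝ] E →L[ℝ] ℝ) ∞
      (fun x => bilPull (B x) (dTriv (I := I) ι x₀ x)) x₀ :=
    contMDiffAt_bilPull (hB x₀) (contMDiffAt_dTriv (hι x₀))
  refine h1.congr_of_eventuallyEq ?_
  have hb : ∀ᶠ x in 𝓝 x₀, x ∈ (trivializationAt E (fun x : M => TangentSpace I x) x₀).baseSet :=
    (trivializationAt E (fun x : M => TangentSpace I x) x₀).open_baseSet.mem_nhds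
      (mem_baseSet_trivializationAt _ _ _)
  filter_upwards [hb] with x hx
  ext u v
  simp only [hom_trivializationAt_apply, ContinuousLinearMap.inCoordinates]
  rw [bilPull_apply]
  simp only [ContinuousLinearMap.comp_apply]
  have hx' : x ∈ (trivializationAt (E →L[ℝ] ℝ)
      (fun x : M => TangentSpace I x →L[ℝ] ℝ) x₀).baseSet := ⟨hx, trivial⟩
  rw [Trivialization.continuousLinearMapAt_apply_of_mem ℝ _ hx']
  simp only [hom_trivializationAt_apply, ContinuousLinearMap.inCoordinates]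
  have ht : ∀ r : ℝ, (Trivialization.continuousLinearMapAt ℝ
      (trivializationAt ℝ (Bundle.Trivial M ℝ) x₀) x) r = r := by
    intro r
    simp
  exact ht _

/-- A positive definite form on a finite-dimensional space has bounded unit ball. -/
lemma isVonNBounded_of_pos [FiniteDimensional ℝ E] {B : E →L[ℝ] E →L[ℝ] ℝ}
    (h : ∀ v : E, v ≠ 0 → 0 < B v v) :
    Bornology.IsVonNBounded ℝ {v : E | B v v < 1} := by
  have : ProperSpace E := FiniteDimensional.proper ℝ E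
  rcases subsingleton_or_nontrivial E with hE | hE
  · have : {v : E | B v v < 1} ⊆ Metric.ball (0 : E) 1 := by
      intro v _
      rw [Subsingleton.elim v 0]
      simp
    exact (NormedSpace.isVonNBounded_ball ℝ E _).subset this
  · have hc : Continuous fun v : E => B v v := by fun_prop
    obtain ⟨v₀, hv₀, hmin⟩ := (isCompact_sphere (0 : E) 1).exists_isMinOn
      (NormedSpace.sphere_nonempty.2 zero_le_one) hc.continuousOn
    have hne : v₀ ≠ 0 := by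
      intro h0
      rw [h0] at hv₀
      simp at hv₀
    have hpos : 0 < B v₀ v₀ := h v₀ hne
    have key : ∀ v : E, B v₀ v₀ * ‖v‖ ^ 2 ≤ B v v := by
      intro v
      rcases eq_or_ne v 0 with rfl | hv
      · simp
      have hn : 0 < ‖v‖ := norm_pos_iff.2 hv
      have h1 : B v₀ v₀ ≤ B ((‖v‖)⁻¹ • v) ((‖v‖)⁻¹ • v) := by
        refine hmin ?_
        rw [mem_sphere_zero_iff_norm, norm_smul, norm_inv, norm_norm]
        exact inv_mul_cancel₀ hn.ne'
      have h2 : B ((‖v‖)⁻¹ • v) ((‖v‖)⁻¹ • v) = (‖v‖)⁻¹ ^ 2 * B v v := by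
        simp [pow_two, mul_assoc]
      rw [h2] at h1
      have h3 : B v₀ v₀ * ‖v‖ ^ 2 ≤ ((‖v‖)⁻¹ ^ 2 * B v v) * ‖v‖ ^ 2 :=
        mul_le_mul_of_nonneg_right h1 (by positivity)
      have h4 : ((‖v‖)⁻¹ ^ 2 * B v v) * ‖v‖ ^ 2 = B v v := by
        field_simp
      linarith
    have hsub : {v : E | B v v < 1} ⊆ Metric.ball (0 : E) (1 / B v₀ v₀ + 1) := by
      intro v hv
      have h1 : B v v < 1 := hv
      have h2 := key v
      rw [mem_ball_zero_iff]
      have h3 : ‖v‖ ^ 2 < 1 / B v₀ v₀ := by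
        rw [lt_div_iff₀ hpos]
        linarith
      nlinarith [norm_nonneg v]
    exact (NormedSpace.isVonNBounded_ball ℝ E _).subset hsub

/-- The Riemannian metric on `M` induced by `ι : M → V` and the bilinear forms `B` on `V`. -/
def indMetric [FiniteDimensional ℝ E] [IsManifold I ∞ M] (ι : M → V)
    (B : M → V →L[ℝ] V →L[ℝ] ℝ)
    (hι : ContMDiff I 𝓘(ℝ, V) ∞ ι) (hB : ContMDiff I 𝓘(ℝ, V →L[ℝ] V →L[ℝ] ℝ) ∞ B)
    (hsymm : ∀ (x : M) (a b : V), B x a b = B x b a)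
    (hpos : ∀ (x : M) (v : TangentSpace I x), v ≠ 0 →
      0 < B x (mfderiv I 𝓘(ℝ, V) ι x v : V) (mfderiv I 𝓘(ℝ, V) ι x v : V)) :
    ContMDiffRiemannianMetric I ∞ E (fun x : M => TangentSpace I x) where
  inner x := indForm ι B x
  symm x _ _ := hsymm x _ _
  pos x v hv := hpos x v hv
  isVonNBounded x := isVonNBounded_of_pos (E := E) (B := indForm ι B x)
    fun v hv => hpos x v hv
  contMDiff := contMDiff_indForm hι hB

lemma indMetric_inner [FiniteDimensional ℝ E] [IsManifold I ∞ M] (ι : M → V)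
    (B : M → V →L[ℝ] V →L[ℝ] ℝ)
    (hι : ContMDiff I 𝓘(ℝ, V) ∞ ι) (hB : ContMDiff I 𝓘(ℝ, V →L[ℝ] V →L[ℝ] ℝ) ∞ B)
    (hsymm : ∀ (x : M) (a b : V), B x a b = B x b a)
    (hpos : ∀ (x : M) (v : TangentSpace I x), v ≠ 0 →
      0 < B x (mfderiv I 𝓘(ℝ, V) ι x v : V) (mfderiv I 𝓘(ℝ, V) ι x v : V)) (x : M)
    (u v : TangentSpace I x) : (indMetric ι B hι hB hsymm hpos).inner x u v =
      B x (mfderiv I 𝓘(ℝ, V) ι x u : V) (mfderiv I 𝓘(ℝ, V) ι x v : V) := rfl


/-! ### The metric induced by a metric `G` on the ambient space -/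

section Ambient

variable [FiniteDimensional ℝ E] [IsManifold I ∞ M] (ι : M → V) (G : V → V →L[ℝ] V →L[ℝ] ℝ)
  (hι : ContMDiff I 𝓘(ℝ, V) ∞ ι) (hG : ∀ x : M, ContDiffAt ℝ ∞ G (ι x))
  (hsymm : ∀ (x : M) (a b : V), G (ι x) a b = G (ι x) b a)
  (hpos : ∀ (x : M) (v : TangentSpace I x), v ≠ 0 →
    0 < G (ι x) (mfderiv I 𝓘(ℝ, V) ι x v : V) (mfderiv I 𝓘(ℝ, V) ι x v : V))

include hι hG in
omit [FiniteDimensional ℝ E] [IsManifold I ∞ M] in
lemma contMDiff_ambient : ContMDiff I 𝓘(ℝ, V →L[ℝ] V →L[ℝ] ℝ) ∞ (fun x => G (ι x)) :=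
  fun x => (hG x).contMDiffAt.comp x (hι x)

/-- The Riemannian metric on `M` induced by an immersion `ι : M → V` and a metric `G` on the
ambient space. -/
def ambMetric : ContMDiffRiemannianMetric I ∞ E (fun x : M => TangentSpace I x) :=
  indMetric ι (fun x => G (ι x)) hι (contMDiff_ambient ι G hι hG) hsymm hpos

lemma ambMetric_inner (x : M) (u v : TangentSpace I x) :
    (ambMetric ι G hι hG hsymm hpos).inner x u v =
      G (ι x) (mfderiv I 𝓘(ℝ, V) ι x u : V) (mfderiv I 𝓘(ℝ, V) ι x v : V) := rfl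

lemma coordG_ambMetric {φ : E → M} {x : E} (hφ : MDifferentiableAt 𝓘(ℝ, E) I φ x) :
    coordG (ambMetric ι G hι hG hsymm hpos) φ x = pull G (ι ∘ φ) x := by
  have h1 : (fderiv ℝ (ι ∘ φ) x : E →L[ℝ] V) =
      (mfderiv I 𝓘(ℝ, V) ι (φ x) : E →L[ℝ] V).comp (mfderiv 𝓘(ℝ, E) I φ x : E →L[ℝ] E) := by
    have h2 := mfderiv_comp x ((hι (φ x)).mdifferentiableAt (by simp)) hφ
    rw [mfderiv_eq_fderiv] at h2
    exact h2
  ext u v
  rw [coordG_apply, ambMetric_inner, pull_apply, h1]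
  rfl

omit [FiniteDimensional ℝ E] in
lemma eventually_mdifferentiableAt {φ : E → M} {x : E} (hφ : ContMDiffAt 𝓘(ℝ, E) I ∞ φ x) :
    ∀ᶠ z in 𝓝 x, MDifferentiableAt 𝓘(ℝ, E) I φ z := by
  have : IsManifold I 1 M := IsManifold.of_le (n := ∞) (by simp)
  have b1 : ∀ᶠ w in 𝓝 x, ContMDiffAt 𝓘(ℝ, E) I 1 φ w :=
    (contMDiffAt_iff_contMDiffAt_nhds (by simp)).1 (hφ.of_le (by simp))
  filter_upwards [b1] with z hz
  exact hz.mdifferentiableAt (by simp)

lemma coordG_ambMetric_eventually {φ : E → M} {x : E} (hφ : ContMDiffAt 𝓘(ℝ, E) I ∞ φ x) :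
    coordG (ambMetric ι G hι hG hsymm hpos) φ =ᶠ[𝓝 x] pull G (ι ∘ φ) := by
  filter_upwards [eventually_mdifferentiableAt hφ] with z hz
  exact coordG_ambMetric ι G hι hG hsymm hpos hz

include hι in
omit [IsManifold I ∞ M] in
/-- A smooth map whose composition with the immersion has injective differential is a local
parametrisation. -/
lemma isParam_of_injective {φ : E → M} {x : E} (hφ : ContMDiffAt 𝓘(ℝ, E) I ∞ φ x)
    (h : Function.Injective (fderiv ℝ (ι ∘ φ) x)) : IsParam I φ x := by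
  refine ⟨hφ, ?_⟩
  have h1 : (fderiv ℝ (ι ∘ φ) x : E →L[ℝ] V) =
      (mfderiv I 𝓘(ℝ, V) ι (φ x) : E →L[ℝ] V).comp (mfderiv 𝓘(ℝ, E) I φ x : E →L[ℝ] E) := by
    have h2 := mfderiv_comp x ((hι (φ x)).mdifferentiableAt (by simp))
      (hφ.mdifferentiableAt (by simp))
    rw [mfderiv_eq_fderiv] at h2
    exact h2
  rw [h1] at h
  let L : E →L[ℝ] E := mfderiv 𝓘(ℝ, E) I φ x
  have hL : Function.Injective L := Function.Injective.of_comp h
  let e : E ≃ₗ[ℝ] E := LinearEquiv.ofInjectiveEndo (L : E →ₗ[ℝ] E) hL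
  exact ⟨e.toContinuousLinearEquiv, by ext v; rfl⟩

/-- Positive sectional curvature of an induced metric: it is enough to find, at every point, one
smooth local parametrisation in which it can be seen. -/
theorem PosSec_ambMetric (h : ∀ p : M, ∃ (φ : E → M) (x : E), ContMDiffAt 𝓘(ℝ, E) I ∞ φ x ∧
      φ x = p ∧ Function.Injective (fderiv ℝ (ι ∘ φ) x) ∧ PosAt (pull G (ι ∘ φ)) x) :
    PosSec (ambMetric ι G hι hG hsymm hpos) := by
  refine PosSec_of_param _ fun p => ?_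
  obtain ⟨φ, x, h1, h2, h3, h4⟩ := h p
  have e := coordG_ambMetric_eventually ι G hι hG hsymm hpos h1
  refine ⟨φ, x, isParam_of_injective ι hι h1 h3, h2, ?_, ?_⟩
  · have hc : ContDiffAt ℝ ∞ (ι ∘ φ) x := ((hι (φ x)).comp x h1).contDiffAt
    have hp : ContDiffAt ℝ 2 (pull G (ι ∘ φ)) x :=
      contDiffAt_pull (n := ∞) ((hG (φ x)).of_le (by exact WithTop.coe_le_coe.2 (le_top : (2 : ℕ∞) ≤ ⊤)))
        hc (by exact WithTop.coe_le_coe.2 (le_top : (3 : ℕ∞) ≤ ⊤))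
    exact hp.congr_of_eventuallyEq e
  · intro u v huv
    rw [Rm_congr_nhds e]
    exact h4 u v huv

/-- Nonnegative sectional curvature of an induced metric. -/
theorem NonnegSec_ambMetric (h : ∀ p : M, ∃ (φ : E → M) (x : E), ContMDiffAt 𝓘(ℝ, E) I ∞ φ x ∧
      φ x = p ∧ Function.Injective (fderiv ℝ (ι ∘ φ) x) ∧ NonnegAt (pull G (ι ∘ φ)) x) :
    NonnegSec (ambMetric ι G hι hG hsymm hpos) := by
  refine NonnegSec_of_param _ fun p => ?_
  obtain ⟨φ, x, h1, h2, h3, h4⟩ := h p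
  have e := coordG_ambMetric_eventually ι G hι hG hsymm hpos h1
  refine ⟨φ, x, isParam_of_injective ι hι h1 h3, h2, ?_, ?_⟩
  · have hc : ContDiffAt ℝ ∞ (ι ∘ φ) x := ((hι (φ x)).comp x h1).contDiffAt
    have hp : ContDiffAt ℝ 2 (pull G (ι ∘ φ)) x :=
      contDiffAt_pull (n := ∞) ((hG (φ x)).of_le (by exact WithTop.coe_le_coe.2 (le_top : (2 : ℕ∞) ≤ ⊤)))
        hc (by exact WithTop.coe_le_coe.2 (le_top : (3 : ℕ∞) ≤ ⊤))
    exact hp.congr_of_eventuallyEq e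
  · intro u v
    rw [Rm_congr_nhds e]
    exact h4 u v

end Ambient


end

end Pool.Agent.HS
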