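import Pool.Agent.HS.LK3c
import Pool.Agent.HS.Calc

set_option autoImplicit false
set_option maxSynthPendingDepth 3

/-!
# The Gauss curvature of the base metric (project HS, block LINK, LK3)

`Rm_hT`: in the adapted chart `Yc`, the curvature form of the base metric on the unit square is
`KG d y`.
-/

namespace Pool.Agent.HS.LK3

open Set Filter Matrix
open scoped ContDiff Topology

noncomputable section

variable {d : ℝ} {y : V3} {l : V2 →L[ℝ] V3}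

theorem hT_eq_pull (d : ℝ) (y : V3) (l : V2 →L[ℝ] V3) : hT d y l = pull (hBL d) (Yc d y l) := rfl

theorem om_contDiff (d : ℝ) (l : V2 →L[ℝ] V3) {n : WithTop ℕ∞} : ContDiff ℝ n (om d l) := by
  have h : om d l = fun u => BvL d (l u)
      + (1 / 2 : ℝ) • BvL d (crossL (BvL d (l u)) (l u)) := rfl
  rw [h]
  have h1 : ContDiff ℝ n (fun u => BvL d (l u)) := (BvL d).contDiff.comp l.contDiff
  have h2 : ContDiff ℝ n (fun u => crossL (BvL d (l u)) (l u)) :=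
    (crossL.contDiff.comp h1).clm_apply l.contDiff
  exact h1.add (((BvL d).contDiff.comp h2).const_smul _)

theorem Yc_contDiff (d : ℝ) (y : V3) (l : V2 →L[ℝ] V3) {n : WithTop ℕ∞} :
    ContDiff ℝ n (Yc d y l) :=
  (cayR_contDiff.comp (om_contDiff d l)).clm_apply contDiff_const

theorem om_zero (d : ℝ) (l : V2 →L[ℝ] V3) : om d l 0 = 0 := by
  have h : om d l 0 = BvL d (l 0) + (1 / 2 : ℝ) • BvL d (crossL (BvL d (l 0)) (l 0)) := rfl
  rw [h]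
  simp

theorem Yc_zero (d : ℝ) (y : V3) (l : V2 →L[ℝ] V3) : Yc d y l 0 = y := by
  unfold Yc
  rw [om_zero, cayR_zero]

theorem Yc_unit (hy : y ⬝ᵥ y = 1) (u : V2) : Yc d y l u ⬝ᵥ Yc d y l u = 1 := by
  unfold Yc
  rw [cayR_dot, hy]

theorem om_hasFDerivAt_zero (d : ℝ) (l : V2 →L[ℝ] V3) :
    HasFDerivAt (om d l) ((BvL d).comp l) 0 := by
  have h1 : HasFDerivAt (fun u => BvL d (l u)) ((BvL d).comp l) 0 :=
    ((BvL d).comp l).hasFDerivAt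
  have h2 : HasFDerivAt (fun u => crossL (BvL d (l u)) (l u)) (0 : V2 →L[ℝ] V3) 0 := by
    have h := crossL.hasFDerivAt_of_bilinear h1 (l.hasFDerivAt (x := 0))
    refine h.congr_fderiv ?_
    ext c i
    simp [ContinuousLinearMap.precompR_apply]
  have h4 : HasFDerivAt (fun u => (1 / 2 : ℝ) • BvL d (crossL (BvL d (l u)) (l u)))
      ((1 / 2 : ℝ) • (BvL d).comp (0 : V2 →L[ℝ] V3)) 0 :=
    ((BvL d).hasFDerivAt.comp 0 h2).const_smul (1 / 2 : ℝ)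
  have h3 : HasFDerivAt (om d l) ((BvL d).comp l + (1 / 2 : ℝ) • (BvL d).comp
      (0 : V2 →L[ℝ] V3)) 0 := h1.add h4
  refine h3.congr_fderiv ?_
  simp

theorem Yc_fderiv_zero (d : ℝ) (y : V3) (l : V2 →L[ℝ] V3) (x : V2) :
    fderiv ℝ (Yc d y l) 0 x = Bv d (l x) ⨯₃ y := by
  have h1 := cayR_hasFDerivAt (om d l 0) y
  have h3 : HasFDerivAt (Yc d y l)
      (((crossL.flip (cayR (om d l 0) y)).comp (cayE (om d l 0))).comp ((BvL d).comp l)) 0 :=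
    h1.comp 0 (om_hasFDerivAt_zero d l)
  rw [h3.fderiv]
  change cayE (om d l 0) (Bv d (l x)) ⨯₃ cayR (om d l 0) y = _
  rw [om_zero, cayR_zero, cayE_zero]

/-- Second derivative of the chart in the normal direction. -/
theorem Yc_fderiv2_dot (hy : y ⬝ᵥ y = 1) (x z : V2) :
    y ⬝ᵥ fderiv ℝ (fderiv ℝ (Yc d y l)) 0 x z
      = -(fderiv ℝ (Yc d y l) 0 x ⬝ᵥ fderiv ℝ (Yc d y l) 0 z) := by
  have hY : ContDiffAt ℝ 2 (Yc d y l) 0 := (Yc_contDiff d y l).contDiffAt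
  have h1 := dd_bilin dotL hY hY x z
  have h2 : (fun q => dotL (Yc d y l q) (Yc d y l q)) = fun _ => (1 : ℝ) := by
    funext q
    exact Yc_unit hy q
  rw [h2, dd_const, Yc_zero, dd_eq hY] at h1
  simp only [dotL_apply] at h1
  have h3 : fderiv ℝ (fderiv ℝ (Yc d y l)) 0 x z ⬝ᵥ y
      = y ⬝ᵥ fderiv ℝ (fderiv ℝ (Yc d y l)) 0 x z := dotProduct_comm _ _
  have h4 : fderiv ℝ (Yc d y l) 0 z ⬝ᵥ fderiv ℝ (Yc d y l) 0 x
      = fderiv ℝ (Yc d y l) 0 x ⬝ᵥ fderiv ℝ (Yc d y l) 0 z := dotProduct_comm _ _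
  linarith

/-- `Δ > 0` on the sphere for `|d| < 1`. -/
theorem Dl_pos (hd : |d| < 1) (hy : y ⬝ᵥ y = 1) : 0 < Dl d y := by
  rw [Dl_eq]
  rw [dot3] at hy
  have h1 := (abs_lt.mp hd).1
  have h2 := (abs_lt.mp hd).2
  have h3 : 0 < 1 - d := by linarith
  have h4 : 0 < 1 + d := by linarith
  have h5 : 0 < 1 - d ^ 2 := by nlinarith
  by_contra hcon
  push Not at hcon
  have k0 : 0 ≤ (1 - d) * y 0 ^ 2 := by positivity
  have k1 : 0 ≤ (1 - d ^ 2) * y 1 ^ 2 := by positivity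
  have k2 : 0 ≤ (1 + d) * y 2 ^ 2 := by positivity
  have z0 : y 0 ^ 2 = 0 := by
    have : (1 - d) * y 0 ^ 2 = 0 := by linarith
    exact (mul_eq_zero.mp this).resolve_left h3.ne'
  have z1 : y 1 ^ 2 = 0 := by
    have : (1 - d ^ 2) * y 1 ^ 2 = 0 := by linarith
    exact (mul_eq_zero.mp this).resolve_left h5.ne'
  have z2 : y 2 ^ 2 = 0 := by
    have : (1 + d) * y 2 ^ 2 = 0 := by linarith
    exact (mul_eq_zero.mp this).resolve_left h4.ne'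
  nlinarith

/-- The frame `B l₀ × y, B l₁ × y` is orthonormal for `h`. -/
theorem frOF (hd : |d| < 1) (h : Fr d y l) :
    OF d y (Bv d (l ![1, 0]) ⨯₃ y) (Bv d (l ![0, 1]) ⨯₃ y) where
  yy := h.unit
  yu := dot_cross_right _ _
  yv := dot_cross_right _ _
  uu := by
    rw [gram_cross d _ _ _ (h.perp _), h.orth]
    simp [dotProduct, Fin.sum_univ_two]
  uv := by
    rw [gram_cross d _ _ _ (h.perp _), h.orth]
    simp [dotProduct, Fin.sum_univ_two]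
  vv := by
    rw [gram_cross d _ _ _ (h.perp _), h.orth]
    simp [dotProduct, Fin.sum_univ_two]
  ne := (Dl_pos hd h.unit).ne'
  dd := by
    have h1 := (abs_lt.mp hd).1
    have h2 := (abs_lt.mp hd).2
    have h5 : 0 < 1 - d ^ 2 := by nlinarith
    exact h5.ne'

theorem kos_hBL (hp : Dl d y ≠ 0) (a b c : V3) :
    kos (hBL d) y a b c = -((Dl d y)⁻¹) ^ 2 * ((bv d y ⬝ᵥ a) * (Bv d b ⬝ᵥ c)
      + (bv d y ⬝ᵥ b) * (Bv d a ⬝ᵥ c) - (bv d y ⬝ᵥ c) * (Bv d a ⬝ᵥ b)) := by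
  unfold kos
  rw [hBL_fderiv d hp, hBL_fderiv d hp, hBL_fderiv d hp]
  ring

theorem sec2_hBL {u v : V3} (h : OF d y u v) :
    sec2 (hBL d) y u v = -4 * ((Dl d y)⁻¹) ^ 2 * ((bv d y ⬝ᵥ u) ^ 2 + (bv d y ⬝ᵥ v) ^ 2)
      + (Dl d y)⁻¹ * (bv d u ⬝ᵥ u + bv d v ⬝ᵥ v) := by
  have hne := h.ne
  unfold sec2
  rw [hBL_fderiv2 d hne, hBL_fderiv2 d hne, hBL_fderiv2 d hne, h.uv, h.uu, h.vv]
  field_simp
  ring

/-- The Gauss equation, algebraic part. -/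
theorem OF.gauss {u v T01 T00 T11 : V3} (h : OF d y u v)
    (a1 : kos (hBL d) y u v u + hBL d y T01 u = 0)
    (a2 : kos (hBL d) y u v v + hBL d y T01 v = 0)
    (a3 : kos (hBL d) y u u u + hBL d y T00 u = 0)
    (a4 : kos (hBL d) y u u v + hBL d y T00 v = 0)
    (a5 : kos (hBL d) y v v u + hBL d y T11 u = 0)
    (a6 : kos (hBL d) y v v v + hBL d y T11 v = 0)
    (n1 : y ⬝ᵥ T01 = -(u ⬝ᵥ v)) (n2 : y ⬝ᵥ T00 = -(u ⬝ᵥ u)) (n3 : y ⬝ᵥ T11 = -(v ⬝ᵥ v)) :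
    sec2 (hBL d) y u v - 2 * kos (hBL d) y u v T01 + kos (hBL d) y u u T11
      + kos (hBL d) y v v T00 - hBL d y T01 T01 + hBL d y T00 T11 = KG d y := by
  have hne := h.ne
  have hvu : Bv d v ⬝ᵥ u = 0 := by rw [Bv_dot_comm]; exact h.uv
  have c : ∀ T w : V3, hBL d y T w = (Bv d w ⬝ᵥ T) * (Dl d y)⁻¹ := by
    intro T w
    rw [hBL_apply, hB, div_eq_mul_inv, Bv_dot_comm]
  rw [kos_hBL hne, c] at a1 a2 a3 a4 a5 a6
  rw [h.uv, h.uu, hvu] at a1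
  rw [h.uv, h.vv] at a2
  rw [h.uu] at a3
  rw [h.uv, h.uu] at a4
  rw [hvu, h.vv] at a5
  rw [h.vv] at a6
  have b1 : Bv d u ⬝ᵥ T01 = bv d y ⬝ᵥ v := by
    field_simp at a1
    first
      | linarith
      | exact mul_left_cancel₀ hne (by linarith)
  have b2 : Bv d v ⬝ᵥ T01 = bv d y ⬝ᵥ u := by
    field_simp at a2
    first
      | linarith
      | exact mul_left_cancel₀ hne (by linarith)
  have b3 : Bv d u ⬝ᵥ T00 = bv d y ⬝ᵥ u := by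
    field_simp at a3
    linarith
  have b4 : Bv d v ⬝ᵥ T00 = -(bv d y ⬝ᵥ v) := by
    field_simp at a4
    first
      | linarith
      | exact mul_left_cancel₀ hne (by linarith)
  have b5 : Bv d u ⬝ᵥ T11 = -(bv d y ⬝ᵥ u) := by
    field_simp at a5
    first
      | linarith
      | exact mul_left_cancel₀ hne (by linarith)
  have b6 : Bv d v ⬝ᵥ T11 = bv d y ⬝ᵥ v := by
    field_simp at a6
    linarith
  have f1 := h.form T01 T01
  have f2 := h.form T00 T11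
  have g1 := h.lin T11
  have g2 := h.lin T00
  rw [b1, b2, n1] at f1
  rw [b3, b4, b5, b6, n2, n3] at f2
  rw [b5, b6, n3] at g1
  rw [b3, b4, n2] at g2
  have F1 : Bv d T01 ⬝ᵥ T01 = ((bv d y ⬝ᵥ v) * (bv d y ⬝ᵥ v) + (bv d y ⬝ᵥ u) * (bv d y ⬝ᵥ u)
      + (1 - d ^ 2) * (-(u ⬝ᵥ v) * -(u ⬝ᵥ v))) / Dl d y := by
    rw [eq_div_iff hne, ← f1]; ring
  have F2 : Bv d T11 ⬝ᵥ T00 = ((bv d y ⬝ᵥ u) * -(bv d y ⬝ᵥ u)
      + -(bv d y ⬝ᵥ v) * (bv d y ⬝ᵥ v) + (1 - d ^ 2) * (-(u ⬝ᵥ u) * -(v ⬝ᵥ v))) / Dl d y := by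
    rw [eq_div_iff hne, ← f2, Bv_dot_comm]; ring
  have G1 : bv d y ⬝ᵥ T11 = (-(bv d y ⬝ᵥ u) * (bv d y ⬝ᵥ u) + (bv d y ⬝ᵥ v) * (bv d y ⬝ᵥ v)
      + -(v ⬝ᵥ v) * tau d y) / Dl d y := by
    rw [eq_div_iff hne, ← g1]; ring
  have G2 : bv d y ⬝ᵥ T00 = ((bv d y ⬝ᵥ u) * (bv d y ⬝ᵥ u) + -(bv d y ⬝ᵥ v) * (bv d y ⬝ᵥ v)
      + -(u ⬝ᵥ u) * tau d y) / Dl d y := by
    rw [eq_div_iff hne, ← g2]; ring
  rw [sec2_hBL h, kos_hBL hne, kos_hBL hne, kos_hBL hne, c, c, b1, b2, b4, b5, h.uu, h.uv, h.vv,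
    F1, F2, G1, G2, ← h.KG_eq]
  field_simp
  ring

/-- **LK3.** The curvature form of the base metric in the adapted chart is the Gauss curvature
`KG`. -/
theorem Rm_hT (hd : |d| < 1) (h : Fr d y l) (dh : fderiv ℝ (hT d y l) 0 = 0) :
    Rm (hT d y l) 0 ![1, 0] ![0, 1] = KG d y := by
  have hO := frOF hd h
  have hne : Dl d y ≠ 0 := hO.ne
  have hY : ContDiffAt ℝ 3 (Yc d y l) 0 := (Yc_contDiff d y l).contDiffAt
  have hY2 : ContDiffAt ℝ 2 (Yc d y l) 0 := (Yc_contDiff d y l).contDiffAt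
  have hne' : Dl d (Yc d y l 0) ≠ 0 := by rw [Yc_zero]; exact hne
  have hG2 : ContDiffAt ℝ 2 (hBL d) (Yc d y l 0) := hBL_contDiffAt d hne'
  have hG1 : ContDiffAt ℝ 1 (hBL d) (Yc d y l 0) := hBL_contDiffAt d hne'
  have hsymm : ∀ q : V3, ∀ a b, hBL d q a b = hBL d q b a := by
    intro q a b
    rw [hBL_apply, hBL_apply, hB, hB, Bv_dot_comm]
  have hh2 : ContDiffAt ℝ 2 (hT d y l) 0 := by
    rw [hT_eq_pull]
    exact contDiffAt_pull hG2 hY (by norm_num)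
  rw [Rm_of_fderiv_zero hh2 dh, hT_eq_pull,
    sec2_pull hG2 hY (Eventually.of_forall hsymm), Yc_zero]
  -- tangential components of the second derivatives
  have hk : ∀ x z w : V2, kos (hBL d) y (fderiv ℝ (Yc d y l) 0 x) (fderiv ℝ (Yc d y l) 0 z)
      (fderiv ℝ (Yc d y l) 0 w)
      + hBL d y (fderiv ℝ (fderiv ℝ (Yc d y l)) 0 x z) (fderiv ℝ (Yc d y l) 0 w) = 0 := by
    intro x z w
    have h1 := kos_pull hG1 hY2 (hsymm _) x z w
    rw [← hT_eq_pull, Yc_zero] at h1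
    rw [← h1]
    unfold kos
    rw [dh]
    simp
  have hn : ∀ x z : V2, y ⬝ᵥ fderiv ℝ (fderiv ℝ (Yc d y l)) 0 x z
      = -(fderiv ℝ (Yc d y l) 0 x ⬝ᵥ fderiv ℝ (Yc d y l) 0 z) := fun x z =>
    Yc_fderiv2_dot h.unit x z
  have a1 := hk ![1, 0] ![0, 1] ![1, 0]
  have a2 := hk ![1, 0] ![0, 1] ![0, 1]
  have a3 := hk ![1, 0] ![1, 0] ![1, 0]
  have a4 := hk ![1, 0] ![1, 0] ![0, 1]
  have a5 := hk ![0, 1] ![0, 1] ![1, 0]
  have a6 := hk ![0, 1] ![0, 1] ![0, 1]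
  have n1 := hn ![1, 0] ![0, 1]
  have n2 := hn ![1, 0] ![1, 0]
  have n3 := hn ![0, 1] ![0, 1]
  clear hk hn
  simp only [Yc_fderiv_zero] at a1 a2 a3 a4 a5 a6 n1 n2 n3 ⊢
  exact hO.gauss a1 a2 a3 a4 a5 a6 n1 n2 n3

end

end Pool.Agent.HS.LK3
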