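import Pool.Agent.HS.Pull

set_option autoImplicit false
set_option maxSynthPendingDepth 3

/-!
# Gauss equation for pull-backs (project HS, block LINK, LK3)

`sec2_pull`: the second order part of the curvature form of a metric pulled back by an arbitrary
`C³` map (no third derivatives remain). `Rm_of_fderiv_zero`: if the first derivatives of the metric
vanish at the point, the curvature form is its second order part.
-/

namespace Pool.Agent.HS.LK3

open Set Filter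
open scoped ContDiff Topology

noncomputable section

variable {E : Type*} [NormedAddCommGroup E] [NormedSpace ℝ E]
  {F : Type*} [NormedAddCommGroup F] [NormedSpace ℝ F]

/-- The second order part of the curvature form of a pull-back. -/
theorem sec2_pull {τ : F → E} {g : E → E →L[ℝ] E →L[ℝ] ℝ} {x : F}
    (hg : ContDiffAt ℝ 2 g (τ x)) (hτ : ContDiffAt ℝ 3 τ x)
    (hsymm : ∀ᶠ y in 𝓝 (τ x), ∀ a b, g y a b = g y b a) (u v : F) :
    sec2 (pull g τ) x u v = sec2 g (τ x) (fderiv ℝ τ x u) (fderiv ℝ τ x v)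
      - 2 * kos g (τ x) (fderiv ℝ τ x u) (fderiv ℝ τ x v) (fderiv ℝ (fderiv ℝ τ) x u v)
      + kos g (τ x) (fderiv ℝ τ x u) (fderiv ℝ τ x u) (fderiv ℝ (fderiv ℝ τ) x v v)
      + kos g (τ x) (fderiv ℝ τ x v) (fderiv ℝ τ x v) (fderiv ℝ (fderiv ℝ τ) x u u)
      - g (τ x) (fderiv ℝ (fderiv ℝ τ) x u v) (fderiv ℝ (fderiv ℝ τ) x u v)
      + g (τ x) (fderiv ℝ (fderiv ℝ τ) x u u) (fderiv ℝ (fderiv ℝ τ) x v v) := by
  have hgd : DifferentiableAt ℝ g (τ x) := hg.differentiableAt (by norm_num)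
  have hτ2 : ContDiffAt ℝ 2 τ x := hτ.of_le (by norm_num)
  have hτ' : ContDiffAt ℝ 2 (fderiv ℝ τ) x := hτ.fderiv_right (by norm_num)
  have hs : ∀ a b, g (τ x) a b = g (τ x) b a := hsymm.self_of_nhds
  have hds : ∀ c a b, fderiv ℝ g (τ x) c a b = fderiv ℝ g (τ x) c b a := fun c a b =>
    fderiv_symm_eval hgd hsymm c a b
  unfold sec2 kos
  rw [fderiv2_pull hg hτ, fderiv2_pull hg hτ, fderiv2_pull hg hτ]
  rw [fderiv2_symm hτ2 v u, fderiv3_symm hτ u v u, fderiv3_symm hτ v v u,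
    fderiv2_symm hτ' u v]
  have S1 := hs (fderiv ℝ τ x v) (fderiv ℝ (fderiv ℝ (fderiv ℝ τ)) x u u v)
  have S2 := hs (fderiv ℝ τ x u) (fderiv ℝ (fderiv ℝ (fderiv ℝ τ)) x v u v)
  have S3 := hds (fderiv ℝ τ x u) (fderiv ℝ τ x v) (fderiv ℝ (fderiv ℝ τ) x u v)
  have S4 := hds (fderiv ℝ τ x v) (fderiv ℝ τ x u) (fderiv ℝ (fderiv ℝ τ) x u v)
  have S5 := hds (fderiv ℝ τ x v) (fderiv ℝ τ x v) (fderiv ℝ (fderiv ℝ τ) x u u)
  have S6 := hds (fderiv ℝ τ x u) (fderiv ℝ τ x u) (fderiv ℝ (fderiv ℝ τ) x v v)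
  have S7 := hs (fderiv ℝ (fderiv ℝ τ) x u u) (fderiv ℝ (fderiv ℝ τ) x v v)
  linarith

/-- At a point where the first derivatives of the metric vanish, the curvature form is its second
order part. -/
theorem Rm_of_fderiv_zero {G : E → E →L[ℝ] E →L[ℝ] ℝ} {p : E} (hG : ContDiffAt ℝ 2 G p)
    (h0 : fderiv ℝ G p = 0) (x y : E) : Rm G p x y = sec2 G p x y := by
  have hd : DifferentiableAt ℝ G p := hG.differentiableAt (by norm_num)
  have hΓ : ∀ u v : E, Gam G p u v = 0 := by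
    intro u v
    ext z
    rw [Gam_eq hd]
    unfold kos
    rw [h0]
    simp
  unfold Rm cov
  rw [hΓ, hΓ, hΓ, D2_eq hG, D2_eq hG, D2_eq hG]
  unfold sec2
  simp only [_root_.zero_apply, add_zero, sub_zero]
  ring

end

end Pool.Agent.HS.LK3
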