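import Pool.Agent.HS.LK3a
import Pool.Agent.HS.LkDefs

set_option autoImplicit false
set_option maxSynthPendingDepth 3

/-!
# Derivatives of the ambient base metric `hBL d` (project HS, block LINK, LK3)
-/

namespace Pool.Agent.HS.LK3

open Set Filter Matrix
open scoped ContDiff Topology

noncomputable section

theorem fderiv2_eval {E : Type*} [NormedAddCommGroup E] [NormedSpace ℝ E]
    {g : E → E →L[ℝ] E →L[ℝ] ℝ} {x : E} (hg : ContDiffAt ℝ 2 g x) (c' c a b : E) :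
    fderiv ℝ (fderiv ℝ g) x c' c a b = fderiv ℝ (fun y => fderiv ℝ g y c a b) x c' := by
  have hg' : ContDiffAt ℝ 1 (fderiv ℝ g) x := hg.fderiv_right (by norm_num)
  have hd : DifferentiableAt ℝ (fderiv ℝ g) x := hg'.differentiableAt (by norm_num)
  have h1 : fderiv ℝ (fun y => fderiv ℝ g y c) x c' = fderiv ℝ (fderiv ℝ g) x c' c := by
    rw [fderiv_clm_apply hd (differentiableAt_const c)]
    simp
  rw [← h1, fderiv_eval₂ (hd.clm_apply (differentiableAt_const c))]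

theorem dot3 (a b : V3) : a ⬝ᵥ b = a 0 * b 0 + a 1 * b 1 + a 2 * b 2 := by
  rw [dotProduct, Fin.sum_univ_three]

theorem bv_dot_comm (d : ℝ) (a c : V3) : bv d a ⬝ᵥ c = bv d c ⬝ᵥ a := by
  rw [dot3, dot3]
  simp [bv]
  ring

theorem Bv_dot_comm (d : ℝ) (a c : V3) : Bv d a ⬝ᵥ c = Bv d c ⬝ᵥ a := by
  rw [dot3, dot3]
  simp [Bv]
  ring

theorem Dl_eq (d : ℝ) (p : V3) :
    Dl d p = (1 - d) * p 0 ^ 2 + (1 - d ^ 2) * p 1 ^ 2 + (1 + d) * p 2 ^ 2 := by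
  unfold Dl
  rw [dot3]
  simp [bv]
  ring

theorem Dl_hasFDerivAt (d : ℝ) (p : V3) :
    HasFDerivAt (Dl d) ((2 : ℝ) • dotL (bv d p)) p := by
  have h := dotL.hasFDerivAt_of_bilinear (bvL d).hasFDerivAt (hasFDerivAt_id p)
  have h2 : HasFDerivAt (Dl d) _ p := h
  refine h2.congr_fderiv ?_
  ext c
  have e : bv d c ⬝ᵥ p = bv d p ⬝ᵥ c := bv_dot_comm d c p
  change bv d p ⬝ᵥ c + bv d c ⬝ᵥ p = 2 * (bv d p ⬝ᵥ c)
  rw [e]
  ring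

theorem Dl_contDiff (d : ℝ) {n : WithTop ℕ∞} : ContDiff ℝ n (Dl d) := by
  have h : Dl d = fun p => (1 - d) * p 0 ^ 2 + (1 - d ^ 2) * p 1 ^ 2 + (1 + d) * p 2 ^ 2 :=
    funext (Dl_eq d)
  rw [h]
  fun_prop

theorem iDl_hasFDerivAt (d : ℝ) {p : V3} (hp : Dl d p ≠ 0) :
    HasFDerivAt (fun q => (Dl d q)⁻¹) ((-(2 * ((Dl d p)⁻¹) ^ 2)) • dotL (bv d p)) p := by
  have h := (hasDerivAt_inv hp).comp_hasFDerivAt p (Dl_hasFDerivAt d p)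
  have h2 : HasFDerivAt (fun q => (Dl d q)⁻¹) _ p := h
  refine h2.congr_fderiv ?_
  ext c
  change -(Dl d p ^ 2)⁻¹ * (2 * (bv d p ⬝ᵥ c)) = -(2 * ((Dl d p)⁻¹) ^ 2) * (bv d p ⬝ᵥ c)
  rw [inv_pow]
  ring

theorem iDl_contDiffAt (d : ℝ) {p : V3} (hp : Dl d p ≠ 0) {n : WithTop ℕ∞} :
    ContDiffAt ℝ n (fun q => (Dl d q)⁻¹) p :=
  (Dl_contDiff d).contDiffAt.inv hp

theorem hBL_contDiffAt (d : ℝ) {p : V3} (hp : Dl d p ≠ 0) {n : WithTop ℕ∞} :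
    ContDiffAt ℝ n (hBL d) p :=
  (iDl_contDiffAt d hp).smul contDiffAt_const

theorem hBL_fderiv (d : ℝ) {p : V3} (hp : Dl d p ≠ 0) (c a b : V3) :
    fderiv ℝ (hBL d) p c a b
      = -(2 * ((Dl d p)⁻¹) ^ 2) * (bv d p ⬝ᵥ c) * (Bv d a ⬝ᵥ b) := by
  have hd : DifferentiableAt ℝ (hBL d) p :=
    (hBL_contDiffAt d hp (n := 1)).differentiableAt (by norm_num)
  rw [fderiv_eval₂ hd]
  have h1 : (fun q => hBL d q a b) = fun q => (Bv d a ⬝ᵥ b) * (Dl d q)⁻¹ := by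
    funext q
    rw [hBL_apply, hB, div_eq_mul_inv]
  have h2 := (iDl_hasFDerivAt d hp).const_mul (Bv d a ⬝ᵥ b)
  rw [h1, h2.fderiv]
  simp only [_root_.smul_apply, smul_eq_mul, dotL_apply]
  ring

theorem hBL_fderiv2 (d : ℝ) {p : V3} (hp : Dl d p ≠ 0) (c' c a b : V3) :
    fderiv ℝ (fderiv ℝ (hBL d)) p c' c a b
      = (8 * ((Dl d p)⁻¹) ^ 3 * (bv d p ⬝ᵥ c') * (bv d p ⬝ᵥ c)
          - 2 * ((Dl d p)⁻¹) ^ 2 * (bv d c' ⬝ᵥ c)) * (Bv d a ⬝ᵥ b) := by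
  rw [fderiv2_eval (hBL_contDiffAt d hp)]
  have hev : (fun y => fderiv ℝ (hBL d) y c a b) =ᶠ[𝓝 p]
      fun y => -(2 * ((Dl d y)⁻¹) ^ 2) * (dotL.flip c (bvL d y)) * (Bv d a ⬝ᵥ b) := by
    have : ∀ᶠ y in 𝓝 p, Dl d y ≠ 0 :=
      (Dl_contDiff d (n := 0)).continuous.continuousAt.eventually_ne hp
    filter_upwards [this] with y hy
    rw [hBL_fderiv d hy]
    rfl
  rw [hev.fderiv_eq]
  have h1 := iDl_hasFDerivAt d hp
  have h2 : HasFDerivAt (fun y => dotL.flip c (bvL d y)) ((dotL.flip c).comp (bvL d)) p :=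
    ((dotL.flip c).comp (bvL d)).hasFDerivAt
  have h3 : HasFDerivAt (fun y => -(2 * ((Dl d y)⁻¹) ^ 2) * (dotL.flip c (bvL d y))
      * (Bv d a ⬝ᵥ b)) _ p :=
    ((((h1.pow 2).const_mul 2).neg).mul h2).mul_const (Bv d a ⬝ᵥ b)
  rw [h3.fderiv]
  change (Bv d a ⬝ᵥ b) * (-(2 * ((Dl d p)⁻¹) ^ 2) * (bv d c' ⬝ᵥ c)
    + (bv d p ⬝ᵥ c) * (-(2 * (((2 : ℕ) • ((Dl d p)⁻¹) ^ (2 - 1))
      * (-(2 * ((Dl d p)⁻¹) ^ 2) * (bv d p ⬝ᵥ c')))))) = _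
  rw [nsmul_eq_mul]
  push_cast
  ring

end

end Pool.Agent.HS.LK3
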