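import Pool.Agent.HS.LK3b

set_option autoImplicit false
set_option maxSynthPendingDepth 3

/-!
# Algebra for the Gauss curvature of `h` (project HS, block LINK, LK3)

`u = B l₀ × y`, `v = B l₁ × y` is an orthonormal frame of `h`; completeness relation and traces.
-/

namespace Pool.Agent.HS.LK3

open Matrix

theorem cross3 (a b : V3) :
    a ⨯₃ b = ![a 1 * b 2 - a 2 * b 1, a 2 * b 0 - a 0 * b 2, a 0 * b 1 - a 1 * b 0] := by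
  rw [cross_apply]

theorem Bv_cross (d : ℝ) (l y : V3) : Bv d (Bv d l ⨯₃ y) = l ⨯₃ bv d y := by
  rw [cross3, cross3]
  ext i
  fin_cases i <;> simp [Bv, bv] <;> ring

theorem gram_cross (d : ℝ) (a c y : V3) (ha : a ⬝ᵥ y = 0) :
    Bv d (Bv d a ⨯₃ y) ⬝ᵥ (Bv d c ⨯₃ y) = (Bv d a ⬝ᵥ c) * Dl d y := by
  have e : Bv d (Bv d a ⨯₃ y) ⬝ᵥ (Bv d c ⨯₃ y)
      = (Bv d a ⬝ᵥ c) * Dl d y - (a ⬝ᵥ y) * ((1 - d ^ 2) * (y ⬝ᵥ c)) := by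
    rw [Bv_cross, cross3, cross3, dot3, dot3, dot3, dot3, Dl_eq]
    simp [Bv, bv]
    ring
  rw [e, ha]
  ring

theorem dot_cross_right (a y : V3) : y ⬝ᵥ (a ⨯₃ y) = 0 := by
  rw [cross3, dot3]
  simp
  ring

theorem Bv_bv_dot (d : ℝ) (a y : V3) : Bv d a ⬝ᵥ bv d y = (1 - d ^ 2) * (a ⬝ᵥ y) := by
  rw [dot3, dot3]
  simp [Bv, bv]
  ring

/-- Hypotheses on two vectors `u, v`: an orthonormal frame of `h` in `y^⊥`. -/
structure OF (d : ℝ) (y u v : V3) : Prop where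
  yy : y ⬝ᵥ y = 1
  yu : y ⬝ᵥ u = 0
  yv : y ⬝ᵥ v = 0
  uu : Bv d u ⬝ᵥ u = Dl d y
  uv : Bv d u ⬝ᵥ v = 0
  vv : Bv d v ⬝ᵥ v = Dl d y
  ne : Dl d y ≠ 0
  dd : 1 - d ^ 2 ≠ 0

theorem OF.complete {d : ℝ} {y u v : V3} (h : OF d y u v) (i j : Fin 3) :
    u i * Bv d u j + v i * Bv d v j + bv d y i * y j = if i = j then Dl d y else 0 := by
  have hne := h.ne
  let M : Matrix (Fin 3) (Fin 3) ℝ := ![(Dl d y)⁻¹ • Bv d u, (Dl d y)⁻¹ • Bv d v, (Dl d y)⁻¹ • y]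
  let L : Matrix (Fin 3) (Fin 3) ℝ := fun i j => (![u, v, bv d y] j) i
  have hML : M * L = 1 := by
    ext a b
    have e1 : Bv d v ⬝ᵥ u = 0 := by rw [Bv_dot_comm]; exact h.uv
    have e2 : Bv d u ⬝ᵥ bv d y = 0 := by
      rw [Bv_bv_dot, dotProduct_comm, h.yu, mul_zero]
    have e3 : Bv d v ⬝ᵥ bv d y = 0 := by
      rw [Bv_bv_dot, dotProduct_comm, h.yv, mul_zero]
    have e4 : y ⬝ᵥ bv d y = Dl d y := by rw [dotProduct_comm]; rfl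
    have key : (M * L) a b = (M a) ⬝ᵥ (![u, v, bv d y] b) := rfl
    rw [key]
    fin_cases a <;> fin_cases b <;>
      simp [M, h.uu, h.uv, h.vv, h.yu, h.yv, e1, e2, e3, e4, hne]
  have hLM : L * M = 1 := mul_eq_one_comm.mp hML
  have := congrFun (congrFun hLM i) j
  rw [Matrix.mul_apply, Fin.sum_univ_three] at this
  have h2 : L i 0 * M 0 j + L i 1 * M 1 j + L i 2 * M 2 j
      = (Dl d y)⁻¹ * (u i * Bv d u j + v i * Bv d v j + bv d y i * y j) := by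
    simp [L, M]
    ring
  rw [h2, Matrix.one_apply] at this
  by_cases hij : i = j
  · rw [if_pos hij] at this ⊢
    field_simp at this
    linarith
  · rw [if_neg hij] at this ⊢
    rcases mul_eq_zero.mp this with h0 | h0
    · exact absurd h0 (inv_ne_zero hne)
    · exact h0

/-- Completeness: every vector in the frame `u, v, b y`. -/
theorem OF.expand {d : ℝ} {y u v : V3} (h : OF d y u v) (R : V3) :
    Dl d y • R = (Bv d u ⬝ᵥ R) • u + (Bv d v ⬝ᵥ R) • v + (y ⬝ᵥ R) • bv d y := by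
  ext i
  have h0 := h.complete i 0
  have h1 := h.complete i 1
  have h2 := h.complete i 2
  simp only [Pi.add_apply, Pi.smul_apply, smul_eq_mul]
  rw [dot3, dot3, dot3]
  have key : Dl d y * R i = (if i = 0 then Dl d y else 0) * R 0 + (if i = 1 then Dl d y else 0) * R 1
      + (if i = 2 then Dl d y else 0) * R 2 := by
    fin_cases i <;> simp
  rw [key, ← h0, ← h1, ← h2]
  ring

/-- Quadratic forms of a vector in the frame. -/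
theorem OF.form {d : ℝ} {y u v : V3} (h : OF d y u v) (R S : V3) :
    Dl d y * (Bv d R ⬝ᵥ S) = (Bv d u ⬝ᵥ R) * (Bv d u ⬝ᵥ S) + (Bv d v ⬝ᵥ R) * (Bv d v ⬝ᵥ S)
      + (1 - d ^ 2) * ((y ⬝ᵥ R) * (y ⬝ᵥ S)) := by
  have e := congrArg (fun w : V3 => Bv d w ⬝ᵥ S) (h.expand R)
  have e1 : ∀ (c : ℝ) (w : V3), Bv d (c • w) ⬝ᵥ S = c * (Bv d w ⬝ᵥ S) := by
    intro c w
    rw [dot3, dot3]
    simp [Bv]
    ring
  have e2 : ∀ (w w' : V3), Bv d (w + w') ⬝ᵥ S = Bv d w ⬝ᵥ S + Bv d w' ⬝ᵥ S := by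
    intro w w'
    rw [dot3, dot3, dot3]
    simp [Bv]
    ring
  have e3 : Bv d (bv d y) ⬝ᵥ S = (1 - d ^ 2) * (y ⬝ᵥ S) := by
    rw [dot3, dot3]
    simp [Bv, bv]
    ring
  simp only [e1, e2, e3] at e
  rw [e]
  ring

/-- The linear form `⟨b y, ·⟩` in the frame. -/
theorem OF.lin {d : ℝ} {y u v : V3} (h : OF d y u v) (R : V3) :
    Dl d y * (bv d y ⬝ᵥ R) = (Bv d u ⬝ᵥ R) * (bv d y ⬝ᵥ u) + (Bv d v ⬝ᵥ R) * (bv d y ⬝ᵥ v)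
      + (y ⬝ᵥ R) * tau d y := by
  have e := congrArg (fun w : V3 => bv d y ⬝ᵥ w) (h.expand R)
  simp only [dotProduct_add, dotProduct_smul, smul_eq_mul] at e
  rw [e]
  rfl

/-- `N = u uᵀ + v vᵀ`. -/
theorem OF.N {d : ℝ} {y u v : V3} (h : OF d y u v) (i j : Fin 3) :
    (1 - d ^ 2) * (u i * u j + v i * v j)
      = (if i = j then Dl d y * bv d 1 j else 0) - bv d y i * bv d y j := by
  have e := h.complete i j
  have e1 : ∀ w : V3, (1 - d ^ 2) * w j = Bv d w j * bv d 1 j := by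
    intro w
    fin_cases j <;> simp [Bv, bv] <;> ring
  have e2 : bv d y j = y j * bv d 1 j := by
    fin_cases j <;> simp [bv] <;> ring
  calc (1 - d ^ 2) * (u i * u j + v i * v j)
      = u i * ((1 - d ^ 2) * u j) + v i * ((1 - d ^ 2) * v j) := by ring
    _ = (u i * Bv d u j + v i * Bv d v j + bv d y i * y j) * bv d 1 j
        - bv d y i * (y j * bv d 1 j) := by rw [e1, e1]; ring
    _ = _ := by
      rw [e, ← e2]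
      by_cases hij : i = j
      · rw [if_pos hij, if_pos hij]
      · rw [if_neg hij, if_neg hij]; ring

/-- `τ₃ = ⟨b³ y, y⟩`. -/
noncomputable def tau3 (d : ℝ) (y : V3) : ℝ := bv d (bv d y) ⬝ᵥ bv d y

theorem tau_eq (d : ℝ) (p : V3) :
    tau d p = (1 - d) ^ 2 * p 0 ^ 2 + (1 - d ^ 2) ^ 2 * p 1 ^ 2 + (1 + d) ^ 2 * p 2 ^ 2 := by
  unfold tau
  rw [dot3]
  simp [bv]
  ring

theorem tau3_eq (d : ℝ) (p : V3) :
    tau3 d p = (1 - d) ^ 3 * p 0 ^ 2 + (1 - d ^ 2) ^ 3 * p 1 ^ 2 + (1 + d) ^ 3 * p 2 ^ 2 := by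
  unfold tau3
  rw [dot3]
  simp [bv]
  ring

/-- Cayley–Hamilton. -/
theorem tau3_rel (d : ℝ) {y : V3} (hy : y ⬝ᵥ y = 1) :
    tau3 d y = (3 - d ^ 2) * tau d y - 3 * (1 - d ^ 2) * Dl d y + (1 - d ^ 2) ^ 2 := by
  rw [dot3] at hy
  rw [tau3_eq, tau_eq, Dl_eq]
  linear_combination (1 - d ^ 2) ^ 2 * hy

/-- The trace `|u|² + |v|²`. -/
theorem OF.S0 {d : ℝ} {y u v : V3} (h : OF d y u v) :
    (1 - d ^ 2) * (u ⬝ᵥ u + v ⬝ᵥ v) = Dl d y * (3 - d ^ 2) - tau d y := by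
  have e0 := h.N 0 0
  have e1 := h.N 1 1
  have e2 := h.N 2 2
  rw [dot3, dot3]
  simp [bv] at e0 e1 e2
  rw [tau_eq]
  linear_combination e0 + e1 + e2

/-- The trace of `b` on the frame. -/
theorem OF.Q {d : ℝ} {y u v : V3} (h : OF d y u v) :
    (1 - d ^ 2) * (bv d u ⬝ᵥ u + bv d v ⬝ᵥ v) = Dl d y * (3 + d ^ 4) - tau3 d y := by
  have e0 := h.N 0 0
  have e1 := h.N 1 1
  have e2 := h.N 2 2
  rw [dot3, dot3]
  simp [bv] at e0 e1 e2 ⊢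
  rw [tau3_eq]
  linear_combination (1 - d) * e0 + (1 - d ^ 2) * e1 + (1 + d) * e2

/-- `⟨b y, u⟩² + ⟨b y, v⟩²`. -/
theorem OF.P {d : ℝ} {y u v : V3} (h : OF d y u v) :
    (1 - d ^ 2) * ((bv d y ⬝ᵥ u) ^ 2 + (bv d y ⬝ᵥ v) ^ 2) = Dl d y * tau3 d y - tau d y ^ 2 := by
  have e00 := h.N 0 0
  have e11 := h.N 1 1
  have e22 := h.N 2 2
  have e01 := h.N 0 1
  have e02 := h.N 0 2
  have e12 := h.N 1 2
  rw [dot3, dot3]
  simp [bv] at e00 e11 e22 e01 e02 e12 ⊢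
  rw [tau3_eq, tau_eq]
  linear_combination ((1 - d) * y 0) ^ 2 * e00 + ((1 - d ^ 2) * y 1) ^ 2 * e11
    + ((1 + d) * y 2) ^ 2 * e22 + 2 * ((1 - d) * y 0) * ((1 - d ^ 2) * y 1) * e01
    + 2 * ((1 - d) * y 0) * ((1 + d) * y 2) * e02
    + 2 * ((1 - d ^ 2) * y 1) * ((1 + d) * y 2) * e12

/-- The area: `|u|²|v|² - ⟨u,v⟩² = Δ`. -/
theorem OF.A {d : ℝ} {y u v : V3} (h : OF d y u v) :
    (u ⬝ᵥ u) * (v ⬝ᵥ v) - (u ⬝ᵥ v) ^ 2 = Dl d y := by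
  have hD := h.dd
  have e00 := h.N 0 0
  have e11 := h.N 1 1
  have e22 := h.N 2 2
  have e01 := h.N 0 1
  have e02 := h.N 0 2
  have e12 := h.N 1 2
  have hy := h.yy
  simp [bv] at e00 e11 e22 e01 e02 e12
  have key : (u ⬝ᵥ u) * (v ⬝ᵥ v) - (u ⬝ᵥ v) ^ 2
      = ((u 0 * u 0 + v 0 * v 0) * (u 1 * u 1 + v 1 * v 1) - (u 0 * u 1 + v 0 * v 1) ^ 2)
      + ((u 0 * u 0 + v 0 * v 0) * (u 2 * u 2 + v 2 * v 2) - (u 0 * u 2 + v 0 * v 2) ^ 2)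
      + ((u 1 * u 1 + v 1 * v 1) * (u 2 * u 2 + v 2 * v 2) - (u 1 * u 2 + v 1 * v 2) ^ 2) := by
    rw [dot3, dot3, dot3]
    ring
  have h2 : (1 - d ^ 2) ^ 2 * ((u ⬝ᵥ u) * (v ⬝ᵥ v) - (u ⬝ᵥ v) ^ 2) = (1 - d ^ 2) ^ 2 * Dl d y := by
    rw [key]
    have : (1 - d ^ 2) ^ 2 * (
        ((u 0 * u 0 + v 0 * v 0) * (u 1 * u 1 + v 1 * v 1) - (u 0 * u 1 + v 0 * v 1) ^ 2)
      + ((u 0 * u 0 + v 0 * v 0) * (u 2 * u 2 + v 2 * v 2) - (u 0 * u 2 + v 0 * v 2) ^ 2)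
      + ((u 1 * u 1 + v 1 * v 1) * (u 2 * u 2 + v 2 * v 2) - (u 1 * u 2 + v 1 * v 2) ^ 2))
      = (((1 - d ^ 2) * (u 0 * u 0 + v 0 * v 0)) * ((1 - d ^ 2) * (u 1 * u 1 + v 1 * v 1))
          - ((1 - d ^ 2) * (u 0 * u 1 + v 0 * v 1)) ^ 2)
      + (((1 - d ^ 2) * (u 0 * u 0 + v 0 * v 0)) * ((1 - d ^ 2) * (u 2 * u 2 + v 2 * v 2))
          - ((1 - d ^ 2) * (u 0 * u 2 + v 0 * v 2)) ^ 2)
      + (((1 - d ^ 2) * (u 1 * u 1 + v 1 * v 1)) * ((1 - d ^ 2) * (u 2 * u 2 + v 2 * v 2))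
          - ((1 - d ^ 2) * (u 1 * u 2 + v 1 * v 2)) ^ 2) := by ring
    rw [this, e00, e11, e22, e01, e02, e12]
    rw [dot3] at hy
    rw [Dl_eq]
    linear_combination ((1 - d) * y 0 ^ 2 + (1 - d ^ 2) * y 1 ^ 2 + (1 + d) * y 2 ^ 2)
      * (1 - d ^ 2) ^ 2 * hy
  exact mul_left_cancel₀ (pow_ne_zero 2 hD) h2

/-- The formula for the Gauss curvature. -/
theorem OF.KG_eq {d : ℝ} {y u v : V3} (h : OF d y u v) :
    -2 * ((bv d y ⬝ᵥ u) ^ 2 + (bv d y ⬝ᵥ v) ^ 2) / Dl d y ^ 2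
      + (bv d u ⬝ᵥ u + bv d v ⬝ᵥ v) / Dl d y
      - tau d y * (u ⬝ᵥ u + v ⬝ᵥ v) / Dl d y ^ 2
      + (1 - d ^ 2) * ((u ⬝ᵥ u) * (v ⬝ᵥ v) - (u ⬝ᵥ v) ^ 2) / Dl d y ^ 2 = KG d y := by
  have hD := h.dd
  have hne := h.ne
  have hP : (bv d y ⬝ᵥ u) ^ 2 + (bv d y ⬝ᵥ v) ^ 2
      = (Dl d y * tau3 d y - tau d y ^ 2) / (1 - d ^ 2) := by
    rw [eq_div_iff hD, ← h.P]; ring
  have hQ : bv d u ⬝ᵥ u + bv d v ⬝ᵥ v = (Dl d y * (3 + d ^ 4) - tau3 d y) / (1 - d ^ 2) := by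
    rw [eq_div_iff hD, ← h.Q]; ring
  have hS : u ⬝ᵥ u + v ⬝ᵥ v = (Dl d y * (3 - d ^ 2) - tau d y) / (1 - d ^ 2) := by
    rw [eq_div_iff hD, ← h.S0]; ring
  rw [hP, hQ, hS, h.A, tau3_rel d h.yy]
  unfold KG
  field_simp
  ring

end Pool.Agent.HS.LK3
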