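import Pool.Agent.HS.GDefs
import Pool.Agent.HS.Cay

/-!
# Link block (project HS): coordinate formulas and derivatives of `Dl`, `hB`, `cA`
-/

open Matrix

namespace Pool.Agent.HS

theorem k_dot (a b : Fin 3 → ℝ) : a ⬝ᵥ b = a 0 * b 0 + a 1 * b 1 + a 2 * b 2 := by
  simp [dotProduct, Fin.sum_univ_three]

theorem k_cr0 (a b : Fin 3 → ℝ) : (a ⨯₃ b) 0 = a 1 * b 2 - a 2 * b 1 := by
  simp [cross_apply]

theorem k_cr1 (a b : Fin 3 → ℝ) : (a ⨯₃ b) 1 = a 2 * b 0 - a 0 * b 2 := by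
  simp [cross_apply]

theorem k_cr2 (a b : Fin 3 → ℝ) : (a ⨯₃ b) 2 = a 0 * b 1 - a 1 * b 0 := by
  simp [cross_apply]

theorem k_Bv0 (d : ℝ) (x : Fin 3 → ℝ) : Bv d x 0 = (1 + d) * x 0 := rfl
theorem k_Bv1 (d : ℝ) (x : Fin 3 → ℝ) : Bv d x 1 = x 1 := rfl
theorem k_Bv2 (d : ℝ) (x : Fin 3 → ℝ) : Bv d x 2 = (1 - d) * x 2 := rfl
theorem k_bv0 (d : ℝ) (x : Fin 3 → ℝ) : bv d x 0 = (1 - d) * x 0 := rfl
theorem k_bv1 (d : ℝ) (x : Fin 3 → ℝ) : bv d x 1 = (1 - d ^ 2) * x 1 := rfl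
theorem k_bv2 (d : ℝ) (x : Fin 3 → ℝ) : bv d x 2 = (1 + d) * x 2 := rfl
theorem k_wv0 : wv 0 = 1 := rfl
theorem k_wv1 : wv 1 = 2 := rfl
theorem k_wv2 : wv 2 = 1 := rfl

/-- `B` as a continuous linear map. -/
noncomputable def BvF (d : ℝ) : (Fin 3 → ℝ) →L[ℝ] (Fin 3 → ℝ) :=
  LinearMap.toContinuousLinearMap
    { toFun := Bv d
      map_add' := fun x y => by ext i; fin_cases i <;> simp [Bv] <;> ring
      map_smul' := fun c x => by ext i; fin_cases i <;> simp [Bv] <;> ring }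

theorem BvF_apply (d : ℝ) (x : Fin 3 → ℝ) : BvF d x = Bv d x := rfl

/-- the linear form `x ↦ w · x` -/
noncomputable def dotF (w : Fin 3 → ℝ) : (Fin 3 → ℝ) →L[ℝ] ℝ :=
  LinearMap.toContinuousLinearMap
    { toFun := fun x => w ⬝ᵥ x
      map_add' := fun x y => dotProduct_add _ _ _
      map_smul' := fun c x => by simp }

theorem dotF_apply (w x : Fin 3 → ℝ) : dotF w x = w ⬝ᵥ x := rfl

theorem k_Dl (d : ℝ) (y : Fin 3 → ℝ) :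
    Dl d y = (1 - d) * y 0 ^ 2 + (1 - d ^ 2) * y 1 ^ 2 + (1 + d) * y 2 ^ 2 := by
  rw [Dl, k_dot, k_bv0, k_bv1, k_bv2]; ring

theorem Dl_hasFDerivAt (d : ℝ) (y : Fin 3 → ℝ) :
    HasFDerivAt (fun q => Dl d q) ((2 : ℝ) • dotF (bv d y)) y := by
  have hp : ∀ i : Fin 3, HasFDerivAt (fun q : Fin 3 → ℝ => q i)
      (ContinuousLinearMap.proj i : (Fin 3 → ℝ) →L[ℝ] ℝ) y := fun i =>
    (ContinuousLinearMap.proj i : (Fin 3 → ℝ) →L[ℝ] ℝ).hasFDerivAt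
  have h := ((((hp 0).pow 2).const_mul (1 - d)).add (((hp 1).pow 2).const_mul (1 - d ^ 2))).add
    (((hp 2).pow 2).const_mul (1 + d))
  have e : (fun q : Fin 3 → ℝ => Dl d q)
      = fun q => (1 - d) * q 0 ^ 2 + (1 - d ^ 2) * q 1 ^ 2 + (1 + d) * q 2 ^ 2 := by
    funext q; exact k_Dl d q
  rw [e]
  refine h.congr_fderiv ?_
  ext v
  change (1 - d) * ((2 • y 0 ^ (2 - 1)) * v 0) + (1 - d ^ 2) * ((2 • y 1 ^ (2 - 1)) * v 1)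
    + (1 + d) * ((2 • y 2 ^ (2 - 1)) * v 2) = 2 * (bv d y ⬝ᵥ v)
  rw [k_dot, k_bv0, k_bv1, k_bv2]
  simp only [nsmul_eq_mul]
  push_cast
  ring

end Pool.Agent.HS
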