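import Pool.Agent.HS.LkA

/-!
# Link block (project HS): the derivative of the connection form `cA` and its curvature
-/

open Matrix
open scoped Topology

namespace Pool.Agent.HS

/-- `q ↦ q × B z`. -/
noncomputable def XB (d : ℝ) (z : Fin 3 → ℝ) : (Fin 3 → ℝ) →L[ℝ] (Fin 3 → ℝ) :=
  crossL.flip (Bv d z)

theorem XB_apply (d : ℝ) (z q : Fin 3 → ℝ) : XB d z q = q ⨯₃ Bv d z := rfl

theorem cA_eq (d : ℝ) {q : Fin 3 → ℝ} (z : Fin 3 → ℝ) (hD : Dl d q ≠ 0) :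
    cA d q z = (1 / 2 : ℝ) • XB d z q - (Dl d q)⁻¹ • BvF d (XB d z q)
      + (d ^ 2 * ((Dl d q)⁻¹ * dotF wv (XB d z q))) • q := by
  have e1 : (1 / 2 * Dl d q) • Lm d q z = (1 / 2 : ℝ) • (q ⨯₃ Bv d z) := by
    rw [Lm, smul_smul]
    congr 1
    field_simp
  have e2 : Bv d (Lm d q z) = (Dl d q)⁻¹ • Bv d (q ⨯₃ Bv d z) := by
    rw [Lm, ← BvF_apply, map_smul]; rfl
  have e3 : wv ⬝ᵥ Lm d q z = (Dl d q)⁻¹ * (wv ⬝ᵥ (q ⨯₃ Bv d z)) := by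
    rw [Lm, dotProduct_smul, smul_eq_mul]
  rw [cA, e1, e2, e3]
  rfl

/-- The derivative of `q ↦ cA d q z` at `y` in the direction `u`. -/
noncomputable def cAd (d : ℝ) (y z u : Fin 3 → ℝ) : Fin 3 → ℝ :=
  (1 / 2 : ℝ) • (u ⨯₃ Bv d z)
    + (2 * (bv d y ⬝ᵥ u) * (Dl d y)⁻¹ ^ 2) • Bv d (y ⨯₃ Bv d z)
    - (Dl d y)⁻¹ • Bv d (u ⨯₃ Bv d z)
    + (d ^ 2 * ((Dl d y)⁻¹ * (wv ⬝ᵥ (u ⨯₃ Bv d z))
        - 2 * (bv d y ⬝ᵥ u) * (Dl d y)⁻¹ ^ 2 * (wv ⬝ᵥ (y ⨯₃ Bv d z)))) • y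
    + (d ^ 2 * ((Dl d y)⁻¹ * (wv ⬝ᵥ (y ⨯₃ Bv d z)))) • u

theorem Dl_inv_hasFDerivAt (d : ℝ) {y : Fin 3 → ℝ} (hD : Dl d y ≠ 0) :
    HasFDerivAt (fun q => (Dl d q)⁻¹) (-((Dl d y) ^ 2)⁻¹ • ((2 : ℝ) • dotF (bv d y))) y :=
  (hasDerivAt_inv hD).comp_hasFDerivAt y (Dl_hasFDerivAt d y)

theorem k_Dl_continuous (d : ℝ) : Continuous (fun q => Dl d q) := by
  have : (fun q : Fin 3 → ℝ => Dl d q)
      = fun q => (1 - d) * q 0 ^ 2 + (1 - d ^ 2) * q 1 ^ 2 + (1 + d) * q 2 ^ 2 := by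
    funext q; exact k_Dl d q
  rw [this]
  fun_prop

theorem cA_fderiv (d : ℝ) {y : Fin 3 → ℝ} (z : Fin 3 → ℝ) (hD : Dl d y ≠ 0) :
    DifferentiableAt ℝ (fun q => cA d q z) y ∧
      ∀ u, fderiv ℝ (fun q => cA d q z) y u = cAd d y z u := by
  have hev : (fun q => cA d q z) =ᶠ[𝓝 y] fun q => (1 / 2 : ℝ) • XB d z q
      - (Dl d q)⁻¹ • BvF d (XB d z q) + (d ^ 2 * ((Dl d q)⁻¹ * dotF wv (XB d z q))) • q := by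
    have h1 : ∀ᶠ q in 𝓝 y, Dl d q ≠ 0 := (k_Dl_continuous d).continuousAt.eventually_ne hD
    filter_upwards [h1] with q hq
    exact cA_eq d z hq
  have hi := Dl_inv_hasFDerivAt d hD
  have hX : HasFDerivAt (fun q => XB d z q) (XB d z) y := (XB d z).hasFDerivAt
  have hBX : HasFDerivAt (fun q => BvF d (XB d z q)) ((BvF d).comp (XB d z)) y :=
    (BvF d).hasFDerivAt.comp y hX
  have hwX : HasFDerivAt (fun q => dotF wv (XB d z q)) ((dotF wv).comp (XB d z)) y :=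
    (dotF wv).hasFDerivAt.comp y hX
  have hid : HasFDerivAt (fun q : Fin 3 → ℝ => q) (ContinuousLinearMap.id ℝ (Fin 3 → ℝ)) y :=
    hasFDerivAt_id y
  have h := ((hX.const_smul (1 / 2 : ℝ)).sub (hi.smul hBX)).add
    (((hi.mul hwX).const_mul (d ^ 2)).smul hid)
  have h' := h.congr_of_eventuallyEq hev
  refine ⟨h'.differentiableAt, fun u => ?_⟩
  rw [h'.fderiv]
  change (1 / 2 : ℝ) • (u ⨯₃ Bv d z)
      - ((Dl d y)⁻¹ • Bv d (u ⨯₃ Bv d z)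
        + (-((Dl d y) ^ 2)⁻¹ * (2 * (bv d y ⬝ᵥ u))) • Bv d (y ⨯₃ Bv d z))
      + ((d ^ 2 * ((Dl d y)⁻¹ * (wv ⬝ᵥ (y ⨯₃ Bv d z)))) • u
        + (d ^ 2 * ((Dl d y)⁻¹ * (wv ⬝ᵥ (u ⨯₃ Bv d z))
          + (wv ⬝ᵥ (y ⨯₃ Bv d z)) * (-((Dl d y) ^ 2)⁻¹ * (2 * (bv d y ⬝ᵥ u))))) • y) = _
  unfold cAd
  rw [inv_pow]
  module

end Pool.Agent.HS
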