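import Pool.Agent.HS.LkGauge
import Pool.Agent.HS.Calc

set_option maxSynthPendingDepth 3

/-!
# LINK: 2-jets of the chart and of the gauge
-/

namespace Pool.Agent.HS

open Matrix Filter
open scoped Topology ContDiff

noncomputable section

/-! ### quadratic maps -/

section quad

variable {E : Type*} [NormedAddCommGroup E] [NormedSpace ℝ E]
  {F : Type*} [NormedAddCommGroup F] [NormedSpace ℝ F]

/-- `u ↦ A u + (1/2) Q u u`. -/
def quadM (A : E →L[ℝ] F) (Q : E →L[ℝ] E →L[ℝ] F) (u : E) : F := A u + (1 / 2 : ℝ) • Q u u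

theorem quadM_contDiff (A : E →L[ℝ] F) (Q : E →L[ℝ] E →L[ℝ] F) {n : WithTop ℕ∞} :
    ContDiff ℝ n (quadM A Q) := by
  unfold quadM
  exact A.contDiff.add ((Q.contDiff.clm_apply contDiff_id).const_smul _)

theorem quadM_hasFDerivAt (A : E →L[ℝ] F) (Q : E →L[ℝ] E →L[ℝ] F) (u : E) :
    HasFDerivAt (quadM A Q) (A + (1 / 2 : ℝ) • (Q u + Q.flip u)) u := by
  have h1 : HasFDerivAt (fun u => Q u u) (Q u + Q.flip u) u := by
    have h := (Q.hasFDerivAt (x := u)).clm_apply (hasFDerivAt_id u)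
    refine h.congr_fderiv ?_
    ext x
    simp
  exact A.hasFDerivAt.add (h1.const_smul (1 / 2 : ℝ))

theorem quadM_fderiv (A : E →L[ℝ] F) (Q : E →L[ℝ] E →L[ℝ] F) (u x : E) :
    fderiv ℝ (quadM A Q) u x = A x + (1 / 2 : ℝ) • (Q u x + Q x u) := by
  rw [(quadM_hasFDerivAt A Q u).fderiv]
  rfl

theorem quadM_fderiv_zero (A : E →L[ℝ] F) (Q : E →L[ℝ] E →L[ℝ] F) (x : E) :
    fderiv ℝ (quadM A Q) 0 x = A x := by
  rw [quadM_fderiv]
  simp

theorem quadM_dd (A : E →L[ℝ] F) (Q : E →L[ℝ] E →L[ℝ] F) (u x z : E) :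
    dd (quadM A Q) u x z = (1 / 2 : ℝ) • (Q x z + Q z x) := by
  have h2 : HasFDerivAt (fun q => (A + (1 / 2 : ℝ) • (Q q + Q.flip q)) z)
      ((1 / 2 : ℝ) • (Q.flip z + Q z)) u := by
    have h : (fun q => (A + (1 / 2 : ℝ) • (Q q + Q.flip q)) z)
        = fun q => A z + ((1 / 2 : ℝ) • (Q.flip z + Q z)) q := by
      funext q
      simp
    rw [h]
    exact (((1 / 2 : ℝ) • (Q.flip z + Q z)).hasFDerivAt).const_add (A z)
  rw [dd_of_hasFDerivAt (Filter.Eventually.of_forall fun q => quadM_hasFDerivAt A Q q) h2 x]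
  simp

theorem quadM_dd_self (A : E →L[ℝ] F) (Q : E →L[ℝ] E →L[ℝ] F) (u x : E) :
    dd (quadM A Q) u x x = Q x x := by
  rw [quadM_dd, ← two_smul ℝ, smul_smul]
  norm_num

end quad

/-! ### the angle vectors -/

/-- bilinear version of `L1` -/
def L1Q (d : ℝ) : V3 →L[ℝ] V3 →L[ℝ] V3 := crossL.comp (BvL d)

theorem L1Q_apply (d : ℝ) (L L' : V3) : L1Q d L L' = Bv d L ⨯₃ L' := rfl

theorem L1Q_self (d : ℝ) (L : V3) : L1Q d L L = L1 d L := rfl

/-- `y1` as a linear map of `L` -/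
def y1L (d : ℝ) (y : V3) : V3 →L[ℝ] V3 := (crossL.flip y).comp (BvL d)

theorem y1L_apply (d : ℝ) (y L : V3) : y1L d y L = y1 d y L := rfl

/-- `aa` as a linear map of `L` -/
def aaL (d : ℝ) (y : V3) : V3 →L[ℝ] V3 :=
  (1 / 2 * Dl d y) • ContinuousLinearMap.id ℝ V3 - BvL d
    + ((d ^ 2) • dotL wv).smulRight y

theorem aaL_apply (d : ℝ) (y L : V3) : aaL d y L = aa d y L := rfl

/-- bilinear version of `aa1` -/
def aaQ (d : ℝ) (y : V3) : V3 →L[ℝ] V3 →L[ℝ] V3 :=
  ((dotL (bv d y)).comp (y1L d y)).smulRight (ContinuousLinearMap.id ℝ V3)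
    + (1 / 2 * Dl d y) • L1Q d
    - (ContinuousLinearMap.compL ℝ V3 V3 V3 (BvL d)).comp (L1Q d)
    + (ContinuousLinearMap.compL ℝ V3 V3 V3 (((d ^ 2) • dotL wv).smulRight y)).comp (L1Q d)
    + ((d ^ 2) • dotL wv).smulRight (y1L d y)

theorem aaQ_self (d : ℝ) (y L : V3) : aaQ d y L L = aa1 d y L := by
  unfold aaQ aa1 Dl1
  simp only [_root_.add_apply, _root_.sub_apply, _root_.smul_apply,
    ContinuousLinearMap.smulRight_apply, ContinuousLinearMap.comp_apply,
    ContinuousLinearMap.compL_apply, L1Q_self, y1L_apply, dotL_apply, BvL_apply,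
    ContinuousLinearMap.id_apply, smul_eq_mul]
  congr 5
  ring

theorem om_eq (d : ℝ) (l : V2 →L[ℝ] V3) :
    om d l = quadM ((BvL d).comp l) (((ContinuousLinearMap.compL ℝ V3 V3 V3 (BvL d)).comp
      (L1Q d)).bilinearComp l l) := rfl

theorem be_eq (d : ℝ) (y : V3) (l : V2 →L[ℝ] V3) :
    be d y l = quadM ((aaL d y).comp l) ((aaQ d y).bilinearComp l l) := by
  funext u
  unfold be quadM
  rw [ContinuousLinearMap.bilinearComp_apply, aaQ_self]
  rfl

theorem om_contDiff (d : ℝ) (l : V2 →L[ℝ] V3) {n : WithTop ℕ∞} : ContDiff ℝ n (om d l) := by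
  rw [om_eq]; exact quadM_contDiff _ _

theorem be_contDiff (d : ℝ) (y : V3) (l : V2 →L[ℝ] V3) {n : WithTop ℕ∞} :
    ContDiff ℝ n (be d y l) := by
  rw [be_eq]; exact quadM_contDiff _ _

theorem om_zero (d : ℝ) (l : V2 →L[ℝ] V3) : om d l 0 = 0 := by
  rw [om_eq]; simp [quadM]

theorem be_zero (d : ℝ) (y : V3) (l : V2 →L[ℝ] V3) : be d y l 0 = 0 := by
  rw [be_eq]; simp [quadM]

theorem om_fderiv_zero (d : ℝ) (l : V2 →L[ℝ] V3) (x : V2) :
    fderiv ℝ (om d l) 0 x = Bv d (l x) := by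
  rw [om_eq, quadM_fderiv_zero]; rfl

theorem be_fderiv_zero (d : ℝ) (y : V3) (l : V2 →L[ℝ] V3) (x : V2) :
    fderiv ℝ (be d y l) 0 x = aa d y (l x) := by
  rw [be_eq, quadM_fderiv_zero]; rfl

theorem om_dd_self (d : ℝ) (l : V2 →L[ℝ] V3) (x : V2) :
    dd (om d l) 0 x x = Bv d (L1 d (l x)) := by
  rw [om_eq, quadM_dd_self]; rfl

theorem be_dd_self (d : ℝ) (y : V3) (l : V2 →L[ℝ] V3) (x : V2) :
    dd (be d y l) 0 x x = aa1 d y (l x) := by
  rw [be_eq, quadM_dd_self, ContinuousLinearMap.bilinearComp_apply, aaQ_self]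

/-- bilinear version of the second derivative of `om` -/
theorem om_dd (d : ℝ) (l : V2 →L[ℝ] V3) (x z : V2) :
    dd (om d l) 0 x z
      = (1 / 2 : ℝ) • (Bv d (Bv d (l x) ⨯₃ l z) + Bv d (Bv d (l z) ⨯₃ l x)) := by
  rw [om_eq, quadM_dd]; rfl

/-! ### jets of rotations -/

theorem cayR_contDiff_apply (v : V3) {n : WithTop ℕ∞} :
    ContDiff ℝ n (fun a : V3 => cayR a v) := cayR_contDiff.clm_apply contDiff_const

theorem cayR_dd_zero (b c v : V3) :
    dd (fun a => cayR a v) 0 b c = (1 / 2 : ℝ) • (b ⨯₃ (c ⨯₃ v) + c ⨯₃ (b ⨯₃ v)) := by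
  have h1 : ∀ q : V3, HasFDerivAt (fun a => cayR a v) ((crossL.flip (cayR q v)).comp (cayE q)) q :=
    fun q => cayR_hasFDerivAt q v
  have h2 : HasFDerivAt (fun q : V3 => crossL (cayE q c) (cayR q v))
      ((crossL (cayE 0 c)).comp ((crossL.flip (cayR 0 v)).comp (cayE 0))
        + (crossL.flip (cayR 0 v)).comp ((ContinuousLinearMap.apply ℝ V3 c).comp
            (fderiv ℝ cayE 0))) 0 := by
    have hE : HasFDerivAt (fun q => cayE q c)
        ((ContinuousLinearMap.apply ℝ V3 c).comp (fderiv ℝ cayE 0)) 0 :=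
      (ContinuousLinearMap.apply ℝ V3 c).hasFDerivAt.comp 0 (cayE_clm_hasFDerivAt 0)
    have hR := cayR_hasFDerivAt 0 v
    have h := crossL.hasFDerivAt_of_bilinear hE hR
    refine h.congr_fderiv ?_
    ext x : 1
    simp [ContinuousLinearMap.precompR_apply, ContinuousLinearMap.precompL_apply]
  rw [dd_of_hasFDerivAt (f' := fun q => (crossL.flip (cayR q v)).comp (cayE q))
    (Filter.Eventually.of_forall h1) h2 b]
  have h3 : fderiv ℝ cayE 0 b c = (1 / 2 : ℝ) • (b ⨯₃ c) := by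
    rw [fderiv_cayE, cayE_fderiv_zero]
  simp only [_root_.add_apply, ContinuousLinearMap.comp_apply, ContinuousLinearMap.flip_apply,
    ContinuousLinearMap.apply_apply, cayE_zero, cayR_zero, h3, crossL_apply]
  simp only [cross_apply]
  ext i
  fin_cases i <;> simp only [Matrix.cons_val_zero, Matrix.cons_val_one, Matrix.cons_val,
    Fin.zero_eta, Fin.mk_one, Fin.reduceFinMk, Pi.add_apply, Pi.smul_apply, smul_eq_mul] <;> ring

theorem cayR_fderiv_zero (b v : V3) : fderiv ℝ (fun a => cayR a v) 0 b = b ⨯₃ v := by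
  rw [cayR_fderiv, cayE_zero, cayR_zero]

/-! ### jets of the chart -/

variable {d : ℝ} {y : V3} {l : V2 →L[ℝ] V3}

theorem Yc_contDiff {n : WithTop ℕ∞} : ContDiff ℝ n (Yc d y l) :=
  (cayR_contDiff_apply y).comp (om_contDiff d l)

@[simp] theorem Yc_zero : Yc d y l 0 = y := by
  unfold Yc
  rw [om_zero, cayR_zero]

theorem Yc_unit (hy : y ⬝ᵥ y = 1) (u : V2) : Yc d y l u ⬝ᵥ Yc d y l u = 1 := by
  unfold Yc
  rw [cayR_dot, hy]

theorem Yc_fderiv_zero (x : V2) : fderiv ℝ (Yc d y l) 0 x = y1 d y (l x) := by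
  have h1 : HasFDerivAt (fun a : V3 => cayR a y) (fderiv ℝ (fun a : V3 => cayR a y) (om d l 0))
      (om d l 0) :=
    ((cayR_contDiff_apply y (n := 1)).differentiable (by norm_num) _).hasFDerivAt
  have h2 : HasFDerivAt (om d l) (fderiv ℝ (om d l) 0) 0 :=
    ((om_contDiff d l (n := 1)).differentiable (by norm_num) _).hasFDerivAt
  have h3 : HasFDerivAt (Yc d y l) _ 0 := h1.comp 0 h2
  rw [h3.fderiv, ContinuousLinearMap.comp_apply, om_zero, om_fderiv_zero, cayR_fderiv_zero]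
  rfl

theorem Yc_dd (x z : V2) :
    dd (Yc d y l) 0 x z
      = (1 / 2 : ℝ) • (Bv d (l x) ⨯₃ (Bv d (l z) ⨯₃ y) + Bv d (l z) ⨯₃ (Bv d (l x) ⨯₃ y)
        + (Bv d (Bv d (l x) ⨯₃ l z) + Bv d (Bv d (l z) ⨯₃ l x)) ⨯₃ y) := by
  have h := dd_comp (g := fun a : V3 => cayR a y) (f := om d l) (p := 0)
    (cayR_contDiff_apply y).contDiffAt (om_contDiff d l).contDiffAt x z
  rw [om_zero, om_fderiv_zero, om_fderiv_zero, cayR_dd_zero, cayR_fderiv_zero, om_dd] at h
  refine h.trans ?_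
  rw [smul_add, map_smul, LinearMap.smul_apply, ← smul_add, ← smul_add]

theorem Yc_dd_self (x : V2) : dd (Yc d y l) 0 x x = y2 d y (l x) := by
  have h := dd_comp (g := fun a : V3 => cayR a y) (f := om d l) (p := 0)
    (cayR_contDiff_apply y).contDiffAt (om_contDiff d l).contDiffAt x x
  rw [om_zero, om_fderiv_zero, cayR_dd_zero, cayR_fderiv_zero, om_dd_self] at h
  refine h.trans ?_
  rw [← two_smul ℝ, smul_smul]
  norm_num
  rw [add_comm]
  rfl

/-! ### jets of the parallel fields -/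

theorem nb_contDiff {n : WithTop ℕ∞} : ContDiff ℝ n (nb d y l) := (be_contDiff d y l).neg

@[simp] theorem nb_zero : nb d y l 0 = 0 := by
  unfold nb
  rw [be_zero, neg_zero]

theorem nb_fderiv_zero (x : V2) : fderiv ℝ (nb d y l) 0 x = -(aa d y (l x)) := by
  have h : nb d y l = fun u => -(be d y l u) := rfl
  rw [h, fderiv_fun_neg, _root_.neg_apply, be_fderiv_zero]

theorem nb_dd_self (x : V2) : dd (nb d y l) 0 x x = -(aa1 d y (l x)) := by
  have h := dd_const_smul (f := be d y l) (p := 0) (be_contDiff d y l).contDiffAt (-1) x x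
  rw [be_dd_self] at h
  have h2 : (fun q => (-1 : ℝ) • be d y l q) = nb d y l := by
    funext q
    rw [neg_one_smul]
    rfl
  rw [h2, neg_one_smul] at h
  exact h

/-- The field `cayR (nb u) n`. -/
def nT (d : ℝ) (y : V3) (l : V2 →L[ℝ] V3) (n : V3) (u : V2) : V3 := cayR (nb d y l u) n

theorem nT_contDiff (m : V3) {n : WithTop ℕ∞} : ContDiff ℝ n (nT d y l m) :=
  (cayR_contDiff_apply m).comp nb_contDiff

@[simp] theorem nT_zero (n : V3) : nT d y l n 0 = n := by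
  unfold nT
  rw [nb_zero, cayR_zero]

theorem nT_fderiv_zero (n : V3) (x : V2) :
    fderiv ℝ (nT d y l n) 0 x = n1 d y (l x) n := by
  have h1 : HasFDerivAt (fun a : V3 => cayR a n)
      (fderiv ℝ (fun a : V3 => cayR a n) (nb d y l 0)) (nb d y l 0) :=
    ((cayR_contDiff_apply n (n := 1)).differentiable (by norm_num) _).hasFDerivAt
  have h2 : HasFDerivAt (nb d y l) (fderiv ℝ (nb d y l) 0) 0 :=
    ((nb_contDiff (n := 1)).differentiable (by norm_num) _).hasFDerivAt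
  have h3 : HasFDerivAt (nT d y l n) _ 0 := HasFDerivAt.comp (0 : V2) h1 h2
  rw [h3.fderiv, ContinuousLinearMap.comp_apply, nb_zero, nb_fderiv_zero,
    cayR_fderiv_zero, map_neg, LinearMap.neg_apply]
  rfl

theorem nT_dd_self (n : V3) (x : V2) :
    dd (nT d y l n) 0 x x = n2 d y (l x) n := by
  have h := dd_comp (g := fun a : V3 => cayR a n) (f := nb d y l) (p := 0)
    (cayR_contDiff_apply n).contDiffAt nb_contDiff.contDiffAt x x
  rw [nb_fderiv_zero, nb_dd_self, nb_zero, cayR_dd_zero, cayR_fderiv_zero] at h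
  refine h.trans ?_
  unfold n2 n1
  rw [← two_smul ℝ, smul_smul, show (1 / 2 : ℝ) * 2 = 1 by norm_num, one_smul]
  simp only [map_neg, LinearMap.neg_apply, neg_neg, sub_neg_eq_add]
  abel

end

end Pool.Agent.HS
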