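import Pool.Agent.HS.LkAlg
import Pool.Agent.HS.LkJets
import Pool.Agent.HS.LkB

set_option maxSynthPendingDepth 3

/-!
# LINK: the connection form in the adapted gauge: `AT 0 = 0`, `∂_x AT (x) = 0` at `0`
-/

namespace Pool.Agent.HS

open Matrix Filter
open scoped Topology ContDiff

noncomputable section

variable {d : ℝ} {y : V3} {l : V2 →L[ℝ] V3}

theorem Bv_add (d : ℝ) (a b : V3) : Bv d (a + b) = Bv d a + Bv d b := (BvL d).map_add a b
theorem Bv_sub (d : ℝ) (a b : V3) : Bv d (a - b) = Bv d a - Bv d b := (BvL d).map_sub a b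
theorem Bv_smul (d : ℝ) (c : ℝ) (a : V3) : Bv d (c • a) = c • Bv d a := (BvL d).map_smul c a

/-! ### smoothness of the data -/

theorem lk_Dl_contDiff {n : WithTop ℕ∞} : ContDiff ℝ n (Dl d) := by
  have h : Dl d = fun q : V3 => dotL (bvL d q) q := rfl
  rw [h]
  exact (dotL.contDiff.comp (bvL d).contDiff).clm_apply contDiff_id

theorem lk_Dl_inv_contDiffAt {n : WithTop ℕ∞} (hD : Dl d y ≠ 0) :
    ContDiffAt ℝ n (fun q => (Dl d q)⁻¹) y := lk_Dl_contDiff.contDiffAt.inv hD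

theorem lk_hBL_contDiffAt {n : WithTop ℕ∞} (hD : Dl d y ≠ 0) : ContDiffAt ℝ n (hBL d) y :=
  (lk_Dl_inv_contDiffAt hD).smul contDiffAt_const

theorem lk_LmL_contDiffAt {n : WithTop ℕ∞} (hD : Dl d y ≠ 0) : ContDiffAt ℝ n (LmL d) y :=
  (lk_Dl_inv_contDiffAt hD).smul (crossL_contDiff.contDiffAt.clm_comp contDiffAt_const)

theorem lk_cAL_contDiffAt {n : WithTop ℕ∞} (hD : Dl d y ≠ 0) : ContDiffAt ℝ n (cAL d) y := by
  have h1 := lk_LmL_contDiffAt (d := d) (n := n) hD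
  have h2 : ContDiffAt ℝ n (fun q : V3 => (BvL d).comp (LmL d q)) y :=
    contDiffAt_const.clm_comp h1
  have h3 : ContDiffAt ℝ n (fun q : V3 => (d ^ 2) • (dotL wv).comp (LmL d q)) y :=
    (contDiffAt_const.clm_comp h1).const_smul _
  have h4 : ContDiffAt ℝ n (fun q : V3 => ((d ^ 2) • (dotL wv).comp (LmL d q)).smulRight q) y :=
    h3.smulRight contDiffAt_id
  have h5 : ContDiffAt ℝ n (fun q : V3 => (1 / 2 * Dl d q) • LmL d q) y :=
    (contDiffAt_const.mul lk_Dl_contDiff.contDiffAt).smul h1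
  exact (h5.sub h2).add h4

theorem kap_contDiff {E : Type*} [NormedAddCommGroup E] [NormedSpace ℝ E] {n : WithTop ℕ∞}
    {Y N M : E → V3} {u : E} (hY : ContDiffAt ℝ n Y u) (hN : ContDiffAt ℝ n N u)
    (hM : ContDiffAt ℝ n M u) : ContDiffAt ℝ n (fun v => kap d (Y v) (N v) (M v)) u := by
  have hdot : ∀ {P R : E → V3}, ContDiffAt ℝ n P u → ContDiffAt ℝ n R u →
      ContDiffAt ℝ n (fun v => P v ⬝ᵥ R v) u := by
    intro P R hP hR
    exact (dotL.contDiff.contDiffAt.comp u hP).clm_apply hR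
  unfold kap
  exact ((contDiffAt_const.mul ((hdot hY hN).mul (hdot hY hM))).add
    (contDiffAt_const.mul (((hdot hY hN).mul (hdot contDiffAt_const hM)).add
      ((hdot hY hM).mul (hdot contDiffAt_const hN))))).add
    (contDiffAt_const.mul ((hdot contDiffAt_const hN).mul (hdot contDiffAt_const hM)))

/-! ### the first jet of `AT` -/

theorem lk_fderiv_cAL (hD : Dl d y ≠ 0) (u z : V3) : fderiv ℝ (cAL d) y u z = cAd d y z u := by
  have h1 : HasFDerivAt (cAL d) (fderiv ℝ (cAL d) y) y :=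
    ((lk_cAL_contDiffAt (n := 1) hD).differentiableAt (by norm_num)).hasFDerivAt
  have h2 : HasFDerivAt (fun q => cA d q z)
      ((ContinuousLinearMap.apply ℝ V3 z).comp (fderiv ℝ (cAL d) y)) y :=
    (ContinuousLinearMap.apply ℝ V3 z).hasFDerivAt.comp y h1
  rw [← (cA_fderiv d z hD).2 u, h2.fderiv]
  rfl

/-- The derivative of `aa` along the flow is `aa1`. -/
theorem cAd_flow {L : V3} (hD : Dl d y ≠ 0) (hL : L ⬝ᵥ y = 0) :
    cAd d y (y1 d y L) (y1 d y L) + cA d y (y2 d y L) = aa1 d y L := by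
  have hS : y ⨯₃ Bv d (y2 d y L)
      = Dl1 d y L • L + Dl d y • L1 d L - y1 d y L ⨯₃ Bv d (y1 d y L) := by
    have h := cross_Bv_y2 d y L
    rw [hL, zero_smul, sub_zero] at h
    rw [← h]
    abel
  have hX : y ⨯₃ Bv d (y1 d y L) = Dl d y • L := by
    rw [cross_Bv_y1, hL, zero_smul, sub_zero]
  have hD1 : 2 * (bv d y ⬝ᵥ y1 d y L) = Dl1 d y L := rfl
  unfold cAd cA Lm aa1
  rw [hD1, hX, hS]
  generalize y1 d y L ⨯₃ Bv d (y1 d y L) = P
  simp only [Bv_add, Bv_sub, Bv_smul, dotProduct_add, dotProduct_sub, dotProduct_smul,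
    smul_eq_mul]
  match_scalars <;> field_simp <;> ring

theorem lk_Dl_Yc_ne (hd : |d| < 1) (hy : y ⬝ᵥ y = 1) (u : V2) : Dl d (Yc d y l u) ≠ 0 :=
  (Dl_pos hd (Yc_unit hy u)).ne'

theorem AT_zero (hd : |d| < 1) (h : Fr d y l) : AT d y l 0 = 0 := by
  have hD : Dl d y ≠ 0 := (Dl_pos hd h.unit).ne'
  ext x : 1
  unfold AT
  rw [gA_apply, Yc_zero, nb_zero, neg_zero, cayR_zero, cayE_zero, Yc_fderiv_zero, nb_fderiv_zero,
    cAL_apply, cA_y1 hD (h.perp x), add_neg_cancel]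
  rfl

theorem AT_fderiv_self (hd : |d| < 1) (h : Fr d y l) (x : V2) :
    fderiv ℝ (AT d y l) 0 x x = 0 := by
  have hD : Dl d y ≠ 0 := (Dl_pos hd h.unit).ne'
  have hA : DifferentiableAt ℝ (cAL d) (Yc d y l 0) :=
    (lk_cAL_contDiffAt (n := 1) (lk_Dl_Yc_ne hd h.unit 0)).differentiableAt (by norm_num)
  unfold AT
  rw [fderiv_gA hA Yc_contDiff.contDiffAt nb_contDiff.contDiffAt,
    ← dd_eq Yc_contDiff.contDiffAt, ← dd_eq nb_contDiff.contDiffAt, Yc_dd_self, nb_dd_self,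
    Yc_zero, nb_zero, neg_zero]
  simp only [cayR_zero, cayE_zero]
  rw [Yc_fderiv_zero, nb_fderiv_zero, lk_fderiv_cAL hD, cAL_apply, cAL_apply,
    cA_y1 hD (h.perp x), add_neg_cancel, map_zero, zero_add, fderiv_cayE, cayE_fderiv_zero,
    cAd_flow hD (h.perp x), map_neg, map_neg, LinearMap.neg_apply, cross_self]
  simp

end

end Pool.Agent.HS
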