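import Pool.Agent.HS.LkB

/-!
# Link block (project HS): the curvature of the connection form `cA`

`cA_curv`: for tangent vectors `v, z` at `y`, `|y| = 1`,
`D_v(A z) - D_z(A v) + A v × A z = ⟨y, v × z⟩ F0(y)`.
-/

set_option maxRecDepth 10000

open Matrix

namespace Pool.Agent.HS

theorem k_ext {a b : Fin 3 → ℝ} (h0 : a 0 = b 0) (h1 : a 1 = b 1) (h2 : a 2 = b 2) : a = b := by
  ext i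
  fin_cases i
  · exact h0
  · exact h1
  · exact h2

theorem k_av (a b : Fin 3 → ℝ) (i : Fin 3) : (a + b) i = a i + b i := rfl
theorem k_sv (a b : Fin 3 → ℝ) (i : Fin 3) : (a - b) i = a i - b i := rfl
theorem k_mv (c : ℝ) (a : Fin 3 → ℝ) (i : Fin 3) : (c • a) i = c * a i := rfl
theorem k_nv (a : Fin 3 → ℝ) (i : Fin 3) : (-a) i = -a i := rfl

section ids
variable (d : ℝ) (y α γ : Fin 3 → ℝ)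

theorem k_id1 : (y ⨯₃ Bv d (y ⨯₃ α)) ⨯₃ (y ⨯₃ Bv d (y ⨯₃ γ))
    = ((y ⬝ᵥ (α ⨯₃ γ)) * Dl d y) • y := by
  refine k_ext ?_ ?_ ?_ <;>
    simp only [k_mv, k_Dl, k_dot, k_cr0, k_cr1, k_cr2, k_Bv0, k_Bv1, k_Bv2] <;> ring

theorem k_id2 (p q : Fin 3 → ℝ) : Bv d p ⨯₃ Bv d q = bv d (p ⨯₃ q) := by
  refine k_ext ?_ ?_ ?_ <;>
    simp only [k_cr0, k_cr1, k_cr2, k_Bv0, k_Bv1, k_Bv2, k_bv0, k_bv1, k_bv2] <;> ring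

theorem k_id3 (p q : Fin 3 → ℝ) : p ⨯₃ Bv d q + Bv d p ⨯₃ q
    = (3 : ℝ) • (p ⨯₃ q) - Bv d (p ⨯₃ q) := by
  refine k_ext ?_ ?_ ?_ <;>
    simp only [k_av, k_sv, k_mv, k_cr0, k_cr1, k_cr2, k_Bv0, k_Bv1, k_Bv2] <;> ring

theorem k_id5 : (y ⨯₃ α) ⨯₃ (y ⨯₃ γ) = (y ⬝ᵥ (α ⨯₃ γ)) • y := by
  refine k_ext ?_ ?_ ?_ <;> simp only [k_mv, k_dot, k_cr0, k_cr1, k_cr2] <;> ring

theorem k_id6 : Bv d (y ⨯₃ Bv d (y ⨯₃ α)) ⨯₃ y = Dl d y • (y ⨯₃ α) := by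
  refine k_ext ?_ ?_ ?_ <;>
    simp only [k_mv, k_Dl, k_cr0, k_cr1, k_cr2, k_Bv0, k_Bv1, k_Bv2] <;> ring

theorem k_id7 : (bv d y ⬝ᵥ (y ⨯₃ α)) • (y ⨯₃ Bv d (y ⨯₃ γ))
      - (bv d y ⬝ᵥ (y ⨯₃ γ)) • (y ⨯₃ Bv d (y ⨯₃ α))
    = (y ⬝ᵥ (α ⨯₃ γ)) • (y ⨯₃ Bv d (y ⨯₃ bv d y)) := by
  refine k_ext ?_ ?_ ?_ <;>
    simp only [k_sv, k_mv, k_dot, k_cr0, k_cr1, k_cr2, k_Bv0, k_Bv1, k_Bv2, k_bv0, k_bv1, k_bv2] <;> ring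

theorem k_id8 : Bv d (y ⨯₃ Bv d (y ⨯₃ bv d y)) = tau d y • y - Dl d y • bv d y := by
  refine k_ext ?_ ?_ ?_ <;>
    simp only [tau, k_sv, k_mv, k_Dl, k_dot, k_cr0, k_cr1, k_cr2, k_Bv0, k_Bv1, k_Bv2, k_bv0, k_bv1, k_bv2] <;> ring

theorem k_id9 : Bv d ((3 : ℝ) • y - Bv d y) = (3 - d ^ 2) • y - bv d y := by
  refine k_ext ?_ ?_ ?_ <;>
    simp only [k_sv, k_mv, k_Bv0, k_Bv1, k_Bv2, k_bv0, k_bv1, k_bv2] <;> ring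

theorem k_id10 (w p q : Fin 3 → ℝ) : (w ⬝ᵥ q) • (p ⨯₃ y) - (w ⬝ᵥ p) • (q ⨯₃ y)
    = (w ⨯₃ (p ⨯₃ q)) ⨯₃ y := by
  refine k_ext ?_ ?_ ?_ <;> simp only [k_sv, k_mv, k_dot, k_cr0, k_cr1, k_cr2] <;> ring

theorem k_id11 (w : Fin 3 → ℝ) : (w ⨯₃ y) ⨯₃ y = (w ⬝ᵥ y) • y - (y ⬝ᵥ y) • w := by
  refine k_ext ?_ ?_ ?_ <;> simp only [k_sv, k_mv, k_dot, k_cr0, k_cr1, k_cr2] <;> ring

theorem k_id12 : (1 - d ^ 2) * (wv ⬝ᵥ ((3 : ℝ) • y - Bv d y))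
    = (3 - d ^ 2) * (bv d wv ⬝ᵥ y) - bv d (bv d wv) ⬝ᵥ y := by
  simp only [k_dot, k_sv, k_mv, k_Bv0, k_Bv1, k_Bv2, k_bv0, k_bv1, k_bv2, k_wv0, k_wv1, k_wv2]; ring

theorem k_id13 : (1 - d ^ 2) * (wv ⬝ᵥ (y ⨯₃ Bv d (y ⨯₃ bv d y)))
    = tau d y * (bv d wv ⬝ᵥ y) - Dl d y * (bv d (bv d wv) ⬝ᵥ y) := by
  simp only [tau, k_Dl, k_dot, k_cr0, k_cr1, k_cr2, k_Bv0, k_Bv1, k_Bv2, k_bv0, k_bv1, k_bv2, k_wv0, k_wv1, k_wv2]; ring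

end ids

theorem k_dot_comm (a b : Fin 3 → ℝ) : a ⬝ᵥ b = b ⬝ᵥ a := dotProduct_comm a b

/-- The curvature identity for `v = y × α`, `z = y × γ`. -/
theorem cA_curv_aux (d : ℝ) (y α γ : Fin 3 → ℝ) (hD : Dl d y ≠ 0) (hd : 1 - d ^ 2 ≠ 0) :
    cAd d y (y ⨯₃ γ) (y ⨯₃ α) - cAd d y (y ⨯₃ α) (y ⨯₃ γ)
      + cA d y (y ⨯₃ α) ⨯₃ cA d y (y ⨯₃ γ)
    = (y ⬝ᵥ (α ⨯₃ γ)) • (Fy d y • y - (d ^ 2 / 2) • ((y ⬝ᵥ y) • wv - (wv ⬝ᵥ y) • y)) := by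
  rw [cA_eq d _ hD, cA_eq d _ hD]
  simp only [XB_apply, BvF_apply, dotF_apply]
  unfold cAd
  set u := y ⨯₃ α with hu
  set z := y ⨯₃ γ with hz
  set c := y ⬝ᵥ (α ⨯₃ γ) with hc
  set Pu := y ⨯₃ Bv d u with hPu
  set Pz := y ⨯₃ Bv d z with hPz
  have e1 : Pu ⨯₃ Pz = (c * Dl d y) • y := k_id1 d y α γ
  have e2 : Bv d Pu ⨯₃ Bv d Pz = (c * Dl d y) • bv d y := by
    rw [k_id2, e1]
    refine k_ext ?_ ?_ ?_ <;> simp only [k_mv, k_bv0, k_bv1, k_bv2] <;> ring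
  have hB : ∀ (r : ℝ) (x : Fin 3 → ℝ), Bv d (r • x) = r • Bv d x := fun r x => by
    rw [← BvF_apply, map_smul]; rfl
  have hBs : ∀ (x x' : Fin 3 → ℝ), Bv d (x - x') = Bv d x - Bv d x' := fun x x' => by
    rw [← BvF_apply, map_sub]; rfl
  have e3 : Pu ⨯₃ Bv d Pz + Bv d Pu ⨯₃ Pz = (c * Dl d y) • ((3 : ℝ) • y - Bv d y) := by
    rw [k_id3, e1, hB]; module
  have e5 : u ⨯₃ z = c • y := k_id5 y α γ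
  have e4 : u ⨯₃ Bv d z - z ⨯₃ Bv d u = c • ((3 : ℝ) • y - Bv d y) := by
    have h := k_id3 d u z
    rw [e5, hB, ← cross_anticomm z (Bv d u)] at h
    rw [sub_eq_add_neg, h]; module
  have e6u : Bv d Pu ⨯₃ y = Dl d y • u := k_id6 d y α
  have e6z : Bv d Pz ⨯₃ y = Dl d y • z := k_id6 d y γ
  have e7 : (bv d y ⬝ᵥ u) • Pz - (bv d y ⬝ᵥ z) • Pu = c • (y ⨯₃ Bv d (y ⨯₃ bv d y)) :=
    k_id7 d y α γ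
  have e7B : (bv d y ⬝ᵥ u) • Bv d Pz - (bv d y ⬝ᵥ z) • Bv d Pu
      = c • (tau d y • y - Dl d y • bv d y) := by
    rw [← hB, ← hB, ← hBs, e7, hB, k_id8]
  have e7w : (bv d y ⬝ᵥ u) * (wv ⬝ᵥ Pz) - (bv d y ⬝ᵥ z) * (wv ⬝ᵥ Pu)
      = c * (wv ⬝ᵥ (y ⨯₃ Bv d (y ⨯₃ bv d y))) := by
    have h := congrArg (fun x => wv ⬝ᵥ x) e7
    simpa only [dotProduct_sub, dotProduct_smul, smul_eq_mul] using h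
  have e4B : Bv d (u ⨯₃ Bv d z) - Bv d (z ⨯₃ Bv d u) = c • ((3 - d ^ 2) • y - bv d y) := by
    rw [← hBs, e4, hB, k_id9]
  have e4w : wv ⬝ᵥ (u ⨯₃ Bv d z) - wv ⬝ᵥ (z ⨯₃ Bv d u)
      = c * (wv ⬝ᵥ ((3 : ℝ) • y - Bv d y)) := by
    rw [← dotProduct_sub, e4, dotProduct_smul, smul_eq_mul]
  have e10 : (wv ⬝ᵥ Pz) • (Pu ⨯₃ y) - (wv ⬝ᵥ Pu) • (Pz ⨯₃ y)
      = (c * Dl d y) • ((wv ⬝ᵥ y) • y - (y ⬝ᵥ y) • wv) := by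
    rw [k_id10, e1, map_smul, LinearMap.map_smul₂, k_id11]
  have h12 := k_id12 d y
  have h13 := k_id13 d y
  set W1 := wv ⬝ᵥ ((3 : ℝ) • y - Bv d y) with hW1
  set W2 := wv ⬝ᵥ (y ⨯₃ Bv d (y ⨯₃ bv d y)) with hW2
  set i := (Dl d y)⁻¹ with hi
  have hiD : i * Dl d y = 1 := inv_mul_cancel₀ hD
  have ha1 : i * W1 - 2 * i ^ 2 * W2
      = (((3 - d ^ 2) * Dl d y - 2 * tau d y) * (bv d wv ⬝ᵥ y)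
        + Dl d y * (bv d (bv d wv) ⬝ᵥ y)) * i ^ 2 * (1 - d ^ 2)⁻¹ := by
    have h12' : W1 = ((3 - d ^ 2) * (bv d wv ⬝ᵥ y) - bv d (bv d wv) ⬝ᵥ y) * (1 - d ^ 2)⁻¹ := by
      rw [← h12]; field_simp
    have h13' : W2 = (tau d y * (bv d wv ⬝ᵥ y) - Dl d y * (bv d (bv d wv) ⬝ᵥ y))
        * (1 - d ^ 2)⁻¹ := by
      rw [← h13]; field_simp
    rw [h12', h13', hi]
    field_simp
    ring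
  have hFy : Fy d y = 2 * tau d y * i ^ 2 - (3 - d ^ 2) * i + 1 / 4 * Dl d y
      + d ^ 2 * (i * W1 - 2 * i ^ 2 * W2) := by
    rw [ha1, Fy, ← hi]; ring
  rw [hFy]
  have hyz : y ⨯₃ Pz = -(Pz ⨯₃ y) := by rw [← cross_anticomm]
  have hyz' : y ⨯₃ Bv d Pz = -(Bv d Pz ⨯₃ y) := by rw [← cross_anticomm]
  have hexp : ((1 / 2 : ℝ) • Pu - i • Bv d Pu + (d ^ 2 * (i * (wv ⬝ᵥ Pu))) • y) ⨯₃
      ((1 / 2 : ℝ) • Pz - i • Bv d Pz + (d ^ 2 * (i * (wv ⬝ᵥ Pz))) • y)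
      = (1 / 4 : ℝ) • (Pu ⨯₃ Pz) - (1 / 2 * i) • (Pu ⨯₃ Bv d Pz + Bv d Pu ⨯₃ Pz)
        + (i ^ 2) • (Bv d Pu ⨯₃ Bv d Pz)
        + (d ^ 2 * (i * (wv ⬝ᵥ Pz))) • ((1 / 2 : ℝ) • (Pu ⨯₃ y) - i • (Bv d Pu ⨯₃ y))
        - (d ^ 2 * (i * (wv ⬝ᵥ Pu))) • ((1 / 2 : ℝ) • (Pz ⨯₃ y) - i • (Bv d Pz ⨯₃ y)) := by
    simp only [map_add, map_sub, map_smul, LinearMap.add_apply, LinearMap.sub_apply,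
      LinearMap.smul_apply, cross_self, hyz, hyz']
    module
  rw [hexp]
  linear_combination (norm := module) (1 / 4 : ℝ) • e1 - (1 / 2 * i) • e3 + (i ^ 2) • e2
    + (1 / 2 : ℝ) • e4 + (2 * i ^ 2) • e7B - i • e4B
    + (d ^ 2 * i * e4w) • y - (2 * d ^ 2 * i ^ 2 * e7w) • y
    + (d ^ 2 * i / 2) • e10 - (d ^ 2 * i ^ 2 * (wv ⬝ᵥ Pz)) • e6u
    + (d ^ 2 * i ^ 2 * (wv ⬝ᵥ Pu)) • e6z
    + hiD • (-(d ^ 2 * i * (wv ⬝ᵥ Pz)) • u + (d ^ 2 * i * (wv ⬝ᵥ Pu)) • z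
      + (i * c) • bv d y - (1 / 2 * c) • ((3 : ℝ) • y - Bv d y) - (2 * i * c) • bv d y
      + (d ^ 2 * c / 2) • ((wv ⬝ᵥ y) • y - (y ⬝ᵥ y) • wv))

theorem tangent_eq {y v : Fin 3 → ℝ} (hy : y ⬝ᵥ y = 1) (hv : y ⬝ᵥ v = 0) :
    y ⨯₃ (v ⨯₃ y) = v := by
  have h : y ⨯₃ (v ⨯₃ y) = (y ⬝ᵥ y) • v - (y ⬝ᵥ v) • y := by
    refine k_ext ?_ ?_ ?_ <;> simp only [k_sv, k_mv, k_dot, k_cr0, k_cr1, k_cr2] <;> ring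
  rw [h, hy, hv, one_smul, zero_smul, sub_zero]

/-- The curvature of the connection form `cA`. -/
theorem cA_curv (d : ℝ) {y v z : Fin 3 → ℝ} (hy : y ⬝ᵥ y = 1) (hv : y ⬝ᵥ v = 0)
    (hz : y ⬝ᵥ z = 0) (hD : Dl d y ≠ 0) (hd : 1 - d ^ 2 ≠ 0) :
    cAd d y z v - cAd d y v z + cA d y v ⨯₃ cA d y z = (y ⬝ᵥ (v ⨯₃ z)) • F0 d y := by
  have h := cA_curv_aux d y (v ⨯₃ y) (z ⨯₃ y) hD hd
  rw [tangent_eq hy hv, tangent_eq hy hz, hy, one_smul] at h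
  rw [h, F0]
  have hc : y ⬝ᵥ ((v ⨯₃ y) ⨯₃ (z ⨯₃ y)) = y ⬝ᵥ (v ⨯₃ z) := by
    have h1 : y ⬝ᵥ ((v ⨯₃ y) ⨯₃ (z ⨯₃ y)) = (y ⬝ᵥ y) * (y ⬝ᵥ (v ⨯₃ z)) := by
      simp only [k_dot, k_cr0, k_cr1, k_cr2]; ring
    rw [h1, hy, one_mul]
  rw [hc]

/-- The curvature of the connection form `cA`, in terms of `fderiv`. -/
theorem cA_curv_fderiv (d : ℝ) {y v z : Fin 3 → ℝ} (hy : y ⬝ᵥ y = 1) (hv : y ⬝ᵥ v = 0)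
    (hz : y ⬝ᵥ z = 0) (hD : Dl d y ≠ 0) (hd : 1 - d ^ 2 ≠ 0) :
    fderiv ℝ (fun q => cA d q z) y v - fderiv ℝ (fun q => cA d q v) y z
      + cA d y v ⨯₃ cA d y z = (y ⬝ᵥ (v ⨯₃ z)) • F0 d y := by
  rw [(cA_fderiv d z hD).2, (cA_fderiv d v hD).2]
  exact cA_curv d hy hv hz hD hd

end Pool.Agent.HS
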