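import Pool.Agent.HS.LkDefs
import Pool.Agent.HS.Cay2
import Pool.Agent.HS.Calc

set_option maxSynthPendingDepth 3

/-!
# LINK: the gauge identity

`FA (gA A Y b) u x z = cayR (-b u) (FA A (Y u) (dY x) (dY z))`.
-/

namespace Pool.Agent.HS

open Matrix Filter
open scoped Topology ContDiff

noncomputable section

theorem cayR_clm_hasFDerivAt (a : V3) : HasFDerivAt cayR (fderiv ℝ cayR a) a :=
  ((cayR_contDiff (n := 1)).differentiable (by norm_num) a).hasFDerivAt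

theorem cayE_clm_hasFDerivAt (a : V3) : HasFDerivAt cayE (fderiv ℝ cayE a) a :=
  ((cayE_contDiff (n := 1)).differentiable (by norm_num) a).hasFDerivAt

theorem fderiv_cayR (a b v : V3) : fderiv ℝ cayR a b v = cayE a b ⨯₃ cayR a v := by
  have h : HasFDerivAt (fun a => cayR a v)
      ((ContinuousLinearMap.apply ℝ V3 v).comp (fderiv ℝ cayR a)) a :=
    (ContinuousLinearMap.apply ℝ V3 v).hasFDerivAt.comp a (cayR_clm_hasFDerivAt a)
  have h2 := h.unique (cayR_hasFDerivAt a v)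
  have h3 := congrArg (fun L : V3 →L[ℝ] V3 => L b) h2
  exact h3

theorem fderiv_cayE (a b c : V3) :
    fderiv ℝ cayE a b c = fderiv ℝ (fun a => cayE a c) a b := by
  have h : HasFDerivAt (fun a => cayE a c)
      ((ContinuousLinearMap.apply ℝ V3 c).comp (fderiv ℝ cayE a)) a :=
    (ContinuousLinearMap.apply ℝ V3 c).hasFDerivAt.comp a (cayE_clm_hasFDerivAt a)
  rw [h.fderiv]
  rfl

/-- The derivative of a connection form in a gauge. -/
theorem fderiv_gA {B B' : Type*} [NormedAddCommGroup B] [NormedSpace ℝ B]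
    [NormedAddCommGroup B'] [NormedSpace ℝ B'] {A : B → B →L[ℝ] V3} {Y : B' → B} {b : B' → V3}
    {u : B'} (hA : DifferentiableAt ℝ A (Y u)) (hY : ContDiffAt ℝ 2 Y u)
    (hb : ContDiffAt ℝ 2 b u) (x z : B') :
    fderiv ℝ (gA A Y b) u x z
      = -(cayE (-(b u)) (fderiv ℝ b u x)) ⨯₃ cayR (-(b u)) (A (Y u) (fderiv ℝ Y u z)
          + cayE (b u) (fderiv ℝ b u z))
        + cayR (-(b u)) (fderiv ℝ A (Y u) (fderiv ℝ Y u x) (fderiv ℝ Y u z)
          + A (Y u) (fderiv ℝ (fderiv ℝ Y) u x z)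
          + fderiv ℝ cayE (b u) (fderiv ℝ b u x) (fderiv ℝ b u z)
          + cayE (b u) (fderiv ℝ (fderiv ℝ b) u x z)) := by
  have hb1 : HasFDerivAt b (fderiv ℝ b u) u := (diff1 hb).hasFDerivAt
  have hbn : HasFDerivAt (fun v => -(b v)) (-(fderiv ℝ b u)) u := hb1.neg
  have hb2 : HasFDerivAt (fderiv ℝ b) (fderiv ℝ (fderiv ℝ b) u) u :=
    (ContDiffAt.diff_fderiv hb).hasFDerivAt
  have hY1 : HasFDerivAt Y (fderiv ℝ Y u) u := (diff1 hY).hasFDerivAt
  have hY2 : HasFDerivAt (fderiv ℝ Y) (fderiv ℝ (fderiv ℝ Y) u) u :=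
    (ContDiffAt.diff_fderiv hY).hasFDerivAt
  have hR : HasFDerivAt (fun v => cayR (-(b v)))
      ((fderiv ℝ cayR (-(b u))).comp (-(fderiv ℝ b u))) u :=
    HasFDerivAt.comp (f := fun v => -(b v)) u (cayR_clm_hasFDerivAt (-(b u))) hbn
  have hE : HasFDerivAt (fun v => cayE (b v)) ((fderiv ℝ cayE (b u)).comp (fderiv ℝ b u)) u :=
    (cayE_clm_hasFDerivAt (b u)).comp u hb1
  have hAY : HasFDerivAt (fun v => A (Y v)) ((fderiv ℝ A (Y u)).comp (fderiv ℝ Y u)) u :=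
    hA.hasFDerivAt.comp u hY1
  have h1 := hAY.clm_comp hY2
  have h2 := hE.clm_comp hb2
  have h3 := hR.clm_comp (h1.add h2)
  have h4 : fderiv ℝ (gA A Y b) u = _ := h3.fderiv
  rw [h4]
  simp only [_root_.add_apply, _root_.neg_apply, ContinuousLinearMap.comp_apply,
    ContinuousLinearMap.flip_apply, ContinuousLinearMap.compL_apply, fderiv_cayR, map_neg,
    LinearMap.neg_apply, map_add, Pi.add_apply]
  abel

theorem gA_apply {B B' : Type*} [NormedAddCommGroup B] [NormedSpace ℝ B]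
    [NormedAddCommGroup B'] [NormedSpace ℝ B'] (A : B → B →L[ℝ] V3) (Y : B' → B) (b : B' → V3)
    (u x : B') :
    gA A Y b u x = cayR (-(b u)) (A (Y u) (fderiv ℝ Y u x) + cayE (b u) (fderiv ℝ b u x)) := rfl

theorem gA_apply' {B B' : Type*} [NormedAddCommGroup B] [NormedSpace ℝ B]
    [NormedAddCommGroup B'] [NormedSpace ℝ B'] (A : B → B →L[ℝ] V3) (Y : B' → B) (b : B' → V3)
    (u x : B') :
    gA A Y b u x = cayR (-(b u)) (A (Y u) (fderiv ℝ Y u x)) + cayE (-(b u)) (fderiv ℝ b u x) := by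
  rw [← cayR_neg_cayE, ← map_add]
  rfl

/-- The covariance of the curvature under gauge transformations and pull-backs. -/
theorem FA_gA {B B' : Type*} [NormedAddCommGroup B] [NormedSpace ℝ B] [NormedAddCommGroup B']
    [NormedSpace ℝ B'] {A : B → B →L[ℝ] V3} {Y : B' → B} {b : B' → V3} {u : B'}
    (hA : DifferentiableAt ℝ A (Y u)) (hY : ContDiffAt ℝ 2 Y u) (hb : ContDiffAt ℝ 2 b u)
    (x z : B') :
    FA (gA A Y b) u x z
      = cayR (-(b u)) (FA A (Y u) (fderiv ℝ Y u x) (fderiv ℝ Y u z)) := by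
  have hs : fderiv ℝ (fderiv ℝ b) u x z = fderiv ℝ (fderiv ℝ b) u z x :=
    (hb.isSymmSndFDerivAt (by simp)).eq x z
  have hsY : fderiv ℝ (fderiv ℝ Y) u x z = fderiv ℝ (fderiv ℝ Y) u z x :=
    (hY.isSymmSndFDerivAt (by simp)).eq x z
  have hst := cayE_structure (b u) (fderiv ℝ b u x) (fderiv ℝ b u z)
  have hst' : fderiv ℝ (fun a => cayE a (fderiv ℝ b u z)) (b u) (fderiv ℝ b u x)
      = fderiv ℝ (fun a => cayE a (fderiv ℝ b u x)) (b u) (fderiv ℝ b u z)
        + cayE (b u) (fderiv ℝ b u x) ⨯₃ cayE (b u) (fderiv ℝ b u z) := by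
    rw [← hst]; abel
  have e1 : cayR (-(b u)) (cayE (b u) (fderiv ℝ b u x)) = cayE (-(b u)) (fderiv ℝ b u x) :=
    cayR_neg_cayE _ _
  have e2 : cayR (-(b u)) (cayE (b u) (fderiv ℝ b u z)) = cayE (-(b u)) (fderiv ℝ b u z) :=
    cayR_neg_cayE _ _
  unfold FA
  rw [fderiv_gA hA hY hb, fderiv_gA hA hY hb, gA_apply', gA_apply', hs, hsY, fderiv_cayE,
    fderiv_cayE, hst']
  simp only [map_add, map_sub, cayR_cross, e1, e2, LinearMap.add_apply, map_neg,
    LinearMap.neg_apply]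
  rw [← cross_anticomm (cayR (-(b u)) (A (Y u) (fderiv ℝ Y u x)))
    (cayE (-(b u)) (fderiv ℝ b u z)),
    ← cross_anticomm (cayE (-(b u)) (fderiv ℝ b u x)) (cayE (-(b u)) (fderiv ℝ b u z))]
  abel

end

end Pool.Agent.HS
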