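import Pool.Agent.HS.GMainK

/-!
# LINK: the Gauss curvature `KG d y` is close to `1` for small `d`
-/

open Matrix Topology Filter

namespace Pool.Agent.HS

noncomputable section

theorem isCompact_unit3 : IsCompact {y : Fin 3 → ℝ | y ⬝ᵥ y = 1} := by
  refine IsCompact.of_isClosed_subset (isCompact_closedBall (0 : Fin 3 → ℝ) 1) ?_ ?_
  · exact isClosed_eq (dot_cont continuous_id continuous_id) continuous_const
  · intro y hy
    rw [mem_closedBall_zero_iff]
    exact norm_le_of_dot hy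

/-- `KG d y` is uniformly close to `1` for small `d`. -/
theorem KG_close {δ : ℝ} (hδ : 0 < δ) : ∃ d1 : ℝ, 0 < d1 ∧ d1 < 1 ∧ ∀ d : ℝ, |d| < d1 →
    ∀ y : Fin 3 → ℝ, y ⬝ᵥ y = 1 → |KG d y - 1| ≤ δ := by
  have h : ∀ᶠ d : ℝ in 𝓝 0, ∀ y ∈ {y : Fin 3 → ℝ | y ⬝ᵥ y = 1}, |KG d y - 1| < δ := by
    refine isCompact_unit3.eventually_forall_of_forall_eventually ?_
    intro y hy
    have hy' : y ⬝ᵥ y = 1 := hy
    have e1 : Dl 0 y = 1 := Dl_zero hy'
    have cd : ContinuousAt (fun p : ℝ × (Fin 3 → ℝ) => p.1) (0, y) := continuousAt_fst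
    have cy : ContinuousAt (fun p : ℝ × (Fin 3 → ℝ) => p.2) (0, y) := continuousAt_snd
    have m1 : Dl ((fun p : ℝ × (Fin 3 → ℝ) => p.1) (0, y))
        ((fun p : ℝ × (Fin 3 → ℝ) => p.2) (0, y)) ≠ 0 := by simp only [e1]; norm_num
    have m2 : 1 - ((fun p : ℝ × (Fin 3 → ℝ) => p.1) (0, y)) ^ 2 ≠ 0 := by norm_num
    have H := ca_KG cd cy m1 m2
    have H2 : ContinuousAt (fun p : ℝ × (Fin 3 → ℝ) => |KG p.1 p.2 - 1|) (0, y) :=
      (H.sub continuousAt_const).abs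
    have H0 : |KG 0 y - 1| < δ := by rw [KG_zero hy']; simpa using hδ
    exact H2.eventually_lt (g := fun _ => δ) continuousAt_const H0
  obtain ⟨ε, hε, H⟩ := Metric.eventually_nhds_iff.1 h
  refine ⟨min ε (1 / 2), lt_min hε (by norm_num),
    lt_of_le_of_lt (min_le_right _ _) (by norm_num), ?_⟩
  intro d hd y hy
  have hdε : dist d 0 < ε := by
    rw [Real.dist_eq, sub_zero]; exact lt_of_lt_of_le hd (min_le_left _ _)
  exact (H hdε y hy).le

end

end Pool.Agent.HS
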