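import Pool.Agent.HS.LkKap

set_option maxSynthPendingDepth 3

/-!
# LINK: the second derivatives of the matrix `kT` as the form `kapJ`
-/

namespace Pool.Agent.HS

open Matrix Filter
open scoped Topology ContDiff

noncomputable section

variable {d : ℝ} {y : V3} {l : V2 →L[ℝ] V3}

theorem V2_sum (v : V2) : v = v 0 • ev 0 + v 1 • ev 1 := by
  ext i
  fin_cases i <;> simp [ev]

theorem dd_ev {F : Type*} [NormedAddCommGroup F] [NormedSpace ℝ F] {f : V2 → F}
    (hf : ContDiffAt ℝ 2 f 0) (v : V2) :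
    dd f 0 v v = ∑ e, ∑ g, (v e * v g) • dd f 0 (ev e) (ev g) := by
  rw [dd_eq hf]
  simp only [dd_eq hf]
  conv_lhs => rw [V2_sum v]
  rw [Fin.sum_univ_two, Fin.sum_univ_two, Fin.sum_univ_two]
  simp only [map_add, map_smul, _root_.add_apply, _root_.smul_apply]
  module

theorem dd_sum_smul {ι : Type*} {F : Type*} [NormedAddCommGroup F] [NormedSpace ℝ F]
    (s : Finset ι) (c : ι → ℝ) (f : ι → V2 → F) (hf : ∀ i, ContDiffAt ℝ 2 (f i) 0) (x z : V2) :
    dd (fun u => ∑ i ∈ s, c i • f i u) 0 x z = ∑ i ∈ s, c i • dd (f i) 0 x z := by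
  classical
  induction s using Finset.induction_on with
  | empty => simp [dd_const]
  | insert a s ha ih =>
    have h1 : (fun u => ∑ i ∈ insert a s, c i • f i u)
        = fun u => c a • f a u + ∑ i ∈ s, c i • f i u := by
      funext u
      rw [Finset.sum_insert ha]
    have h2 : ContDiffAt ℝ 2 (fun u => ∑ i ∈ s, c i • f i u) 0 :=
      ContDiffAt.sum fun i _ => (hf i).const_smul (c i)
    rw [h1, dd_add ((hf a).const_smul (c a)) h2, dd_const_smul (hf a), ih,
      Finset.sum_insert ha]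

theorem kN_eq (n : V3) : kN d y l n = fun u => ∑ i, (n i) • ∑ j, (n j) • kT d y l u i j := by
  funext u
  have h : kN d y l n u = bf (kT d y l u) n n := (bf_kT u n n).symm
  rw [h]
  unfold bf
  rw [dotProduct]
  refine Finset.sum_congr rfl fun i _ => ?_
  rw [Matrix.mulVec, dotProduct, smul_eq_mul]
  congr 1
  refine Finset.sum_congr rfl fun j _ => ?_
  rw [smul_eq_mul, mul_comm]

/-- The field `κ2` of `Adapted` gives the form `kapJ` of `GDefs`. -/
theorem kap2_of_dd {k2 : Fin 2 → Fin 2 → M33}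
    (hk : ∀ i j a b, fderiv ℝ (fun u => fderiv ℝ (fun v => kT d y l v a b) u (ev j)) 0 (ev i)
      = k2 i j a b) (v : V2) (n : V3) :
    ∑ e, ∑ f, v e * v f * bf (k2 e f) n n
      = kapJ d y (y1 d y (l v)) (y2 d y (l v)) n (n1 d y (l v) n) (n2 d y (l v) n) := by
  have hc : ∀ i j : Fin 3, ContDiffAt ℝ 2 (fun u => kT d y l u i j) (0 : V2) := fun i j =>
    (kT_contDiff i j).contDiffAt
  have hcN : ContDiffAt ℝ 2 (kN d y l n) (0 : V2) := by
    rw [kN_eq]
    exact ContDiffAt.sum fun i _ => (ContDiffAt.sum fun j _ => (hc i j).const_smul _).const_smul _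
  have h1 : ∀ x z : V2, dd (kN d y l n) 0 x z
      = ∑ i, (n i) • ∑ j, (n j) • dd (fun u => kT d y l u i j) 0 x z := by
    intro x z
    rw [kN_eq, dd_sum_smul _ _ _
      (fun i => ContDiffAt.sum fun j _ => (hc i j).const_smul _)]
    refine Finset.sum_congr rfl fun i _ => ?_
    rw [dd_sum_smul _ _ _ (fun j => hc i j)]
  have h2 : ∀ e f : Fin 2, dd (kN d y l n) 0 (ev e) (ev f) = bf (k2 e f) n n := by
    intro e f
    rw [h1]
    unfold bf
    rw [dotProduct]
    refine Finset.sum_congr rfl fun i _ => ?_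
    rw [Matrix.mulVec, dotProduct, smul_eq_mul]
    congr 1
    refine Finset.sum_congr rfl fun j _ => ?_
    rw [smul_eq_mul, mul_comm, ← hk e f i j]
    rfl
  rw [← kN_dd, dd_ev hcN]
  refine Finset.sum_congr rfl fun e _ => Finset.sum_congr rfl fun f _ => ?_
  rw [h2, smul_eq_mul]

end

end Pool.Agent.HS
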