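import Pool.Agent.HS.LkAT

set_option maxSynthPendingDepth 3

/-!
# LINK: the form `κ` in the adapted chart and gauge

`kT_dd`: the second derivative of `κ(n,n)` in the direction `v` is `kapJ` of `GDefs` with the
jets `y1, y2, n1, n2`; `qk_kT`: the operator `r² (1 - (r²/3) κ)` in the gauge.
-/

namespace Pool.Agent.HS

open Matrix Filter
open scoped Topology ContDiff

noncomputable section

variable {d : ℝ} {y : V3} {l : V2 →L[ℝ] V3}

/-! ### products of scalar functions -/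

section prod

variable {E : Type*} [NormedAddCommGroup E] [NormedSpace ℝ E] {f g : E → ℝ} {p : E}

theorem dd_mulR (hf : ContDiffAt ℝ 2 f p) (hg : ContDiffAt ℝ 2 g p) (x z : E) :
    dd (fun q => f q * g q) p x z
      = dd f p x z * g p + fderiv ℝ f p x * fderiv ℝ g p z + fderiv ℝ f p z * fderiv ℝ g p x
        + f p * dd g p x z :=
  dd_bilin (ContinuousLinearMap.mul ℝ ℝ) hf hg x z

theorem fderiv_mulR (hf : DifferentiableAt ℝ f p) (hg : DifferentiableAt ℝ g p) (x : E) :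
    fderiv ℝ (fun q => f q * g q) p x = fderiv ℝ f p x * g p + f p * fderiv ℝ g p x := by
  rw [fderiv_fun_mul hf hg]
  simp only [_root_.add_apply, _root_.smul_apply, smul_eq_mul]
  ring

theorem dd_dot {P R : E → V3} (hP : ContDiffAt ℝ 2 P p) (hR : ContDiffAt ℝ 2 R p) (x z : E) :
    dd (fun q => P q ⬝ᵥ R q) p x z
      = dd P p x z ⬝ᵥ R p + fderiv ℝ P p x ⬝ᵥ fderiv ℝ R p z
        + fderiv ℝ P p z ⬝ᵥ fderiv ℝ R p x + P p ⬝ᵥ dd R p x z :=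
  dd_bilin dotL hP hR x z

theorem fderiv_dot {P R : E → V3} (hP : DifferentiableAt ℝ P p) (hR : DifferentiableAt ℝ R p)
    (x : E) :
    fderiv ℝ (fun q => P q ⬝ᵥ R q) p x = fderiv ℝ P p x ⬝ᵥ R p + P p ⬝ᵥ fderiv ℝ R p x := by
  have h := dotL.hasFDerivAt_of_bilinear hP.hasFDerivAt hR.hasFDerivAt
  have h2 : HasFDerivAt (fun q => P q ⬝ᵥ R q) _ p := h
  rw [h2.fderiv]
  simp only [_root_.add_apply, ContinuousLinearMap.precompR_apply,
    ContinuousLinearMap.precompL_apply, dotL_apply, ContinuousLinearMap.compL_apply,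
    ContinuousLinearMap.comp_apply]
  rw [add_comm]

theorem contDiffAt_dot {n : WithTop ℕ∞} {P R : E → V3} (hP : ContDiffAt ℝ n P p)
    (hR : ContDiffAt ℝ n R p) : ContDiffAt ℝ n (fun v => P v ⬝ᵥ R v) p :=
  (dotL.contDiff.contDiffAt.comp p hP).clm_apply hR

theorem fderiv_lin3 {f1 f2 f3 : E → ℝ} (h1 : DifferentiableAt ℝ f1 p)
    (h2 : DifferentiableAt ℝ f2 p) (h3 : DifferentiableAt ℝ f3 p) (c1 c2 c3 : ℝ) (x : E) :
    fderiv ℝ (fun q => c1 * f1 q + c2 * f2 q + c3 * f3 q) p x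
      = c1 * fderiv ℝ f1 p x + c2 * fderiv ℝ f2 p x + c3 * fderiv ℝ f3 p x := by
  have H : HasFDerivAt (fun q => c1 * f1 q + c2 * f2 q + c3 * f3 q)
      (c1 • fderiv ℝ f1 p + c2 • fderiv ℝ f2 p + c3 • fderiv ℝ f3 p) p :=
    ((h1.hasFDerivAt.const_mul c1).add (h2.hasFDerivAt.const_mul c2)).add
      (h3.hasFDerivAt.const_mul c3)
  rw [H.fderiv]
  rfl

end prod

/-! ### jets of `κ(n, n)` -/

/-- `(κ_y(n,n))'` for jets `(y,y')`, `(n,n')`. -/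
def kapJ1 (d : ℝ) (y y' n n' : V3) : ℝ :=
  15 / 8 * (y ⬝ᵥ n) * (y' ⬝ᵥ n + y ⬝ᵥ n')
    + 33 / 4 * d ^ 2 * ((y' ⬝ᵥ n + y ⬝ᵥ n') * (wv ⬝ᵥ n) + (y ⬝ᵥ n) * (wv ⬝ᵥ n'))
    + d ^ 2 * ((qv ⬝ᵥ n) * (qv ⬝ᵥ n'))

theorem kap_self (d : ℝ) (y n : V3) : kap d y n n
    = 15 / 16 * ((y ⬝ᵥ n) * (y ⬝ᵥ n)) + 33 / 4 * d ^ 2 * ((y ⬝ᵥ n) * (wv ⬝ᵥ n))
      + d ^ 2 / 2 * ((qv ⬝ᵥ n) * (qv ⬝ᵥ n)) := by
  unfold kap; ring

section jets

variable {E : Type*} [NormedAddCommGroup E] [NormedSpace ℝ E] {Y N : E → V3} {p : E}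

theorem kap_self_fderiv (hY : ContDiffAt ℝ 2 Y p) (hN : ContDiffAt ℝ 2 N p) (x : E) :
    fderiv ℝ (fun q => kap d (Y q) (N q) (N q)) p x
      = kapJ1 d (Y p) (fderiv ℝ Y p x) (N p) (fderiv ℝ N p x) := by
  have hdY := diff1 hY
  have hdN := diff1 hN
  have hYN : ContDiffAt ℝ 2 (fun q => Y q ⬝ᵥ N q) p := contDiffAt_dot hY hN
  have hwN : ContDiffAt ℝ 2 (fun q => wv ⬝ᵥ N q) p := contDiffAt_dot contDiffAt_const hN
  have hqN : ContDiffAt ℝ 2 (fun q => qv ⬝ᵥ N q) p := contDiffAt_dot contDiffAt_const hN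
  have e1 : fderiv ℝ (fun q => Y q ⬝ᵥ N q) p x
      = fderiv ℝ Y p x ⬝ᵥ N p + Y p ⬝ᵥ fderiv ℝ N p x := fderiv_dot hdY hdN x
  have e2 : fderiv ℝ (fun q => wv ⬝ᵥ N q) p x = wv ⬝ᵥ fderiv ℝ N p x := by
    rw [fderiv_dot (differentiableAt_const _) hdN]; simp
  have e3 : fderiv ℝ (fun q => qv ⬝ᵥ N q) p x = qv ⬝ᵥ fderiv ℝ N p x := by
    rw [fderiv_dot (differentiableAt_const _) hdN]; simp
  have h : (fun q => kap d (Y q) (N q) (N q)) = fun q =>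
      15 / 16 * ((Y q ⬝ᵥ N q) * (Y q ⬝ᵥ N q)) + 33 / 4 * d ^ 2 * ((Y q ⬝ᵥ N q) * (wv ⬝ᵥ N q))
      + d ^ 2 / 2 * ((qv ⬝ᵥ N q) * (qv ⬝ᵥ N q)) := by
    funext q; exact kap_self d (Y q) (N q)
  rw [h, fderiv_lin3 (diff1 (hYN.mul hYN)) (diff1 (hYN.mul hwN)) (diff1 (hqN.mul hqN)),
    fderiv_mulR (diff1 hYN) (diff1 hYN), fderiv_mulR (diff1 hYN) (diff1 hwN),
    fderiv_mulR (diff1 hqN) (diff1 hqN), e1, e2, e3]
  unfold kapJ1
  ring

theorem kap_self_dd (hY : ContDiffAt ℝ 2 Y p) (hN : ContDiffAt ℝ 2 N p) (x : E) :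
    dd (fun q => kap d (Y q) (N q) (N q)) p x x
      = kapJ d (Y p) (fderiv ℝ Y p x) (dd Y p x x) (N p) (fderiv ℝ N p x) (dd N p x x) := by
  have hdY := diff1 hY
  have hdN := diff1 hN
  have hYN : ContDiffAt ℝ 2 (fun q => Y q ⬝ᵥ N q) p := contDiffAt_dot hY hN
  have hwN : ContDiffAt ℝ 2 (fun q => wv ⬝ᵥ N q) p := contDiffAt_dot contDiffAt_const hN
  have hqN : ContDiffAt ℝ 2 (fun q => qv ⬝ᵥ N q) p := contDiffAt_dot contDiffAt_const hN
  have e1 : fderiv ℝ (fun q => Y q ⬝ᵥ N q) p x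
      = fderiv ℝ Y p x ⬝ᵥ N p + Y p ⬝ᵥ fderiv ℝ N p x := fderiv_dot hdY hdN x
  have e2 : fderiv ℝ (fun q => wv ⬝ᵥ N q) p x = wv ⬝ᵥ fderiv ℝ N p x := by
    rw [fderiv_dot (differentiableAt_const _) hdN]; simp
  have e3 : fderiv ℝ (fun q => qv ⬝ᵥ N q) p x = qv ⬝ᵥ fderiv ℝ N p x := by
    rw [fderiv_dot (differentiableAt_const _) hdN]; simp
  have f1 : dd (fun q => Y q ⬝ᵥ N q) p x x
      = dd Y p x x ⬝ᵥ N p + 2 * (fderiv ℝ Y p x ⬝ᵥ fderiv ℝ N p x) + Y p ⬝ᵥ dd N p x x := by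
    rw [dd_dot hY hN]; ring
  have f2 : dd (fun q => wv ⬝ᵥ N q) p x x = wv ⬝ᵥ dd N p x x := by
    rw [dd_dot contDiffAt_const hN]
    simp [dd_const]
  have f3 : dd (fun q => qv ⬝ᵥ N q) p x x = qv ⬝ᵥ dd N p x x := by
    rw [dd_dot contDiffAt_const hN]
    simp [dd_const]
  have h : (fun q => kap d (Y q) (N q) (N q)) = fun q =>
      ((15 / 16 : ℝ) • ((Y q ⬝ᵥ N q) * (Y q ⬝ᵥ N q))
        + (33 / 4 * d ^ 2) • ((Y q ⬝ᵥ N q) * (wv ⬝ᵥ N q)))
      + (d ^ 2 / 2) • ((qv ⬝ᵥ N q) * (qv ⬝ᵥ N q)) := by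
    funext q; exact kap_self d (Y q) (N q)
  rw [h, dd_add (((hYN.mul hYN).const_smul (15 / 16 : ℝ)).add
      ((hYN.mul hwN).const_smul (33 / 4 * d ^ 2))) ((hqN.mul hqN).const_smul (d ^ 2 / 2)),
    dd_add ((hYN.mul hYN).const_smul (15 / 16 : ℝ)) ((hYN.mul hwN).const_smul (33 / 4 * d ^ 2)),
    dd_const_smul (hYN.mul hYN), dd_const_smul (hYN.mul hwN), dd_const_smul (hqN.mul hqN),
    dd_mulR hYN hYN, dd_mulR hYN hwN, dd_mulR hqN hqN, e1, e2, e3, f1, f2, f3]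
  unfold kapJ
  simp only [smul_eq_mul]
  ring

end jets

/-- The function `κ(n, n)` in the chart and gauge. -/
def kN (d : ℝ) (y : V3) (l : V2 →L[ℝ] V3) (n : V3) (u : V2) : ℝ :=
  kap d (Yc d y l u) (nT d y l n u) (nT d y l n u)

theorem kN_fderiv (n : V3) (x : V2) :
    fderiv ℝ (kN d y l n) 0 x = kapJ1 d y (y1 d y (l x)) n (n1 d y (l x) n) := by
  have h := kap_self_fderiv (d := d) (Y := Yc d y l) (N := nT d y l n) (p := 0)
    Yc_contDiff.contDiffAt (nT_contDiff n).contDiffAt x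
  rw [Yc_zero, nT_zero, Yc_fderiv_zero, nT_fderiv_zero] at h
  exact h

theorem kN_dd (n : V3) (x : V2) :
    dd (kN d y l n) 0 x x
      = kapJ d y (y1 d y (l x)) (y2 d y (l x)) n (n1 d y (l x) n) (n2 d y (l x) n) := by
  have h := kap_self_dd (d := d) (Y := Yc d y l) (N := nT d y l n) (p := 0)
    Yc_contDiff.contDiffAt (nT_contDiff n).contDiffAt x
  rw [Yc_zero, nT_zero, Yc_fderiv_zero, nT_fderiv_zero, Yc_dd_self, nT_dd_self] at h
  exact h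

/-! ### the matrix `kT` -/

theorem kT_contDiff {n : WithTop ℕ∞} (i j : Fin 3) :
    ContDiff ℝ n (fun u => kT d y l u i j) := by
  rw [contDiff_iff_contDiffAt]
  intro u
  exact kap_contDiff Yc_contDiff.contDiffAt (nT_contDiff _).contDiffAt (nT_contDiff _).contDiffAt

theorem kap_comm (d : ℝ) (y n m : V3) : kap d y n m = kap d y m n := by
  unfold kap; ring

theorem kT_symm (u : V2) : (kT d y l u).IsSymm := by
  ext i j
  rw [Matrix.transpose_apply, kT_apply, kT_apply, kap_comm]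

theorem kT_zero : kT d y l 0 = kapM d y := by
  ext i j
  rw [kT_apply, Yc_zero, nb_zero, cayR_zero, cayR_zero]
  rfl

theorem kap_sum (d : ℝ) (y : V3) (L : V3 →L[ℝ] V3) (n m : V3) :
    kap d y (L n) (L m)
      = ∑ i, ∑ j, n i * m j * kap d y (L (Pi.single i 1)) (L (Pi.single j 1)) := by
  have h : ∀ v : V3, L v = ∑ i, v i • L (Pi.single i 1) := by
    intro v
    conv_lhs => rw [pi_eq_sum_univ' v]
    rw [map_sum]
    refine Finset.sum_congr rfl fun i _ => ?_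
    rw [map_smul]
  rw [← kapL_apply, h n, map_sum, ContinuousLinearMap.sum_apply]
  refine Finset.sum_congr rfl fun i _ => ?_
  rw [map_smul, _root_.smul_apply, h m, map_sum, Finset.smul_sum]
  refine Finset.sum_congr rfl fun j _ => ?_
  rw [map_smul, kapL_apply, smul_eq_mul, smul_eq_mul]
  ring

/-- The quadratic form of the matrix `kT`. -/
theorem bf_kT (u : V2) (n m : V3) :
    bf (kT d y l u) n m = kap d (Yc d y l u) (cayR (nb d y l u) n) (cayR (nb d y l u) m) := by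
  rw [kap_sum]
  unfold bf
  rw [dotProduct]
  refine Finset.sum_congr rfl fun i _ => ?_
  rw [Matrix.mulVec, dotProduct, Finset.mul_sum]
  refine Finset.sum_congr rfl fun j _ => ?_
  rw [kT_apply]
  ring

end

end Pool.Agent.HS
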