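import Pool.Agent.HS.LkCont
import Pool.Agent.HS.LkK0

/-!
# LINK: the curvature of the base metric in the adapted charts is close to `1` for small `d`
-/

namespace Pool.Agent.HS

open Matrix

/-- The Gauss curvature `Rm (hT d y l) 0 e0 e1` of the base metric at the centre of the adapted
chart is close to `1`, uniformly in the point and in the frame, for small `d`. -/
theorem Rm_hT_close {δ : ℝ} (hδ : 0 < δ) : ∃ d1 : ℝ, 0 < d1 ∧ d1 ≤ 1 / 2 ∧
    ∀ (d : ℝ) (y : V3) (l : V2 →L[ℝ] V3), |d| < d1 → Fr d y l →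
      |Rm (hT d y l) 0 e0 e1 - 1| < δ := by
  obtain ⟨d1, h1, h2, H⟩ := eventually_jetD_close KF_jetK (c := 1) (by
    rintro ⟨d, y, l⟩ ⟨hd, hF⟩
    have hd' : d = 0 := hd
    subst hd'
    exact Rm_hT_zero hF) hδ
  exact ⟨d1, h1, h2, fun d y l hd hF => H d hd (d, y, l) ⟨rfl, hF⟩⟩

end Pool.Agent.HS
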