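import Pool.Agent.HS.LkC
import Pool.Agent.HS.LkJets
import Pool.Agent.HS.LkGauge

/-!
# LINK: the curvature `ρ` and its derivative in the adapted chart
-/

set_option maxSynthPendingDepth 3

open Matrix
open scoped Topology

namespace Pool.Agent.HS

theorem Dl_contDiff (d : ℝ) {n : WithTop ℕ∞} : ContDiff ℝ n (fun q : V3 => Dl d q) := by
  have : (fun q : V3 => Dl d q)
      = fun q => (1 - d) * q 0 ^ 2 + (1 - d ^ 2) * q 1 ^ 2 + (1 + d) * q 2 ^ 2 := by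
    funext q; exact k_Dl d q
  rw [this]
  fun_prop

theorem Dl_inv_contDiffAt (d : ℝ) {n : WithTop ℕ∞} {y : V3} (hD : Dl d y ≠ 0) :
    ContDiffAt ℝ n (fun q : V3 => (Dl d q)⁻¹) y :=
  (Dl_contDiff d).contDiffAt.inv hD

theorem LmL_contDiffAt (d : ℝ) {n : WithTop ℕ∞} {y : V3} (hD : Dl d y ≠ 0) :
    ContDiffAt ℝ n (fun q : V3 => LmL d q) y := by
  have h1 : ContDiffAt ℝ n (fun q : V3 => (crossL q).comp (BvL d)) y :=
    crossL.contDiff.contDiffAt.clm_comp contDiffAt_const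
  exact (Dl_inv_contDiffAt d hD).smul h1

/-- the connection form is smooth where `Δ ≠ 0`. -/
theorem cAL_contDiffAt (d : ℝ) {n : WithTop ℕ∞} {y : V3} (hD : Dl d y ≠ 0) :
    ContDiffAt ℝ n (fun q : V3 => cAL d q) y := by
  have hL := LmL_contDiffAt d (n := n) hD
  have h1 : ContDiffAt ℝ n (fun q : V3 => (1 / 2 * Dl d q) • LmL d q) y :=
    (contDiffAt_const.mul (Dl_contDiff d).contDiffAt).smul hL
  have h2 : ContDiffAt ℝ n (fun q : V3 => (BvL d).comp (LmL d q)) y :=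
    contDiffAt_const.clm_comp hL
  have h30 : ContDiffAt ℝ n (fun q : V3 => (dotL wv).comp (LmL d q)) y :=
    contDiffAt_const.clm_comp hL
  have h3 : ContDiffAt ℝ n (fun q : V3 => (d ^ 2) • (dotL wv).comp (LmL d q)) y :=
    h30.const_smul (d ^ 2)
  have h4 : ContDiffAt ℝ n (fun q : V3 => ((d ^ 2) • (dotL wv).comp (LmL d q)).smulRight q) y :=
    h3.smulRight contDiffAt_id
  exact (h1.sub h2).add h4

theorem hBL_contDiffAt (d : ℝ) {n : WithTop ℕ∞} {y : V3} (hD : Dl d y ≠ 0) :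
    ContDiffAt ℝ n (fun q : V3 => hBL d q) y :=
  (Dl_inv_contDiffAt d hD).smul contDiffAt_const

theorem fderiv_cAL (d : ℝ) {y : V3} (hD : Dl d y ≠ 0) (v z : V3) :
    fderiv ℝ (cAL d) y v z = fderiv ℝ (fun q => cA d q z) y v := by
  have h : HasFDerivAt (fun q => cAL d q z)
      ((ContinuousLinearMap.apply ℝ V3 z).comp (fderiv ℝ (cAL d) y)) y :=
    (ContinuousLinearMap.apply ℝ V3 z).hasFDerivAt.comp y
      ((cAL_contDiffAt d (n := 1) hD).differentiableAt (by norm_num)).hasFDerivAt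
  have h' : (fun q => cA d q z) = fun q => cAL d q z := rfl
  rw [h', h.fderiv]
  rfl

/-- The curvature of the connection form on the sphere. -/
theorem FA_cAL (d : ℝ) {y v z : V3} (hy : y ⬝ᵥ y = 1) (hv : y ⬝ᵥ v = 0) (hz : y ⬝ᵥ z = 0)
    (hD : Dl d y ≠ 0) (hd : 1 - d ^ 2 ≠ 0) :
    FA (cAL d) y v z = (y ⬝ᵥ (v ⨯₃ z)) • F0 d y := by
  unfold FA
  rw [fderiv_cAL d hD, fderiv_cAL d hD, cAL_apply, cAL_apply]
  exact cA_curv_fderiv d hy hv hz hD hd

variable {d : ℝ} {y : V3} {l : V2 →L[ℝ] V3}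

theorem Yc_differentiableAt (u : V2) : DifferentiableAt ℝ (Yc d y l) u :=
  (Yc_contDiff (n := 1)).differentiable (by norm_num) u

theorem dot_hasFDerivAt {f g : V2 → V3} {f' g' : V2 →L[ℝ] V3} {u : V2}
    (hf : HasFDerivAt f f' u) (hg : HasFDerivAt g g' u) :
    ∃ L : V2 →L[ℝ] ℝ, HasFDerivAt (fun v => f v ⬝ᵥ g v) L u ∧
      ∀ x, L x = f' x ⬝ᵥ g u + f u ⬝ᵥ g' x := by
  have h := (dotL.hasFDerivAt.comp u hf).clm_apply hg
  refine ⟨_, h, fun x => ?_⟩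
  change f u ⬝ᵥ g' x + f' x ⬝ᵥ g u = _
  ring

theorem Yc_tangent (hy : y ⬝ᵥ y = 1) (u x : V2) :
    Yc d y l u ⬝ᵥ fderiv ℝ (Yc d y l) u x = 0 := by
  obtain ⟨L, hL, hx⟩ := dot_hasFDerivAt (Yc_differentiableAt (d := d) (y := y) (l := l) u).hasFDerivAt
    (Yc_differentiableAt (d := d) (y := y) (l := l) u).hasFDerivAt
  have hc : (fun v => Yc d y l v ⬝ᵥ Yc d y l v) = fun _ => (1 : ℝ) := by
    funext v; exact Yc_unit hy v
  have h0 : L = 0 := by
    have h1 := hL.fderiv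
    rw [hc, fderiv_fun_const] at h1
    exact h1.symm
  have h2 := hx x
  rw [h0, dotProduct_comm (fderiv ℝ (Yc d y l) u x)] at h2
  simp only [_root_.zero_apply] at h2
  linarith

/-- the area density of the chart -/
noncomputable def arT (d : ℝ) (y : V3) (l : V2 →L[ℝ] V3) (x z u : V2) : ℝ :=
  Yc d y l u ⬝ᵥ (fderiv ℝ (Yc d y l) u x ⨯₃ fderiv ℝ (Yc d y l) u z)

/-- The curvature in the adapted chart and gauge. -/
theorem FA_AT (hy : y ⬝ᵥ y = 1) (hd : 1 - d ^ 2 ≠ 0) {u : V2} (hD : Dl d (Yc d y l u) ≠ 0)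
    (x z : V2) :
    FA (AT d y l) u x z = arT d y l x z u • cayR (-(nb d y l u)) (F0 d (Yc d y l u)) := by
  unfold AT
  rw [FA_gA ((cAL_contDiffAt d (n := 1) hD).differentiableAt (by norm_num))
    Yc_contDiff.contDiffAt nb_contDiff.contDiffAt,
    FA_cAL d (Yc_unit hy u) (Yc_tangent hy u x) (Yc_tangent hy u z) hD hd, map_smul]
  rfl

theorem FA_AT_dot (hy : y ⬝ᵥ y = 1) (hd : 1 - d ^ 2 ≠ 0) {u : V2} (hD : Dl d (Yc d y l u) ≠ 0)
    (x z : V2) (n : V3) :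
    FA (AT d y l) u x z ⬝ᵥ n = arT d y l x z u * ff d (Yc d y l u) (nT d y l n u) := by
  rw [FA_AT hy hd hD, smul_dotProduct, smul_eq_mul]
  congr 1
  have h1 : cayR (-(nb d y l u)) (F0 d (Yc d y l u)) ⬝ᵥ n
      = F0 d (Yc d y l u) ⬝ᵥ nT d y l n u := by
    have h2 := cayR_dot (-(nb d y l u)) (F0 d (Yc d y l u)) (nT d y l n u)
    rw [← h2]
    unfold nT
    rw [cayR_neg]
  rw [h1]
  unfold F0 ff
  simp only [sub_dotProduct, smul_dotProduct, smul_eq_mul]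

end Pool.Agent.HS
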