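import Pool.Agent.HS.LkRho
import Pool.Agent.HS.LkT

/-!
# LINK: the area density of the adapted chart at the centre
-/

set_option maxSynthPendingDepth 3
set_option maxRecDepth 10000

open Matrix
open scoped Topology

namespace Pool.Agent.HS

variable {d : ℝ} {y : V3} {l : V2 →L[ℝ] V3}

theorem e0_dot_e0 : e0 ⬝ᵥ e0 = 1 := by simp [e0, dotProduct, Fin.sum_univ_two]
theorem e1_dot_e1 : e1 ⬝ᵥ e1 = 1 := by simp [e1, dotProduct, Fin.sum_univ_two]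
theorem e0_dot_e1 : e0 ⬝ᵥ e1 = 0 := by simp [e0, e1, dotProduct, Fin.sum_univ_two]

theorem arT_zero (hy : y ⬝ᵥ y = 1) (h0 : ∀ x, l x ⬝ᵥ y = 0) (x z : V2) :
    arT d y l x z 0 = (y ⬝ᵥ (l x ⨯₃ l z)) * Dl d y := by
  have h1 : arT d y l x z 0 = y ⬝ᵥ ((Bv d (l x) ⨯₃ y) ⨯₃ (Bv d (l z) ⨯₃ y)) := by
    unfold arT
    rw [Yc_zero, Yc_fderiv_zero, Yc_fderiv_zero]
    rfl
  rw [h1]
  obtain ⟨p, hp⟩ := exists_cross_of_perp hy (h0 x)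
  obtain ⟨q, hq⟩ := exists_cross_of_perp hy (h0 z)
  have h2 : y ⬝ᵥ ((Bv d (l x) ⨯₃ y) ⨯₃ (Bv d (l z) ⨯₃ y))
      = (y ⬝ᵥ y) * (bv d y ⬝ᵥ (l x ⨯₃ l z)) := by
    simp only [k_dot, k_cr0, k_cr1, k_cr2, k_Bv0, k_Bv1, k_Bv2, k_bv0, k_bv1, k_bv2]
    ring
  rw [h2, hy, one_mul, hp, hq, k_id5, dotProduct_smul, dotProduct_smul, hy]
  simp only [smul_eq_mul, mul_one]
  rfl

theorem arT_zero_sq (h : Fr d y l) (hD : Dl d y ≠ 0) : (arT d y l e0 e1 0) ^ 2 = Dl d y := by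
  rw [arT_zero h.unit h.perp]
  have g0 := h.orth e0 e0
  have g1 := h.orth e1 e1
  have g2 := h.orth e0 e1
  have g3 := h.orth e1 e0
  rw [e0_dot_e0] at g0
  rw [e1_dot_e1] at g1
  rw [e0_dot_e1] at g2
  rw [dotProduct_comm e1 e0, e0_dot_e1] at g3
  obtain ⟨p, hp⟩ := exists_cross_of_perp h.unit (h.perp e0)
  obtain ⟨q, hq⟩ := exists_cross_of_perp h.unit (h.perp e1)
  set L := l e0
  set M := l e1
  have hc : L ⨯₃ M = (y ⬝ᵥ (L ⨯₃ M)) • y := by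
    rw [hp, hq, k_id5, dotProduct_smul, h.unit]
    simp
  have hG : (L ⨯₃ M) ⬝ᵥ bv d (L ⨯₃ M)
      = (Bv d L ⬝ᵥ L) * (Bv d M ⬝ᵥ M) - (Bv d L ⬝ᵥ M) * (Bv d M ⬝ᵥ L) := by
    simp only [k_dot, k_cr0, k_cr1, k_cr2, k_Bv0, k_Bv1, k_Bv2, k_bv0, k_bv1, k_bv2]
    ring
  rw [g0, g1, g2, g3] at hG
  set c := y ⬝ᵥ (L ⨯₃ M) with hcdef
  rw [hc] at hG
  have hG2 : (c • y) ⬝ᵥ bv d (c • y) = c ^ 2 * Dl d y := by
    rw [k_Dl]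
    simp only [k_dot, k_mv, k_bv0, k_bv1, k_bv2]
    ring
  rw [hG2] at hG
  have hG3 : c ^ 2 * Dl d y = 1 := by rw [hG]; ring
  calc (c * Dl d y) ^ 2 = (c ^ 2 * Dl d y) * Dl d y := by ring
    _ = Dl d y := by rw [hG3, one_mul]

theorem arT_hasFDerivAt (hy : y ⬝ᵥ y = 1) (h0 : ∀ x, l x ⬝ᵥ y = 0) (hD : Dl d y ≠ 0)
    (x z : V2) :
    DifferentiableAt ℝ (arT d y l x z) 0 ∧
      ∀ e, fderiv ℝ (arT d y l x z) 0 e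
        = Dl1 d y (l e) / 2 * (Dl d y)⁻¹ * arT d y l x z 0 := by
  have hY : HasFDerivAt (Yc d y l) (fderiv ℝ (Yc d y l) 0) 0 :=
    (Yc_differentiableAt (0 : V2)).hasFDerivAt
  have hY2 : ∀ x, HasFDerivAt (fun u => fderiv ℝ (Yc d y l) u x)
      (fderiv ℝ (fun u => fderiv ℝ (Yc d y l) u x) 0) 0 := fun x =>
    (diff_fderiv_apply (Yc_contDiff (d := d) (y := y) (l := l)).contDiffAt x).hasFDerivAt
  have hc : HasFDerivAt (fun u => crossL (fderiv ℝ (Yc d y l) u x) (fderiv ℝ (Yc d y l) u z))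
      _ 0 := ((crossL.hasFDerivAt.comp (0 : V2) (hY2 x)).clm_apply (hY2 z))
  obtain ⟨L, hL, hLx⟩ := dot_hasFDerivAt hY hc
  have hL' : HasFDerivAt (arT d y l x z) L 0 := hL
  refine ⟨hL'.differentiableAt, fun e => ?_⟩
  rw [hL'.fderiv, hLx]
  have e1 : fderiv ℝ (fun u => fderiv ℝ (Yc d y l) u x) 0 e = q2 d y (l e) (l x) := Yc_dd e x
  have e2 : fderiv ℝ (fun u => fderiv ℝ (Yc d y l) u z) 0 e = q2 d y (l e) (l z) := Yc_dd e z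
  have e3 : fderiv ℝ (Yc d y l) 0 e ⬝ᵥ (fderiv ℝ (Yc d y l) 0 x ⨯₃ fderiv ℝ (Yc d y l) 0 z)
      = 0 := by
    rw [Yc_fderiv_zero, Yc_fderiv_zero, Yc_fderiv_zero]
    unfold y1
    simp only [k_dot, k_cr0, k_cr1, k_cr2]
    ring
  change fderiv ℝ (Yc d y l) 0 e ⬝ᵥ (fderiv ℝ (Yc d y l) 0 x ⨯₃ fderiv ℝ (Yc d y l) 0 z)
    + Yc d y l 0 ⬝ᵥ (fderiv ℝ (Yc d y l) 0 x ⨯₃ (fderiv ℝ (fun u => fderiv ℝ (Yc d y l) u z) 0 e)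
      + (fderiv ℝ (fun u => fderiv ℝ (Yc d y l) u x) 0 e) ⨯₃ fderiv ℝ (Yc d y l) 0 z) = _
  rw [e3, e1, e2, Yc_zero, Yc_fderiv_zero, Yc_fderiv_zero]
  have h2 := lkT2 d y (l e) (l x) (l z) hy (h0 e) (h0 x) (h0 z)
  have h3 : arT d y l x z 0 = y ⬝ᵥ ((Bv d (l x) ⨯₃ y) ⨯₃ (Bv d (l z) ⨯₃ y)) := by
    unfold arT
    rw [Yc_zero, Yc_fderiv_zero, Yc_fderiv_zero]
    rfl
  rw [h3, dotProduct_add]
  unfold Dl1 y1
  field_simp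
  linear_combination h2

end Pool.Agent.HS
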