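import Pool.Agent.HS.LkJets
import Pool.Agent.HS.GScale
import Pool.Agent.HS.Pull

/-!
# LINK: joint smoothness of the data in the parameters `(d, y, l)` and the coordinate `u`

`FP` is the space of parameters `(d, y, l)`.  All the functions `Yc, nb, hT, AT, kT` are jointly
smooth at `((d, y, l), u)` if `Δ_d (Yc u) ≠ 0` (in particular at `u = 0` if `Δ_d y ≠ 0`).
-/

set_option maxSynthPendingDepth 3

namespace Pool.Agent.HS.LkSm

open Matrix Filter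
open scoped Topology ContDiff

noncomputable section

/-- Joint smoothness of a partial derivative. -/
theorem ContDiffAt.joint_fderiv {X E F : Type*} [NormedAddCommGroup X] [NormedSpace ℝ X]
    [NormedAddCommGroup E] [NormedSpace ℝ E] [NormedAddCommGroup F] [NormedSpace ℝ F]
    {f : X → E → F} {q₀ : X × E} (hf : ContDiffAt ℝ ∞ (fun q : X × E => f q.1 q.2) q₀) :
    ContDiffAt ℝ ∞ (fun q : X × E => fderiv ℝ (f q.1) q.2) q₀ := by
  have h1 : ContDiffAt ℝ ∞ (Function.uncurry (fun (q : X × E) (v : E) => f q.1 v)) (q₀, q₀.2) := by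
    have h2 : ContDiffAt ℝ ∞ (fun z : (X × E) × E => ((z.1.1, z.2) : X × E)) (q₀, q₀.2) :=
      (contDiff_fst.fst.prodMk contDiff_snd).contDiffAt
    exact ContDiffAt.comp (q₀, q₀.2) (g := fun q : X × E => f q.1 q.2)
      (f := fun z : (X × E) × E => ((z.1.1, z.2) : X × E)) hf h2
  have h3 : ContDiffAt ℝ ∞ (fun q : X × E => q.2) q₀ := contDiff_snd.contDiffAt
  exact ContDiffAt.fderiv (f := fun (q : X × E) (v : E) => f q.1 v) (g := fun q : X × E => q.2)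
    (x₀ := q₀) h1 h3 (by norm_num)

variable {X : Type*} [NormedAddCommGroup X] [NormedSpace ℝ X] {n : WithTop ℕ∞} {a : X}
  {d : X → ℝ} {f g y : X → V3}

/-- `Ph` as a continuous linear map. -/
def PhL : V3 →L[ℝ] V3 :=
  LinearMap.toContinuousLinearMap
    { toFun := Ph
      map_add' := by
        intro x y
        ext i
        fin_cases i <;> (simp [Ph]; try ring)
      map_smul' := by
        intro c x
        exact Ph_smul c x }

theorem PhL_apply (x : V3) : PhL x = Ph x := rfl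

theorem BvL_eq (d : ℝ) : BvL d = ContinuousLinearMap.id ℝ V3 + d • PhL := by
  ext1 x
  rw [BvL_apply, Bv_eq]
  rfl

theorem cd_BvL (hd : ContDiffAt ℝ n d a) : ContDiffAt ℝ n (fun p => BvL (d p)) a := by
  have h : (fun p => BvL (d p)) = fun p => ContinuousLinearMap.id ℝ V3 + d p • PhL := by
    funext p; exact BvL_eq (d p)
  rw [h]
  exact contDiffAt_const.add (hd.smul contDiffAt_const)

theorem cd_Bv (hd : ContDiffAt ℝ n d a) (hf : ContDiffAt ℝ n f a) :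
    ContDiffAt ℝ n (fun p => Bv (d p) (f p)) a :=
  (cd_BvL hd).clm_apply hf

theorem cd_cross (hf : ContDiffAt ℝ n f a) (hg : ContDiffAt ℝ n g a) :
    ContDiffAt ℝ n (fun p => f p ⨯₃ g p) a :=
  (crossL.contDiff.contDiffAt.comp a hf).clm_apply hg

theorem cd_dotL (hf : ContDiffAt ℝ n f a) : ContDiffAt ℝ n (fun p => dotL (f p)) a :=
  dotL.contDiff.contDiffAt.comp a hf

theorem cd_dot (hf : ContDiffAt ℝ n f a) (hg : ContDiffAt ℝ n g a) :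
    ContDiffAt ℝ n (fun p => f p ⬝ᵥ g p) a :=
  (cd_dotL hf).clm_apply hg

theorem cd_coord (hf : ContDiffAt ℝ n f a) (i : Fin 3) : ContDiffAt ℝ n (fun p => f p i) a :=
  contDiffAt_pi.1 hf i

theorem cd_bv (hd : ContDiffAt ℝ n d a) (hf : ContDiffAt ℝ n f a) :
    ContDiffAt ℝ n (fun p => bv (d p) (f p)) a := by
  rw [contDiffAt_pi]
  intro i
  fin_cases i
  · exact (contDiffAt_const.sub hd).mul (cd_coord hf 0)
  · exact (contDiffAt_const.sub (hd.pow 2)).mul (cd_coord hf 1)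
  · exact (contDiffAt_const.add hd).mul (cd_coord hf 2)

theorem cd_Dl (hd : ContDiffAt ℝ n d a) (hy : ContDiffAt ℝ n y a) :
    ContDiffAt ℝ n (fun p => Dl (d p) (y p)) a := cd_dot (cd_bv hd hy) hy

theorem cd_L1 (hd : ContDiffAt ℝ n d a) (hf : ContDiffAt ℝ n f a) :
    ContDiffAt ℝ n (fun p => L1 (d p) (f p)) a := cd_cross (cd_Bv hd hf) hf

theorem cd_y1 (hd : ContDiffAt ℝ n d a) (hy : ContDiffAt ℝ n y a) (hf : ContDiffAt ℝ n f a) :
    ContDiffAt ℝ n (fun p => y1 (d p) (y p) (f p)) a := cd_cross (cd_Bv hd hf) hy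

theorem cd_Dl1 (hd : ContDiffAt ℝ n d a) (hy : ContDiffAt ℝ n y a) (hf : ContDiffAt ℝ n f a) :
    ContDiffAt ℝ n (fun p => Dl1 (d p) (y p) (f p)) a :=
  contDiffAt_const.mul (cd_dot (cd_bv hd hy) (cd_y1 hd hy hf))

theorem cd_aa (hd : ContDiffAt ℝ n d a) (hy : ContDiffAt ℝ n y a) (hf : ContDiffAt ℝ n f a) :
    ContDiffAt ℝ n (fun p => aa (d p) (y p) (f p)) a :=
  (((contDiffAt_const.mul (cd_Dl hd hy)).smul hf).sub (cd_Bv hd hf)).add
    (((hd.pow 2).mul (cd_dot contDiffAt_const hf)).smul hy)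

theorem cd_aa1 (hd : ContDiffAt ℝ n d a) (hy : ContDiffAt ℝ n y a) (hf : ContDiffAt ℝ n f a) :
    ContDiffAt ℝ n (fun p => aa1 (d p) (y p) (f p)) a :=
  (((((contDiffAt_const.mul (cd_Dl1 hd hy hf)).smul hf).add
    ((contDiffAt_const.mul (cd_Dl hd hy)).smul (cd_L1 hd hf))).sub
    (cd_Bv hd (cd_L1 hd hf))).add
    (((hd.pow 2).mul (cd_dot contDiffAt_const (cd_L1 hd hf))).smul hy)).add
    (((hd.pow 2).mul (cd_dot contDiffAt_const hf)).smul (cd_y1 hd hy hf))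

theorem cd_hBL (hd : ContDiffAt ℝ n d a) (hy : ContDiffAt ℝ n y a) (h0 : Dl (d a) (y a) ≠ 0) :
    ContDiffAt ℝ n (fun p => hBL (d p) (y p)) a :=
  ((cd_Dl hd hy).inv h0).smul (contDiffAt_const.clm_comp (cd_BvL hd))

theorem cd_LmL (hd : ContDiffAt ℝ n d a) (hy : ContDiffAt ℝ n y a) (h0 : Dl (d a) (y a) ≠ 0) :
    ContDiffAt ℝ n (fun p => LmL (d p) (y p)) a :=
  ((cd_Dl hd hy).inv h0).smul
    ((crossL.contDiff.contDiffAt.comp a hy).clm_comp (cd_BvL hd))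

theorem cd_cAL (hd : ContDiffAt ℝ n d a) (hy : ContDiffAt ℝ n y a) (h0 : Dl (d a) (y a) ≠ 0) :
    ContDiffAt ℝ n (fun p => cAL (d p) (y p)) a := by
  have h1 := cd_LmL hd hy h0
  have h2 : ContDiffAt ℝ n (fun p => (d p ^ 2) • (dotL wv).comp (LmL (d p) (y p))) a :=
    (hd.pow 2).smul (contDiffAt_const.clm_comp h1)
  exact (((contDiffAt_const.mul (cd_Dl hd hy)).smul h1).sub ((cd_BvL hd).clm_comp h1)).add
    (h2.smulRight hy)

theorem cd_kap (hd : ContDiffAt ℝ n d a) (hy : ContDiffAt ℝ n y a) (hf : ContDiffAt ℝ n f a)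
    (hg : ContDiffAt ℝ n g a) :
    ContDiffAt ℝ n (fun p => kap (d p) (y p) (f p) (g p)) a :=
  ((contDiffAt_const.mul ((cd_dot hy hf).mul (cd_dot hy hg))).add
    ((contDiffAt_const.mul (hd.pow 2)).mul
      (((cd_dot hy hf).mul (cd_dot contDiffAt_const hg)).add
        ((cd_dot hy hg).mul (cd_dot contDiffAt_const hf))))).add
    (((hd.pow 2).div_const 2).mul ((cd_dot contDiffAt_const hf).mul (cd_dot contDiffAt_const hg)))

/-! ### the parameters -/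

/-- The parameters `(d, y, l)`. -/
abbrev _root_.Pool.Agent.HS.FP := ℝ × V3 × (V2 →L[ℝ] V3)

variable {q₀ : FP × V2}

theorem sm_d : ContDiffAt ℝ n (fun q : FP × V2 => q.1.1) q₀ := contDiff_fst.fst.contDiffAt

theorem sm_y : ContDiffAt ℝ n (fun q : FP × V2 => q.1.2.1) q₀ := contDiff_fst.snd.fst.contDiffAt

theorem sm_l : ContDiffAt ℝ n (fun q : FP × V2 => q.1.2.2) q₀ := contDiff_fst.snd.snd.contDiffAt

theorem sm_lu : ContDiffAt ℝ n (fun q : FP × V2 => q.1.2.2 q.2) q₀ :=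
  sm_l.clm_apply contDiff_snd.contDiffAt

theorem sm_om : ContDiffAt ℝ n (fun q : FP × V2 => om q.1.1 q.1.2.2 q.2) q₀ :=
  (cd_Bv sm_d sm_lu).add ((cd_Bv sm_d (cd_L1 sm_d sm_lu)).const_smul (1 / 2 : ℝ))

theorem sm_Yc : ContDiffAt ℝ n (fun q : FP × V2 => Yc q.1.1 q.1.2.1 q.1.2.2 q.2) q₀ :=
  (cayR_contDiff.contDiffAt.comp q₀ sm_om).clm_apply sm_y

theorem sm_be : ContDiffAt ℝ n (fun q : FP × V2 => be q.1.1 q.1.2.1 q.1.2.2 q.2) q₀ :=
  (cd_aa sm_d sm_y sm_lu).add ((cd_aa1 sm_d sm_y sm_lu).const_smul (1 / 2 : ℝ))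

theorem sm_nb : ContDiffAt ℝ n (fun q : FP × V2 => nb q.1.1 q.1.2.1 q.1.2.2 q.2) q₀ := sm_be.neg

theorem sm_dYc : ContDiffAt ℝ ∞
    (fun q : FP × V2 => fderiv ℝ (Yc q.1.1 q.1.2.1 q.1.2.2) q.2) q₀ :=
  ContDiffAt.joint_fderiv (f := fun (P : FP) (u : V2) => Yc P.1 P.2.1 P.2.2 u) sm_Yc

theorem sm_dnb : ContDiffAt ℝ ∞
    (fun q : FP × V2 => fderiv ℝ (nb q.1.1 q.1.2.1 q.1.2.2) q.2) q₀ :=
  ContDiffAt.joint_fderiv (f := fun (P : FP) (u : V2) => nb P.1 P.2.1 P.2.2 u) sm_nb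

/-- the condition under which everything is smooth -/
def Reg (q : FP × V2) : Prop := Dl q.1.1 (Yc q.1.1 q.1.2.1 q.1.2.2 q.2) ≠ 0

theorem sm_hT (h0 : Reg q₀) : ContDiffAt ℝ ∞
    (fun q : FP × V2 => hT q.1.1 q.1.2.1 q.1.2.2 q.2) q₀ := by
  have h1 : ContDiffAt ℝ ∞ (fun q : FP × V2 => hBL q.1.1 (Yc q.1.1 q.1.2.1 q.1.2.2 q.2)) q₀ :=
    cd_hBL sm_d sm_Yc h0
  have h2 := sm_dYc (q₀ := q₀)
  have h3 : ContDiffAt ℝ ∞ (fun q : FP × V2 =>
      (hBL q.1.1 (Yc q.1.1 q.1.2.1 q.1.2.2 q.2)).comp (fderiv ℝ (Yc q.1.1 q.1.2.1 q.1.2.2) q.2)) q₀ :=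
    h1.clm_comp h2
  have h4 : ContDiffAt ℝ ∞ (fun q : FP × V2 =>
      ((hBL q.1.1 (Yc q.1.1 q.1.2.1 q.1.2.2 q.2)).comp
        (fderiv ℝ (Yc q.1.1 q.1.2.1 q.1.2.2) q.2)).flip) q₀ :=
    (ContinuousLinearMap.flipₗᵢ ℝ V2 V3 ℝ).contDiff.contDiffAt.comp q₀ h3
  have h5 := h4.clm_comp h2
  exact (ContinuousLinearMap.flipₗᵢ ℝ V2 V2 ℝ).contDiff.contDiffAt.comp q₀ h5

theorem sm_AT (h0 : Reg q₀) : ContDiffAt ℝ ∞
    (fun q : FP × V2 => AT q.1.1 q.1.2.1 q.1.2.2 q.2) q₀ := by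
  have h1 : ContDiffAt ℝ ∞ (fun q : FP × V2 => cAL q.1.1 (Yc q.1.1 q.1.2.1 q.1.2.2 q.2)) q₀ :=
    cd_cAL sm_d sm_Yc h0
  have h2 := sm_dYc (q₀ := q₀)
  have h3 : ContDiffAt ℝ ∞ (fun q : FP × V2 => cayE (nb q.1.1 q.1.2.1 q.1.2.2 q.2)) q₀ :=
    cayE_contDiff.contDiffAt.comp q₀ sm_nb
  have h4 : ContDiffAt ℝ ∞ (fun q : FP × V2 => cayR (-(nb q.1.1 q.1.2.1 q.1.2.2 q.2))) q₀ :=
    cayR_contDiff.contDiffAt.comp q₀ sm_nb.neg
  exact h4.clm_comp ((h1.clm_comp h2).add (h3.clm_comp sm_dnb))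

theorem sm_kT (i j : Fin 3) : ContDiffAt ℝ ∞
    (fun q : FP × V2 => kT q.1.1 q.1.2.1 q.1.2.2 q.2 i j) q₀ := by
  have h : ∀ v : V3, ContDiffAt ℝ ∞
      (fun q : FP × V2 => cayR (nb q.1.1 q.1.2.1 q.1.2.2 q.2) v) q₀ := fun v =>
    (cayR_contDiff.contDiffAt.comp q₀ sm_nb).clm_apply contDiffAt_const
  exact cd_kap sm_d sm_Yc (h _) (h _)

theorem sm_FA (h0 : Reg q₀) (x z : V2) : ContDiffAt ℝ ∞
    (fun q : FP × V2 => FA (AT q.1.1 q.1.2.1 q.1.2.2) q.2 x z) q₀ := by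
  have h1 := sm_AT h0
  have h2 : ContDiffAt ℝ ∞ (fun q : FP × V2 => fderiv ℝ (AT q.1.1 q.1.2.1 q.1.2.2) q.2) q₀ :=
    ContDiffAt.joint_fderiv (f := fun (P : FP) (u : V2) => AT P.1 P.2.1 P.2.2 u) h1
  have h3 : ∀ v w : V2, ContDiffAt ℝ ∞
      (fun q : FP × V2 => fderiv ℝ (AT q.1.1 q.1.2.1 q.1.2.2) q.2 v w) q₀ := fun v w =>
    (h2.clm_apply contDiffAt_const).clm_apply contDiffAt_const
  have h4 : ∀ v : V2, ContDiffAt ℝ ∞
      (fun q : FP × V2 => AT q.1.1 q.1.2.1 q.1.2.2 q.2 v) q₀ := fun v =>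
    h1.clm_apply contDiffAt_const
  exact ((h3 x z).sub (h3 z x)).add (cd_cross (h4 x) (h4 z))

end

end Pool.Agent.HS.LkSm
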