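import Pool.Agent.HS.Loc

/-!
# Linear algebra of the horizontal lift (block LOCE of project HS)

For `b = (x, c)` tangent to the vector bundle at `(u, w)` put `D = c + A_u x × w` and
`U = q⁻¹ (w × S D)`.  The horizontal lift of `b` to the principal bundle times `ℝ³` has angular
velocity `U` and flat component `Z = D - U × w`.
-/

set_option maxSynthPendingDepth 3

namespace Pool.Agent.HS

open Matrix

variable {B : Type*} [NormedAddCommGroup B] [NormedSpace ℝ B]

/-- A vector with vanishing cross product with `w ≠ 0` is a multiple of `w`. -/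
theorem parallel_of_cross_eq_zero {w D : V3} (hw : w ≠ 0) (h : w ⨯₃ D = 0) :
    ∃ t : ℝ, D = t • w := by
  rw [cross_apply] at h
  have h0 := congrFun h 0
  have h1 := congrFun h 1
  have h2 := congrFun h 2
  simp only [Matrix.cons_val_zero, Matrix.cons_val_one, Matrix.cons_val, Pi.zero_apply] at h0 h1 h2
  have hpos : 0 < w 0 * w 0 + w 1 * w 1 + w 2 * w 2 := by
    by_contra hcon
    push Not at hcon
    apply hw
    have e0 : w 0 = 0 := by nlinarith [mul_self_nonneg (w 0), mul_self_nonneg (w 1), mul_self_nonneg (w 2)]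
    have e1 : w 1 = 0 := by nlinarith [mul_self_nonneg (w 0), mul_self_nonneg (w 1), mul_self_nonneg (w 2)]
    have e2 : w 2 = 0 := by nlinarith [mul_self_nonneg (w 0), mul_self_nonneg (w 1), mul_self_nonneg (w 2)]
    ext i
    fin_cases i
    · simpa using e0
    · simpa using e1
    · simpa using e2
  have hne := hpos.ne'
  refine ⟨(w 0 * D 0 + w 1 * D 1 + w 2 * D 2) / (w 0 * w 0 + w 1 * w 1 + w 2 * w 2), ?_⟩
  ext i
  fin_cases i
  · simp only [Fin.zero_eta, Pi.smul_apply, smul_eq_mul]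
    rw [div_mul_eq_mul_div, eq_div_iff hne]
    linear_combination (-w 1) * h2 + w 2 * h1
  · simp only [Fin.mk_one, Pi.smul_apply, smul_eq_mul]
    rw [div_mul_eq_mul_div, eq_div_iff hne]
    linear_combination (w 0) * h2 - w 2 * h0
  · simp only [Fin.reduceFinMk, Pi.smul_apply, smul_eq_mul]
    rw [div_mul_eq_mul_div, eq_div_iff hne]
    linear_combination (-w 0) * h1 + w 1 * h0

/-- `D = c + A x × w` for `b = (x, c)`. -/
noncomputable def liftD (A0 : B →L[ℝ] V3) (w : V3) (b : B × V3) : V3 := b.2 + A0 b.1 ⨯₃ w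

/-- The angular velocity `U = q⁻¹ (w × S D)` of the horizontal lift. -/
noncomputable def liftU (qi S : V3 →L[ℝ] V3) (A0 : B →L[ℝ] V3) (w : V3) (b : B × V3) : V3 :=
  qi (w ⨯₃ S (liftD A0 w b))

/-- The principal bundle component `(x, U - A x)` of the horizontal lift (at gauge `a = 0`). -/
noncomputable def liftP (qi S : V3 →L[ℝ] V3) (A0 : B →L[ℝ] V3) (w : V3) (b : B × V3) : B × V3 :=
  (b.1, liftU qi S A0 w b - A0 b.1)

/-- The flat component `Z = D - U × w` of the horizontal lift (at gauge `a = 0`). -/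
noncomputable def liftZ (qi S : V3 →L[ℝ] V3) (A0 : B →L[ℝ] V3) (w : V3) (b : B × V3) : V3 :=
  liftD A0 w b - liftU qi S A0 w b ⨯₃ w

theorem liftD_comb (A0 : B →L[ℝ] V3) (w : V3) (s t : ℝ) (b b' : B × V3) :
    liftD A0 w (s • b + t • b') = s • liftD A0 w b + t • liftD A0 w b' := by
  unfold liftD
  simp only [Prod.snd_add, Prod.smul_snd, Prod.fst_add, Prod.smul_fst, map_add, map_smul,
    LinearMap.add_apply, LinearMap.smul_apply, smul_add]
  abel

theorem liftU_comb (qi S : V3 →L[ℝ] V3) (A0 : B →L[ℝ] V3) (w : V3) (s t : ℝ) (b b' : B × V3) :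
    liftU qi S A0 w (s • b + t • b') = s • liftU qi S A0 w b + t • liftU qi S A0 w b' := by
  unfold liftU
  rw [liftD_comb]
  simp only [map_add, map_smul]

/-- **Independence of horizontal lifts.** If no combination of `b₁, b₂` except the trivial one is
a multiple of the radial vector `(0, w)`, then the principal bundle components of the horizontal
lifts are linearly independent. -/
theorem liftP_indep {qi S : V3 →L[ℝ] V3} {A0 : B →L[ℝ] V3} {w : V3} (hw : w ≠ 0)
    (hqi : Function.Injective qi)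
    (hS : ∀ D, S D + qi (w ⨯₃ S D) ⨯₃ w = D) {b1 b2 : B × V3}
    (hb : ∀ s t c : ℝ, s • b1 + t • b2 = c • ((0, w) : B × V3) → s = 0 ∧ t = 0) :
    LinearIndependent ℝ ![liftP qi S A0 w b1, liftP qi S A0 w b2] := by
  rw [LinearIndependent.pair_iff]
  intro s t hst
  have hx : s • b1.1 + t • b2.1 = 0 := congrArg Prod.fst hst
  have hU : s • (liftU qi S A0 w b1 - A0 b1.1) + t • (liftU qi S A0 w b2 - A0 b2.1) = 0 :=
    congrArg Prod.snd hst
  have hA : s • A0 b1.1 + t • A0 b2.1 = 0 := by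
    rw [← map_smul, ← map_smul, ← map_add, hx, map_zero]
  have hU0 : liftU qi S A0 w (s • b1 + t • b2) = 0 := by
    rw [liftU_comb]
    have : s • liftU qi S A0 w b1 + t • liftU qi S A0 w b2
        = (s • (liftU qi S A0 w b1 - A0 b1.1) + t • (liftU qi S A0 w b2 - A0 b2.1))
          + (s • A0 b1.1 + t • A0 b2.1) := by
      simp only [smul_sub]; abel
    rw [this, hU, hA, add_zero]
  set D := liftD A0 w (s • b1 + t • b2) with hD
  have h1 : w ⨯₃ S D = 0 := by
    apply hqi
    rw [map_zero]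
    exact hU0
  have h2 : S D = D := by
    have := hS D
    rw [h1, map_zero] at this
    simpa using this
  rw [h2] at h1
  obtain ⟨c, hc⟩ := parallel_of_cross_eq_zero hw h1
  refine hb s t c ?_
  have hfst : (s • b1 + t • b2).1 = 0 := by
    simpa using hx
  have hsnd : (s • b1 + t • b2).2 = c • w := by
    have : D = (s • b1 + t • b2).2 + A0 (s • b1 + t • b2).1 ⨯₃ w := rfl
    rw [hfst, map_zero] at this
    rw [hc] at this
    simpa using this.symm
  exact Prod.ext (by simpa using hfst) (by simpa using hsnd)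

/-- The flat component is `S D`. -/
theorem liftZ_eq {qi S : V3 →L[ℝ] V3} {A0 : B →L[ℝ] V3} {w : V3}
    (hS : ∀ D, S D + qi (w ⨯₃ S D) ⨯₃ w = D) (b : B × V3) :
    liftZ qi S A0 w b = S (liftD A0 w b) := by
  unfold liftZ liftU
  have := hS (liftD A0 w b)
  exact sub_eq_of_eq_add this.symm

/-- **Horizontality and energy identity.** With `U = q⁻¹ (w × S D)`:
`U · q U' + (D - U × w) · Z' = D · S (U' × w + Z')` for all `U'`, `Z'`. -/
theorem lift_key {q qi S : V3 →L[ℝ] V3} {w : V3} (hq : ∀ x y : V3, x ⬝ᵥ q y = y ⬝ᵥ q x)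
    (hqi : ∀ x, q (qi x) = x) (hSs : ∀ x y : V3, x ⬝ᵥ S y = y ⬝ᵥ S x)
    (hS : ∀ D, S D + qi (w ⨯₃ S D) ⨯₃ w = D) (D U' Z' : V3) :
    qi (w ⨯₃ S D) ⬝ᵥ q U' + (D - qi (w ⨯₃ S D) ⨯₃ w) ⬝ᵥ Z' = D ⬝ᵥ S (U' ⨯₃ w + Z') := by
  rw [hq, hqi, sub_eq_of_eq_add (hS D).symm, hSs D, add_dotProduct, dotProduct_comm (S D) Z']
  congr 1
  rw [dotProduct_comm (U' ⨯₃ w), triple_product_permutation]
  exact triple_product_permutation _ _ _

/-- The same with `U · q U'` and `Z` in the rotated frame `ż = R⁻¹ Z`: for a rotation `R`,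
`R⁻¹ Z · z' = Z · R z'`. -/
theorem cayR_neg_dot (a x y : V3) : cayR (-a) x ⬝ᵥ y = x ⬝ᵥ cayR a y := by
  have h := cayR_dot a (cayR (-a) x) y
  have h2 := cayR_neg (-a) x
  rw [neg_neg] at h2
  rw [← h, h2]

end Pool.Agent.HS
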