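import Pool.Agent.HS.Comet
import Pool.Agent.HS.Reg
import Pool.Agent.HS.Cay2
import Pool.Agent.HS.LocEAlg

/-!
# Block LOCE: curvature of the vector bundle metric from the principal bundle metric

`piE ((u, a), z) = (u, cayR a z)` is a Riemannian submersion from `prodG (GP h A q) (flat)` to
`GE h A q`.  If the sectional curvatures of `GP h A q` at `(u₀, 0)` are positive, then
`GE h A q` is nonnegatively curved at `(u₀, w)` for every `w`, and `0 < Rm` on all pairs which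
are independent modulo the radial vector `(0, w)` (`w ≠ 0`).
-/

set_option maxSynthPendingDepth 3

namespace Pool.Agent.HS

open Matrix Topology Filter

variable {B : Type*} [NormedAddCommGroup B] [NormedSpace ℝ B]

/-- The defining equation of `Sw q w D`. -/
theorem Sw_spec {q : V3 →L[ℝ] V3} (hs : ∀ x y : V3, x ⬝ᵥ q y = q x ⬝ᵥ y)
    (hp : ∀ x : V3, x ≠ 0 → 0 < x ⬝ᵥ q x) (w D : V3) :
    Sw q w D + ContinuousLinearMap.inverse q (w ⨯₃ Sw q w D) ⨯₃ w = D :=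
  reg_apply_inverse (reg_Mw_isInvertible hs hp w) D

/-- The submersion. -/
noncomputable def piE (p : (B × V3) × V3) : B × V3 := (p.1.1, cayR p.1.2 p.2)

theorem piE_contDiff {n : WithTop ℕ∞} : ContDiff ℝ n (piE : (B × V3) × V3 → B × V3) := by
  unfold piE
  exact (contDiff_fst.fst).prodMk ((cayR_contDiff.comp contDiff_fst.snd).clm_apply contDiff_snd)

theorem piE_fderiv (p e : (B × V3) × V3) :
    fderiv ℝ piE p e
      = (e.1.1, cayE p.1.2 e.1.2 ⨯₃ cayR p.1.2 p.2 + cayR p.1.2 e.2) := by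
  have h1 : HasFDerivAt (fun p : (B × V3) × V3 => cayR p.1.2)
      ((fderiv ℝ cayR p.1.2).comp ((ContinuousLinearMap.snd ℝ B V3).comp
        (ContinuousLinearMap.fst ℝ (B × V3) V3))) p := by
    have h2 : HasFDerivAt (fun p : (B × V3) × V3 => p.1.2) ((ContinuousLinearMap.snd ℝ B V3).comp
        (ContinuousLinearMap.fst ℝ (B × V3) V3)) p :=
      ((ContinuousLinearMap.snd ℝ B V3).comp (ContinuousLinearMap.fst ℝ (B × V3) V3)).hasFDerivAt
    exact HasFDerivAt.comp (g := cayR) p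
      (((cayR_contDiff (n := 1)).differentiable (by norm_num)) p.1.2).hasFDerivAt h2
  have h3 : HasFDerivAt (fun p : (B × V3) × V3 => p.2) (ContinuousLinearMap.snd ℝ (B × V3) V3) p :=
    (ContinuousLinearMap.snd ℝ (B × V3) V3).hasFDerivAt
  have h4 : HasFDerivAt (fun p : (B × V3) × V3 => p.1.1) ((ContinuousLinearMap.fst ℝ B V3).comp
        (ContinuousLinearMap.fst ℝ (B × V3) V3)) p :=
      ((ContinuousLinearMap.fst ℝ B V3).comp (ContinuousLinearMap.fst ℝ (B × V3) V3)).hasFDerivAt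
  have h5 := h4.prodMk (h1.clm_apply h3)
  have h6 : HasFDerivAt (piE : (B × V3) × V3 → B × V3) _ p := h5
  rw [h6.fderiv]
  refine Prod.ext rfl ?_
  change cayR p.1.2 e.2 + (fderiv ℝ cayR p.1.2) e.1.2 p.2 = _
  rw [fderiv_cayR_apply, add_comm]

/-- The horizontal lift of `v` at `p`. -/
noncomputable def liftE (A : B → B →L[ℝ] V3) (q : B → V3 →L[ℝ] V3) (p : (B × V3) × V3)
    (v : B × V3) : (B × V3) × V3 :=
  ((v.1, cayF p.1.2 (ContinuousLinearMap.inverse (q p.1.1) (cayR p.1.2 p.2 ⨯₃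
      Sw (q p.1.1) (cayR p.1.2 p.2) (DW A (piE p) v)) - A p.1.1 v.1)),
    cayR (-p.1.2) (Sw (q p.1.1) (cayR p.1.2 p.2) (DW A (piE p) v)))

theorem liftE_proj {A : B → B →L[ℝ] V3} {q : B → V3 →L[ℝ] V3} {p : (B × V3) × V3}
    (hs : ∀ x y : V3, x ⬝ᵥ q p.1.1 y = q p.1.1 x ⬝ᵥ y)
    (hp : ∀ x : V3, x ≠ 0 → 0 < x ⬝ᵥ q p.1.1 x) (v : B × V3) :
    fderiv ℝ piE p (liftE A q p v) = v := by
  rw [piE_fderiv]
  refine Prod.ext rfl ?_
  simp only [liftE, cayE_cayF, cayR_neg']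
  set w := cayR p.1.2 p.2 with hw
  have h := Sw_spec hs hp w (DW A (piE p) v)
  set S := Sw (q p.1.1) w (DW A (piE p) v) with hS
  have h1 : (ContinuousLinearMap.inverse (q p.1.1) (w ⨯₃ S) - A p.1.1 v.1) ⨯₃ w
      = ContinuousLinearMap.inverse (q p.1.1) (w ⨯₃ S) ⨯₃ w - A p.1.1 v.1 ⨯₃ w := by
    rw [map_sub, LinearMap.sub_apply]
  have h2 : DW A (piE p) v = A p.1.1 v.1 ⨯₃ w + v.2 := rfl
  rw [h1]
  rw [h2] at h
  have h3 : v.2 = S + ContinuousLinearMap.inverse (q p.1.1) (w ⨯₃ S) ⨯₃ w - A p.1.1 v.1 ⨯₃ w := by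
    rw [h]; abel
  conv_rhs => rw [h3]
  abel

theorem liftE_horiz {h : B → B →L[ℝ] B →L[ℝ] ℝ} {A : B → B →L[ℝ] V3} {q : B → V3 →L[ℝ] V3}
    {p : (B × V3) × V3} (hs : ∀ x y : V3, x ⬝ᵥ q p.1.1 y = q p.1.1 x ⬝ᵥ y)
    (hp : ∀ x : V3, x ≠ 0 → 0 < x ⬝ᵥ q p.1.1 x) (v : B × V3) (e : (B × V3) × V3) :
    prodG (GP h A q) (fun _ => dotL) p (liftE A q p v) e
      = GE h A q (piE p) v (fderiv ℝ piE p e) := by
  rw [prodG_apply, GP_apply, GE_apply, piE_fderiv]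
  simp only [liftE, cayE_cayF, piE, dotL_apply]
  set w := cayR p.1.2 p.2 with hw
  have hDW : DW A (p.1.1, w) v = A p.1.1 v.1 ⨯₃ w + v.2 := rfl
  rw [hDW]
  set D := A p.1.1 v.1 ⨯₃ w + v.2 with hD
  set S := Sw (q p.1.1) w D with hS
  set U := ContinuousLinearMap.inverse (q p.1.1) (w ⨯₃ S) with hU
  have hqU : q p.1.1 U = w ⨯₃ S := reg_apply_inverse (reg_isInvertible_of_pos hp) _
  have e1 : A p.1.1 v.1 + (U - A p.1.1 v.1) = U := by abel
  rw [e1, hs, hqU, reg_Sw_symm hs hp, ← hS]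
  have e2 : A p.1.1 e.1.1 ⨯₃ w + (cayE p.1.2 e.1.2 ⨯₃ w + cayR p.1.2 e.2)
      = (A p.1.1 e.1.1 + cayE p.1.2 e.1.2) ⨯₃ w + cayR p.1.2 e.2 := by
    rw [map_add, LinearMap.add_apply]; abel
  rw [e2]
  have e3 : cayR (-p.1.2) S ⬝ᵥ e.2 = S ⬝ᵥ cayR p.1.2 e.2 := by
    rw [← cayR_dot p.1.2, cayR_neg']
  have e4 : S ⬝ᵥ ((A p.1.1 e.1.1 + cayE p.1.2 e.1.2) ⨯₃ w)
      = (w ⨯₃ S) ⬝ᵥ (A p.1.1 e.1.1 + cayE p.1.2 e.1.2) := by
    rw [triple_product_permutation, dotProduct_comm]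
  rw [e3, dotProduct_add S, e4]
  ring

theorem isSubm_piE {h : B → B →L[ℝ] B →L[ℝ] ℝ} {A : B → B →L[ℝ] V3} {q : B → V3 →L[ℝ] V3}
    {p : (B × V3) × V3} (hs : ∀ x y : V3, x ⬝ᵥ q p.1.1 y = q p.1.1 x ⬝ᵥ y)
    (hp : ∀ x : V3, x ≠ 0 → 0 < x ⬝ᵥ q p.1.1 x) :
    IsSubm (prodG (GP h A q) (fun _ => dotL)) (GE h A q) piE p := fun v =>
  ⟨liftE A q p v, liftE_proj hs hp v, liftE_horiz hs hp v⟩

/-- **O'Neill for the vector bundle.** The curvature form of `GE h A q` at `(u₀, w)` is at least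
the curvature form of `GP h A q` at `(u₀, 0)` on the principal bundle components of the lifts. -/
theorem Rm_GP_le_Rm_GE [FiniteDimensional ℝ B] {h : B → B →L[ℝ] B →L[ℝ] ℝ}
    {A : B → B →L[ℝ] V3} {q : B → V3 →L[ℝ] V3} {u0 : B} (hh : ContDiffAt ℝ 2 h u0)
    (hA : ContDiffAt ℝ 2 A u0) (hq : ContDiffAt ℝ 2 q u0) (hi : ∀ᶠ u in 𝓝 u0, IsInner (h u))
    (hs : ∀ᶠ u in 𝓝 u0, ∀ x y : V3, x ⬝ᵥ q u y = q u x ⬝ᵥ y)
    (hp : ∀ᶠ u in 𝓝 u0, ∀ x : V3, x ≠ 0 → 0 < x ⬝ᵥ q u x) (w : V3) (X Y : B × V3) :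
    Rm (GP h A q) (u0, 0)
        (liftP (ContinuousLinearMap.inverse (q u0)) (Sw (q u0) w) (A u0) w X)
        (liftP (ContinuousLinearMap.inverse (q u0)) (Sw (q u0) w) (A u0) w Y)
      ≤ Rm (GE h A q) (u0, w) X Y := by
  set p : (B × V3) × V3 := ((u0, 0), w) with hpdef
  have hpi : piE p = (u0, w) := Prod.ext rfl (cayR_zero w)
  have hs0 := hs.self_of_nhds
  have hp0 := hp.self_of_nhds
  have hi0 := hi.self_of_nhds
  have c1 : Tendsto (fun q : (B × V3) × V3 => q.1.1) (𝓝 p) (𝓝 u0) :=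
    (continuous_fst.comp continuous_fst).continuousAt
  have c2 : Tendsto (fun q : B × V3 => q.1) (𝓝 (piE p)) (𝓝 u0) := by
    rw [hpi]; exact continuous_fst.continuousAt
  have cGP : ContDiffAt ℝ 2 (GP h A q) p.1 := contDiffAt_GP hh hA hq
  have iGP : ∀ᶠ u in 𝓝 u0, ∀ a : V3, IsInner (GP h A q (u, a)) := by
    filter_upwards [hi, hs, hp] with u h1 h2 h3 a using isInner_GP h1 h2 h3
  have key := Rm_le_of_submersion (G := prodG (GP h A q) (fun _ : V3 => dotL))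
    (g := GE h A q) (π := piE) (p := p) (x := X) (y := Y) (x' := liftE A q p X)
    (y' := liftE A q p Y)
    (contDiffAt_prodG cGP contDiffAt_const)
    (by rw [hpi]; exact contDiffAt_GE hh hA hq hs0 hp0)
    piE_contDiff.contDiffAt
    (by
      filter_upwards [c1.eventually iGP] with z hz
      exact IsInner.prodG (hz z.1.2) isInner_dotL)
    (by
      filter_upwards [c2.eventually hi, c2.eventually hs, c2.eventually hp] with z h1 h2 h3
      exact isInner_GE h1 h2 h3)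
    (by
      filter_upwards [c1.eventually hs, c1.eventually hp] with z h2 h3
      exact isSubm_piE h2 h3)
    (fun e => liftE_horiz hs0 hp0 X e) (fun e => liftE_horiz hs0 hp0 Y e)
  rw [Rm_prodG_flat cGP (iGP.self_of_nhds 0), hpi] at key
  have lift_eq : ∀ v : B × V3, (liftE A q p v).1
      = liftP (ContinuousLinearMap.inverse (q u0)) (Sw (q u0) w) (A u0) w v := by
    intro v
    refine Prod.ext rfl ?_
    have e1 : cayR (0 : V3) w = w := cayR_zero w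
    have e2 : DW A (piE p) v = liftD (A u0) w v := by
      rw [hpi]
      exact add_comm _ _
    have e3 : ∀ b : V3, cayF (0 : V3) b = b := by
      intro b
      simp [cayF]
    change cayF (0 : V3) (ContinuousLinearMap.inverse (q u0) (cayR (0 : V3) w ⨯₃
      Sw (q u0) (cayR (0 : V3) w) (DW A (piE p) v)) - A u0 v.1) = _
    rw [e1, e2, e3]
    rfl
  rw [lift_eq, lift_eq] at key
  exact key

/-- A positively curved metric has nonnegative curvature form on all pairs. -/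
theorem PosAt.nonnegAt [FiniteDimensional ℝ B] {G : B → B →L[ℝ] B →L[ℝ] ℝ} {p : B}
    (hG : ContDiffAt ℝ 2 G p) (hi : ∀ᶠ q in 𝓝 p, IsInner (G q)) (hP : PosAt G p) :
    NonnegAt G p := by
  intro x y
  by_cases hxy : LinearIndependent ℝ ![x, y]
  · exact (hP x y hxy).le
  · rw [LinearIndependent.pair_iff] at hxy
    push Not at hxy
    obtain ⟨s, t, hst, hne⟩ := hxy
    have hsy : SymmNear G p := hi.mono fun q hq => hq.symm
    have hz : ∀ z : B, Rm G p 0 z = 0 := by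
      intro z
      have h := Rm_plane hG hsy hi.self_of_nhds z z 0 0 0 1
      simpa using h
    have hz' : ∀ z : B, Rm G p z 0 = 0 := by
      intro z
      have h := Rm_plane hG hsy hi.self_of_nhds z z 0 1 0 0
      simpa using h
    -- `(s x + t y) ∧ y = s (x ∧ y)` and `x ∧ (s x + t y) = t (x ∧ y)`
    have e1 := Rm_plane hG hsy hi.self_of_nhds x y s t 0 1
    have e2 := Rm_plane hG hsy hi.self_of_nhds x y 1 0 s t
    rw [hst] at e1 e2
    have e1' : (s * 1 - t * 0) ^ 2 * Rm G p x y = 0 := by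
      rw [← e1]
      exact hz _
    have e2' : (1 * t - 0 * s) ^ 2 * Rm G p x y = 0 := by
      rw [← e2]
      exact hz' _
    by_cases h0 : s = 0
    · have ht := hne h0
      have : Rm G p x y = 0 := by
        have h3 : (t : ℝ) ^ 2 ≠ 0 := pow_ne_zero 2 ht
        have h4 : t ^ 2 * Rm G p x y = 0 := by
          have : (1 * t - 0 * s) ^ 2 = t ^ 2 := by ring
          rw [← this]; exact e2'
        exact (mul_eq_zero.1 h4).resolve_left h3
      rw [this]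
    · have h3 : (s : ℝ) ^ 2 ≠ 0 := pow_ne_zero 2 h0
      have h4 : s ^ 2 * Rm G p x y = 0 := by
        have : (s * 1 - t * 0) ^ 2 = s ^ 2 := by ring
        rw [← this]; exact e1'
      rw [(mul_eq_zero.1 h4).resolve_left h3]

/-- **LOCE, nonnegativity.** -/
theorem GE_nonneg [FiniteDimensional ℝ B] {h : B → B →L[ℝ] B →L[ℝ] ℝ}
    {A : B → B →L[ℝ] V3} {q : B → V3 →L[ℝ] V3} {u0 : B} (hh : ContDiffAt ℝ 2 h u0)
    (hA : ContDiffAt ℝ 2 A u0) (hq : ContDiffAt ℝ 2 q u0) (hi : ∀ᶠ u in 𝓝 u0, IsInner (h u))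
    (hs : ∀ᶠ u in 𝓝 u0, ∀ x y : V3, x ⬝ᵥ q u y = q u x ⬝ᵥ y)
    (hp : ∀ᶠ u in 𝓝 u0, ∀ x : V3, x ≠ 0 → 0 < x ⬝ᵥ q u x)
    (hP : PosAt (GP h A q) (u0, 0)) (w : V3) : NonnegAt (GE h A q) (u0, w) := by
  intro X Y
  refine le_trans ?_ (Rm_GP_le_Rm_GE hh hA hq hi hs hp w X Y)
  refine PosAt.nonnegAt (contDiffAt_GP hh hA hq) ?_ hP _ _
  have c2 : Tendsto (fun q : B × V3 => q.1) (𝓝 ((u0, 0) : B × V3)) (𝓝 u0) :=
    continuous_fst.continuousAt
  filter_upwards [c2.eventually hi, c2.eventually hs, c2.eventually hp] with z h1 h2 h3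
  exact isInner_GP h1 h2 h3

/-- **LOCE, positivity** on pairs which are independent modulo the radial vector. -/
theorem GE_pos [FiniteDimensional ℝ B] {h : B → B →L[ℝ] B →L[ℝ] ℝ}
    {A : B → B →L[ℝ] V3} {q : B → V3 →L[ℝ] V3} {u0 : B} (hh : ContDiffAt ℝ 2 h u0)
    (hA : ContDiffAt ℝ 2 A u0) (hq : ContDiffAt ℝ 2 q u0) (hi : ∀ᶠ u in 𝓝 u0, IsInner (h u))
    (hs : ∀ᶠ u in 𝓝 u0, ∀ x y : V3, x ⬝ᵥ q u y = q u x ⬝ᵥ y)
    (hp : ∀ᶠ u in 𝓝 u0, ∀ x : V3, x ≠ 0 → 0 < x ⬝ᵥ q u x)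
    (hP : PosAt (GP h A q) (u0, 0)) {w : V3} (hw : w ≠ 0) {X Y : B × V3}
    (hXY : ∀ a b c : ℝ, a • X + b • Y = c • ((0 : B), w) → a = 0 ∧ b = 0) :
    0 < Rm (GE h A q) (u0, w) X Y := by
  refine lt_of_lt_of_le ?_ (Rm_GP_le_Rm_GE hh hA hq hi hs hp w X Y)
  apply hP
  have hs0 := hs.self_of_nhds
  have hp0 := hp.self_of_nhds
  have hinv := reg_isInvertible_of_pos hp0
  refine liftP_indep hw ?_ (fun D => Sw_spec hs0 hp0 w D) hXY
  intro x y hxy
  rw [← reg_apply_inverse hinv x, ← reg_apply_inverse hinv y, hxy]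

end Pool.Agent.HS
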