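import Pool.Agent.HS.Reg
import Pool.Agent.HS.CoordSk
import Pool.Agent.HS.Cay2
import Pool.Agent.HS.M2b

/-!
# Block M2: the curvature form of the principal bundle at an adapted point (project HS)
-/

set_option maxSynthPendingDepth 3

namespace Pool.Agent.HS.M2a

open Matrix Topology Filter Pool.Agent.HS

section gen

variable {E : Type*} [NormedAddCommGroup E] [NormedSpace ℝ E]
variable {F : Type*} [NormedAddCommGroup F] [NormedSpace ℝ F]
variable {F' : Type*} [NormedAddCommGroup F'] [NormedSpace ℝ F']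
variable {F'' : Type*} [NormedAddCommGroup F''] [NormedSpace ℝ F'']

theorem fderiv_bilin {f : E → F} {g : E → F'} {p : E} (B : F →L[ℝ] F' →L[ℝ] F'')
    (hf : DifferentiableAt ℝ f p) (hg : DifferentiableAt ℝ g p) (x : E) :
    fderiv ℝ (fun q => B (f q) (g q)) p x = B (f p) (fderiv ℝ g p x) + B (fderiv ℝ f p x) (g p) := by
  rw [(B.hasFDerivAt_of_bilinear hf.hasFDerivAt hg.hasFDerivAt).fderiv]
  simp [ContinuousLinearMap.precompR_apply, ContinuousLinearMap.precompL_apply]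

/-- evaluation as a bilinear map -/
noncomputable def evB : (V3 →L[ℝ] V3) →L[ℝ] V3 →L[ℝ] V3 := ContinuousLinearMap.id ℝ (V3 →L[ℝ] V3)

theorem evB_apply (M : V3 →L[ℝ] V3) (v : V3) : evB M v = M v := rfl

theorem contDiffAt_evB {n : WithTop ℕ∞} {M : E → V3 →L[ℝ] V3} {v : E → V3} {p : E}
    (hM : ContDiffAt ℝ n M p) (hv : ContDiffAt ℝ n v p) : ContDiffAt ℝ n (fun q => evB (M q) (v q)) p :=
  hM.clm_apply hv

theorem fderiv_trip {u v : E → V3} {M : E → V3 →L[ℝ] V3} {p : E} (hu : DifferentiableAt ℝ u p)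
    (hM : DifferentiableAt ℝ M p) (hv : DifferentiableAt ℝ v p) (x : E) :
    fderiv ℝ (fun q => u q ⬝ᵥ M q (v q)) p x = fderiv ℝ u p x ⬝ᵥ M p (v p)
      + u p ⬝ᵥ fderiv ℝ M p x (v p) + u p ⬝ᵥ M p (fderiv ℝ v p x) := by
  have h1 : DifferentiableAt ℝ (fun q => evB (M q) (v q)) p := hM.clm_apply hv
  have h2 := fderiv_bilin (F := V3) (F' := V3) (F'' := ℝ) (p := p) dotL hu h1 x
  have h3 := fderiv_bilin (F := V3 →L[ℝ] V3) (F' := V3) (F'' := V3) (p := p) evB hM hv x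
  rw [h3] at h2
  rw [map_add] at h2
  simp only [dotL_apply, evB_apply] at h2
  rw [h2]
  ring

theorem dd_trip {u v : E → V3} {M : E → V3 →L[ℝ] V3} {p : E} (hu : ContDiffAt ℝ 2 u p)
    (hM : ContDiffAt ℝ 2 M p) (hv : ContDiffAt ℝ 2 v p) (x y : E) :
    dd (fun q => u q ⬝ᵥ M q (v q)) p x y = dd u p x y ⬝ᵥ M p (v p) + u p ⬝ᵥ dd M p x y (v p)
      + u p ⬝ᵥ M p (dd v p x y)
      + fderiv ℝ u p x ⬝ᵥ fderiv ℝ M p y (v p) + fderiv ℝ u p x ⬝ᵥ M p (fderiv ℝ v p y)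
      + fderiv ℝ u p y ⬝ᵥ fderiv ℝ M p x (v p) + fderiv ℝ u p y ⬝ᵥ M p (fderiv ℝ v p x)
      + u p ⬝ᵥ fderiv ℝ M p x (fderiv ℝ v p y) + u p ⬝ᵥ fderiv ℝ M p y (fderiv ℝ v p x) := by
  have h1 : ContDiffAt ℝ 2 (fun q => evB (M q) (v q)) p := contDiffAt_evB hM hv
  have h2 := dd_bilin (F := V3) (F' := V3) (F'' := ℝ) (p := p) dotL hu h1 x y
  have h3 := dd_bilin (F := V3 →L[ℝ] V3) (F' := V3) (F'' := V3) (p := p) evB hM hv x y
  have h4 := fun x => fderiv_bilin (F := V3 →L[ℝ] V3) (F' := V3) (F'' := V3) (p := p) evB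
    (diff1 hM) (diff1 hv) x
  rw [h3, h4 x, h4 y] at h2
  simp only [map_add] at h2
  simp only [dotL_apply, evB_apply] at h2
  rw [h2]
  ring

variable {B : Type*} [NormedAddCommGroup B] [NormedSpace ℝ B]

theorem fderiv_fst {f : B → F} {p : B × V3} (hf : DifferentiableAt ℝ f p.1) (X : B × V3) :
    fderiv ℝ (fun q : B × V3 => f q.1) p X = fderiv ℝ f p.1 X.1 := by
  have h := (hf.hasFDerivAt.comp p (ContinuousLinearMap.fst ℝ B V3).hasFDerivAt)
  have h' : HasFDerivAt (fun q : B × V3 => f q.1)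
    ((fderiv ℝ f p.1).comp (ContinuousLinearMap.fst ℝ B V3)) p := h
  rw [h'.fderiv]
  rfl

theorem fderiv_snd {f : V3 → F} {p : B × V3} (hf : DifferentiableAt ℝ f p.2) (X : B × V3) :
    fderiv ℝ (fun q : B × V3 => f q.2) p X = fderiv ℝ f p.2 X.2 := by
  have h := (hf.hasFDerivAt.comp p (ContinuousLinearMap.snd ℝ B V3).hasFDerivAt)
  have h' : HasFDerivAt (fun q : B × V3 => f q.2)
    ((fderiv ℝ f p.2).comp (ContinuousLinearMap.snd ℝ B V3)) p := h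
  rw [h'.fderiv]
  rfl

theorem differentiableAt_fst' {f : B → F} {p : B × V3} (hf : DifferentiableAt ℝ f p.1) :
    DifferentiableAt ℝ (fun q : B × V3 => f q.1) p := hf.comp p differentiableAt_fst

theorem differentiableAt_snd' {f : V3 → F} {p : B × V3} (hf : DifferentiableAt ℝ f p.2) :
    DifferentiableAt ℝ (fun q : B × V3 => f q.2) p := hf.comp p differentiableAt_snd

theorem contDiffAt_fst' {n : WithTop ℕ∞} {f : B → F} {p : B × V3} (hf : ContDiffAt ℝ n f p.1) :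
    ContDiffAt ℝ n (fun q : B × V3 => f q.1) p := hf.comp p contDiffAt_fst

theorem contDiffAt_snd' {n : WithTop ℕ∞} {f : V3 → F} {p : B × V3} (hf : ContDiffAt ℝ n f p.2) :
    ContDiffAt ℝ n (fun q : B × V3 => f q.2) p := hf.comp p contDiffAt_snd

theorem dd_fst {f : B → F} {p : B × V3} (hf : ContDiffAt ℝ 2 f p.1) (X Y : B × V3) :
    dd (fun q : B × V3 => f q.1) p X Y = dd f p.1 X.1 Y.1 := by
  have hL : fderiv ℝ (fun q : B × V3 => (ContinuousLinearMap.fst ℝ B V3) q) p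
      = ContinuousLinearMap.fst ℝ B V3 := (ContinuousLinearMap.fst ℝ B V3).fderiv
  have h := dd_comp (g := f) (f := fun q : B × V3 => (ContinuousLinearMap.fst ℝ B V3) q) (p := p) hf
    (ContinuousLinearMap.fst ℝ B V3).contDiff.contDiffAt X Y
  rw [dd_clm_self, map_zero, add_zero, hL] at h
  exact h

theorem dd_snd {f : V3 → F} {p : B × V3} (hf : ContDiffAt ℝ 2 f p.2) (X Y : B × V3) :
    dd (fun q : B × V3 => f q.2) p X Y = dd f p.2 X.2 Y.2 := by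
  have hL : fderiv ℝ (fun q : B × V3 => (ContinuousLinearMap.snd ℝ B V3) q) p
      = ContinuousLinearMap.snd ℝ B V3 := (ContinuousLinearMap.snd ℝ B V3).fderiv
  have h := dd_comp (g := f) (f := fun q : B × V3 => (ContinuousLinearMap.snd ℝ B V3) q) (p := p) hf
    (ContinuousLinearMap.snd ℝ B V3).contDiff.contDiffAt X Y
  rw [dd_clm_self, map_zero, add_zero, hL] at h
  exact h

end gen

/-! ### Jets of `U`, `h`, `q` at an adapted point -/

/-- `U_X` as function of the point -/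
noncomputable def UX (A : V2 → V2 →L[ℝ] V3) (X p : V2 × V3) : V3 := A p.1 X.1 + cayE p.2 X.2

theorem UX_contDiffAt {n : WithTop ℕ∞} {A : V2 → V2 →L[ℝ] V3} {p : V2 × V3} (hA : ContDiffAt ℝ n A p.1)
    (X : V2 × V3) : ContDiffAt ℝ n (UX A X) p := by
  refine ContDiffAt.add ?_ ?_
  · exact (contDiffAt_fst' hA).clm_apply contDiffAt_const
  · exact (contDiffAt_snd' (f := cayE) cayE_contDiff.contDiffAt).clm_apply contDiffAt_const

theorem UX_fderiv {A : V2 → V2 →L[ℝ] V3} (hA : ContDiffAt ℝ 2 A 0) (X W : V2 × V3) :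
    fderiv ℝ (UX A X) (0, 0) W = fderiv ℝ A 0 W.1 X.1 + (1 / 2 : ℝ) • (W.2 ⨯₃ X.2) := by
  have hA1 : DifferentiableAt ℝ A 0 := diff1 hA
  have h1 : HasFDerivAt (fun u => A u X.1)
      ((ContinuousLinearMap.apply ℝ V3 X.1).comp (fderiv ℝ A 0)) 0 :=
    hasFDerivAt_clm hA1 (ContinuousLinearMap.apply ℝ V3 X.1)
  have h2 : DifferentiableAt ℝ (fun a => cayE a X.2) 0 := (cayE_hasFDerivAt 0 X.2).differentiableAt
  have e1 : fderiv ℝ (fun q : V2 × V3 => A q.1 X.1) (0, 0) W = fderiv ℝ A 0 W.1 X.1 := by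
    rw [fderiv_fst (f := fun u => A u X.1) (p := ((0 : V2), (0 : V3))) h1.differentiableAt, h1.fderiv]
    rfl
  have e2 : fderiv ℝ (fun q : V2 × V3 => cayE q.2 X.2) (0, 0) W = (1 / 2 : ℝ) • (W.2 ⨯₃ X.2) := by
    rw [fderiv_snd (f := fun a => cayE a X.2) (p := ((0 : V2), (0 : V3))) h2, cayE_fderiv_zero]
  have d1 : DifferentiableAt ℝ (fun q : V2 × V3 => A q.1 X.1) (0, 0) :=
    differentiableAt_fst' (f := fun u => A u X.1) (p := ((0 : V2), (0 : V3))) h1.differentiableAt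
  have d2 : DifferentiableAt ℝ (fun q : V2 × V3 => cayE q.2 X.2) (0, 0) :=
    differentiableAt_snd' (f := fun a => cayE a X.2) (p := ((0 : V2), (0 : V3))) h2
  have e3 : fderiv ℝ (UX A X) (0, 0) = fderiv ℝ (fun q : V2 × V3 => A q.1 X.1) (0, 0)
      + fderiv ℝ (fun q : V2 × V3 => cayE q.2 X.2) (0, 0) := (d1.hasFDerivAt.add d2.hasFDerivAt).fderiv
  rw [e3, ← e1, ← e2]
  rfl

theorem UX_dd {A : V2 → V2 →L[ℝ] V3} (hA : ContDiffAt ℝ 2 A 0) (X W W' : V2 × V3) :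
    dd (UX A X) (0, 0) W W' = dd A 0 W.1 W'.1 X.1 + (-((W.2 ⬝ᵥ W'.2) / 2)) • X.2 := by
  have h1 : ContDiffAt ℝ 2 (fun u => A u X.1) 0 := contDiffAt_clm hA (ContinuousLinearMap.apply ℝ V3 X.1)
  have h2 : ContDiffAt ℝ 2 (fun a => cayE a X.2) 0 :=
    contDiffAt_clm cayE_contDiff.contDiffAt (ContinuousLinearMap.apply ℝ V3 X.2)
  have c1 : ContDiffAt ℝ 2 (fun q : V2 × V3 => A q.1 X.1) (0, 0) :=
    contDiffAt_fst' (f := fun u => A u X.1) (p := ((0 : V2), (0 : V3))) h1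
  have c2 : ContDiffAt ℝ 2 (fun q : V2 × V3 => cayE q.2 X.2) (0, 0) :=
    contDiffAt_snd' (f := fun a => cayE a X.2) (p := ((0 : V2), (0 : V3))) h2
  have e1 : dd (fun q : V2 × V3 => A q.1 X.1) (0, 0) W W' = dd A 0 W.1 W'.1 X.1 := by
    rw [dd_fst (f := fun u => A u X.1) (p := ((0 : V2), (0 : V3))) h1]
    exact dd_clm hA (ContinuousLinearMap.apply ℝ V3 X.1) W.1 W'.1
  have e2 : dd (fun q : V2 × V3 => cayE q.2 X.2) (0, 0) W W' = (-((W.2 ⬝ᵥ W'.2) / 2)) • X.2 := by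
    rw [dd_snd (f := fun a => cayE a X.2) (p := ((0 : V2), (0 : V3))) h2]
    rw [dotProduct_comm]
    exact cayE_fderiv2_zero W'.2 W.2 X.2
  rw [← e1, ← e2]
  exact dd_add c1 c2 W W'

/-! ### Jets of `qk` -/

/-- the matrix `Q = r² (1 - (r²/3) κ)` -/
noncomputable def QM (r : ℝ) (D : PD) : M33 := (r ^ 2) • ((1 : M33) - (r ^ 2 / 3) • D.κ)
/-- the matrix `Q_x` -/
noncomputable def Q1 (r : ℝ) (D : PD) (x : V2) : M33 := (-(r ^ 4 / 3)) • kx D x
/-- the matrix `κ_{xx'}` -/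
def kxx (D : PD) (x x' : V2) : M33 :=
  x 0 • (x' 0 • D.κ2 0 0 + x' 1 • D.κ2 0 1) + x 1 • (x' 0 • D.κ2 1 0 + x' 1 • D.κ2 1 1)
/-- the matrix `Q_{xx'}` -/
noncomputable def Q2 (r : ℝ) (D : PD) (x x' : V2) : M33 := (-(r ^ 4 / 3)) • kxx D x x'

theorem v2_eq (w : V2) : w = w 0 • ev 0 + w 1 • ev 1 := by
  ext i
  fin_cases i <;> simp [ev]

theorem κ_fderiv {κ : V2 → M33} {D : PD}
    (h1 : ∀ i a b, fderiv ℝ (fun u => κ u a b) 0 (ev i) = D.κ1 i a b) (a b : Fin 3) (w : V2) :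
    fderiv ℝ (fun u => κ u a b) 0 w = kx D w a b := by
  conv_lhs => rw [v2_eq w]
  rw [map_add, map_smul, map_smul, h1, h1]
  rfl

theorem κ_dd {κ : V2 → M33} {D : PD} (hκ : ∀ a b, ContDiffAt ℝ 2 (fun u => κ u a b) 0)
    (h2 : ∀ i j a b, fderiv ℝ (fun u => fderiv ℝ (fun v => κ v a b) u (ev j)) 0 (ev i) = D.κ2 i j a b)
    (a b : Fin 3) (w w' : V2) :
    dd (fun u => κ u a b) 0 w w' = kxx D w w' a b := by
  have h2' : ∀ i j, dd (fun u => κ u a b) 0 (ev i) (ev j) = D.κ2 i j a b := fun i j => h2 i j a b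
  conv_lhs => rw [v2_eq w, v2_eq w']
  simp only [dd_add_left, dd_smul_left, dd_add_right (hκ a b), dd_smul_right (hκ a b), h2', kxx,
    Matrix.add_apply, Matrix.smul_apply, smul_eq_mul]
  ring

theorem qk_row (r : ℝ) (κ : V2 → M33) (u : V2) (v : V3) (i : Fin 3) :
    qk r κ u v i = r ^ 2 * v i + (-(r ^ 4 / 3)) * (v 0 * κ u i 0 + (v 1 * κ u i 1 + v 2 * κ u i 2)) := by
  rw [reg_qk_apply, Pi.smul_apply, Pi.sub_apply, Pi.smul_apply]
  simp only [Matrix.mulVec, dotProduct, Fin.sum_univ_three, smul_eq_mul]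
  ring

theorem qk_coeff (r : ℝ) (κ : V2 → M33) (v : V3) (i : Fin 3) :
    (fun u => ((ContinuousLinearMap.proj (R := ℝ) (φ := fun _ : Fin 3 => ℝ) i).comp
      (ContinuousLinearMap.apply ℝ V3 v)) (qk r κ u))
    = fun u => (r ^ 2 * v i) + (-(r ^ 4 / 3)) • (v 0 • κ u i 0 + (v 1 • κ u i 1 + v 2 • κ u i 2)) := by
  funext u
  exact qk_row r κ u v i

theorem qk_fderiv {κ : V2 → M33} {D : PD} (hκ : ∀ a b, ContDiffAt ℝ 2 (fun u => κ u a b) 0)
    (h1 : ∀ i a b, fderiv ℝ (fun u => κ u a b) 0 (ev i) = D.κ1 i a b) (r : ℝ) (w : V2) (v : V3) :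
    fderiv ℝ (qk r κ) 0 w v = Q1 r D w *ᵥ v := by
  have hq : ContDiffAt ℝ 2 (qk r κ) 0 := reg_contDiffAt_qk hκ
  ext i
  have e1 := (hasFDerivAt_clm (diff1 hq) ((ContinuousLinearMap.proj (R := ℝ) (φ := fun _ : Fin 3 => ℝ) i).comp
      (ContinuousLinearMap.apply ℝ V3 v))).fderiv
  have e2 : fderiv ℝ (qk r κ) 0 w v i = fderiv ℝ (fun u => ((ContinuousLinearMap.proj (R := ℝ)
      (φ := fun _ : Fin 3 => ℝ) i).comp (ContinuousLinearMap.apply ℝ V3 v)) (qk r κ u)) 0 w := by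
    rw [e1]; rfl
  rw [e2, qk_coeff]
  have hd : ∀ j, HasFDerivAt (fun u => κ u i j) (fderiv ℝ (fun u => κ u i j) 0) 0 :=
    fun j => (diff1 (hκ i j)).hasFDerivAt
  have h3 := (((hd 0).const_smul (v 0)).add (((hd 1).const_smul (v 1)).add
    ((hd 2).const_smul (v 2)))).const_smul (-(r ^ 4 / 3)) |>.const_add (r ^ 2 * v i)
  have h4 : HasFDerivAt (fun u => (r ^ 2 * v i) + (-(r ^ 4 / 3)) • (v 0 • κ u i 0 + (v 1 • κ u i 1 + v 2 • κ u i 2)))
    ((-(r ^ 4 / 3)) • (v 0 • fderiv ℝ (fun u => κ u i 0) 0 + (v 1 • fderiv ℝ (fun u => κ u i 1) 0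
      + v 2 • fderiv ℝ (fun u => κ u i 2) 0))) 0 := h3
  rw [h4.fderiv]
  simp only [_root_.add_apply, _root_.smul_apply, κ_fderiv h1, smul_eq_mul]
  simp only [Q1, Matrix.mulVec, dotProduct, Fin.sum_univ_three, Matrix.smul_apply, smul_eq_mul]
  ring

theorem qk_dd {κ : V2 → M33} {D : PD} (hκ : ∀ a b, ContDiffAt ℝ 2 (fun u => κ u a b) 0)
    (h2 : ∀ i j a b, fderiv ℝ (fun u => fderiv ℝ (fun v => κ v a b) u (ev j)) 0 (ev i) = D.κ2 i j a b)
    (r : ℝ) (w w' : V2) (v : V3) :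
    dd (qk r κ) 0 w w' v = Q2 r D w w' *ᵥ v := by
  have hq : ContDiffAt ℝ 2 (qk r κ) 0 := reg_contDiffAt_qk hκ
  ext i
  have e1 := dd_clm hq ((ContinuousLinearMap.proj (R := ℝ) (φ := fun _ : Fin 3 => ℝ) i).comp
      (ContinuousLinearMap.apply ℝ V3 v)) w w'
  have e2 : dd (qk r κ) 0 w w' v i = dd (fun u => ((ContinuousLinearMap.proj (R := ℝ)
      (φ := fun _ : Fin 3 => ℝ) i).comp (ContinuousLinearMap.apply ℝ V3 v)) (qk r κ u)) 0 w w' := by
    rw [e1]; rfl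
  rw [e2, qk_coeff]
  have c : ∀ (j : Fin 3), ContDiffAt ℝ 2 (fun u => v j • κ u i j) 0 := fun j =>
    (contDiffAt_const (c := v j)).smul (hκ i j)
  have c12 : ContDiffAt ℝ 2 (fun u => v 1 • κ u i 1 + v 2 • κ u i 2) 0 := (c 1).add (c 2)
  have c012 : ContDiffAt ℝ 2 (fun u => v 0 • κ u i 0 + (v 1 • κ u i 1 + v 2 • κ u i 2)) 0 := (c 0).add c12
  have c3 : ContDiffAt ℝ 2 (fun u => (-(r ^ 4 / 3)) • (v 0 • κ u i 0 + (v 1 • κ u i 1 + v 2 • κ u i 2))) 0 :=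
    (contDiffAt_const (c := -(r ^ 4 / 3))).smul c012
  rw [dd_add contDiffAt_const c3, dd_const, dd_const_smul c012, dd_add (c 0) c12, dd_add (c 1) (c 2),
    dd_const_smul (hκ i 0), dd_const_smul (hκ i 1), dd_const_smul (hκ i 2), κ_dd hκ h2, κ_dd hκ h2, κ_dd hκ h2]
  simp only [Q2, Matrix.mulVec, dotProduct, Fin.sum_univ_three, Matrix.smul_apply, smul_eq_mul]
  ring

/-! ### Second derivatives of the metric -/

variable {h : V2 → V2 →L[ℝ] V2 →L[ℝ] ℝ} {A : V2 → V2 →L[ℝ] V3} {κ : V2 → M33} {D : PD}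

theorem m2_two_le_top : (2 : WithTop ℕ∞) ≤ ((⊤ : ℕ∞) : WithTop ℕ∞) := by
  have h : ((2 : ℕ∞) : WithTop ℕ∞) ≤ ((⊤ : ℕ∞) : WithTop ℕ∞) := WithTop.coe_le_coe.2 le_top
  exact h

theorem cd_h (had : Adapted h A κ D) : ContDiffAt ℝ 2 h 0 :=
  (had.h_smooth.self_of_nhds).of_le m2_two_le_top

theorem cd_A (had : Adapted h A κ D) : ContDiffAt ℝ 2 A 0 :=
  (had.A_smooth.self_of_nhds).of_le m2_two_le_top

theorem cd_κ (had : Adapted h A κ D) (a b : Fin 3) : ContDiffAt ℝ 2 (fun u => κ u a b) 0 :=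
  ((had.κ_smooth a b).self_of_nhds).of_le m2_two_le_top

theorem cd_q (had : Adapted h A κ D) (r : ℝ) : ContDiffAt ℝ 2 (qk r κ) 0 :=
  reg_contDiffAt_qk (cd_κ had)

/-- `dA(x)y = F(x,y)/2` -/
theorem dA_eq (had : Adapted h A κ D) (x y : V2) :
    fderiv ℝ A 0 x y = (1 / 2 : ℝ) • (al x y • D.ρ) := by
  have h01 : fderiv ℝ A 0 e0 e1 = - fderiv ℝ A 0 e1 e0 := by
    have h1 := had.dA (e0 + e1)
    simp only [map_add, _root_.add_apply, had.dA, zero_add, add_zero] at h1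
    exact eq_neg_of_add_eq_zero_right h1
  have hF : fderiv ℝ A 0 e0 e1 = (1 / 2 : ℝ) • D.ρ := by
    have h1 := had.ρ
    rw [FA, had.A0, _root_.zero_apply, _root_.zero_apply, cross_self, add_zero, ← sub_eq_zero] at h1
    have h2 : fderiv ℝ A 0 e0 e1 - fderiv ℝ A 0 e1 e0 = (2 : ℝ) • fderiv ℝ A 0 e0 e1 := by
      rw [h01]; module
    rw [h2, sub_eq_zero] at h1
    rw [← h1]; module
  have hx : ∀ z : V2, z = z 0 • e0 + z 1 • e1 := by
    intro z
    ext i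
    fin_cases i <;> simp [e0, e1]
  conv_lhs => rw [hx x, hx y]
  simp only [map_add, map_smul, _root_.add_apply, _root_.smul_apply, had.dA, smul_zero, zero_add, add_zero]
  rw [← neg_eq_iff_eq_neg.mpr h01, hF, al]
  module

/-- second derivative of the connection form -/
noncomputable def AB (A : V2 → V2 →L[ℝ] V3) (w w' y : V2) : V3 := dd A 0 w w' y

theorem AB_comm (had : Adapted h A κ D) (w w' y : V2) : AB A w w' y = AB A w' w y := by
  rw [AB, AB, dd_comm (cd_A had)]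

theorem AB_anti (had : Adapted h A κ D) (w x y : V2) :
    AB A w x y - AB A w y x = al x y • (w 0 • D.Dρ 0 + w 1 • D.Dρ 1) := by
  have hA := cd_A had
  have hev : ∀ i, AB A (ev i) e0 e1 - AB A (ev i) e1 e0 = D.Dρ i := by
    intro i
    rw [← had.Dρ i]
    have hd : ∀ x y : V2, HasFDerivAt (fun u => fderiv ℝ A u x y)
        ((ContinuousLinearMap.apply ℝ V3 y).comp (fderiv ℝ (fun u => fderiv ℝ A u x) 0)) 0 := by
      intro x y
      exact (ContinuousLinearMap.apply ℝ V3 y).hasFDerivAt.comp (0 : V2) (diff_fderiv_apply hA x).hasFDerivAt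
    have hd' : ∀ x : V2, HasFDerivAt (fun u => A u x)
        ((ContinuousLinearMap.apply ℝ V3 x).comp (fderiv ℝ A 0)) 0 :=
      fun x => hasFDerivAt_clm (diff1 hA) (ContinuousLinearMap.apply ℝ V3 x)
    have hc : fderiv ℝ (fun u => crossL (A u e0) (A u e1)) 0 = 0 := by
      ext1 z
      rw [fderiv_bilin crossL (hd' e0).differentiableAt (hd' e1).differentiableAt]
      simp [had.A0]
    have hcd : DifferentiableAt ℝ (fun u => crossL (A u e0) (A u e1)) 0 :=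
      (crossL.hasFDerivAt_of_bilinear (hd' e0) (hd' e1)).differentiableAt
    have hF : HasFDerivAt (fun u => FA A u e0 e1)
        ((ContinuousLinearMap.apply ℝ V3 e1).comp (fderiv ℝ (fun u => fderiv ℝ A u e0) 0)
        - (ContinuousLinearMap.apply ℝ V3 e0).comp (fderiv ℝ (fun u => fderiv ℝ A u e1) 0)
        + fderiv ℝ (fun u => crossL (A u e0) (A u e1)) 0) 0 :=
      ((hd e0 e1).sub (hd e1 e0)).add hcd.hasFDerivAt
    rw [hF.fderiv, hc, add_zero]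
    rfl
  have hw : ∀ z : V2, z = z 0 • e0 + z 1 • e1 := by
    intro z
    ext i
    fin_cases i <;> simp [e0, e1]
  have l1 : ∀ (a b : ℝ) (w w' x y : V2), AB A (a • w + b • w') x y = a • AB A w x y + b • AB A w' x y := by
    intro a b w w' x y
    simp only [AB, dd_add_left, dd_smul_left, _root_.add_apply, _root_.smul_apply]
  have l2 : ∀ (a b : ℝ) (w x x' y : V2), AB A w (a • x + b • x') y = a • AB A w x y + b • AB A w x' y := by
    intro a b w w' x y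
    simp only [AB, dd_add_right hA, dd_smul_right hA, _root_.add_apply, _root_.smul_apply]
  have l3 : ∀ (a b : ℝ) (w x y y' : V2), AB A w x (a • y + b • y') = a • AB A w x y + b • AB A w x y' := by
    intro a b w w' x y
    simp only [AB, map_add, map_smul]
  rw [← hev 0, ← hev 1]
  conv_lhs => rw [v2_eq w, hw x, hw y]
  simp only [l1, l2, l3, al]
  module

/-- `U1 X Y = dU_Y(X)` -/
noncomputable def U1 (D : PD) (X Y : V2 × V3) : V3 :=
  (1 / 2 : ℝ) • (X.2 ⨯₃ Y.2 + al X.1 Y.1 • D.ρ)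

/-- `U2 X X' Y = d²U_Y(X,X')` -/
noncomputable def U2 (A : V2 → V2 →L[ℝ] V3) (X X' Y : V2 × V3) : V3 :=
  (-(1 / 2 * (X.2 ⬝ᵥ X'.2))) • Y.2 + AB A X.1 X'.1 Y.1

theorem UX_fderiv_eq (had : Adapted h A κ D) (X W : V2 × V3) :
    fderiv ℝ (UX A X) (0, 0) W = U1 D W X := by
  rw [UX_fderiv (cd_A had), dA_eq had, U1]
  module

theorem UX_dd_eq (had : Adapted h A κ D) (X W W' : V2 × V3) :
    dd (UX A X) (0, 0) W W' = U2 A W W' X := by
  rw [UX_dd (cd_A had), U2, AB, add_comm]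
  congr 2
  ring

theorem UX_zero (had : Adapted h A κ D) (X : V2 × V3) : UX A X (0, 0) = X.2 := by
  simp [UX, had.A0]

theorem qk_zero (had : Adapted h A κ D) (r : ℝ) (v : V3) : qk r κ 0 v = QM r D *ᵥ v := by
  rw [reg_qk_apply_mulVec, had.κ0, QM]

/-- The second derivatives of the metric of the principal bundle. -/
theorem D2_GP (had : Adapted h A κ D) (r : ℝ) (X X' Y Y' : V2 × V3) :
    D2 (GP h A (qk r κ)) (0, 0) X X' Y Y' = D2 h 0 X.1 X'.1 Y.1 Y'.1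
      + bf (Q2 r D X.1 X'.1) Y.2 Y'.2
      + bf (Q1 r D X.1) (U1 D X' Y) Y'.2 + bf (Q1 r D X.1) Y.2 (U1 D X' Y')
      + bf (Q1 r D X'.1) (U1 D X Y) Y'.2 + bf (Q1 r D X'.1) Y.2 (U1 D X Y')
      + bf (QM r D) (U1 D X Y) (U1 D X' Y') + bf (QM r D) (U1 D X' Y) (U1 D X Y')
      + bf (QM r D) (U2 A X X' Y) Y'.2 + bf (QM r D) Y.2 (U2 A X X' Y') := by
  have hh := cd_h had
  have hA := cd_A had
  have hq := cd_q had r
  have c1 : ContDiffAt ℝ 2 (fun u => h u Y.1 Y'.1) 0 := contDiffAt_coeff hh _ _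
  have c1' : ContDiffAt ℝ 2 (fun p : V2 × V3 => h p.1 Y.1 Y'.1) (0, 0) :=
    contDiffAt_fst' (f := fun u => h u Y.1 Y'.1) (p := ((0 : V2), (0 : V3))) c1
  have cU : ∀ X : V2 × V3, ContDiffAt ℝ 2 (UX A X) (0, 0) :=
    fun X => UX_contDiffAt (p := ((0 : V2), (0 : V3))) hA X
  have cq : ContDiffAt ℝ 2 (fun p : V2 × V3 => qk r κ p.1) (0, 0) :=
    contDiffAt_fst' (f := qk r κ) (p := ((0 : V2), (0 : V3))) hq
  have c2 : ContDiffAt ℝ 2 (fun p : V2 × V3 => UX A Y p ⬝ᵥ qk r κ p.1 (UX A Y' p)) (0, 0) := by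
    have h1 : ContDiffAt ℝ 2 (fun p : V2 × V3 => dotL (UX A Y p) (qk r κ p.1 (UX A Y' p))) (0, 0) :=
      (dotL.contDiff.contDiffAt.comp _ (cU Y)).clm_apply (cq.clm_apply (cU Y'))
    exact h1
  have e0 : D2 (GP h A (qk r κ)) (0, 0) X X' Y Y'
      = dd (fun p : V2 × V3 => h p.1 Y.1 Y'.1 + UX A Y p ⬝ᵥ qk r κ p.1 (UX A Y' p)) (0, 0) X X' := rfl
  rw [e0, dd_add c1' c2, dd_fst (f := fun u => h u Y.1 Y'.1) (p := ((0 : V2), (0 : V3))) c1,
    dd_trip (cU Y) cq (cU Y')]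
  simp only [UX_fderiv_eq had, UX_dd_eq had, UX_zero had,
    fderiv_fst (f := qk r κ) (p := ((0 : V2), (0 : V3))) (diff1 hq),
    dd_fst (f := qk r κ) (p := ((0 : V2), (0 : V3))) hq,
    qk_fderiv (cd_κ had) had.κ1, qk_dd (cd_κ had) had.κ2, qk_zero had, bf]
  have e1 : dd (fun u => h u Y.1 Y'.1) 0 X.1 X'.1 = D2 h 0 X.1 X'.1 Y.1 Y'.1 := rfl
  rw [e1]
  ring

/-- The same, in the notation of `M2b`. -/
theorem D2_GP_DD (had : Adapted h A κ D) (r : ℝ) (x : V2) (ξ : V3) (x' : V2) (ξ' : V3) (y : V2) (η : V3)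
    (y' : V2) (η' : V3) :
    D2 (GP h A (qk r κ)) (0, 0) (x, ξ) (x', ξ') (y, η) (y', η')
      = M2b.DD (fun x x' y y' => D2 h 0 x x' y y') D.ρ
          (fun x x' y => fderiv ℝ (fun u => fderiv ℝ A u x') 0 x y)
          (M2b.Qr r D) (M2b.Qr1 r D) (M2b.Qr2 r D) x ξ x' ξ' y η y' η' := by
  have h1 : ∀ x : V2, M2b.m1 (M2b.Qr1 r D) x = Q1 r D x := by
    intro x
    simp only [M2b.m1, M2b.Qr1, Q1, kx]
    module
  have h2 : ∀ x x' : V2, M2b.m2 (M2b.Qr2 r D) x x' = Q2 r D x x' := by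
    intro x x'
    simp only [M2b.m2, M2b.Qr2, Q2, kxx]
    module
  rw [D2_GP had, M2b.DD, h1, h1, h2]
  rfl

/-- The combination of second derivatives of `h`. -/
theorem D2_h_comb (had : Adapted h A κ D) (x y : V2) :
    -(1 / 2) * (D2 h 0 x x y y + D2 h 0 y y x x - 2 * D2 h 0 x y x y) = D.K * al x y ^ 2 := by
  have hh := cd_h had
  have hs : SymmNear h 0 := by
    filter_upwards [had.h_inner] with u hu
    exact hu.symm
  have hi : IsInner (h 0) := had.h_inner.self_of_nhds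
  have hG : ∀ x y : V2, Gam h 0 x y = 0 := by
    intro x y
    ext z
    rw [Gam_apply (diff1 hh), D1_fderiv (diff1 hh), D1_fderiv (diff1 hh), D1_fderiv (diff1 hh), had.dh]
    simp
  have h1 : ∀ x y : V2, Rm h 0 x y = -(1 / 2) * (D2 h 0 x x y y + D2 h 0 y y x x - 2 * D2 h 0 x y x y) := by
    intro x y
    rw [Rm, hG, hG, hG]
    simp
  have hw : ∀ z : V2, z = z 0 • e0 + z 1 • e1 := by
    intro z
    ext i
    fin_cases i <;> simp [e0, e1]
  rw [← h1, ← had.K]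
  conv_lhs => rw [hw x, hw y]
  rw [Rm_plane hh hs hi, al]
  ring

end Pool.Agent.HS.M2a
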