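import Pool.Agent.HS.Reg

/-!
# Block M2, part c: Christoffel covectors of `GP` and the inner product of covectors at `(0,0)`

With `Q0 = r² (1 - (r²/3) κ)`, `Q1 x = ∂_x Q`, for `X = (x, ξ)`, `Y = (y, η)`:

* `Gam_base`: `Γ(X,Y)(z,0) = (1/2) (Q0 (al x z ρ) η + Q0 (al y z ρ) ξ - Q1_z ξ η)`;
* `Gam_fib`: `Γ(X,Y)(0,ζ) = ζ · gG`, `gG = (1/2) (Q1_x η + Q1_y ξ + Q0 η × ξ + Q0 ξ × η)`;
* `cov_GP`: `⟨α, β⟩ = Σ_e α(e,0) β(e,0) + r⁻² a · S b` if `α(0,ζ) = ζ·a`, `β(0,ζ) = ζ·b`.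
-/

set_option autoImplicit false
set_option maxSynthPendingDepth 3

namespace Pool.Agent.HS.M2c

open Matrix Topology Filter

/-- the matrix of `Q` at `0` -/
noncomputable def Q0 (r : ℝ) (D : PD) : M33 := (r ^ 2) • ((1 : M33) - (r ^ 2 / 3) • D.κ)

/-- the first derivative of `Q` at `0` in direction `x` -/
noncomputable def Q1 (r : ℝ) (D : PD) (x : V2) : M33 := (-(r ^ 4 / 3)) • kx D x

/-- the fibre part of `Γ(X,Y)` -/
noncomputable def gG (r : ℝ) (D : PD) (x : V2) (ξ : V3) (y : V2) (η : V3) : V3 :=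
  (1 / 2 : ℝ) • (Q1 r D x *ᵥ η + Q1 r D y *ᵥ ξ + (Q0 r D *ᵥ η) ⨯₃ ξ + (Q0 r D *ᵥ ξ) ⨯₃ η)

theorem V2_eq (x : V2) : x = x 0 • e0 + x 1 • e1 := by
  ext i
  fin_cases i <;> simp [e0, e1]

theorem ev_zero : ev 0 = e0 := by
  ext i
  fin_cases i <;> simp [e0, ev]

theorem ev_one : ev 1 = e1 := by
  ext i
  fin_cases i <;> simp [e1, ev]

variable {h : V2 → V2 →L[ℝ] V2 →L[ℝ] ℝ} {A : V2 → V2 →L[ℝ] V3} {κ : V2 → M33} {D : PD}
  {r : ℝ}

theorem two_le_top : (2 : WithTop ℕ∞) ≤ ((⊤ : ℕ∞) : WithTop ℕ∞) :=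
  WithTop.coe_le_coe.2 (le_top : (2 : ℕ∞) ≤ ⊤)

theorem h_cd (hA : Adapted h A κ D) : ContDiffAt ℝ 2 h 0 :=
  hA.h_smooth.self_of_nhds.of_le two_le_top

theorem A_cd (hA : Adapted h A κ D) : ContDiffAt ℝ 2 A 0 :=
  hA.A_smooth.self_of_nhds.of_le two_le_top

theorem κ_cd (hA : Adapted h A κ D) (a b : Fin 3) : ContDiffAt ℝ 2 (fun u => κ u a b) 0 :=
  (hA.κ_smooth a b).self_of_nhds.of_le two_le_top

theorem qk_cd (hA : Adapted h A κ D) (r : ℝ) : ContDiffAt ℝ 2 (qk r κ) 0 :=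
  reg_contDiffAt_qk fun a b => κ_cd hA a b

theorem GP_cd (hA : Adapted h A κ D) (r : ℝ) : ContDiffAt ℝ 2 (GP h A (qk r κ)) (0, 0) :=
  contDiffAt_GP (h_cd hA) (A_cd hA) (qk_cd hA r)

/-- the first derivative of the connection form in the radial gauge -/
theorem A_fderiv (hA : Adapted h A κ D) (x y : V2) :
    fderiv ℝ A 0 x y = (1 / 2 : ℝ) • (al x y • D.ρ) := by
  have hd := hA.dA
  have h10 : fderiv ℝ A 0 e1 e0 = -fderiv ℝ A 0 e0 e1 := by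
    have h1 := hd (e0 + e1)
    simp only [map_add, _root_.add_apply, hd, zero_add, add_zero] at h1
    exact eq_neg_of_add_eq_zero_left (by rw [add_comm] at h1; rw [add_comm]; exact h1)
  have h2 : fderiv ℝ A 0 e0 e1 = (1 / 2 : ℝ) • D.ρ := by
    have h3 := hA.ρ
    unfold FA at h3
    rw [hA.A0, h10] at h3
    rw [← h3]
    simp only [_root_.zero_apply, map_zero, add_zero, sub_neg_eq_add]
    rw [← two_smul ℝ, smul_smul]
    norm_num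
  conv_lhs => rw [V2_eq x, V2_eq y]
  simp only [map_add, map_smul, _root_.add_apply, _root_.smul_apply, hd, h10, h2, al]
  module

theorem cayE_fderiv0 (b c : V3) : fderiv ℝ cayE 0 b c = (1 / 2 : ℝ) • (b ⨯₃ c) := by
  rw [← cayE_fderiv_zero]
  have h5 := (((cayE_contDiff (n := 1)).differentiable (by norm_num)) 0).hasFDerivAt.clm_apply
      (hasFDerivAt_const c (0 : V3))
  rw [h5.fderiv]
  simp

/-- the derivative of `U` at `(0,0)` -/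
theorem U_hasFDerivAt (hA : DifferentiableAt ℝ A 0) (Y : V2 × V3) :
    HasFDerivAt (fun p : V2 × V3 => A p.1 Y.1 + cayE p.2 Y.2)
      (((ContinuousLinearMap.apply ℝ V3 Y.1).comp (fderiv ℝ A 0)).comp
          (ContinuousLinearMap.fst ℝ V2 V3)
        + (fderiv ℝ (fun a => cayE a Y.2) 0).comp (ContinuousLinearMap.snd ℝ V2 V3)) (0, 0) := by
  refine HasFDerivAt.add ?_ ?_
  · have h1 : HasFDerivAt (fun u : V2 => A u Y.1)
        ((ContinuousLinearMap.apply ℝ V3 Y.1).comp (fderiv ℝ A 0)) 0 :=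
      (ContinuousLinearMap.apply ℝ V3 Y.1).hasFDerivAt.comp 0 hA.hasFDerivAt
    exact h1.comp ((0 : V2), (0 : V3)) (hasFDerivAt_fst (𝕜 := ℝ) (E := V2) (F := V3))
  · have h1 : HasFDerivAt (fun a : V3 => cayE a Y.2) (fderiv ℝ (fun a => cayE a Y.2) 0) 0 :=
      (cayE_hasFDerivAt 0 Y.2).differentiableAt.hasFDerivAt
    exact h1.comp ((0 : V2), (0 : V3)) (hasFDerivAt_snd (𝕜 := ℝ) (E := V2) (F := V3))

/-- first derivatives of the coefficients of `GP` at `(0,0)` -/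
theorem D1_GP {q : V2 → V3 →L[ℝ] V3} (hh : DifferentiableAt ℝ h 0) (hA : DifferentiableAt ℝ A 0)
    (hq : DifferentiableAt ℝ q 0) (A0 : A 0 = 0) (X Y Z : V2 × V3) :
    D1 (GP h A q) (0, 0) X Y Z = fderiv ℝ h 0 X.1 Y.1 Z.1
      + (fderiv ℝ A 0 X.1 Y.1 + (1 / 2 : ℝ) • (X.2 ⨯₃ Y.2)) ⬝ᵥ q 0 Z.2
      + Y.2 ⬝ᵥ fderiv ℝ q 0 X.1 Z.2
      + Y.2 ⬝ᵥ q 0 (fderiv ℝ A 0 X.1 Z.1 + (1 / 2 : ℝ) • (X.2 ⨯₃ Z.2)) := by
  have h0 : HasFDerivAt (fun u : V2 => h u Y.1 Z.1) ((ev2 Y.1 Z.1).comp (fderiv ℝ h 0)) 0 :=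
    hasFDerivAt_coeff hh Y.1 Z.1
  have h1 : HasFDerivAt (fun p : V2 × V3 => h p.1 Y.1 Z.1)
      (((ev2 Y.1 Z.1).comp (fderiv ℝ h 0)).comp (ContinuousLinearMap.fst ℝ V2 V3)) (0, 0) :=
    HasFDerivAt.comp (g := fun u : V2 => h u Y.1 Z.1) (f := fun p : V2 × V3 => p.1)
      ((0 : V2), (0 : V3)) h0 (hasFDerivAt_fst (𝕜 := ℝ) (E := V2) (F := V3))
  have h2 := U_hasFDerivAt hA Y
  have h3 := U_hasFDerivAt hA Z
  have h4 : HasFDerivAt (fun p : V2 × V3 => q p.1)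
      ((fderiv ℝ q 0).comp (ContinuousLinearMap.fst ℝ V2 V3)) (0, 0) :=
    hq.hasFDerivAt.comp ((0 : V2), (0 : V3)) (hasFDerivAt_fst (𝕜 := ℝ) (E := V2) (F := V3))
  have h5 := h4.clm_apply h3
  have h6 := dotL.hasFDerivAt_of_bilinear h2 h5
  have h7 := h1.add h6
  have h8 : (fun p : V2 × V3 => GP h A q p Y Z) = (fun p : V2 × V3 => h p.1 Y.1 Z.1)
      + fun p : V2 × V3 => dotL (A p.1 Y.1 + cayE p.2 Y.2)
        (q p.1 (A p.1 Z.1 + cayE p.2 Z.2)) := rfl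
  unfold D1
  rw [h8, h7.fderiv]
  change fderiv ℝ h 0 X.1 Y.1 Z.1
    + (((A 0 Y.1 + cayE 0 Y.2) ⬝ᵥ (q 0 (fderiv ℝ A 0 X.1 Z.1 + fderiv ℝ (fun a => cayE a Z.2) 0 X.2)
        + fderiv ℝ q 0 X.1 (A 0 Z.1 + cayE 0 Z.2)))
      + (fderiv ℝ A 0 X.1 Y.1 + fderiv ℝ (fun a => cayE a Y.2) 0 X.2) ⬝ᵥ
        (q 0 (A 0 Z.1 + cayE 0 Z.2))) = _
  simp only [A0, cayE_zero, _root_.zero_apply, zero_add, cayE_fderiv_zero, dotProduct_add]
  ring

/-- the derivative of the entries of `κ` -/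
theorem κ_fderiv (hA : Adapted h A κ D) (a b : Fin 3) (x : V2) :
    fderiv ℝ (fun u => κ u a b) 0 x = kx D x a b := by
  have h0 := hA.κ1 0 a b
  have h1 := hA.κ1 1 a b
  rw [ev_zero] at h0
  rw [ev_one] at h1
  conv_lhs => rw [V2_eq x]
  rw [map_add, map_smul, map_smul, h0, h1]
  rfl

/-- the operator `Q` at `0` -/
theorem qk_zero (hA : Adapted h A κ D) (r : ℝ) (ζ : V3) : qk r κ 0 ζ = Q0 r D *ᵥ ζ := by
  rw [reg_qk_apply_mulVec, hA.κ0]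
  rfl

/-- the first derivative of the operator `Q` at `0` -/
theorem qk_fderiv (hA : Adapted h A κ D) (r : ℝ) (x : V2) (ζ : V3) :
    fderiv ℝ (qk r κ) 0 x ζ = Q1 r D x *ᵥ ζ := by
  have h1 : HasFDerivAt (fun u => qk r κ u ζ) ((fderiv ℝ (qk r κ) 0).flip ζ) 0 := by
    have h2 := (diff1 (qk_cd hA r)).hasFDerivAt.clm_apply (hasFDerivAt_const ζ (0 : V2))
    refine h2.congr_fderiv ?_
    ext1 x
    simp
  have h3 : ∀ i, HasFDerivAt (fun u => qk r κ u ζ i)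
      (∑ j, (-(r ^ 4 / 3) * ζ j) • fderiv ℝ (fun u => κ u i j) 0) 0 := by
    intro i
    have h4 : (fun u => qk r κ u ζ i) = fun u => r ^ 2 * ζ i
        + ∑ j, (-(r ^ 4 / 3) * ζ j) * κ u i j := by
      funext u
      rw [reg_qk_apply]
      simp only [Pi.smul_apply, Pi.sub_apply, smul_eq_mul, mulVec, dotProduct, mul_sub,
        Fin.sum_univ_three]
      ring
    rw [h4]
    refine HasFDerivAt.const_add _ ?_
    refine HasFDerivAt.fun_sum fun j _ => ?_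
    exact (diff1 (κ_cd hA i j)).hasFDerivAt.const_mul _
  ext i
  have h5 : HasFDerivAt (fun u => qk r κ u ζ i)
      ((ContinuousLinearMap.proj (R := ℝ) (φ := fun _ : Fin 3 => ℝ) i).comp
        ((fderiv ℝ (qk r κ) 0).flip ζ)) 0 :=
    (ContinuousLinearMap.proj (R := ℝ) (φ := fun _ : Fin 3 => ℝ) i).hasFDerivAt.comp 0 h1
  have h6 := congrArg (fun L : V2 →L[ℝ] ℝ => L x) (h5.unique (h3 i))
  change fderiv ℝ (qk r κ) 0 x ζ i = _ at h6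
  rw [h6]
  simp only [_root_.sum_apply, _root_.smul_apply, κ_fderiv hA, smul_eq_mul, Q1,
    Matrix.smul_apply, mulVec, dotProduct]
  refine Finset.sum_congr rfl fun j _ => ?_
  ring

/-- the first derivatives of the coefficients of `GP` at `(0,0)`, adapted data -/
theorem D1_eq (hA : Adapted h A κ D) (r : ℝ) (x : V2) (ξ : V3) (y : V2) (η : V3) (z : V2)
    (ζ : V3) : D1 (GP h A (qk r κ)) (0, 0) (x, ξ) (y, η) (z, ζ) =
      ((1 / 2 : ℝ) • (ξ ⨯₃ η + al x y • D.ρ)) ⬝ᵥ (Q0 r D *ᵥ ζ) + η ⬝ᵥ (Q1 r D x *ᵥ ζ)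
        + η ⬝ᵥ (Q0 r D *ᵥ ((1 / 2 : ℝ) • (ξ ⨯₃ ζ + al x z • D.ρ))) := by
  rw [D1_GP (diff1 (h_cd hA)) (diff1 (A_cd hA)) (diff1 (qk_cd hA r)) hA.A0, hA.dh]
  simp only [qk_zero hA, qk_fderiv hA, A_fderiv hA, _root_.zero_apply, zero_add]
  rw [← smul_add, ← smul_add, add_comm (al x y • D.ρ), add_comm (al x z • D.ρ)]

theorem al_self (x : V2) : al x x = 0 := by
  unfold al
  ring

theorem al_swap (x y : V2) : al y x = -al x y := by
  unfold al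
  ring

theorem κ_symm0 (hA : Adapted h A κ D) : D.κ.IsSymm := by
  rw [← hA.κ0]
  exact hA.κ_symm.self_of_nhds

theorem Q0_symm (hA : Adapted h A κ D) (r : ℝ) : (Q0 r D).IsSymm := by
  unfold Q0 Matrix.IsSymm
  rw [transpose_smul, transpose_sub, transpose_one, transpose_smul, (κ_symm0 hA).eq]

/-- `κ_e` is symmetric -/
theorem kx_symm (hA : Adapted h A κ D) (x : V2) : (kx D x).IsSymm := by
  ext a b
  rw [transpose_apply, ← κ_fderiv hA, ← κ_fderiv hA]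
  have h1 : (fun u => κ u b a) =ᶠ[𝓝 (0 : V2)] fun u => κ u a b := by
    filter_upwards [hA.κ_symm] with u hu
    exact hu.apply a b
  rw [h1.fderiv_eq]

theorem Q1_symm (hA : Adapted h A κ D) (r : ℝ) (x : V2) : (Q1 r D x).IsSymm := by
  unfold Q1 Matrix.IsSymm
  rw [transpose_smul, (kx_symm hA x).eq]

theorem symm_bf {M : M33} (hM : M.IsSymm) (u v : V3) : bf M u v = bf M v u := by
  unfold bf
  rw [mulVec_symm hM, dotProduct_comm]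

/-- the Christoffel covector -/
theorem Gam_eq (hA : Adapted h A κ D) (r : ℝ) (x : V2) (ξ : V3) (y : V2) (η : V3) (z : V2)
    (ζ : V3) : Gam (GP h A (qk r κ)) (0, 0) (x, ξ) (y, η) (z, ζ) =
      (1 / 2) * (bf (Q0 r D) (ξ ⨯₃ ζ + al x z • D.ρ) η + bf (Q0 r D) (η ⨯₃ ζ + al y z • D.ρ) ξ
        + bf (Q1 r D x) η ζ + bf (Q1 r D y) ξ ζ - bf (Q1 r D z) ξ η) := by
  rw [Gam_apply (diff1 (GP_cd hA r)), D1_eq hA, D1_eq hA, D1_eq hA, al_swap x y, al_swap x z,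
    al_swap y z, ← cross_anticomm ξ η, ← cross_anticomm ζ ξ, ← cross_anticomm ζ η]
  have e0 := symm_bf (Q0_symm hA r) (ζ ⨯₃ ξ) η
  have e1 := symm_bf (Q0_symm hA r) (ζ ⨯₃ η) ξ
  have e2 := symm_bf (Q0_symm hA r) D.ρ η
  have e3 := symm_bf (Q0_symm hA r) D.ρ ξ
  unfold bf at *
  simp only [mulVec_add, mulVec_smul, mulVec_neg, dotProduct_add, add_dotProduct,
    dotProduct_smul, smul_dotProduct, neg_dotProduct, dotProduct_neg, smul_eq_mul, neg_smul,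
    smul_add, smul_neg]
  linear_combination (1 / 4) * e0 + (1 / 2) * e1 - (1 / 4) * al x z * e2 - (1 / 2) * al y z * e3

/-- the base part of the Christoffel covector -/
theorem Gam_base (hA : Adapted h A κ D) (r : ℝ) (x : V2) (ξ : V3) (y : V2) (η : V3) (z : V2) :
    Gam (GP h A (qk r κ)) (0, 0) (x, ξ) (y, η) (z, 0) =
      (1 / 2) * (bf (Q0 r D) (al x z • D.ρ) η + bf (Q0 r D) (al y z • D.ρ) ξ
        - bf (Q1 r D z) ξ η) := by
  rw [Gam_eq hA]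
  simp [bf]

/-- the fibre part of the Christoffel covector -/
theorem Gam_fib (hA : Adapted h A κ D) (r : ℝ) (x : V2) (ξ : V3) (y : V2) (η : V3) (ζ : V3) :
    Gam (GP h A (qk r κ)) (0, 0) (x, ξ) (y, η) (0, ζ) = ζ ⬝ᵥ gG r D x ξ y η := by
  rw [Gam_eq hA]
  have e0 : ∀ z : V2, z = 0 → (∀ w : V2, al w z = 0) ∧ Q1 r D z = 0 := by
    rintro z rfl
    refine ⟨fun w => by simp [al], ?_⟩
    simp [Q1, kx]
  rw [(e0 0 rfl).1 x, (e0 0 rfl).1 y, (e0 0 rfl).2]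
  have e1 := symm_bf (Q1_symm hA r x) η ζ
  have e2 := symm_bf (Q1_symm hA r y) ξ ζ
  have e3 : (ξ ⨯₃ ζ) ⬝ᵥ (Q0 r D *ᵥ η) = ζ ⬝ᵥ ((Q0 r D *ᵥ η) ⨯₃ ξ) := by
    rw [dotProduct_comm, triple_product_permutation, triple_product_permutation]
  have e4 : (η ⨯₃ ζ) ⬝ᵥ (Q0 r D *ᵥ ξ) = ζ ⬝ᵥ ((Q0 r D *ᵥ ξ) ⨯₃ η) := by
    rw [dotProduct_comm, triple_product_permutation, triple_product_permutation]
  rw [e1, e2]
  unfold bf gG
  simp only [zero_smul, add_zero, Matrix.zero_mulVec, dotProduct_zero, sub_zero, dotProduct_smul,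
    dotProduct_add, smul_eq_mul, e3, e4]
  ring

/-- `G(0,0)` is positive definite -/
theorem GP_inner (hA : Adapted h A κ D) (hr : 0 < r)
    (hp : ∀ u : V3, u ≠ 0 → 0 < bf (1 - (r ^ 2 / 3) • D.κ) u u) :
    IsInner (GP h A (qk r κ) (0, 0)) := by
  refine isInner_GP hA.h_inner.self_of_nhds (fun x y => ?_) (fun x hx => ?_)
  · exact reg_qk_symm hA.κ_symm.self_of_nhds x y
  · refine reg_qk_pos hr.ne' ?_ x hx
    change ∀ v : V3, v ≠ 0 → 0 < bf (1 - (r ^ 2 / 3) • κ 0) v v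
    rw [hA.κ0]
    exact hp

/-- the inner product of covectors at `(0,0)` -/
theorem cov_GP (hA : Adapted h A κ D) (hr : 0 < r)
    (hp : ∀ u : V3, u ≠ 0 → 0 < bf (1 - (r ^ 2 / 3) • D.κ) u u) {S : M33}
    (hS : (1 - (r ^ 2 / 3) • D.κ) * S = 1) {α β : V2 × V3 →L[ℝ] ℝ} {a b : V3}
    (ha : ∀ ζ : V3, α (0, ζ) = ζ ⬝ᵥ a) (hb : ∀ ζ : V3, β (0, ζ) = ζ ⬝ᵥ b) :
    cov (GP h A (qk r κ) (0, 0)) α β = α (ev 0, 0) * β (ev 0, 0) + α (ev 1, 0) * β (ev 1, 0)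
      + bf ((r ^ 2)⁻¹ • S) a b := by
  have hr2 : (r ^ 2 : ℝ) ≠ 0 := (pow_pos hr 2).ne'
  have hsplit : ∀ (γ : V2 × V3 →L[ℝ] ℝ) (z : V2) (ζ : V3),
      γ (z, ζ) = z 0 * γ (ev 0, 0) + z 1 * γ (ev 1, 0) + γ (0, ζ) := by
    intro γ z ζ
    have h1 : ((z, ζ) : V2 × V3) = z 0 • (ev 0, 0) + z 1 • (ev 1, 0) + (0, ζ) := by
      rw [ev_zero, ev_one]
      refine Prod.ext ?_ ?_
      · simp only [Prod.fst_add, Prod.smul_fst, add_zero]
        exact V2_eq z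
      · simp
    conv_lhs => rw [h1]
    rw [map_add, map_add, map_smul, map_smul, smul_eq_mul, smul_eq_mul]
  have hsh : sharp (GP h A (qk r κ) (0, 0)) β
      = (β (ev 0, 0) • e0 + β (ev 1, 0) • e1, ((r ^ 2)⁻¹ • S) *ᵥ b) := by
    refine sharp_eq_of (GP_inner hA hr hp) ?_
    rintro ⟨z, ζ⟩
    rw [GP_apply]
    change h 0 (β (ev 0, 0) • e0 + β (ev 1, 0) • e1) z
      + (A 0 (β (ev 0, 0) • e0 + β (ev 1, 0) • e1) + cayE 0 (((r ^ 2)⁻¹ • S) *ᵥ b)) ⬝ᵥ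
        qk r κ 0 (A 0 z + cayE 0 ζ) = _
    rw [hA.A0, hA.h0, cayE_zero, cayE_zero, hsplit β z ζ, hb]
    simp only [_root_.zero_apply, zero_add]
    rw [qk_zero hA, mulVec_symm (Q0_symm hA r), mulVec_mulVec]
    have h2 : Q0 r D * ((r ^ 2)⁻¹ • S) = 1 := by
      unfold Q0
      rw [Matrix.smul_mul, Matrix.mul_smul, hS, smul_smul, mul_inv_cancel₀ hr2, one_smul]
    rw [h2, Matrix.one_mulVec, dotProduct_comm b ζ]
    congr 1
    simp [dotProduct, Fin.sum_univ_two, e0, e1]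
    ring
  unfold cov
  rw [hsh, hsplit α, ha, dotProduct_comm]
  simp [bf, e0, e1]
  ring

end Pool.Agent.HS.M2c
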