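import Pool.Agent.HS.M2b
import Pool.Agent.HS.M2c

/-!
# Block M2: `Gam` and `cov` in the notation of `M2b`
-/

set_option autoImplicit false
set_option maxSynthPendingDepth 3

namespace Pool.Agent.HS.M2c

open Matrix Topology Filter

variable {h : V2 → V2 →L[ℝ] V2 →L[ℝ] ℝ} {A : V2 → V2 →L[ℝ] V3} {κ : V2 → M33} {D : PD}
  {r : ℝ}

theorem Q0_eq (r : ℝ) (D : PD) : Q0 r D = M2b.Qr r D := rfl

theorem Q1_eq (r : ℝ) (D : PD) (x : V2) : Q1 r D x = M2b.m1 (M2b.Qr1 r D) x := by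
  unfold Q1 kx M2b.m1 M2b.Qr1
  module

theorem Q1_ev (r : ℝ) (D : PD) (e : Fin 2) : Q1 r D (Pi.single e 1) = M2b.Qr1 r D e := by
  rw [Q1_eq]
  unfold M2b.m1
  fin_cases e <;> simp

theorem Gam_gE (hA : Adapted h A κ D) (r : ℝ) (x : V2) (ξ : V3) (y : V2) (η : V3) (e : Fin 2) :
    Gam (GP h A (qk r κ)) (0, 0) (x, ξ) (y, η) (Pi.single e 1, 0)
      = M2b.gE D.ρ (M2b.Qr r D) (M2b.Qr1 r D) x ξ y η e := by
  rw [Gam_base hA, Q1_ev]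
  rfl

theorem Gam_gF (hA : Adapted h A κ D) (r : ℝ) (x : V2) (ξ : V3) (y : V2) (η : V3) (ζ : V3) :
    Gam (GP h A (qk r κ)) (0, 0) (x, ξ) (y, η) (0, ζ)
      = ζ ⬝ᵥ M2b.gF (M2b.Qr r D) (M2b.Qr1 r D) x ξ y η := by
  rw [Gam_fib hA, gG, Q1_eq, Q1_eq]
  rfl

/-- products of two Christoffel covectors -/
theorem cov_Gam (hA : Adapted h A κ D) (hr : 0 < r)
    (hp : ∀ u : V3, u ≠ 0 → 0 < bf (1 - (r ^ 2 / 3) • D.κ) u u) {S : M33}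
    (hS : (1 - (r ^ 2 / 3) • D.κ) * S = 1) (x : V2) (ξ : V3) (y : V2) (η : V3)
    (x' : V2) (ξ' : V3) (y' : V2) (η' : V3) :
    cov (GP h A (qk r κ) (0, 0)) (Gam (GP h A (qk r κ)) (0, 0) (x, ξ) (y, η))
        (Gam (GP h A (qk r κ)) (0, 0) (x', ξ') (y', η')) =
      (M2b.gE D.ρ (M2b.Qr r D) (M2b.Qr1 r D) x ξ y η 0
          * M2b.gE D.ρ (M2b.Qr r D) (M2b.Qr1 r D) x' ξ' y' η' 0
        + M2b.gE D.ρ (M2b.Qr r D) (M2b.Qr1 r D) x ξ y η 1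
          * M2b.gE D.ρ (M2b.Qr r D) (M2b.Qr1 r D) x' ξ' y' η' 1)
      + bf ((r ^ 2)⁻¹ • S) (M2b.gF (M2b.Qr r D) (M2b.Qr1 r D) x ξ y η)
        (M2b.gF (M2b.Qr r D) (M2b.Qr1 r D) x' ξ' y' η') := by
  rw [cov_GP hA hr hp hS (Gam_gF hA r x ξ y η) (Gam_gF hA r x' ξ' y' η')]
  rw [show (ev 0 : V2) = Pi.single 0 1 from rfl, show (ev 1 : V2) = Pi.single 1 1 from rfl,
    Gam_gE hA, Gam_gE hA, Gam_gE hA, Gam_gE hA]

end Pool.Agent.HS.M2c
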