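import Pool.Agent.HS.M2b
import Pool.Agent.HS.Reg
import Pool.Agent.HS.Cay2
import Pool.Agent.HS.Basic

/-!
# Block M2, side conditions: consequences of `Adapted`
-/

set_option maxSynthPendingDepth 3

namespace Pool.Agent.HS.M2s

open Matrix Topology Filter Pool.Agent.HS Pool.Agent.HS.M2b

variable {h : V2 → V2 →L[ℝ] V2 →L[ℝ] ℝ} {A : V2 → V2 →L[ℝ] V3} {κ : V2 → M33} {D : PD}

theorem two_le_sm : (2 : WithTop ℕ∞) ≤ ((⊤ : ℕ∞) : WithTop ℕ∞) := by
  have h : ((2 : ℕ∞) : WithTop ℕ∞) ≤ ((⊤ : ℕ∞) : WithTop ℕ∞) := WithTop.coe_le_coe.2 le_top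
  exact h

theorem h2 (H : Adapted h A κ D) : ContDiffAt ℝ 2 h 0 :=
  (H.h_smooth.self_of_nhds).of_le two_le_sm

theorem A2 (H : Adapted h A κ D) : ContDiffAt ℝ 2 A 0 :=
  (H.A_smooth.self_of_nhds).of_le two_le_sm

theorem κ2 (H : Adapted h A κ D) (a b : Fin 3) : ContDiffAt ℝ 2 (fun u => κ u a b) 0 :=
  ((H.κ_smooth a b).self_of_nhds).of_le two_le_sm

theorem κ_symm (H : Adapted h A κ D) : D.κ.IsSymm := by
  rw [← H.κ0]
  exact H.κ_symm.self_of_nhds

theorem κ_ev (H : Adapted h A κ D) (a b : Fin 3) : (fun u => κ u a b) =ᶠ[𝓝 0] fun u => κ u b a := by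
  filter_upwards [H.κ_symm] with u hu
  exact hu.apply b a

theorem κ1_symm (H : Adapted h A κ D) (e : Fin 2) : (D.κ1 e).IsSymm := by
  ext a b
  rw [Matrix.transpose_apply, ← H.κ1, ← H.κ1, (κ_ev H b a).fderiv_eq]

theorem κ2_dd (H : Adapted h A κ D) (i j : Fin 2) (a b : Fin 3) :
    D.κ2 i j a b = dd (fun u => κ u a b) 0 (ev i) (ev j) := (H.κ2 i j a b).symm

theorem κ2_symm (H : Adapted h A κ D) (i j : Fin 2) : (D.κ2 i j).IsSymm := by
  ext a b
  rw [Matrix.transpose_apply, κ2_dd H, κ2_dd H, dd_congr (κ_ev H b a)]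

theorem κ2_comm (H : Adapted h A κ D) (i j : Fin 2) : D.κ2 i j = D.κ2 j i := by
  ext a b
  rw [κ2_dd H, κ2_dd H, dd_comm (κ2 H a b)]

theorem vec_eq (x : V2) : x = x 0 • ev 0 + x 1 • ev 1 := by
  ext i
  fin_cases i <;> simp [ev]

theorem e0_eq : e0 = ev 0 := by
  ext i
  fin_cases i <;> simp [e0, ev]

theorem e1_eq : e1 = ev 1 := by
  ext i
  fin_cases i <;> simp [e1, ev]

/-- An alternating form on the plane. -/
theorem alt_eq {F : Type*} [AddCommGroup F] [Module ℝ F] (T : V2 →ₗ[ℝ] V2 →ₗ[ℝ] F) (x y : V2) :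
    T x y - T y x = al x y • (T e0 e1 - T e1 e0) := by
  conv_lhs => rw [vec_eq x, vec_eq y]
  rw [e0_eq, e1_eq]
  simp only [map_add, map_smul, LinearMap.add_apply, LinearMap.smul_apply, al]
  module

theorem hK (H : Adapted h A κ D) (x y : V2) :
    -(1 / 2) * (D2 h 0 x x y y + D2 h 0 y y x x - 2 * D2 h 0 x y x y) = D.K * al x y ^ 2 := by
  have hc := h2 H
  have hd := diff1 hc
  have hs : SymmNear h 0 := by
    filter_upwards [H.h_inner] with u hu
    exact hu.symm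
  have hi : IsInner (h 0) := H.h_inner.self_of_nhds
  have hG : ∀ x y, Gam h 0 x y = 0 := by
    intro x y
    refine Gam_ext hd fun z => ?_
    rw [D1_fderiv hd, D1_fderiv hd, D1_fderiv hd, H.dh]
    simp
  have h1 : Rm h 0 x y = -(1 / 2) * (D2 h 0 x x y y + D2 h 0 y y x x - 2 * D2 h 0 x y x y) := by
    unfold Rm
    rw [hG, hG, hG]
    simp [cov]
  rw [← h1]
  have h3 := Rm_plane hc hs hi e0 e1 (x 0) (x 1) (y 0) (y 1)
  rw [e0_eq, e1_eq, ← vec_eq, ← vec_eq, ← e0_eq, ← e1_eq, H.K] at h3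
  rw [h3, al]
  ring

/-- The first derivative of the connection form. -/
theorem dA (H : Adapted h A κ D) (x y : V2) :
    fderiv ℝ A 0 x y = (1 / 2 : ℝ) • (al x y • D.ρ) := by
  have hanti : ∀ x y : V2, fderiv ℝ A 0 y x = - fderiv ℝ A 0 x y := by
    intro x y
    have h1 := H.dA (x + y)
    have h2 : fderiv ℝ A 0 (x + y) (x + y) = fderiv ℝ A 0 x x + fderiv ℝ A 0 y x
        + (fderiv ℝ A 0 x y + fderiv ℝ A 0 y y) := by
      rw [map_add (fderiv ℝ A 0 (x + y)), map_add, _root_.add_apply, _root_.add_apply]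
    rw [h2, H.dA x, H.dA y, zero_add, add_zero] at h1
    exact eq_neg_of_add_eq_zero_left h1
  have hρ : fderiv ℝ A 0 e0 e1 - fderiv ℝ A 0 e1 e0 = D.ρ := by
    have h1 := H.ρ
    rw [FA, H.A0] at h1
    simpa using h1
  have h2 : fderiv ℝ A 0 x y - fderiv ℝ A 0 y x =
      al x y • (fderiv ℝ A 0 e0 e1 - fderiv ℝ A 0 e1 e0) :=
    alt_eq (LinearMap.mk₂ ℝ (fun x y => fderiv ℝ A 0 x y) (fun a b c => by simp)
      (fun a b c => by simp) (fun a b c => by simp) (fun a b c => by simp)) x y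
  rw [hρ, hanti x y, sub_neg_eq_add, ← two_smul ℝ] at h2
  rw [← h2, smul_smul]
  norm_num

theorem hB (H : Adapted h A κ D) (x x' : V2) (y : V2) : dd A 0 x x' y = dd A 0 x' x y := by
  rw [dd_comm (A2 H)]

/-- The derivative of the curvature. -/
theorem hDρ (H : Adapted h A κ D) (w : V2) :
    dd A 0 w e0 e1 - dd A 0 w e1 e0 = w 0 • D.Dρ 0 + w 1 • D.Dρ 1 := by
  have hA := A2 H
  have h1 : HasFDerivAt (fun u => FA A u e0 e1)
      (((ContinuousLinearMap.apply ℝ V3 e1).comp (fderiv ℝ (fun u => fderiv ℝ A u e0) 0) -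
        (ContinuousLinearMap.apply ℝ V3 e0).comp (fderiv ℝ (fun u => fderiv ℝ A u e1) 0))) 0 := by
    have a1 : HasFDerivAt (fun u => fderiv ℝ A u e0 e1)
        ((ContinuousLinearMap.apply ℝ V3 e1).comp (fderiv ℝ (fun u => fderiv ℝ A u e0) 0)) 0 :=
      (ContinuousLinearMap.apply ℝ V3 e1).hasFDerivAt.comp 0 (diff_fderiv_apply hA e0).hasFDerivAt
    have a2 : HasFDerivAt (fun u => fderiv ℝ A u e1 e0)
        ((ContinuousLinearMap.apply ℝ V3 e0).comp (fderiv ℝ (fun u => fderiv ℝ A u e1) 0)) 0 :=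
      (ContinuousLinearMap.apply ℝ V3 e0).hasFDerivAt.comp 0 (diff_fderiv_apply hA e1).hasFDerivAt
    have b1 : HasFDerivAt (fun u => A u e0) ((ContinuousLinearMap.apply ℝ V3 e0).comp (fderiv ℝ A 0)) 0 :=
      (ContinuousLinearMap.apply ℝ V3 e0).hasFDerivAt.comp 0 (diff1 hA).hasFDerivAt
    have b2 : HasFDerivAt (fun u => A u e1) ((ContinuousLinearMap.apply ℝ V3 e1).comp (fderiv ℝ A 0)) 0 :=
      (ContinuousLinearMap.apply ℝ V3 e1).hasFDerivAt.comp 0 (diff1 hA).hasFDerivAt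
    have a3 := crossL.hasFDerivAt_of_bilinear b1 b2
    refine ((a1.sub a2).add a3).congr_fderiv ?_
    ext1 z
    simp [H.A0]
  have h3 : fderiv ℝ (fun u => FA A u e0 e1) 0 w = w 0 • D.Dρ 0 + w 1 • D.Dρ 1 := by
    conv_lhs => rw [vec_eq w]
    rw [map_add, map_smul, map_smul, H.Dρ, H.Dρ]
  rw [h1.fderiv] at h3
  exact h3

theorem hBD (H : Adapted h A κ D) (w x y : V2) :
    dd A 0 w x y - dd A 0 w y x = al x y • (w 0 • D.Dρ 0 + w 1 • D.Dρ 1) := by
  have hA := A2 H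
  rw [← hDρ H w]
  have e : ∀ x y, dd A 0 w x y = fderiv ℝ (fderiv ℝ A) 0 w x y := fun x y => by rw [dd_eq hA]
  rw [e, e, e, e]
  exact alt_eq (LinearMap.mk₂ ℝ (fun x y => fderiv ℝ (fderiv ℝ A) 0 w x y) (fun a b c => by simp)
      (fun a b c => by simp) (fun a b c => by simp) (fun a b c => by simp)) x y

/-! ### the jets of `qk r κ` -/

section matL

variable {E : Type*} [NormedAddCommGroup E] [NormedSpace ℝ E] {M : E → M33} {p : E}

/-- evaluation at `v`, component `i` -/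
noncomputable def evi (v : V3) (i : Fin 3) : (V3 →L[ℝ] V3) →L[ℝ] ℝ :=
  (ContinuousLinearMap.proj (R := ℝ) (φ := fun _ : Fin 3 => ℝ) i).comp (ContinuousLinearMap.apply ℝ V3 v)

theorem evi_apply (v : V3) (i : Fin 3) (T : V3 →L[ℝ] V3) : evi v i T = T v i := rfl

theorem evi_matL (M : M33) (v : V3) (i : Fin 3) :
    evi v i (matL M) = v 0 • M i 0 + v 1 • M i 1 + v 2 • M i 2 := by
  rw [evi_apply, matL_apply, Matrix.mulVec, dotProduct, Fin.sum_univ_three]
  simp only [smul_eq_mul]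
  ring

theorem matL_fderiv (hM : ∀ a b, ContDiffAt ℝ 2 (fun u => M u a b) p) (x : E) :
    fderiv ℝ (fun u => matL (M u)) p x =
      matL (Matrix.of fun a b => fderiv ℝ (fun u => M u a b) p x) := by
  have h1 : DifferentiableAt ℝ (fun u => matL (M u)) p := diff1 (contDiffAt_matL hM)
  ext v i
  rw [← evi_apply v i, ← evi_apply v i, evi_matL]
  have h2 := (hasFDerivAt_clm h1 (evi v i)).fderiv
  have h3 : (fun u => evi v i (matL (M u))) =
      fun u => v 0 • M u i 0 + v 1 • M u i 1 + v 2 • M u i 2 := funext fun u => evi_matL _ v i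
  rw [h3] at h2
  have hd : ∀ b, HasFDerivAt (fun u => v b • M u i b) (v b • fderiv ℝ (fun u => M u i b) p) p :=
    fun b => (diff1 (hM i b)).hasFDerivAt.const_smul (v b)
  have h4 := (((hd 0).add (hd 1)).add (hd 2)).fderiv
  have h5 : (evi v i) (fderiv ℝ (fun u => matL (M u)) p x) =
      (v 0 • fderiv ℝ (fun u => M u i 0) p + v 1 • fderiv ℝ (fun u => M u i 1) p
        + v 2 • fderiv ℝ (fun u => M u i 2) p) x := by
    rw [← h4]
    exact (DFunLike.congr_fun h2 x).symm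
  rw [h5]
  rfl

theorem matL_dd (hM : ∀ a b, ContDiffAt ℝ 2 (fun u => M u a b) p) (x y : E) :
    dd (fun u => matL (M u)) p x y =
      matL (Matrix.of fun a b => dd (fun u => M u a b) p x y) := by
  have h1 : ContDiffAt ℝ 2 (fun u => matL (M u)) p := contDiffAt_matL hM
  ext v i
  rw [← evi_apply v i, ← evi_apply v i, evi_matL, ← dd_clm h1 (evi v i)]
  have h3 : (fun u => evi v i (matL (M u))) =
      fun u => v 0 • M u i 0 + v 1 • M u i 1 + v 2 • M u i 2 := funext fun u => evi_matL _ v i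
  have hc : ∀ b, ContDiffAt ℝ 2 (fun u => v b • M u i b) p := fun b => (hM i b).const_smul (v b)
  rw [h3, dd_add ((hc 0).add (hc 1)) (hc 2), dd_add (hc 0) (hc 1), dd_const_smul (hM i 0),
    dd_const_smul (hM i 1), dd_const_smul (hM i 2)]
  rfl

end matL

theorem κd (H : Adapted h A κ D) (a b : Fin 3) (x : V2) :
    fderiv ℝ (fun u => κ u a b) 0 x = x 0 * D.κ1 0 a b + x 1 * D.κ1 1 a b := by
  conv_lhs => rw [vec_eq x]
  rw [map_add, map_smul, map_smul, H.κ1, H.κ1]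
  rfl

theorem κdd (H : Adapted h A κ D) (a b : Fin 3) (x y : V2) :
    dd (fun u => κ u a b) 0 x y = x 0 * y 0 * D.κ2 0 0 a b + x 0 * y 1 * D.κ2 0 1 a b
      + x 1 * y 0 * D.κ2 1 0 a b + x 1 * y 1 * D.κ2 1 1 a b := by
  conv_lhs => rw [vec_eq x, vec_eq y]
  have hk := κ2 H a b
  rw [dd_add_left, dd_smul_left, dd_smul_left, dd_add_right hk, dd_add_right hk, dd_smul_right hk,
    dd_smul_right hk, dd_smul_right hk, dd_smul_right hk, ← κ2_dd H, ← κ2_dd H, ← κ2_dd H, ← κ2_dd H]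
  simp only [smul_eq_mul]
  ring

theorem ent2 (H : Adapted h A κ D) (r : ℝ) (a b : Fin 3) :
    ContDiffAt ℝ 2 (fun u => ((r ^ 2) • ((1 : M33) - (r ^ 2 / 3) • κ u)) a b) 0 := by
  have e : (fun u => ((r ^ 2) • ((1 : M33) - (r ^ 2 / 3) • κ u)) a b) =
      fun u => r ^ 2 * ((1 : M33) a b - r ^ 2 / 3 * κ u a b) := by
    funext u
    simp [Matrix.smul_apply, Matrix.sub_apply]
  rw [e]
  exact contDiffAt_const.mul (contDiffAt_const.sub (contDiffAt_const.mul (κ2 H a b)))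

theorem q2 (H : Adapted h A κ D) (r : ℝ) : ContDiffAt ℝ 2 (qk r κ) 0 :=
  contDiffAt_matL (ent2 H r)

theorem qk_zero (H : Adapted h A κ D) (r : ℝ) : qk r κ 0 = matL (Qr r D) := by
  rw [reg_qk_eq_matL, H.κ0]
  rfl

theorem qk_fderiv (H : Adapted h A κ D) (r : ℝ) (x : V2) :
    fderiv ℝ (qk r κ) 0 x = matL (m1 (Qr1 r D) x) := by
  have h1 := matL_fderiv (ent2 H r) x
  have h2 : (fun u => matL ((r ^ 2) • ((1 : M33) - (r ^ 2 / 3) • κ u))) = qk r κ := rfl
  rw [h2] at h1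
  rw [h1]
  congr 1
  ext a b
  have e : (fun u => ((r ^ 2) • ((1 : M33) - (r ^ 2 / 3) • κ u)) a b) =
      fun u => r ^ 2 * (1 : M33) a b + (-(r ^ 4 / 3)) * κ u a b := by
    funext u
    simp only [Matrix.smul_apply, Matrix.sub_apply, smul_eq_mul]
    ring
  rw [Matrix.of_apply, e, (((diff1 (κ2 H a b)).hasFDerivAt.const_mul (-(r ^ 4 / 3))).const_add
    (r ^ 2 * (1 : M33) a b)).fderiv, _root_.smul_apply, κd H, m1, Qr1, Qr1]
  simp only [Matrix.add_apply, Matrix.smul_apply, smul_eq_mul]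
  ring

theorem qk_dd (H : Adapted h A κ D) (r : ℝ) (x y : V2) :
    dd (qk r κ) 0 x y = matL (m2 (Qr2 r D) x y) := by
  have h1 := matL_dd (ent2 H r) x y
  have h2 : (fun u => matL ((r ^ 2) • ((1 : M33) - (r ^ 2 / 3) • κ u))) = qk r κ := rfl
  rw [h2] at h1
  rw [h1]
  congr 1
  ext a b
  have e : (fun u => ((r ^ 2) • ((1 : M33) - (r ^ 2 / 3) • κ u)) a b) =
      fun u => r ^ 2 * (1 : M33) a b + (-(r ^ 4 / 3)) • κ u a b := by
    funext u
    simp only [Matrix.smul_apply, Matrix.sub_apply, smul_eq_mul]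
    ring
  rw [Matrix.of_apply, e, dd_add contDiffAt_const ((κ2 H a b).const_smul _), dd_const,
    dd_const_smul (κ2 H a b), κdd H, m2, Qr2, Qr2, Qr2, Qr2]
  simp only [Matrix.add_apply, Matrix.smul_apply, smul_eq_mul]
  ring

end Pool.Agent.HS.M2s
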