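import Pool.Agent.HS.Glue
import Pool.Agent.HS.AmbGE
import Pool.Agent.HS.CoordEnd

set_option autoImplicit false
set_option maxSynthPendingDepth 3

/-!
# The metric on `S² × ℝ³` with positively curved distance spheres (project HS, MP_55c470_gt)
-/

noncomputable section

namespace Pool.Agent.HS

/-- There is a metric on `S² × ℝ³` with all the properties of the main theorem. -/
theorem exists_hasPositiveTubes : ∃ g : MetricE, HasPositiveTubes g := by
  obtain ⟨d, r, hd, hd1, hr, hr1, hC⟩ := hs_coord
  exact ⟨_, hasPositiveTubes_gAmb (isAmb_data_small hd hd1 hr hr1) hC⟩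

end Pool.Agent.HS
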