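import Pool.Agent.HS.Pull

set_option autoImplicit false
set_option maxSynthPendingDepth 3

/-!
# Sectional curvature of a Riemannian metric on a manifold (project HS)
-/

namespace Pool.Agent.HS

open Bundle Manifold Set Filter
open scoped ContDiff Manifold Topology

noncomputable section

lemma three_le_infty : (3 : WithTop ℕ∞) ≤ ∞ := WithTop.coe_le_coe.2 (le_top : (3 : ℕ∞) ≤ ⊤)

lemma two_le_infty : (2 : WithTop ℕ∞) ≤ ∞ := WithTop.coe_le_coe.2 (le_top : (2 : ℕ∞) ≤ ⊤)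

section Analysis

variable {E : Type*} [NormedAddCommGroup E] [NormedSpace ℝ E] [CompleteSpace E]

/-- Two local diffeomorphisms with the same value differ by a local diffeomorphism. -/
lemma exists_transition {φ ψ : E → E} {x y : E} (hφ : ContDiffAt ℝ ∞ φ x)
    (hψ : ContDiffAt ℝ ∞ ψ y) (h : φ x = ψ y) (hφ' : (fderiv ℝ φ x).IsInvertible)
    (hψ' : (fderiv ℝ ψ y).IsInvertible) :
    ∃ τ : E → E, ContDiffAt ℝ ∞ τ y ∧ τ y = x ∧ (∀ᶠ z in 𝓝 y, φ (τ z) = ψ z) ∧
      (fderiv ℝ τ y).IsInvertible := by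
  obtain ⟨e, he⟩ := hφ'
  have hn : (∞ : WithTop ℕ∞) ≠ 0 := by simp
  have hd : HasFDerivAt φ (e : E →L[ℝ] E) x := by
    rw [he]
    exact (hφ.differentiableAt (by simp)).hasFDerivAt
  have hs : HasStrictFDerivAt φ (e : E →L[ℝ] E) x := hφ.hasStrictFDerivAt' hd hn
  have hinv : HasStrictFDerivAt (hs.localInverse φ e x) (e.symm : E →L[ℝ] E) (φ x) :=
    hs.to_localInverse
  have hsm : ContDiffAt ℝ ∞ (hs.localInverse φ e x) (φ x) := hφ.to_localInverse hd hn
  have hψd : DifferentiableAt ℝ ψ y := hψ.differentiableAt (by simp)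
  refine ⟨fun z => hs.localInverse φ e x (ψ z), ?_, ?_, ?_, ?_⟩
  · rw [h] at hsm
    exact hsm.comp y hψ
  · change hs.localInverse φ e x (ψ y) = x
    rw [← h]
    exact hs.localInverse_apply_image
  · have h1 : ∀ᶠ w in 𝓝 (φ x), φ (hs.localInverse φ e x w) = w :=
      hs.eventually_right_inverse
    rw [h] at h1
    exact hψ.continuousAt.eventually h1
  · have h2 : HasFDerivAt (fun z => hs.localInverse φ e x (ψ z))
        ((e.symm : E →L[ℝ] E).comp (fderiv ℝ ψ y)) y := by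
      rw [h] at hinv
      exact hinv.hasFDerivAt.comp y hψd.hasFDerivAt
    rw [h2.fderiv]
    obtain ⟨e', he'⟩ := hψ'
    exact ⟨e'.trans e.symm, by rw [← he']; rfl⟩

end Analysis

section Congr

variable {E : Type*} [NormedAddCommGroup E] [NormedSpace ℝ E]

lemma Gam_congr_nhds {G G' : E → E →L[ℝ] E →L[ℝ] ℝ} {p : E} (h : G =ᶠ[𝓝 p] G') (x y : E) :
    Gam G p x y = Gam G' p x y := by
  have h1 : ∀ u : E, (fun q => G q u) =ᶠ[𝓝 p] fun q => G' q u := fun u => by
    filter_upwards [h] with q hq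
    rw [hq]
  have h2 : ∀ u v : E, (fun q => G q u v) =ᶠ[𝓝 p] fun q => G' q u v := fun u v => by
    filter_upwards [h] with q hq
    rw [hq]
  unfold Gam
  rw [(h1 y).fderiv_eq, (h1 x).fderiv_eq, (h2 x y).fderiv_eq]

lemma D2_congr_nhds {G G' : E → E →L[ℝ] E →L[ℝ] ℝ} {p : E} (h : G =ᶠ[𝓝 p] G') (x y u v : E) :
    D2 G p x y u v = D2 G' p x y u v := by
  have h2 : (fun q => fderiv ℝ (fun r => G r u v) q y) =ᶠ[𝓝 p]
      fun q => fderiv ℝ (fun r => G' r u v) q y := by
    filter_upwards [h.eventually_nhds] with q hq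
    have : (fun r => G r u v) =ᶠ[𝓝 q] fun r => G' r u v := by
      filter_upwards [hq] with r hr
      rw [hr]
    rw [this.fderiv_eq]
  unfold D2
  rw [h2.fderiv_eq]

lemma Rm_congr_nhds {G G' : E → E →L[ℝ] E →L[ℝ] ℝ} {p : E} (h : G =ᶠ[𝓝 p] G') (x y : E) :
    Rm G p x y = Rm G' p x y := by
  unfold Rm
  rw [D2_congr_nhds h, D2_congr_nhds h, D2_congr_nhds h, Gam_congr_nhds h, Gam_congr_nhds h,
    Gam_congr_nhds h, h.self_of_nhds]

end Congr

section Manifold

variable {E : Type*} [NormedAddCommGroup E] [NormedSpace ℝ E]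
  {H : Type*} [TopologicalSpace H] {I : ModelWithCorners ℝ E H}
  {M : Type*} [TopologicalSpace M] [ChartedSpace H M]

variable (I) in
/-- `φ` is a local parametrisation of the manifold `M` near `φ x`: it is smooth near `x`, and its
differential at `x` is invertible. -/
def IsParam (φ : E → M) (x : E) : Prop :=
  ContMDiffAt 𝓘(ℝ, E) I ∞ φ x ∧ (mfderiv 𝓘(ℝ, E) I φ x).IsInvertible

/-- The coordinate expression of a field of bilinear forms on the tangent spaces in a local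
parametrisation `φ`. -/
def coordF (g : (x : M) → TangentSpace I x →L[ℝ] TangentSpace I x →L[ℝ] ℝ) (φ : E → M) (x : E) :
    E →L[ℝ] E →L[ℝ] ℝ :=
  (show E →L[ℝ] E →L[ℝ] ℝ from g (φ x)).bilinearComp
    (show E →L[ℝ] E from mfderiv 𝓘(ℝ, E) I φ x) (show E →L[ℝ] E from mfderiv 𝓘(ℝ, E) I φ x)

lemma coordF_apply (g : (x : M) → TangentSpace I x →L[ℝ] TangentSpace I x →L[ℝ] ℝ)
    (φ : E → M) (x u v : E) : coordF g φ x u v =
      g (φ x) (mfderiv 𝓘(ℝ, E) I φ x u) (mfderiv 𝓘(ℝ, E) I φ x v) := rfl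

/-- The coordinate expression of a Riemannian metric in a local parametrisation. -/
def coordG [IsManifold I ∞ M]
    (g : ContMDiffRiemannianMetric I ∞ E (fun x : M => TangentSpace I x))
    (φ : E → M) (x : E) : E →L[ℝ] E →L[ℝ] ℝ :=
  coordF g.inner φ x

lemma coordG_apply [IsManifold I ∞ M]
    (g : ContMDiffRiemannianMetric I ∞ E (fun x : M => TangentSpace I x))
    (φ : E → M) (x u v : E) : coordG g φ x u v =
      g.inner (φ x) (mfderiv 𝓘(ℝ, E) I φ x u) (mfderiv 𝓘(ℝ, E) I φ x v) := rfl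

section Field

variable (g : (x : M) → TangentSpace I x →L[ℝ] TangentSpace I x →L[ℝ] ℝ)

lemma coordF_symm (hs : ∀ (x : M) (u v : TangentSpace I x), g x u v = g x v u)
    (φ : E → M) (x u v : E) : coordF g φ x u v = coordF g φ x v u := by
  rw [coordF_apply, coordF_apply]
  exact hs _ _ _

lemma coordF_isInner (hs : ∀ (x : M) (u v : TangentSpace I x), g x u v = g x v u)
    (hp : ∀ (x : M) (v : TangentSpace I x), v ≠ 0 → 0 < g x v v) {φ : E → M} {x : E}
    (h : (mfderiv 𝓘(ℝ, E) I φ x).IsInvertible) : IsInner (coordF g φ x) where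
  symm := coordF_symm g hs φ x
  pos := by
    intro u hu
    rw [coordF_apply]
    refine hp _ _ ?_
    intro h0
    have h1 : mfderiv 𝓘(ℝ, E) I φ x u = mfderiv 𝓘(ℝ, E) I φ x 0 := by
      rw [h0, map_zero]
    exact hu (h.injective h1)

lemma coordF_congr {φ ψ : E → M} {x : E} (h : φ =ᶠ[𝓝 x] ψ) : coordF g φ x = coordF g ψ x := by
  have h1 : (mfderiv 𝓘(ℝ, E) I φ x : E →L[ℝ] E) = (mfderiv 𝓘(ℝ, E) I ψ x : E →L[ℝ] E) :=
    h.mfderiv_eq
  have h2 : ∀ a b : M, a = b →
      (g a : E →L[ℝ] E →L[ℝ] ℝ) = (g b : E →L[ℝ] E →L[ℝ] ℝ) := by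
    rintro a _ rfl
    rfl
  have h3 := h2 _ _ h.self_of_nhds
  unfold coordF
  rw [h1, h3]

lemma coordF_comp {φ : E → M} {τ : E → E} {z : E} (hφ : MDifferentiableAt 𝓘(ℝ, E) I φ (τ z))
    (hτ : DifferentiableAt ℝ τ z) : coordF g (φ ∘ τ) z = pull (coordF g φ) τ z := by
  have h1 : (mfderiv 𝓘(ℝ, E) I (φ ∘ τ) z : E →L[ℝ] E) =
      (mfderiv 𝓘(ℝ, E) I φ (τ z) : E →L[ℝ] E).comp (fderiv ℝ τ z) := by
    have h2 := mfderiv_comp z hφ hτ.mdifferentiableAt
    rw [mfderiv_eq_fderiv] at h2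
    exact h2
  unfold coordF pull
  rw [h1]
  rfl

end Field

lemma coordG_symm [IsManifold I ∞ M]
    (g : ContMDiffRiemannianMetric I ∞ E (fun x : M => TangentSpace I x))
    (φ : E → M) (x u v : E) : coordG g φ x u v = coordG g φ x v u :=
  coordF_symm g.inner g.symm φ x u v

lemma coordG_isInner [IsManifold I ∞ M]
    (g : ContMDiffRiemannianMetric I ∞ E (fun x : M => TangentSpace I x)) {φ : E → M} {x : E}
    (h : (mfderiv 𝓘(ℝ, E) I φ x).IsInvertible) : IsInner (coordG g φ x) :=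
  coordF_isInner g.inner g.symm g.pos h

variable [IsManifold I ∞ M]

/-- The smoothness needed for `exists_transition`: the coordinate expression of a local
parametrisation in the chart at `p`. -/
lemma isParam_chart {φ : E → M} {x : E} (h : IsParam I φ x) :
    ContDiffAt ℝ ∞ (extChartAt I (φ x) ∘ φ) x ∧
      (fderiv ℝ (extChartAt I (φ x) ∘ φ) x).IsInvertible := by
  have hc : ContMDiffAt I 𝓘(ℝ, E) ∞ (extChartAt I (φ x)) (φ x) :=
    contMDiffAt_extChartAt' (mem_chart_source H (φ x))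
  refine ⟨(hc.comp x h.1).contDiffAt, ?_⟩
  have h1 := mfderiv_comp x (hc.mdifferentiableAt (by simp)) (h.1.mdifferentiableAt (by simp))
  have h2 : (mfderiv I 𝓘(ℝ, E) (extChartAt I (φ x)) (φ x)).IsInvertible :=
    isInvertible_mfderiv_extChartAt (mem_extChartAt_source (φ x))
  rw [← mfderiv_eq_fderiv]
  rw [h1]
  exact h2.comp h.2

/-- Any two local parametrisations of `M` near the same point differ by a local
diffeomorphism. -/
lemma exists_reparam [CompleteSpace E] {φ ψ : E → M} {x y : E} (hφ : IsParam I φ x)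
    (hψ : IsParam I ψ y) (h : φ x = ψ y) :
    ∃ τ : E → E, ContDiffAt ℝ ∞ τ y ∧ τ y = x ∧ ψ =ᶠ[𝓝 y] φ ∘ τ ∧
      (fderiv ℝ τ y).IsInvertible := by
  obtain ⟨h1, h2⟩ := isParam_chart hφ
  obtain ⟨h3, h4⟩ := isParam_chart hψ
  rw [← h] at h3 h4
  obtain ⟨τ, t1, t2, t3, t4⟩ := exists_transition h1 h3 (by simp [h]) h2 h4
  refine ⟨τ, t1, t2, ?_, t4⟩
  have hsrc : (extChartAt I (φ x)).source ∈ 𝓝 (φ x) := extChartAt_source_mem_nhds (φ x)
  have c1 : ∀ᶠ z in 𝓝 y, ψ z ∈ (extChartAt I (φ x)).source := by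
    have hc := hψ.1.continuousAt
    unfold ContinuousAt at hc
    rw [← h] at hc
    exact hc hsrc
  have c2 : ∀ᶠ z in 𝓝 y, φ (τ z) ∈ (extChartAt I (φ x)).source := by
    have hc : ContinuousAt (fun z => φ (τ z)) y :=
      ContinuousAt.comp (by rw [t2]; exact hφ.1.continuousAt) t1.continuousAt
    have hc' : Tendsto (fun z => φ (τ z)) (𝓝 y) (𝓝 (φ x)) := by
      have e : (fun z => φ (τ z)) y = φ x := by simp [t2]
      rw [← e]
      exact hc
    exact hc' hsrc
  filter_upwards [c1, c2, t3] with z hz1 hz2 hz3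
  exact ((extChartAt I (φ x)).injOn hz2 hz1 hz3).symm

/-- Tensoriality: the curvature form in two local parametrisations. -/
theorem Rm_coordF [FiniteDimensional ℝ E]
    (g : (x : M) → TangentSpace I x →L[ℝ] TangentSpace I x →L[ℝ] ℝ)
    (hs : ∀ (x : M) (u v : TangentSpace I x), g x u v = g x v u)
    (hp : ∀ (x : M) (v : TangentSpace I x), v ≠ 0 → 0 < g x v v) {φ ψ : E → M} {x y : E}
    (hφ : IsParam I φ x) (hψ : IsParam I ψ y) (h : φ x = ψ y)
    (hG : ContDiffAt ℝ 2 (coordF g φ) x) :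
    ∃ L : E →L[ℝ] E, Function.Injective L ∧
      (∀ u : E, (mfderiv 𝓘(ℝ, E) I ψ y : E →L[ℝ] E) u =
        (mfderiv 𝓘(ℝ, E) I φ x : E →L[ℝ] E) (L u)) ∧
      ∀ u v, Rm (coordF g ψ) y u v = Rm (coordF g φ) x (L u) (L v) := by
  have : CompleteSpace E := FiniteDimensional.complete ℝ E
  obtain ⟨τ, t1, t2, t3, t4⟩ := exists_reparam hφ hψ h
  have e1 : coordF g ψ =ᶠ[𝓝 y] pull (coordF g φ) τ := by
    have a1 : ∀ᶠ z in 𝓝 y, ψ =ᶠ[𝓝 z] φ ∘ τ := t3.eventually_nhds
    have a2 : ∀ᶠ z in 𝓝 y, MDifferentiableAt 𝓘(ℝ, E) I φ (τ z) := by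
      have : IsManifold I 1 M := IsManifold.of_le (n := ∞) (by simp)
      have b1 : ∀ᶠ w in 𝓝 x, ContMDiffAt 𝓘(ℝ, E) I 1 φ w :=
        (contMDiffAt_iff_contMDiffAt_nhds (by simp)).1 (hφ.1.of_le (by simp))
      have b2 : Tendsto τ (𝓝 y) (𝓝 x) := by
        have := t1.continuousAt
        unfold ContinuousAt at this
        rwa [t2] at this
      filter_upwards [b2.eventually b1] with z hz
      exact hz.mdifferentiableAt (by simp)
    have a3 : ∀ᶠ z in 𝓝 y, DifferentiableAt ℝ τ z := by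
      filter_upwards [(t1.of_le (m := 1) (by simp)).eventually (by simp)] with z hz
      exact hz.differentiableAt (by simp)
    filter_upwards [a1, a2, a3] with z h1 h2 h3
    rw [coordF_congr g h1, coordF_comp g h2 h3]
  refine ⟨fderiv ℝ τ y, t4.injective, fun u => ?_, fun u v => ?_⟩
  · have h1 : (mfderiv 𝓘(ℝ, E) I ψ y : E →L[ℝ] E) =
        (mfderiv 𝓘(ℝ, E) I (φ ∘ τ) y : E →L[ℝ] E) := t3.mfderiv_eq
    have h2 : (mfderiv 𝓘(ℝ, E) I (φ ∘ τ) y : E →L[ℝ] E) =
        (mfderiv 𝓘(ℝ, E) I φ (τ y) : E →L[ℝ] E).comp (fderiv ℝ τ y) := by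
      have h3 := mfderiv_comp y (by rw [t2]; exact hφ.1.mdifferentiableAt (by simp))
        (t1.differentiableAt (by simp)).mdifferentiableAt
      rw [mfderiv_eq_fderiv] at h3
      exact h3
    have h4 : (mfderiv 𝓘(ℝ, E) I φ (τ y) : E →L[ℝ] E) =
        (mfderiv 𝓘(ℝ, E) I φ x : E →L[ℝ] E) := by rw [t2]
    rw [h1, h2, h4]
    rfl
  · rw [Rm_congr_nhds e1]
    have hG' : ContDiffAt ℝ 2 (coordF g φ) (τ y) := by rwa [t2]
    rw [Rm_pull hG' (t1.of_le three_le_infty)
      (Eventually.of_forall fun q a b => coordF_symm g hs φ q a b)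
      (by rw [t2]; exact (coordF_isInner g hs hp hφ.2).isInvertible) t4, t2]

variable (g : ContMDiffRiemannianMetric I ∞ E (fun x : M => TangentSpace I x))

/-- Tensoriality: the curvature form in two local parametrisations. -/
theorem Rm_coordG [FiniteDimensional ℝ E] {φ ψ : E → M} {x y : E} (hφ : IsParam I φ x)
    (hψ : IsParam I ψ y) (h : φ x = ψ y) (hG : ContDiffAt ℝ 2 (coordG g φ) x) :
    ∃ L : E →L[ℝ] E, Function.Injective L ∧
      ∀ u v, Rm (coordG g ψ) y u v = Rm (coordG g φ) x (L u) (L v) := by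
  obtain ⟨L, h1, -, h3⟩ := Rm_coordF g.inner g.symm g.pos hφ hψ h hG
  exact ⟨L, h1, h3⟩

/-- All sectional curvatures of the metric are positive, in every local parametrisation. -/
def PosSec : Prop :=
  ∀ (φ : E → M) (x : E), IsParam I φ x → PosAt (coordG g φ) x

/-- All sectional curvatures of the metric are nonnegative, in every local parametrisation. -/
def NonnegSec : Prop :=
  ∀ (φ : E → M) (x : E), IsParam I φ x → NonnegAt (coordG g φ) x

/-- It is enough to look at one local parametrisation near every point. -/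
theorem PosSec_of_param [FiniteDimensional ℝ E]
    (h : ∀ p : M, ∃ (φ : E → M) (x : E), IsParam I φ x ∧ φ x = p ∧
      ContDiffAt ℝ 2 (coordG g φ) x ∧ PosAt (coordG g φ) x) : PosSec g := by
  intro ψ y hψ u v huv
  obtain ⟨φ, x, h1, h2, h3, h4⟩ := h (ψ y)
  obtain ⟨L, hL, hR⟩ := Rm_coordG g h1 hψ h2 h3
  rw [hR]
  exact h4 _ _ (linearIndependent_pair_map hL huv)

/-- It is enough to look at one local parametrisation near every point. -/
theorem NonnegSec_of_param [FiniteDimensional ℝ E]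
    (h : ∀ p : M, ∃ (φ : E → M) (x : E), IsParam I φ x ∧ φ x = p ∧
      ContDiffAt ℝ 2 (coordG g φ) x ∧ NonnegAt (coordG g φ) x) : NonnegSec g := by
  intro ψ y hψ u v
  obtain ⟨φ, x, h1, h2, h3, h4⟩ := h (ψ y)
  obtain ⟨L, -, hR⟩ := Rm_coordG g h1 hψ h2 h3
  rw [hR]
  exact h4 _ _


end Manifold

end

end Pool.Agent.HS
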