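import Pool.Agent.HS.Sph
import Pool.Agent.HS.Amb
import Pool.Agent.HS.CoordSk

set_option autoImplicit false
set_option maxSynthPendingDepth 3

/-!
# Curvature of the metric on `S² × ℝ³` and of its distance spheres (project HS)

From the coordinate statement `CoordMain` to the fields `nonneg` and `sphere_pos` of
`HasPositiveTubes`.
-/

namespace Pool.Agent.HS

open Bundle Manifold Set Filter Metric Matrix
open scoped ContDiff Manifold Topology

noncomputable section

variable {G : V3 × V3 → V3 × V3 →L[ℝ] V3 × V3 →L[ℝ] ℝ}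

lemma gAmb_isInducedBy (hG : IsAmb G) : IsInducedBy iE G (gAmb G hG).inner :=
  fun _ _ _ => rfl

/-- The metric has nonnegative sectional curvature. -/
theorem gAmb_nonneg (hG : IsAmb G) (hC : CoordMain G) : NonnegCurved (gAmb G hG).inner := by
  refine nonnegCurved_of_coord (fun x => hG.smooth _ _ (eR_sphere x.1)) (gAmb_isInducedBy hG)
    (gAmb G hG).symm (gAmb G hG).pos fun y0 w0 hy => ?_
  obtain ⟨φ, h1, h2, h3, h4, h5⟩ := hC.nonneg y0 w0 hy
  exact ⟨φ, h1.self_of_nhds, h2, h3, h4, h5⟩

/-- The distance spheres about the zero section have positive sectional curvature. -/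
theorem gAmb_sphere_pos (hG : IsAmb G) (hC : CoordMain G) (t : ℝ) (ht : 0 < t) :
    PosCurved (induced IS (gAmb G hG).inner (tube t)) := by
  refine posCurved_of_coord (fun x => hG.smooth _ _ (eR_sphere x.1)) (gAmb_isInducedBy hG)
    (gAmb G hG).symm (gAmb G hG).pos ht fun y0 z0 hy hz => ?_
  obtain ⟨ψ, h1, h2, h3, h4, h5⟩ := hC.pos y0 z0 hy hz t ht
  exact ⟨ψ, h1.self_of_nhds, h2, h3, h4, h5⟩

end

end Pool.Agent.HS
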