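import Mathlib

/-!
# Normal form of a 2-plane in `V × W`

Every pair of linearly independent vectors of `V × W` can be replaced by a basis of the
same plane of the form `(s e, p f)`, `(t e', q f')` with `e, e'` orthonormal in `V` and
`f, f'` orthonormal in `W` (simultaneous diagonalisation of the two scalar products on the
plane).
-/

namespace Pool.Agent.HS

open scoped RealInnerProductSpace
open Module

section Pair

variable {E : Type*} [NormedAddCommGroup E] [InnerProductSpace ℝ E]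

/-- In dimension at least two there is a unit vector orthogonal to a given vector. -/
theorem exists_unit_orth (h2 : 2 ≤ finrank ℝ E) (w : E) : ∃ f : E, ‖f‖ = 1 ∧ ⟪f, w⟫ = 0 := by
  classical
  have hfd : FiniteDimensional ℝ E := FiniteDimensional.of_finrank_pos (by omega)
  set K : Submodule ℝ E := (ℝ ∙ w)ᗮ with hK
  have hadd : finrank ℝ (ℝ ∙ w : Submodule ℝ E) + finrank ℝ K = finrank ℝ E :=
    Submodule.finrank_add_finrank_orthogonal (ℝ ∙ w)
  have h1 : finrank ℝ (ℝ ∙ w : Submodule ℝ E) ≤ 1 := by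
    rcases eq_or_ne w 0 with hw | hw
    · rw [hw, Submodule.span_zero_singleton, finrank_bot]
      exact Nat.zero_le 1
    · rw [finrank_span_singleton hw]
  have hpos : 0 < finrank ℝ K := by omega
  have hne : K ≠ ⊥ := by
    intro hb
    rw [hb, finrank_bot] at hpos
    exact lt_irrefl _ hpos
  obtain ⟨v, hv, hv0⟩ := Submodule.exists_mem_ne_zero_of_ne_bot hne
  have hn : 0 < ‖v‖ := norm_pos_iff.2 hv0
  refine ⟨‖v‖⁻¹ • v, ?_, ?_⟩
  · rw [norm_smul, norm_inv, norm_norm, inv_mul_cancel₀ hn.ne']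
  · have : ⟪w, v⟫ = 0 := by
      rw [hK, Submodule.mem_orthogonal_singleton_iff_inner_right] at hv
      exact hv
    rw [inner_smul_left, real_inner_comm, this, mul_zero]

/-- Two orthogonal vectors are multiples of two orthonormal vectors. -/
theorem exists_orthonormal_pair (h2 : 2 ≤ finrank ℝ E) (u v : E) (h : ⟪u, v⟫ = 0) :
    ∃ f f' : E, ‖f‖ = 1 ∧ ‖f'‖ = 1 ∧ ⟪f, f'⟫ = 0 ∧ ∃ p q : ℝ, u = p • f ∧ v = q • f' := by
  rcases eq_or_ne u 0 with hu | hu
  · rcases eq_or_ne v 0 with hv | hv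
    · obtain ⟨f', hf', _⟩ := exists_unit_orth h2 (0 : E)
      obtain ⟨f, hf, hff⟩ := exists_unit_orth h2 f'
      exact ⟨f, f', hf, hf', hff, 0, 0, by rw [hu, zero_smul], by rw [hv, zero_smul]⟩
    · have hn : 0 < ‖v‖ := norm_pos_iff.2 hv
      obtain ⟨f, hf, hff⟩ := exists_unit_orth h2 v
      refine ⟨f, ‖v‖⁻¹ • v, hf, ?_, ?_, 0, ‖v‖, by rw [hu, zero_smul], ?_⟩
      · rw [norm_smul, norm_inv, norm_norm, inv_mul_cancel₀ hn.ne']
      · rw [inner_smul_right, hff, mul_zero]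
      · rw [smul_smul, mul_inv_cancel₀ hn.ne', one_smul]
  · have hn : 0 < ‖u‖ := norm_pos_iff.2 hu
    rcases eq_or_ne v 0 with hv | hv
    · obtain ⟨f, hf, hff⟩ := exists_unit_orth h2 u
      refine ⟨‖u‖⁻¹ • u, f, ?_, hf, ?_, ‖u‖, 0, ?_, by rw [hv, zero_smul]⟩
      · rw [norm_smul, norm_inv, norm_norm, inv_mul_cancel₀ hn.ne']
      · rw [inner_smul_left, real_inner_comm, hff, mul_zero]
      · rw [smul_smul, mul_inv_cancel₀ hn.ne', one_smul]
    · have hm : 0 < ‖v‖ := norm_pos_iff.2 hv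
      refine ⟨‖u‖⁻¹ • u, ‖v‖⁻¹ • v, ?_, ?_, ?_, ‖u‖, ‖v‖, ?_, ?_⟩
      · rw [norm_smul, norm_inv, norm_norm, inv_mul_cancel₀ hn.ne']
      · rw [norm_smul, norm_inv, norm_norm, inv_mul_cancel₀ hm.ne']
      · rw [inner_smul_left, inner_smul_right, h, mul_zero, mul_zero]
      · rw [smul_smul, mul_inv_cancel₀ hn.ne', one_smul]
      · rw [smul_smul, mul_inv_cancel₀ hm.ne', one_smul]

end Pair

/-- There is an angle which kills the off-diagonal entry of a symmetric 2x2 matrix. -/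
theorem exists_angle (u v w : ℝ) : ∃ θ : ℝ,
    (Real.cos θ ^ 2 - Real.sin θ ^ 2) * v + Real.cos θ * Real.sin θ * (w - u) = 0 := by
  set F : ℝ → ℝ := fun θ =>
    (Real.cos θ ^ 2 - Real.sin θ ^ 2) * v + Real.cos θ * Real.sin θ * (w - u) with hF
  have hc : Continuous F := by
    rw [hF]; fun_prop
  have h0 : F 0 = v := by simp [hF]
  have h1 : F (Real.pi / 2) = -v := by simp [hF]
  have hpi : (0 : ℝ) ≤ Real.pi / 2 := by positivity
  rcases le_total v 0 with hv | hv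
  · have hmem : (0 : ℝ) ∈ Set.Icc (F 0) (F (Real.pi / 2)) := by
      rw [h0, h1]; constructor <;> linarith
    obtain ⟨θ, _, hθ⟩ := intermediate_value_Icc hpi hc.continuousOn hmem
    exact ⟨θ, hθ⟩
  · have hmem : (0 : ℝ) ∈ Set.Icc (F (Real.pi / 2)) (F 0) := by
      rw [h0, h1]; constructor <;> linarith
    obtain ⟨θ, _, hθ⟩ := intermediate_value_Icc' hpi hc.continuousOn hmem
    exact ⟨θ, hθ⟩

section Main

variable {V W : Type*} [NormedAddCommGroup V] [InnerProductSpace ℝ V]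
  [NormedAddCommGroup W] [InnerProductSpace ℝ W]

/-- Change of basis which makes both components orthogonal. -/
theorem exists_diag (x y : V) (ξ η : W)
    (hind : ∀ a b : ℝ, a • x + b • y = 0 → a • ξ + b • η = 0 → a = 0 ∧ b = 0) :
    ∃ a b c d : ℝ, a * d - b * c ≠ 0 ∧ ⟪a • x + b • y, c • x + d • y⟫ = 0 ∧
      ⟪a • ξ + b • η, c • ξ + d • η⟫ = 0 := by
  -- total Gram matrix
  set g11 : ℝ := ⟪x, x⟫ + ⟪ξ, ξ⟫ with hg11
  set g12 : ℝ := ⟪x, y⟫ + ⟪ξ, η⟫ with hg12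
  set g22 : ℝ := ⟪y, y⟫ + ⟪η, η⟫ with hg22
  have hpos11 : 0 < g11 := by
    by_contra hcon
    push Not at hcon
    have hx : 0 ≤ (⟪x, x⟫ : ℝ) := real_inner_self_nonneg
    have hξ : 0 ≤ (⟪ξ, ξ⟫ : ℝ) := real_inner_self_nonneg
    have hx0 : x = 0 := inner_self_eq_zero.1 (by linarith : (⟪x, x⟫ : ℝ) = 0)
    have hξ0 : ξ = 0 := inner_self_eq_zero.1 (by linarith : (⟪ξ, ξ⟫ : ℝ) = 0)
    have := hind 1 0 (by rw [hx0]; simp) (by rw [hξ0]; simp)
    exact one_ne_zero this.1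
  -- the Gram-Schmidt vector
  set k : ℝ := g12 / g11 with hk
  set g0 : ℝ := ⟪y - k • x, y - k • x⟫ + ⟪η - k • ξ, η - k • ξ⟫ with hg0
  have hpos0 : 0 < g0 := by
    by_contra hcon
    push Not at hcon
    have hx : 0 ≤ (⟪y - k • x, y - k • x⟫ : ℝ) := real_inner_self_nonneg
    have hξ : 0 ≤ (⟪η - k • ξ, η - k • ξ⟫ : ℝ) := real_inner_self_nonneg
    have ex : (⟪y - k • x, y - k • x⟫ : ℝ) = 0 := by linarith
    have eξ : (⟪η - k • ξ, η - k • ξ⟫ : ℝ) = 0 := by linarith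
    have hx0 : y - k • x = 0 := inner_self_eq_zero.1 ex
    have hξ0 : η - k • ξ = 0 := inner_self_eq_zero.1 eξ
    have := hind (-k) 1 (by rw [neg_smul, one_smul, neg_add_eq_sub]; exact hx0)
      (by rw [neg_smul, one_smul, neg_add_eq_sub]; exact hξ0)
    exact one_ne_zero this.2
  have horth : ⟪x, y - k • x⟫ + ⟪ξ, η - k • ξ⟫ = (0 : ℝ) := by
    have e1 : ⟪x, y - k • x⟫ = ⟪x, y⟫ - k * ⟪x, x⟫ := by
      rw [inner_sub_right, inner_smul_right]
    have e2 : ⟪ξ, η - k • ξ⟫ = ⟪ξ, η⟫ - k * ⟪ξ, ξ⟫ := by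
      rw [inner_sub_right, inner_smul_right]
    rw [e1, e2]
    have : k * g11 = g12 := by rw [hk]; field_simp
    have h3 : k * ⟪x, x⟫ + k * ⟪ξ, ξ⟫ = ⟪x, y⟫ + ⟪ξ, η⟫ := by
      rw [← mul_add, ← hg11, this, hg12]
    linarith
  -- scalings
  set α : ℝ := (Real.sqrt g11)⁻¹ with hα
  set β : ℝ := (Real.sqrt g0)⁻¹ with hβ
  have hs11 : 0 < Real.sqrt g11 := Real.sqrt_pos.2 hpos11
  have hs0 : 0 < Real.sqrt g0 := Real.sqrt_pos.2 hpos0
  have hαpos : 0 < α := inv_pos.2 hs11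
  have hβpos : 0 < β := inv_pos.2 hs0
  have hα2 : α ^ 2 * g11 = 1 := by
    rw [hα, inv_pow, Real.sq_sqrt hpos11.le, inv_mul_cancel₀ hpos11.ne']
  have hβ2 : β ^ 2 * g0 = 1 := by
    rw [hβ, inv_pow, Real.sq_sqrt hpos0.le, inv_mul_cancel₀ hpos0.ne']
  -- orthonormal basis (x1, ξ1), (y1, η1)
  set x1 : V := α • x with hx1
  set ξ1 : W := α • ξ with hξ1
  set y1 : V := β • (y - k • x) with hy1
  set η1 : W := β • (η - k • ξ) with hη1
  have o11 : ⟪x1, x1⟫ + ⟪ξ1, ξ1⟫ = (1 : ℝ) := by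
    rw [hx1, hξ1]
    simp only [inner_smul_left, inner_smul_right, RCLike.conj_to_real]
    rw [← hα2, hg11]; ring
  have o22 : ⟪y1, y1⟫ + ⟪η1, η1⟫ = (1 : ℝ) := by
    rw [hy1, hη1]
    rw [real_inner_smul_left, real_inner_smul_right, real_inner_smul_left, real_inner_smul_right]
    rw [← hβ2, hg0]; ring
  have o12 : ⟪x1, y1⟫ + ⟪ξ1, η1⟫ = (0 : ℝ) := by
    rw [hx1, hξ1, hy1, hη1]
    rw [real_inner_smul_left, real_inner_smul_right, real_inner_smul_left, real_inner_smul_right]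
    have : α * (β * ⟪x, y - k • x⟫) + α * (β * ⟪ξ, η - k • ξ⟫)
      = α * β * (⟪x, y - k • x⟫ + ⟪ξ, η - k • ξ⟫) := by ring
    rw [this, horth, mul_zero]
  -- rotation
  obtain ⟨θ, hθ⟩ := exists_angle (⟪x1, x1⟫ : ℝ) ⟪x1, y1⟫ ⟪y1, y1⟫
  set cc := Real.cos θ with hcc
  set ss := Real.sin θ with hss
  have hcs : cc ^ 2 + ss ^ 2 = 1 := by rw [hcc, hss]; exact Real.cos_sq_add_sin_sq θ
  have offx : ⟪cc • x1 + ss • y1, (-ss) • x1 + cc • y1⟫ = (0 : ℝ) := by
    simp only [inner_add_left, inner_add_right, real_inner_smul_left, real_inner_smul_right]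
    rw [real_inner_comm x1 y1]
    linear_combination hθ
  have offξ : ⟪cc • ξ1 + ss • η1, (-ss) • ξ1 + cc • η1⟫ = (0 : ℝ) := by
    simp only [inner_add_left, inner_add_right, real_inner_smul_left, real_inner_smul_right]
    rw [real_inner_comm ξ1 η1]
    linear_combination (cc ^ 2 - ss ^ 2) * o12 + cc * ss * (o22 - o11) - hθ
  -- coefficients
  refine ⟨cc * α - ss * β * k, ss * β, -ss * α - cc * β * k, cc * β, ?_, ?_, ?_⟩
  · have : (cc * α - ss * β * k) * (cc * β) - ss * β * (-ss * α - cc * β * k)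
        = α * β * (cc ^ 2 + ss ^ 2) := by ring
    rw [this, hcs, mul_one]
    positivity
  · have e1 : (cc * α - ss * β * k) • x + (ss * β) • y = cc • x1 + ss • y1 := by
      rw [hx1, hy1]; module
    have e2 : (-ss * α - cc * β * k) • x + (cc * β) • y = (-ss) • x1 + cc • y1 := by
      rw [hx1, hy1]; module
    rw [e1, e2]; exact offx
  · have e1 : (cc * α - ss * β * k) • ξ + (ss * β) • η = cc • ξ1 + ss • η1 := by
      rw [hξ1, hη1]; module
    have e2 : (-ss * α - cc * β * k) • ξ + (cc * β) • η = (-ss) • ξ1 + cc • η1 := by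
      rw [hξ1, hη1]; module
    rw [e1, e2]; exact offξ

/-- Normal form of a 2-plane of `V × W`. -/
theorem normal_form (hV : 2 ≤ finrank ℝ V) (hW : 2 ≤ finrank ℝ W) (x y : V) (ξ η : W)
    (hind : ∀ a b : ℝ, a • x + b • y = 0 → a • ξ + b • η = 0 → a = 0 ∧ b = 0) :
    ∃ a b c d : ℝ, a * d - b * c ≠ 0 ∧
      ∃ e e' : V, ‖e‖ = 1 ∧ ‖e'‖ = 1 ∧ ⟪e, e'⟫ = 0 ∧
      ∃ f f' : W, ‖f‖ = 1 ∧ ‖f'‖ = 1 ∧ ⟪f, f'⟫ = 0 ∧
      ∃ s t p q : ℝ, 0 < s ^ 2 + p ^ 2 ∧ 0 < t ^ 2 + q ^ 2 ∧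
        a • x + b • y = s • e ∧ c • x + d • y = t • e' ∧
        a • ξ + b • η = p • f ∧ c • ξ + d • η = q • f' := by
  obtain ⟨a, b, c, d, hdet, h1, h2⟩ := exists_diag x y ξ η hind
  obtain ⟨e, e', he, he', hee, s, t, hs, ht⟩ := exists_orthonormal_pair hV _ _ h1
  obtain ⟨f, f', hf, hf', hff, p, q, hp, hq⟩ := exists_orthonormal_pair hW _ _ h2
  refine ⟨a, b, c, d, hdet, e, e', he, he', hee, f, f', hf, hf', hff, s, t, p, q,
    ?_, ?_, hs, ht, hp, hq⟩
  · by_contra hcon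
    push Not at hcon
    have hs0 : s = 0 := by nlinarith [sq_nonneg s, sq_nonneg p]
    have hp0 : p = 0 := by nlinarith [sq_nonneg s, sq_nonneg p]
    have hh := hind a b (by rw [hs, hs0, zero_smul]) (by rw [hp, hp0, zero_smul])
    apply hdet
    rw [hh.1, hh.2]; ring
  · by_contra hcon
    push Not at hcon
    have hs0 : t = 0 := by nlinarith [sq_nonneg t, sq_nonneg q]
    have hp0 : q = 0 := by nlinarith [sq_nonneg t, sq_nonneg q]
    have hh := hind c d (by rw [ht, hs0, zero_smul]) (by rw [hq, hp0, zero_smul])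
    apply hdet
    rw [hh.1, hh.2]; ring

end Main

end Pool.Agent.HS
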