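import Mathlib
import Pool.Agent.HS.Defs

/-!
# O'Neill's formula in coordinates (project HS, block M4)

A metric on `E × F` of the form
`G_m((x,s),(y,t)) = g_{m.1}(x,y) + Q_m(s - H_m x, t - H_m y)` makes the projection
`E × F → E` a Riemannian submersion onto `(E, g)`; the horizontal lift of `x` is `(x, H_m x)`.
`Rm G m (x, H_m x) (y, H_m y) = Rm g m.1 x y - (3/4) |[x,y]^vert|²`.
-/

open scoped Topology ContDiff

namespace Pool.Agent.HS

section calculus
variable {V F W : Type*} [NormedAddCommGroup V] [NormedSpace ℝ V]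
  [NormedAddCommGroup F] [NormedSpace ℝ F] [NormedAddCommGroup W] [NormedSpace ℝ W]

lemma oneill_dir {f : V → W} {p : V} (hf : ContDiffAt ℝ 2 f p) (v : V) :
    DifferentiableAt ℝ (fun m => fderiv ℝ f m v) p := by
  have h1 : ContDiffAt ℝ 1 (fderiv ℝ f) p := hf.fderiv_right (by norm_num)
  exact (h1.differentiableAt (by simp)).clm_apply (differentiableAt_const v)

lemma oneill_ev {f : V → W} {p : V} (hf : ContDiffAt ℝ 2 f p) :
    ∀ᶠ m in 𝓝 p, DifferentiableAt ℝ f m := by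
  filter_upwards [hf.eventually (by simp)] with m hm
  exact hm.differentiableAt (by simp)

/-- Leibniz rule for `Q m (a m) (b m)`. -/
lemma oneill_fderiv {Q : V → F →L[ℝ] F →L[ℝ] ℝ} {a b : V → F} {p : V}
    (hQ : DifferentiableAt ℝ Q p) (ha : DifferentiableAt ℝ a p) (hb : DifferentiableAt ℝ b p)
    (u : V) :
    fderiv ℝ (fun m => Q m (a m) (b m)) p u
      = fderiv ℝ Q p u (a p) (b p) + Q p (fderiv ℝ a p u) (b p) + Q p (a p) (fderiv ℝ b p u) := by
  have h1 := hQ.hasFDerivAt.clm_apply ha.hasFDerivAt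
  have h2 := h1.clm_apply hb.hasFDerivAt
  rw [h2.fderiv]
  simp
  ring

lemma oneill_diff {Q : V → F →L[ℝ] F →L[ℝ] ℝ} {a b : V → F} {p : V}
    (hQ : DifferentiableAt ℝ Q p) (ha : DifferentiableAt ℝ a p) (hb : DifferentiableAt ℝ b p) :
    DifferentiableAt ℝ (fun m => Q m (a m) (b m)) p :=
  (hQ.clm_apply ha).clm_apply hb

/-- Second derivative of `Q m (a m) (b m)` at a common zero of `a` and `b`. -/
lemma oneill_fderiv2 {Q : V → F →L[ℝ] F →L[ℝ] ℝ} {a b : V → F} {p : V}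
    (hQ : ContDiffAt ℝ 2 Q p) (ha : ContDiffAt ℝ 2 a p) (hb : ContDiffAt ℝ 2 b p)
    (ha0 : a p = 0) (hb0 : b p = 0) (u v : V) :
    fderiv ℝ (fun m => fderiv ℝ (fun m' => Q m' (a m') (b m')) m v) p u
      = Q p (fderiv ℝ a p u) (fderiv ℝ b p v) + Q p (fderiv ℝ a p v) (fderiv ℝ b p u) := by
  have heq : (fun m => fderiv ℝ (fun m' => Q m' (a m') (b m')) m v) =ᶠ[𝓝 p]
      fun m => fderiv ℝ Q m v (a m) (b m) + Q m (fderiv ℝ a m v) (b m)
        + Q m (a m) (fderiv ℝ b m v) := by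
    filter_upwards [oneill_ev hQ, oneill_ev ha, oneill_ev hb] with m h1 h2 h3
    exact oneill_fderiv h1 h2 h3 v
  rw [heq.fderiv_eq]
  have hQ1 : DifferentiableAt ℝ Q p := hQ.differentiableAt (by simp)
  have ha1 : DifferentiableAt ℝ a p := ha.differentiableAt (by simp)
  have hb1 : DifferentiableAt ℝ b p := hb.differentiableAt (by simp)
  have hQv := oneill_dir hQ v
  have hav := oneill_dir ha v
  have hbv := oneill_dir hb v
  have e1 := oneill_diff hQv ha1 hb1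
  have e2 := oneill_diff hQ1 hav hb1
  have e3 := oneill_diff hQ1 ha1 hbv
  rw [fderiv_fun_add (e1.fun_add e2) e3, fderiv_fun_add e1 e2]
  simp only [add_apply]
  rw [oneill_fderiv hQv ha1 hb1 u, oneill_fderiv hQ1 hav hb1 u,
    oneill_fderiv hQ1 ha1 hbv u, ha0, hb0]
  simp
  ring

/-- Differentiability of `fun m => fderiv (Q m (a m) (b m)) m v`. -/
lemma oneill_dir2 {Q : V → F →L[ℝ] F →L[ℝ] ℝ} {a b : V → F} {p : V}
    (hQ : ContDiffAt ℝ 2 Q p) (ha : ContDiffAt ℝ 2 a p) (hb : ContDiffAt ℝ 2 b p) (v : V) :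
    DifferentiableAt ℝ (fun m => fderiv ℝ (fun m' => Q m' (a m') (b m')) m v) p :=
  oneill_dir ((hQ.clm_apply ha).clm_apply hb) v

/-- Second derivatives of a function of the first coordinate. -/
lemma oneill_fst1 {φ : V → ℝ} {m : V × F} (hφ : DifferentiableAt ℝ φ m.1) (v : V × F) :
    fderiv ℝ (fun q : V × F => φ q.1) m v = fderiv ℝ φ m.1 v.1 := by
  have h : HasFDerivAt (fun q : V × F => φ q.1)
      ((fderiv ℝ φ m.1).comp (ContinuousLinearMap.fst ℝ V F)) m :=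
    hφ.hasFDerivAt.comp m hasFDerivAt_fst
  rw [h.fderiv]
  rfl

lemma oneill_fst2 {φ : V → ℝ} {m : V × F} (hφ : ContDiffAt ℝ 2 φ m.1) (u v : V × F) :
    fderiv ℝ (fun q : V × F => fderiv ℝ (fun r : V × F => φ r.1) q v) m u
      = fderiv ℝ (fun b => fderiv ℝ φ b v.1) m.1 u.1 := by
  have hev : ∀ᶠ q : V × F in 𝓝 m, DifferentiableAt ℝ φ q.1 :=
    (continuous_fst.tendsto m).eventually (oneill_ev hφ)
  have heq : (fun q : V × F => fderiv ℝ (fun r : V × F => φ r.1) q v) =ᶠ[𝓝 m]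
      fun q => (fun b => fderiv ℝ φ b v.1) q.1 := by
    filter_upwards [hev] with q hq
    exact oneill_fst1 hq v
  rw [heq.fderiv_eq, oneill_fst1 (oneill_dir hφ v.1) u]

lemma oneill_fst2_diff {φ : V → ℝ} {m : V × F} (hφ : ContDiffAt ℝ 2 φ m.1) (v : V × F) :
    DifferentiableAt ℝ (fun q : V × F => fderiv ℝ (fun r : V × F => φ r.1) q v) m :=
  oneill_dir (ContDiffAt.comp m hφ contDiffAt_fst) v

end calculus

section linear
variable {E : Type*} [NormedAddCommGroup E] [NormedSpace ℝ E] [FiniteDimensional ℝ E]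

/-- The equivalence `E ≃ E*` given by an inner product. -/
lemma oneill_equiv {g : E →L[ℝ] E →L[ℝ] ℝ} (hg : IsInner g) :
    ∃ e : E ≃L[ℝ] (E →L[ℝ] ℝ), (e : E →L[ℝ] (E →L[ℝ] ℝ)) = g := by
  have hinj : Function.Injective g := by
    rw [injective_iff_map_eq_zero]
    intro v hv
    by_contra hne
    have := hg.pos v hne
    rw [hv] at this
    simp at this
  have hdim : Module.finrank ℝ E = Module.finrank ℝ (E →L[ℝ] ℝ) := by
    have h1 : Module.finrank ℝ (E →L[ℝ] ℝ) = Module.finrank ℝ (E →ₗ[ℝ] ℝ) :=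
      (LinearMap.toContinuousLinearMap (𝕜 := ℝ) (E := E) (F' := ℝ)).symm.finrank_eq
    rw [h1]
    exact (Subspace.dual_finrank_eq (K := ℝ) (V := E)).symm
  let e0 : E ≃ₗ[ℝ] (E →L[ℝ] ℝ) :=
    LinearEquiv.ofInjectiveOfFinrankEq (g : E →ₗ[ℝ] (E →L[ℝ] ℝ)) hinj hdim
  refine ⟨e0.toContinuousLinearEquiv, ?_⟩
  ext v w
  rfl

lemma oneill_sharp_spec {g : E →L[ℝ] E →L[ℝ] ℝ} (hg : IsInner g) (α : E →L[ℝ] ℝ) :
    g (sharp g α) = α := by
  obtain ⟨e, he⟩ := oneill_equiv hg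
  rw [sharp, ← he, ContinuousLinearMap.inverse_equiv]
  simp

lemma oneill_sharp_eq {g : E →L[ℝ] E →L[ℝ] ℝ} (hg : IsInner g) {α : E →L[ℝ] ℝ} {v : E}
    (h : ∀ z, g v z = α z) : sharp g α = v := by
  obtain ⟨e, he⟩ := oneill_equiv hg
  have h1 : α = g v := by ext z; exact (h z).symm
  rw [sharp, h1, ← he, ContinuousLinearMap.inverse_equiv]
  simp

end linear

section main
variable {E F : Type*} [NormedAddCommGroup E] [NormedSpace ℝ E]
  [NormedAddCommGroup F] [NormedSpace ℝ F]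

lemma oneill_gam_apply {G : E → E →L[ℝ] E →L[ℝ] ℝ} {p : E} (hG : DifferentiableAt ℝ G p)
    (x y z : E) :
    Gam G p x y z = (1 / 2) * (D1 G p x y z + D1 G p y x z - D1 G p z x y) := by
  have h : ∀ a b : E, fderiv ℝ (fun q => G q a) p b z = D1 G p b a z := by
    intro a b
    have h1 : DifferentiableAt ℝ (fun q => G q a) p :=
      hG.clm_apply (differentiableAt_const a)
    have h2 := h1.hasFDerivAt.clm_apply (hasFDerivAt_const z p)
    rw [D1, h2.fderiv]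
    simp
  simp only [Gam, smul_apply, add_apply, sub_apply, h, smul_eq_mul]
  rfl

variable {g : E → E →L[ℝ] E →L[ℝ] ℝ} {Q : E × F → F →L[ℝ] F →L[ℝ] ℝ} {H : E × F → E →L[ℝ] F}
  {G : E × F → (E × F) →L[ℝ] (E × F) →L[ℝ] ℝ} {m0 : E × F}

/-- The derivative of `m ↦ s - H m x`. -/
lemma oneill_a_fderiv (hH : DifferentiableAt ℝ H m0) (s : F) (x : E) (u : E × F) :
    fderiv ℝ (fun m => s - H m x) m0 u = - fderiv ℝ H m0 u x := by
  have h1 := hH.hasFDerivAt.clm_apply (hasFDerivAt_const x m0)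
  have h2 := (hasFDerivAt_const s m0).sub h1
  rw [show (fun m => s - H m x) = (fun _ => s) - fun m => H m x from rfl, h2.fderiv]
  simp

lemma oneill_a_contDiff (hH : ContDiffAt ℝ 2 H m0) (s : F) (x : E) :
    ContDiffAt ℝ 2 (fun m => s - H m x) m0 :=
  contDiffAt_const.sub (hH.clm_apply contDiffAt_const)

/-- First derivatives of the total metric. -/
lemma oneill_D1
    (heq : ∀ᶠ m in 𝓝 m0, ∀ ξ η : E × F,
      G m ξ η = g m.1 ξ.1 η.1 + Q m (ξ.2 - H m ξ.1) (η.2 - H m η.1))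
    (hg : ContDiffAt ℝ 2 g m0.1) (hQ : ContDiffAt ℝ 2 Q m0) (hH : ContDiffAt ℝ 2 H m0)
    (u ξ η : E × F) :
    D1 G m0 u ξ η = D1 g m0.1 u.1 ξ.1 η.1
      + fderiv ℝ Q m0 u (ξ.2 - H m0 ξ.1) (η.2 - H m0 η.1)
      - Q m0 (fderiv ℝ H m0 u ξ.1) (η.2 - H m0 η.1)
      - Q m0 (ξ.2 - H m0 ξ.1) (fderiv ℝ H m0 u η.1) := by
  have h1 : (fun q => G q ξ η) =ᶠ[𝓝 m0] fun m => g m.1 ξ.1 η.1
      + Q m ((fun m => ξ.2 - H m ξ.1) m) ((fun m => η.2 - H m η.1) m) := by
    filter_upwards [heq] with m hm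
    exact hm ξ η
  have hgx : ContDiffAt ℝ 2 (fun b => g b ξ.1 η.1) m0.1 :=
    (hg.clm_apply contDiffAt_const).clm_apply contDiffAt_const
  have d1 : DifferentiableAt ℝ (fun m : E × F => g m.1 ξ.1 η.1) m0 :=
    (ContDiffAt.comp m0 hgx contDiffAt_fst).differentiableAt (by simp)
  have hQ1 : DifferentiableAt ℝ Q m0 := hQ.differentiableAt (by simp)
  have hH1 : DifferentiableAt ℝ H m0 := hH.differentiableAt (by simp)
  have a1 : DifferentiableAt ℝ (fun m => ξ.2 - H m ξ.1) m0 :=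
    (oneill_a_contDiff hH ξ.2 ξ.1).differentiableAt (by simp)
  have a2 : DifferentiableAt ℝ (fun m => η.2 - H m η.1) m0 :=
    (oneill_a_contDiff hH η.2 η.1).differentiableAt (by simp)
  rw [D1, h1.fderiv_eq, fderiv_fun_add d1 (oneill_diff hQ1 a1 a2), add_apply,
    oneill_fderiv hQ1 a1 a2, oneill_a_fderiv hH1, oneill_a_fderiv hH1,
    oneill_fst1 (φ := fun b => g b ξ.1 η.1) (hgx.differentiableAt (by simp)) u, D1]
  simp
  ring

/-- Second derivatives of the total metric on horizontal vectors, at a point with `H = 0`. -/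
lemma oneill_D2
    (heq : ∀ᶠ m in 𝓝 m0, ∀ ξ η : E × F,
      G m ξ η = g m.1 ξ.1 η.1 + Q m (ξ.2 - H m ξ.1) (η.2 - H m η.1))
    (hg : ContDiffAt ℝ 2 g m0.1) (hQ : ContDiffAt ℝ 2 Q m0) (hH : ContDiffAt ℝ 2 H m0)
    (hH0 : H m0 = 0) (u v : E × F) (x y : E) :
    D2 G m0 u v (x, 0) (y, 0) = D2 g m0.1 u.1 v.1 x y
      + Q m0 (fderiv ℝ H m0 u x) (fderiv ℝ H m0 v y)
      + Q m0 (fderiv ℝ H m0 v x) (fderiv ℝ H m0 u y) := by
  have h1 : (fun q => G q (x, 0) (y, 0)) =ᶠ[𝓝 m0] fun m => g m.1 x y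
      + Q m ((fun m => (0 : F) - H m x) m) ((fun m => (0 : F) - H m y) m) := by
    filter_upwards [heq] with m hm
    exact hm (x, 0) (y, 0)
  have hgx : ContDiffAt ℝ 2 (fun b => g b x y) m0.1 :=
    (hg.clm_apply contDiffAt_const).clm_apply contDiffAt_const
  have hgx' : ContDiffAt ℝ 2 (fun m : E × F => g m.1 x y) m0 :=
    ContDiffAt.comp m0 hgx contDiffAt_fst
  have a1 := oneill_a_contDiff hH 0 x
  have a2 := oneill_a_contDiff hH 0 y
  have hQa : ContDiffAt ℝ 2 (fun m => Q m ((fun m => (0 : F) - H m x) m)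
      ((fun m => (0 : F) - H m y) m)) m0 := (hQ.clm_apply a1).clm_apply a2
  have hHd : DifferentiableAt ℝ H m0 := hH.differentiableAt (by simp)
  have h2 : (fun q => fderiv ℝ (fun r => G r (x, 0) (y, 0)) q v) =ᶠ[𝓝 m0]
      fun q => fderiv ℝ (fun m : E × F => g m.1 x y) q v
        + fderiv ℝ (fun m => Q m ((fun m => (0 : F) - H m x) m)
            ((fun m => (0 : F) - H m y) m)) q v := by
    filter_upwards [h1.fderiv (𝕜 := ℝ), oneill_ev hgx', oneill_ev hQa] with q hq h3 h4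
    rw [hq, fderiv_fun_add h3 h4, add_apply]
  rw [D2, h2.fderiv_eq, fderiv_fun_add (oneill_dir hgx' v) (oneill_dir hQa v), add_apply,
    oneill_fst2 hgx, oneill_fderiv2 hQ a1 a2 (by simp [hH0]) (by simp [hH0]),
    oneill_a_fderiv hHd, oneill_a_fderiv hHd, oneill_a_fderiv hHd, oneill_a_fderiv hHd, D2]
  simp
  ring

variable [FiniteDimensional ℝ E] [FiniteDimensional ℝ F]

/-- **O'Neill's formula** at a point where the horizontal space is `E × 0`. -/
theorem oneill_zero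
    (heq : ∀ᶠ m in 𝓝 m0, ∀ ξ η : E × F,
      G m ξ η = g m.1 ξ.1 η.1 + Q m (ξ.2 - H m ξ.1) (η.2 - H m η.1))
    (hG : DifferentiableAt ℝ G m0)
    (hg : ContDiffAt ℝ 2 g m0.1) (hQ : ContDiffAt ℝ 2 Q m0) (hH : ContDiffAt ℝ 2 H m0)
    (hg0 : IsInner (g m0.1)) (hQ0 : IsInner (Q m0)) (hH0 : H m0 = 0) (x y : E) :
    Rm G m0 (x, 0) (y, 0) = Rm g m0.1 x y
      - (3 / 4) * Q m0 (fderiv ℝ H m0 (x, 0) y - fderiv ℝ H m0 (y, 0) x)
          (fderiv ℝ H m0 (x, 0) y - fderiv ℝ H m0 (y, 0) x) := by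
  have hGm : ∀ ξ η : E × F, G m0 ξ η = g m0.1 ξ.1 η.1 + Q m0 ξ.2 η.2 := by
    intro ξ η
    have := heq.self_of_nhds ξ η
    simpa [hH0] using this
  have hGI : IsInner (G m0) := by
    refine ⟨fun ξ η => ?_, fun ξ hξ => ?_⟩
    · rw [hGm, hGm, hg0.symm, hQ0.symm]
    · rw [hGm]
      rcases eq_or_ne ξ.1 0 with h1 | h1
      · have h2 : ξ.2 ≠ 0 := fun h2 => hξ (Prod.ext h1 h2)
        rw [h1]
        simpa using hQ0.pos _ h2
      · have h3 := hg0.pos _ h1
        rcases eq_or_ne ξ.2 0 with h2 | h2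
        · rw [h2]
          simpa using h3
        · exact add_pos h3 (hQ0.pos _ h2)
  have hgd : DifferentiableAt ℝ g m0.1 := hg.differentiableAt (by simp)
  -- the Christoffel covectors
  have hGam : ∀ (x y : E) (ζ : E × F), Gam G m0 (x, 0) (y, 0) ζ = Gam g m0.1 x y ζ.1
      - (1 / 2) * Q m0 (fderiv ℝ H m0 (x, 0) y + fderiv ℝ H m0 (y, 0) x) ζ.2 := by
    intro x y ζ
    rw [oneill_gam_apply hG, oneill_gam_apply hgd, oneill_D1 heq hg hQ hH,
      oneill_D1 heq hg hQ hH, oneill_D1 heq hg hQ hH]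
    simp [hH0]
    ring
  have hsharp : ∀ x y : E, sharp (G m0) (Gam G m0 (x, 0) (y, 0))
      = (sharp (g m0.1) (Gam g m0.1 x y),
        -(1 / 2 : ℝ) • (fderiv ℝ H m0 (x, 0) y + fderiv ℝ H m0 (y, 0) x)) := by
    intro x y
    refine oneill_sharp_eq hGI fun ζ => ?_
    rw [hGm, hGam, oneill_sharp_spec hg0]
    simp
    ring
  have hc1 : cov (G m0) (Gam G m0 (x, 0) (y, 0)) (Gam G m0 (x, 0) (y, 0))
      = cov (g m0.1) (Gam g m0.1 x y) (Gam g m0.1 x y)
        + (1 / 4) * Q m0 (fderiv ℝ H m0 (x, 0) y + fderiv ℝ H m0 (y, 0) x)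
            (fderiv ℝ H m0 (x, 0) y + fderiv ℝ H m0 (y, 0) x) := by
    rw [cov, hsharp, hGam, cov]
    simp
    ring
  have hc2 : cov (G m0) (Gam G m0 (x, 0) (x, 0)) (Gam G m0 (y, 0) (y, 0))
      = cov (g m0.1) (Gam g m0.1 x x) (Gam g m0.1 y y)
        + Q m0 (fderiv ℝ H m0 (x, 0) x) (fderiv ℝ H m0 (y, 0) y) := by
    rw [cov, hsharp, hGam, cov]
    simp
    ring
  rw [Rm, hc1, hc2, oneill_D2 heq hg hQ hH hH0, oneill_D2 heq hg hQ hH hH0,
    oneill_D2 heq hg hQ hH hH0, Rm]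
  simp only [map_add, map_sub, add_apply, sub_apply]
  have hs := hQ0.symm (fderiv ℝ H m0 (x, 0) y) (fderiv ℝ H m0 (y, 0) x)
  have hs2 := hQ0.symm (fderiv ℝ H m0 (x, 0) x) (fderiv ℝ H m0 (y, 0) y)
  rw [hs]
  ring

end main

section affine
variable {V : Type*} [NormedAddCommGroup V] [NormedSpace ℝ V]

lemma oneill_aff0 {W : Type*} [NormedAddCommGroup W] [NormedSpace ℝ W] {f : V → W}
    (L : V ≃L[ℝ] V) (c p : V) (hf : ContDiffAt ℝ 2 f (c + L p)) :
    ContDiffAt ℝ 2 (fun q => f (c + L q)) p :=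
  ContDiffAt.comp p hf (contDiffAt_const.add L.contDiff.contDiffAt)

/-- First derivatives and affine changes of coordinates. -/
lemma oneill_aff1 {f : V → ℝ} (L : V ≃L[ℝ] V) (c p u : V) (hf : DifferentiableAt ℝ f (c + L p)) :
    fderiv ℝ (fun q => f (c + L q)) p u = fderiv ℝ f (c + L p) (L u) := by
  have h1 : HasFDerivAt (fun q => c + L q) (L : V →L[ℝ] V) p :=
    (L : V →L[ℝ] V).hasFDerivAt.const_add c
  have h2 := hf.hasFDerivAt.comp p h1
  rw [show (fun q => f (c + L q)) = f ∘ fun q => c + L q from rfl, h2.fderiv]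
  rfl

lemma oneill_aff2 {f : V → ℝ} (L : V ≃L[ℝ] V) (c p u v : V) (hf : ContDiffAt ℝ 2 f (c + L p)) :
    fderiv ℝ (fun q => fderiv ℝ (fun r => f (c + L r)) q v) p u
      = fderiv ℝ (fun q => fderiv ℝ f q (L v)) (c + L p) (L u) := by
  have hcont : Filter.Tendsto (fun q => c + L q) (𝓝 p) (𝓝 (c + L p)) :=
    (continuous_const.add L.continuous).tendsto p
  have heq : (fun q => fderiv ℝ (fun r => f (c + L r)) q v) =ᶠ[𝓝 p]
      fun q => (fun q' => fderiv ℝ f q' (L v)) (c + L q) := by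
    filter_upwards [hcont.eventually (oneill_ev hf)] with q hq
    exact oneill_aff1 L c q v hq
  rw [heq.fderiv_eq]
  exact oneill_aff1 L c p u (oneill_dir hf (L v))

variable [FiniteDimensional ℝ V]

/-- The curvature form and affine changes of coordinates. -/
theorem Rm_affine {G : V → V →L[ℝ] V →L[ℝ] ℝ} (L : V ≃L[ℝ] V) (c p : V)
    (hG : ContDiffAt ℝ 2 G (c + L p)) (hI : IsInner (G (c + L p))) (x y : V) :
    Rm (fun q => (G (c + L q)).bilinearComp (L : V →L[ℝ] V) (L : V →L[ℝ] V)) p x y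
      = Rm G (c + L p) (L x) (L y) := by
  set G' : V → V →L[ℝ] V →L[ℝ] ℝ :=
    fun q => (G (c + L q)).bilinearComp (L : V →L[ℝ] V) (L : V →L[ℝ] V) with hG'
  have happ : ∀ q u v, G' q u v = G (c + L q) (L u) (L v) := fun q u v => rfl
  have hGuv : ∀ u v : V, ContDiffAt ℝ 2 (fun q => G q u v) (c + L p) := fun u v =>
    (hG.clm_apply contDiffAt_const).clm_apply contDiffAt_const
  have hD1 : ∀ u a b, D1 G' p u a b = D1 G (c + L p) (L u) (L a) (L b) := fun u a b =>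
    oneill_aff1 (f := fun q => G q (L a) (L b)) L c p u ((hGuv _ _).differentiableAt (by simp))
  have hD2 : ∀ u v a b, D2 G' p u v a b = D2 G (c + L p) (L u) (L v) (L a) (L b) :=
    fun u v a b => oneill_aff2 (f := fun q => G q (L a) (L b)) L c p u v (hGuv _ _)
  have hI' : IsInner (G' p) := by
    refine ⟨fun u v => ?_, fun u hu => ?_⟩
    · rw [happ, happ, hI.symm]
    · rw [happ]
      exact hI.pos _ (by simpa using hu)
  have hGd : DifferentiableAt ℝ G (c + L p) := hG.differentiableAt (by simp)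
  have hbil : ∀ B : V →L[ℝ] V →L[ℝ] ℝ, B.bilinearComp (L : V →L[ℝ] V) (L : V →L[ℝ] V)
      = (((L : V →L[ℝ] V).precomp ℝ).comp B).comp (L : V →L[ℝ] V) := by
    intro B
    ext u v
    rfl
  have hG'd : DifferentiableAt ℝ G' p := by
    have h1 : DifferentiableAt ℝ (fun q => G (c + L q)) p :=
      (oneill_aff0 (f := G) L c p hG).differentiableAt (by simp)
    have h3 : G' = fun q => (((L : V →L[ℝ] V).precomp ℝ).comp (G (c + L q))).comp
        (L : V →L[ℝ] V) := by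
      funext q
      exact hbil _
    rw [h3]
    exact ((differentiableAt_const _).clm_comp h1).clm_comp (differentiableAt_const _)
  have hGam : ∀ u v w, Gam G' p u v w = Gam G (c + L p) (L u) (L v) (L w) := by
    intro u v w
    rw [oneill_gam_apply hG'd, oneill_gam_apply hGd, hD1, hD1, hD1]
  have hsh : ∀ u v, L (sharp (G' p) (Gam G' p u v))
      = sharp (G (c + L p)) (Gam G (c + L p) (L u) (L v)) := by
    intro u v
    symm
    refine oneill_sharp_eq hI fun z => ?_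
    have h1 := oneill_sharp_spec hI' (Gam G' p u v)
    have h2 := congrArg (fun α => α (L.symm z)) h1
    simp only [happ, hGam] at h2
    simpa using h2
  have hcov : ∀ u v a b, cov (G' p) (Gam G' p u v) (Gam G' p a b)
      = cov (G (c + L p)) (Gam G (c + L p) (L u) (L v)) (Gam G (c + L p) (L a) (L b)) := by
    intro u v a b
    rw [cov, cov, hGam, hsh]
  rw [Rm, Rm, hcov, hcov, hD2, hD2, hD2]

end affine

section general
variable {E F : Type*} [NormedAddCommGroup E] [NormedSpace ℝ E]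
  [NormedAddCommGroup F] [NormedSpace ℝ F] [FiniteDimensional ℝ E] [FiniteDimensional ℝ F]
  {g : E → E →L[ℝ] E →L[ℝ] ℝ} {Q : E × F → F →L[ℝ] F →L[ℝ] ℝ} {H : E × F → E →L[ℝ] F}
  {G : E × F → (E × F) →L[ℝ] (E × F) →L[ℝ] ℝ} {m0 : E × F}

/-- The shear `(x, s) ↦ (x, s + A x)`. -/
noncomputable def shear (A : E →L[ℝ] F) : (E × F) ≃L[ℝ] (E × F) :=
  ContinuousLinearEquiv.equivOfInverse
    ((ContinuousLinearMap.fst ℝ E F).prod
      (ContinuousLinearMap.snd ℝ E F + A.comp (ContinuousLinearMap.fst ℝ E F)))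
    ((ContinuousLinearMap.fst ℝ E F).prod
      (ContinuousLinearMap.snd ℝ E F - A.comp (ContinuousLinearMap.fst ℝ E F)))
    (fun x => by simp) (fun x => by simp)

omit [FiniteDimensional ℝ E] [FiniteDimensional ℝ F] in
@[simp] lemma shear_apply (A : E →L[ℝ] F) (ξ : E × F) : shear A ξ = (ξ.1, ξ.2 + A ξ.1) := rfl

/-- **O'Neill's formula in coordinates.**  If near `m0`
`G_m((x,s),(y,t)) = g_{m.1}(x,y) + Q_m(s - H_m x, t - H_m y)`, then the curvature of `G` on the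
horizontal plane spanned by `(x, H x)`, `(y, H y)` is the curvature of `g` on the plane `x, y`
minus `(3/4) |[x,y]^vert|²`. -/
theorem oneill
    (heq : ∀ᶠ m in 𝓝 m0, ∀ ξ η : E × F,
      G m ξ η = g m.1 ξ.1 η.1 + Q m (ξ.2 - H m ξ.1) (η.2 - H m η.1))
    (hG : ContDiffAt ℝ 2 G m0)
    (hg : ContDiffAt ℝ 2 g m0.1) (hQ : ContDiffAt ℝ 2 Q m0) (hH : ContDiffAt ℝ 2 H m0)
    (hg0 : IsInner (g m0.1)) (hQ0 : IsInner (Q m0)) (x y : E) :
    Rm G m0 (x, H m0 x) (y, H m0 y) = Rm g m0.1 x y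
      - (3 / 4) * Q m0 (fderiv ℝ H m0 (x, H m0 x) y - fderiv ℝ H m0 (y, H m0 y) x)
          (fderiv ℝ H m0 (x, H m0 x) y - fderiv ℝ H m0 (y, H m0 y) x) := by
  set L : (E × F) ≃L[ℝ] (E × F) := shear (H m0) with hL
  set c : E × F := m0 - L m0 with hc
  have hcm : c + L m0 = m0 := by simp [hc]
  have hc1 : c.1 = 0 := by simp [hc, hL]
  -- the metric in the new coordinates
  set G' : E × F → (E × F) →L[ℝ] (E × F) →L[ℝ] ℝ :=
    fun q => (G (c + L q)).bilinearComp (L : (E × F) →L[ℝ] (E × F)) (L : (E × F) →L[ℝ] (E × F))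
    with hG'
  have hGI : IsInner (G m0) := by
    have hGm : ∀ ξ η : E × F, G m0 ξ η = g m0.1 ξ.1 η.1
        + Q m0 (ξ.2 - H m0 ξ.1) (η.2 - H m0 η.1) := heq.self_of_nhds
    refine ⟨fun ξ η => ?_, fun ξ hξ => ?_⟩
    · rw [hGm, hGm, hg0.symm, hQ0.symm]
    · rw [hGm]
      rcases eq_or_ne ξ.1 0 with h1 | h1
      · have h2 : ξ.2 ≠ 0 := fun h2 => hξ (Prod.ext h1 h2)
        rw [h1]
        simpa using hQ0.pos _ h2
      · have h3 := hg0.pos _ h1
        rcases eq_or_ne (ξ.2 - H m0 ξ.1) 0 with h2 | h2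
        · rw [h2]
          simpa using h3
        · exact add_pos h3 (hQ0.pos _ h2)
  have hRm := Rm_affine (G := G) L c m0 (by rw [hcm]; exact hG) (by rw [hcm]; exact hGI)
    (x, 0) (y, 0)
  have e1 : ∀ z : E, L (z, 0) = (z, H m0 z) := fun z => by simp [hL]
  rw [hcm, e1, e1] at hRm
  rw [← hRm]
  have hcont : Filter.Tendsto (fun q => c + L q) (𝓝 m0) (𝓝 m0) := by
    have h := (continuous_const.add L.continuous).tendsto m0 (f := fun q => c + L q)
    rwa [hcm] at h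
  have hfst : ∀ q : E × F, (c + L q).1 = q.1 := fun q => by simp [hc1, hL]
  have heq' : ∀ᶠ m in 𝓝 m0, ∀ ξ η : E × F,
      G' m ξ η = g m.1 ξ.1 η.1 + (fun q => Q (c + L q)) m
        (ξ.2 - (fun q => H (c + L q) - H m0) m ξ.1)
        (η.2 - (fun q => H (c + L q) - H m0) m η.1) := by
    filter_upwards [hcont.eventually heq] with m hm ξ η
    have h1 := hm (L ξ) (L η)
    have h2 : G' m ξ η = G (c + L m) (L ξ) (L η) := rfl
    rw [h2, h1, hfst]
    simp only [hL, shear_apply, sub_apply]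
    congr 2
    · congr 1
      abel
    · abel
  have hQ' : ContDiffAt ℝ 2 (fun q => Q (c + L q)) m0 :=
    oneill_aff0 L c m0 (by rw [hcm]; exact hQ)
  have hH1 : ContDiffAt ℝ 2 (fun q => H (c + L q)) m0 :=
    oneill_aff0 L c m0 (by rw [hcm]; exact hH)
  have hH' : ContDiffAt ℝ 2 (fun q => H (c + L q) - H m0) m0 := hH1.sub contDiffAt_const
  have hG'd : DifferentiableAt ℝ G' m0 := by
    have h1 : DifferentiableAt ℝ (fun q => G (c + L q)) m0 :=
      (oneill_aff0 (f := G) L c m0 (by rw [hcm]; exact hG)).differentiableAt (by simp)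
    have h3 : G' = fun q => (((L : (E × F) →L[ℝ] (E × F)).precomp ℝ).comp (G (c + L q))).comp
        (L : (E × F) →L[ℝ] (E × F)) := by
      funext q
      ext u v <;> rfl
    rw [h3]
    exact ((differentiableAt_const _).clm_comp h1).clm_comp (differentiableAt_const _)
  have hfd : ∀ u : E × F, ∀ z : E, fderiv ℝ (fun q => H (c + L q) - H m0) m0 u z
      = fderiv ℝ H m0 (L u) z := by
    intro u z
    have h1 : HasFDerivAt (fun q => c + L q) (L : (E × F) →L[ℝ] (E × F)) m0 :=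
      (L : (E × F) →L[ℝ] (E × F)).hasFDerivAt.const_add c
    have h2 : HasFDerivAt H (fderiv ℝ H m0) (c + L m0) := by
      rw [hcm]
      exact (hH.differentiableAt (by simp)).hasFDerivAt
    have h3 := (h2.comp m0 h1).sub_const (H m0)
    rw [show (fun q => H (c + L q) - H m0) = fun q => (H ∘ fun q => c + L q) q - H m0 from rfl,
      h3.fderiv]
    rfl
  have key := oneill_zero (g := g) (Q := fun q => Q (c + L q))
    (H := fun q => H (c + L q) - H m0) (G := G') (m0 := m0) heq' hG'd hg hQ' hH' hg0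
    (by simpa [hcm] using hQ0) (by simp [hcm]) x y
  rw [hfd, hfd, e1, e1] at key
  rw [key]
  simp only [hcm]

/-- Riemannian submersions do not decrease the curvature of horizontal planes. -/
theorem oneill_le
    (heq : ∀ᶠ m in 𝓝 m0, ∀ ξ η : E × F,
      G m ξ η = g m.1 ξ.1 η.1 + Q m (ξ.2 - H m ξ.1) (η.2 - H m η.1))
    (hG : ContDiffAt ℝ 2 G m0)
    (hg : ContDiffAt ℝ 2 g m0.1) (hQ : ContDiffAt ℝ 2 Q m0) (hH : ContDiffAt ℝ 2 H m0)
    (hg0 : IsInner (g m0.1)) (hQ0 : IsInner (Q m0)) (x y : E) :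
    Rm G m0 (x, H m0 x) (y, H m0 y) ≤ Rm g m0.1 x y := by
  rw [oneill heq hG hg hQ hH hg0 hQ0 x y]
  set w := fderiv ℝ H m0 (x, H m0 x) y - fderiv ℝ H m0 (y, H m0 y) x
  have : 0 ≤ Q m0 w w := by
    rcases eq_or_ne w 0 with h | h
    · simp [h]
    · exact (hQ0.pos w h).le
  linarith

/-- Nonnegative curvature passes to the base. -/
theorem oneill_nonneg
    (heq : ∀ᶠ m in 𝓝 m0, ∀ ξ η : E × F,
      G m ξ η = g m.1 ξ.1 η.1 + Q m (ξ.2 - H m ξ.1) (η.2 - H m η.1))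
    (hG : ContDiffAt ℝ 2 G m0)
    (hg : ContDiffAt ℝ 2 g m0.1) (hQ : ContDiffAt ℝ 2 Q m0) (hH : ContDiffAt ℝ 2 H m0)
    (hg0 : IsInner (g m0.1)) (hQ0 : IsInner (Q m0)) (h : NonnegAt G m0) :
    NonnegAt g m0.1 := fun x y =>
  (h _ _).trans (oneill_le heq hG hg hQ hH hg0 hQ0 x y)

end general

end Pool.Agent.HS
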