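import Pool.Agent.HS.CoordSk
import Pool.Agent.HS.Gauss

/-!
# Block POLAR of project HS: the curvature of the sphere bundles
-/

set_option maxSynthPendingDepth 3

namespace Pool.Agent.HS

open Matrix Topology Filter
open scoped ContDiff

/-- the sphere bundle of radius `t` in the coordinates `(u, v)` -/
noncomputable def PsiS (ζ : V2 → V3) (t : ℝ) (p : V2 × V2) : V2 × V3 := (p.1, t • ζ p.2)

/-- polar coordinates `((u, v), t) ↦ (u, t ζ(v))` -/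
noncomputable def PiS (ζ : V2 → V3) (p : (V2 × V2) × ℝ) : V2 × V3 := (p.1.1, p.2 • ζ p.1.2)

theorem hasFDerivAt_PiS {ζ : V2 → V3} {p : (V2 × V2) × ℝ} (hζ : DifferentiableAt ℝ ζ p.1.2) :
    HasFDerivAt (PiS ζ)
      (((ContinuousLinearMap.fst ℝ V2 V2).comp (ContinuousLinearMap.fst ℝ (V2 × V2) ℝ)).prod
        (p.2 • ((fderiv ℝ ζ p.1.2).comp ((ContinuousLinearMap.snd ℝ V2 V2).comp
            (ContinuousLinearMap.fst ℝ (V2 × V2) ℝ))) +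
          (ContinuousLinearMap.snd ℝ (V2 × V2) ℝ).smulRight (ζ p.1.2))) p := by
  have h1 : HasFDerivAt (fun p : (V2 × V2) × ℝ => p.1.1)
      ((ContinuousLinearMap.fst ℝ V2 V2).comp (ContinuousLinearMap.fst ℝ (V2 × V2) ℝ)) p :=
    ((ContinuousLinearMap.fst ℝ V2 V2).comp (ContinuousLinearMap.fst ℝ (V2 × V2) ℝ)).hasFDerivAt
  have h2 : HasFDerivAt (fun p : (V2 × V2) × ℝ => p.1.2)
      ((ContinuousLinearMap.snd ℝ V2 V2).comp (ContinuousLinearMap.fst ℝ (V2 × V2) ℝ)) p :=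
    ((ContinuousLinearMap.snd ℝ V2 V2).comp (ContinuousLinearMap.fst ℝ (V2 × V2) ℝ)).hasFDerivAt
  have h3 : HasFDerivAt (fun p : (V2 × V2) × ℝ => ζ p.1.2)
      ((fderiv ℝ ζ p.1.2).comp ((ContinuousLinearMap.snd ℝ V2 V2).comp
            (ContinuousLinearMap.fst ℝ (V2 × V2) ℝ))) p :=
    hζ.hasFDerivAt.comp p h2
  have h4 : HasFDerivAt (fun p : (V2 × V2) × ℝ => p.2) (ContinuousLinearMap.snd ℝ (V2 × V2) ℝ) p :=
    (ContinuousLinearMap.snd ℝ (V2 × V2) ℝ).hasFDerivAt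
  exact h1.prodMk (h4.smul h3)

theorem fderiv_PiS {ζ : V2 → V3} {p : (V2 × V2) × ℝ} (hζ : DifferentiableAt ℝ ζ p.1.2)
    (a : V2 × V2) (s : ℝ) :
    fderiv ℝ (PiS ζ) p (a, s) = (a.1, p.2 • fderiv ℝ ζ p.1.2 a.2 + s • ζ p.1.2) := by
  rw [(hasFDerivAt_PiS hζ).fderiv]
  simp

theorem contDiffAt_PiS {n : WithTop ℕ∞} {ζ : V2 → V3} {p : (V2 × V2) × ℝ} (hζ : ContDiffAt ℝ n ζ p.1.2) :
    ContDiffAt ℝ n (PiS ζ) p := by
  have h2 : ContDiffAt ℝ n (fun p : (V2 × V2) × ℝ => p.1.2) p := contDiffAt_snd.comp p contDiffAt_fst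
  have h3 : ContDiffAt ℝ n (fun p : (V2 × V2) × ℝ => ζ p.1.2) p := hζ.comp p h2
  have h4 : ContDiffAt ℝ n (fun p : (V2 × V2) × ℝ => p.2) p := contDiffAt_snd
  exact (contDiffAt_fst.comp p contDiffAt_fst).prodMk (h4.smul h3)

/-- the radial vector is orthogonal to the sphere -/
theorem dot_fderiv_unit {ζ : V2 → V3} {v : V2} (hζ : DifferentiableAt ℝ ζ v)
    (h1 : ∀ᶠ v' in 𝓝 v, ζ v' ⬝ᵥ ζ v' = 1) (b : V2) : ζ v ⬝ᵥ fderiv ℝ ζ v b = 0 := by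
  have h2 : HasFDerivAt (fun v' => dotL (ζ v') (ζ v')) _ v :=
    (dotL.hasFDerivAt.comp v hζ.hasFDerivAt).clm_apply hζ.hasFDerivAt
  have h3 : (fun v' => dotL (ζ v') (ζ v')) =ᶠ[𝓝 v] fun _ => (1 : ℝ) := by
    filter_upwards [h1] with v' hv'
    rw [dotL_apply, hv']
  have h4 := h2.fderiv
  rw [h3.fderiv_eq, fderiv_const_apply] at h4
  have h5 := congrArg (fun L : V2 →L[ℝ] ℝ => L b) h4
  have h6 : (0 : ℝ) = ζ v ⬝ᵥ fderiv ℝ ζ v b + fderiv ℝ ζ v b ⬝ᵥ ζ v := h5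
  rw [dotProduct_comm (fderiv ℝ ζ v b)] at h6
  linarith

theorem injective_fderiv_PiS {ζ : V2 → V3} {p : (V2 × V2) × ℝ} (hζ : DifferentiableAt ℝ ζ p.1.2)
    (h1 : ∀ᶠ v' in 𝓝 p.1.2, ζ v' ⬝ᵥ ζ v' = 1) (hi : Function.Injective (fderiv ℝ ζ p.1.2))
    (ht : p.2 ≠ 0) : Function.Injective (fderiv ℝ (PiS ζ) p) := by
  rw [injective_iff_map_eq_zero]
  rintro ⟨a, s⟩ h
  rw [fderiv_PiS hζ] at h
  obtain ⟨ha1, h⟩ := Prod.mk.inj h
  have h2 := dot_fderiv_unit hζ h1 a.2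
  have h3 : ζ p.1.2 ⬝ᵥ (p.2 • fderiv ℝ ζ p.1.2 a.2 + s • ζ p.1.2) = 0 := by
    rw [h, dotProduct_zero]
  rw [dotProduct_add, dotProduct_smul, dotProduct_smul, h2, h1.self_of_nhds] at h3
  have hs : s = 0 := by simpa using h3
  rw [hs, zero_smul, add_zero] at h
  have h4 : fderiv ℝ ζ p.1.2 a.2 = 0 := by
    rcases smul_eq_zero.1 h with h5 | h5
    · exact absurd h5 ht
    · exact h5
  have h6 : a.2 = 0 := hi (by rw [h4, map_zero])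
  exact Prod.ext (Prod.ext ha1 h6) hs

theorem isInvertible_fderiv_PiS {ζ : V2 → V3} {p : (V2 × V2) × ℝ} (hζ : DifferentiableAt ℝ ζ p.1.2)
    (h1 : ∀ᶠ v' in 𝓝 p.1.2, ζ v' ⬝ᵥ ζ v' = 1) (hi : Function.Injective (fderiv ℝ ζ p.1.2))
    (ht : p.2 ≠ 0) : (fderiv ℝ (PiS ζ) p).IsInvertible := by
  have hfr : Module.finrank ℝ ((V2 × V2) × ℝ) = Module.finrank ℝ (V2 × V3) := by
    simp [Module.finrank_prod]
  let e : ((V2 × V2) × ℝ) ≃ₗ[ℝ] (V2 × V3) :=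
    LinearEquiv.ofInjectiveOfFinrankEq (fderiv ℝ (PiS ζ) p : (V2 × V2) × ℝ →ₗ[ℝ] V2 × V3)
      (injective_fderiv_PiS hζ h1 hi ht) hfr
  refine ⟨e.toContinuousLinearEquiv, ?_⟩
  ext x <;> rfl

theorem fderiv_PsiS {ζ : V2 → V3} {t : ℝ} {x : V2 × V2} (hζ : DifferentiableAt ℝ ζ x.2) (a : V2 × V2) :
    fderiv ℝ (PsiS ζ t) x a = (a.1, t • fderiv ℝ ζ x.2 a.2) := by
  have h1 : HasFDerivAt (fun x : V2 × V2 => t • ζ x.2)
      (t • (fderiv ℝ ζ x.2).comp (ContinuousLinearMap.snd ℝ V2 V2)) x :=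
    (hζ.hasFDerivAt.comp x (ContinuousLinearMap.snd ℝ V2 V2).hasFDerivAt).const_smul t
  have h2 : HasFDerivAt (PsiS ζ t) _ x := (ContinuousLinearMap.fst ℝ V2 V2).hasFDerivAt.prodMk h1
  rw [h2.fderiv]
  rfl

theorem contDiffAt_PsiS {n : WithTop ℕ∞} {ζ : V2 → V3} {t : ℝ} {x : V2 × V2} (hζ : ContDiffAt ℝ n ζ x.2) :
    ContDiffAt ℝ n (PsiS ζ t) x :=
  contDiffAt_fst.prodMk ((hζ.comp x contDiffAt_snd).const_smul t)

theorem posAt_PsiS_core {G : V2 × V3 → V2 × V3 →L[ℝ] V2 × V3 →L[ℝ] ℝ} {ζ : V2 → V3} {x : V2 × V2}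
    {t : ℝ} (ht : 0 < t) (hζ : ContDiffAt ℝ (⊤ : ℕ∞) ζ x.2) (h1 : ∀ᶠ v in 𝓝 x.2, ζ v ⬝ᵥ ζ v = 1)
    (hi : Function.Injective (fderiv ℝ ζ x.2)) (hG : ContDiffAt ℝ (⊤ : ℕ∞) G (x.1, t • ζ x.2))
    (hsymm : ∀ᶠ q in 𝓝 (x.1, t • ζ x.2), ∀ a b, G q a b = G q b a)
    (hin : IsInner (G (x.1, t • ζ x.2)))
    (hsplit : ∀ᶠ p in 𝓝 (x, t), ∀ (a b : V2 × V2) (s s' : ℝ),
      pull G (PiS ζ) p (a, s) (b, s') = pull G (PsiS ζ p.2) p.1 a b + s * s')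
    (hmono : ∀ a, ∀ᶠ t' in 𝓝[>] t, pull G (PsiS ζ t) x a a ≤ pull G (PsiS ζ t') x a a)
    (hpos : ∀ X Y, (∀ a b c : ℝ, a • X + b • Y = c • ((0 : V2), t • ζ x.2) → a = 0 ∧ b = 0) →
      0 < Rm G (x.1, t • ζ x.2) X Y) :
    PosAt (pull G (PsiS ζ t)) x := by
  have hζd : DifferentiableAt ℝ ζ x.2 := hζ.differentiableAt (by simp)
  have hinv := isInvertible_fderiv_PiS (p := (x, t)) hζd h1 hi ht.ne'
  have hinj := injective_fderiv_PiS (p := (x, t)) hζd h1 hi ht.ne'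
  have hζn : ∀ n : ℕ, ContDiffAt ℝ n ζ x.2 := fun n => hζ.of_le (by exact_mod_cast le_top)
  have hGn : ∀ n : ℕ, ContDiffAt ℝ n G (PiS ζ (x, t)) := fun n => hG.of_le (by exact_mod_cast le_top)
  have hPi3 : ContDiffAt ℝ 3 (PiS ζ) (x, t) := contDiffAt_PiS (p := (x, t)) (by exact_mod_cast hζn 3)
  have hG2 : ContDiffAt ℝ 2 (pull G (PiS ζ)) (x, t) :=
    contDiffAt_pull (by exact_mod_cast hGn 2) hPi3 (by norm_num)
  have hsy : ∀ᶠ q in 𝓝 (x, t), ∀ a b, pull G (PiS ζ) q a b = pull G (PiS ζ) q b a := by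
    have hc : Tendsto (PiS ζ) (𝓝 (x, t)) (𝓝 (x.1, t • ζ x.2)) := hPi3.continuousAt
    filter_upwards [hc.eventually hsymm] with q hq a b
    exact hq _ _
  have hsy2 : ∀ᶠ q in 𝓝 (x, t), ∀ a b, pull G (PsiS ζ q.2) q.1 a b = pull G (PsiS ζ q.2) q.1 b a := by
    filter_upwards [hsy, hsplit] with q hq hq2 a b
    have e1 := hq2 a b 0 0
    have e2 := hq2 b a 0 0
    rw [hq (a, 0) (b, 0)] at e1
    linarith
  have hin' : IsInner (pull G (PsiS ζ t) x) := by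
    constructor
    · exact hsy2.self_of_nhds
    · intro a ha
      have e1 := hsplit.self_of_nhds a a 0 0
      simp only [mul_zero, add_zero] at e1
      rw [← e1]
      refine hin.pos _ ?_
      intro h0
      exact ha (Prod.mk.inj (hinj (h0.trans (map_zero _).symm))).1
  have hdg : DifferentiableAt ℝ (fun p : (V2 × V2) × ℝ => pull G (PsiS ζ p.2) p.1) (x, t) :=
    (contDiffAt_gam hG2 hsplit).differentiableAt (by norm_num)
  refine posAt_slice (gam := fun p => pull G (PsiS ζ p.2) p.1) hG2 hin' hsplit hsy2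
    (fun a => dtg_nonneg hdg a (hmono a)) ?_
  intro a b hab
  rw [Rm_pull (by exact_mod_cast hGn 2) hPi3 hsymm hin.isInvertible hinv]
  apply hpos
  intro α β c h
  have h3 : fderiv ℝ (PiS ζ) (x, t) (α • a + β • b, -(c * t)) = 0 := by
    have h4 : ((α • a + β • b, -(c * t)) : (V2 × V2) × ℝ) =
        α • (a, 0) + β • (b, 0) - (c * t) • ((0 : V2 × V2), (1 : ℝ)) := by
      ext <;> simp
    rw [h4, map_sub, map_add, map_smul, map_smul, map_smul, h, fderiv_PiS hζd]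
    simp [smul_smul]
  have h5 := hinj (h3.trans (map_zero _).symm)
  have h6 : α • a + β • b = 0 := (Prod.mk.inj h5).1
  exact LinearIndependent.pair_iff.1 hab α β h6

end Pool.Agent.HS
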