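import Pool.Agent.HS.Loc

/-!
# Curvature of products and of constant metrics (project HS)

* `Rm_prodG`: the curvature form of a product metric is the sum of the curvature forms;
* `Rm_const`: constant metrics are flat (`Rm_of_eventually_const`: also if constant near the point).
-/

set_option maxSynthPendingDepth 3

namespace Pool.Agent.HS

open Filter
open scoped Topology

variable {B B' : Type*} [NormedAddCommGroup B] [NormedSpace ℝ B] [NormedAddCommGroup B'] [NormedSpace ℝ B']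
variable {G : B → B →L[ℝ] B →L[ℝ] ℝ} {G' : B' → B' →L[ℝ] B' →L[ℝ] ℝ}

theorem prodG_apply (G : B → B →L[ℝ] B →L[ℝ] ℝ) (G' : B' → B' →L[ℝ] B' →L[ℝ] ℝ) (p x y : B × B') :
    prodG G G' p x y = G p.1 x.1 y.1 + G' p.2 x.2 y.2 := rfl

theorem IsInner.prodG {p : B × B'} (h : IsInner (G p.1)) (h' : IsInner (G' p.2)) :
    IsInner (prodG G G' p) where
  symm x y := by
    rw [prodG_apply, prodG_apply, h.symm, h'.symm]
  pos x hx := by
    rw [prodG_apply]
    by_cases h1 : x.1 = 0
    · have h2 : x.2 ≠ 0 := fun h2 => hx (Prod.ext h1 h2)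
      rw [h1]
      simpa using h'.pos _ h2
    · by_cases h2 : x.2 = 0
      · rw [h2]
        simpa using h.pos _ h1
      · exact add_pos (h.pos _ h1) (h'.pos _ h2)

/-- The product of two smooth metrics is smooth. -/
theorem contDiffAt_prodG {n : WithTop ℕ∞} {p : B × B'} (hG : ContDiffAt ℝ n G p.1)
    (hG' : ContDiffAt ℝ n G' p.2) : ContDiffAt ℝ n (prodG G G') p := by
  have h1 : ContDiffAt ℝ n (fun q : B × B' => G q.1) p :=
    hG.comp p contDiff_fst.contDiffAt
  have h2 : ContDiffAt ℝ n (fun q : B × B' => G' q.2) p :=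
    hG'.comp p contDiff_snd.contDiffAt
  have e1 : ContDiffAt ℝ n (fun q : B × B' => (G q.1).bilinearComp
      (ContinuousLinearMap.fst ℝ B B') (ContinuousLinearMap.fst ℝ B B')) p := by
    have a1 : ContDiffAt ℝ n (fun q : B × B' => (G q.1).comp (ContinuousLinearMap.fst ℝ B B')) p :=
      h1.clm_comp contDiffAt_const
    have a2 : ContDiffAt ℝ n (fun q : B × B' => ((G q.1).comp (ContinuousLinearMap.fst ℝ B B')).flip) p :=
      (ContinuousLinearMap.flipₗᵢ ℝ (B × B') B ℝ).contDiff.contDiffAt.comp p a1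
    have a3 : ContDiffAt ℝ n (fun q : B × B' => (((G q.1).comp (ContinuousLinearMap.fst ℝ B B')).flip).comp
        (ContinuousLinearMap.fst ℝ B B')) p := a2.clm_comp contDiffAt_const
    exact (ContinuousLinearMap.flipₗᵢ ℝ (B × B') (B × B') ℝ).contDiff.contDiffAt.comp p a3
  have e2 : ContDiffAt ℝ n (fun q : B × B' => (G' q.2).bilinearComp
      (ContinuousLinearMap.snd ℝ B B') (ContinuousLinearMap.snd ℝ B B')) p := by
    have a1 : ContDiffAt ℝ n (fun q : B × B' => (G' q.2).comp (ContinuousLinearMap.snd ℝ B B')) p :=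
      h2.clm_comp contDiffAt_const
    have a2 : ContDiffAt ℝ n (fun q : B × B' => ((G' q.2).comp (ContinuousLinearMap.snd ℝ B B')).flip) p :=
      (ContinuousLinearMap.flipₗᵢ ℝ (B × B') B' ℝ).contDiff.contDiffAt.comp p a1
    have a3 : ContDiffAt ℝ n (fun q : B × B' => (((G' q.2).comp (ContinuousLinearMap.snd ℝ B B')).flip).comp
        (ContinuousLinearMap.snd ℝ B B')) p := a2.clm_comp contDiffAt_const
    exact (ContinuousLinearMap.flipₗᵢ ℝ (B × B') (B × B') ℝ).contDiff.contDiffAt.comp p a3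
  exact e1.add e2

theorem hasFDerivAt_prodG_coeff {p : B × B'} (hG : DifferentiableAt ℝ G p.1)
    (hG' : DifferentiableAt ℝ G' p.2) (u v : B × B') :
    HasFDerivAt (fun q => prodG G G' q u v)
      ((fderiv ℝ (fun q => G q u.1 v.1) p.1).comp (ContinuousLinearMap.fst ℝ B B') +
        (fderiv ℝ (fun q => G' q u.2 v.2) p.2).comp (ContinuousLinearMap.snd ℝ B B')) p := by
  have h1 : HasFDerivAt (fun q => G q u.1 v.1) (fderiv ℝ (fun q => G q u.1 v.1) p.1) p.1 := by
    have h := hasFDerivAt_coeff hG u.1 v.1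
    rw [h.fderiv]
    exact h
  have h2 : HasFDerivAt (fun q => G' q u.2 v.2) (fderiv ℝ (fun q => G' q u.2 v.2) p.2) p.2 := by
    have h := hasFDerivAt_coeff hG' u.2 v.2
    rw [h.fderiv]
    exact h
  have h3 := h1.comp p (ContinuousLinearMap.fst ℝ B B').hasFDerivAt
  have h4 := h2.comp p (ContinuousLinearMap.snd ℝ B B').hasFDerivAt
  exact h3.add h4

theorem D1_prodG {p : B × B'} (hG : DifferentiableAt ℝ G p.1)
    (hG' : DifferentiableAt ℝ G' p.2) (x u v : B × B') :
    D1 (prodG G G') p x u v = D1 G p.1 x.1 u.1 v.1 + D1 G' p.2 x.2 u.2 v.2 := by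
  unfold D1
  rw [(hasFDerivAt_prodG_coeff hG hG' u v).fderiv]
  rfl

theorem D2_prodG {p : B × B'} (hG : ContDiffAt ℝ 2 G p.1)
    (hG' : ContDiffAt ℝ 2 G' p.2) (x y u v : B × B') :
    D2 (prodG G G') p x y u v = D2 G p.1 x.1 y.1 u.1 v.1 + D2 G' p.2 x.2 y.2 u.2 v.2 := by
  have g1 : ContDiffAt ℝ 2 (fun q : B => G q u.1 v.1) p.1 := contDiffAt_coeff hG u.1 v.1
  have g2 : ContDiffAt ℝ 2 (fun q : B' => G' q u.2 v.2) p.2 := contDiffAt_coeff hG' u.2 v.2
  have f1 : ContDiffAt ℝ 2 (fun q : B × B' => q.1) p := contDiff_fst.contDiffAt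
  have f2 : ContDiffAt ℝ 2 (fun q : B × B' => q.2) p := contDiff_snd.contDiffAt
  have k1 : dd (fun q : B × B' => q.1) p x y = 0 :=
    dd_clm_self (ContinuousLinearMap.fst ℝ B B') p x y
  have k2 : dd (fun q : B × B' => q.2) p x y = 0 :=
    dd_clm_self (ContinuousLinearMap.snd ℝ B B') p x y
  have d1 : ∀ z : B × B', fderiv ℝ (fun q : B × B' => q.1) p z = z.1 := fun z => by
    rw [fderiv_fst]; rfl
  have d2 : ∀ z : B × B', fderiv ℝ (fun q : B × B' => q.2) p z = z.2 := fun z => by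
    rw [fderiv_snd]; rfl
  have h1 := dd_comp g1 f1 x y
  have h2 := dd_comp g2 f2 x y
  rw [k1, map_zero, add_zero, d1, d1] at h1
  rw [k2, map_zero, add_zero, d2, d2] at h2
  have h3 : dd (fun q : B × B' => G q.1 u.1 v.1 + G' q.2 u.2 v.2) p x y
      = dd (fun q : B × B' => G q.1 u.1 v.1) p x y + dd (fun q : B × B' => G' q.2 u.2 v.2) p x y :=
    dd_add (g1.comp p f1) (g2.comp p f2) x y
  rw [D2_coeff, D2_coeff, D2_coeff, ← h1, ← h2, ← h3]
  rfl

theorem Gam_prodG {p : B × B'} (hG : ContDiffAt ℝ 1 G p.1)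
    (hG' : ContDiffAt ℝ 1 G' p.2) (x y : B × B') :
    Gam (prodG G G') p x y = (Gam G p.1 x.1 y.1).comp (ContinuousLinearMap.fst ℝ B B') +
      (Gam G' p.2 x.2 y.2).comp (ContinuousLinearMap.snd ℝ B B') := by
  have d1 : DifferentiableAt ℝ G p.1 := hG.differentiableAt (by norm_num)
  have d2 : DifferentiableAt ℝ G' p.2 := hG'.differentiableAt (by norm_num)
  have d3 : DifferentiableAt ℝ (prodG G G') p :=
    (contDiffAt_prodG hG hG').differentiableAt (by norm_num)
  apply Gam_ext d3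
  intro z
  change _ = Gam G p.1 x.1 y.1 z.1 + Gam G' p.2 x.2 y.2 z.2
  rw [Gam_apply d1, Gam_apply d2, D1_prodG d1 d2, D1_prodG d1 d2, D1_prodG d1 d2]
  ring

theorem cov_prodG [FiniteDimensional ℝ B] [FiniteDimensional ℝ B'] {p : B × B'}
    (h : IsInner (G p.1)) (h' : IsInner (G' p.2)) (α β : B →L[ℝ] ℝ) (α' β' : B' →L[ℝ] ℝ) :
    cov (prodG G G' p)
      (α.comp (ContinuousLinearMap.fst ℝ B B') + α'.comp (ContinuousLinearMap.snd ℝ B B'))
      (β.comp (ContinuousLinearMap.fst ℝ B B') + β'.comp (ContinuousLinearMap.snd ℝ B B'))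
      = cov (G p.1) α β + cov (G' p.2) α' β' := by
  rw [cov_eq_of (IsInner.prodG h h') (a := (sharp (G p.1) α, sharp (G' p.2) α'))
    (b := (sharp (G p.1) β, sharp (G' p.2) β')), prodG_apply, cov_eq_sharp h, cov_eq_sharp h']
  · intro z
    rw [prodG_apply]
    change G p.1 (sharp (G p.1) α) z.1 + G' p.2 (sharp (G' p.2) α') z.2 = α z.1 + α' z.2
    rw [sharp_apply h, sharp_apply h']
  · intro z
    rw [prodG_apply]
    change G p.1 (sharp (G p.1) β) z.1 + G' p.2 (sharp (G' p.2) β') z.2 = β z.1 + β' z.2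
    rw [sharp_apply h, sharp_apply h']

/-- The curvature form of a product is the sum of the curvature forms. -/
theorem Rm_prodG [FiniteDimensional ℝ B] [FiniteDimensional ℝ B'] {p : B × B'}
    (hG : ContDiffAt ℝ 2 G p.1) (hG' : ContDiffAt ℝ 2 G' p.2)
    (h : IsInner (G p.1)) (h' : IsInner (G' p.2)) (x y : B × B') :
    Rm (prodG G G') p x y = Rm G p.1 x.1 y.1 + Rm G' p.2 x.2 y.2 := by
  have hG1 : ContDiffAt ℝ 1 G p.1 := hG.of_le (by norm_num)
  have hG1' : ContDiffAt ℝ 1 G' p.2 := hG'.of_le (by norm_num)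
  unfold Rm
  rw [D2_prodG hG hG', D2_prodG hG hG', D2_prodG hG hG', Gam_prodG hG1 hG1', Gam_prodG hG1 hG1',
    Gam_prodG hG1 hG1', cov_prodG h h', cov_prodG h h']
  ring

/-- The curvature form vanishes if the metric is constant near the point. -/
theorem Rm_of_eventually_const {p : B} {g : B →L[ℝ] B →L[ℝ] ℝ} (h : ∀ᶠ q in 𝓝 p, G q = g) (x y : B) :
    Rm G p x y = 0 := by
  have h0 : G =ᶠ[𝓝 p] fun _ => g := h
  have h1 : ∀ a b c d : B, D2 G p a b c d = 0 := by
    intro a b c d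
    rw [D2_congr h0, D2_coeff]
    exact dd_const (g c d) p a b
  have h2 : ∀ a b : B, Gam G p a b = 0 := by
    intro a b
    rw [Gam_congr h0]
    unfold Gam
    simp
  unfold Rm
  rw [h1, h1, h1, h2, h2, h2]
  simp

/-- A constant metric is flat. -/
theorem Rm_const (g : B →L[ℝ] B →L[ℝ] ℝ) (p x y : B) :
    Rm (fun _ : B => g) p x y = 0 :=
  Rm_of_eventually_const (Filter.Eventually.of_forall fun _ => rfl) x y

theorem isInner_dotL : IsInner dotL where
  symm x y := by
    rw [dotL_apply, dotL_apply, dotProduct_comm]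
  pos x hx := by
    rw [dotL_apply]
    have h1 : 0 ≤ x ⬝ᵥ x := by
      unfold dotProduct
      exact Finset.sum_nonneg fun i _ => mul_self_nonneg (x i)
    have h2 : x ⬝ᵥ x ≠ 0 := by
      intro h
      exact hx (dotProduct_self_eq_zero.mp h)
    exact lt_of_le_of_ne h1 (Ne.symm h2)

/-- Product with flat space: the curvature form is the one of the first factor. -/
theorem Rm_prodG_flat [FiniteDimensional ℝ B] {p : B × V3} (hG : ContDiffAt ℝ 2 G p.1)
    (h : IsInner (G p.1)) (x y : B × V3) :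
    Rm (prodG G (fun _ : V3 => dotL)) p x y = Rm G p.1 x.1 y.1 := by
  rw [Rm_prodG hG contDiffAt_const h isInner_dotL, Rm_const, add_zero]

end Pool.Agent.HS
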