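import Pool.Agent.HS.Chart

set_option maxSynthPendingDepth 3

/-!
# The chart metric of a product `N × V` with a vector space (project HS, MP_55c470)
-/

open Bundle Manifold Set Filter ContinuousLinearMap
open scoped Manifold ContDiff Topology

noncomputable section

namespace Pool.Agent.HS

variable {E' : Type*} [NormedAddCommGroup E'] [NormedSpace ℝ E']
  {H' : Type*} [TopologicalSpace H'] {I' : ModelWithCorners ℝ E' H'}
  {N : Type*} [TopologicalSpace N] [ChartedSpace H' N]
  {V : Type*} [NormedAddCommGroup V] [NormedSpace ℝ V]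

variable (I') in
/-- The tangent vector `(a, b)` of `N × V` at `p`. -/
def tv (p : N × V) (a : TangentSpace I' p.1) (b : V) : TangentSpace (I'.prod 𝓘(ℝ, V)) p :=
  (show E' × V from (a, b))

theorem extChartAt_prod_symm_apply (p u : _) :
    (extChartAt (I'.prod 𝓘(ℝ, V)) (p : N × V)).symm u = ((extChartAt I' p.1).symm u.1, u.2) := by
  rw [extChartAt_prod]
  simp

theorem extChartAt_prod_apply (p q : N × V) :
    extChartAt (I'.prod 𝓘(ℝ, V)) p q = (extChartAt I' p.1 q.1, q.2) := by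
  rw [extChartAt_prod]
  simp

theorem mfderiv_extChartAt_prod_symm (p : N × V) (u : E' × V)
    (hu : MDifferentiableAt 𝓘(ℝ, E') I' (extChartAt I' p.1).symm u.1) (v : E' × V) :
    mfderiv 𝓘(ℝ, E' × V) (I'.prod 𝓘(ℝ, V)) (extChartAt (I'.prod 𝓘(ℝ, V)) p).symm u v =
      tv I' ((extChartAt (I'.prod 𝓘(ℝ, V)) p).symm u)
        (mfderiv 𝓘(ℝ, E') I' (extChartAt I' p.1).symm u.1 v.1) v.2 := by
  have key : ∀ f : E' × V → N × V, f = (fun u => ((extChartAt I' p.1).symm u.1, u.2)) →
      (show E' × V →L[ℝ] E' × V from mfderiv 𝓘(ℝ, E' × V) (I'.prod 𝓘(ℝ, V)) f u) v =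
      ((show E' from mfderiv 𝓘(ℝ, E') I' (extChartAt I' p.1).symm u.1 v.1), v.2) := by
    rintro _ rfl
    have hfst : MDifferentiableAt 𝓘(ℝ, E' × V) 𝓘(ℝ, E') (Prod.fst : E' × V → E') u :=
      differentiableAt_fst.mdifferentiableAt
    have hsnd : MDifferentiableAt 𝓘(ℝ, E' × V) 𝓘(ℝ, V) (Prod.snd : E' × V → V) u :=
      differentiableAt_snd.mdifferentiableAt
    have h1 : MDifferentiableAt 𝓘(ℝ, E' × V) I'
        (fun u : E' × V => (extChartAt I' p.1).symm u.1) u := hu.comp u hfst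
    have h2 := mfderiv_prodMk h1 hsnd
    have h3 : mfderiv 𝓘(ℝ, E' × V) I' (fun u : E' × V => (extChartAt I' p.1).symm u.1) u =
        (mfderiv 𝓘(ℝ, E') I' (extChartAt I' p.1).symm u.1) ∘L
          (mfderiv 𝓘(ℝ, E' × V) 𝓘(ℝ, E') (Prod.fst : E' × V → E') u) :=
      mfderiv_comp u hu hfst
    rw [h2, h3, mfderiv_eq_fderiv, mfderiv_eq_fderiv, fderiv_fst, fderiv_snd]
    rfl
  exact key _ (funext fun u => extChartAt_prod_symm_apply p u)

theorem mdifferentiableAt_extChartAt_symm_of_mem [IsManifold I' 1 N] [I'.Boundaryless] {y : N}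
    {u : E'} (hu : u ∈ (extChartAt I' y).target) :
    MDifferentiableAt 𝓘(ℝ, E') I' (extChartAt I' y).symm u :=
  ((contMDiffOn_extChartAt_symm (n := 1) y).contMDiffAt
    ((isOpen_extChartAt_target y).mem_nhds hu)).mdifferentiableAt one_ne_zero

/-- The coordinate expression of a metric on `N × V`. -/
theorem chartMetric_prod [IsManifold I' 1 N] [I'.Boundaryless]
    (g : (x : N × V) → TangentSpace (I'.prod 𝓘(ℝ, V)) x →L[ℝ]
      TangentSpace (I'.prod 𝓘(ℝ, V)) x →L[ℝ] ℝ) (p : N × V) {u : E' × V}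
    (hu : u.1 ∈ (extChartAt I' p.1).target) (v v' : E' × V) :
    chartMetric g p u v v' = g ((extChartAt I' p.1).symm u.1, u.2)
      (tv I' ((extChartAt I' p.1).symm u.1, u.2)
        (mfderiv 𝓘(ℝ, E') I' (extChartAt I' p.1).symm u.1 v.1) v.2)
      (tv I' ((extChartAt I' p.1).symm u.1, u.2)
        (mfderiv 𝓘(ℝ, E') I' (extChartAt I' p.1).symm u.1 v'.1) v'.2) := by
  rw [chartMetric_apply, mfderiv_extChartAt_prod_symm p u
    (mdifferentiableAt_extChartAt_symm_of_mem hu) v, mfderiv_extChartAt_prod_symm p u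
    (mdifferentiableAt_extChartAt_symm_of_mem hu) v']
  have key : ∀ q : N × V, q = ((extChartAt I' p.1).symm u.1, u.2) → ∀ a a' : E',
      g q (show E' × V from (a, v.2)) (show E' × V from (a', v'.2)) =
      g ((extChartAt I' p.1).symm u.1, u.2) (show E' × V from (a, v.2))
        (show E' × V from (a', v'.2)) := by
    rintro _ rfl a a'
    rfl
  exact key _ (extChartAt_prod_symm_apply p u) _ _

end Pool.Agent.HS
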