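import Pool.Agent.HS.SoulM
import Pool.Agent.HS.Loc
import Pool.Agent.HS.Inc

set_option maxSynthPendingDepth 3

/-!
# The soul of the metric of project HS (MP_55c470)
-/

open Bundle Manifold Set Filter
open scoped Manifold ContDiff Topology

noncomputable section

namespace Pool.Agent.HS

theorem range_zeroSec : range zeroSec = {p : S2 × R3 | p.2 = 0} := by
  ext p
  constructor
  · rintro ⟨y, rfl⟩
    rfl
  · intro hp
    exact ⟨p.1, Prod.ext rfl hp.symm⟩

/-- The zero section of `S^2 × ℝ^3` is totally convex for a radial metric. -/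
theorem soul_convex_of_isRadial (g : MetricE) (hg : IsRadial (I' := 𝓡 2) g.inner) :
    TotallyConvex g.inner (range zeroSec) := by
  rw [range_zeroSec]
  exact hg.totallyConvex g.contMDiff

/-- The zero section of `S^2 × ℝ^3` is totally geodesic for a radial metric. -/
theorem soul_geodesic_of_isRadial (g : MetricE) (hg : IsRadial (I' := 𝓡 2) g.inner) :
    TotallyGeodesic (𝓡 2) g.inner zeroSec :=
  hg.totallyGeodesic g.contMDiff

section Ambient

open Matrix

variable {B : Type*} [NormedAddCommGroup B] [NormedSpace ℝ B]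
  (h : B → B →L[ℝ] B →L[ℝ] ℝ) (A : B → B →L[ℝ] V3) (q : B → V3 →L[ℝ] V3)

theorem DW_apply' (p v : B × V3) : DW A p v = A p.1 v.1 ⨯₃ p.2 + v.2 := rfl

theorem GE_apply' (p v v' : B × V3) : GE h A q p v v' =
    h p.1 v.1 v'.1 + DW A p v ⬝ᵥ Sw (q p.1) p.2 (DW A p v') := rfl

theorem DW_radial (y : B) (w : V3) : DW A (y, w) (0, w) = w := by
  rw [DW_apply']
  simp

theorem SwL_zero (Q : V3 →L[ℝ] V3) : Sw Q 0 = ContinuousLinearMap.id ℝ V3 := by
  have h1 : Cw 0 = 0 := by
    ext U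
    rw [Cw_apply]
    simp
  unfold Sw
  rw [h1, ContinuousLinearMap.zero_comp, add_zero, ContinuousLinearMap.inverse_id]

/-- The radial field is the gradient of `|w|² / 2`. -/
theorem GE_radial {y : B} {w : V3} (hw : Sw (q y) w w = w) (v : B) (c : V3) : GE h A q (y, w) (v, c) (0, w) = c ⬝ᵥ w := by
  rw [GE_apply', DW_radial, map_zero, zero_add]
  show DW A (y, w) (v, c) ⬝ᵥ Sw (q y) w w = c ⬝ᵥ w
  rw [hw, DW_apply']
  simp [add_dotProduct, dotProduct_comm (A y v ⨯₃ w) w]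

/-- The radial flow does not decrease lengths. -/
theorem GE_mono {y : B} {w : V3} {l : ℝ}
    (hm : ∀ c : V3, c ⬝ᵥ Sw (q y) w c ≤ l ^ 2 * (c ⬝ᵥ Sw (q y) (l • w) c)) (v : B) (c : V3) :
    GE h A q (y, w) (v, c) (v, c) ≤ GE h A q (y, l • w) (v, l • c) (v, l • c) := by
  rw [GE_apply', GE_apply']
  have h1 : DW A (y, l • w) (v, l • c) = l • DW A (y, w) (v, c) := by
    rw [DW_apply', DW_apply']
    simp
  rw [h1]
  show h y v v + DW A (y, w) (v, c) ⬝ᵥ Sw (q y) w (DW A (y, w) (v, c)) ≤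
    h y v v + (l • DW A (y, w) (v, c)) ⬝ᵥ Sw (q y) (l • w) (l • DW A (y, w) (v, c))
  rw [map_smul, smul_dotProduct, dotProduct_smul]
  have h2 := hm (DW A (y, w) (v, c))
  simp only [smul_eq_mul]
  nlinarith

theorem GE_cross (y : B) (v : B) (c : V3) : GE h A q (y, 0) (v, 0) (0, c) = 0 := by
  rw [GE_apply', DW_apply', DW_apply']
  simp

theorem GE_vert_le {y : B} {w : V3} (hle : ∀ c : V3, c ⬝ᵥ Sw (q y) w c ≤ c ⬝ᵥ c) (c : V3) :
    GE h A q (y, w) (0, c) (0, c) ≤ c ⬝ᵥ c := by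
  rw [GE_apply']
  have h1 : DW A (y, w) (0, c) = c := by
    rw [DW_apply']
    simp
  rw [h1]
  have h2 : h y (0 : B) (0 : B) = 0 := by simp
  show h y (0 : B) (0 : B) + c ⬝ᵥ Sw (q y) w c ≤ c ⬝ᵥ c
  rw [h2, zero_add]
  exact hle c

theorem GE_low {y : B} {w : V3} (hpos : ∀ c : V3, 0 ≤ c ⬝ᵥ Sw (q y) w c) (v : B) :
    GE h A q (y, 0) (v, 0) (v, 0) ≤ GE h A q (y, w) (v, 0) (v, 0) := by
  rw [GE_apply', GE_apply']
  have h1 : DW A (y, (0 : V3)) (v, 0) = 0 := by
    rw [DW_apply']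
    simp
  rw [h1]
  show h y v v + (0 : V3) ⬝ᵥ _ ≤ h y v v + _
  rw [zero_dotProduct, add_zero]
  have := hpos (DW A (y, w) (v, 0))
  linarith

/-- A metric on `S^2 × ℝ^3` induced by `GE h A q` on the ambient space is radial. -/
theorem isRadial_of_GE (g : MetricE) (h : V3 → V3 →L[ℝ] V3 →L[ℝ] ℝ) (A : V3 → V3 →L[ℝ] V3)
    (q : V3 → V3 →L[ℝ] V3)
    (hg : ∀ (x : S2 × R3) (u v : EuclideanSpace ℝ (Fin 2) × R3),
      g.inner x (show TangentSpace IE x from u) (show TangentSpace IE x from v) =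
        GE h A q (iE x) (dE x u) (dE x v))
    (hw : ∀ (y : S2) (w : V3), Sw (q (iY y)) w w = w)
    (hpos : ∀ (y : S2) (w c : V3), 0 ≤ c ⬝ᵥ Sw (q (iY y)) w c)
    (hm : ∀ (y : S2) (w c : V3) (l : ℝ), 1 ≤ l →
      c ⬝ᵥ Sw (q (iY y)) w c ≤ l ^ 2 * (c ⬝ᵥ Sw (q (iY y)) (l • w) c)) :
    IsRadial (I' := 𝓡 2) g.inner where
  symm p v v' := g.symm p v v'
  radial p a b := by
    have h1 := hg p (a, b) (0, p.2)
    have h2 : GE h A q (iE p) (dE p (a, b)) (dE p (0, p.2)) = eR b ⬝ᵥ eR p.2 := by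
      rw [dE_apply, dE_apply, map_zero]
      exact GE_radial h A q (hw p.1 (eR p.2)) _ _
    rw [h2, dot_eR] at h1
    exact h1
  mono y w a b l hl := by
    have h1 := hg (y, w) (a, b) (a, b)
    have h2 := hg (y, l • w) (a, l • b) (a, l • b)
    have h3 : GE h A q (iE (y, w)) (dE (y, w) (a, b)) (dE (y, w) (a, b)) ≤
        GE h A q (iE (y, l • w)) (dE (y, l • w) (a, l • b)) (dE (y, l • w) (a, l • b)) := by
      rw [dE_apply, dE_apply, map_smul]
      have h4 : iE (y, l • w) = (iY y, l • eR w) := by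
        show (eR (y : R3), eR (l • w)) = _
        rw [map_smul]
        rfl
      rw [h4]
      exact GE_mono h A q (fun c => hm y (eR w) c l hl) _ _
    rw [← h1, ← h2] at h3
    exact h3
  cross y a b := by
    have h1 := hg (y, 0) (a, 0) (0, b)
    have h2 : GE h A q (iE (y, 0)) (dE (y, 0) (a, 0)) (dE (y, 0) (0, b)) = 0 := by
      rw [dE_apply, dE_apply, map_zero, map_zero]
      have h4 : iE (y, 0) = (iY y, 0) := by
        show (eR (y : R3), eR 0) = _
        rw [map_zero]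
        rfl
      rw [h4]
      exact GE_cross h A q _ _ _
    rw [h2] at h1
    exact h1
  low y w a := by
    have h1 := hg (y, 0) (a, 0) (a, 0)
    have h2 := hg (y, w) (a, 0) (a, 0)
    have h3 : GE h A q (iE (y, 0)) (dE (y, 0) (a, 0)) (dE (y, 0) (a, 0)) ≤
        GE h A q (iE (y, w)) (dE (y, w) (a, 0)) (dE (y, w) (a, 0)) := by
      rw [dE_apply, dE_apply, map_zero]
      have h4 : iE (y, 0) = (iY y, 0) := by
        show (eR (y : R3), eR 0) = _
        rw [map_zero]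
        rfl
      rw [h4]
      exact GE_low h A q (fun c => hpos y (eR w) c) _
    rw [← h1, ← h2] at h3
    exact h3

end Ambient

end Pool.Agent.HS
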