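import Pool.Agent.HS.FDefs
import Pool.Agent.HS.ProdChart
import Pool.Agent.HS.Pull

set_option maxSynthPendingDepth 3

/-!
# The zero section of `N × V` is totally convex (project HS, MP_55c470)
-/

open Bundle Manifold Set Filter ContinuousLinearMap
open scoped Manifold ContDiff Topology

noncomputable section

namespace Pool.Agent.HS

section Prod

variable {E' : Type*} [NormedAddCommGroup E'] [NormedSpace ℝ E']
  {H' : Type*} [TopologicalSpace H'] {I' : ModelWithCorners ℝ E' H'}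
  {N : Type*} [TopologicalSpace N] [ChartedSpace H' N]
  {V : Type*} [NormedAddCommGroup V] [InnerProductSpace ℝ V]

/-- The pointwise properties of the metric of `N × V` which are used for the zero section. -/
structure IsRadial (g : (x : N × V) → TangentSpace (I'.prod 𝓘(ℝ, V)) x →L[ℝ]
    TangentSpace (I'.prod 𝓘(ℝ, V)) x →L[ℝ] ℝ) : Prop where
  /-- symmetry -/
  symm : ∀ (p : N × V) (v v' : TangentSpace (I'.prod 𝓘(ℝ, V)) p), g p v v' = g p v' v
  /-- the radial field is the gradient of `‖w‖² / 2` -/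
  radial : ∀ (p : N × V) (a : TangentSpace I' p.1) (b : V),
    g p (tv I' p a b) (tv I' p 0 p.2) = inner ℝ b p.2
  /-- the radial flow does not decrease lengths -/
  mono : ∀ (y : N) (w : V) (a : TangentSpace I' y) (b : V) (l : ℝ), 1 ≤ l →
    g (y, w) (tv I' (y, w) a b) (tv I' (y, w) a b) ≤
      g (y, l • w) (tv I' (y, l • w) a (l • b)) (tv I' (y, l • w) a (l • b))
  /-- the zero section is orthogonal to the fibres -/
  cross : ∀ (y : N) (a : TangentSpace I' y) (b : V),
    g (y, 0) (tv I' (y, 0) a 0) (tv I' (y, 0) 0 b) = 0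
  /-- horizontal vectors are shortest at the zero section -/
  low : ∀ (y : N) (w : V) (a : TangentSpace I' y),
    g (y, 0) (tv I' (y, 0) a 0) (tv I' (y, 0) a 0) ≤ g (y, w) (tv I' (y, w) a 0) (tv I' (y, w) a 0)

variable {g : (x : N × V) → TangentSpace (I'.prod 𝓘(ℝ, V)) x →L[ℝ]
    TangentSpace (I'.prod 𝓘(ℝ, V)) x →L[ℝ] ℝ}

theorem IsRadial.chartMetric_symm (hg : IsRadial g) (p : N × V) (u v v' : E' × V) :
    chartMetric g p u v v' = chartMetric g p u v' v := by
  rw [chartMetric_apply, chartMetric_apply, hg.symm]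

theorem IsRadial.chartMetric_radial [IsManifold I' 1 N] [I'.Boundaryless] (hg : IsRadial g)
    (p : N × V) {u : E' × V} (hu : u.1 ∈ (extChartAt I' p.1).target) (v : E' × V) :
    chartMetric g p u v (0, u.2) = inner ℝ v.2 u.2 := by
  rw [chartMetric_prod g p hu]
  have h0 : mfderiv 𝓘(ℝ, E') I' (extChartAt I' p.1).symm u.1 (0 : E') = 0 :=
    (mfderiv 𝓘(ℝ, E') I' (extChartAt I' p.1).symm u.1).map_zero
  have h := hg.radial ((extChartAt I' p.1).symm u.1, u.2)
    (mfderiv 𝓘(ℝ, E') I' (extChartAt I' p.1).symm u.1 v.1) v.2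
  rw [← h]
  show g _ _ (tv I' _ (mfderiv 𝓘(ℝ, E') I' (extChartAt I' p.1).symm u.1 (0 : E')) u.2) = _
  rw [h0]

/-- The linear radial field in coordinates. -/
def radL : E' × V →L[ℝ] E' × V := (0 : E' × V →L[ℝ] E').prod (ContinuousLinearMap.snd ℝ E' V)

theorem radL_apply (u : E' × V) : (radL u : E' × V) = (0, u.2) := rfl

theorem nonneg_of_hasDerivAt_of_le {φ : ℝ → ℝ} {d x : ℝ} (h : HasDerivAt φ d x)
    (hm : ∀ l, x ≤ l → φ x ≤ φ l) : 0 ≤ d := by
  have h1 : HasDerivWithinAt φ d (Ioi x) x := h.hasDerivWithinAt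
  rw [hasDerivWithinAt_iff_tendsto_slope' self_notMem_Ioi] at h1
  refine ge_of_tendsto h1 ?_
  filter_upwards [self_mem_nhdsWithin] with l hl
  have hl' : x < l := hl
  rw [slope_def_field]
  exact div_nonneg (sub_nonneg.2 (hm l hl'.le)) (sub_nonneg.2 hl'.le)

theorem IsRadial.nonneg_chart [IsManifold I' 1 N] [I'.Boundaryless] (hg : IsRadial g)
    (p : N × V) {u : E' × V} (hu : u.1 ∈ (extChartAt I' p.1).target)
    (hd : DifferentiableAt ℝ (chartMetric g p) u) (v : E' × V) :
    0 ≤ 1 / 2 * D1 (chartMetric g p) u (radL u) v v + chartMetric g p u v (radL v) := by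
  set G := chartMetric g p with hGdef
  have hc : HasDerivAt (fun l : ℝ => (u.1, l • u.2)) ((0 : E'), u.2) 1 := by
    have := (hasDerivAt_const (1 : ℝ) u.1).prodMk ((hasDerivAt_id (1 : ℝ)).smul_const u.2)
    simpa using this
  have hv : HasDerivAt (fun l : ℝ => (v.1, l • v.2)) ((0 : E'), v.2) 1 := by
    have := (hasDerivAt_const (1 : ℝ) v.1).prodMk ((hasDerivAt_id (1 : ℝ)).smul_const v.2)
    simpa using this
  have hu1 : ((u.1, (1 : ℝ) • u.2) : E' × V) = u := by simp
  have hv1 : ((v.1, (1 : ℝ) • v.2) : E' × V) = v := by simp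
  have hd' : HasFDerivAt G (fderiv ℝ G u) ((u.1, (1 : ℝ) • u.2) : E' × V) := by
    rw [hu1]
    exact hd.hasFDerivAt
  have h1 : HasDerivAt (fun l : ℝ => G (u.1, l • u.2)) (fderiv ℝ G u (0, u.2)) 1 := by
    have := HasFDerivAt.comp_hasDerivAt (f := fun l : ℝ => (u.1, l • u.2)) 1 hd' hc
    exact this
  have h2 := (h1.clm_apply hv).clm_apply hv
  rw [hu1, hv1] at h2
  have h3 := nonneg_of_hasDerivAt_of_le h2 ?_
  · have hD : D1 G u (radL u) v v = fderiv ℝ G u (0, u.2) v v := by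
      rw [D1_eq hd, radL_apply]
    have hs : G u (0, v.2) v = G u v (0, v.2) := hg.chartMetric_symm p u _ _
    rw [hD, radL_apply]
    simp only [_root_.add_apply] at h3
    rw [hs] at h3
    linarith
  · intro l hl
    have hul : ((u.1, l • u.2) : E' × V).1 ∈ (extChartAt I' p.1).target := hu
    have hu1' : ((u.1, (1 : ℝ) • u.2) : E' × V).1 ∈ (extChartAt I' p.1).target := hu
    show G (u.1, (1 : ℝ) • u.2) (v.1, (1 : ℝ) • v.2) (v.1, (1 : ℝ) • v.2) ≤
      G (u.1, l • u.2) (v.1, l • v.2) (v.1, l • v.2)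
    rw [hu1, hv1, hGdef, chartMetric_prod g p hul, chartMetric_prod g p hu]
    exact hg.mono ((extChartAt I' p.1).symm u.1) u.2
      (mfderiv 𝓘(ℝ, E') I' (extChartAt I' p.1).symm u.1 v.1) v.2 l hl

omit [InnerProductSpace ℝ V] in
variable [NormedSpace ℝ V] in
theorem contMDiffAt_snd_curve {c : ℝ → N × V} {t : ℝ} {n : ℕ∞ω}
    (hc : ContMDiffAt 𝓘(ℝ, ℝ) (I'.prod 𝓘(ℝ, V)) n c t) :
    ContDiffAt ℝ n (fun s => (c s).2) t := by
  have h : ContMDiffAt 𝓘(ℝ, ℝ) 𝓘(ℝ, V) n (fun s => (c s).2) t :=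
    (contMDiffAt_snd (I := I') (J := 𝓘(ℝ, V))).comp t hc
  exact h.contDiffAt

/-- Along a geodesic of a radial metric the function `⟪w, w'⟫` is nondecreasing. -/
theorem IsRadial.hasDerivAt_inner [IsManifold I' ∞ N] [I'.Boundaryless] (hg : IsRadial g)
    (hsm : ContMDiff (I'.prod 𝓘(ℝ, V)) ((I'.prod 𝓘(ℝ, V)).prod
      𝓘(ℝ, (E' × V) →L[ℝ] (E' × V) →L[ℝ] ℝ)) ∞
      (fun b ↦ TotalSpace.mk' ((E' × V) →L[ℝ] (E' × V) →L[ℝ] ℝ) (E := fun x : N × V ↦
        TangentSpace (I'.prod 𝓘(ℝ, V)) x →L[ℝ] TangentSpace (I'.prod 𝓘(ℝ, V)) x →L[ℝ] ℝ) b (g b)))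
    {c : ℝ → N × V} {T : Set ℝ} (hc : IsGeodesic g c T) {t : ℝ} (ht : t ∈ T) :
    ∃ D : ℝ, 0 ≤ D ∧
      HasDerivAt (fun s => inner ℝ (deriv (fun r => (c r).2) s) (c s).2) D t := by
  have hcs : ∀ s ∈ T, ContMDiffAt 𝓘(ℝ, ℝ) (I'.prod 𝓘(ℝ, V)) 2 c s := fun s hs =>
    hc.smooth.contMDiffAt (hc.isOpen.mem_nhds hs)
  set p : N × V := c t with hp
  set u : ℝ → E' × V := fun s => extChartAt (I'.prod 𝓘(ℝ, V)) p (c s) with hu
  set G := chartMetric g p with hG
  have hsrc : ∀ᶠ s in 𝓝 t, c s ∈ (chartAt (ModelProd H' V) p).source := by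
    have h1 : ContinuousAt c t := (hcs t ht).continuousAt
    exact h1.eventually_mem ((chartAt (ModelProd H' V) p).open_source.mem_nhds
      (mem_chart_source (ModelProd H' V) p))
  have husm : ∀ᶠ s in 𝓝 t, ContDiffAt ℝ 2 u s := by
    filter_upwards [hsrc, hc.isOpen.mem_nhds ht] with s hs hsT
    have h2 : ContMDiffAt (I'.prod 𝓘(ℝ, V)) 𝓘(ℝ, E' × V) 2
        (extChartAt (I'.prod 𝓘(ℝ, V)) p) (c s) := contMDiffAt_extChartAt' hs
    exact (h2.comp s (hcs s hsT)).contDiffAt
  have hGd : ContDiffAt ℝ ∞ G (u t) := contDiffAt_chartMetric hsm p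
  have hGd' : DifferentiableAt ℝ G (u t) := hGd.differentiableAt (by simp)
  have hmain := hasDerivAt_radial (G := G) (u := u) (t := t) radL hGd' husm.self_of_nhds
    (hc.eqn t ht)
  have htgt : ∀ᶠ s in 𝓝 t, (u s).1 ∈ (extChartAt I' p.1).target := by
    have h1 : ContinuousAt (fun s => (c s).1) t := (hcs t ht).continuousAt.fst
    filter_upwards [h1.eventually_mem (extChartAt_source_mem_nhds (I := I') p.1)] with s hs
    have h2 : (u s).1 = extChartAt I' p.1 (c s).1 := by
      rw [hu]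
      simp only [extChartAt_prod_apply]
    rw [h2]
    exact (extChartAt I' p.1).map_source hs
  refine ⟨_, ?_, hmain.congr_of_eventuallyEq ?_⟩
  · exact hg.nonneg_chart p htgt.self_of_nhds hGd' (deriv u t)
  · filter_upwards [husm, htgt] with s hs hs'
    rw [radL_apply, hG, hg.chartMetric_radial p hs' (deriv u s)]
    have h3 : HasDerivAt u (deriv u s) s := (hs.differentiableAt two_ne_zero).hasDerivAt
    have h4 : HasDerivAt (fun r => (u r).2) (deriv u s).2 s := by
      have := (ContinuousLinearMap.snd ℝ E' V).hasFDerivAt.comp_hasDerivAt s h3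
      exact this
    have h5 : ∀ r, (u r).2 = (c r).2 := by
      intro r
      rw [hu]
      simp only [extChartAt_prod_apply]
    have h6 : (fun r => (c r).2) = fun r => (u r).2 := by
      funext r
      rw [h5]
    rw [h6, h4.deriv, h5]

/-- The zero section of `N × V` is totally convex for a radial metric. -/
theorem IsRadial.totallyConvex [IsManifold I' ∞ N] [I'.Boundaryless] (hg : IsRadial g)
    (hsm : ContMDiff (I'.prod 𝓘(ℝ, V)) ((I'.prod 𝓘(ℝ, V)).prod
      𝓘(ℝ, (E' × V) →L[ℝ] (E' × V) →L[ℝ] ℝ)) ∞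
      (fun b ↦ TotalSpace.mk' ((E' × V) →L[ℝ] (E' × V) →L[ℝ] ℝ) (E := fun x : N × V ↦
        TangentSpace (I'.prod 𝓘(ℝ, V)) x →L[ℝ] TangentSpace (I'.prod 𝓘(ℝ, V)) x →L[ℝ] ℝ)
        b (g b))) :
    TotallyConvex g {p : N × V | p.2 = 0} := by
  intro c T a b hc hab ha hb t ht
  have hcs : ∀ s ∈ T, ContDiffAt ℝ 2 (fun r => (c r).2) s := fun s hs =>
    contMDiffAt_snd_curve (hc.smooth.contMDiffAt (hc.isOpen.mem_nhds hs))
  choose! D hD0 hD using fun s (hs : s ∈ T) => hg.hasDerivAt_inner hsm hc hs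
  have hf1 : ∀ s ∈ T, HasDerivAt (fun r => ‖(c r).2‖ ^ 2)
      (2 * inner ℝ (deriv (fun r => (c r).2) s) (c s).2) s := by
    intro s hs
    have h1 : HasDerivAt (fun r => (c r).2) (deriv (fun r => (c r).2) s) s :=
      ((hcs s hs).differentiableAt two_ne_zero).hasDerivAt
    have h2 := h1.norm_sq
    rw [real_inner_comm] at h2
    exact h2
  have hconv : ConvexOn ℝ (Icc a b) (fun r => ‖(c r).2‖ ^ 2) := by
    refine convexOn_of_hasDerivWithinAt2_nonneg (convex_Icc a b)
      (f' := fun s => 2 * inner ℝ (deriv (fun r => (c r).2) s) (c s).2)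
      (f'' := fun s => 2 * D s) ?_ ?_ ?_ ?_
    · intro s hs
      exact (hf1 s (hab hs)).continuousAt.continuousWithinAt
    · intro s hs
      exact (hf1 s (hab (interior_subset hs))).hasDerivWithinAt
    · intro s hs
      exact ((hD s (hab (interior_subset hs))).const_mul 2).hasDerivWithinAt
    · intro s hs
      have := hD0 s (hab (interior_subset hs))
      positivity
  have hle : a ≤ b := ht.1.trans ht.2
  have h1 := hconv.le_max_of_mem_Icc (left_mem_Icc.2 hle) (right_mem_Icc.2 hle) ht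
  have ha' : (c a).2 = 0 := ha
  have hb' : (c b).2 = 0 := hb
  simp only [ha', hb', norm_zero, ne_eq, OfNat.ofNat_ne_zero, not_false_eq_true, zero_pow,
    max_self] at h1
  have h2 : ‖(c t).2‖ ^ 2 = 0 := le_antisymm h1 (sq_nonneg _)
  exact norm_eq_zero.1 (pow_eq_zero_iff two_ne_zero |>.1 h2)

/-- The differential of the zero section. -/
theorem mfderiv_zeroSection (y : N) (a : TangentSpace I' y) :
    mfderiv I' (I'.prod 𝓘(ℝ, V)) (fun y : N => ((y, 0) : N × V)) y a = tv I' (y, 0) a 0 := by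
  have h2 : mfderiv I' (I'.prod 𝓘(ℝ, V)) (fun y : N => ((y, 0) : N × V)) y =
      (mfderiv I' I' (fun y : N => y) y).prod (mfderiv I' 𝓘(ℝ, V) (fun _ : N => (0 : V)) y) :=
    mfderiv_prodMk mdifferentiableAt_id mdifferentiableAt_const
  have h3 : mfderiv I' I' (fun y : N => y) y = ContinuousLinearMap.id ℝ (TangentSpace I' y) :=
    mfderiv_id
  rw [h2, h3, mfderiv_const]
  rfl

/-- The metric induced on the zero section, in coordinates. -/
theorem chartMetric_induced_zero [IsManifold I' 1 N] [I'.Boundaryless]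
    (g : (x : N × V) → TangentSpace (I'.prod 𝓘(ℝ, V)) x →L[ℝ]
      TangentSpace (I'.prod 𝓘(ℝ, V)) x →L[ℝ] ℝ) (y : N) {u : E'}
    (hu : u ∈ (extChartAt I' y).target) (a a' : E') :
    chartMetric (induced I' g (fun y : N => ((y, 0) : N × V))) y u a a' =
      chartMetric g (y, 0) (u, 0) (a, 0) (a', 0) := by
  rw [chartMetric_prod g (y, 0) (u := (u, 0)) hu, chartMetric_apply, induced_apply,
    mfderiv_zeroSection, mfderiv_zeroSection]

theorem IsRadial.chartMetric_cross [IsManifold I' 1 N] [I'.Boundaryless] (hg : IsRadial g)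
    (p : N × V) {u : E'} (hu : u ∈ (extChartAt I' p.1).target) (a : E') (b : V) :
    chartMetric g p (u, 0) (a, 0) (0, b) = 0 := by
  rw [chartMetric_prod g p (u := (u, 0)) hu]
  have h0 : mfderiv 𝓘(ℝ, E') I' (extChartAt I' p.1).symm u (0 : E') = 0 :=
    (mfderiv 𝓘(ℝ, E') I' (extChartAt I' p.1).symm u).map_zero
  show g _ _ (tv I' _ (mfderiv 𝓘(ℝ, E') I' (extChartAt I' p.1).symm u (0 : E')) b) = _
  rw [h0]
  exact hg.cross ((extChartAt I' p.1).symm u) _ b

/-- At the zero section the derivatives of the horizontal part of the metric in the vertical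
directions vanish. -/
theorem IsRadial.D1_vert [IsManifold I' 1 N] [I'.Boundaryless] (hg : IsRadial g)
    (p : N × V) {u : E'} (hu : u ∈ (extChartAt I' p.1).target)
    (hd : DifferentiableAt ℝ (chartMetric g p) (u, 0)) (a : E') (b : V) :
    D1 (chartMetric g p) (u, 0) (0, b) (a, 0) (a, 0) = 0 := by
  have h1 : DifferentiableAt ℝ (fun q => chartMetric g p q (a, 0) (a, 0)) (u, 0) :=
    (hd.clm_apply (differentiableAt_const _)).clm_apply (differentiableAt_const _)
  have h2 : HasFDerivAt (fun w : V => ((u, w) : E' × V)) (ContinuousLinearMap.inr ℝ E' V) 0 :=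
    hasFDerivAt_prodMk_right u 0
  have h3 := h1.hasFDerivAt.comp (0 : V) h2
  have h4 : IsLocalMin ((fun q => chartMetric g p q (a, 0) (a, 0)) ∘
      fun w : V => ((u, w) : E' × V)) 0 := by
    refine Filter.Eventually.of_forall fun w => ?_
    show chartMetric g p (u, 0) (a, 0) (a, 0) ≤ chartMetric g p (u, w) (a, 0) (a, 0)
    rw [chartMetric_prod g p (u := (u, 0)) hu, chartMetric_prod g p (u := (u, w)) hu]
    exact hg.low ((extChartAt I' p.1).symm u) w _
  have h5 := h4.hasFDerivAt_eq_zero h3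
  have h6 := congrArg (fun L : V →L[ℝ] ℝ => L b) h5
  exact h6

/-- The zero section of `N × V` is totally geodesic for a radial metric. -/
theorem IsRadial.totallyGeodesic [IsManifold I' ∞ N] [I'.Boundaryless] (hg : IsRadial g)
    (hsm : ContMDiff (I'.prod 𝓘(ℝ, V)) ((I'.prod 𝓘(ℝ, V)).prod
      𝓘(ℝ, (E' × V) →L[ℝ] (E' × V) →L[ℝ] ℝ)) ∞
      (fun b ↦ TotalSpace.mk' ((E' × V) →L[ℝ] (E' × V) →L[ℝ] ℝ) (E := fun x : N × V ↦
        TangentSpace (I'.prod 𝓘(ℝ, V)) x →L[ℝ] TangentSpace (I'.prod 𝓘(ℝ, V)) x →L[ℝ] ℝ)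
        b (g b))) :
    TotallyGeodesic I' g (fun y : N => ((y, 0) : N × V)) := by
  intro c T hc
  refine ⟨hc.isOpen, ?_, ?_⟩
  · intro s hs
    exact (hc.smooth s hs).prodMk contMDiffWithinAt_const
  · intro t ht z
    have hcs : ∀ s ∈ T, ContMDiffAt 𝓘(ℝ, ℝ) I' 2 c s := fun s hs =>
      hc.smooth.contMDiffAt (hc.isOpen.mem_nhds hs)
    set G := chartMetric g (c t, 0) with hG
    set G0 := chartMetric (induced I' g (fun y : N => ((y, 0) : N × V))) (c t) with hG0
    set u1 : ℝ → E' := fun s => extChartAt I' (c t) (c s) with hu1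
    have hu : (fun s => extChartAt (I'.prod 𝓘(ℝ, V)) ((c t, 0) : N × V) (c s, 0)) =
        fun s => (u1 s, (0 : V)) := by
      funext s
      exact extChartAt_prod_apply ((c t, 0) : N × V) (c s, 0)
    have hct : ContinuousAt c t := (hcs t ht).continuousAt
    have htgt : ∀ᶠ s in 𝓝 t, u1 s ∈ (extChartAt I' (c t)).target := by
      filter_upwards [hct.eventually_mem (extChartAt_source_mem_nhds (I := I') (c t))] with s hs
      exact (extChartAt I' (c t)).map_source hs
    have husm : ∀ᶠ s in 𝓝 t, ContDiffAt ℝ 2 u1 s := by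
      have hsrc : ∀ᶠ s in 𝓝 t, c s ∈ (chartAt H' (c t)).source :=
        hct.eventually_mem ((chartAt H' (c t)).open_source.mem_nhds (mem_chart_source H' (c t)))
      filter_upwards [hsrc, hc.isOpen.mem_nhds ht] with s hs hsT
      exact ((contMDiffAt_extChartAt' (n := 2) hs).comp s (hcs s hsT)).contDiffAt
    have hder : ∀ᶠ s in 𝓝 t, deriv (fun s => (u1 s, (0 : V))) s = (deriv u1 s, 0) := by
      filter_upwards [husm] with s hs
      exact ((hs.differentiableAt two_ne_zero).hasDerivAt.prodMk (hasDerivAt_const s 0)).deriv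
    have hGd : DifferentiableAt ℝ G (u1 t, 0) := by
      have h1 : ContDiffAt ℝ ∞ G _ := contDiffAt_chartMetric hsm ((c t, 0) : N × V)
      have h2 : extChartAt (I'.prod 𝓘(ℝ, V)) ((c t, 0) : N × V) (c t, 0) = (u1 t, 0) :=
        congrFun hu t
      rw [h2] at h1
      exact h1.differentiableAt (by simp)
    rw [hu]
    have h1 := hc.eqn t ht z.1
    have hval : 1 / 2 * D1 G (u1 t, 0) z (deriv (fun s => (u1 s, (0 : V))) t)
        (deriv (fun s => (u1 s, (0 : V))) t) =
        1 / 2 * D1 G0 (u1 t) z.1 (deriv u1 t) (deriv u1 t) := by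
      rw [hder.self_of_nhds]
      have h2 : D1 G (u1 t, 0) z (deriv u1 t, 0) (deriv u1 t, 0) =
          D1 G (u1 t, 0) (z.1, 0) (deriv u1 t, 0) (deriv u1 t, 0) +
          D1 G (u1 t, 0) (0, z.2) (deriv u1 t, 0) (deriv u1 t, 0) := by
        unfold D1
        rw [← map_add]
        simp
      have h3 : D1 G0 (u1 t) z.1 (deriv u1 t) (deriv u1 t) =
          D1 G (u1 t, 0) (z.1, 0) (deriv u1 t, 0) (deriv u1 t, 0) := by
        unfold D1
        have h4 : (fun q => G0 q (deriv u1 t) (deriv u1 t)) =ᶠ[𝓝 (u1 t)]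
            fun q => G (q, 0) (deriv u1 t, 0) (deriv u1 t, 0) := by
          filter_upwards [(isOpen_extChartAt_target (I := I') (c t)).mem_nhds
            htgt.self_of_nhds] with q hq
          exact chartMetric_induced_zero g (c t) hq _ _
        rw [h4.fderiv_eq]
        have h5 : HasFDerivAt (fun q : E' => ((q, 0) : E' × V)) (ContinuousLinearMap.inl ℝ E' V)
            (u1 t) := hasFDerivAt_prodMk_left (u1 t) 0
        have h6 : DifferentiableAt ℝ (fun q => G q (deriv u1 t, 0) (deriv u1 t, 0)) (u1 t, 0) :=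
          (hGd.clm_apply (differentiableAt_const _)).clm_apply (differentiableAt_const _)
        have h7 := h6.hasFDerivAt.comp (u1 t) h5
        have h8 : fderiv ℝ (fun q => G (q, 0) (deriv u1 t, 0) (deriv u1 t, 0)) (u1 t) = _ :=
          h7.fderiv
        rw [h8]
        rfl
      rw [h2, hg.D1_vert (c t, 0) htgt.self_of_nhds hGd, h3, add_zero]
    show HasDerivAt (fun s => G (u1 s, 0) (deriv (fun s => (u1 s, (0 : V))) s) z)
      (1 / 2 * D1 G (u1 t, 0) z (deriv (fun s => (u1 s, (0 : V))) t)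
        (deriv (fun s => (u1 s, (0 : V))) t)) t
    rw [hval]
    refine h1.congr_of_eventuallyEq ?_
    filter_upwards [hder, htgt] with s hs hs'
    rw [hs]
    have h10 : G (u1 s, 0) (deriv u1 s, 0) (0, z.2) = 0 :=
      hg.chartMetric_cross (c t, 0) hs' _ _
    have h9 : G (u1 s, 0) (deriv u1 s, 0) z = G (u1 s, 0) (deriv u1 s, 0) (z.1, 0) := by
      have h11 : G (u1 s, 0) (deriv u1 s, 0) z =
          G (u1 s, 0) (deriv u1 s, 0) ((z.1, 0) + (0, z.2)) := by simp
      rw [h11, map_add, h10, add_zero]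
    rw [h9]
    exact (chartMetric_induced_zero g (c t) hs' _ _).symm

end Prod

end Pool.Agent.HS
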